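import Pool.Agent.helper25.UC.B3

/-!
# B5 : bounds for the envelope in the region

`(c,r)` maximiser, `d² = dsq`, `n0 = card V`, `off² = o2(z)`,
`a_j = a_j(z)`.

**env_lower**: `env ≥ -o2/τ` (the candidate `(z.c, ∑ a_j e_j)`).
**env_upper**: `env ≤ Th(c,r) = AA(ρ,ρ) - E|ρ|² ≤ (2n0+2)|ρ|² ≤ (2 n0+2)(off + d)² ≤
(2n0+2)(1+√3)² o2 ≤ 16 (n0+1) o2`.
**env_gap**: `E'' ≤ E'` and `env^{E'}(z) ≥ 0`: let `(c,r)` be a maximiser for `E'`.
`d²/τ ≤ Th^{E'}(c,r) ≤ (2n0+2)|ρ|²`, so `d² ≤ τ(2n0+2)|ρ|² ≤ |ρ|²` and `off ≤ |ρ| + d ≤ 2|ρ|`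
(`rho_ge`).  By `Th_mono`, `env^{E''}(z) ≥ Th^{E''}(c,r) - d²/τ = env^{E'}(z) + (E'-E'')|ρ|² ≥
env^{E'}(z) + (E'-E'') o2/4`.
-/

namespace UC
open Finset
variable {V : Type} [Fintype V] [DecidableEq V] {s k : ℕ}
variable {G : SimpleGraph V} [DecidableRel G.Adj]

theorem b5_eps_self (a : Fin s) : eps a a = 1 := if_pos rfl

/-- the candidate `∑ a_j e_j` -/
theorem Flag.b5_lower (F : Flag G s k) (E τ : ℝ) (hE : |E| ≤ cV V + 2) (hτ : 0 < τ)
    (hτ0 : τ ≤ tau0 V) (z : St V s) (hc : ∀ v ∈ F.I, z.c v = F.σ v) :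
    -(F.o2 (nR z)) / τ ≤ F.env E τ z := by
  obtain ⟨r0, hr0⟩ : ∃ r0 : V → ℝ, r0 = fun v => ∑ j, F.a j (nR z) * F.e j v := ⟨_, rfl⟩
  have hoff : ∀ v, v ∉ F.I → r0 v = 0 := by
    intro v hv
    rw [hr0]
    exact Finset.sum_eq_zero (fun j _ => by rw [F.supp j v hv, mul_zero])
  have hsum : (fun v => r0 v + F.rho (nR z) v) = nR z := by
    funext v
    rw [hr0]
    unfold Flag.rho
    ring
  have ha : ∀ j, F.a j r0 = F.a j (nR z) := by
    intro j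
    have h1 := F.a_add j r0 (F.rho (nR z))
    rw [hsum, F.a_rho, add_zero] at h1
    exact h1.symm
  have hrho : F.rho r0 = fun _ => 0 := by
    funext v
    unfold Flag.rho
    rw [Finset.sum_congr rfl (fun j _ => by rw [ha j])]
    rw [hr0]
    ring
  have ho2 : F.o2 r0 = 0 := by
    rw [F.o2_eq, hrho]
    simp
  have hell : ∀ j, F.ell z.c r0 j = 0 := by
    intro j
    unfold Flag.ell
    refine Finset.sum_eq_zero (fun v _ => ?_)
    by_cases hv : v ∈ F.I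
    · rw [if_pos hv]
    · rw [if_neg hv, hoff v hv, zero_mul]
  have hTh : F.Th E z.c r0 = 0 := by
    rw [F.Th_eq E z.c r0 hc, ho2, hrho]
    simp only [hell, AA]
    simp
  have hdsq : dsq z.c (nR z) z.c r0 = F.o2 (nR z) := by
    rw [F.o2_eq]
    unfold dsq
    refine Finset.sum_congr rfl (fun v _ => ?_)
    rw [b5_eps_self, hr0]
    unfold Flag.rho
    ring
  have hadm : F.Adm z.c r0 := ⟨hc, fun v hv => (hoff v hv).ge⟩
  have h1 := F.le_env E τ hE hτ hτ0 z z.c r0 hadm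
  unfold Flag.val at h1
  rw [hTh, hdsq, zero_sub, ← neg_div] at h1
  exact h1

theorem Flag.b5_Th_le (F : Flag G s k) {E : ℝ} (hE : |E| ≤ cV V + 2) {c : V → Fin s} {r : V → ℝ}
    (h : F.Th E c r = AA G c (F.rho r) c (F.rho r) - E * F.o2 r) :
    F.Th E c r ≤ (2 * cV V + 2) * F.o2 r := by
  have h1 := AA_self_le (G := G) c (F.rho r)
  rw [← F.o2_eq] at h1
  have h2 := (abs_le.1 h1).2
  have h3 := F.o2_nonneg r
  have h4 : -E * F.o2 r ≤ (cV V + 2) * F.o2 r :=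
    mul_le_mul_of_nonneg_right (by have := (abs_le.1 hE).1; linarith) h3
  rw [h]
  linarith

theorem Flag.env_bounds (F : Flag G s k) (τ : ℝ) (hτ : 0 < τ) (hτ0 : τ ≤ tau0 V) :
    ∃ δ0 > 0, ∀ δx δo : ℝ, 0 ≤ δx → δx ≤ δ0 → 0 ≤ δo → δo ≤ δ0 → ∀ z, F.Reg δx δo z →
      (∀ E : ℝ, |E| ≤ cV V + 2 → -(F.o2 (nR z)) / τ ≤ F.env E τ z) ∧
      (∀ E : ℝ, |E| ≤ cV V + 2 → F.env E τ z ≤ 16 * (cV V + 1) * F.o2 (nR z)) ∧
      (∀ E' E'' : ℝ, |E'| ≤ cV V + 2 → |E''| ≤ cV V + 2 → E'' ≤ E' → 0 ≤ F.env E' τ z →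
        F.env E' τ z + (E' - E'') * F.o2 (nR z) / 4 ≤ F.env E'' τ z) := by
  obtain ⟨δ0, hδ0, hfacts⟩ := F.mx_facts τ hτ hτ0
  refine ⟨δ0, hδ0, fun δx δo h1 h2 h3 h4 z hz => ⟨?_, ?_, ?_⟩⟩
  · intro E hE
    exact F.b5_lower E τ hE hτ hτ0 z (fun v hv => (hz.2.1 v hv).1)
  · intro E hE
    obtain ⟨c, r, hmx⟩ := F.exists_mx E τ hE hτ hτ0 z
    have hf := hfacts E hE δx δo h1 h2 h3 h4 z hz c r hmx
    rw [F.env_eq E τ z c r hmx]
    unfold Flag.val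
    have hd0 := dsq_nonneg z.c (nR z) c r
    have hd1 : 0 ≤ dsq z.c (nR z) c r / τ := div_nonneg hd0 hτ.le
    have hT := F.b5_Th_le hE hf.Th_eq
    have hn : 0 ≤ cV V := Nat.cast_nonneg _
    have ho := F.o2_nonneg (nR z)
    have ho' := F.o2_nonneg r
    have hA := Real.sq_sqrt ho
    have hR := Real.sq_sqrt ho'
    have hB := Real.sq_sqrt hd0
    have hA0 := Real.sqrt_nonneg (F.o2 (nR z))
    have hR0 := Real.sqrt_nonneg (F.o2 r)
    have hB0 := Real.sqrt_nonneg (dsq z.c (nR z) c r)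
    have hle := hf.rho_le
    have hdist := hf.dist
    have hkey : F.o2 r ≤ 8 * F.o2 (nR z) := by
      have h5 : Real.sqrt (F.o2 r) ^ 2 ≤
          (Real.sqrt (F.o2 (nR z)) + Real.sqrt (dsq z.c (nR z) c r)) ^ 2 :=
        pow_le_pow_left₀ hR0 hle 2
      nlinarith [sq_nonneg (2 * Real.sqrt (F.o2 (nR z)) - Real.sqrt (dsq z.c (nR z) c r))]
    have h6 : (2 * cV V + 2) * F.o2 r ≤ (2 * cV V + 2) * (8 * F.o2 (nR z)) :=
      mul_le_mul_of_nonneg_left hkey (by linarith)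
    linarith
  · intro E' E'' hE' hE'' hle hnn
    obtain ⟨c, r, hmx⟩ := F.exists_mx E' τ hE' hτ hτ0 z
    have hf := hfacts E' hE' δx δo h1 h2 h3 h4 z hz c r hmx
    have henv := F.env_eq E' τ z c r hmx
    have hle2 := F.le_env E'' τ hE'' hτ hτ0 z c r hmx.1
    have hmono := F.Th_mono E'' E' c r
    unfold Flag.val at henv hle2
    have hd0 := dsq_nonneg z.c (nR z) c r
    have hT := F.b5_Th_le hE' hf.Th_eq
    have hn : 0 ≤ cV V := Nat.cast_nonneg _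
    have ho := F.o2_nonneg (nR z)
    have ho' := F.o2_nonneg r
    have hA := Real.sq_sqrt ho
    have hR := Real.sq_sqrt ho'
    have hB := Real.sq_sqrt hd0
    have hA0 := Real.sqrt_nonneg (F.o2 (nR z))
    have hR0 := Real.sqrt_nonneg (F.o2 r)
    have hB0 := Real.sqrt_nonneg (dsq z.c (nR z) c r)
    have hge := hf.rho_ge
    have hτ1 : τ * (2 * cV V + 2) ≤ 1 := by
      have h5 : τ * (16 * (cV V + 2) ^ 2) ≤ 1 := by
        have h6 : 0 < 16 * (cV V + 2) ^ 2 := by positivity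
        have h7 := mul_le_mul_of_nonneg_right hτ0 h6.le
        rwa [tau0, one_div, inv_mul_cancel₀ h6.ne'] at h7
      nlinarith
    have h5 : dsq z.c (nR z) c r / τ ≤ (2 * cV V + 2) * F.o2 r := by linarith
    rw [div_le_iff₀ hτ] at h5
    have h6 : dsq z.c (nR z) c r ≤ F.o2 r := by
      have h7 : (2 * cV V + 2) * F.o2 r * τ ≤ 1 * F.o2 r := by
        have := mul_le_mul_of_nonneg_right hτ1 ho'
        linarith
      linarith
    have h7 : Real.sqrt (dsq z.c (nR z) c r) ≤ Real.sqrt (F.o2 r) := Real.sqrt_le_sqrt h6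
    have h8 : F.o2 (nR z) ≤ 4 * F.o2 r := by
      have h9 : Real.sqrt (F.o2 (nR z)) ≤ 2 * Real.sqrt (F.o2 r) := by linarith
      have h10 := pow_le_pow_left₀ hA0 h9 2
      nlinarith
    have h9 : (E' - E'') * F.o2 (nR z) ≤ (E' - E'') * (4 * F.o2 r) :=
      mul_le_mul_of_nonneg_left h8 (by linarith)
    rw [henv]
    rw [hmono] at hle2
    linarith

end UC
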