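import Pool.Agent.helper25.UC.A4
import Pool.Agent.helper25.UC.B5

/-!
# B7 : drift of `o2`

`gen o2 ≤ 2 env^E + 2E o2 - (3/2) S + C tot` for every `|E| ≤ card V + 2`.

Proof.  By `gen_o2`, `gen o2 ≤ 2AA(ρ,ρ) - 2S + n0 tot`, `ρ = rho z`.  Let
`M = {v ∉ I : some Lf σ (z.c v) v e_j ≠ 0}` (strict urns), `m = ρ 1_M = n 1_M`, `m² := ∑_M n_v²`,
`z̄` = the real configuration `(z.c, n)` with the values on `M` replaced by `0`; then
`rho z̄ = ρ - m =: ρ̄` (the `a_j` do not see `M`), `ell_j(z̄) = 0` (off `I` and off `M` all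
`Lf σ (z.c v) v e_j` vanish), so `Th^E(z̄) = AA(ρ̄,ρ̄) - E|ρ̄|²` (`Th_eq`),
`|ρ̄|² = o2 - m²`, `dsq(z,z̄) = m²`, `z̄` is admissible.  Therefore
`AA(ρ̄,ρ̄) ≤ env + E(o2 - m²) + m²/τ`.
`AA(ρ,ρ) = AA(ρ̄,ρ̄) + 2AA(ρ̄,m) + AA(m,m) ≤ AA(ρ̄,ρ̄) + 3 n0 √o2 √(m²)` (`AA_le`).
So `gen o2 ≤ 2env + 2E o2 + 2(n0+2) m² + 2 m²/τ + 6 n0 √o2 √(m²) - 2 S + n0 tot`.
Now `m² ≤ √o2 √(m²)`, and `√(m²) ≤ ∑_M n_v`; by `Facts.mass` for each `v ∈ M`:
`c a_j n_v ≤ S` for some `j`, and `√o2 ≤ δo a_j` (definition of `Reg`; `a_j > 0`), so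
`√o2 · n_v ≤ δo a_j n_v ≤ (δo/c) S`; summing over at most `n0` vertices:
`√o2 √(m²) ≤ (n0 δo/c) S`.  So the error terms are `≤ C_τ δo S ≤ S/2` for `δo ≤ δ0`.
(If `k = 0` then `M = ∅`.)
-/

namespace UC
open Finset
variable {V : Type} [Fintype V] [DecidableEq V] {s k : ℕ}
variable {G : SimpleGraph V} [DecidableRel G.Adj]

theorem b7_AA_add (c : V → Fin s) (x y : V → ℝ) :
    AA G c (fun v => x v + y v) c (fun v => x v + y v) =
      AA G c x c x + 2 * AA G c x c y + AA G c y c y := by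
  have h1 : AA G c (fun v => x v + y v) c (fun v => x v + y v) =
      AA G c x c x + AA G c x c y + AA G c y c x + AA G c y c y := by
    rw [AA_eq_Lf, AA_eq_Lf, AA_eq_Lf, AA_eq_Lf, AA_eq_Lf, ← Finset.sum_add_distrib,
      ← Finset.sum_add_distrib, ← Finset.sum_add_distrib]
    apply Finset.sum_congr rfl
    intro v _
    rw [Lf_add]
    ring
  have h2 := AA_symm (G := G) c y c x
  rw [h1, h2]; ring

theorem Flag.off_drift (F : Flag G s k) (τ : ℝ) (hτ : 0 < τ) (hτ0 : τ ≤ tau0 V) :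
    ∃ δ0 > 0, ∃ C > 0, ∀ E : ℝ, |E| ≤ cV V + 2 → ∀ δx δo : ℝ, 0 ≤ δx → δx ≤ δ0 → 0 ≤ δo →
      δo ≤ δ0 → ∀ z, F.Reg δx δo z →
      gen G (fun y => F.o2 (nR y)) z ≤
        2 * F.env E τ z + 2 * E * F.o2 (nR z) - 3 / 2 * F.S z.c (nR z) + C * tot z := by
  classical
  have hn0 : 0 ≤ cV V := Nat.cast_nonneg _
  obtain ⟨δ1, hδ1, c, hc, C, hC, H⟩ := F.reg_facts
  set K : ℝ := 2 * (cV V + 2) + 2 / τ + 6 * cV V with hK
  have hK0 : 0 ≤ K := by rw [hK]; positivity
  refine ⟨min δ1 (c / (2 * (K + 1) * (cV V + 1))), lt_min hδ1 (by positivity), cV V + 1,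
    by positivity, ?_⟩
  intro E hE δx δo hx0 hx1 ho0 ho1 z hz
  have hδ : δo ≤ c / (2 * (K + 1) * (cV V + 1)) := ho1.trans (min_le_right _ _)
  have hf := H δx δo hx0 (hx1.trans (min_le_left _ _)) ho0 (ho1.trans (min_le_left _ _)) z hz
  have hm : F.Match z := hz.2.1
  have hg := F.gen_o2 z hm
  let p : V → Prop := fun v => v ∉ F.I ∧ ∃ j, Lf G F.σ (z.c v) v (F.e j) ≠ 0
  let m : V → ℝ := fun v => if p v then (z.n v : ℝ) else 0
  let rb : V → ℝ := fun v => if p v then 0 else (z.n v : ℝ)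
  have hm1 : ∀ v, p v → m v = (z.n v : ℝ) := fun v h => if_pos h
  have hm0 : ∀ v, ¬ p v → m v = 0 := fun v h => if_neg h
  have hr1 : ∀ v, p v → rb v = 0 := fun v h => if_pos h
  have hr0 : ∀ v, ¬ p v → rb v = (z.n v : ℝ) := fun v h => if_neg h
  have hsplit : ∀ v, nR z v = rb v + m v := by
    intro v
    by_cases h : p v
    · rw [hm1 v h, hr1 v h]; simp [nR]
    · rw [hm0 v h, hr0 v h]; simp [nR]
  have ha : ∀ j, F.a j rb = F.a j (nR z) := by
    intro j
    unfold Flag.a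
    apply Finset.sum_congr rfl
    intro v _
    by_cases h : p v
    · rw [F.supp j v h.1]; simp
    · rw [hsplit v, hm0 v h]; simp
  have hrho : ∀ v, F.rho (nR z) v = F.rho rb v + m v := by
    intro v
    unfold Flag.rho
    simp only [ha]
    rw [hsplit v]; ring
  set m2 : ℝ := ∑ v, m v ^ 2 with hm2
  have hm20 : 0 ≤ m2 := Finset.sum_nonneg fun v _ => sq_nonneg _
  have ho2 : F.o2 (nR z) = F.o2 rb + m2 := by
    unfold Flag.o2
    simp only [ha]
    have : ∑ v, nR z v ^ 2 = ∑ v, rb v ^ 2 + m2 := by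
      rw [hm2, ← Finset.sum_add_distrib]
      apply Finset.sum_congr rfl
      intro v _
      rw [hsplit v]
      by_cases h : p v
      · rw [hr1 v h]; ring
      · rw [hm0 v h]; ring
    rw [this]; ring
  have hell : ∀ j, F.ell z.c rb j = 0 := by
    intro j
    unfold Flag.ell
    apply Finset.sum_eq_zero
    intro v _
    by_cases hv : v ∈ F.I
    · rw [if_pos hv]
    · rw [if_neg hv]
      by_cases h : p v
      · rw [hr1 v h, zero_mul]
      · have : Lf G F.σ (z.c v) v (F.e j) = 0 := by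
          by_contra hcon
          exact h ⟨hv, j, hcon⟩
        rw [this, mul_zero]
  have hcσ : ∀ v ∈ F.I, z.c v = F.σ v := fun v hv => (hm v hv).1
  have hTh : F.Th E z.c rb = AA G z.c (F.rho rb) z.c (F.rho rb) - E * F.o2 rb := by
    rw [F.Th_eq E z.c rb hcσ]
    simp only [hell]
    simp
  have hadm : F.Adm z.c rb := by
    refine ⟨hcσ, fun v _ => ?_⟩
    by_cases h : p v
    · rw [hr1 v h]
    · rw [hr0 v h]; exact Nat.cast_nonneg _
  have hdsq : dsq z.c (nR z) z.c rb = m2 := by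
    unfold dsq
    rw [hm2]
    apply Finset.sum_congr rfl
    intro v _
    have he : eps (z.c v) (z.c v) = 1 := if_pos rfl
    rw [he, hsplit v]; ring
  have henv := F.le_env E τ hE hτ hτ0 z z.c rb hadm
  unfold Flag.val at henv
  rw [hTh, hdsq] at henv
  -- the form
  have hfun : F.rho (nR z) = fun v => F.rho rb v + m v := funext hrho
  have hAA : AA G z.c (F.rho (nR z)) z.c (F.rho (nR z)) =
      AA G z.c (F.rho rb) z.c (F.rho rb) + 2 * AA G z.c (F.rho rb) z.c m + AA G z.c m z.c m := by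
    rw [hfun]
    exact b7_AA_add z.c (F.rho rb) m
  have hob0 : 0 ≤ F.o2 rb := F.o2_nonneg _
  have ho0' : 0 ≤ F.o2 (nR z) := F.o2_nonneg _
  set q : ℝ := Real.sqrt (F.o2 (nR z)) with hq
  set sm : ℝ := Real.sqrt m2 with hsm
  have hq0 : 0 ≤ q := Real.sqrt_nonneg _
  have hsm0 : 0 ≤ sm := Real.sqrt_nonneg _
  have hsmq : sm ≤ q := Real.sqrt_le_sqrt (by linarith)
  have hsm2 : sm ^ 2 = m2 := Real.sq_sqrt hm20
  have hA1 : AA G z.c (F.rho rb) z.c m ≤ cV V * (q * sm) := by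
    have e1 := (abs_le.1 (AA_le (G := G) z.c (F.rho rb) z.c m)).2
    rw [← F.o2_eq rb] at e1
    have e2 : Real.sqrt (F.o2 rb) ≤ q := Real.sqrt_le_sqrt (by linarith)
    have e3 : cV V * (Real.sqrt (F.o2 rb) * Real.sqrt (∑ v, m v ^ 2)) ≤ cV V * (q * sm) :=
      mul_le_mul_of_nonneg_left (mul_le_mul_of_nonneg_right e2 hsm0) hn0
    linarith
  have hA2 : AA G z.c m z.c m ≤ cV V * (q * sm) := by
    have e1 := (abs_le.1 (AA_self_le (G := G) z.c m)).2
    have e2 : m2 ≤ q * sm := by rw [← hsm2]; nlinarith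
    have e3 : cV V * m2 ≤ cV V * (q * sm) := mul_le_mul_of_nonneg_left e2 hn0
    linarith
  have hm2q : m2 ≤ q * sm := by rw [← hsm2]; nlinarith
  -- mass bound
  have hS0 := hf.S_nonneg
  have hmass : ∀ v, q * m v ≤ δo / c * F.S z.c (nR z) := by
    intro v
    by_cases h : p v
    · rw [hm1 v h]
      obtain ⟨j, hj⟩ := hf.mass v h.1 h.2
      have e1 := hz.2.2.2.2.1 j
      have e2 := hz.2.2.1 j
      have e3 : q ≤ δo * F.a j (nR z) := by
        apply Real.sqrt_le_iff.2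
        refine ⟨by positivity, ?_⟩
        rw [mul_pow]; exact e1
      have e4 : (0:ℝ) ≤ z.n v := Nat.cast_nonneg _
      have e5 : q * (z.n v : ℝ) ≤ δo * F.a j (nR z) * z.n v := mul_le_mul_of_nonneg_right e3 e4
      have e6 : δo / c * (c * F.a j (nR z) * z.n v) ≤ δo / c * F.S z.c (nR z) :=
        mul_le_mul_of_nonneg_left hj (by positivity)
      have e7 : δo / c * (c * F.a j (nR z) * z.n v) = δo * F.a j (nR z) * z.n v := by
        field_simp
      linarith
    · rw [hm0 v h, mul_zero]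
      positivity
  have hsm_le : sm ≤ ∑ v, m v := by
    have hmn : ∀ v, 0 ≤ m v := by
      intro v
      by_cases h : p v
      · rw [hm1 v h]; exact Nat.cast_nonneg _
      · rw [hm0 v h]
    apply Real.sqrt_le_iff.2
    refine ⟨Finset.sum_nonneg fun v _ => hmn v, ?_⟩
    rw [hm2]
    exact Finset.sum_sq_le_sq_sum_of_nonneg fun v _ => hmn v
  have hqsm : q * sm ≤ cV V * (δo / c * F.S z.c (nR z)) := by
    calc q * sm ≤ q * ∑ v, m v := mul_le_mul_of_nonneg_left hsm_le hq0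
      _ = ∑ v, q * m v := by rw [Finset.mul_sum]
      _ ≤ ∑ _v : V, δo / c * F.S z.c (nR z) := Finset.sum_le_sum fun v _ => hmass v
      _ = cV V * (δo / c * F.S z.c (nR z)) := by simp [cV]
  have hKS : K * (q * sm) ≤ 1 / 2 * F.S z.c (nR z) := by
    have e1 : K * (q * sm) ≤ K * (cV V * (δo / c * F.S z.c (nR z))) :=
      mul_le_mul_of_nonneg_left hqsm hK0
    have e2 : K * (cV V * (δo / c)) ≤ 1 / 2 := by
      have f1 : δo / c ≤ 1 / (2 * (K + 1) * (cV V + 1)) := by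
        rw [div_le_iff₀ hc]
        calc δo ≤ c / (2 * (K + 1) * (cV V + 1)) := hδ
          _ = 1 / (2 * (K + 1) * (cV V + 1)) * c := by ring
      have f2 : K * (cV V * (δo / c)) ≤ (K + 1) * ((cV V + 1) * (1 / (2 * (K + 1) * (cV V + 1)))) := by
        have g0 : 0 ≤ δo / c := by positivity
        have g1 : cV V * (δo / c) ≤ (cV V + 1) * (1 / (2 * (K + 1) * (cV V + 1))) :=
          mul_le_mul (by linarith) f1 g0 (by positivity)
        have g2 : 0 ≤ cV V * (δo / c) := by positivity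
        exact mul_le_mul (by linarith) g1 g2 (by positivity)
      have f3 : (K + 1) * ((cV V + 1) * (1 / (2 * (K + 1) * (cV V + 1)))) = 1 / 2 := by
        have : K + 1 ≠ 0 := by positivity
        have : cV V + 1 ≠ 0 := by positivity
        field_simp
      linarith
    have e3 : K * (cV V * (δo / c * F.S z.c (nR z))) = K * (cV V * (δo / c)) * F.S z.c (nR z) := by ring
    have e4 : K * (cV V * (δo / c)) * F.S z.c (nR z) ≤ 1 / 2 * F.S z.c (nR z) :=
      mul_le_mul_of_nonneg_right e2 hS0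
    linarith
  -- conclusion
  have htot : 0 ≤ tot z := tot_nonneg z
  have hE1 : -(E * m2) ≤ (cV V + 2) * (q * sm) := by
    have e1 : -E ≤ cV V + 2 := by linarith [(abs_le.1 hE).1]
    have e2 : -(E * m2) ≤ (cV V + 2) * m2 := by nlinarith
    have e3 : (cV V + 2) * m2 ≤ (cV V + 2) * (q * sm) :=
      mul_le_mul_of_nonneg_left hm2q (by positivity)
    linarith
  have hτm : m2 / τ ≤ (1 / τ) * (q * sm) := by
    rw [div_eq_mul_inv, mul_comm, ← one_div]
    exact mul_le_mul_of_nonneg_left hm2q (by positivity)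
  have hob : F.o2 rb = F.o2 (nR z) - m2 := by linarith
  rw [hob] at henv
  have hKe : K * (q * sm) = 2 * ((cV V + 2) * (q * sm)) + 2 * ((1 / τ) * (q * sm)) +
      6 * (cV V * (q * sm)) := by rw [hK]; ring
  have hfin : 2 * AA G z.c (F.rho (nR z)) z.c (F.rho (nR z)) ≤
      2 * F.env E τ z + 2 * E * F.o2 (nR z) + K * (q * sm) := by
    rw [hAA, hKe]
    nlinarith [henv, hA1, hA2, hE1, hτm]
  nlinarith [hg, hfin, hKS, htot]

/-- crude version: `2AA(ρ,ρ) ≤ 2 n0 o2`. -/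
theorem Flag.off_drift_crude (F : Flag G s k) (z : St V s) (hm : F.Match z) :
    gen G (fun y => F.o2 (nR y)) z ≤
      2 * cV V * F.o2 (nR z) - 2 * F.S z.c (nR z) + cV V * tot z := by
  have hg := F.gen_o2 z hm
  have e1 := (abs_le.1 (AA_self_le (G := G) z.c (F.rho (nR z)))).2
  rw [← F.o2_eq] at e1
  linarith

end UC
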