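import Pool.Agent.helper25.UC.A4
import Pool.Agent.helper25.UC.B4

/-!
# B6 : the region and the envelope in one step

`n0 = card V`.  For `k ≥ 1` and `z ∈ Reg δx δo`, `δx ≤ δ0` small: `a_j ≤ a_0 ≤ tot ≤ δx² a_j²`, so
`a_j ≥ 1/δx²` for all `j`; also `tot ≥ a_j ≥ 1/δx²`, and `n_v ≥ c a_last ≥ 2` on `I`.

**reg_step** (`δx ≤ δo ≤ δ0`): `z^w ∈ Reg (2δx) (2δo)`.
* colours kept and `n ≥ 1` on `I` (`n_v ≥ 2` before, changes by one);
* `|Δa_j| ≤ n0 ≤ n0 δx² a_j`, so `a_j(z^w) ≥ a_j/2 > 0`, and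
  `a_j(z^w) ≤ a_j (1+n0δx²) ≤ δx (1+n0 δx²) a_i ≤ δx (1+n0δx²)/(1-n0δx²) a_i(z^w) ≤ 2δx a_i(z^w)`;
* `o2(z^w) ≤ o2 + C(√o2 + 1) ≤ δo² a_j² + C (δo a_j + 1)`; as `δo a_j ≥ δo/δx² ≥ 1/δx ≥ 1/δ0`,
  `C(δo a_j + 1) ≤ δo² a_j² · 2Cδ0 ≤ δo² a_j²`; so `≤ 2 δo² a_j² ≤ 4 δo² a_j(z^w)²`
  (`a_j(z^w)² ≥ a_j²(1-n0δx²)² ≥ a_j²/2`);
* `tot(z^w) ≤ tot + n0 ≤ 2 tot` (`tot ≥ 1/δx² ≥ n0`) `≤ 2δx² a_j² ≤ 4 δx² a_j(z^w)²`;
* `1 ≤ tot (z^w)`.
For `k = 0` everything is vacuous except `1 ≤ tot`.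

**env_step_upper**: `env(z^w) ≤ env(z) + C(√o2 + 1)`: let `(c,r)` be a maximiser for `z^w` (which
lies in `Reg (2δx) (2δo)`, so `MxFacts` hold: `dsq(z^w,(c,r)) ≤ 3 o2(z^w) ≤ C(o2+1)`).
`√dsq(z,(c,r)) ≤ √dsq(z,z^w) + √dsq(z^w,(c,r))` (`dsq_tri`; `dsq(z,z^w) ≤ n0`)
`≤ C(√o2+1)`; `env(z) ≥ Th - dsq(z,(c,r))/τ = env(z^w) + (dsq(z^w,·) - dsq(z,·))/τ ≥
env(z^w) - n0(2√dsq(z,(c,r)) + 1)/τ` by `step_dsq_abs`.

**env_step_lower**: from `engine`: `x_w ≤ C(d+1)`, `d ≤ 2 √o2`.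
-/

namespace UC
open Finset
variable {V : Type} [Fintype V] [DecidableEq V] {s k : ℕ}
variable {G : SimpleGraph V} [DecidableRel G.Adj]

theorem b6_cV_nonneg : 0 ≤ cV V := Nat.cast_nonneg _

theorem Flag.b6_I_zero (F : Flag G s 0) (v : V) (hv : v ∈ F.I) : False := by
  obtain ⟨j, _⟩ := F.cover v hv
  exact j.elim0

/-- everything is large in the region (flags of positive length) -/
theorem Flag.reg_large (F : Flag G s (k + 1)) : ∃ δ0 > 0,
    ∀ δx δo : ℝ, 0 < δx → δx ≤ δo → δo ≤ δ0 → ∀ z, F.Reg δx δo z →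
      (∀ j, 1 / δx ^ 2 ≤ F.a j (nR z)) ∧ 1 / δx ^ 2 ≤ tot z ∧
      ∀ w, 1 ≤ z.n w → tot (step G z w) ≤ 2 * tot z ∧ tot z ≤ 2 * tot (step G z w) := by
  obtain ⟨δ1, hδ1, c, hc, C, hC, H⟩ := F.reg_facts1
  have hn0 : 0 ≤ cV V := b6_cV_nonneg
  refine ⟨min δ1 (1 / (2 * (cV V + 1))), lt_min hδ1 (by positivity), ?_⟩
  intro δx δo h0 h1 h2 z hz
  have hδo1 : δo ≤ δ1 := h2.trans (min_le_left _ _)
  have hδo2 : δo ≤ 1 / (2 * (cV V + 1)) := h2.trans (min_le_right _ _)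
  obtain ⟨-, F1⟩ := H δx δo h0.le (h1.trans hδo1) (h0.le.trans h1) hδo1 z hz
  have hsq : 0 < δx ^ 2 := by positivity
  have haj : ∀ j, 1 / δx ^ 2 ≤ F.a j (nR z) := by
    intro j
    have e1 := F1.le_zero j
    have e2 := F1.zero_le_tot
    have e3 := hz.2.2.2.2.2 j
    have e4 := hz.2.2.1 j
    have e5 : 1 * F.a j (nR z) ≤ (δx ^ 2 * F.a j (nR z)) * F.a j (nR z) := by nlinarith
    have e6 := le_of_mul_le_mul_right e5 e4
    rw [div_le_iff₀ hsq]; linarith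
  have htot : 1 / δx ^ 2 ≤ tot z := (haj 0).trans F1.zero_le_tot
  refine ⟨haj, htot, fun w hw => ?_⟩
  have hbig : 2 * cV V ≤ tot z := by
    have e1 : δx * (2 * (cV V + 1)) ≤ 1 := by
      have := h1.trans hδo2
      rwa [le_div_iff₀ (by positivity)] at this
    have e2 : (δx * (2 * (cV V + 1))) ^ 2 ≤ 1 := pow_le_one₀ (by positivity) e1
    have e3 : 4 * (cV V + 1) ^ 2 ≤ 1 / δx ^ 2 := by
      rw [le_div_iff₀ hsq]; nlinarith
    nlinarith
  have e1 := step_tot_le (G := G) z w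
  have e2 := step_tot_ge (G := G) z w
  constructor <;> linarith

theorem Flag.b6_zero (F : Flag G s 0) : ∃ δ0 > 0, ∃ C > 0,
    ∀ δx δo : ℝ, 0 < δx → δx ≤ δo → δo ≤ δ0 → ∀ z, F.Reg δx δo z → ∀ w, 1 ≤ z.n w →
      F.Reg (2 * δx) (2 * δo) (step G z w) ∧
      (∀ j, |F.a j (nR (step G z w)) - F.a j (nR z)| ≤ C) ∧
      |F.o2 (nR (step G z w)) - F.o2 (nR z)| ≤ C * (Real.sqrt (F.o2 (nR z)) + 1) ∧
      (∀ j, F.a j (nR z) ≤ 2 * F.a j (nR (step G z w))) ∧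
      (∀ j, F.a j (nR (step G z w)) ≤ 2 * F.a j (nR z)) := by
  have hn0 : 0 ≤ cV V := b6_cV_nonneg
  refine ⟨1, one_pos, 2 * cV V + cV V + cV V ^ 3 + 1, by positivity, ?_⟩
  intro δx δo h0 h1 h2 z hz w hw
  have hm : F.Match z := fun v hv => (F.b6_I_zero v hv).elim
  refine ⟨⟨one_le_step_tot z w hw, fun v hv => (F.b6_I_zero v hv).elim, fun j => j.elim0,
    fun j => j.elim0, fun j => j.elim0, fun j => j.elim0⟩, fun j => j.elim0, ?_, fun j => j.elim0,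
    fun j => j.elim0⟩
  have e1 := F.o2_step_abs z hm w
  have e2 := Real.sqrt_nonneg (F.o2 (nR z))
  have e3 : 0 ≤ cV V ^ 3 := by positivity
  nlinarith

theorem Flag.b6_succ (F : Flag G s (k + 1)) : ∃ δ0 > 0, ∃ C > 0,
    ∀ δx δo : ℝ, 0 < δx → δx ≤ δo → δo ≤ δ0 → ∀ z, F.Reg δx δo z → ∀ w, 1 ≤ z.n w →
      F.Reg (2 * δx) (2 * δo) (step G z w) ∧
      (∀ j, |F.a j (nR (step G z w)) - F.a j (nR z)| ≤ C) ∧
      |F.o2 (nR (step G z w)) - F.o2 (nR z)| ≤ C * (Real.sqrt (F.o2 (nR z)) + 1) ∧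
      (∀ j, F.a j (nR z) ≤ 2 * F.a j (nR (step G z w))) ∧
      (∀ j, F.a j (nR (step G z w)) ≤ 2 * F.a j (nR z)) := by
  have hn0 : 0 ≤ cV V := b6_cV_nonneg
  obtain ⟨δ1, hδ1, c, hc, C1, hC1, H⟩ := F.reg_facts1
  obtain ⟨δ2, hδ2, HL⟩ := F.reg_large
  set N : ℝ := cV V + 1 with hN
  have hN1 : 1 ≤ N := by rw [hN]; linarith
  have hmin : 0 < min (min δ1 δ2) (min (1 / (4 * N ^ 2)) (min c 1 / 2)) := by
    have : 0 < min c 1 := lt_min hc one_pos
    exact lt_min (lt_min hδ1 hδ2) (lt_min (by positivity) (by positivity))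
  refine ⟨_, hmin, 2 * cV V + cV V + cV V ^ 3 + 1, by positivity, ?_⟩
  intro δx δo h0 h1 h2 z hz w hw
  have hδo1 : δo ≤ δ1 := h2.trans ((min_le_left _ _).trans (min_le_left _ _))
  have hδo2 : δo ≤ δ2 := h2.trans ((min_le_left _ _).trans (min_le_right _ _))
  have hδo3 : δo ≤ 1 / (4 * N ^ 2) := h2.trans ((min_le_right _ _).trans (min_le_left _ _))
  have hδo4 : δo ≤ min c 1 / 2 := h2.trans ((min_le_right _ _).trans (min_le_right _ _))
  have hδo0 : 0 < δo := h0.trans_le h1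
  obtain ⟨-, F1⟩ := H δx δo h0.le (h1.trans hδo1) hδo0.le hδo1 z hz
  obtain ⟨haj, htot, hst⟩ := HL δx δo h0 h1 hδo2 z hz
  have hm : F.Match z := hz.2.1
  have hsq : 0 < δx ^ 2 := by positivity
  -- `ε = n0 δx² ≤ 1/4`
  have hN2 : δo * (4 * N ^ 2) ≤ 1 := by
    rwa [le_div_iff₀ (by positivity)] at hδo3
  have hδx2 : δx * (4 * N ^ 2) ≤ 1 := le_trans (mul_le_mul_of_nonneg_right h1 (by positivity)) hN2
  have hδxle : δx ≤ 1 := by
    have : 1 ≤ 4 * N ^ 2 := by nlinarith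
    nlinarith
  have heps : cV V * δx ^ 2 ≤ 1 / 4 := by
    have e1 : cV V ≤ N ^ 2 := by rw [hN]; nlinarith
    have e2 : δx ^ 2 ≤ δx := by nlinarith
    calc cV V * δx ^ 2 ≤ N ^ 2 * δx := mul_le_mul e1 e2 hsq.le (by positivity)
      _ ≤ 1 / 4 := by linarith
  have hone : ∀ j, 1 ≤ δx ^ 2 * F.a j (nR z) := by
    intro j
    have := haj j
    rw [div_le_iff₀ hsq] at this
    linarith
  have hΔ : ∀ j, |F.a j (nR (step G z w)) - F.a j (nR z)| ≤ 1 / 4 * F.a j (nR z) := by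
    intro j
    have e1 := F.a_step_abs z hm w j
    have e2 := hone j
    have e3 := hz.2.2.1 j
    have e4 : cV V * 1 ≤ cV V * (δx ^ 2 * F.a j (nR z)) := mul_le_mul_of_nonneg_left e2 hn0
    have e5 : cV V * δx ^ 2 * F.a j (nR z) ≤ 1 / 4 * F.a j (nR z) :=
      mul_le_mul_of_nonneg_right heps e3.le
    linarith
  have hlo : ∀ j, 3 / 4 * F.a j (nR z) ≤ F.a j (nR (step G z w)) := fun j => by
    have := (abs_le.1 (hΔ j)).1
    linarith
  have hhi : ∀ j, F.a j (nR (step G z w)) ≤ 5 / 4 * F.a j (nR z) := fun j => by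
    have := (abs_le.1 (hΔ j)).2
    linarith
  have hapos : ∀ j, 0 < F.a j (nR z) := hz.2.2.1
  have hsqlo : ∀ j, 9 / 16 * F.a j (nR z) ^ 2 ≤ F.a j (nR (step G z w)) ^ 2 := fun j => by
    have e1 := hlo j
    have e2 := hapos j
    nlinarith
  have ho2 := F.o2_step_abs z hm w
  have hsqrt := Real.sqrt_nonneg (F.o2 (nR z))
  refine ⟨⟨one_le_step_tot z w hw, ?_, ?_, ?_, ?_, ?_⟩, ?_, ?_, ?_, ?_⟩
  · intro v hv
    refine ⟨F.color_step z hm w v hv, ?_⟩
    have e1 : (2:ℝ) ≤ z.n v := by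
      have f1 := F1.low v hv
      have f2 := haj (Fin.last k)
      have f3 : 2 ≤ c * (1 / δx ^ 2) := by
        rw [mul_one_div, le_div_iff₀ hsq]
        have g1 : δx ≤ min c 1 / 2 := h1.trans hδo4
        have g2 : min c 1 ≤ c := min_le_left _ _
        have g3 : min c 1 ≤ 1 := min_le_right _ _
        have g4 : δx ^ 2 ≤ δx * 1 := by rw [sq]; exact mul_le_mul_of_nonneg_left hδxle h0.le
        linarith
      have f4 : c * (1 / δx ^ 2) ≤ c * F.a (Fin.last k) (nR z) := mul_le_mul_of_nonneg_left f2 hc.le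
      linarith
    have e2 : 2 ≤ z.n v := by exact_mod_cast e1
    show 1 ≤ (if G.Adj w v then
      (if z.n v = 0 then 1 else if z.c v = z.c w then z.n v + 1 else z.n v - 1) else z.n v)
    split_ifs <;> omega
  · intro j
    have := hlo j
    have := hapos j
    linarith
  · intro i j hij
    have e1 := hhi j
    have e2 := hz.2.2.2.1 i j hij
    have e3 := hlo i
    have e4 := hapos i
    have e5 : δx * (3 / 4 * F.a i (nR z)) ≤ δx * F.a i (nR (step G z w)) :=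
      mul_le_mul_of_nonneg_left e3 h0.le
    have e6 : 0 < δx * F.a i (nR z) := mul_pos h0 e4
    linarith
  · intro j
    have e1 := hz.2.2.2.2.1 j
    have e2 := hsqlo j
    have e3 := hapos j
    set t : ℝ := δo * F.a j (nR z) with ht
    have ht0 : 0 < t := mul_pos hδo0 e3
    have ht1 : 4 * N ^ 2 ≤ t := by
      have f1 : 1 / δx ≤ t := by
        rw [div_le_iff₀ h0]
        have g1 := hone j
        have g2 : δx * F.a j (nR z) * δx ≤ δo * F.a j (nR z) * δx :=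
          mul_le_mul_of_nonneg_right (mul_le_mul_of_nonneg_right h1 e3.le) h0.le
        rw [ht]
        nlinarith
      have f2 : 4 * N ^ 2 ≤ 1 / δx := by
        rw [le_div_iff₀ h0]; linarith
      linarith
    have hs : Real.sqrt (F.o2 (nR z)) ≤ t := by
      apply Real.sqrt_le_iff.2
      refine ⟨ht0.le, ?_⟩
      rw [ht, mul_pow]; exact e1
    have e4 := (abs_le.1 ho2).2
    have e5 : F.o2 (nR (step G z w)) ≤ t ^ 2 + 2 * cV V * t + cV V + cV V ^ 3 := by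
      have g1 : 2 * cV V * Real.sqrt (F.o2 (nR z)) ≤ 2 * cV V * t :=
        mul_le_mul_of_nonneg_left hs (by positivity)
      have g2 : F.o2 (nR z) ≤ t ^ 2 := by rw [ht, mul_pow]; exact e1
      linarith
    have e6 : 2 * cV V * t ≤ t ^ 2 / 2 := by
      have g1 : 4 * cV V ≤ t := by
        have : 4 * cV V ≤ 4 * N ^ 2 := by rw [hN]; nlinarith
        linarith
      nlinarith
    have e7 : cV V + cV V ^ 3 ≤ t ^ 2 / 2 := by
      have g1 : (4 * N ^ 2) ^ 2 ≤ t ^ 2 := pow_le_pow_left₀ (by positivity) ht1 2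
      have g2 : cV V + cV V ^ 3 ≤ N ^ 4 + N ^ 4 := by
        have a0 : cV V ≤ N := by rw [hN]; linarith
        have a1 : cV V ≤ N ^ 4 := by
          have : N ≤ N ^ 4 := le_self_pow₀ hN1 (by norm_num)
          linarith
        have a2 : cV V ^ 3 ≤ N ^ 4 := by
          calc cV V ^ 3 ≤ N ^ 3 := pow_le_pow_left₀ hn0 a0 3
            _ ≤ N ^ 4 := pow_le_pow_right₀ hN1 (by norm_num)
        linarith
      have g3 : (4 * N ^ 2) ^ 2 = 16 * N ^ 4 := by ring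
      have g4 : 0 < N ^ 4 := by positivity
      linarith
    have e8 : (2 * δo) ^ 2 * F.a j (nR (step G z w)) ^ 2 ≥ 9 / 4 * t ^ 2 := by
      have g1 : (2 * δo) ^ 2 * (9 / 16 * F.a j (nR z) ^ 2) ≤
          (2 * δo) ^ 2 * F.a j (nR (step G z w)) ^ 2 := mul_le_mul_of_nonneg_left e2 (by positivity)
      have g2 : (2 * δo) ^ 2 * (9 / 16 * F.a j (nR z) ^ 2) = 9 / 4 * t ^ 2 := by rw [ht]; ring
      linarith
    have e9 : 0 ≤ t ^ 2 := by positivity
    linarith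
  · intro j
    have e1 := (hst w hw).1
    have e2 := hz.2.2.2.2.2 j
    have e3 := hsqlo j
    have g1 : (2 * δx) ^ 2 * (9 / 16 * F.a j (nR z) ^ 2) ≤
        (2 * δx) ^ 2 * F.a j (nR (step G z w)) ^ 2 := mul_le_mul_of_nonneg_left e3 (by positivity)
    have g2 : (2 * δx) ^ 2 * (9 / 16 * F.a j (nR z) ^ 2) = 9 / 4 * (δx ^ 2 * F.a j (nR z) ^ 2) := by ring
    have g3 : 0 ≤ δx ^ 2 * F.a j (nR z) ^ 2 := by positivity
    linarith
  · intro j
    have e1 := F.a_step_abs z hm w j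
    have e3 : 0 ≤ cV V ^ 3 := by positivity
    linarith
  · have e3 : 0 ≤ cV V ^ 3 := by positivity
    nlinarith
  · intro j
    have := hlo j
    have := hapos j
    linarith
  · intro j
    have := hhi j
    have := hapos j
    linarith

theorem Flag.reg_step (F : Flag G s k) : ∃ δ0 > 0, ∃ C > 0,
    ∀ δx δo : ℝ, 0 < δx → δx ≤ δo → δo ≤ δ0 → ∀ z, F.Reg δx δo z → ∀ w, 1 ≤ z.n w →
      F.Reg (2 * δx) (2 * δo) (step G z w) ∧
      (∀ j, |F.a j (nR (step G z w)) - F.a j (nR z)| ≤ C) ∧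
      |F.o2 (nR (step G z w)) - F.o2 (nR z)| ≤ C * (Real.sqrt (F.o2 (nR z)) + 1) ∧
      (∀ j, F.a j (nR z) ≤ 2 * F.a j (nR (step G z w))) ∧
      (∀ j, F.a j (nR (step G z w)) ≤ 2 * F.a j (nR z)) := by
  rcases k with _ | k
  · exact F.b6_zero
  · exact F.b6_succ

/-- one step moves a configuration by at most one at each vertex -/
theorem b6_dsq_step (z : St V s) (w : V) :
    dsq z.c (nR z) (step G z w).c (nR (step G z w)) ≤ cV V := by
  have h : ∀ v, (nR z v - eps (z.c v) ((step G z w).c v) * nR (step G z w) v) ^ 2 ≤ 1 := by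
    intro v
    have hn : (step G z w).n v = if G.Adj w v then
      (if z.n v = 0 then 1 else if z.c v = z.c w then z.n v + 1 else z.n v - 1) else z.n v := rfl
    have hcv : (step G z w).c v = if G.Adj w v ∧ z.n v = 0 then z.c w else z.c v := rfl
    unfold nR
    rw [hn, hcv]
    by_cases hA : G.Adj w v
    · by_cases h0 : z.n v = 0
      · rw [if_pos hA, if_pos h0, if_pos ⟨hA, h0⟩, h0]
        unfold eps
        split_ifs <;> norm_num
      · rw [if_pos hA, if_neg h0, if_neg (fun h => h0 h.2)]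
        have he : eps (z.c v) (z.c v) = 1 := if_pos rfl
        rw [he]
        by_cases hc : z.c v = z.c w
        · rw [if_pos hc]; push_cast
          ring_nf; norm_num
        · rw [if_neg hc]
          have : 1 ≤ z.n v := by omega
          push_cast [Nat.cast_sub this]
          ring_nf; norm_num
    · rw [if_neg hA, if_neg (fun h => hA h.1)]
      have he : eps (z.c v) (z.c v) = 1 := if_pos rfl
      rw [he]
      norm_num
  calc dsq z.c (nR z) (step G z w).c (nR (step G z w)) ≤ ∑ _v : V, (1 : ℝ) :=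
        Finset.sum_le_sum fun v _ => h v
    _ = cV V := by simp [cV]

theorem Flag.env_step (F : Flag G s k) (τ : ℝ) (hτ : 0 < τ) (hτ0 : τ ≤ tau0 V) :
    ∃ δ0 > 0, ∃ C > 0, ∀ E : ℝ, |E| ≤ cV V + 2 →
    ∀ δx δo : ℝ, 0 < δx → δx ≤ δo → δo ≤ δ0 → ∀ z, F.Reg δx δo z → ∀ w, 1 ≤ z.n w →
      |F.env E τ (step G z w) - F.env E τ z| ≤ C * (Real.sqrt (F.o2 (nR z)) + 1) := by
  have hn0 : 0 ≤ cV V := b6_cV_nonneg
  obtain ⟨δ1, hδ1, C1, hC1, H1⟩ := F.engine τ hτ hτ0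
  obtain ⟨δ2, hδ2, C2, hC2, H2⟩ := F.reg_step
  obtain ⟨δ3, hδ3, H3⟩ := F.mx_facts τ hτ hτ0
  refine ⟨min δ1 (min δ2 (δ3 / 2)), lt_min hδ1 (lt_min hδ2 (by positivity)),
    2 * C1 + cV V * (2 * (cV V + 1 + 2 * (C2 + 1) + 2) + 1) / τ, by positivity, ?_⟩
  intro E hE δx δo h0 h1 h2 z hz w hw
  have hδo1 : δo ≤ δ1 := h2.trans (min_le_left _ _)
  have hδo2 : δo ≤ δ2 := h2.trans ((min_le_right _ _).trans (min_le_left _ _))
  have hδo3 : 2 * δo ≤ δ3 := by
    have := h2.trans ((min_le_right _ _).trans (min_le_right _ _))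
    linarith
  have hδo0 : 0 < δo := h0.trans_le h1
  set q : ℝ := Real.sqrt (F.o2 (nR z)) with hq
  have hq0 : 0 ≤ q := Real.sqrt_nonneg _
  have ho0 : 0 ≤ F.o2 (nR z) := F.o2_nonneg _
  have hqq : q ^ 2 = F.o2 (nR z) := Real.sq_sqrt ho0
  obtain ⟨hR, -, ho, -, -⟩ := H2 δx δo h0 h1 hδo2 z hz w hw
  rw [abs_le]
  constructor
  · -- lower bound
    obtain ⟨c, r, hmx⟩ := F.exists_mx E τ hE hτ hτ0 z
    obtain ⟨mf, x, hx1, hx2, -⟩ := H1 E hE δx δo h0.le (h1.trans hδo1) hδo0.le hδo1 z hz c r hmx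
    have e1 := hx1 w
    have e2 := (abs_le.1 (hx2 w)).2
    have e3 : Real.sqrt (dsq z.c (nR z) c r) ≤ 2 * q := by
      apply Real.sqrt_le_iff.2
      refine ⟨by positivity, ?_⟩
      have := mf.dist
      nlinarith
    have e4 : C1 * (Real.sqrt (dsq z.c (nR z) c r) + 1) ≤ C1 * (2 * q + 1) :=
      mul_le_mul_of_nonneg_left (by linarith) hC1.le
    have e5 : 0 ≤ cV V * (2 * (cV V + 1 + 2 * (C2 + 1) + 2) + 1) / τ * (q + 1) := by positivity
    have e6 : C1 * (2 * q + 1) ≤ 2 * C1 * (q + 1) := by nlinarith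
    have e7 : (2 * C1 + cV V * (2 * (cV V + 1 + 2 * (C2 + 1) + 2) + 1) / τ) * (q + 1) =
        2 * C1 * (q + 1) + cV V * (2 * (cV V + 1 + 2 * (C2 + 1) + 2) + 1) / τ * (q + 1) := by ring
    linarith
  · -- upper bound
    obtain ⟨c, r, hmx⟩ := F.exists_mx E τ hE hτ hτ0 (step G z w)
    have mf := H3 E hE (2 * δx) (2 * δo) (by positivity) (by linarith) (by positivity) hδo3
      (step G z w) hR c r hmx
    have e1 := F.env_eq E τ (step G z w) c r hmx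
    have e2 := F.le_env E τ hE hτ hτ0 z c r hmx.1
    unfold Flag.val at e1 e2
    have e3 := (abs_le.1 (step_dsq_abs (G := G) z w c r)).1
    -- distance
    have hadm := hmx.1
    have e4 : Real.sqrt (dsq z.c (nR z) c r) ≤
        Real.sqrt (dsq z.c (nR z) (step G z w).c (nR (step G z w))) +
          Real.sqrt (dsq (step G z w).c (nR (step G z w)) c r) := by
      apply dsq_tri
      intro v
      by_cases hv : v ∈ F.I
      · left
        rw [(hz.2.1 v hv).1, (hR.2.1 v hv).1, hadm.1 v hv]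
        exact ⟨rfl, rfl⟩
      · right
        exact ⟨Nat.cast_nonneg _, Nat.cast_nonneg _, hadm.2 v hv⟩
    have e5 : Real.sqrt (dsq z.c (nR z) (step G z w).c (nR (step G z w))) ≤ cV V + 1 := by
      apply Real.sqrt_le_iff.2
      refine ⟨by positivity, ?_⟩
      have := b6_dsq_step (G := G) z w
      nlinarith
    have e6 : Real.sqrt (dsq (step G z w).c (nR (step G z w)) c r) ≤ 2 * (q + C2 + 1) := by
      apply Real.sqrt_le_iff.2
      refine ⟨by positivity, ?_⟩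
      have f1 := mf.dist
      have f2 := (abs_le.1 ho).2
      nlinarith [mul_nonneg hC2.le hq0, mul_pos hC2 hC2]
    have e7 : Real.sqrt (dsq z.c (nR z) c r) ≤ (cV V + 1 + 2 * (C2 + 1) + 2) * (q + 1) := by
      nlinarith [mul_nonneg hC2.le hq0, mul_nonneg hn0 hq0]
    have e8 : (dsq z.c (nR z) c r - dsq (step G z w).c (nR (step G z w)) c r) / τ ≤
        cV V * (2 * (cV V + 1 + 2 * (C2 + 1) + 2) + 1) / τ * (q + 1) := by
      rw [div_mul_eq_mul_div]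
      apply div_le_div_of_nonneg_right _ hτ.le
      have f1 : cV V * (2 * Real.sqrt (dsq z.c (nR z) c r) + 1) ≤
          cV V * ((2 * (cV V + 1 + 2 * (C2 + 1) + 2) + 1) * (q + 1)) := by
        apply mul_le_mul_of_nonneg_left _ hn0
        nlinarith
      linarith
    have e9 : (dsq z.c (nR z) c r - dsq (step G z w).c (nR (step G z w)) c r) / τ =
        dsq z.c (nR z) c r / τ - dsq (step G z w).c (nR (step G z w)) c r / τ := by ring
    have e10 : 0 ≤ 2 * C1 * (q + 1) := by positivity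
    have e11 : (2 * C1 + cV V * (2 * (cV V + 1 + 2 * (C2 + 1) + 2) + 1) / τ) * (q + 1) =
        2 * C1 * (q + 1) + cV V * (2 * (cV V + 1 + 2 * (C2 + 1) + 2) + 1) / τ * (q + 1) := by ring
    linarith

end UC
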