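import Pool.Agent.helper25.UC.C0
import Pool.Agent.helper25.UC.B6

/-!
# C1 : drift of the ratios `a_j / a_i`, `i < j`

Constants: `Facts`, `Facts1` from `reg_facts1`, `reg_large` (`a_l ≥ 1/δx²` large), `n0 = card V`,
`a_l = a (last)`.

`quot_calc` with `X = a_j`, `Y = a_i`, one step changes bounded by `n0` (`a_step_abs`),
`n0 ≤ a_i/2`:
`gen(a_j/a_i) ≤ (E_j a_j + ell_j)/a_i - a_j(E_i a_i + ell_i)/a_i² + 2 a_j n0² tot/a_i³ + 2n0² tot/a_i²`.
* `(E_j - E_i) a_j/a_i ≤ 0` (`anti`);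
* `|ell_j|/a_i ≤ C S/(a_j a_i) = C (a_j/a_i) S/a_j² ≤ C (a_j/a_i) S/a_l²`;
* `a_j|ell_i|/a_i² ≤ C a_j S/a_i³ = C (a_j/a_i) S/a_i²`;
* `2a_j n0² tot/a_i³ ≤ 2n0²(a_j/a_i) tot/a_l²`;
* `2n0² tot/a_i² ≤ 2n0² (a_j/a_i) tot/a_l²`, because `a_l² ≤ a_j a_i`.
-/

namespace UC
open Finset
variable {V : Type} [Fintype V] [DecidableEq V] {s k : ℕ}
variable {G : SimpleGraph V} [DecidableRel G.Adj]

/-- sum of the ratios -/
noncomputable def Flag.xs (F : Flag G s k) (z : St V s) : ℝ :=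
  ∑ i, ∑ j, if i < j then F.a j (nR z) / F.a i (nR z) else 0

private theorem c1_tot_nonneg (z : St V s) : 0 ≤ tot z :=
  Finset.sum_nonneg fun v _ => Nat.cast_nonneg _

/-- the arithmetic of the ratio drift -/
private theorem c1_arith {a b l S t C n0 Ei Ej ei ej : ℝ} (ha : l ≤ a) (hb : l ≤ b) (hl : 1 ≤ l)
    (hS : 0 ≤ S) (ht : 0 ≤ t) (hC : 0 ≤ C) (hE : Ej ≤ Ei)
    (hei : b * |ei| ≤ C * S) (hej : a * |ej| ≤ C * S) :
    (Ej * a + ej) / b - a * (Ei * b + ei) / b ^ 2 + 2 * |a| * (n0 ^ 2 * t) / b ^ 3 +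
      2 * (n0 ^ 2 * t) / b ^ 2 ≤ (2 * C + 4 * n0 ^ 2 + 1) * (a / b) * (S + t) / l ^ 2 := by
  have hl0 : 0 < l := by linarith
  have ha0 : 0 < a := by linarith
  have hb0 : 0 < b := by linarith
  rw [abs_of_pos ha0]
  set R := a / b with hR
  have hR0 : 0 < R := div_pos ha0 hb0
  have haR : a = R * b := by rw [hR]; field_simp
  have hn : 0 ≤ n0 ^ 2 := sq_nonneg _
  -- the five bounds
  have hlb : l ^ 2 ≤ b ^ 2 := pow_le_pow_left₀ hl0.le hb 2
  have hla : l ^ 2 ≤ a ^ 2 := pow_le_pow_left₀ hl0.le ha 2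
  have hlab : l ^ 2 ≤ a * b := by nlinarith
  have hl2 : 0 < l ^ 2 := by positivity
  have hb2 : 0 < b ^ 2 := by positivity
  have e1 : (Ej * a + ej) / b - a * (Ei * b + ei) / b ^ 2 =
      (Ej - Ei) * R + ej / b - R * (ei / b) := by
    rw [hR]
    field_simp
    ring
  have b1 : (Ej - Ei) * R ≤ 0 := mul_nonpos_of_nonpos_of_nonneg (by linarith) hR0.le
  have b2 : ej / b ≤ C * R * S / l ^ 2 := by
    have h1 : ej ≤ C * S / a := by
      rw [le_div_iff₀ ha0]
      have := le_abs_self ej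
      nlinarith
    calc ej / b ≤ (C * S / a) / b := div_le_div_of_nonneg_right h1 hb0.le
      _ = C * R * S / a ^ 2 := by
        rw [hR]
        field_simp
      _ ≤ C * R * S / l ^ 2 := by
        apply div_le_div_of_nonneg_left _ hl2 hla
        positivity
  have b3 : -(R * (ei / b)) ≤ C * R * S / l ^ 2 := by
    have h1 : -ei ≤ C * S / b := by
      rw [le_div_iff₀ hb0]
      have := neg_abs_le ei
      nlinarith
    calc -(R * (ei / b)) = R * (-ei / b) := by ring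
      _ ≤ R * ((C * S / b) / b) :=
        mul_le_mul_of_nonneg_left (div_le_div_of_nonneg_right h1 hb0.le) hR0.le
      _ = C * R * S / b ^ 2 := by
        field_simp
      _ ≤ C * R * S / l ^ 2 := by
        apply div_le_div_of_nonneg_left _ hl2 hlb
        positivity
  have b4 : 2 * a * (n0 ^ 2 * t) / b ^ 3 ≤ 2 * n0 ^ 2 * R * t / l ^ 2 := by
    calc 2 * a * (n0 ^ 2 * t) / b ^ 3 = 2 * n0 ^ 2 * R * t / b ^ 2 := by
          rw [hR]
          field_simp
      _ ≤ 2 * n0 ^ 2 * R * t / l ^ 2 := by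
        apply div_le_div_of_nonneg_left _ hl2 hlb
        positivity
  have b5 : 2 * (n0 ^ 2 * t) / b ^ 2 ≤ 2 * n0 ^ 2 * R * t / l ^ 2 := by
    calc 2 * (n0 ^ 2 * t) / b ^ 2 = 2 * n0 ^ 2 * R * t / (a * b) := by
          rw [hR]
          field_simp
      _ ≤ 2 * n0 ^ 2 * R * t / l ^ 2 := by
        apply div_le_div_of_nonneg_left _ hl2 hlab
        positivity
  have tot' : (Ej * a + ej) / b - a * (Ei * b + ei) / b ^ 2 + 2 * a * (n0 ^ 2 * t) / b ^ 3 +
      2 * (n0 ^ 2 * t) / b ^ 2 ≤ 2 * (C * R * S / l ^ 2) + 2 * (2 * n0 ^ 2 * R * t / l ^ 2) := by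
    rw [e1]
    linarith
  refine tot'.trans ?_
  have hfin : 2 * (C * R * S / l ^ 2) + 2 * (2 * n0 ^ 2 * R * t / l ^ 2) =
      (2 * C * R * S + 4 * n0 ^ 2 * R * t) / l ^ 2 := by ring
  rw [hfin]
  apply div_le_div_of_nonneg_right _ hl2.le
  have k1 : 0 ≤ 4 * n0 ^ 2 * R * S := by positivity
  have k2 : 0 ≤ 2 * C * R * t := by positivity
  have k3 : 0 ≤ R * (S + t) := by positivity
  nlinarith

theorem Flag.ratio_drift (F : Flag G s (k + 1)) : ∃ δ0 > 0, ∃ C > 0,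
    ∀ δx δo : ℝ, 0 < δx → δx ≤ δo → δo ≤ δ0 → ∀ z, F.Reg δx δo z →
      ∀ i j, i < j → gen G (fun y => F.a j (nR y) / F.a i (nR y)) z ≤
        C * (F.a j (nR z) / F.a i (nR z)) * (F.S z.c (nR z) + tot z) /
          F.a (Fin.last k) (nR z) ^ 2 := by
  obtain ⟨δ1, hδ1, c, hc, C, hC, H1⟩ := F.reg_facts1
  obtain ⟨δ2, hδ2, H2⟩ := F.reg_large
  have hn0 : 0 ≤ cV V := Nat.cast_nonneg _
  refine ⟨min (min δ1 δ2) (1 / (2 * (cV V + 1))), by positivity,
    2 * C + 4 * cV V ^ 2 + 1, by positivity, ?_⟩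
  intro δx δo hx hxo ho z hz i j hij
  have ho1 : δo ≤ δ1 := ho.trans ((min_le_left _ _).trans (min_le_left _ _))
  have ho2 : δo ≤ δ2 := ho.trans ((min_le_left _ _).trans (min_le_right _ _))
  have ho3 : δo ≤ 1 / (2 * (cV V + 1)) := ho.trans (min_le_right _ _)
  have ho0 : 0 ≤ δo := hx.le.trans hxo
  obtain ⟨hF, hF1⟩ := H1 δx δo hx.le (hxo.trans ho1) ho0 ho1 z hz
  obtain ⟨hlarge, -, -⟩ := H2 δx δo hx hxo ho2 z hz
  have hm : F.Match z := hz.2.1
  have hbig : 2 * cV V ≤ F.a i (nR z) := by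
    refine le_trans ?_ (hlarge i)
    have hx3 : δx ≤ 1 / (2 * (cV V + 1)) := hxo.trans ho3
    rw [le_div_iff₀ (by positivity)]
    have h1 : δx * (2 * (cV V + 1)) ≤ 1 := by
      rwa [le_div_iff₀ (by positivity)] at hx3
    have h2 : δx ≤ 1 := by nlinarith
    nlinarith
  have hai : 0 < F.a i (nR z) := hz.2.2.1 i
  have hstep : ∀ w, |F.a i (nR (step G z w)) - F.a i (nR z)| ≤ F.a i (nR z) / 2 := fun w =>
    (F.a_step_abs z hm w i).trans (by linarith)
  have hq := quot_calc (fun w => (z.n w : ℝ)) (fun w => F.a j (nR (step G z w)))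
    (fun w => F.a i (nR (step G z w))) (F.a j (nR z)) (F.a i (nR z))
    (fun w => Nat.cast_nonneg _) hai (fun w _ => hstep w)
  have hgi := F.gen_a z hm i
  have hgj := F.gen_a z hm j
  simp only [gen] at hgi hgj ⊢
  rw [hgi, hgj] at hq
  have hsum1 : ∑ w, (z.n w : ℝ) * (F.a i (nR (step G z w)) - F.a i (nR z)) ^ 2 ≤
      cV V ^ 2 * tot z := by
    rw [tot, Finset.mul_sum]
    refine Finset.sum_le_sum fun w _ => ?_
    have h1 : (F.a i (nR (step G z w)) - F.a i (nR z)) ^ 2 ≤ cV V ^ 2 := by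
      rw [← sq_abs]
      exact pow_le_pow_left₀ (abs_nonneg _) (F.a_step_abs z hm w i) 2
    have h2 : (0 : ℝ) ≤ z.n w := Nat.cast_nonneg _
    nlinarith
  have hsum2 : ∑ w, (z.n w : ℝ) * (|F.a j (nR (step G z w)) - F.a j (nR z)| *
      |F.a i (nR (step G z w)) - F.a i (nR z)|) ≤ cV V ^ 2 * tot z := by
    rw [tot, Finset.mul_sum]
    refine Finset.sum_le_sum fun w _ => ?_
    have h1 : |F.a j (nR (step G z w)) - F.a j (nR z)| *
        |F.a i (nR (step G z w)) - F.a i (nR z)| ≤ cV V * cV V :=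
      mul_le_mul (F.a_step_abs z hm w j) (F.a_step_abs z hm w i) (abs_nonneg _) hn0
    have h2 : (0 : ℝ) ≤ z.n w := Nat.cast_nonneg _
    nlinarith
  refine hq.trans (le_trans ?_ (c1_arith (n0 := cV V) (hF1.last_le j) (hF1.last_le i) hF1.one_le
    hF.S_nonneg (c1_tot_nonneg z) hC.le (F.anti i j hij.le) (hF.ell_le i) (hF.ell_le j)))
  have h3 : 2 * |F.a j (nR z)| * (∑ w, (z.n w : ℝ) *
      (F.a i (nR (step G z w)) - F.a i (nR z)) ^ 2) / F.a i (nR z) ^ 3 ≤
      2 * |F.a j (nR z)| * (cV V ^ 2 * tot z) / F.a i (nR z) ^ 3 := by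
    apply div_le_div_of_nonneg_right _ (by positivity)
    exact mul_le_mul_of_nonneg_left hsum1 (by positivity)
  have h4 : 2 * (∑ w, (z.n w : ℝ) * (|F.a j (nR (step G z w)) - F.a j (nR z)| *
      |F.a i (nR (step G z w)) - F.a i (nR z)|)) / F.a i (nR z) ^ 2 ≤
      2 * (cV V ^ 2 * tot z) / F.a i (nR z) ^ 2 := by
    apply div_le_div_of_nonneg_right _ (by positivity)
    exact mul_le_mul_of_nonneg_left hsum2 (by positivity)
  linarith

theorem Flag.xs_drift (F : Flag G s (k + 1)) : ∃ δ0 > 0, ∃ C > 0,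
    ∀ δx δo : ℝ, 0 < δx → δx ≤ δo → δo ≤ δ0 → ∀ z, F.Reg δx δo z →
      gen G F.xs z ≤
        C * F.xs z * (F.S z.c (nR z) + tot z) / F.a (Fin.last k) (nR z) ^ 2 := by
  obtain ⟨δ0, hδ0, C, hC, H⟩ := F.ratio_drift
  refine ⟨δ0, hδ0, C, hC, ?_⟩
  intro δx δo hx hxo ho z hz
  have hH := H δx δo hx hxo ho z hz
  have h1 : gen G F.xs z = ∑ i, ∑ j,
      gen G (fun y => if i < j then F.a j (nR y) / F.a i (nR y) else 0) z := by
    show gen G (fun y => ∑ i, ∑ j, if i < j then F.a j (nR y) / F.a i (nR y) else 0) z = _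
    rw [gen_sum]
    refine Finset.sum_congr rfl fun i _ => ?_
    rw [gen_sum]
  rw [h1]
  have h2 : C * F.xs z * (F.S z.c (nR z) + tot z) / F.a (Fin.last k) (nR z) ^ 2 =
      ∑ i, ∑ j, if i < j then C * (F.a j (nR z) / F.a i (nR z)) * (F.S z.c (nR z) + tot z) /
        F.a (Fin.last k) (nR z) ^ 2 else 0 := by
    rw [Flag.xs, Finset.mul_sum, Finset.sum_mul, Finset.sum_div]
    refine Finset.sum_congr rfl fun i _ => ?_
    rw [Finset.mul_sum, Finset.sum_mul, Finset.sum_div]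
    refine Finset.sum_congr rfl fun j _ => ?_
    split_ifs <;> simp
  rw [h2]
  refine Finset.sum_le_sum fun i _ => Finset.sum_le_sum fun j _ => ?_
  split_ifs with hij
  · exact hH i j hij
  · rw [gen_const]

/-- on the region `0 ≤ xs ≤ (k+1)² δx` -/
theorem Flag.xs_le (F : Flag G s k) (δx δo : ℝ) (hδ : 0 ≤ δx) (z : St V s)
    (h : F.Reg δx δo z) : 0 ≤ F.xs z ∧ F.xs z ≤ (k : ℝ) ^ 2 * δx := by
  constructor
  · refine Finset.sum_nonneg fun i _ => Finset.sum_nonneg fun j _ => ?_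
    split_ifs
    · exact (div_pos (h.2.2.1 j) (h.2.2.1 i)).le
    · exact le_rfl
  · have h1 : F.xs z ≤ ∑ _i : Fin k, ∑ _j : Fin k, δx := by
      refine Finset.sum_le_sum fun i _ => Finset.sum_le_sum fun j _ => ?_
      split_ifs with hij
      · rw [div_le_iff₀ (h.2.2.1 i)]
        exact h.2.2.2.1 i j hij
      · exact hδ
    refine h1.trans (le_of_eq ?_)
    simp only [Finset.sum_const, Finset.card_univ, Fintype.card_fin, nsmul_eq_mul]
    ring

theorem Flag.xs_nonneg (F : Flag G s k) (z : St V s) (h : ∀ j, 0 < F.a j (nR z)) :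
    0 ≤ F.xs z := by
  refine Finset.sum_nonneg fun i _ => Finset.sum_nonneg fun j _ => ?_
  split_ifs
  · exact (div_pos (h j) (h i)).le
  · exact le_rfl

/-- a violated ratio condition makes `xs` large -/
theorem Flag.xs_gt (F : Flag G s k) (δ : ℝ) (z : St V s) (h : ∀ j, 0 < F.a j (nR z))
    (i j : Fin k) (hij : i < j) (hv : δ * F.a i (nR z) < F.a j (nR z)) : δ < F.xs z := by
  have h0 : δ < F.a j (nR z) / F.a i (nR z) := by
    rw [lt_div_iff₀ (h i)]
    exact hv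
  have hnn : ∀ i' j' : Fin k,
      0 ≤ (if i' < j' then F.a j' (nR z) / F.a i' (nR z) else 0) := by
    intro i' j'
    split_ifs
    · exact (div_pos (h j') (h i')).le
    · exact le_rfl
  have h1 : F.a j (nR z) / F.a i (nR z) ≤
      ∑ j', (if i < j' then F.a j' (nR z) / F.a i (nR z) else 0) := by
    refine le_trans (le_of_eq ?_)
      (Finset.single_le_sum (fun j' _ => hnn i j') (Finset.mem_univ j))
    rw [if_pos hij]
  have h2 : ∑ j', (if i < j' then F.a j' (nR z) / F.a i (nR z) else 0) ≤ F.xs z := by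
    refine Finset.single_le_sum (f := fun i' => ∑ j', (if i' < j' then
      F.a j' (nR z) / F.a i' (nR z) else 0)) (fun i' _ => ?_) (Finset.mem_univ i)
    exact Finset.sum_nonneg fun j' _ => hnn i' j'
  linarith

end UC
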