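import Pool.Agent.helper25.UC.C0
import Pool.Agent.helper25.UC.B5
import Pool.Agent.helper25.UC.B6

/-! # C2 : drift of `(α o2 - β env)/a_l²` -/

namespace UC
open Finset
variable {V : Type} [Fintype V] [DecidableEq V] {s k : ℕ}
variable {G : SimpleGraph V} [DecidableRel G.Adj]

omit [DecidableEq V] in
theorem c2_wsum (z : St V s) (a : V → ℝ) (B : ℝ) (h : ∀ w, 1 ≤ z.n w → a w ≤ B) :
    ∑ w, (z.n w : ℝ) * a w ≤ B * tot z := by
  unfold tot
  rw [Finset.mul_sum]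
  refine Finset.sum_le_sum fun w _ => ?_
  rcases Nat.eq_zero_or_pos (z.n w) with h0 | h0
  · simp [h0]
  · have h1 := mul_le_mul_of_nonneg_left (h w h0) (Nat.cast_nonneg (z.n w) : (0 : ℝ) ≤ z.n w)
    linarith [mul_comm B (z.n w : ℝ)]

/-- the generator of `a_j²` -/
theorem Flag.c2_gen_sq (F : Flag G s k) (z : St V s) (hm : F.Match z) (j : Fin k) :
    gen G (fun y => F.a j (nR y) ^ 2) z =
      2 * F.a j (nR z) * (F.E j * F.a j (nR z) + F.ell z.c (nR z) j) +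
        ∑ w, (z.n w : ℝ) * (F.a j (nR (step G z w)) - F.a j (nR z)) ^ 2 := by
  rw [← F.gen_a z hm j]
  unfold gen
  rw [Finset.mul_sum, ← Finset.sum_add_distrib]
  refine Finset.sum_congr rfl fun w _ => ?_
  ring

theorem Flag.W_drift (F : Flag G s (k + 1)) (τ : ℝ) (hτ : 0 < τ) (hτ0 : τ ≤ tau0 V) :
    ∃ δ0 > 0, ∃ C > 0, ∀ E : ℝ, |E| ≤ cV V + 2 → ∀ α β : ℝ, 0 ≤ α → 0 ≤ β →
    ∀ δx δo : ℝ, 0 < δx → δx ≤ δo → δo ≤ δ0 → ∀ z, F.Reg δx δo z →
    ∀ c r, F.IsMx E τ z c r → ∀ g : ℝ, gen G (fun y => F.o2 (nR y)) z ≤ g →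
      gen G (fun y => (α * F.o2 (nR y) - β * F.env E τ y) / F.a (Fin.last k) (nR y) ^ 2) z ≤
        (α * g - β * (2 * E * F.env E τ z + dsq z.c (nR z) c r / (2 * τ ^ 2)) -
          2 * F.E (Fin.last k) * (α * F.o2 (nR z) - β * F.env E τ z) +
          C * (α + β) * (δo ^ 2 * F.S z.c (nR z) + tot z)) / F.a (Fin.last k) (nR z) ^ 2 := by
  obtain ⟨δ1, hδ1, hb⟩ := F.env_bounds τ hτ hτ0
  obtain ⟨δ2, hδ2, C1, hC1, he⟩ := F.engine τ hτ hτ0
  obtain ⟨δ3, hδ3, C2, hC2, hstep⟩ := F.reg_step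
  obtain ⟨δ4, hδ4, hlarge⟩ := F.reg_large
  obtain ⟨δ5, hδ5, c5, hc5, C3, hC3, hfacts⟩ := F.reg_facts
  have hn0 : (0 : ℝ) ≤ cV V := Nat.cast_nonneg _
  set n0 : ℝ := cV V with hn0def
  set C4 : ℝ := 16 * (n0 + 1) + 1 / τ + 1 with hC4def
  have hτi : 0 < 1 / τ := by positivity
  have hC4 : 0 < C4 := by positivity
  have hδ6 : 0 < 1 / (6 * n0 + 6) := by positivity
  refine ⟨min (min (min δ1 δ2) (min δ3 δ4)) (min (min δ5 1) (1 / (6 * n0 + 6))),
    lt_min (lt_min (lt_min hδ1 hδ2) (lt_min hδ3 hδ4)) (lt_min (lt_min hδ5 one_pos) hδ6),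
    C1 + 2 * C3 * C4 + n0 ^ 2 * C4 + 18 * n0 ^ 2 * C4 + 12 * n0 * (C2 + 2 * C1), by positivity, ?_⟩
  intro E hE α β hα hβ δx δo hx hxo ho z hz c r hm g hg
  have ho1 : δo ≤ δ1 := ho.trans ((min_le_left _ _).trans ((min_le_left _ _).trans (min_le_left _ _)))
  have ho2 : δo ≤ δ2 := ho.trans ((min_le_left _ _).trans ((min_le_left _ _).trans (min_le_right _ _)))
  have ho3 : δo ≤ δ3 := ho.trans ((min_le_left _ _).trans ((min_le_right _ _).trans (min_le_left _ _)))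
  have ho4 : δo ≤ δ4 := ho.trans ((min_le_left _ _).trans ((min_le_right _ _).trans (min_le_right _ _)))
  have ho5 : δo ≤ δ5 := ho.trans ((min_le_right _ _).trans ((min_le_left _ _).trans (min_le_left _ _)))
  have ho6 : δo ≤ 1 := ho.trans ((min_le_right _ _).trans ((min_le_left _ _).trans (min_le_right _ _)))
  have ho7 : δo ≤ 1 / (6 * n0 + 6) := ho.trans ((min_le_right _ _).trans (min_le_right _ _))
  have ho0 : 0 ≤ δo := hx.le.trans hxo
  have hmatch : F.Match z := fun v hv => hz.2.1 v hv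
  obtain ⟨hb1, hb2, -⟩ := hb δx δo hx.le (hxo.trans ho1) ho0 ho1 z hz
  obtain ⟨hmf, x, hx1, hx2, hx3⟩ := he E hE δx δo hx.le (hxo.trans ho2) ho0 ho2 z hz c r hm
  have hst := hstep δx δo hx hxo ho3 z hz
  have hlg := (hlarge δx δo hx hxo ho4 z hz).1 (Fin.last k)
  have hfc := hfacts δx δo hx.le (hxo.trans ho5) ho0 ho5 z hz
  have hell := hfc.ell_le (Fin.last k)
  have hS0 := hfc.S_nonneg
  have hlow := hb1 E hE
  have hup := hb2 E hE
  have ht : 1 ≤ tot z := hz.1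
  have hX0 : 0 ≤ F.o2 (nR z) := F.o2_nonneg _
  have hXδ := hz.2.2.2.2.1 (Fin.last k)
  have hgY := F.c2_gen_sq z hmatch (Fin.last k)
  have hDX := hmf.dist
  have hD0 : 0 ≤ dsq z.c (nR z) c r := dsq_nonneg _ _ _ _
  have hda : ∀ w, |F.a (Fin.last k) (nR (step G z w)) - F.a (Fin.last k) (nR z)| ≤ n0 := fun w =>
    F.a_step_abs z hmatch w _
  -- size of `a`
  have hA6 : 6 * n0 + 6 ≤ F.a (Fin.last k) (nR z) := by
    refine le_trans ?_ hlg
    have h1 : δx ≤ 1 / (6 * n0 + 6) := hxo.trans ho7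
    have h2 : (6 * n0 + 6) * δx ≤ 1 := by
      rw [le_div_iff₀ (by positivity)] at h1
      linarith
    rw [le_div_iff₀ (by positivity)]
    have h3 : δx ≤ 1 := hxo.trans ho6
    calc (6 * n0 + 6) * δx ^ 2 = (6 * n0 + 6) * δx * δx := by ring
      _ ≤ 1 * 1 := mul_le_mul h2 h3 hx.le zero_le_one
      _ = 1 := one_mul 1
  have hsqX : Real.sqrt (F.o2 (nR z)) ≤ F.a (Fin.last k) (nR z) := by
    have hA0 : 0 ≤ F.a (Fin.last k) (nR z) := by linarith
    rw [Real.sqrt_le_left hA0]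
    refine hXδ.trans ?_
    exact mul_le_of_le_one_left (sq_nonneg _) (pow_le_one₀ ho0 ho6)
  set A := F.a (Fin.last k) (nR z) with hAdef
  set T := F.env E τ z with hTdef
  set X := F.o2 (nR z) with hXdef
  set D := dsq z.c (nR z) c r with hDdef
  set t := tot z with htdef
  set S := F.S z.c (nR z) with hSdef
  set L := F.ell z.c (nR z) (Fin.last k) with hLdef
  set El := F.E (Fin.last k) with hEldef
  have hA0 : 0 < A := by linarith
  have hA1 : 1 ≤ A := by linarith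
  have hT4 : |T| ≤ C4 * X := by
    rw [abs_le]
    constructor
    · have h1 : -X / τ = -(1 / τ * X) := by ring
      rw [h1] at hlow
      have h2 : 0 ≤ (16 * (n0 + 1) + 1) * X := by positivity
      have h3 : C4 * X = (16 * (n0 + 1) + 1) * X + 1 / τ * X := by rw [hC4def]; ring
      linarith
    · have h2 : 0 ≤ (1 / τ + 1) * X := by positivity
      have h3 : C4 * X = 16 * (n0 + 1) * X + (1 / τ + 1) * X := by rw [hC4def]; ring
      linarith
  set W := α * X - β * T with hWdef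
  have hWabs : |W| ≤ C4 * (α + β) * (δo ^ 2 * A ^ 2) := by
    have h1 : |W| ≤ α * X + β * |T| := by
      rw [hWdef]
      refine (abs_sub _ _).trans ?_
      rw [abs_mul, abs_mul, abs_of_nonneg hα, abs_of_nonneg hβ, abs_of_nonneg hX0]
    have h2 : β * |T| ≤ β * (C4 * X) := mul_le_mul_of_nonneg_left hT4 hβ
    have h3 : α * X ≤ α * (C4 * X) := by
      apply mul_le_mul_of_nonneg_left _ hα
      have : 1 ≤ C4 := by rw [hC4def]; linarith
      exact le_mul_of_one_le_left hX0 this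
    have h4 : C4 * (α + β) * X ≤ C4 * (α + β) * (δo ^ 2 * A ^ 2) :=
      mul_le_mul_of_nonneg_left hXδ (by positivity)
    calc |W| ≤ α * (C4 * X) + β * (C4 * X) := by linarith
      _ = C4 * (α + β) * X := by ring
      _ ≤ _ := h4
  -- the step of `a²`
  have hY : ∀ w, |F.a (Fin.last k) (nR (step G z w)) ^ 2 - A ^ 2| ≤ 3 * n0 * A := by
    intro w
    have h1 := hda w
    have h2 : F.a (Fin.last k) (nR (step G z w)) ^ 2 - A ^ 2 =
        (F.a (Fin.last k) (nR (step G z w)) - A) * (2 * A + (F.a (Fin.last k) (nR (step G z w)) - A)) := by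
      ring
    rw [h2, abs_mul]
    have h3 : |2 * A + (F.a (Fin.last k) (nR (step G z w)) - A)| ≤ 3 * A := by
      refine (abs_add_le _ _).trans ?_
      rw [abs_of_nonneg (by linarith : (0 : ℝ) ≤ 2 * A)]
      linarith
    have h4 := mul_le_mul h1 h3 (abs_nonneg _) hn0
    linarith [h4, mul_comm n0 (3 * A), mul_assoc 3 n0 A, mul_left_comm 3 n0 A]
  have hq := gen_quot_num (G := G) (fun y => α * F.o2 (nR y) - β * F.env E τ y)
    (fun y => F.a (Fin.last k) (nR y) ^ 2) z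
    (fun w => α * F.o2 (nR (step G z w)) - β * (T - x w))
    (by show 0 < A ^ 2; positivity)
    (by
      intro w _
      show α * F.o2 (nR (step G z w)) - β * F.env E τ (step G z w) ≤
        α * F.o2 (nR (step G z w)) - β * (T - x w)
      have := mul_le_mul_of_nonneg_left (hx1 w) hβ
      linarith)
    (by
      intro w _
      show |F.a (Fin.last k) (nR (step G z w)) ^ 2 - A ^ 2| ≤ A ^ 2 / 2
      refine (hY w).trans ?_
      have h1 := mul_le_mul_of_nonneg_right (by linarith : 6 * n0 ≤ A) hA0.le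
      rw [sq]
      linarith)
  change gen G (fun y => (α * F.o2 (nR y) - β * F.env E τ y) / F.a (Fin.last k) (nR y) ^ 2) z ≤
    (∑ w, (z.n w : ℝ) * (α * F.o2 (nR (step G z w)) - β * (T - x w) - W)) / A ^ 2 -
      W * gen G (fun y => F.a (Fin.last k) (nR y) ^ 2) z / (A ^ 2) ^ 2 +
      2 * |W| * (∑ w, (z.n w : ℝ) * (F.a (Fin.last k) (nR (step G z w)) ^ 2 - A ^ 2) ^ 2) / (A ^ 2) ^ 3 +
      2 * (∑ w, (z.n w : ℝ) * (|α * F.o2 (nR (step G z w)) - β * (T - x w) - W| *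
        |F.a (Fin.last k) (nR (step G z w)) ^ 2 - A ^ 2|)) / (A ^ 2) ^ 2 at hq
  refine hq.trans ?_
  have hAA : 0 < A ^ 2 := by positivity
  -- first term
  have s1 : ∑ w, (z.n w : ℝ) * (α * F.o2 (nR (step G z w)) - β * (T - x w) - W) ≤
      α * g - β * (2 * E * T + D / (2 * τ ^ 2)) + β * (C1 * t) := by
    have e1 : ∑ w, (z.n w : ℝ) * (α * F.o2 (nR (step G z w)) - β * (T - x w) - W) =
        α * gen G (fun y => F.o2 (nR y)) z + β * ∑ w, (z.n w : ℝ) * x w := by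
      unfold gen
      rw [Finset.mul_sum, Finset.mul_sum, ← Finset.sum_add_distrib]
      refine Finset.sum_congr rfl fun w _ => ?_
      rw [hWdef]
      ring
    rw [e1]
    have h1 := mul_le_mul_of_nonneg_left hg hα
    have h2 : ∑ w, (z.n w : ℝ) * x w ≤ -(2 * E * T + D / (2 * τ ^ 2) - C1 * t) := by linarith
    have h3 := mul_le_mul_of_nonneg_left h2 hβ
    linarith
  have b1 : (∑ w, (z.n w : ℝ) * (α * F.o2 (nR (step G z w)) - β * (T - x w) - W)) / A ^ 2 ≤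
      (α * g - β * (2 * E * T + D / (2 * τ ^ 2)) + β * (C1 * t)) / A ^ 2 :=
    div_le_div_of_nonneg_right s1 hAA.le
  -- second term
  have hδ2' : δo ^ 2 ≤ 1 := pow_le_one₀ ho0 ho6
  have b2 : -(W * gen G (fun y => F.a (Fin.last k) (nR y) ^ 2) z / (A ^ 2) ^ 2) ≤
      (-(2 * El * W) + C4 * (α + β) * (2 * C3 * (δo ^ 2 * S) + n0 ^ 2 * t)) / A ^ 2 := by
    rw [hgY]
    set Q := ∑ w, (z.n w : ℝ) * (F.a (Fin.last k) (nR (step G z w)) - A) ^ 2 with hQdef
    have hQ0 : 0 ≤ Q := Finset.sum_nonneg fun w _ => mul_nonneg (Nat.cast_nonneg _) (sq_nonneg _)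
    have hQ1 : Q ≤ n0 ^ 2 * t := by
      refine c2_wsum z _ _ ?_
      intro w _
      rw [← sq_abs]
      exact pow_le_pow_left₀ (abs_nonneg _) (hda w) 2
    have h1 : |2 * A * L + Q| ≤ 2 * C3 * S + n0 ^ 2 * t := by
      refine (abs_add_le _ _).trans ?_
      rw [abs_of_nonneg hQ0, abs_mul, abs_of_nonneg (by linarith : (0 : ℝ) ≤ 2 * A)]
      linarith
    have h2 : -(W * (2 * A * L + Q)) ≤ C4 * (α + β) * (δo ^ 2 * A ^ 2) * (2 * C3 * S + n0 ^ 2 * t) := by
      refine (neg_le_abs _).trans ?_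
      rw [abs_mul]
      exact mul_le_mul hWabs h1 (abs_nonneg _) (by positivity)
    have h3 : C4 * (α + β) * (δo ^ 2 * A ^ 2) * (2 * C3 * S + n0 ^ 2 * t) ≤
        C4 * (α + β) * (2 * C3 * (δo ^ 2 * S) + n0 ^ 2 * t) * A ^ 2 := by
      have h4 : δo ^ 2 * (n0 ^ 2 * t) ≤ 1 * (n0 ^ 2 * t) :=
        mul_le_mul_of_nonneg_right hδ2' (by positivity)
      have h5 : C4 * (α + β) * A ^ 2 * (2 * C3 * (δo ^ 2 * S) + δo ^ 2 * (n0 ^ 2 * t)) ≤
          C4 * (α + β) * A ^ 2 * (2 * C3 * (δo ^ 2 * S) + 1 * (n0 ^ 2 * t)) :=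
        mul_le_mul_of_nonneg_left (by linarith) (by positivity)
      calc C4 * (α + β) * (δo ^ 2 * A ^ 2) * (2 * C3 * S + n0 ^ 2 * t) =
          C4 * (α + β) * A ^ 2 * (2 * C3 * (δo ^ 2 * S) + δo ^ 2 * (n0 ^ 2 * t)) := by ring
        _ ≤ C4 * (α + β) * A ^ 2 * (2 * C3 * (δo ^ 2 * S) + 1 * (n0 ^ 2 * t)) := h5
        _ = _ := by ring
    have e1 : -(W * (2 * A * (El * A + L) + Q) / (A ^ 2) ^ 2) =
        (-(2 * El * W)) / A ^ 2 + (-(W * (2 * A * L + Q))) / (A ^ 2) ^ 2 := by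
      field_simp
      ring
    have h6 : (-(W * (2 * A * L + Q))) / (A ^ 2) ^ 2 ≤
        (C4 * (α + β) * (2 * C3 * (δo ^ 2 * S) + n0 ^ 2 * t) * A ^ 2) / (A ^ 2) ^ 2 :=
      div_le_div_of_nonneg_right (h2.trans h3) (by positivity)
    have e2 : (C4 * (α + β) * (2 * C3 * (δo ^ 2 * S) + n0 ^ 2 * t) * A ^ 2) / (A ^ 2) ^ 2 =
        (C4 * (α + β) * (2 * C3 * (δo ^ 2 * S) + n0 ^ 2 * t)) / A ^ 2 := by
      field_simp
    rw [e1, add_div]
    linarith
  -- third term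
  have b3 : 2 * |W| * (∑ w, (z.n w : ℝ) * (F.a (Fin.last k) (nR (step G z w)) ^ 2 - A ^ 2) ^ 2) /
      (A ^ 2) ^ 3 ≤ (18 * n0 ^ 2 * C4 * (α + β) * t) / A ^ 2 := by
    have h1 : ∑ w, (z.n w : ℝ) * (F.a (Fin.last k) (nR (step G z w)) ^ 2 - A ^ 2) ^ 2 ≤
        (9 * n0 ^ 2 * A ^ 2) * t := by
      refine c2_wsum z _ _ ?_
      intro w _
      rw [← sq_abs]
      refine (pow_le_pow_left₀ (abs_nonneg _) (hY w) 2).trans (le_of_eq ?_)
      ring
    have h2 : |W| ≤ C4 * (α + β) * A ^ 2 := by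
      refine hWabs.trans ?_
      apply mul_le_mul_of_nonneg_left _ (by positivity)
      exact mul_le_of_le_one_left (sq_nonneg _) hδ2'
    have h3 : 2 * |W| * (∑ w, (z.n w : ℝ) * (F.a (Fin.last k) (nR (step G z w)) ^ 2 - A ^ 2) ^ 2) ≤
        2 * (C4 * (α + β) * A ^ 2) * ((9 * n0 ^ 2 * A ^ 2) * t) := by
      apply mul_le_mul (by linarith) h1 _ (by positivity)
      exact Finset.sum_nonneg fun w _ => mul_nonneg (Nat.cast_nonneg _) (sq_nonneg _)
    refine (div_le_div_of_nonneg_right h3 (by positivity)).trans (le_of_eq ?_)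
    field_simp
    ring
  -- fourth term
  have hd : Real.sqrt D ≤ 2 * Real.sqrt X := by
    rw [show 2 * Real.sqrt X = Real.sqrt (4 * X) by
      rw [Real.sqrt_mul (by norm_num), show (4 : ℝ) = 2 ^ 2 by norm_num, Real.sqrt_sq (by norm_num)]]
    exact Real.sqrt_le_sqrt (by linarith)
  have b4 : 2 * (∑ w, (z.n w : ℝ) * (|α * F.o2 (nR (step G z w)) - β * (T - x w) - W| *
        |F.a (Fin.last k) (nR (step G z w)) ^ 2 - A ^ 2|)) / (A ^ 2) ^ 2 ≤
      (12 * n0 * (C2 + 2 * C1) * (α + β) * t) / A ^ 2 := by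
    have h1 : ∑ w, (z.n w : ℝ) * (|α * F.o2 (nR (step G z w)) - β * (T - x w) - W| *
        |F.a (Fin.last k) (nR (step G z w)) ^ 2 - A ^ 2|) ≤
        (6 * n0 * (C2 + 2 * C1) * (α + β) * A ^ 2) * t := by
      refine c2_wsum z _ _ ?_
      intro w hw
      have h2 := (hst w hw).2.2.1
      have h3 := hx2 w
      have h4 : |α * F.o2 (nR (step G z w)) - β * (T - x w) - W| ≤
          α * (C2 * (Real.sqrt X + 1)) + β * (C1 * (Real.sqrt D + 1)) := by
        have e1 : α * F.o2 (nR (step G z w)) - β * (T - x w) - W =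
            α * (F.o2 (nR (step G z w)) - X) + β * x w := by rw [hWdef]; ring
        rw [e1]
        refine (abs_add_le _ _).trans ?_
        rw [abs_mul, abs_mul, abs_of_nonneg hα, abs_of_nonneg hβ]
        exact add_le_add (mul_le_mul_of_nonneg_left h2 hα) (mul_le_mul_of_nonneg_left h3 hβ)
      have h5 : Real.sqrt X + 1 ≤ 2 * A := by linarith
      have h6 : Real.sqrt D + 1 ≤ 2 * (2 * A) := by linarith [Real.sqrt_nonneg X]
      have h7 : α * (C2 * (Real.sqrt X + 1)) ≤ α * (C2 * (2 * A)) :=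
        mul_le_mul_of_nonneg_left (mul_le_mul_of_nonneg_left h5 hC2.le) hα
      have h8 : β * (C1 * (Real.sqrt D + 1)) ≤ β * (C1 * (2 * (2 * A))) :=
        mul_le_mul_of_nonneg_left (mul_le_mul_of_nonneg_left h6 hC1.le) hβ
      have h9 : α * (C2 * (2 * A)) + β * (C1 * (2 * (2 * A))) ≤ (C2 + 2 * C1) * (α + β) * (2 * A) := by
        have : 0 ≤ 2 * A * (2 * C1 * α + C2 * β) := by positivity
        linarith
      have h10 : |α * F.o2 (nR (step G z w)) - β * (T - x w) - W| ≤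
          (C2 + 2 * C1) * (α + β) * (2 * A) := by linarith
      refine (mul_le_mul h10 (hY w) (abs_nonneg _) (by positivity)).trans (le_of_eq ?_)
      ring
    refine (div_le_div_of_nonneg_right (mul_le_mul_of_nonneg_left h1 (by norm_num : (0 : ℝ) ≤ 2))
      (by positivity)).trans (le_of_eq ?_)
    field_simp
    ring
  -- assembly
  have hfin : (α * g - β * (2 * E * T + D / (2 * τ ^ 2)) + β * (C1 * t)) +
      (-(2 * El * W) + C4 * (α + β) * (2 * C3 * (δo ^ 2 * S) + n0 ^ 2 * t)) +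
      (18 * n0 ^ 2 * C4 * (α + β) * t) + (12 * n0 * (C2 + 2 * C1) * (α + β) * t) ≤
      α * g - β * (2 * E * T + D / (2 * τ ^ 2)) - 2 * El * W +
        (C1 + 2 * C3 * C4 + n0 ^ 2 * C4 + 18 * n0 ^ 2 * C4 + 12 * n0 * (C2 + 2 * C1)) * (α + β) *
          (δo ^ 2 * S + t) := by
    have p1 : 0 ≤ δo ^ 2 * S := by positivity
    have p2 : 0 ≤ α * (C1 * t) := by positivity
    have p3 : 0 ≤ (C1 + n0 ^ 2 * C4 + 18 * n0 ^ 2 * C4 + 12 * n0 * (C2 + 2 * C1)) * (α + β) *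
        (δo ^ 2 * S) := by positivity
    have p4 : 0 ≤ 2 * C3 * C4 * (α + β) * t := by positivity
    linarith
  have hfin2 := div_le_div_of_nonneg_right hfin hAA.le
  rw [add_div, add_div, add_div] at hfin2
  linarith

end UC
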