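import Pool.Agent.helper25.UC.C0
import Pool.Agent.helper25.UC.B5
import Pool.Agent.helper25.UC.B6

/-! # C3 : drift of `o2/env` and of `1/env`; one step changes of `env` -/

namespace UC
open Finset
variable {V : Type} [Fintype V] [DecidableEq V] {s k : ℕ}
variable {G : SimpleGraph V} [DecidableRel G.Adj]

omit [DecidableEq V] in
theorem c3_wsum (z : St V s) (a : V → ℝ) (B : ℝ) (h : ∀ w, 1 ≤ z.n w → a w ≤ B) :
    ∑ w, (z.n w : ℝ) * a w ≤ B * tot z := by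
  unfold tot
  rw [Finset.mul_sum]
  refine Finset.sum_le_sum fun w _ => ?_
  rcases Nat.eq_zero_or_pos (z.n w) with h0 | h0
  · simp [h0]
  · have h1 := mul_le_mul_of_nonneg_left (h w h0) (Nat.cast_nonneg (z.n w) : (0 : ℝ) ≤ z.n w)
    linarith [mul_comm B (z.n w : ℝ)]

omit [DecidableEq V] in
theorem c3_cV : 0 ≤ cV V := Nat.cast_nonneg _

/-- the common facts -/
theorem Flag.c3_core (F : Flag G s k) (τ : ℝ) (hτ : 0 < τ) (hτ0 : τ ≤ tau0 V) :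
    ∃ δ0 > 0, ∃ C1 > 0, ∀ E : ℝ, |E| ≤ cV V + 2 → ∀ K : ℝ, 16 * (cV V + 1) + 6 * C1 ≤ K →
    ∀ δx δo : ℝ, 0 < δx → δx ≤ δo → δo ≤ δ0 → ∀ z, F.Reg δx δo z →
    K * tot z ≤ F.env E τ z → ∀ c r, F.IsMx E τ z c r →
      1 ≤ F.env E τ z ∧ 1 ≤ F.o2 (nR z) ∧ 0 ≤ dsq z.c (nR z) c r ∧
      dsq z.c (nR z) c r ≤ 3 * F.o2 (nR z) ∧
      Real.sqrt (F.o2 (nR z)) ≤ tot z ∧
      ∃ x : V → ℝ, (∀ w, F.env E τ z - x w ≤ F.env E τ (step G z w)) ∧
        (∀ w, |x w| ≤ C1 * (2 * Real.sqrt (F.o2 (nR z)) + 1)) ∧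
        (∀ w, |x w| ≤ F.env E τ z / 2) ∧
        (∑ w, (z.n w : ℝ) * x w ≤
          -(2 * E * F.env E τ z) - dsq z.c (nR z) c r / (2 * τ ^ 2) + C1 * tot z) ∧
        ∑ w, (z.n w : ℝ) * x w ^ 2 ≤ 2 * C1 ^ 2 * (dsq z.c (nR z) c r + 1) * tot z := by
  obtain ⟨δ1, hδ1, hb⟩ := F.env_bounds τ hτ hτ0
  obtain ⟨δ2, hδ2, C1, hC1, he⟩ := F.engine τ hτ hτ0
  refine ⟨min δ1 δ2, lt_min hδ1 hδ2, C1, hC1, ?_⟩
  intro E hE K hK δx δo hx hxo ho z hz hT c r hm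
  have ho1 : δo ≤ δ1 := ho.trans (min_le_left _ _)
  have ho2 : δo ≤ δ2 := ho.trans (min_le_right _ _)
  have hn0 : (0 : ℝ) ≤ cV V := c3_cV
  have ht : 1 ≤ tot z := hz.1
  obtain ⟨-, hb2, -⟩ := hb δx δo hx.le (hxo.trans ho1) (hx.le.trans hxo) ho1 z hz
  obtain ⟨hmf, x, hx1, hx2, hx3⟩ := he E hE δx δo hx.le (hxo.trans ho2) (hx.le.trans hxo) ho2 z hz c r hm
  have hup := hb2 E hE
  set T := F.env E τ z with hTdef
  set X := F.o2 (nR z) with hXdef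
  set D := dsq z.c (nR z) c r with hDdef
  have hD0 : 0 ≤ D := dsq_nonneg _ _ _ _
  have hX0 : 0 ≤ X := F.o2_nonneg _
  have hsq := F.sqrt_o2_le_tot z
  have hKpos : 0 < K := by nlinarith
  have hTK : K ≤ T := le_trans (by nlinarith) hT
  have hT1 : 1 ≤ T := by nlinarith
  have hX1 : 1 ≤ X := by
    by_contra hcon
    rw [not_le] at hcon
    have : 16 * (cV V + 1) * X < 16 * (cV V + 1) * 1 := by
      apply mul_lt_mul_of_pos_left hcon
      linarith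
    linarith
  have hDX : D ≤ 3 * X := hmf.dist
  have hd : Real.sqrt D ≤ 2 * Real.sqrt X := by
    rw [show 2 * Real.sqrt X = Real.sqrt (4 * X) by
      rw [Real.sqrt_mul (by norm_num), show (4 : ℝ) = 2 ^ 2 by norm_num, Real.sqrt_sq (by norm_num)]]
    exact Real.sqrt_le_sqrt (by linarith)
  have hxb : ∀ w, |x w| ≤ C1 * (2 * Real.sqrt X + 1) := fun w =>
    (hx2 w).trans (mul_le_mul_of_nonneg_left (by linarith) hC1.le)
  refine ⟨hT1, hX1, hD0, hDX, hsq, x, hx1, hxb, ?_, by linarith, ?_⟩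
  · intro w
    have h1 := hxb w
    have h2 : C1 * (2 * Real.sqrt X + 1) ≤ C1 * (3 * tot z) :=
      mul_le_mul_of_nonneg_left (by linarith) hC1.le
    have h3 : (6 * C1) * tot z ≤ K * tot z := mul_le_mul_of_nonneg_right (by linarith) (by linarith)
    linarith
  · refine c3_wsum z (fun w => x w ^ 2) _ ?_
    intro w _
    have h1 : x w ^ 2 ≤ (C1 * (Real.sqrt D + 1)) ^ 2 := by
      rw [← sq_abs (x w)]
      exact pow_le_pow_left₀ (abs_nonneg _) (hx2 w) 2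
    have h2 : (Real.sqrt D + 1) ^ 2 ≤ 2 * (D + 1) := by
      have := Real.sq_sqrt hD0
      nlinarith [sq_nonneg (Real.sqrt D - 1)]
    calc x w ^ 2 ≤ C1 ^ 2 * (Real.sqrt D + 1) ^ 2 := by rw [← mul_pow]; exact h1
      _ ≤ C1 ^ 2 * (2 * (D + 1)) := mul_le_mul_of_nonneg_left h2 (sq_nonneg _)
      _ = 2 * C1 ^ 2 * (D + 1) := by ring

theorem Flag.V_drift (F : Flag G s k) (τ : ℝ) (hτ : 0 < τ) (hτ0 : τ ≤ tau0 V) :
    ∃ δ0 > 0, ∃ K0 > 0, ∃ C > 0, ∀ E : ℝ, |E| ≤ cV V + 2 → ∀ K : ℝ, K0 ≤ K →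
    ∀ δx δo : ℝ, 0 < δx → δx ≤ δo → δo ≤ δ0 → ∀ z, F.Reg δx δo z →
    K * tot z ≤ F.env E τ z →
    ∀ c r, F.IsMx E τ z c r → ∀ g : ℝ, gen G (fun y => F.o2 (nR y)) z ≤ g →
      gen G (fun y => F.o2 (nR y) / F.env E τ y) z ≤
        g / F.env E τ z - 2 * E * (F.o2 (nR z) / F.env E τ z) -
          F.o2 (nR z) * dsq z.c (nR z) c r / (4 * τ ^ 2 * F.env E τ z ^ 2) +
          C / K * (F.o2 (nR z) / F.env E τ z) := by
  obtain ⟨δ1, hδ1, C1, hC1, hcore⟩ := F.c3_core τ hτ hτ0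
  obtain ⟨δ2, hδ2, C2, hC2, hstep⟩ := F.reg_step
  have hn0 : (0 : ℝ) ≤ cV V := c3_cV
  refine ⟨min δ1 δ2, lt_min hδ1 hδ2, 16 * (cV V + 1) + 6 * C1 + 16 * C1 ^ 2 * τ ^ 2, by positivity,
    C1 + 4 * C1 ^ 2 + 12 * C1 * C2, by positivity, ?_⟩
  intro E hE K hK δx δo hx hxo ho z hz hT c r hm g hg
  have ho1 : δo ≤ δ1 := ho.trans (min_le_left _ _)
  have ho2 : δo ≤ δ2 := ho.trans (min_le_right _ _)
  have hK1 : 0 ≤ 16 * C1 ^ 2 * τ ^ 2 := by positivity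
  obtain ⟨hT1, hX1, hD0, hDX, hsq, x, hx1, hx2, hx3, hx4, hx5⟩ :=
    hcore E hE K (by linarith) δx δo hx hxo ho1 z hz hT c r hm
  have hst := hstep δx δo hx hxo ho2 z hz
  have ht : 1 ≤ tot z := hz.1
  have hq := gen_quot_env (G := G) (fun y => F.o2 (nR y)) (fun y => F.env E τ y) z x
    (by show 0 < F.env E τ z; linarith) (fun w _ => hx1 w) (fun w _ => hx3 w)
    (fun w _ => F.o2_nonneg _)
  have hs3 : ∑ w, (z.n w : ℝ) * (|F.o2 (nR (step G z w)) - F.o2 (nR z)| * |x w|) ≤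
      (6 * C1 * C2 * F.o2 (nR z)) * tot z := by
    refine c3_wsum z _ _ ?_
    intro w hw
    have h1 := (hst w hw).2.2.1
    have h2 := hx2 w
    have h0 : 1 ≤ Real.sqrt (F.o2 (nR z)) := by
      rw [show (1 : ℝ) = Real.sqrt 1 by simp]
      exact Real.sqrt_le_sqrt hX1
    have h3 : |F.o2 (nR (step G z w)) - F.o2 (nR z)| ≤ C2 * (2 * Real.sqrt (F.o2 (nR z))) :=
      h1.trans (mul_le_mul_of_nonneg_left (by linarith) hC2.le)
    have h4 : |x w| ≤ C1 * (3 * Real.sqrt (F.o2 (nR z))) :=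
      h2.trans (mul_le_mul_of_nonneg_left (by linarith) hC1.le)
    have h5 := mul_le_mul h3 h4 (abs_nonneg _) (by positivity)
    refine h5.trans (le_of_eq ?_)
    have h6 := Real.mul_self_sqrt (F.o2_nonneg (nR z))
    calc C2 * (2 * Real.sqrt (F.o2 (nR z))) * (C1 * (3 * Real.sqrt (F.o2 (nR z))))
        = 6 * C1 * C2 * (Real.sqrt (F.o2 (nR z)) * Real.sqrt (F.o2 (nR z))) := by ring
      _ = _ := by rw [h6]
  set T := F.env E τ z with hTdef
  set X := F.o2 (nR z) with hXdef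
  set D := dsq z.c (nR z) c r with hDdef
  set t := tot z with htdef
  have hTp : 0 < T := by linarith
  have hKp : 0 < K := by linarith
  have hXp : 0 ≤ X := by linarith
  rw [abs_of_nonneg hXp] at hq
  refine hq.trans ?_
  -- `t / T ≤ 1 / K`
  have hp : t / T ≤ 1 / K := by
    rw [div_le_div_iff₀ hTp hKp]
    linarith
  have hp0 : 0 ≤ t / T := by positivity
  have b1 : gen G (fun y => F.o2 (nR y)) z / T ≤ g / T := div_le_div_of_nonneg_right hg hTp.le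
  have b2 : X * (∑ w, (z.n w : ℝ) * x w) / T ^ 2 ≤
      -(2 * E * (X / T)) - X * D / (2 * τ ^ 2 * T ^ 2) + C1 * (1 / K) * (X / T) := by
    have h1 : X * (∑ w, (z.n w : ℝ) * x w) / T ^ 2 ≤
        X * (-(2 * E * T) - D / (2 * τ ^ 2) + C1 * t) / T ^ 2 := by
      apply div_le_div_of_nonneg_right _ (by positivity)
      exact mul_le_mul_of_nonneg_left hx4 hXp
    have h2 : X * (-(2 * E * T) - D / (2 * τ ^ 2) + C1 * t) / T ^ 2 =
        -(2 * E * (X / T)) - X * D / (2 * τ ^ 2 * T ^ 2) + C1 * (t / T) * (X / T) := by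
      field_simp
    have h3 : C1 * (t / T) * (X / T) ≤ C1 * (1 / K) * (X / T) := by
      apply mul_le_mul_of_nonneg_right _ (by positivity)
      exact mul_le_mul_of_nonneg_left hp hC1.le
    linarith
  have b3 : 2 * X * (∑ w, (z.n w : ℝ) * x w ^ 2) / T ^ 3 ≤
      X * D / (4 * τ ^ 2 * T ^ 2) + 4 * C1 ^ 2 * (1 / K) * (X / T) := by
    have h1 : 2 * X * (∑ w, (z.n w : ℝ) * x w ^ 2) / T ^ 3 ≤
        2 * X * (2 * C1 ^ 2 * (D + 1) * t) / T ^ 3 := by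
      apply div_le_div_of_nonneg_right _ (by positivity)
      exact mul_le_mul_of_nonneg_left hx5 (by positivity)
    have h2 : 2 * X * (2 * C1 ^ 2 * (D + 1) * t) / T ^ 3 =
        (t / T) * (4 * C1 ^ 2 * (X * D / T ^ 2)) + (t / T) * (4 * C1 ^ 2 * (X / T ^ 2)) := by
      field_simp
      ring
    have h3 : (t / T) * (4 * C1 ^ 2 * (X * D / T ^ 2)) ≤ X * D / (4 * τ ^ 2 * T ^ 2) := by
      have h4 : (t / T) * (4 * C1 ^ 2) ≤ 1 / (4 * τ ^ 2) := by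
        have h5 : (t / T) * (4 * C1 ^ 2) ≤ (1 / K) * (4 * C1 ^ 2) :=
          mul_le_mul_of_nonneg_right hp (by positivity)
        refine h5.trans ?_
        rw [one_div_mul_eq_div, div_le_div_iff₀ hKp (by positivity)]
        have : 4 * C1 ^ 2 * (4 * τ ^ 2) = 16 * C1 ^ 2 * τ ^ 2 := by ring
        rw [this]
        linarith
      have h6 := mul_le_mul_of_nonneg_right h4 (by positivity : 0 ≤ X * D / T ^ 2)
      calc (t / T) * (4 * C1 ^ 2 * (X * D / T ^ 2)) = t / T * (4 * C1 ^ 2) * (X * D / T ^ 2) := by ring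
        _ ≤ 1 / (4 * τ ^ 2) * (X * D / T ^ 2) := h6
        _ = X * D / (4 * τ ^ 2 * T ^ 2) := by field_simp
    have h7 : (t / T) * (4 * C1 ^ 2 * (X / T ^ 2)) ≤ 4 * C1 ^ 2 * (1 / K) * (X / T) := by
      have h8 : X / T ^ 2 ≤ X / T := by
        apply div_le_div_of_nonneg_left hXp hTp
        nlinarith
      have h9 : 4 * C1 ^ 2 * (X / T ^ 2) ≤ 4 * C1 ^ 2 * (X / T) :=
        mul_le_mul_of_nonneg_left h8 (by positivity)
      have h10 := mul_le_mul hp h9 (by positivity) (by positivity)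
      linarith [mul_comm (1 / K) (4 * C1 ^ 2 * (X / T)), mul_assoc (4 * C1 ^ 2) (1 / K) (X / T),
        mul_left_comm (4 * C1 ^ 2) (1 / K) (X / T)]
    linarith
  have b4 : 2 * (∑ w, (z.n w : ℝ) * (|F.o2 (nR (step G z w)) - X| * |x w|)) / T ^ 2 ≤
      12 * C1 * C2 * (1 / K) * (X / T) := by
    have h1 : 2 * (∑ w, (z.n w : ℝ) * (|F.o2 (nR (step G z w)) - X| * |x w|)) / T ^ 2 ≤
        2 * ((6 * C1 * C2 * X) * t) / T ^ 2 := by
      apply div_le_div_of_nonneg_right _ (by positivity)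
      exact mul_le_mul_of_nonneg_left hs3 (by norm_num)
    have h2 : 2 * ((6 * C1 * C2 * X) * t) / T ^ 2 = 12 * C1 * C2 * (t / T) * (X / T) := by
      field_simp
      ring
    have h3 : 12 * C1 * C2 * (t / T) * (X / T) ≤ 12 * C1 * C2 * (1 / K) * (X / T) := by
      apply mul_le_mul_of_nonneg_right _ (by positivity)
      exact mul_le_mul_of_nonneg_left hp (by positivity)
    linarith
  have e1 : X * D / (2 * τ ^ 2 * T ^ 2) = 2 * (X * D / (4 * τ ^ 2 * T ^ 2)) := by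
    field_simp
    ring
  have e2 : (C1 + 4 * C1 ^ 2 + 12 * C1 * C2) / K * (X / T) =
      C1 * (1 / K) * (X / T) + 4 * C1 ^ 2 * (1 / K) * (X / T) + 12 * C1 * C2 * (1 / K) * (X / T) := by
    ring
  rw [e2]
  rw [e1] at b2
  linarith

theorem Flag.inv_env_drift (F : Flag G s k) (τ : ℝ) (hτ : 0 < τ) (hτ0 : τ ≤ tau0 V) :
    ∃ δ0 > 0, ∃ K0 > 0, ∃ C > 0, ∀ E : ℝ, |E| ≤ cV V + 2 → ∀ K : ℝ, K0 ≤ K →
    ∀ δx δo : ℝ, 0 < δx → δx ≤ δo → δo ≤ δ0 → ∀ z, F.Reg δx δo z →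
    K * tot z ≤ F.env E τ z →
      gen G (fun y => 1 / F.env E τ y) z ≤ -(2 * E - C / K) * (1 / F.env E τ z) := by
  obtain ⟨δ1, hδ1, C1, hC1, hcore⟩ := F.c3_core τ hτ hτ0
  have hn0 : (0 : ℝ) ≤ cV V := c3_cV
  refine ⟨δ1, hδ1, 16 * (cV V + 1) + 6 * C1 + 16 * C1 ^ 2 * τ ^ 2, by positivity,
    C1 + 4 * C1 ^ 2, by positivity, ?_⟩
  intro E hE K hK δx δo hx hxo ho1 z hz hT
  obtain ⟨c, r, hm⟩ := F.exists_mx E τ hE hτ hτ0 z
  have hK1 : 0 ≤ 16 * C1 ^ 2 * τ ^ 2 := by positivity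
  obtain ⟨hT1, hX1, hD0, hDX, hsq, x, hx1, hx2, hx3, hx4, hx5⟩ :=
    hcore E hE K (by linarith) δx δo hx hxo ho1 z hz hT c r hm
  have ht : 1 ≤ tot z := hz.1
  have hq := gen_quot_env (G := G) (fun _ => (1 : ℝ)) (fun y => F.env E τ y) z x
    (by show 0 < F.env E τ z; linarith) (fun w _ => hx1 w) (fun w _ => hx3 w)
    (fun w _ => zero_le_one)
  simp only [gen_const, sub_self, abs_zero, zero_mul, mul_zero, Finset.sum_const_zero, zero_div, one_mul,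
    abs_one, mul_one, zero_add, add_zero] at hq
  set T := F.env E τ z with hTdef
  set D := dsq z.c (nR z) c r with hDdef
  set t := tot z with htdef
  have hTp : 0 < T := by linarith
  have hKp : 0 < K := by linarith
  refine hq.trans ?_
  have hp : t / T ≤ 1 / K := by
    rw [div_le_div_iff₀ hTp hKp]
    linarith
  have hp0 : 0 ≤ t / T := by positivity
  have b2 : (∑ w, (z.n w : ℝ) * x w) / T ^ 2 ≤
      -(2 * E * (1 / T)) - D / (2 * τ ^ 2 * T ^ 2) + C1 * (1 / K) * (1 / T) := by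
    have h1 : (∑ w, (z.n w : ℝ) * x w) / T ^ 2 ≤
        (-(2 * E * T) - D / (2 * τ ^ 2) + C1 * t) / T ^ 2 := by
      apply div_le_div_of_nonneg_right _ (by positivity)
      exact hx4
    have h2 : (-(2 * E * T) - D / (2 * τ ^ 2) + C1 * t) / T ^ 2 =
        -(2 * E * (1 / T)) - D / (2 * τ ^ 2 * T ^ 2) + C1 * (t / T) * (1 / T) := by
      field_simp
    have h3 : C1 * (t / T) * (1 / T) ≤ C1 * (1 / K) * (1 / T) := by
      apply mul_le_mul_of_nonneg_right _ (by positivity)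
      exact mul_le_mul_of_nonneg_left hp hC1.le
    linarith
  have b3 : 2 * (∑ w, (z.n w : ℝ) * x w ^ 2) / T ^ 3 ≤
      D / (4 * τ ^ 2 * T ^ 2) + 4 * C1 ^ 2 * (1 / K) * (1 / T) := by
    have h1 : 2 * (∑ w, (z.n w : ℝ) * x w ^ 2) / T ^ 3 ≤
        2 * (2 * C1 ^ 2 * (D + 1) * t) / T ^ 3 := by
      apply div_le_div_of_nonneg_right _ (by positivity)
      exact mul_le_mul_of_nonneg_left hx5 (by positivity)
    have h2 : 2 * (2 * C1 ^ 2 * (D + 1) * t) / T ^ 3 =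
        (t / T) * (4 * C1 ^ 2 * (D / T ^ 2)) + (t / T) * (4 * C1 ^ 2 * (1 / T ^ 2)) := by
      field_simp
      ring
    have h3 : (t / T) * (4 * C1 ^ 2 * (D / T ^ 2)) ≤ D / (4 * τ ^ 2 * T ^ 2) := by
      have h4 : (t / T) * (4 * C1 ^ 2) ≤ 1 / (4 * τ ^ 2) := by
        have h5 : (t / T) * (4 * C1 ^ 2) ≤ (1 / K) * (4 * C1 ^ 2) :=
          mul_le_mul_of_nonneg_right hp (by positivity)
        refine h5.trans ?_
        rw [one_div_mul_eq_div, div_le_div_iff₀ hKp (by positivity)]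
        have : 4 * C1 ^ 2 * (4 * τ ^ 2) = 16 * C1 ^ 2 * τ ^ 2 := by ring
        rw [this]
        linarith
      have h6 := mul_le_mul_of_nonneg_right h4 (by positivity : 0 ≤ D / T ^ 2)
      calc (t / T) * (4 * C1 ^ 2 * (D / T ^ 2)) = t / T * (4 * C1 ^ 2) * (D / T ^ 2) := by ring
        _ ≤ 1 / (4 * τ ^ 2) * (D / T ^ 2) := h6
        _ = D / (4 * τ ^ 2 * T ^ 2) := by field_simp
    have h7 : (t / T) * (4 * C1 ^ 2 * (1 / T ^ 2)) ≤ 4 * C1 ^ 2 * (1 / K) * (1 / T) := by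
      have h8 : 1 / T ^ 2 ≤ 1 / T := by
        apply div_le_div_of_nonneg_left zero_le_one hTp
        nlinarith
      have h9 : 4 * C1 ^ 2 * (1 / T ^ 2) ≤ 4 * C1 ^ 2 * (1 / T) :=
        mul_le_mul_of_nonneg_left h8 (by positivity)
      have h10 := mul_le_mul hp h9 (by positivity) (by positivity)
      linarith [mul_comm (1 / K) (4 * C1 ^ 2 * (1 / T)), mul_assoc (4 * C1 ^ 2) (1 / K) (1 / T),
        mul_left_comm (4 * C1 ^ 2) (1 / K) (1 / T)]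
    linarith
  have e1 : D / (2 * τ ^ 2 * T ^ 2) = 2 * (D / (4 * τ ^ 2 * T ^ 2)) := by
    field_simp
    ring
  have e3 : 0 ≤ D / (4 * τ ^ 2 * T ^ 2) := by positivity
  have e2 : -(2 * E - (C1 + 4 * C1 ^ 2) / K) * (1 / T) =
      -(2 * E * (1 / T)) + C1 * (1 / K) * (1 / T) + 4 * C1 ^ 2 * (1 / K) * (1 / T) := by
    ring
  rw [e2]
  rw [e1] at b2
  linarith

/-- one step changes of `env` are at most half of `env` -/
theorem Flag.env_half (F : Flag G s k) (τ : ℝ) (hτ : 0 < τ) (hτ0 : τ ≤ tau0 V) :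
    ∃ δ0 > 0, ∃ K0 > 0, ∀ E : ℝ, |E| ≤ cV V + 2 → ∀ K : ℝ, K0 ≤ K →
    ∀ δx δo : ℝ, 0 < δx → δx ≤ δo → δo ≤ δ0 → ∀ z, F.Reg δx δo z →
    K * tot z ≤ F.env E τ z → ∀ w, 1 ≤ z.n w →
      0 < F.env E τ z ∧ F.env E τ z ≤ 2 * F.env E τ (step G z w) ∧
      F.env E τ (step G z w) ≤ 2 * F.env E τ z := by
  obtain ⟨δ0, hδ0, C, hC, hs⟩ := F.env_step τ hτ hτ0
  refine ⟨δ0, hδ0, 4 * C, by positivity, ?_⟩
  intro E hE K hK δx δo hx hxo ho z hz hT w hw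
  have ht : 1 ≤ tot z := hz.1
  have h1 := hs E hE δx δo hx hxo ho z hz w hw
  have h2 := F.sqrt_o2_le_tot z
  have h3 : C * (Real.sqrt (F.o2 (nR z)) + 1) ≤ C * (2 * tot z) :=
    mul_le_mul_of_nonneg_left (by linarith) hC.le
  have h4 : 4 * C * tot z ≤ K * tot z := mul_le_mul_of_nonneg_right hK (by linarith)
  have h5 : 0 < 4 * C * tot z := by positivity
  rw [abs_le] at h1
  refine ⟨by linarith, by linarith, by linarith⟩

end UC
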