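import Pool.Agent.helper25.UC.C0
import Pool.Agent.helper25.UC.B5
import Pool.Agent.helper25.UC.B6

/-!
# C4 : drifts of `a_0/env`, `a_l²/env`, `o2/a_0`, `1/a_0`   (`a_l = a (last)`)

(helper95, module UC-C4 of helper25)
-/

set_option linter.unusedSectionVars false

namespace UC
open Finset
variable {V : Type} [Fintype V] [DecidableEq V] {s k : ℕ}
variable {G : SimpleGraph V} [DecidableRel G.Adj]

theorem sum_n_le' (z : St V s) (f : V → ℝ) (B : ℝ) (h : ∀ w, 1 ≤ z.n w → f w ≤ B) :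
    ∑ w, (z.n w : ℝ) * f w ≤ tot z * B := by
  unfold tot
  rw [Finset.sum_mul]
  apply Finset.sum_le_sum
  intro w _
  rcases Nat.eq_zero_or_pos (z.n w) with h0 | h0
  · simp [h0]
  · exact mul_le_mul_of_nonneg_left (h w h0) (Nat.cast_nonneg _)

theorem quot_real {X T t D d τ E C K Sx Sx2 : ℝ} (hX : 0 ≤ X) (hT : 0 < T) (ht : 1 ≤ t)
    (hK : 1 ≤ K) (hKt : K * t ≤ T) (hd : 0 ≤ d) (hD : d ^ 2 = D) (hτ : 0 < τ) (hC : 0 < C)
    (h2 : Sx ≤ -(2 * E * T) - D / (2 * τ ^ 2) + C * t)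
    (h3 : Sx2 ≤ t * (C ^ 2 * (d + 1) ^ 2)) (hK2 : 32 * C ^ 2 * τ ^ 2 ≤ K) :
    X * Sx / T ^ 2 + 2 * |X| * Sx2 / T ^ 3 ≤
      (-(2 * E) + (C + 4 * C ^ 2) / K) * (X / T) - 3 / (8 * τ ^ 2) * (X * D / T ^ 2) := by
  have hKpos : 0 < K := by linarith
  have hu : t / T ≤ 1 / K := by rw [div_le_div_iff₀ hT hKpos]; linarith
  have hKT : K ≤ T := (le_mul_of_one_le_right hKpos.le ht).trans hKt
  have hq : 1 / T ≤ 1 / K := one_div_le_one_div_of_le hKpos hKT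
  have hk1 : 1 / K ≤ 1 := by rw [div_le_one hKpos]; exact hK
  have hk0 : 0 < 1 / K := by positivity
  have hp : 0 ≤ X / T := by positivity
  have hy : 0 ≤ X * D / T ^ 2 := by rw [← hD]; positivity
  have hτ2 : 0 < τ ^ 2 := by positivity
  have a1 : X * Sx / T ^ 2 ≤ X * (-(2 * E * T) - D / (2 * τ ^ 2) + C * t) / T ^ 2 :=
    div_le_div_of_nonneg_right (mul_le_mul_of_nonneg_left h2 hX) (by positivity)
  have a2 : X * (-(2 * E * T) - D / (2 * τ ^ 2) + C * t) / T ^ 2 =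
      -(2 * E) * (X / T) - (1 / (2 * τ ^ 2)) * (X * D / T ^ 2) + C * (X / T) * (t / T) := by
    field_simp
  have a3 : C * (X / T) * (t / T) ≤ C * (X / T) * (1 / K) :=
    mul_le_mul_of_nonneg_left hu (by positivity)
  have b1 : 2 * |X| * Sx2 / T ^ 3 ≤ 2 * X * (t * (C ^ 2 * (d + 1) ^ 2)) / T ^ 3 := by
    rw [abs_of_nonneg hX]
    exact div_le_div_of_nonneg_right (mul_le_mul_of_nonneg_left h3 (by positivity)) (by positivity)
  have b2 : 2 * X * (t * (C ^ 2 * (d + 1) ^ 2)) / T ^ 3 =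
      2 * C ^ 2 * (X * (d + 1) ^ 2 / T ^ 2) * (t / T) := by
    field_simp
  have b3 : 2 * C ^ 2 * (X * (d + 1) ^ 2 / T ^ 2) * (t / T) ≤
      2 * C ^ 2 * (X * (d + 1) ^ 2 / T ^ 2) * (1 / K) :=
    mul_le_mul_of_nonneg_left hu (by positivity)
  have b4 : X * (d + 1) ^ 2 / T ^ 2 ≤ 2 * (X * D / T ^ 2) + 2 * (X / T) := by
    have e1 : (d + 1) ^ 2 ≤ 2 * (D + 1) := by rw [← hD]; nlinarith [sq_nonneg (d - 1)]
    have e2 : X * (d + 1) ^ 2 / T ^ 2 ≤ X * (2 * (D + 1)) / T ^ 2 :=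
      div_le_div_of_nonneg_right (mul_le_mul_of_nonneg_left e1 hX) (by positivity)
    have e3 : X * (2 * (D + 1)) / T ^ 2 = 2 * (X * D / T ^ 2) + 2 * ((X / T) * (1 / T)) := by
      field_simp
    have e4 : (X / T) * (1 / T) ≤ (X / T) * 1 := mul_le_mul_of_nonneg_left (hq.trans hk1) hp
    linarith
  have b5 : 2 * C ^ 2 * (X * (d + 1) ^ 2 / T ^ 2) * (1 / K) ≤
      2 * C ^ 2 * (2 * (X * D / T ^ 2) + 2 * (X / T)) * (1 / K) :=
    mul_le_mul_of_nonneg_right (mul_le_mul_of_nonneg_left b4 (by positivity)) hk0.le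
  have b6 : 4 * C ^ 2 * (1 / K) ≤ 1 / (8 * τ ^ 2) := by
    rw [mul_one_div, div_le_div_iff₀ hKpos (by positivity)]
    linarith
  have b7 : 4 * C ^ 2 * (1 / K) * (X * D / T ^ 2) ≤ 1 / (8 * τ ^ 2) * (X * D / T ^ 2) :=
    mul_le_mul_of_nonneg_right b6 hy
  have f1 : (C + 4 * C ^ 2) / K * (X / T) =
      C * (X / T) * (1 / K) + 4 * C ^ 2 * (X / T) * (1 / K) := by
    field_simp
  have f2 : (1 / (2 * τ ^ 2)) * (X * D / T ^ 2) =
      3 / (8 * τ ^ 2) * (X * D / T ^ 2) + 1 / (8 * τ ^ 2) * (X * D / T ^ 2) := by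
    field_simp; ring
  rw [b2] at b1
  rw [a2] at a1
  have f3 : (-(2 * E) + (C + 4 * C ^ 2) / K) * (X / T) =
      -(2 * E) * (X / T) + (C + 4 * C ^ 2) / K * (X / T) := by ring
  rw [f3, f1]
  linarith [a1, a3, b1, b3, b5, b7, f2]

theorem Flag.A_drift (F : Flag G s (k + 1)) (τ : ℝ) (hτ : 0 < τ) (hτ0 : τ ≤ tau0 V) :
    ∃ δ0 > 0, ∃ K0 > 0, ∃ C > 0, ∀ E : ℝ, |E| ≤ cV V + 2 → ∀ K : ℝ, K0 ≤ K →
    ∀ δx δo : ℝ, 0 < δx → δx ≤ δo → δo ≤ δ0 → ∀ z, F.Reg δx δo z →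
    K * tot z ≤ F.env E τ z →
    ∀ c r, F.IsMx E τ z c r →
      gen G (fun y => F.a 0 (nR y) / F.env E τ y) z ≤
        (F.E 0 - 2 * E + C / K) * (F.a 0 (nR z) / F.env E τ z) -
          F.a 0 (nR z) * dsq z.c (nR z) c r / (4 * τ ^ 2 * F.env E τ z ^ 2) := by
  obtain ⟨δ1, hδ1, c1, hc1, C1, hC1, hF⟩ := F.reg_facts1
  obtain ⟨δ2, hδ2, C, hC, hE⟩ := F.engine τ hτ hτ0
  obtain ⟨δ3, hδ3, C3, hC3, hS⟩ := F.reg_step
  have hn0 : 0 ≤ cV V := by unfold cV; positivity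
  set C' : ℝ := 2 * C1 * cV V * C with hC'def
  have hC' : 0 ≤ C' := by positivity
  refine ⟨min δ1 (min δ2 δ3), by positivity, 6 * C + 1 + 32 * C ^ 2 * τ ^ 2, by positivity,
    C + 4 * C ^ 2 + 2 * τ ^ 2 * C' ^ 2 + C', by positivity, ?_⟩
  intro E hEE K hK δx δo hx hxo ho z hz hKT c r hmx
  have ho1 : δo ≤ δ1 := ho.trans (min_le_left _ _)
  have ho2 : δo ≤ δ2 := ho.trans ((min_le_right _ _).trans (min_le_left _ _))
  have ho3 : δo ≤ δ3 := ho.trans ((min_le_right _ _).trans (min_le_right _ _))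
  have hopos : 0 < δo := lt_of_lt_of_le hx hxo
  obtain ⟨hfc, hf1⟩ := hF δx δo hx.le (hxo.trans ho1) hopos.le ho1 z hz
  obtain ⟨hmf, x, hx1, hx2, hx3⟩ := hE E hEE δx δo hx.le (hxo.trans ho2) hopos.le ho2 z hz c r hmx
  have hm : F.Match z := hz.2.1
  have ht : 1 ≤ tot z := hz.1
  have hq0 : 0 ≤ 32 * C ^ 2 * τ ^ 2 := by positivity
  have hCK : 6 * C ≤ K := by linarith
  have hK1 : 1 ≤ K := by linarith
  have hK2 : 32 * C ^ 2 * τ ^ 2 ≤ K := by linarith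
  have hT : 0 < F.env E τ z :=
    lt_of_lt_of_le (mul_pos (lt_of_lt_of_le one_pos hK1) (lt_of_lt_of_le one_pos ht)) hKT
  have hX : 0 < F.a 0 (nR z) := hz.2.2.1 0
  have hD0 : 0 ≤ dsq z.c (nR z) c r := dsq_nonneg _ _ _ _
  have hD := Real.sq_sqrt hD0
  have hd0 : 0 ≤ Real.sqrt (dsq z.c (nR z) c r) := Real.sqrt_nonneg _
  have ho2t : Real.sqrt (F.o2 (nR z)) ≤ tot z := F.sqrt_o2_le_tot z
  have hdt : Real.sqrt (dsq z.c (nR z) c r) ≤ 2 * tot z := by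
    have e1 : dsq z.c (nR z) c r ≤ (2 * Real.sqrt (F.o2 (nR z))) ^ 2 := by
      rw [mul_pow, Real.sq_sqrt (F.o2_nonneg _)]
      have := hmf.dist
      have := F.o2_nonneg (nR z)
      linarith
    have e2 : Real.sqrt (dsq z.c (nR z) c r) ≤ 2 * Real.sqrt (F.o2 (nR z)) := by
      apply Real.sqrt_le_iff.2
      exact ⟨by positivity, e1⟩
    linarith
  have hxT : ∀ w, 1 ≤ z.n w → |x w| ≤ F.env E τ z / 2 := by
    intro w _
    have e1 := hx2 w
    have e2 : C * (Real.sqrt (dsq z.c (nR z) c r) + 1) ≤ C * (3 * tot z) :=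
      mul_le_mul_of_nonneg_left (by linarith) hC.le
    have e3 : 6 * C * tot z ≤ K * tot z := mul_le_mul_of_nonneg_right hCK (by linarith)
    linarith
  have hXs : ∀ w, 1 ≤ z.n w → 0 ≤ F.a 0 (nR (step G z w)) := by
    intro w hw
    exact ((hS δx δo hx hxo ho3 z hz w hw).1.2.2.1 0).le
  have key := gen_quot_env (G := G) (fun y => F.a 0 (nR y)) (fun y => F.env E τ y) z x hT
    (fun w _ => hx1 w) hxT hXs
  refine key.trans ?_
  rw [F.gen_a z hm 0]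
  have hSx2 : ∑ w, (z.n w : ℝ) * x w ^ 2 ≤
      tot z * (C ^ 2 * (Real.sqrt (dsq z.c (nR z) c r) + 1) ^ 2) := by
    apply sum_n_le'
    intro w _
    have e1 := hx2 w
    calc x w ^ 2 = |x w| ^ 2 := (sq_abs _).symm
      _ ≤ (C * (Real.sqrt (dsq z.c (nR z) c r) + 1)) ^ 2 := by
          apply pow_le_pow_left₀ (abs_nonneg _) e1
      _ = _ := by ring
  have hSx : ∑ w, (z.n w : ℝ) * x w ≤ -(2 * E * F.env E τ z) -
      dsq z.c (nR z) c r / (2 * τ ^ 2) + C * tot z := by linarith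
  have hq := quot_real hX.le hT ht hK1 hKT hd0 hD hτ hC hSx hSx2 hK2
  have hSd : ∑ w, (z.n w : ℝ) * (|F.a 0 (nR (step G z w)) - F.a 0 (nR z)| * |x w|) ≤
      tot z * (cV V * (C * (Real.sqrt (dsq z.c (nR z) c r) + 1))) := by
    apply sum_n_le'
    intro w _
    exact mul_le_mul (F.a_step_abs z hm w 0) (hx2 w) (abs_nonneg _) hn0
  have hKpos : 0 < K := by linarith
  -- the four pieces
  set X := F.a 0 (nR z) with hXdef
  set T := F.env E τ z with hTdef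
  set d := Real.sqrt (dsq z.c (nR z) c r) with hddef
  set D := dsq z.c (nR z) c r with hDdef
  have hp : 0 ≤ X / T := by positivity
  have g1 : (F.E 0 * X + F.ell z.c (nR z) 0) / T ≤ F.E 0 * (X / T) := by
    rw [add_div, mul_div_assoc]
    have : F.ell z.c (nR z) 0 / T ≤ 0 := div_nonpos_of_nonpos_of_nonneg hf1.ell_zero hT.le
    linarith
  have g2 : 2 * (∑ w, (z.n w : ℝ) * (|F.a 0 (nR (step G z w)) - X| * |x w|)) / T ^ 2 ≤
      1 / (8 * τ ^ 2) * (X * D / T ^ 2) + (2 * τ ^ 2 * C' ^ 2 + C') / K * (X / T) := by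
    have e1 : 2 * (∑ w, (z.n w : ℝ) * (|F.a 0 (nR (step G z w)) - X| * |x w|)) ≤
        C' * (X * (d + 1)) := by
      have : tot z * (cV V * (C * (d + 1))) ≤ (C1 * X) * (cV V * (C * (d + 1))) :=
        mul_le_mul_of_nonneg_right hf1.tot_le (by positivity)
      rw [hC'def]
      linarith [hSd, this]
    have e2 : C' * (X * (d + 1)) ≤ X * (1 / (8 * τ ^ 2) * D + (2 * τ ^ 2 * C' ^ 2 + C')) := by
      have e3 : C' * d ≤ 1 / (8 * τ ^ 2) * D + 2 * τ ^ 2 * C' ^ 2 := by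
        rw [← hD]
        have h1 : 0 ≤ (d / (4 * τ) - τ * C') ^ 2 := sq_nonneg _
        have h2 : (d / (4 * τ) - τ * C') ^ 2 = (1 / (8 * τ ^ 2) * d ^ 2 + 2 * τ ^ 2 * C' ^ 2 -
            C' * d) / 2 := by
          field_simp; ring
        rw [h2] at h1
        linarith
      calc C' * (X * (d + 1)) = X * (C' * d + C') := by ring
        _ ≤ X * (1 / (8 * τ ^ 2) * D + 2 * τ ^ 2 * C' ^ 2 + C') :=
            mul_le_mul_of_nonneg_left (by linarith) hX.le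
        _ = _ := by ring
    have e4 : 2 * (∑ w, (z.n w : ℝ) * (|F.a 0 (nR (step G z w)) - X| * |x w|)) / T ^ 2 ≤
        X * (1 / (8 * τ ^ 2) * D + (2 * τ ^ 2 * C' ^ 2 + C')) / T ^ 2 :=
      div_le_div_of_nonneg_right (e1.trans e2) (by positivity)
    have e5 : X * (1 / (8 * τ ^ 2) * D + (2 * τ ^ 2 * C' ^ 2 + C')) / T ^ 2 =
        1 / (8 * τ ^ 2) * (X * D / T ^ 2) + (2 * τ ^ 2 * C' ^ 2 + C') * (X / T) * (1 / T) := by
      field_simp
    have hKT' : K ≤ T := (le_mul_of_one_le_right hKpos.le ht).trans hKT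
    have e6 : 1 / T ≤ 1 / K := one_div_le_one_div_of_le hKpos hKT'
    have e7 : (2 * τ ^ 2 * C' ^ 2 + C') * (X / T) * (1 / T) ≤
        (2 * τ ^ 2 * C' ^ 2 + C') * (X / T) * (1 / K) :=
      mul_le_mul_of_nonneg_left e6 (by positivity)
    have e8 : (2 * τ ^ 2 * C' ^ 2 + C') * (X / T) * (1 / K) =
        (2 * τ ^ 2 * C' ^ 2 + C') / K * (X / T) := by field_simp
    linarith
  have g3 : X * D / (4 * τ ^ 2 * T ^ 2) = 3 / (8 * τ ^ 2) * (X * D / T ^ 2) -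
      1 / (8 * τ ^ 2) * (X * D / T ^ 2) := by
    field_simp; ring
  have g4 : (F.E 0 - 2 * E + (C + 4 * C ^ 2 + 2 * τ ^ 2 * C' ^ 2 + C') / K) * (X / T) =
      F.E 0 * (X / T) + (-(2 * E) + (C + 4 * C ^ 2) / K) * (X / T) +
        (2 * τ ^ 2 * C' ^ 2 + C') / K * (X / T) := by
    field_simp; ring
  rw [g3, g4]
  linarith

theorem Flag.L_drift (F : Flag G s (k + 1)) (τ : ℝ) (hτ : 0 < τ) (hτ0 : τ ≤ tau0 V) :
    ∃ δ0 > 0, ∃ K0 > 0, ∃ C > 0, ∀ E : ℝ, |E| ≤ cV V + 2 → ∀ K : ℝ, K0 ≤ K →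
    ∀ δx δo : ℝ, 0 < δx → δx ≤ δo → δo ≤ δ0 → ∀ z, F.Reg δx δo z →
    K * tot z ≤ F.env E τ z →
      gen G (fun y => F.a (Fin.last k) (nR y) ^ 2 / F.env E τ y) z ≤
        (2 * F.E (Fin.last k) - 2 * E + C / K) * (F.a (Fin.last k) (nR z) ^ 2 / F.env E τ z) +
          C * (F.S z.c (nR z) / F.env E τ z) := by
  obtain ⟨δ1, hδ1, c1, hc1, C1, hC1, hF⟩ := F.reg_facts1
  obtain ⟨δ2, hδ2, C, hC, hE⟩ := F.engine τ hτ hτ0
  obtain ⟨δ3, hδ3, C3, hC3, hS⟩ := F.reg_step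
  obtain ⟨δ4, hδ4, hB⟩ := F.env_bounds τ hτ hτ0
  have hn0 : 0 ≤ cV V := by unfold cV; positivity
  set C' : ℝ := 6 * (cV V * (2 + cV V)) * C with hC'def
  have hC' : 0 ≤ C' := by positivity
  have hδ5 : 0 < 1 / (16 * (cV V + 1)) := by positivity
  refine ⟨min δ1 (min δ2 (min δ3 (min δ4 (min 1 (1 / (16 * (cV V + 1))))))), by positivity,
    6 * C + 1 + 32 * C ^ 2 * τ ^ 2, by positivity,
    2 * C1 + cV V ^ 2 + C + 4 * C ^ 2 + C', by positivity, ?_⟩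
  intro E hEE K hK δx δo hx hxo ho z hz hKT
  simp only [le_min_iff] at ho
  obtain ⟨ho1, ho2, ho3, ho4, ho5, ho6⟩ := ho
  have hopos : 0 < δo := lt_of_lt_of_le hx hxo
  obtain ⟨c, r, hmx⟩ := F.exists_mx E τ hEE hτ hτ0 z
  obtain ⟨hfc, hf1⟩ := hF δx δo hx.le (hxo.trans ho1) hopos.le ho1 z hz
  obtain ⟨hmf, x, hx1, hx2, hx3⟩ := hE E hEE δx δo hx.le (hxo.trans ho2) hopos.le ho2 z hz c r hmx
  have hm : F.Match z := hz.2.1
  have ht : 1 ≤ tot z := hz.1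
  have hq0 : 0 ≤ 32 * C ^ 2 * τ ^ 2 := by positivity
  have hCK : 6 * C ≤ K := by linarith
  have hK1 : 1 ≤ K := by linarith
  have hK2 : 32 * C ^ 2 * τ ^ 2 ≤ K := by linarith
  have hT : 0 < F.env E τ z :=
    lt_of_lt_of_le (mul_pos (lt_of_lt_of_le one_pos hK1) (lt_of_lt_of_le one_pos ht)) hKT
  have ha : 0 < F.a (Fin.last k) (nR z) := hz.2.2.1 _
  have ha1 : 1 ≤ F.a (Fin.last k) (nR z) := hf1.one_le
  have hD0 : 0 ≤ dsq z.c (nR z) c r := dsq_nonneg _ _ _ _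
  have hD := Real.sq_sqrt hD0
  have hd0 : 0 ≤ Real.sqrt (dsq z.c (nR z) c r) := Real.sqrt_nonneg _
  have ho2t : Real.sqrt (F.o2 (nR z)) ≤ tot z := F.sqrt_o2_le_tot z
  have hd2 : Real.sqrt (dsq z.c (nR z) c r) ≤ 2 * Real.sqrt (F.o2 (nR z)) := by
    apply Real.sqrt_le_iff.2
    refine ⟨by positivity, ?_⟩
    rw [mul_pow, Real.sq_sqrt (F.o2_nonneg _)]
    have := hmf.dist
    have := F.o2_nonneg (nR z)
    linarith
  have hdt : Real.sqrt (dsq z.c (nR z) c r) ≤ 2 * tot z := by linarith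
  have hxT : ∀ w, 1 ≤ z.n w → |x w| ≤ F.env E τ z / 2 := by
    intro w _
    have e1 := hx2 w
    have e2 : C * (Real.sqrt (dsq z.c (nR z) c r) + 1) ≤ C * (3 * tot z) :=
      mul_le_mul_of_nonneg_left (by linarith) hC.le
    have e3 : 6 * C * tot z ≤ K * tot z := mul_le_mul_of_nonneg_right hCK (by linarith)
    linarith
  have key := gen_quot_env (G := G) (fun y => F.a (Fin.last k) (nR y) ^ 2)
    (fun y => F.env E τ y) z x hT (fun w _ => hx1 w) hxT (fun w _ => sq_nonneg _)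
  refine key.trans ?_
  have hSx2 : ∑ w, (z.n w : ℝ) * x w ^ 2 ≤
      tot z * (C ^ 2 * (Real.sqrt (dsq z.c (nR z) c r) + 1) ^ 2) := by
    apply sum_n_le'
    intro w _
    have e1 := hx2 w
    calc x w ^ 2 = |x w| ^ 2 := (sq_abs _).symm
      _ ≤ (C * (Real.sqrt (dsq z.c (nR z) c r) + 1)) ^ 2 := by
          apply pow_le_pow_left₀ (abs_nonneg _) e1
      _ = _ := by ring
  have hSx : ∑ w, (z.n w : ℝ) * x w ≤ -(2 * E * F.env E τ z) -
      dsq z.c (nR z) c r / (2 * τ ^ 2) + C * tot z := by linarith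
  have hq := quot_real (sq_nonneg (F.a (Fin.last k) (nR z))) hT ht hK1 hKT hd0 hD hτ hC hSx
    hSx2 hK2
  have hgX : gen G (fun y => F.a (Fin.last k) (nR y) ^ 2) z ≤
      2 * F.E (Fin.last k) * F.a (Fin.last k) (nR z) ^ 2 + 2 * C1 * F.S z.c (nR z) +
        cV V ^ 2 * tot z := by
    have e1 : gen G (fun y => F.a (Fin.last k) (nR y) ^ 2) z =
        2 * F.a (Fin.last k) (nR z) * gen G (fun y => F.a (Fin.last k) (nR y)) z +
          ∑ w, (z.n w : ℝ) * (F.a (Fin.last k) (nR (step G z w)) -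
            F.a (Fin.last k) (nR z)) ^ 2 := by
      unfold gen
      rw [Finset.mul_sum, ← Finset.sum_add_distrib]
      apply Finset.sum_congr rfl
      intro w _
      ring
    have e2 : ∑ w, (z.n w : ℝ) * (F.a (Fin.last k) (nR (step G z w)) -
            F.a (Fin.last k) (nR z)) ^ 2 ≤ tot z * (cV V ^ 2) := by
      apply sum_n_le'
      intro w _
      rw [← sq_abs]
      exact pow_le_pow_left₀ (abs_nonneg _) (F.a_step_abs z hm w _) 2
    have e3 := hfc.ell_le (Fin.last k)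
    have e4 : F.a (Fin.last k) (nR z) * F.ell z.c (nR z) (Fin.last k) ≤
        F.a (Fin.last k) (nR z) * |F.ell z.c (nR z) (Fin.last k)| :=
      mul_le_mul_of_nonneg_left (le_abs_self _) ha.le
    rw [e1, F.gen_a z hm]
    linarith
  have hSd : ∑ w, (z.n w : ℝ) * (|F.a (Fin.last k) (nR (step G z w)) ^ 2 -
      F.a (Fin.last k) (nR z) ^ 2| * |x w|) ≤
      tot z * ((cV V * (2 + cV V) * F.a (Fin.last k) (nR z)) *
        (C * (Real.sqrt (dsq z.c (nR z) c r) + 1))) := by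
    apply sum_n_le'
    intro w _
    refine mul_le_mul ?_ (hx2 w) (abs_nonneg _) (by positivity)
    have e1 := F.a_step_abs z hm w (Fin.last k)
    have e2 : F.a (Fin.last k) (nR (step G z w)) ^ 2 - F.a (Fin.last k) (nR z) ^ 2 =
        (F.a (Fin.last k) (nR (step G z w)) - F.a (Fin.last k) (nR z)) *
        ((F.a (Fin.last k) (nR (step G z w)) - F.a (Fin.last k) (nR z)) +
          2 * F.a (Fin.last k) (nR z)) := by ring
    rw [e2, abs_mul]
    have e3 : |(F.a (Fin.last k) (nR (step G z w)) - F.a (Fin.last k) (nR z)) +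
          2 * F.a (Fin.last k) (nR z)| ≤ (2 + cV V) * F.a (Fin.last k) (nR z) := by
      calc |(F.a (Fin.last k) (nR (step G z w)) - F.a (Fin.last k) (nR z)) +
          2 * F.a (Fin.last k) (nR z)| ≤
          |F.a (Fin.last k) (nR (step G z w)) - F.a (Fin.last k) (nR z)| +
            |2 * F.a (Fin.last k) (nR z)| := abs_add_le _ _
        _ ≤ cV V + 2 * F.a (Fin.last k) (nR z) := by
            rw [abs_of_nonneg (by positivity : (0:ℝ) ≤ 2 * F.a (Fin.last k) (nR z))]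
            linarith
        _ ≤ (2 + cV V) * F.a (Fin.last k) (nR z) := by
            have := le_mul_of_one_le_right hn0 ha1
            linarith
    calc |F.a (Fin.last k) (nR (step G z w)) - F.a (Fin.last k) (nR z)| *
        |(F.a (Fin.last k) (nR (step G z w)) - F.a (Fin.last k) (nR z)) +
          2 * F.a (Fin.last k) (nR z)| ≤ cV V * ((2 + cV V) * F.a (Fin.last k) (nR z)) :=
          mul_le_mul e1 e3 (abs_nonneg _) hn0
      _ = _ := by ring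
  have hKpos : 0 < K := by linarith
  have hTX : F.env E τ z ≤ F.a (Fin.last k) (nR z) ^ 2 := by
    have e1 := (hB δx δo hx.le (hxo.trans ho4) hopos.le ho4 z hz).2.1 E hEE
    have e2 := hz.2.2.2.2.1 (Fin.last k)
    have e3 : 16 * (cV V + 1) * F.o2 (nR z) ≤
        16 * (cV V + 1) * (δo ^ 2 * F.a (Fin.last k) (nR z) ^ 2) :=
      mul_le_mul_of_nonneg_left e2 (by positivity)
    have e4 : 16 * (cV V + 1) * δo ^ 2 ≤ 1 := by
      have h1 : δo ^ 2 ≤ δo := by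
        rw [sq]; exact mul_le_of_le_one_left hopos.le ho5
      have h2 : δo * (16 * (cV V + 1)) ≤ 1 := by
        rw [le_div_iff₀ (by positivity)] at ho6
        exact ho6
      have h3 : 16 * (cV V + 1) * δo ^ 2 ≤ 16 * (cV V + 1) * δo :=
        mul_le_mul_of_nonneg_left h1 (by positivity)
      linarith
    have e5 : 16 * (cV V + 1) * (δo ^ 2 * F.a (Fin.last k) (nR z) ^ 2) ≤
        1 * F.a (Fin.last k) (nR z) ^ 2 := by
      have := mul_le_mul_of_nonneg_right e4 (sq_nonneg (F.a (Fin.last k) (nR z)))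
      linarith
    linarith
  have hdal : Real.sqrt (dsq z.c (nR z) c r) + 1 ≤ 3 * F.a (Fin.last k) (nR z) := by
    have e2 := hz.2.2.2.2.1 (Fin.last k)
    have e3 : Real.sqrt (F.o2 (nR z)) ≤ F.a (Fin.last k) (nR z) := by
      apply Real.sqrt_le_iff.2
      refine ⟨ha.le, e2.trans ?_⟩
      have : δo ^ 2 ≤ 1 := pow_le_one₀ hopos.le ho5
      have := mul_le_mul_of_nonneg_right this (sq_nonneg (F.a (Fin.last k) (nR z)))
      linarith
    linarith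
  set al := F.a (Fin.last k) (nR z) with haldef
  set T := F.env E τ z with hTdef
  set d := Real.sqrt (dsq z.c (nR z) c r) with hddef
  set D := dsq z.c (nR z) c r with hDdef
  set SS := F.S z.c (nR z) with hSSdef
  have hu : tot z / T ≤ 1 / K := by rw [div_le_div_iff₀ hT hKpos]; linarith
  have hp1 : 1 ≤ al ^ 2 / T := by rw [le_div_iff₀ hT]; linarith
  have g1 : gen G (fun y => F.a (Fin.last k) (nR y) ^ 2) z / T ≤
      2 * F.E (Fin.last k) * (al ^ 2 / T) + 2 * C1 * (SS / T) + cV V ^ 2 / K * (al ^ 2 / T) := by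
    have e1 : gen G (fun y => F.a (Fin.last k) (nR y) ^ 2) z / T ≤
        (2 * F.E (Fin.last k) * al ^ 2 + 2 * C1 * SS + cV V ^ 2 * tot z) / T :=
      div_le_div_of_nonneg_right hgX hT.le
    have e2 : (2 * F.E (Fin.last k) * al ^ 2 + 2 * C1 * SS + cV V ^ 2 * tot z) / T =
        2 * F.E (Fin.last k) * (al ^ 2 / T) + 2 * C1 * (SS / T) + cV V ^ 2 * (tot z / T) := by
      field_simp
    have e3 : cV V ^ 2 * (tot z / T) ≤ cV V ^ 2 * (1 / K) :=
      mul_le_mul_of_nonneg_left hu (by positivity)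
    have e4 : cV V ^ 2 * (1 / K) ≤ cV V ^ 2 / K * (al ^ 2 / T) := by
      rw [mul_one_div]
      exact le_mul_of_one_le_right (by positivity) hp1
    linarith
  have g2 : 2 * (∑ w, (z.n w : ℝ) * (|F.a (Fin.last k) (nR (step G z w)) ^ 2 - al ^ 2| *
      |x w|)) / T ^ 2 ≤ C' / K * (al ^ 2 / T) := by
    have e1 : 2 * (∑ w, (z.n w : ℝ) * (|F.a (Fin.last k) (nR (step G z w)) ^ 2 - al ^ 2| *
        |x w|)) ≤ tot z * (C' * al ^ 2) := by
      have h1 : cV V * (2 + cV V) * al * (C * (d + 1)) ≤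
          cV V * (2 + cV V) * al * (C * (3 * al)) :=
        mul_le_mul_of_nonneg_left (mul_le_mul_of_nonneg_left hdal hC.le) (by positivity)
      have h2 : tot z * (cV V * (2 + cV V) * al * (C * (d + 1))) ≤
          tot z * (cV V * (2 + cV V) * al * (C * (3 * al))) :=
        mul_le_mul_of_nonneg_left h1 (by linarith)
      rw [hC'def]
      linarith [hSd, h2]
    have e2 : 2 * (∑ w, (z.n w : ℝ) * (|F.a (Fin.last k) (nR (step G z w)) ^ 2 - al ^ 2| *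
        |x w|)) / T ^ 2 ≤ tot z * (C' * al ^ 2) / T ^ 2 :=
      div_le_div_of_nonneg_right e1 (by positivity)
    have e3 : tot z * (C' * al ^ 2) / T ^ 2 = C' * (al ^ 2 / T) * (tot z / T) := by
      field_simp
    have e4 : C' * (al ^ 2 / T) * (tot z / T) ≤ C' * (al ^ 2 / T) * (1 / K) :=
      mul_le_mul_of_nonneg_left hu (by positivity)
    have e5 : C' * (al ^ 2 / T) * (1 / K) = C' / K * (al ^ 2 / T) := by field_simp
    linarith
  have g3 : 0 ≤ 3 / (8 * τ ^ 2) * (al ^ 2 * D / T ^ 2) := by positivity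
  have hSS : 0 ≤ SS / T := div_nonneg hfc.S_nonneg hT.le
  have g4 : (2 * F.E (Fin.last k) - 2 * E + (2 * C1 + cV V ^ 2 + C + 4 * C ^ 2 + C') / K) *
      (al ^ 2 / T) = 2 * F.E (Fin.last k) * (al ^ 2 / T) +
        (-(2 * E) + (C + 4 * C ^ 2) / K) * (al ^ 2 / T) + cV V ^ 2 / K * (al ^ 2 / T) +
        C' / K * (al ^ 2 / T) + 2 * C1 / K * (al ^ 2 / T) := by
    field_simp; ring
  have g5 : 0 ≤ 2 * C1 / K * (al ^ 2 / T) := by positivity
  have g6 : 2 * C1 * (SS / T) ≤ (2 * C1 + cV V ^ 2 + C + 4 * C ^ 2 + C') * (SS / T) :=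
    mul_le_mul_of_nonneg_right (by
      have : 0 ≤ cV V ^ 2 + C + 4 * C ^ 2 + C' := by positivity
      linarith) hSS
  rw [g4]
  linarith

theorem Flag.B_drift (F : Flag G s (k + 1)) :
    ∃ δ0 > 0, ∃ C > 0, ∀ δx δo : ℝ, 0 < δx → δx ≤ δo → δo ≤ δ0 → ∀ z, F.Reg δx δo z →
    ∀ g : ℝ, gen G (fun y => F.o2 (nR y)) z ≤ g →
      gen G (fun y => F.o2 (nR y) / F.a 0 (nR y)) z ≤
        (g - F.E 0 * F.o2 (nR z) + C * (δo ^ 2 * (F.S z.c (nR z) + F.o2 (nR z)) +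
          Real.sqrt (F.o2 (nR z)) + 1)) / F.a 0 (nR z) := by
  obtain ⟨δ1, hδ1, c1, hc1, C1, hC1, hF⟩ := F.reg_facts1
  obtain ⟨δ3, hδ3, hL⟩ := F.reg_large
  have hn0 : 0 ≤ cV V := by unfold cV; positivity
  refine ⟨min δ1 (min δ3 (min 1 (1 / (2 * cV V + 1)))), by positivity,
    C1 + 2 * cV V ^ 2 * C1 + 2 * C1 * cV V * (3 * cV V + cV V ^ 3) + 1, by positivity, ?_⟩
  intro δx δo hx hxo ho z hz g hg
  simp only [le_min_iff] at ho
  obtain ⟨ho1, ho3, ho4, ho5⟩ := ho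
  have hopos : 0 < δo := lt_of_lt_of_le hx hxo
  obtain ⟨hfc, hf1⟩ := hF δx δo hx.le (hxo.trans ho1) hopos.le ho1 z hz
  obtain ⟨hlar, -, -⟩ := hL δx δo hx hxo ho3 z hz
  have hm : F.Match z := hz.2.1
  have ht : 1 ≤ tot z := hz.1
  have hY : 0 < F.a 0 (nR z) := hz.2.2.1 0
  have hYl : 1 / δx ^ 2 ≤ F.a 0 (nR z) := hlar 0
  have hdx : 0 < δx ^ 2 := by positivity
  have hYinv : 1 / F.a 0 (nR z) ≤ δo ^ 2 := by
    rw [div_le_iff₀ hY]
    rw [div_le_iff₀ hdx] at hYl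
    have : δx ^ 2 ≤ δo ^ 2 := pow_le_pow_left₀ hx.le hxo 2
    have h9 := mul_le_mul_of_nonneg_left this hY.le
    linarith
  have hYn0 : cV V ≤ F.a 0 (nR z) / 2 := by
    have e1 : δx ^ 2 * (2 * cV V + 1) ≤ 1 := by
      have h1 : δo * (2 * cV V + 1) ≤ 1 := by
        rw [le_div_iff₀ (by positivity)] at ho5
        exact ho5
      have h2 : δx ^ 2 ≤ δo := by
        calc δx ^ 2 = δx * δx := sq _
          _ ≤ δo * 1 := mul_le_mul hxo (hxo.trans ho4) hx.le hopos.le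
          _ = δo := mul_one _
      have h3 : δx ^ 2 * (2 * cV V + 1) ≤ δo * (2 * cV V + 1) :=
        mul_le_mul_of_nonneg_right h2 (by positivity)
      linarith
    have e2 : 2 * cV V + 1 ≤ 1 / δx ^ 2 := by
      rw [le_div_iff₀ hdx]; linarith
    linarith
  have hW0 : 0 ≤ F.o2 (nR z) := F.o2_nonneg _
  have hs0 : 0 ≤ Real.sqrt (F.o2 (nR z)) := Real.sqrt_nonneg _
  have key := gen_quot_num (G := G) (fun y => F.o2 (nR y)) (fun y => F.a 0 (nR y)) z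
    (fun w => F.o2 (nR (step G z w))) hY (fun w _ => le_refl _)
    (fun w _ => (F.a_step_abs z hm w 0).trans hYn0)
  refine key.trans ?_
  rw [F.gen_a z hm 0, abs_of_nonneg hW0]
  have h1 : ∑ w, (z.n w : ℝ) * (F.o2 (nR (step G z w)) - F.o2 (nR z)) ≤ g := hg
  have h2 : ∑ w, (z.n w : ℝ) * (F.a 0 (nR (step G z w)) - F.a 0 (nR z)) ^ 2 ≤
      tot z * cV V ^ 2 := by
    apply sum_n_le'
    intro w _
    rw [← sq_abs]
    exact pow_le_pow_left₀ (abs_nonneg _) (F.a_step_abs z hm w _) 2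
  have h3 : ∑ w, (z.n w : ℝ) * (|F.o2 (nR (step G z w)) - F.o2 (nR z)| *
      |F.a 0 (nR (step G z w)) - F.a 0 (nR z)|) ≤
      tot z * ((3 * cV V + cV V ^ 3) * (Real.sqrt (F.o2 (nR z)) + 1) * cV V) := by
    apply sum_n_le'
    intro w _
    refine mul_le_mul ?_ (F.a_step_abs z hm w 0) (abs_nonneg _) (by positivity)
    refine (F.o2_step_abs z hm w).trans ?_
    linarith [mul_nonneg hn0 hs0, mul_nonneg (pow_nonneg hn0 3) hs0]
  have hell := hfc.ell_le 0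
  have hS0 := hfc.S_nonneg
  have htot := hf1.tot_le
  have ho2 := hz.2.2.2.2.1 0
  set Y := F.a 0 (nR z) with hYdef
  set W := F.o2 (nR z) with hWdef
  set SS := F.S z.c (nR z) with hSSdef
  set q := Real.sqrt W with hqdef
  set l0 := F.ell z.c (nR z) 0 with hl0def
  have k1 : (∑ w, (z.n w : ℝ) * (F.o2 (nR (step G z w)) - W)) / Y ≤ g / Y :=
    div_le_div_of_nonneg_right h1 hY.le
  have k2 : -(W * (F.E 0 * Y + l0) / Y ^ 2) ≤ -(F.E 0 * W) / Y + δo ^ 2 * (C1 * SS) / Y := by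
    have e1 : W * (F.E 0 * Y + l0) / Y ^ 2 = F.E 0 * W / Y + W * l0 / Y ^ 2 := by
      field_simp
    have e2 : -(W * l0 / Y ^ 2) ≤ δo ^ 2 * (C1 * SS) / Y := by
      have h4 : -(W * l0) ≤ W * |l0| := by
        have := mul_le_mul_of_nonneg_left (neg_le_abs l0) hW0
        linarith
      have h5 : W * |l0| ≤ δo ^ 2 * Y ^ 2 * |l0| := mul_le_mul_of_nonneg_right ho2 (abs_nonneg _)
      have h6 : δo ^ 2 * Y ^ 2 * |l0| ≤ δo ^ 2 * Y * (C1 * SS) := by
        have : δo ^ 2 * Y * (Y * |l0|) ≤ δo ^ 2 * Y * (C1 * SS) :=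
          mul_le_mul_of_nonneg_left hell (by positivity)
        linarith
      have h7 : -(W * l0) / Y ^ 2 ≤ δo ^ 2 * Y * (C1 * SS) / Y ^ 2 :=
        div_le_div_of_nonneg_right (by linarith) (by positivity)
      have h8 : δo ^ 2 * Y * (C1 * SS) / Y ^ 2 = δo ^ 2 * (C1 * SS) / Y := by field_simp
      rw [h8, neg_div] at h7
      exact h7
    have e3 : -(F.E 0 * W) / Y = -(F.E 0 * W / Y) := by rw [neg_div]
    rw [e1, e3]
    linarith
  have k3 : 2 * W * (∑ w, (z.n w : ℝ) * (F.a 0 (nR (step G z w)) - Y) ^ 2) / Y ^ 3 ≤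
      2 * cV V ^ 2 * C1 * (δo ^ 2 * W) / Y := by
    have e1 : 2 * W * (∑ w, (z.n w : ℝ) * (F.a 0 (nR (step G z w)) - Y) ^ 2) ≤
        2 * W * ((C1 * Y) * cV V ^ 2) := by
      apply mul_le_mul_of_nonneg_left _ (by positivity)
      exact h2.trans (mul_le_mul_of_nonneg_right htot (by positivity))
    have e2 : 2 * W * (∑ w, (z.n w : ℝ) * (F.a 0 (nR (step G z w)) - Y) ^ 2) / Y ^ 3 ≤
        2 * W * ((C1 * Y) * cV V ^ 2) / Y ^ 3 := div_le_div_of_nonneg_right e1 (by positivity)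
    have e3 : 2 * W * ((C1 * Y) * cV V ^ 2) / Y ^ 3 =
        2 * cV V ^ 2 * C1 * W / Y * (1 / Y) := by field_simp
    have e4 : 2 * cV V ^ 2 * C1 * W / Y * (1 / Y) ≤ 2 * cV V ^ 2 * C1 * W / Y * δo ^ 2 :=
      mul_le_mul_of_nonneg_left hYinv (by positivity)
    have e5 : 2 * cV V ^ 2 * C1 * W / Y * δo ^ 2 = 2 * cV V ^ 2 * C1 * (δo ^ 2 * W) / Y := by
      field_simp
    linarith
  have k4 : 2 * (∑ w, (z.n w : ℝ) * (|F.o2 (nR (step G z w)) - W| *
      |F.a 0 (nR (step G z w)) - Y|)) / Y ^ 2 ≤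
      2 * C1 * cV V * (3 * cV V + cV V ^ 3) * (q + 1) / Y := by
    have e0 : tot z * ((3 * cV V + cV V ^ 3) * (q + 1) * cV V) ≤
        C1 * Y * ((3 * cV V + cV V ^ 3) * (q + 1) * cV V) :=
      mul_le_mul_of_nonneg_right htot (by positivity)
    have e1 : 2 * (∑ w, (z.n w : ℝ) * (|F.o2 (nR (step G z w)) - W| *
        |F.a 0 (nR (step G z w)) - Y|)) / Y ^ 2 ≤
        2 * (C1 * Y * ((3 * cV V + cV V ^ 3) * (q + 1) * cV V)) / Y ^ 2 :=
      div_le_div_of_nonneg_right (by linarith) (by positivity)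
    have e2 : 2 * (C1 * Y * ((3 * cV V + cV V ^ 3) * (q + 1) * cV V)) / Y ^ 2 =
        2 * C1 * cV V * (3 * cV V + cV V ^ 3) * (q + 1) / Y := by field_simp
    linarith
  have k5 : (g - F.E 0 * W + (C1 + 2 * cV V ^ 2 * C1 + 2 * C1 * cV V * (3 * cV V + cV V ^ 3) + 1) *
      (δo ^ 2 * (SS + W) + q + 1)) / Y - (g / Y + (-(F.E 0 * W) / Y + δo ^ 2 * (C1 * SS) / Y) +
        2 * cV V ^ 2 * C1 * (δo ^ 2 * W) / Y +
        2 * C1 * cV V * (3 * cV V + cV V ^ 3) * (q + 1) / Y) =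
      (C1 * (δo ^ 2 * W + q + 1) + 2 * cV V ^ 2 * C1 * (δo ^ 2 * SS + q + 1) +
        2 * C1 * cV V * (3 * cV V + cV V ^ 3) * (δo ^ 2 * (SS + W)) +
        (δo ^ 2 * (SS + W) + q + 1)) / Y := by
    field_simp; ring
  have k6 : 0 ≤ (C1 * (δo ^ 2 * W + q + 1) + 2 * cV V ^ 2 * C1 * (δo ^ 2 * SS + q + 1) +
        2 * C1 * cV V * (3 * cV V + cV V ^ 3) * (δo ^ 2 * (SS + W)) +
        (δo ^ 2 * (SS + W) + q + 1)) / Y := by positivity
  linarith

theorem Flag.inv_a_drift (F : Flag G s (k + 1)) :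
    ∃ δ0 > 0, ∃ C > 0, ∀ δx δo : ℝ, 0 < δx → δx ≤ δo → δo ≤ δ0 → ∀ z, F.Reg δx δo z →
      gen G (fun y => 1 / F.a 0 (nR y)) z ≤ C * δo * (1 / F.a 0 (nR z)) := by
  obtain ⟨δ1, hδ1, c1, hc1, C1, hC1, hF⟩ := F.reg_facts1
  obtain ⟨δ3, hδ3, hL⟩ := F.reg_large
  have hn0 : 0 ≤ cV V := by unfold cV; positivity
  refine ⟨min δ1 (min δ3 (min 1 (1 / (2 * cV V + 1)))), by positivity,
    cV V ^ 2 + 2 * cV V ^ 2 * C1 + 1, by positivity, ?_⟩
  intro δx δo hx hxo ho z hz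
  simp only [le_min_iff] at ho
  obtain ⟨ho1, ho3, ho4, ho5⟩ := ho
  have hopos : 0 < δo := lt_of_lt_of_le hx hxo
  obtain ⟨hfc, hf1⟩ := hF δx δo hx.le (hxo.trans ho1) hopos.le ho1 z hz
  obtain ⟨hlar, -, -⟩ := hL δx δo hx hxo ho3 z hz
  have hm : F.Match z := hz.2.1
  have ht : 1 ≤ tot z := hz.1
  have hY : 0 < F.a 0 (nR z) := hz.2.2.1 0
  have hYl : 1 / δx ^ 2 ≤ F.a 0 (nR z) := hlar 0
  have hdx : 0 < δx ^ 2 := by positivity
  have hYinv : 1 / F.a 0 (nR z) ≤ δo := by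
    rw [div_le_iff₀ hY]
    rw [div_le_iff₀ hdx] at hYl
    have : δx ^ 2 ≤ δo := by
      calc δx ^ 2 = δx * δx := sq _
        _ ≤ δo * 1 := mul_le_mul hxo (hxo.trans ho4) hx.le hopos.le
        _ = δo := mul_one _
    have h9 := mul_le_mul_of_nonneg_left this hY.le
    linarith
  have hYn0 : cV V ≤ F.a 0 (nR z) / 2 := by
    have e1 : δx ^ 2 * (2 * cV V + 1) ≤ 1 := by
      have h1 : δo * (2 * cV V + 1) ≤ 1 := by
        rw [le_div_iff₀ (by positivity)] at ho5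
        exact ho5
      have h2 : δx ^ 2 ≤ δo := by
        calc δx ^ 2 = δx * δx := sq _
          _ ≤ δo * 1 := mul_le_mul hxo (hxo.trans ho4) hx.le hopos.le
          _ = δo := mul_one _
      have h3 : δx ^ 2 * (2 * cV V + 1) ≤ δo * (2 * cV V + 1) :=
        mul_le_mul_of_nonneg_right h2 (by positivity)
      linarith
    have e2 : 2 * cV V + 1 ≤ 1 / δx ^ 2 := by
      rw [le_div_iff₀ hdx]; linarith
    linarith
  have key := gen_quot_num (G := G) (fun _ => (1 : ℝ)) (fun y => F.a 0 (nR y)) z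
    (fun _ => (1 : ℝ)) hY (fun w _ => le_refl _)
    (fun w _ => (F.a_step_abs z hm w 0).trans hYn0)
  simp only [sub_self, abs_zero, zero_mul, mul_zero, Finset.sum_const_zero, zero_div, abs_one,
    mul_one, one_mul, zero_sub, add_zero] at key
  refine key.trans ?_
  rw [F.gen_a z hm 0]
  have h2 : ∑ w, (z.n w : ℝ) * (F.a 0 (nR (step G z w)) - F.a 0 (nR z)) ^ 2 ≤
      tot z * cV V ^ 2 := by
    apply sum_n_le'
    intro w _
    rw [← sq_abs]
    exact pow_le_pow_left₀ (abs_nonneg _) (F.a_step_abs z hm w _) 2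
  have htot := hf1.tot_le
  have ho2 := hz.2.2.2.2.1 0
  have hell := F.ell_abs_le z.c (nR z) 0
  have hE0 := F.nonneg 0
  have hsq : Real.sqrt (F.o2 (nR z)) ≤ δo * F.a 0 (nR z) := by
    apply Real.sqrt_le_iff.2
    exact ⟨by positivity, by rw [mul_pow]; exact ho2⟩
  set Y := F.a 0 (nR z) with hYdef
  set l0 := F.ell z.c (nR z) 0 with hl0def
  have k1 : -((F.E 0 * Y + l0) / Y ^ 2) ≤ cV V ^ 2 * δo / Y := by
    have e1 : -(F.E 0 * Y + l0) ≤ cV V ^ 2 * (δo * Y) := by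
      have h3 : -l0 ≤ |l0| := neg_le_abs l0
      have h4 : cV V ^ 2 * Real.sqrt (F.o2 (nR z)) ≤ cV V ^ 2 * (δo * Y) :=
        mul_le_mul_of_nonneg_left hsq (by positivity)
      have h5 : 0 ≤ F.E 0 * Y := mul_nonneg hE0 hY.le
      linarith
    have e2 : -(F.E 0 * Y + l0) / Y ^ 2 ≤ cV V ^ 2 * (δo * Y) / Y ^ 2 :=
      div_le_div_of_nonneg_right e1 (by positivity)
    have e3 : cV V ^ 2 * (δo * Y) / Y ^ 2 = cV V ^ 2 * δo / Y := by field_simp
    rw [neg_div, e3] at e2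
    exact e2
  have k2 : 2 * (∑ w, (z.n w : ℝ) * (F.a 0 (nR (step G z w)) - Y) ^ 2) / Y ^ 3 ≤
      2 * cV V ^ 2 * C1 * δo / Y := by
    have e1 : ∑ w, (z.n w : ℝ) * (F.a 0 (nR (step G z w)) - Y) ^ 2 ≤ C1 * Y * cV V ^ 2 :=
      h2.trans (mul_le_mul_of_nonneg_right htot (by positivity))
    have e2 : 2 * (∑ w, (z.n w : ℝ) * (F.a 0 (nR (step G z w)) - Y) ^ 2) / Y ^ 3 ≤
        2 * (C1 * Y * cV V ^ 2) / Y ^ 3 :=
      div_le_div_of_nonneg_right (by linarith) (by positivity)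
    have e3 : 2 * (C1 * Y * cV V ^ 2) / Y ^ 3 = 2 * cV V ^ 2 * C1 / Y * (1 / Y) := by
      field_simp
    have e4 : 2 * cV V ^ 2 * C1 / Y * (1 / Y) ≤ 2 * cV V ^ 2 * C1 / Y * δo :=
      mul_le_mul_of_nonneg_left hYinv (by positivity)
    have e5 : 2 * cV V ^ 2 * C1 / Y * δo = 2 * cV V ^ 2 * C1 * δo / Y := by field_simp
    linarith
  have k3 : (cV V ^ 2 + 2 * cV V ^ 2 * C1 + 1) * δo * (1 / Y) =
      cV V ^ 2 * δo / Y + 2 * cV V ^ 2 * C1 * δo / Y + δo / Y := by field_simp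
  have k4 : 0 ≤ δo / Y := by positivity
  rw [k3]
  linarith

end UC
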