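import Pool.Agent.helper25.UC.Defs

/-!
# C0 : quotient calculus (module of helper25, MP_747d65_pr)

Pointwise identity (for `Y, Y' ≠ 0`)
`X'/Y' - X/Y = (X'-X)/Y - X (Y'-Y)/Y² + X (Y'-Y)²/(Y² Y') - (X'-X)(Y'-Y)/(Y Y')`,
and `1/Y' ≤ 2/Y`.
-/

namespace UC
open Finset

theorem C0_pt (X' Y' X Y : ℝ) (hY : 0 < Y) (h : |Y' - Y| ≤ Y / 2) :
    X' / Y' - X / Y ≤ (X' - X) / Y - X * (Y' - Y) / Y ^ 2 + 2 * |X| * (Y' - Y) ^ 2 / Y ^ 3 +
      2 * (|X' - X| * |Y' - Y|) / Y ^ 2 := by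
  have h1 := abs_le.1 h
  have hY' : Y / 2 ≤ Y' := by linarith [h1.1]
  have hY'0 : 0 < Y' := by linarith
  have hinv : 1 / Y' ≤ 2 / Y := by
    rw [div_le_div_iff₀ hY'0 hY]
    linarith
  have e1 : X' / Y' - X / Y = (X' - X) / Y - X * (Y' - Y) / Y ^ 2 +
      X * (Y' - Y) ^ 2 / Y ^ 2 * (1 / Y') - (X' - X) * (Y' - Y) / Y * (1 / Y') := by
    field_simp
    ring
  have e2 : X * (Y' - Y) ^ 2 / Y ^ 2 * (1 / Y') ≤ 2 * |X| * (Y' - Y) ^ 2 / Y ^ 3 := by
    have a1 : X * (Y' - Y) ^ 2 / Y ^ 2 * (1 / Y') ≤ |X| * (Y' - Y) ^ 2 / Y ^ 2 * (1 / Y') := by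
      apply mul_le_mul_of_nonneg_right _ (by positivity)
      apply div_le_div_of_nonneg_right _ (by positivity)
      exact mul_le_mul_of_nonneg_right (le_abs_self _) (sq_nonneg _)
    have a2 : |X| * (Y' - Y) ^ 2 / Y ^ 2 * (1 / Y') ≤ |X| * (Y' - Y) ^ 2 / Y ^ 2 * (2 / Y) :=
      mul_le_mul_of_nonneg_left hinv (by positivity)
    have a3 : |X| * (Y' - Y) ^ 2 / Y ^ 2 * (2 / Y) = 2 * |X| * (Y' - Y) ^ 2 / Y ^ 3 := by
      field_simp
    linarith
  have e3 : - ((X' - X) * (Y' - Y) / Y * (1 / Y')) ≤ 2 * (|X' - X| * |Y' - Y|) / Y ^ 2 := by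
    have a1 : - ((X' - X) * (Y' - Y) / Y * (1 / Y')) ≤ |X' - X| * |Y' - Y| / Y * (1 / Y') := by
      rw [← neg_mul]
      apply mul_le_mul_of_nonneg_right _ (by positivity)
      rw [← neg_div]
      apply div_le_div_of_nonneg_right _ hY.le
      rw [← abs_mul]
      exact neg_le_abs _
    have a2 : |X' - X| * |Y' - Y| / Y * (1 / Y') ≤ |X' - X| * |Y' - Y| / Y * (2 / Y) :=
      mul_le_mul_of_nonneg_left hinv (by positivity)
    have a3 : |X' - X| * |Y' - Y| / Y * (2 / Y) = 2 * (|X' - X| * |Y' - Y|) / Y ^ 2 := by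
      field_simp
    linarith
  linarith

theorem quot_calc {ι : Type} [Fintype ι] (n X' Y' : ι → ℝ) (X Y : ℝ) (hn : ∀ w, 0 ≤ n w)
    (hY : 0 < Y) (hY' : ∀ w, n w ≠ 0 → |Y' w - Y| ≤ Y / 2) :
    ∑ w, n w * (X' w / Y' w - X / Y) ≤
      (∑ w, n w * (X' w - X)) / Y - X * (∑ w, n w * (Y' w - Y)) / Y ^ 2 +
      2 * |X| * (∑ w, n w * (Y' w - Y) ^ 2) / Y ^ 3 +
      2 * (∑ w, n w * (|X' w - X| * |Y' w - Y|)) / Y ^ 2 := by
  have h1 : ∀ w, n w * (X' w / Y' w - X / Y) ≤
      (n w * (X' w - X)) / Y - X * (n w * (Y' w - Y)) / Y ^ 2 +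
      2 * |X| * (n w * (Y' w - Y) ^ 2) / Y ^ 3 +
      2 * (n w * (|X' w - X| * |Y' w - Y|)) / Y ^ 2 := by
    intro w
    by_cases h0 : n w = 0
    · rw [h0]
      simp
    · have h2 := mul_le_mul_of_nonneg_left (C0_pt (X' w) (Y' w) X Y hY (hY' w h0)) (hn w)
      refine h2.trans (le_of_eq ?_)
      ring
  calc ∑ w, n w * (X' w / Y' w - X / Y) ≤ ∑ w, ((n w * (X' w - X)) / Y -
      X * (n w * (Y' w - Y)) / Y ^ 2 +
      2 * |X| * (n w * (Y' w - Y) ^ 2) / Y ^ 3 +
      2 * (n w * (|X' w - X| * |Y' w - Y|)) / Y ^ 2) := Finset.sum_le_sum fun w _ => h1 w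
    _ = _ := by
      simp only [Finset.sum_add_distrib, Finset.sum_sub_distrib, Finset.sum_div, Finset.mul_sum]

variable {V : Type} [Fintype V] [DecidableEq V] {s : ℕ}
variable {G : SimpleGraph V} [DecidableRel G.Adj]

/-- quotient with a denominator `T` of which only a lower bound after the step is known:
`T(z) - x_w ≤ T(z^w)`, `|x_w| ≤ T(z)/2`, numerator nonnegative after the step. -/
theorem gen_quot_env (X T : St V s → ℝ) (z : St V s) (x : V → ℝ) (hT : 0 < T z)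
    (hx : ∀ w, 1 ≤ z.n w → T z - x w ≤ T (step G z w))
    (hx2 : ∀ w, 1 ≤ z.n w → |x w| ≤ T z / 2)
    (hX : ∀ w, 1 ≤ z.n w → 0 ≤ X (step G z w)) :
    gen G (fun y => X y / T y) z ≤
      gen G X z / T z + X z * (∑ w, (z.n w : ℝ) * x w) / T z ^ 2 +
      2 * |X z| * (∑ w, (z.n w : ℝ) * x w ^ 2) / T z ^ 3 +
      2 * (∑ w, (z.n w : ℝ) * (|X (step G z w) - X z| * |x w|)) / T z ^ 2 := by
  have h1 : gen G (fun y => X y / T y) z ≤
      ∑ w, (z.n w : ℝ) * (X (step G z w) / (T z - x w) - X z / T z) := by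
    unfold gen
    apply Finset.sum_le_sum
    intro w _
    by_cases h0 : z.n w = 0
    · rw [h0]
      simp
    · have hw : 1 ≤ z.n w := Nat.one_le_iff_ne_zero.2 h0
      have h2 := abs_le.1 (hx2 w hw)
      have h3 : 0 < T z - x w := by linarith [h2.2]
      have h4 : X (step G z w) / T (step G z w) ≤ X (step G z w) / (T z - x w) :=
        div_le_div_of_nonneg_left (hX w hw) h3 (hx w hw)
      apply mul_le_mul_of_nonneg_left _ (Nat.cast_nonneg _)
      linarith
  refine h1.trans ?_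
  have h5 := quot_calc (fun w => (z.n w : ℝ)) (fun w => X (step G z w)) (fun w => T z - x w)
    (X z) (T z) (fun w => Nat.cast_nonneg _) hT (by
      intro w h0
      have hw : 1 ≤ z.n w := by
        apply Nat.one_le_iff_ne_zero.2
        intro h
        apply h0
        simp [h]
      rw [show T z - x w - T z = - x w by ring, abs_neg]
      exact hx2 w hw)
  refine h5.trans (le_of_eq ?_)
  unfold gen
  have e1 : ∀ w, T z - x w - T z = - x w := fun w => by ring
  simp only [e1, abs_neg, neg_sq, mul_neg, Finset.sum_neg_distrib]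
  ring

/-- quotient with an upper bound `W'` for the numerator after the step -/
theorem gen_quot_num (W Y : St V s → ℝ) (z : St V s) (W' : V → ℝ) (hY : 0 < Y z)
    (hW : ∀ w, 1 ≤ z.n w → W (step G z w) ≤ W' w)
    (hY' : ∀ w, 1 ≤ z.n w → |Y (step G z w) - Y z| ≤ Y z / 2) :
    gen G (fun y => W y / Y y) z ≤
      (∑ w, (z.n w : ℝ) * (W' w - W z)) / Y z - W z * gen G Y z / Y z ^ 2 +
      2 * |W z| * (∑ w, (z.n w : ℝ) * (Y (step G z w) - Y z) ^ 2) / Y z ^ 3 +
      2 * (∑ w, (z.n w : ℝ) * (|W' w - W z| * |Y (step G z w) - Y z|)) / Y z ^ 2 := by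
  have h1 : gen G (fun y => W y / Y y) z ≤
      ∑ w, (z.n w : ℝ) * (W' w / Y (step G z w) - W z / Y z) := by
    unfold gen
    apply Finset.sum_le_sum
    intro w _
    by_cases h0 : z.n w = 0
    · rw [h0]
      simp
    · have hw : 1 ≤ z.n w := Nat.one_le_iff_ne_zero.2 h0
      have h2 := abs_le.1 (hY' w hw)
      have h3 : 0 < Y (step G z w) := by linarith [h2.1]
      have h4 : W (step G z w) / Y (step G z w) ≤ W' w / Y (step G z w) :=
        div_le_div_of_nonneg_right (hW w hw) h3.le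
      apply mul_le_mul_of_nonneg_left _ (Nat.cast_nonneg _)
      linarith
  refine h1.trans ?_
  exact quot_calc (fun w => (z.n w : ℝ)) W' (fun w => Y (step G z w))
    (W z) (Y z) (fun w => Nat.cast_nonneg _) hY (by
      intro w h0
      have hw : 1 ≤ z.n w := by
        apply Nat.one_le_iff_ne_zero.2
        intro h
        apply h0
        simp [h]
      exact hY' w hw)

/-- linearity and monotonicity of `gen` -/
theorem gen_add (F H : St V s → ℝ) (z : St V s) :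
    gen G (fun y => F y + H y) z = gen G F z + gen G H z := by
  unfold gen
  rw [← Finset.sum_add_distrib]
  apply Finset.sum_congr rfl
  intro w _
  ring

theorem gen_smul (t : ℝ) (F : St V s → ℝ) (z : St V s) :
    gen G (fun y => t * F y) z = t * gen G F z := by
  unfold gen
  rw [Finset.mul_sum]
  apply Finset.sum_congr rfl
  intro w _
  ring

theorem gen_sum {ι : Type} (A : Finset ι) (F : ι → St V s → ℝ) (z : St V s) :
    gen G (fun y => ∑ i ∈ A, F i y) z = ∑ i ∈ A, gen G (F i) z := by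
  unfold gen
  rw [Finset.sum_comm]
  apply Finset.sum_congr rfl
  intro w _
  rw [← Finset.sum_sub_distrib, Finset.mul_sum]

theorem gen_const (t : ℝ) (z : St V s) : gen G (fun _ => t) z = 0 := by
  unfold gen
  simp

end UC
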