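import Pool.Agent.helper25.UC.A1
import Pool.Agent.helper25.UC.A2

/-!
# Z4 : Lojasiewicz inequality, generator of `n_t²`

**loja.**  For a symmetric real matrix `M` there is `C` with `|⟨x,Mx⟩| ≤ C |Mx|²`: let `g` be a
linear right inverse of `M` on its range, `y = g (M x)`; then `M y = M x` and
`⟨x,Mx⟩ = ⟨x,My⟩ = ⟨Mx,y⟩ ≤ |g| |Mx|²`.  Apply it to the finitely many matrices
`M_{c,J}(u,v) = ε(c_u,c_v) 1_{u~v} 1_{u∈J} 1_{v∈J}`, `J = {v : y_v ≠ 0}`:
`AA c y c y = ⟨y, M y⟩`, `(M y)_v = Lf c (c v) v y` for `v ∈ J`, `0` otherwise.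
-/

namespace UC
open Finset
variable {V : Type} [Fintype V] [DecidableEq V] {s k : ℕ}
variable {G : SimpleGraph V} [DecidableRel G.Adj]

omit [DecidableEq V] in
/-- a symmetric linear map `T` satisfies `|⟨x,Tx⟩| ≤ C |Tx|²` -/
theorem Z4_sym (T : (V → ℝ) →ₗ[ℝ] (V → ℝ))
    (hT : ∀ x y, ∑ v, x v * T y v = ∑ v, T x v * y v) :
    ∃ C > 0, ∀ x, |∑ v, x v * T x v| ≤ C * ∑ v, (T x v) ^ 2 := by
  obtain ⟨g, hg⟩ := T.rangeRestrict.exists_rightInverse_of_surjective T.range_rangeRestrict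
  set g' := LinearMap.toContinuousLinearMap g with hg'
  refine ⟨(Fintype.card V : ℝ) * ‖g'‖ + 1, by positivity, fun x => ?_⟩
  set w := T.rangeRestrict x with hw
  set y := g w with hy
  have h1 : T y = T x := by
    have e := LinearMap.congr_fun hg w
    have e2 := congrArg Subtype.val e
    simpa [hy, hw] using e2
  have h2 : ∑ v, x v * T x v = ∑ v, T x v * y v := by
    rw [← hT x y, h1]
  have hS : ∀ v, |T x v| ≤ Real.sqrt (∑ v, (T x v) ^ 2) := by
    intro v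
    rw [← Real.sqrt_sq_eq_abs]
    apply Real.sqrt_le_sqrt
    exact Finset.single_le_sum (f := fun v => (T x v) ^ 2) (fun v _ => sq_nonneg _)
      (Finset.mem_univ v)
  have h3 : ‖w‖ ≤ Real.sqrt (∑ v, (T x v) ^ 2) := by
    have e : ‖w‖ = ‖T x‖ := rfl
    rw [e, pi_norm_le_iff_of_nonneg (Real.sqrt_nonneg _)]
    intro v
    rw [Real.norm_eq_abs]
    exact hS v
  have h4 : ∀ v, |y v| ≤ ‖g'‖ * Real.sqrt (∑ v, (T x v) ^ 2) := by
    intro v
    have e1 : ‖y v‖ ≤ ‖y‖ := norm_le_pi_norm y v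
    have e2 : ‖y‖ ≤ ‖g'‖ * ‖w‖ := g'.le_opNorm w
    rw [← Real.norm_eq_abs]
    have e3 : 0 ≤ ‖g'‖ := norm_nonneg g'
    exact e1.trans (e2.trans (mul_le_mul_of_nonneg_left h3 e3))
  have hSq : Real.sqrt (∑ v, (T x v) ^ 2) * Real.sqrt (∑ v, (T x v) ^ 2) =
      ∑ v, (T x v) ^ 2 := Real.mul_self_sqrt (Finset.sum_nonneg fun v _ => sq_nonneg _)
  have hS0 : 0 ≤ ∑ v, (T x v) ^ 2 := Finset.sum_nonneg fun v _ => sq_nonneg _
  rw [h2]
  calc |∑ v, T x v * y v| ≤ ∑ v, |T x v * y v| := Finset.abs_sum_le_sum_abs _ _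
    _ ≤ ∑ v : V, ‖g'‖ * ∑ v, (T x v) ^ 2 := by
        refine Finset.sum_le_sum fun v _ => ?_
        rw [abs_mul, ← hSq]
        calc |T x v| * |y v| ≤ Real.sqrt (∑ v, (T x v) ^ 2) *
            (‖g'‖ * Real.sqrt (∑ v, (T x v) ^ 2)) :=
              mul_le_mul (hS v) (h4 v) (abs_nonneg _) (Real.sqrt_nonneg _)
          _ = ‖g'‖ * (Real.sqrt (∑ v, (T x v) ^ 2) * Real.sqrt (∑ v, (T x v) ^ 2)) := by ring
    _ = (Fintype.card V : ℝ) * ‖g'‖ * ∑ v, (T x v) ^ 2 := by
        rw [Finset.sum_const, Finset.card_univ, nsmul_eq_mul]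
        ring
    _ ≤ ((Fintype.card V : ℝ) * ‖g'‖ + 1) * ∑ v, (T x v) ^ 2 := by nlinarith

/-- the matrix of the set `J` -/
def Z4_T (G : SimpleGraph V) [DecidableRel G.Adj] (c : V → Fin s) (J : Finset V) :
    (V → ℝ) →ₗ[ℝ] (V → ℝ) where
  toFun y v := ∑ u, if G.Adj v u ∧ v ∈ J ∧ u ∈ J then eps (c v) (c u) * y u else 0
  map_add' x y := by
    funext v
    rw [Pi.add_apply, ← Finset.sum_add_distrib]
    refine Finset.sum_congr rfl fun u _ => ?_
    split_ifs
    · rw [Pi.add_apply]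
      ring
    · ring
  map_smul' t x := by
    funext v
    rw [RingHom.id_apply, Pi.smul_apply, smul_eq_mul, Finset.mul_sum]
    refine Finset.sum_congr rfl fun u _ => ?_
    split_ifs
    · rw [Pi.smul_apply, smul_eq_mul]
      ring
    · ring

theorem Z4_T_apply (c : V → Fin s) (J : Finset V) (y : V → ℝ) (v : V) :
    Z4_T G c J y v = ∑ u, if G.Adj v u ∧ v ∈ J ∧ u ∈ J then eps (c v) (c u) * y u else 0 := rfl

theorem Z4_T_sym (c : V → Fin s) (J : Finset V) (x y : V → ℝ) :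
    ∑ v, x v * Z4_T G c J y v = ∑ v, Z4_T G c J x v * y v := by
  simp only [Z4_T_apply, Finset.mul_sum, Finset.sum_mul]
  rw [Finset.sum_comm]
  refine Finset.sum_congr rfl fun u _ => Finset.sum_congr rfl fun v _ => ?_
  by_cases h : G.Adj v u ∧ v ∈ J ∧ u ∈ J
  · have h' : G.Adj u v ∧ u ∈ J ∧ v ∈ J := ⟨h.1.symm, h.2.2, h.2.1⟩
    rw [if_pos h, if_pos h', A1_eps_comm (c v) (c u)]
    ring
  · have h' : ¬ (G.Adj u v ∧ u ∈ J ∧ v ∈ J) := fun e => h ⟨e.1.symm, e.2.2, e.2.1⟩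
    rw [if_neg h, if_neg h']
    ring

theorem loja (G : SimpleGraph V) [DecidableRel G.Adj] (s : ℕ) :
    ∃ C0 > 0, ∀ (c : V → Fin s) (y : V → ℝ),
      |AA G c y c y| ≤ C0 * ∑ v, if y v = 0 then 0 else (Lf G c (c v) v y) ^ 2 := by
  have h1 : ∀ p : (V → Fin s) × Finset V, ∃ C > 0, ∀ x,
      |∑ v, x v * Z4_T G p.1 p.2 x v| ≤ C * ∑ v, (Z4_T G p.1 p.2 x v) ^ 2 :=
    fun p => Z4_sym _ (Z4_T_sym p.1 p.2)
  choose C hC0 hC using h1
  refine ⟨1 + ∑ p, C p, ?_, fun c y => ?_⟩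
  · have : 0 ≤ ∑ p, C p := Finset.sum_nonneg fun p _ => (hC0 p).le
    linarith
  set J : Finset V := univ.filter fun v => y v ≠ 0 with hJ
  have hmem : ∀ v, v ∈ J ↔ y v ≠ 0 := fun v => by simp [hJ]
  have hT : ∀ v, Z4_T G c J y v = if y v = 0 then 0 else Lf G c (c v) v y := by
    intro v
    rw [Z4_T_apply]
    by_cases hv : y v = 0
    · rw [if_pos hv]
      refine Finset.sum_eq_zero fun u _ => ?_
      rw [if_neg]
      intro e
      exact (hmem v).1 e.2.1 hv
    · rw [if_neg hv]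
      unfold Lf
      refine Finset.sum_congr rfl fun u _ => ?_
      by_cases ha : G.Adj v u
      · rw [if_pos ha]
        by_cases hu : y u = 0
        · rw [hu, mul_zero]
          split_ifs <;> rfl
        · rw [if_pos ⟨ha, (hmem v).2 hv, (hmem u).2 hu⟩]
      · rw [if_neg ha, if_neg fun e => ha e.1]
  have hAA : AA G c y c y = ∑ v, y v * Z4_T G c J y v := by
    unfold AA
    refine Finset.sum_congr rfl fun v _ => ?_
    rw [hT v]
    by_cases hv : y v = 0
    · rw [if_pos hv, mul_zero]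
      refine Finset.sum_eq_zero fun u _ => ?_
      rw [hv]
      split_ifs <;> ring
    · rw [if_neg hv]
      unfold Lf
      rw [Finset.mul_sum]
      refine Finset.sum_congr rfl fun u _ => ?_
      split_ifs <;> ring
  have hsum : ∑ v, (Z4_T G c J y v) ^ 2 =
      ∑ v, if y v = 0 then 0 else (Lf G c (c v) v y) ^ 2 := by
    refine Finset.sum_congr rfl fun v _ => ?_
    rw [hT v]
    split_ifs
    · ring
    · rfl
  have h2 := hC (c, J) y
  simp only at h2
  rw [← hAA, hsum] at h2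
  refine h2.trans (mul_le_mul_of_nonneg_right ?_ ?_)
  · have e : C (c, J) ≤ ∑ p, C p :=
      Finset.single_le_sum (f := C) (fun p _ => (hC0 p).le) (Finset.mem_univ _)
    linarith
  · refine Finset.sum_nonneg fun v _ => ?_
    split_ifs
    · exact le_rfl
    · exact sq_nonneg _

/-- number of balls around `t` -/
def Dn (G : SimpleGraph V) [DecidableRel G.Adj] (z : St V s) (t : V) : ℝ :=
  ∑ w, if G.Adj t w then (z.n w : ℝ) else 0

/-- the field of `z` felt by its own colour at `t` -/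
def ph (G : SimpleGraph V) [DecidableRel G.Adj] (z : St V s) (t : V) : ℝ :=
  Lf G z.c (z.c t) t (nR z)

theorem Z4_step (z : St V s) (w t : V) :
    (((step G z w).n t : ℕ) : ℝ) ^ 2 - ((z.n t : ℕ) : ℝ) ^ 2 =
      if G.Adj w t then 2 * eps (z.c t) (z.c w) * (z.n t : ℝ) + 1 else 0 := by
  by_cases ha : G.Adj w t
  · rw [if_pos ha]
    by_cases h0 : z.n t = 0
    · rw [(A1_zero z w t ha h0).1, h0]
      push_cast
      ring
    · by_cases hc : z.c t = z.c w
      · rw [(A1_same z w t ha h0 hc).1, hc]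
        have e1 : eps (z.c w) (z.c w) = 1 := by unfold eps; rw [if_pos rfl]
        rw [e1]
        push_cast
        ring
      · rw [A1_diff' z w t ha h0 hc]
        have e1 : eps (z.c t) (z.c w) = -1 := by unfold eps; rw [if_neg hc]
        rw [e1]
        ring
  · rw [if_neg ha, (A1_not z w t ha).1, sub_self]

theorem gen_sq (z : St V s) (t : V) :
    gen G (fun y => ((y.n t : ℕ) : ℝ) ^ 2) z = 2 * (z.n t : ℝ) * ph G z t + Dn G z t := by
  unfold gen ph Dn Lf nR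
  simp only [Z4_step]
  rw [Finset.mul_sum, ← Finset.sum_add_distrib]
  refine Finset.sum_congr rfl fun w _ => ?_
  by_cases ha : G.Adj w t
  · rw [if_pos ha, if_pos ha.symm, if_pos ha.symm]
    ring
  · have ha' : ¬ G.Adj t w := fun e => ha e.symm
    rw [if_neg ha, if_neg ha', if_neg ha']
    ring

end UC
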