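import Pool.Agent.helper25.UC.A3

/-!
# B2 : facts in the region `Reg`

**exists_kappa**: finitely many positive numbers (`cover`, `bal`).

**reg_facts.**  Take `κ` from `exists_kappa`, `n0 = card V`, `k ≤ n0`,
`δ0 := κ / (4 (n0+1)²)` (`≤ 1/4`), `c := κ/2`, `C := 2 (n0+1)/κ`.  Let `a_j = a_j(z)`.
For a fixed index `j0` we have `∑_{i > j0} a_i ≤ k δx a_{j0}`.

(R1) `v ∈ I` with first nonzero index `j0`:
`n_v = ∑_j a_j e_j(v) + ρ_v ≥ κ a_{j0} - ∑_{j>j0} a_j - √o2 ≥ (κ - k δx - δo) a_{j0} ≥ κ/2 a_{j0}`.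
(`|ρ_v| ≤ √o2 ≤ δo a_{j0}`, `|e_j(v)| ≤ 1`.)

(R2) `v ∉ I`, colour `b`, not all `Lf = 0`, first nonzero index `j0`:
`∑_i a_i Lf(e_i) ≤ -κ a_{j0} + n0 k δx a_{j0} ≤ -κ/2 a_{j0}`; and `|a_j Lf(e_j)| ≤ n0 a_{j0}`
(`j ≥ j0`, as `a_j ≤ a_{j0}`; zero for `j < j0`) `≤ (2 n0/κ) (-∑ a_i Lf(e_i))`.

(R3) `S = ∑_{v ∉ I} n_v s_v`, `s_v = -∑_j a_j Lf σ c_v v e_j ≥ 0`;
`|a_j ell_j| ≤ ∑_{v∉I} n_v |a_j Lf(e_j)| ≤ C S`.
-/

namespace UC
open Finset
variable {V : Type} [Fintype V] [DecidableEq V] {s k : ℕ}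
variable {G : SimpleGraph V} [DecidableRel G.Adj]

theorem Flag.exists_kappa (F : Flag G s k) : ∃ κ : ℝ, 0 < κ ∧ κ ≤ 1 ∧
    (∀ v ∈ F.I, ∃ j, κ ≤ F.e j v ∧ ∀ i, i < j → F.e i v = 0) ∧
    (∀ v, v ∉ F.I → ∀ b : Fin s, (∀ j, Lf G F.σ b v (F.e j) = 0) ∨
      ∃ j, Lf G F.σ b v (F.e j) ≤ -κ ∧ ∀ i, i < j → Lf G F.σ b v (F.e i) = 0) := by
  have hev : ∀ x : ℝ, 0 < x → ∀ᶠ κ : ℝ in nhdsWithin 0 (Set.Ioi 0), κ ≤ x := by
    intro x hx
    filter_upwards [Ioc_mem_nhdsGT hx] with κ hκ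
    exact hκ.2
  have e1 : ∀ v : V, ∀ᶠ κ : ℝ in nhdsWithin 0 (Set.Ioi 0),
      (v ∈ F.I → ∃ j, κ ≤ F.e j v ∧ ∀ i, i < j → F.e i v = 0) := by
    intro v
    by_cases hv : v ∈ F.I
    · obtain ⟨j, hj, hj'⟩ := F.cover v hv
      filter_upwards [hev _ hj] with κ hκ _
      exact ⟨j, hκ, hj'⟩
    · exact Filter.Eventually.of_forall fun κ h => absurd h hv
  have e2 : ∀ (v : V) (b : Fin s), ∀ᶠ κ : ℝ in nhdsWithin 0 (Set.Ioi 0),
      (v ∉ F.I → (∀ j, Lf G F.σ b v (F.e j) = 0) ∨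
        ∃ j, Lf G F.σ b v (F.e j) ≤ -κ ∧ ∀ i, i < j → Lf G F.σ b v (F.e i) = 0) := by
    intro v b
    by_cases hv : v ∉ F.I
    · rcases F.bal v hv b with h | ⟨j, hj, hj'⟩
      · exact Filter.Eventually.of_forall fun κ _ => Or.inl h
      · filter_upwards [hev (-Lf G F.σ b v (F.e j)) (by linarith)] with κ hκ _
        exact Or.inr ⟨j, by linarith, hj'⟩
    · exact Filter.Eventually.of_forall fun κ h => absurd h hv
  have e3 := (Filter.eventually_all.2 e1).and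
    (Filter.eventually_all.2 fun v => Filter.eventually_all.2 (e2 v))
  obtain ⟨κ, ⟨h1, h2⟩, h3, h4⟩ := (e3.and
    ((show ∀ᶠ κ : ℝ in nhdsWithin 0 (Set.Ioi 0), 0 < κ from self_mem_nhdsWithin).and
      (hev 1 one_pos))).exists
  exact ⟨κ, h3, h4, h1, fun v hv b => h2 v b hv⟩

/-- the facts, packed -/
structure Flag.Facts (F : Flag G s k) (c C : ℝ) (z : St V s) : Prop where
  low : ∀ v ∈ F.I, ∃ j, c * F.a j (nR z) ≤ (z.n v : ℝ) ∧ ∀ i, i < j → F.e i v = 0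
  strict : ∀ v, v ∉ F.I → ∀ b : Fin s, (∀ j, Lf G F.σ b v (F.e j) = 0) ∨
    ∃ j, ∑ i, F.a i (nR z) * Lf G F.σ b v (F.e i) ≤ -(c * F.a j (nR z)) ∧
      ∀ i, |F.a i (nR z) * Lf G F.σ b v (F.e i)| ≤
        C * (-∑ i, F.a i (nR z) * Lf G F.σ b v (F.e i))
  neg : ∀ v, v ∉ F.I → ∀ b : Fin s, ∑ i, F.a i (nR z) * Lf G F.σ b v (F.e i) ≤ 0
  S_nonneg : 0 ≤ F.S z.c (nR z)
  ell_le : ∀ j, F.a j (nR z) * |F.ell z.c (nR z) j| ≤ C * F.S z.c (nR z)
  mass : ∀ v, v ∉ F.I → (∃ j, Lf G F.σ (z.c v) v (F.e j) ≠ 0) →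
    ∃ j, c * F.a j (nR z) * (z.n v : ℝ) ≤ F.S z.c (nR z)

theorem B2_cV_nonneg : 0 ≤ cV V := Nat.cast_nonneg _

/-- a sum dominated by its first term -/
theorem Flag.B2_sum (F : Flag G s k) {δx δo : ℝ} (hx : 0 ≤ δx) {z : St V s} (h : F.Reg δx δo z)
    (j : Fin k) (w : Fin k → ℝ) {M : ℝ} (hM : 0 ≤ M) (hw : ∀ i, |w i| ≤ M)
    (hw0 : ∀ i, i < j → w i = 0) :
    |∑ i, F.a i (nR z) * w i - F.a j (nR z) * w j| ≤ cV V * (δx * F.a j (nR z) * M) := by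
  obtain ⟨-, -, hpos, hd, -, -⟩ := h
  have h1 : ∑ i, F.a i (nR z) * w i - F.a j (nR z) * w j =
      ∑ i ∈ univ.erase j, F.a i (nR z) * w i := by
    rw [← Finset.add_sum_erase univ _ (Finset.mem_univ j)]
    ring
  rw [h1]
  have hB : 0 ≤ δx * F.a j (nR z) * M := mul_nonneg (mul_nonneg hx (hpos j).le) hM
  calc |∑ i ∈ univ.erase j, F.a i (nR z) * w i|
      ≤ ∑ i ∈ univ.erase j, |F.a i (nR z) * w i| := Finset.abs_sum_le_sum_abs _ _
    _ ≤ ∑ _i ∈ univ.erase j, δx * F.a j (nR z) * M := by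
        refine Finset.sum_le_sum fun i hi => ?_
        rcases lt_trichotomy i j with hij | hij | hij
        · rw [hw0 i hij, mul_zero, abs_zero]
          exact hB
        · exact absurd hij (Finset.ne_of_mem_erase hi)
        · rw [abs_mul, abs_of_pos (hpos i)]
          exact mul_le_mul (hd j i hij) (hw i) (abs_nonneg _)
            (mul_nonneg hx (hpos j).le)
    _ = ((univ.erase j).card : ℝ) * (δx * F.a j (nR z) * M) := by
        rw [Finset.sum_const, nsmul_eq_mul]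
    _ ≤ cV V * (δx * F.a j (nR z) * M) := by
        refine mul_le_mul_of_nonneg_right ?_ hB
        have h2 : ((univ.erase j).card : ℝ) ≤ k := by
          have := Finset.card_erase_le (a := j) (s := (univ : Finset (Fin k)))
          rw [Finset.card_univ, Fintype.card_fin] at this
          exact_mod_cast this
        exact h2.trans F.k_le

theorem Flag.B2_a_le (F : Flag G s k) {δx δo : ℝ} (hx1 : δx ≤ 1) {z : St V s}
    (h : F.Reg δx δo z) {i j : Fin k} (hij : i ≤ j) : F.a j (nR z) ≤ F.a i (nR z) := by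
  obtain ⟨-, -, hpos, hd, -, -⟩ := h
  rcases hij.lt_or_eq with h1 | h1
  · refine (hd i j h1).trans ?_
    have := mul_le_mul_of_nonneg_right hx1 (hpos i).le
    rwa [one_mul] at this
  · rw [h1]

/-- the small numbers -/
theorem B2_small {κ δ N : ℝ} (hκ : 0 < κ) (hκ1 : κ ≤ 1) (hN : 0 ≤ N) (h0 : 0 ≤ δ)
    (h : δ ≤ κ / (4 * (N + 1) ^ 2)) :
    δ ≤ κ / 4 ∧ N * δ ≤ κ / 4 ∧ N * (N * δ) ≤ κ / 4 ∧ δ ≤ 1 := by
  have hp : 0 < 4 * (N + 1) ^ 2 := by positivity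
  rw [le_div_iff₀ hp] at h
  have a1 : 0 ≤ N * δ := mul_nonneg hN h0
  have a2 : 0 ≤ N * (N * δ) := mul_nonneg hN a1
  have h' : 4 * (N * (N * δ)) + 8 * (N * δ) + 4 * δ ≤ κ := by nlinarith
  refine ⟨by linarith, by linarith, by linarith, by linarith⟩

theorem Flag.B2_S_eq (F : Flag G s k) (c : V → Fin s) (r : V → ℝ) :
    F.S c r = ∑ v, if v ∈ F.I then 0 else r v * (-∑ j, F.a j r * Lf G F.σ (c v) v (F.e j)) := by
  unfold Flag.S Flag.ell
  have h1 : ∀ j : Fin k, F.a j r *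
      ∑ v, (if v ∈ F.I then 0 else r v * Lf G F.σ (c v) v (F.e j)) =
      ∑ v, if v ∈ F.I then 0 else r v * (F.a j r * Lf G F.σ (c v) v (F.e j)) := by
    intro j
    rw [Finset.mul_sum]
    refine Finset.sum_congr rfl fun v _ => ?_
    split_ifs
    · rw [mul_zero]
    · ring
  simp only [h1]
  rw [Finset.sum_comm, ← Finset.sum_neg_distrib]
  refine Finset.sum_congr rfl fun v _ => ?_
  split_ifs
  · simp
  · rw [← Finset.mul_sum]
    ring

theorem Flag.B2_facts (F : Flag G s k) {κ : ℝ} (hκ : 0 < κ) (hκ1 : κ ≤ 1)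
    (h1 : ∀ v ∈ F.I, ∃ j, κ ≤ F.e j v ∧ ∀ i, i < j → F.e i v = 0)
    (h2 : ∀ v, v ∉ F.I → ∀ b : Fin s, (∀ j, Lf G F.σ b v (F.e j) = 0) ∨
      ∃ j, Lf G F.σ b v (F.e j) ≤ -κ ∧ ∀ i, i < j → Lf G F.σ b v (F.e i) = 0)
    {δx δo : ℝ} (hx : 0 ≤ δx) (hx' : δx ≤ κ / (4 * (cV V + 1) ^ 2)) (ho : 0 ≤ δo)
    (ho' : δo ≤ κ / (4 * (cV V + 1) ^ 2)) {z : St V s} (h : F.Reg δx δo z) :
    F.Facts (κ / 2) (2 * (cV V + 1) / κ) z := by
  have hN : 0 ≤ cV V := B2_cV_nonneg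
  obtain ⟨x1, x2, x3, x4⟩ := B2_small hκ hκ1 hN hx hx'
  obtain ⟨o1, -, -, -⟩ := B2_small hκ hκ1 hN ho ho'
  have hpos := h.2.2.1
  have ho2 := h.2.2.2.2.1
  have hC : 0 < 2 * (cV V + 1) / κ := by positivity
  have low : ∀ v ∈ F.I, ∃ j, κ / 2 * F.a j (nR z) ≤ (z.n v : ℝ) ∧ ∀ i, i < j → F.e i v = 0 := by
    intro v hv
    obtain ⟨j, hj, hj'⟩ := h1 v hv
    refine ⟨j, ?_, hj'⟩
    have e1 := F.B2_sum hx h j (fun i => F.e i v) zero_le_one (fun i => F.e_abs_le i v) hj'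
    have e2 : |F.rho (nR z) v| ≤ δo * F.a j (nR z) := by
      refine abs_le_of_sq_le_sq ?_ (mul_nonneg ho (hpos j).le)
      rw [mul_pow]
      exact (F.rho_sq_le (nR z) v).trans (ho2 j)
    have e3 : (z.n v : ℝ) = ∑ i, F.a i (nR z) * F.e i v + F.rho (nR z) v := by
      unfold Flag.rho nR
      ring
    have e4 := (abs_le.1 e1).1
    have e5 := (abs_le.1 e2).1
    have e6 : κ * F.a j (nR z) ≤ F.a j (nR z) * F.e j v := by
      rw [mul_comm]
      exact mul_le_mul_of_nonneg_left hj (hpos j).le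
    have e7 : cV V * (δx * F.a j (nR z) * 1) ≤ κ / 4 * F.a j (nR z) := by
      have := mul_le_mul_of_nonneg_right x2 (hpos j).le
      linarith
    have e8 : δo * F.a j (nR z) ≤ κ / 4 * F.a j (nR z) :=
      mul_le_mul_of_nonneg_right o1 (hpos j).le
    rw [e3]
    linarith
  have strict : ∀ v, v ∉ F.I → ∀ b : Fin s, (∀ j, Lf G F.σ b v (F.e j) = 0) ∨
      ∃ j, ∑ i, F.a i (nR z) * Lf G F.σ b v (F.e i) ≤ -(κ / 2 * F.a j (nR z)) ∧
        ∀ i, |F.a i (nR z) * Lf G F.σ b v (F.e i)| ≤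
          2 * (cV V + 1) / κ * (-∑ i, F.a i (nR z) * Lf G F.σ b v (F.e i)) := by
    intro v hv b
    rcases h2 v hv b with h0 | ⟨j, hj, hj'⟩
    · exact Or.inl h0
    · refine Or.inr ⟨j, ?_⟩
      have e1 := F.B2_sum hx h j (fun i => Lf G F.σ b v (F.e i)) hN
        (fun i => F.Lf_e_abs_le i b v) hj'
      have e4 := (abs_le.1 e1).2
      have e6 : F.a j (nR z) * Lf G F.σ b v (F.e j) ≤ -(κ * F.a j (nR z)) := by
        have := mul_le_mul_of_nonneg_left hj (hpos j).le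
        linarith
      have e7 : cV V * (δx * F.a j (nR z) * cV V) ≤ κ / 4 * F.a j (nR z) := by
        have := mul_le_mul_of_nonneg_right x3 (hpos j).le
        linarith
      have e9 : 0 ≤ κ * F.a j (nR z) := mul_nonneg hκ.le (hpos j).le
      have e8 : ∑ i, F.a i (nR z) * Lf G F.σ b v (F.e i) ≤ -(κ / 2 * F.a j (nR z)) := by
        linarith
      refine ⟨e8, fun i => ?_⟩
      have e10 : (cV V + 1) * F.a j (nR z) ≤
          2 * (cV V + 1) / κ * (-∑ i, F.a i (nR z) * Lf G F.σ b v (F.e i)) := by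
        have e11 := mul_le_mul_of_nonneg_left (show κ / 2 * F.a j (nR z) ≤
          -∑ i, F.a i (nR z) * Lf G F.σ b v (F.e i) by linarith) hC.le
        refine le_trans (le_of_eq ?_) e11
        field_simp
      refine le_trans ?_ e10
      rcases lt_or_ge i j with hij | hij
      · rw [hj' i hij, mul_zero, abs_zero]
        exact mul_nonneg (by linarith) (hpos j).le
      · rw [abs_mul, abs_of_pos (hpos i), mul_comm (cV V + 1)]
        refine mul_le_mul (F.B2_a_le x4 h hij) ((F.Lf_e_abs_le i b v).trans (by linarith))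
          (abs_nonneg _) (hpos j).le
  have neg : ∀ v, v ∉ F.I → ∀ b : Fin s,
      ∑ i, F.a i (nR z) * Lf G F.σ b v (F.e i) ≤ 0 := by
    intro v hv b
    rcases strict v hv b with h0 | ⟨j, hj, -⟩
    · refine le_of_eq (Finset.sum_eq_zero fun i _ => ?_)
      rw [h0 i, mul_zero]
    · have := mul_nonneg (half_pos hκ).le (hpos j).le
      linarith
  have dom : ∀ v, v ∉ F.I → ∀ b : Fin s, ∀ i, |F.a i (nR z) * Lf G F.σ b v (F.e i)| ≤
      2 * (cV V + 1) / κ * (-∑ i, F.a i (nR z) * Lf G F.σ b v (F.e i)) := by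
    intro v hv b i
    rcases strict v hv b with h0 | ⟨j, -, hj⟩
    · rw [h0 i, mul_zero, abs_zero]
      exact mul_nonneg hC.le (by have := neg v hv b; linarith)
    · exact hj i
  have term : ∀ v, 0 ≤ if v ∈ F.I then (0 : ℝ) else
      nR z v * (-∑ j, F.a j (nR z) * Lf G F.σ (z.c v) v (F.e j)) := by
    intro v
    split_ifs with hv
    · exact le_rfl
    · exact mul_nonneg (Nat.cast_nonneg _) (by have := neg v hv (z.c v); linarith)
  refine ⟨low, strict, neg, ?_, ?_, ?_⟩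
  · rw [F.B2_S_eq]
    exact Finset.sum_nonneg fun v _ => term v
  · intro j
    have e0 : F.a j (nR z) * |F.ell z.c (nR z) j| = |F.a j (nR z) * F.ell z.c (nR z) j| := by
      rw [abs_mul, abs_of_pos (hpos j)]
    rw [F.B2_S_eq, Finset.mul_sum, e0]
    unfold Flag.ell
    rw [Finset.mul_sum]
    refine (Finset.abs_sum_le_sum_abs _ _).trans (Finset.sum_le_sum fun v _ => ?_)
    split_ifs with hv
    · simp
    · have e1 := dom v hv (z.c v) j
      have e2 : F.a j (nR z) * (nR z v * Lf G F.σ (z.c v) v (F.e j)) =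
          nR z v * (F.a j (nR z) * Lf G F.σ (z.c v) v (F.e j)) := by ring
      have e3 : 0 ≤ nR z v := Nat.cast_nonneg _
      rw [e2, abs_mul, abs_of_nonneg e3]
      have e4 := mul_le_mul_of_nonneg_left e1 e3
      linarith
  · intro v hv hne
    rcases strict v hv (z.c v) with h0 | ⟨j, hj, -⟩
    · obtain ⟨j, hj⟩ := hne
      exact absurd (h0 j) hj
    · refine ⟨j, ?_⟩
      rw [F.B2_S_eq]
      have e1 := Finset.single_le_sum (f := fun v => if v ∈ F.I then (0 : ℝ) else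
        nR z v * (-∑ j, F.a j (nR z) * Lf G F.σ (z.c v) v (F.e j)))
        (fun v _ => term v) (Finset.mem_univ v)
      simp only [if_neg hv] at e1
      refine le_trans ?_ e1
      have e3 : 0 ≤ nR z v := Nat.cast_nonneg _
      have e4 : (z.n v : ℝ) = nR z v := rfl
      rw [e4, mul_comm]
      exact mul_le_mul_of_nonneg_left (by linarith) e3

theorem Flag.reg_facts (F : Flag G s k) : ∃ δ0 > 0, ∃ c > 0, ∃ C > 0,
    ∀ δx δo : ℝ, 0 ≤ δx → δx ≤ δ0 → 0 ≤ δo → δo ≤ δ0 → ∀ z, F.Reg δx δo z →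
      F.Facts c C z := by
  obtain ⟨κ, hκ, hκ1, h1, h2⟩ := F.exists_kappa
  have hN : 0 ≤ cV V := B2_cV_nonneg
  refine ⟨κ / (4 * (cV V + 1) ^ 2), by positivity, κ / 2, by positivity,
    2 * (cV V + 1) / κ, by positivity, ?_⟩
  intro δx δo hx hx' ho ho' z hz
  exact F.B2_facts hκ hκ1 h1 h2 hx hx' ho ho' hz

/-- `Reg` is monotone -/
theorem Flag.Reg_mono (F : Flag G s k) {δx δo δx' δo' : ℝ} (h0 : 0 ≤ δx) (h0' : 0 ≤ δo)
    (hx : δx ≤ δx') (ho : δo ≤ δo') (z : St V s) (h : F.Reg δx δo z) : F.Reg δx' δo' z := by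
  obtain ⟨h1, h2, h3, h4, h5, h6⟩ := h
  refine ⟨h1, h2, h3, ?_, ?_, ?_⟩
  · intro i j hij
    exact (h4 i j hij).trans (mul_le_mul_of_nonneg_right hx (h3 i).le)
  · intro j
    exact (h5 j).trans (mul_le_mul_of_nonneg_right (pow_le_pow_left₀ h0' ho 2) (sq_nonneg _))
  · intro j
    exact (h6 j).trans (mul_le_mul_of_nonneg_right (pow_le_pow_left₀ h0 hx 2) (sq_nonneg _))

/-- more facts for flags of positive length.  `a_last ≤ a_j ≤ a_0` (if `δx ≤ 1`);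
`a_last ≥ 1` since `1 ≤ tot ≤ δx² a_last²`; `a_0 = ∑ n_v e_0(v) ≤ tot`;
`tot ≤ √n0 |z|` and `|z|² = ∑ a_j² + o2 ≤ (k+2) a_0²`, so `tot ≤ C a_0`;
`ell_0 ≤ 0`, since for `v ∉ I` always `Lf σ b v e_0 ≤ 0` (`bal`: first nonzero is negative);
`√o2 ≤ tot`: `o2 ≤ qq ≤ tot²`;  `|ell_0| ≤ n0² √o2`. -/
structure Flag.Facts1 (F : Flag G s (k + 1)) (c C : ℝ) (z : St V s) : Prop where
  last_le : ∀ j, F.a (Fin.last k) (nR z) ≤ F.a j (nR z)
  le_zero : ∀ j, F.a j (nR z) ≤ F.a 0 (nR z)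
  one_le : 1 ≤ F.a (Fin.last k) (nR z)
  zero_le_tot : F.a 0 (nR z) ≤ tot z
  tot_le : tot z ≤ C * F.a 0 (nR z)
  ell_zero : F.ell z.c (nR z) 0 ≤ 0
  low : ∀ v ∈ F.I, c * F.a (Fin.last k) (nR z) ≤ (z.n v : ℝ)
  low0 : ∀ v, F.e 0 v ≠ 0 → c * F.a 0 (nR z) ≤ (z.n v : ℝ)
  S_mass : ∀ v, v ∉ F.I → (∃ j, Lf G F.σ (z.c v) v (F.e j) ≠ 0) →
    c * F.a (Fin.last k) (nR z) * (z.n v : ℝ) ≤ F.S z.c (nR z)

theorem Flag.reg_facts1 (F : Flag G s (k + 1)) : ∃ δ0 > 0, ∃ c > 0, ∃ C > 0,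
    ∀ δx δo : ℝ, 0 ≤ δx → δx ≤ δ0 → 0 ≤ δo → δo ≤ δ0 → ∀ z, F.Reg δx δo z →
      F.Facts c C z ∧ F.Facts1 c C z := by
  obtain ⟨κ, hκ, hκ1, h1, h2⟩ := F.exists_kappa
  have hN : 0 ≤ cV V := B2_cV_nonneg
  refine ⟨κ / (4 * (cV V + 1) ^ 2), by positivity, κ / 2, by positivity,
    2 * (cV V + 1) / κ, by positivity, ?_⟩
  intro δx δo hx hx' ho ho' z hz
  have hF := F.B2_facts hκ hκ1 h1 h2 hx hx' ho ho' hz
  refine ⟨hF, ?_⟩
  obtain ⟨-, -, -, x4⟩ := B2_small hκ hκ1 hN hx hx'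
  obtain ⟨-, -, -, o4⟩ := B2_small hκ hκ1 hN ho ho'
  have hpos := hz.2.2.1
  have ho2 := hz.2.2.2.2.1
  have htt := hz.2.2.2.2.2
  have hlast : ∀ j, F.a (Fin.last k) (nR z) ≤ F.a j (nR z) := fun j =>
    F.B2_a_le x4 hz (Fin.le_last j)
  have hzero : ∀ j, F.a j (nR z) ≤ F.a 0 (nR z) := fun j => F.B2_a_le x4 hz (Fin.zero_le j)
  refine ⟨hlast, hzero, ?_, ?_, ?_, ?_, ?_, ?_, ?_⟩
  · have e1 := hz.1.trans (htt (Fin.last k))
    have e2 : δx ^ 2 ≤ 1 := by nlinarith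
    have e3 := mul_le_mul_of_nonneg_right e2 (sq_nonneg (F.a (Fin.last k) (nR z)))
    have e4 := hpos (Fin.last k)
    nlinarith
  · unfold Flag.a tot
    refine Finset.sum_le_sum fun v _ => ?_
    have e1 := (le_abs_self _).trans (F.e_abs_le 0 v)
    have e2 : (0 : ℝ) ≤ (z.n v : ℝ) := Nat.cast_nonneg _
    have e3 := mul_le_mul_of_nonneg_left e1 e2
    rw [mul_one] at e3
    exact e3
  · have e1 := tot_sq_le z
    have e2 : qq z ≤ (cV V + 1) * F.a 0 (nR z) ^ 2 := by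
      have e3 : qq z = ∑ j, F.a j (nR z) ^ 2 + F.o2 (nR z) := by
        unfold Flag.o2 qq nR
        ring
      have e4 : ∑ j, F.a j (nR z) ^ 2 ≤ cV V * F.a 0 (nR z) ^ 2 := by
        calc ∑ j, F.a j (nR z) ^ 2 ≤ ∑ _j : Fin (k + 1), F.a 0 (nR z) ^ 2 :=
              Finset.sum_le_sum fun j _ => pow_le_pow_left₀ (hpos j).le (hzero j) 2
          _ = ((k + 1 : ℕ) : ℝ) * F.a 0 (nR z) ^ 2 := by
              rw [Finset.sum_const, Finset.card_univ, Fintype.card_fin, nsmul_eq_mul]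
          _ ≤ cV V * F.a 0 (nR z) ^ 2 :=
              mul_le_mul_of_nonneg_right F.k_le (sq_nonneg _)
      have e5 : F.o2 (nR z) ≤ 1 * F.a 0 (nR z) ^ 2 :=
        (ho2 0).trans (mul_le_mul_of_nonneg_right (by nlinarith) (sq_nonneg _))
      rw [e3]
      linarith
    have e6 : tot z ^ 2 ≤ ((cV V + 1) * F.a 0 (nR z)) ^ 2 := by
      have e7 := mul_le_mul_of_nonneg_left e2 hN
      have e8 : 0 ≤ (cV V + 1) * F.a 0 (nR z) ^ 2 := by positivity
      nlinarith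
    have e9 : 0 ≤ (cV V + 1) * F.a 0 (nR z) := mul_nonneg (by linarith) (hpos 0).le
    have e10 : tot z ≤ (cV V + 1) * F.a 0 (nR z) := abs_le_of_sq_le_sq e6 e9 |> fun h =>
      (le_abs_self _).trans h
    refine e10.trans (mul_le_mul_of_nonneg_right ?_ (hpos 0).le)
    rw [le_div_iff₀ hκ]
    nlinarith
  · unfold Flag.ell
    refine Finset.sum_nonpos fun v _ => ?_
    split_ifs with hv
    · exact le_rfl
    · have e1 : Lf G F.σ (z.c v) v (F.e 0) ≤ 0 := by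
        rcases F.bal v hv (z.c v) with h0 | ⟨j, hj, hj'⟩
        · rw [h0 0]
        · rcases (Fin.zero_le j).lt_or_eq with h3 | h3
          · rw [hj' 0 h3]
          · rw [h3]
            exact hj.le
      exact mul_nonpos_of_nonneg_of_nonpos (Nat.cast_nonneg _) e1
  · intro v hv
    obtain ⟨j, hj, -⟩ := hF.low v hv
    exact (mul_le_mul_of_nonneg_left (hlast j) (half_pos hκ).le).trans hj
  · intro v hv
    have hvI : v ∈ F.I := by
      by_contra hcon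
      exact hv (F.supp 0 v hcon)
    obtain ⟨j, hj, hj'⟩ := hF.low v hvI
    rcases (Fin.zero_le j).lt_or_eq with h3 | h3
    · exact absurd (hj' 0 h3) hv
    · rw [← h3] at hj
      exact hj
  · intro v hv hne
    obtain ⟨j, hj⟩ := hF.mass v hv hne
    refine le_trans ?_ hj
    exact mul_le_mul_of_nonneg_right
      (mul_le_mul_of_nonneg_left (hlast j) (half_pos hκ).le) (Nat.cast_nonneg _)

theorem Flag.sqrt_o2_le_tot (F : Flag G s k) (z : St V s) : Real.sqrt (F.o2 (nR z)) ≤ tot z := by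
  refine (Real.sqrt_le_left (tot_nonneg z)).2 ?_
  exact (F.o2_le (nR z)).trans (qq_le_tot_sq z)

theorem Flag.e_zero_nonneg (F : Flag G s (k + 1)) (v : V) : 0 ≤ F.e 0 v := by
  by_cases hv : v ∈ F.I
  · obtain ⟨j, hj, hj'⟩ := F.cover v hv
    rcases (Fin.zero_le j).lt_or_eq with h3 | h3
    · rw [hj' 0 h3]
    · rw [h3]
      exact hj.le
  · rw [F.supp 0 v hv]

end UC
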