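import Pool.Agent.helper25.UC.B1
import Pool.Agent.helper25.UC.B2

/-!
# B3 : the maximiser in the region

Let `z ∈ Reg`, `(c,r)` a maximiser, `d² = dsq(z,(c,r))`, `n0 = card V`, `off = √o2(z)`,
`a_j = a_j(z)`, `b_j = a_j(r) - a_j`, `ρ = rho r`.

**dist** (`d² ≤ 3 o2`).  Candidate `y0 = (c0, ∑ a_j e_j)` (`c0 = σ` on `I`, `z.c` off `I`):
`rho y0 = 0`, `ell = 0`, so `Th = 0` and `dsq(z,y0) = ∑ rho(z)² = o2` (off `I` the value is
`n_v = rho_v`).  So `env ≥ -o2/τ`.
Upper bound: by `Th_eq`, `Th = AA(ρ,ρ) - E|ρ|² + 2∑ a_j(r) ell_j`; and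
`∑ a_j(r) ell_j = ∑ a_j ell_j + ∑ b_j ell_j`; the first sum is
`∑_{v∉I} r_v ∑_j a_j Lf σ c_v v e_j ≤ 0` by `Facts.neg` (`r_v ≥ 0`); `|∑ b_j ell_j| ≤ n0² d |ρ|`.
Maximality: `-o2/τ ≤ Th - d²/τ ≤ C2(o2 + d²) - d²/τ`, and `C2 τ ≤ 1/4`, so
`d² (1 - 1/4) ≤ o2 (1 + 1/4)`, `d² ≤ (5/3) o2 ≤ 3 o2`.

**neutral**: compare with the same configuration with `r_v` replaced by `0`.

**stat**: `t ↦ val(c, r + t 1_v)` is a quadratic polynomial in `t`, maximum at `t = 0`.

**a_eq**: multiply `stat` by `e_j(v)` and sum over `v ∈ I`.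

**scale**: multiply `stat` by `r_v` and sum over all `v`.
-/

namespace UC
open Finset
variable {V : Type} [Fintype V] [DecidableEq V] {s k : ℕ}
variable {G : SimpleGraph V} [DecidableRel G.Adj]

structure Flag.MxFacts (F : Flag G s k) (E τ : ℝ) (z : St V s) (c : V → Fin s) (r : V → ℝ) :
    Prop where
  dist : dsq z.c (nR z) c r ≤ 3 * F.o2 (nR z)
  neutral : ∀ v, v ∉ F.I → 0 < r v → ∀ j, Lf G F.σ (c v) v (F.e j) = 0
  ell_zero : ∀ j, F.ell c r j = 0
  a_eq : ∀ j, F.a j r = F.a j (nR z)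
  scale : 2 * τ * F.env E τ z = ∑ v, r v ^ 2 - qq z - dsq z.c (nR z) c r
  stat : ∀ v, (v ∈ F.I ∨ 0 < r v) →
    Lf G c (c v) v r - E * r v - ∑ j, (F.E j - E) * F.a j r * F.e j v =
      (r v - eps (z.c v) (c v) * (z.n v : ℝ)) / τ
  Th_eq : F.Th E c r = AA G c (F.rho r) c (F.rho r) - E * F.o2 r
  rho_le : Real.sqrt (F.o2 r) ≤ Real.sqrt (F.o2 (nR z)) + Real.sqrt (dsq z.c (nR z) c r)
  rho_ge : Real.sqrt (F.o2 (nR z)) ≤ Real.sqrt (F.o2 r) + Real.sqrt (dsq z.c (nR z) c r)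

/-! ### one-vertex variations -/

/-- unit mass at `v` -/
def b3dl (v : V) : V → ℝ := fun u => if u = v then 1 else 0

theorem b3_sum_dl (v : V) (f : V → ℝ) : ∑ u, b3dl v u * f u = f v := by
  simp [b3dl]

theorem b3_eps_self (a : Fin s) : eps a a = 1 := by simp [eps]

theorem b3_eps_sq (a b : Fin s) : eps a b * eps a b = 1 := by
  unfold eps; split_ifs <;> norm_num

theorem b3_eps_le (a b : Fin s) : eps a b ≤ 1 := by
  unfold eps; split_ifs <;> norm_num

theorem b3_AA_add (c : V → Fin s) (x y w : V → ℝ) (t : ℝ) :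
    AA G c (fun u => x u + t * y u) c w = AA G c x c w + t * AA G c y c w := by
  rw [AA_eq_Lf, AA_eq_Lf, AA_eq_Lf, Finset.mul_sum, ← Finset.sum_add_distrib]
  refine Finset.sum_congr rfl fun u _ => ?_
  ring

theorem b3_AA_dl (c : V → Fin s) (v : V) (x : V → ℝ) :
    AA G c (b3dl v) c x = Lf G c (c v) v x := by
  rw [AA_eq_Lf]
  exact b3_sum_dl v (fun u => Lf G c (c u) u x)

theorem b3_Lf_dl (c : V → Fin s) (b : Fin s) (v : V) : Lf G c b v (b3dl v) = 0 := by
  unfold Lf b3dl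
  refine Finset.sum_eq_zero fun u _ => ?_
  by_cases h : G.Adj v u
  · rw [if_pos h, if_neg (fun h' => G.ne_of_adj h h'.symm), mul_zero]
  · rw [if_neg h]

theorem b3_AA_upd (c : V → Fin s) (v : V) (r : V → ℝ) (t : ℝ) :
    AA G c (fun u => r u + t * b3dl v u) c (fun u => r u + t * b3dl v u) =
      AA G c r c r + 2 * t * Lf G c (c v) v r := by
  rw [b3_AA_add, AA_symm c r, AA_symm c (b3dl v), b3_AA_add, b3_AA_add,
    AA_symm c r c (b3dl v), b3_AA_dl, b3_AA_dl, b3_Lf_dl]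
  ring

theorem b3_sq_upd (v : V) (r : V → ℝ) (t : ℝ) :
    ∑ u, (r u + t * b3dl v u) ^ 2 = ∑ u, r u ^ 2 + 2 * t * r v + t ^ 2 := by
  have h1 : ∀ u, (r u + t * b3dl v u) ^ 2 =
      r u ^ 2 + 2 * t * (b3dl v u * r u) + t ^ 2 * (b3dl v u * b3dl v u) := fun u => by ring
  simp only [h1]
  rw [Finset.sum_add_distrib, Finset.sum_add_distrib, ← Finset.mul_sum, ← Finset.mul_sum,
    b3_sum_dl, b3_sum_dl]
  simp [b3dl]

theorem b3_a_upd (F : Flag G s k) (j : Fin k) (v : V) (r : V → ℝ) (t : ℝ) :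
    F.a j (fun u => r u + t * b3dl v u) = F.a j r + t * F.e j v := by
  rw [F.a_add, F.a_smul]
  congr 2
  exact b3_sum_dl v (F.e j)

theorem b3_dsq_upd (z : St V s) (c : V → Fin s) (v : V) (r : V → ℝ) (t : ℝ) :
    dsq z.c (nR z) c (fun u => r u + t * b3dl v u) =
      dsq z.c (nR z) c r + 2 * t * (r v - eps (z.c v) (c v) * (z.n v : ℝ)) + t ^ 2 := by
  unfold dsq
  have h1 : ∀ u, (nR z u - eps (z.c u) (c u) * (r u + t * b3dl v u)) ^ 2 =
      (nR z u - eps (z.c u) (c u) * r u) ^ 2 +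
        2 * t * (b3dl v u * (eps (z.c u) (c u) * eps (z.c u) (c u) * r u -
          eps (z.c u) (c u) * (z.n u : ℝ))) +
        t ^ 2 * (b3dl v u * (eps (z.c u) (c u) * eps (z.c u) (c u) * b3dl v u)) :=
    fun u => by unfold nR; ring
  simp only [h1, b3_eps_sq, one_mul]
  rw [Finset.sum_add_distrib, Finset.sum_add_distrib, ← Finset.mul_sum, ← Finset.mul_sum,
    b3_sum_dl v (fun u => r u - eps (z.c u) (c u) * (z.n u : ℝ)), b3_sum_dl v (b3dl v)]
  simp [b3dl]

theorem b3_Th_upd (F : Flag G s k) (E : ℝ) (c : V → Fin s) (v : V) (r : V → ℝ) (t : ℝ) :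
    F.Th E c (fun u => r u + t * b3dl v u) = F.Th E c r +
      2 * t * (Lf G c (c v) v r - E * r v - ∑ j, (F.E j - E) * F.a j r * F.e j v) +
      t ^ 2 * (-E - ∑ j, (F.E j - E) * F.e j v ^ 2) := by
  unfold Flag.Th
  rw [b3_AA_upd, b3_sq_upd]
  have h1 : ∑ j, (F.E j - E) * F.a j (fun u => r u + t * b3dl v u) ^ 2 =
      ∑ j, (F.E j - E) * F.a j r ^ 2 + 2 * t * ∑ j, (F.E j - E) * F.a j r * F.e j v +
        t ^ 2 * ∑ j, (F.E j - E) * F.e j v ^ 2 := by
    rw [Finset.mul_sum, Finset.mul_sum, ← Finset.sum_add_distrib, ← Finset.sum_add_distrib]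
    refine Finset.sum_congr rfl fun j _ => ?_
    rw [b3_a_upd]
    ring
  rw [h1]
  ring

theorem b3_val_upd (F : Flag G s k) (E τ : ℝ) (z : St V s) (c : V → Fin s) (v : V) (r : V → ℝ)
    (t : ℝ) : F.val E τ z c (fun u => r u + t * b3dl v u) = F.val E τ z c r +
      2 * t * (Lf G c (c v) v r - E * r v - ∑ j, (F.E j - E) * F.a j r * F.e j v -
        (r v - eps (z.c v) (c v) * (z.n v : ℝ)) / τ) +
      t ^ 2 * (-E - ∑ j, (F.E j - E) * F.e j v ^ 2 - 1 / τ) := by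
  unfold Flag.val
  rw [b3_Th_upd, b3_dsq_upd]
  ring

theorem b3_quad {α β η : ℝ} (hη : 0 < η) (h : ∀ t : ℝ, |t| < η → t * α + t ^ 2 * β ≤ 0) :
    α = 0 := by
  by_contra hα
  have hα' : 0 < |α| := abs_pos.mpr hα
  set w : ℝ := min (η / (2 * |α|)) (1 / (2 * (|β| + 1))) with hw
  have hw0 : 0 < w := by positivity
  have hw1 : w ≤ η / (2 * |α|) := min_le_left _ _
  have hw2 : w ≤ 1 / (2 * (|β| + 1)) := min_le_right _ _
  have h1 : |w * α| < η := by
    rw [abs_mul, abs_of_pos hw0]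
    have : w * |α| ≤ η / (2 * |α|) * |α| := mul_le_mul_of_nonneg_right hw1 hα'.le
    have h2 : η / (2 * |α|) * |α| = η / 2 := by field_simp
    linarith
  have h2 := h (w * α) h1
  have h3 : w * α * α + (w * α) ^ 2 * β = α ^ 2 * w * (1 + w * β) := by ring
  rw [h3] at h2
  have h4 : -(1 / 2) ≤ w * β := by
    have h5 : w * |β| ≤ 1 / 2 := by
      have h6 : w * |β| ≤ 1 / (2 * (|β| + 1)) * |β| := mul_le_mul_of_nonneg_right hw2 (abs_nonneg β)
      have h7 : 1 / (2 * (|β| + 1)) * |β| ≤ 1 / 2 := by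
        rw [div_mul_eq_mul_div, div_le_div_iff₀ (by positivity) (by norm_num)]
        nlinarith [abs_nonneg β]
      linarith
    have := neg_abs_le β
    nlinarith
  have h8 : 0 < α ^ 2 := by positivity
  have : 0 < α ^ 2 * w * (1 + w * β) := by
    apply mul_pos (mul_pos h8 hw0)
    linarith
  linarith

theorem b3_adm_upd (F : Flag G s k) {c : V → Fin s} {r : V → ℝ} (h : F.Adm c r) (v : V) {t : ℝ}
    (ht : v ∈ F.I ∨ 0 ≤ r v + t) : F.Adm c (fun u => r u + t * b3dl v u) := by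
  refine ⟨h.1, fun u hu => ?_⟩
  unfold b3dl
  by_cases huv : u = v
  · subst huv
    rcases ht with ht | ht
    · exact absurd ht hu
    · simpa using ht
  · simpa [huv] using h.2 u hu

theorem b3_stat (F : Flag G s k) (E τ : ℝ) (z : St V s) (c : V → Fin s) (r : V → ℝ)
    (hm : F.IsMx E τ z c r) (v : V) (hv : v ∈ F.I ∨ 0 < r v) :
    Lf G c (c v) v r - E * r v - ∑ j, (F.E j - E) * F.a j r * F.e j v =
      (r v - eps (z.c v) (c v) * (z.n v : ℝ)) / τ := by
  have key : ∃ η : ℝ, 0 < η ∧ ∀ t : ℝ, |t| < η → F.Adm c (fun u => r u + t * b3dl v u) := by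
    rcases hv with hv | hv
    · exact ⟨1, one_pos, fun t _ => b3_adm_upd F hm.1 v (Or.inl hv)⟩
    · refine ⟨r v, hv, fun t ht => b3_adm_upd F hm.1 v (Or.inr ?_)⟩
      have := (abs_lt.1 ht).1
      linarith
  obtain ⟨η, hη, hadm⟩ := key
  have := b3_quad (α := 2 * (Lf G c (c v) v r - E * r v - ∑ j, (F.E j - E) * F.a j r * F.e j v -
        (r v - eps (z.c v) (c v) * (z.n v : ℝ)) / τ))
      (β := -E - ∑ j, (F.E j - E) * F.e j v ^ 2 - 1 / τ) hη (fun t ht => by
        have h1 := hm.2 _ _ (hadm t ht)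
        rw [b3_val_upd] at h1
        linarith)
  linarith

/-! ### the sums over the flag -/

theorem b3_sum_sq (F : Flag G s k) (b : Fin k → ℝ) :
    ∑ v, (∑ j, b j * F.e j v) ^ 2 = ∑ j, b j ^ 2 := by
  have h1 : ∀ v, (∑ j, b j * F.e j v) ^ 2 = ∑ i, ∑ j, b i * b j * (F.e i v * F.e j v) := by
    intro v
    rw [sq, Finset.sum_mul_sum]
    refine Finset.sum_congr rfl fun i _ => Finset.sum_congr rfl fun j _ => ?_
    ring
  simp only [h1]
  rw [Finset.sum_comm]
  refine Finset.sum_congr rfl fun i _ => ?_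
  rw [Finset.sum_comm]
  have h2 : ∀ j, ∑ v, b i * b j * (F.e i v * F.e j v) = if i = j then b i * b j else 0 := by
    intro j
    rw [← Finset.mul_sum, F.orth]
    split_ifs <;> ring
  simp only [h2]
  rw [Finset.sum_ite_eq]
  simp [sq]

theorem b3_a_comb (F : Flag G s k) (b : Fin k → ℝ) (j : Fin k) :
    F.a j (fun v => ∑ i, b i * F.e i v) = b j := by
  unfold Flag.a
  have h1 : ∀ v, (∑ i, b i * F.e i v) * F.e j v = ∑ i, b i * (F.e i v * F.e j v) := by
    intro v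
    rw [Finset.sum_mul]
    exact Finset.sum_congr rfl fun i _ => by ring
  simp only [h1]
  rw [Finset.sum_comm]
  have h2 : ∀ i, ∑ v, b i * (F.e i v * F.e j v) = if i = j then b i else 0 := by
    intro i
    rw [← Finset.mul_sum, F.orth]
    split_ifs <;> ring
  simp only [h2]
  simp

/-- `|∑ b_j Lf σ b v e_j| ≤ n0 d` -/
theorem b3_Lf_comb (F : Flag G s k) (b : Fin k → ℝ) {d : ℝ} (hd : 0 ≤ d)
    (hb : ∑ j, b j ^ 2 ≤ d ^ 2) (col : Fin s) (v : V) :
    |∑ j, b j * Lf G F.σ col v (F.e j)| ≤ cV V * d := by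
  rw [← Lf_sum F.σ col v b F.e]
  refine (Lf_le _ _ _ _).trans ?_
  rw [b3_sum_sq]
  have hc : 0 ≤ cV V := Nat.cast_nonneg _
  exact mul_le_mul_of_nonneg_left (Real.sqrt_le_iff.mpr ⟨hd, hb⟩) hc

theorem b3_ell_sum (F : Flag G s k) (b : Fin k → ℝ) (c : V → Fin s) (r : V → ℝ) :
    ∑ j, b j * F.ell c r j =
      ∑ v, if v ∈ F.I then 0 else r v * ∑ j, b j * Lf G F.σ (c v) v (F.e j) := by
  unfold Flag.ell
  simp only [Finset.mul_sum]
  rw [Finset.sum_comm]
  refine Finset.sum_congr rfl fun v _ => ?_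
  by_cases hv : v ∈ F.I
  · simp [hv]
  · simp only [hv, if_false]
    exact Finset.sum_congr rfl fun j _ => by ring

/-- `|∑ b_j ell_j| ≤ n0² d |ρ|` -/
theorem b3_ell_comb (F : Flag G s k) (b : Fin k → ℝ) {d : ℝ} (hd : 0 ≤ d)
    (hb : ∑ j, b j ^ 2 ≤ d ^ 2) (c : V → Fin s) (r : V → ℝ) :
    |∑ j, b j * F.ell c r j| ≤ cV V ^ 2 * d * Real.sqrt (F.o2 r) := by
  rw [b3_ell_sum]
  have hc : 0 ≤ cV V := Nat.cast_nonneg _
  refine (Finset.abs_sum_le_sum_abs _ _).trans ?_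
  have h1 : ∀ v ∈ (univ : Finset V),
      |if v ∈ F.I then 0 else r v * ∑ j, b j * Lf G F.σ (c v) v (F.e j)| ≤
        Real.sqrt (F.o2 r) * (cV V * d) := by
    intro v _
    by_cases hv : v ∈ F.I
    · rw [if_pos hv, abs_zero]
      positivity
    · rw [if_neg hv, abs_mul]
      refine mul_le_mul ?_ (b3_Lf_comb F b hd hb (c v) v) (abs_nonneg _) (Real.sqrt_nonneg _)
      apply Real.abs_le_sqrt
      rw [← F.rho_off r v hv]
      exact F.rho_sq_le r v
  refine (Finset.sum_le_sum h1).trans ?_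
  rw [Finset.sum_const, nsmul_eq_mul, Finset.card_univ]
  apply le_of_eq
  unfold cV
  ring

/-- the candidate `∑ a_j e_j` has value `-o2/τ` -/
theorem b3_cand (F : Flag G s k) (E τ : ℝ) (z : St V s) (hzc : ∀ v ∈ F.I, z.c v = F.σ v) :
    F.Adm z.c (fun v => ∑ j, F.a j (nR z) * F.e j v) ∧
      F.val E τ z z.c (fun v => ∑ j, F.a j (nR z) * F.e j v) = -(F.o2 (nR z) / τ) := by
  set r0 : V → ℝ := fun v => ∑ j, F.a j (nR z) * F.e j v with hr0
  have hoff : ∀ v, v ∉ F.I → r0 v = 0 := fun v hv =>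
    Finset.sum_eq_zero fun j _ => by rw [F.supp j v hv, mul_zero]
  have ha : ∀ j, F.a j r0 = F.a j (nR z) := fun j => b3_a_comb F (fun j => F.a j (nR z)) j
  have hrho : F.rho r0 = fun _ => 0 := by
    funext v
    unfold Flag.rho
    simp only [ha]
    rw [hr0]
    ring
  have ho2 : F.o2 r0 = 0 := by
    rw [F.o2_eq, hrho]; simp
  have hell : ∀ j, F.ell z.c r0 j = 0 := by
    intro j
    unfold Flag.ell
    refine Finset.sum_eq_zero fun v _ => ?_
    by_cases hv : v ∈ F.I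
    · rw [if_pos hv]
    · rw [if_neg hv, hoff v hv, zero_mul]
  have hTh : F.Th E z.c r0 = 0 := by
    rw [F.Th_eq E z.c r0 hzc, ho2, hrho, AA_eq_Lf]
    simp [hell]
  have hdsq : dsq z.c (nR z) z.c r0 = F.o2 (nR z) := by
    rw [F.o2_eq]
    unfold dsq
    refine Finset.sum_congr rfl fun v _ => ?_
    rw [b3_eps_self, one_mul]
    rfl
  refine ⟨⟨hzc, fun v hv => (hoff v hv).ge⟩, ?_⟩
  unfold Flag.val
  rw [hTh, hdsq]
  ring

/-- fields of the flag directions do not see the colours off `I` -/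
theorem b3_Lf_e (F : Flag G s k) (c : V → Fin s) (hc : ∀ v ∈ F.I, c v = F.σ v) (b : Fin s) (v : V)
    (j : Fin k) : Lf G c b v (F.e j) = Lf G F.σ b v (F.e j) := by
  unfold Lf
  refine Finset.sum_congr rfl fun u _ => ?_
  by_cases hu : u ∈ F.I
  · rw [hc u hu]
  · rw [F.supp j u hu, mul_zero, mul_zero]

theorem b3_AA_e (F : Flag G s k) (c : V → Fin s) (hc : ∀ v ∈ F.I, c v = F.σ v) (r : V → ℝ)
    (j : Fin k) : ∑ v, F.e j v * Lf G c (c v) v r = F.E j * F.a j r + F.ell c r j := by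
  rw [← AA_eq_Lf, AA_symm, AA_eq_Lf]
  unfold Flag.a Flag.ell
  rw [Finset.mul_sum, ← Finset.sum_add_distrib]
  refine Finset.sum_congr rfl fun v _ => ?_
  rw [b3_Lf_e F c hc]
  by_cases hv : v ∈ F.I
  · rw [if_pos hv, hc v hv, F.eig j v hv]
    ring
  · rw [if_neg hv, F.supp j v hv]
    ring

theorem b3_dist (F : Flag G s k) (E τ : ℝ) (hE : |E| ≤ cV V + 2) (hτ : 0 < τ) (hτ0 : τ ≤ tau0 V)
    (z : St V s) (hzc : ∀ v ∈ F.I, z.c v = F.σ v) {c0 C : ℝ} (hF : F.Facts c0 C z)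
    (c : V → Fin s) (r : V → ℝ) (hm : F.IsMx E τ z c r) :
    dsq z.c (nR z) c r ≤ 3 * F.o2 (nR z) := by
  have hcI := hm.1.1
  have hn0 : 0 ≤ cV V := Nat.cast_nonneg _
  obtain ⟨hadm0, hval0⟩ := b3_cand F E τ z hzc
  have hmax := hm.2 _ _ hadm0
  rw [hval0] at hmax
  unfold Flag.val at hmax
  have hD := dsq_nonneg z.c (nR z) c r
  have ho2z := F.o2_nonneg (nR z)
  have ho2r := F.o2_nonneg r
  set D : ℝ := dsq z.c (nR z) c r with hDd
  set d : ℝ := Real.sqrt D with hd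
  set off : ℝ := Real.sqrt (F.o2 (nR z)) with hoff
  set R : ℝ := Real.sqrt (F.o2 r) with hR
  have hd0 : 0 ≤ d := Real.sqrt_nonneg _
  have hoff0 : 0 ≤ off := Real.sqrt_nonneg _
  have hR0 : 0 ≤ R := Real.sqrt_nonneg _
  have hd2 : d ^ 2 = D := Real.sq_sqrt hD
  have hoff2 : off ^ 2 = F.o2 (nR z) := Real.sq_sqrt ho2z
  have hR2 : R ^ 2 = F.o2 r := Real.sq_sqrt ho2r
  have hRle : R ≤ off + d := by
    have := F.sqrt_o2_sub_le c z.c r (nR z) hcI hzc
    rwa [dsq_comm c r] at this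
  have hb : ∑ j, (F.a j r - F.a j (nR z)) ^ 2 ≤ d ^ 2 := by
    have := F.sum_a_sub_sq_le c z.c r (nR z) hcI hzc
    rwa [dsq_comm c r, ← hDd, ← hd2] at this
  -- bound for `Th`
  have hTh := F.Th_eq E c r hcI
  have hAA : AA G c (F.rho r) c (F.rho r) ≤ cV V * R ^ 2 := by
    have := (abs_le.1 (AA_self_le (G := G) c (F.rho r))).2
    rwa [← F.o2_eq, ← hR2] at this
  have hEr : -E * R ^ 2 ≤ (cV V + 2) * R ^ 2 := by
    have := (abs_le.1 hE).1
    nlinarith [sq_nonneg R]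
  have hsum : ∑ j, F.a j r * F.ell c r j =
      ∑ j, F.a j (nR z) * F.ell c r j + ∑ j, (F.a j r - F.a j (nR z)) * F.ell c r j := by
    rw [← Finset.sum_add_distrib]
    exact Finset.sum_congr rfl fun j _ => by ring
  have hfirst : ∑ j, F.a j (nR z) * F.ell c r j ≤ 0 := by
    rw [b3_ell_sum F (fun j => F.a j (nR z)) c r]
    refine Finset.sum_nonpos fun v _ => ?_
    by_cases hv : v ∈ F.I
    · rw [if_pos hv]
    · rw [if_neg hv]
      exact mul_nonpos_of_nonneg_of_nonpos (hm.1.2 v hv) (hF.neg v hv (c v))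
  have hsecond := (abs_le.1 (b3_ell_comb F (fun j => F.a j r - F.a j (nR z)) hd0 hb c r)).2
  have hTh2 : F.Th E c r ≤ (2 * cV V + 2) * R ^ 2 + 2 * (cV V ^ 2 * d * R) := by
    rw [hTh, hsum, ← hR2]
    nlinarith
  have hRsq : R ^ 2 ≤ 2 * off ^ 2 + 2 * d ^ 2 := by nlinarith [sq_nonneg (off - d)]
  have hdR : 2 * (d * R) ≤ d ^ 2 + R ^ 2 := by nlinarith [sq_nonneg (d - R)]
  have hTh3 : F.Th E c r ≤ 4 * (cV V + 2) ^ 2 * (off ^ 2 + d ^ 2) := by
    have h1 : 2 * (cV V ^ 2 * d * R) ≤ cV V ^ 2 * (d ^ 2 + R ^ 2) := by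
      have := mul_le_mul_of_nonneg_left hdR (sq_nonneg (cV V))
      linarith
    have h2 : (2 * cV V + 2 + cV V ^ 2) * R ^ 2 ≤
        (2 * cV V + 2 + cV V ^ 2) * (2 * off ^ 2 + 2 * d ^ 2) :=
      mul_le_mul_of_nonneg_left hRsq (by positivity)
    have h3 : 0 ≤ off ^ 2 := sq_nonneg _
    have h4 : 0 ≤ d ^ 2 := sq_nonneg _
    have h5 : 0 ≤ cV V * off ^ 2 := mul_nonneg hn0 h3
    have h6 : 0 ≤ cV V * d ^ 2 := mul_nonneg hn0 h4
    have h7 : 0 ≤ cV V ^ 2 * off ^ 2 := by positivity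
    have h8 : 0 ≤ cV V ^ 2 * d ^ 2 := by positivity
    nlinarith
  have hτ1 : τ * (4 * (cV V + 2) ^ 2) ≤ 1 / 4 := by
    unfold tau0 at hτ0
    have h1 : 0 < 16 * (cV V + 2) ^ 2 := by positivity
    rw [le_div_iff₀ h1] at hτ0
    linarith
  have h5 : -(F.o2 (nR z)) ≤ τ * F.Th E c r - D := by
    have h6 := mul_le_mul_of_nonneg_left hmax hτ.le
    have h7 : τ * (-(F.o2 (nR z) / τ)) = -(F.o2 (nR z)) := by field_simp
    have h8 : τ * (F.Th E c r - D / τ) = τ * F.Th E c r - D := by field_simp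
    rwa [h7, h8] at h6
  have h6 : τ * F.Th E c r ≤ 1 / 4 * (off ^ 2 + d ^ 2) := by
    have h7 := mul_le_mul_of_nonneg_left hTh3 hτ.le
    have h8 : 0 ≤ off ^ 2 + d ^ 2 := by positivity
    have h9 := mul_le_mul_of_nonneg_right hτ1 h8
    linarith
  rw [← hoff2, ← hd2] at *
  nlinarith

theorem Flag.mx_facts (F : Flag G s k) (τ : ℝ) (hτ : 0 < τ) (hτ0 : τ ≤ tau0 V) :
    ∃ δ0 > 0, ∀ E : ℝ, |E| ≤ cV V + 2 → ∀ δx δo : ℝ, 0 ≤ δx → δx ≤ δ0 → 0 ≤ δo → δo ≤ δ0 →
      ∀ z, F.Reg δx δo z → ∀ c r, F.IsMx E τ z c r → F.MxFacts E τ z c r := by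
  obtain ⟨δ1, hδ1, c0, hc0, C, hC, hfacts⟩ := F.reg_facts
  have hn0 : 0 ≤ cV V := Nat.cast_nonneg _
  set q : ℝ := 5 * cV V + 1 / τ with hq
  have hq0 : 0 < q := by positivity
  refine ⟨min δ1 (c0 / (2 * q)), lt_min hδ1 (by positivity), ?_⟩
  intro E hE δx δo hx0 hx ho0 ho z hz c r hm
  have hF := hfacts δx δo hx0 (hx.trans (min_le_left _ _)) ho0 (ho.trans (min_le_left _ _)) z hz
  obtain ⟨htot, hzI, hapos, _, ho2, _⟩ := hz
  have hzc : ∀ v ∈ F.I, z.c v = F.σ v := fun v hv => (hzI v hv).1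
  have hcI := hm.1.1
  have hdist := b3_dist F E τ hE hτ hτ0 z hzc hF c r hm
  have hD := dsq_nonneg z.c (nR z) c r
  have hrle : Real.sqrt (F.o2 r) ≤
      Real.sqrt (F.o2 (nR z)) + Real.sqrt (dsq z.c (nR z) c r) := by
    have := F.sqrt_o2_sub_le c z.c r (nR z) hcI hzc
    rwa [dsq_comm c r] at this
  have hrge : Real.sqrt (F.o2 (nR z)) ≤
      Real.sqrt (F.o2 r) + Real.sqrt (dsq z.c (nR z) c r) :=
    F.sqrt_o2_sub_le z.c c (nR z) r hzc hcI
  have hd0 := Real.sqrt_nonneg (dsq z.c (nR z) c r)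
  have hoff0 := Real.sqrt_nonneg (F.o2 (nR z))
  have hd2 : Real.sqrt (dsq z.c (nR z) c r) ≤ 2 * Real.sqrt (F.o2 (nR z)) := by
    rw [Real.sqrt_le_iff]
    refine ⟨by positivity, ?_⟩
    rw [mul_pow, Real.sq_sqrt (F.o2_nonneg _)]
    have := F.o2_nonneg (nR z)
    linarith
  have hb : ∑ j, (F.a j r - F.a j (nR z)) ^ 2 ≤ Real.sqrt (dsq z.c (nR z) c r) ^ 2 := by
    have := F.sum_a_sub_sq_le c z.c r (nR z) hcI hzc
    rwa [dsq_comm c r, ← Real.sq_sqrt hD] at this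
  have hstat := b3_stat F E τ z c r hm
  -- neutral
  have hneutral : ∀ v, v ∉ F.I → 0 < r v → ∀ j, Lf G F.σ (c v) v (F.e j) = 0 := by
    intro v hv hrv
    rcases hF.strict v hv (c v) with h | ⟨j0, h1, _⟩
    · exact h
    exfalso
    have hst := hstat v (Or.inr hrv)
    have hz0 : ∑ j, (F.E j - E) * F.a j r * F.e j v = 0 :=
      Finset.sum_eq_zero fun j _ => by rw [F.supp j v hv, mul_zero]
    rw [hz0, sub_zero] at hst
    have hfield := F.field c r hcI v (c v)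
    have hsum : ∑ j, F.a j r * Lf G F.σ (c v) v (F.e j) =
        ∑ j, F.a j (nR z) * Lf G F.σ (c v) v (F.e j) +
          ∑ j, (F.a j r - F.a j (nR z)) * Lf G F.σ (c v) v (F.e j) := by
      rw [← Finset.sum_add_distrib]
      exact Finset.sum_congr rfl fun j _ => by ring
    have h2 := (abs_le.1 (b3_Lf_comb F (fun j => F.a j r - F.a j (nR z)) hd0 hb (c v) v)).2
    have h3 : Lf G c (c v) v (F.rho r) ≤ cV V * Real.sqrt (F.o2 r) := by
      have := (abs_le.1 (Lf_le (G := G) c (c v) v (F.rho r))).2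
      rwa [← F.o2_eq] at this
    have hA := hapos j0
    have hnv : (z.n v : ℝ) ≤ Real.sqrt (F.o2 (nR z)) := by
      have h4 : (z.n v : ℝ) = F.rho (nR z) v := by rw [F.rho_off _ v hv]; rfl
      rw [h4]
      exact (le_abs_self _).trans (Real.abs_le_sqrt (F.rho_sq_le _ v))
    have hoffA : Real.sqrt (F.o2 (nR z)) ≤ δo * F.a j0 (nR z) := by
      rw [Real.sqrt_le_iff]
      refine ⟨by positivity, ?_⟩
      rw [mul_pow]
      exact ho2 j0
    -- lower bound for the field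
    have hτinv : cV V + 2 ≤ 1 / τ := by
      unfold tau0 at hτ0
      have h5 : 0 < 16 * (cV V + 2) ^ 2 := by positivity
      rw [le_div_iff₀ h5] at hτ0
      rw [le_div_iff₀ hτ]
      nlinarith
    have hL : -(z.n v : ℝ) / τ ≤ Lf G c (c v) v r := by
      have h6 : Lf G c (c v) v r = r v * (E + 1 / τ) - eps (z.c v) (c v) * (z.n v : ℝ) / τ := by
        have : Lf G c (c v) v r = E * r v + (r v - eps (z.c v) (c v) * (z.n v : ℝ)) / τ := by
          linarith
        rw [this]; ring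
      have h7 : 0 ≤ r v * (E + 1 / τ) := by
        apply mul_nonneg hrv.le
        have := (abs_le.1 hE).1
        linarith
      have h8 : eps (z.c v) (c v) * (z.n v : ℝ) / τ ≤ (z.n v : ℝ) / τ := by
        apply div_le_div_of_nonneg_right _ hτ.le
        have := b3_eps_le (z.c v) (c v)
        have h9 : (0 : ℝ) ≤ z.n v := Nat.cast_nonneg _
        nlinarith
      rw [h6, neg_div]
      linarith
    have hnτ : (z.n v : ℝ) / τ ≤ 1 / τ * Real.sqrt (F.o2 (nR z)) := by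
      rw [div_eq_mul_one_div, mul_comm]
      exact mul_le_mul_of_nonneg_left hnv (by positivity)
    have hR3 : Real.sqrt (F.o2 r) ≤ 3 * Real.sqrt (F.o2 (nR z)) := by linarith
    have hup : Lf G c (c v) v r ≤ -(c0 * F.a j0 (nR z)) +
        5 * cV V * Real.sqrt (F.o2 (nR z)) := by
      rw [hfield, hsum]
      have h10 := mul_le_mul_of_nonneg_left hd2 hn0
      have h11 := mul_le_mul_of_nonneg_left hR3 hn0
      linarith
    have h12 : 0 ≤ -(c0 * F.a j0 (nR z)) + q * Real.sqrt (F.o2 (nR z)) := by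
      rw [neg_div] at hL
      have : q * Real.sqrt (F.o2 (nR z)) = 5 * cV V * Real.sqrt (F.o2 (nR z)) +
          1 / τ * Real.sqrt (F.o2 (nR z)) := by rw [hq]; ring
      rw [this]
      linarith
    have h13 : q * Real.sqrt (F.o2 (nR z)) ≤ q * (δo * F.a j0 (nR z)) :=
      mul_le_mul_of_nonneg_left hoffA hq0.le
    have h14 : q * δo ≤ c0 / 2 := by
      have h15 : δo ≤ c0 / (2 * q) := ho.trans (min_le_right _ _)
      have h16 := mul_le_mul_of_nonneg_left h15 hq0.le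
      have h17 : q * (c0 / (2 * q)) = c0 / 2 := by field_simp
      rwa [h17] at h16
    have h18 : q * (δo * F.a j0 (nR z)) ≤ c0 / 2 * F.a j0 (nR z) := by
      have := mul_le_mul_of_nonneg_right h14 hA.le
      linarith
    have h19 : 0 < c0 * F.a j0 (nR z) := mul_pos hc0 hA
    linarith
  have hell : ∀ j, F.ell c r j = 0 := by
    intro j
    unfold Flag.ell
    refine Finset.sum_eq_zero fun v _ => ?_
    by_cases hv : v ∈ F.I
    · rw [if_pos hv]
    · rw [if_neg hv]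
      rcases (hm.1.2 v hv).eq_or_lt with h | h
      · rw [← h, zero_mul]
      · rw [hneutral v hv h j, mul_zero]
  refine ⟨hdist, hneutral, hell, ?_, ?_, hstat, ?_, hrle, hrge⟩
  · -- a_eq
    intro j
    have h1 : ∀ v, F.e j v * (Lf G c (c v) v r - E * r v -
        ∑ i, (F.E i - E) * F.a i r * F.e i v) = F.e j v * ((r v - nR z v) / τ) := by
      intro v
      by_cases hv : v ∈ F.I
      · rw [hstat v (Or.inl hv), hzc v hv, hcI v hv, b3_eps_self, one_mul]
        rfl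
      · rw [F.supp j v hv, zero_mul, zero_mul]
    have h2 : ∑ v, F.e j v * (Lf G c (c v) v r - E * r v -
        ∑ i, (F.E i - E) * F.a i r * F.e i v) = ∑ v, F.e j v * ((r v - nR z v) / τ) :=
      Finset.sum_congr rfl fun v _ => h1 v
    have h3 : ∑ v, F.e j v * (Lf G c (c v) v r - E * r v -
        ∑ i, (F.E i - E) * F.a i r * F.e i v) =
        ∑ v, F.e j v * Lf G c (c v) v r - E * F.a j r -
          ∑ i, (F.E i - E) * F.a i r * (∑ v, F.e i v * F.e j v) := by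
      have h4 : ∑ i, (F.E i - E) * F.a i r * (∑ v, F.e i v * F.e j v) =
          ∑ v, F.e j v * ∑ i, (F.E i - E) * F.a i r * F.e i v := by
        simp only [Finset.mul_sum]
        rw [Finset.sum_comm]
        refine Finset.sum_congr rfl fun v _ => Finset.sum_congr rfl fun i _ => ?_
        ring
      rw [h4]
      unfold Flag.a
      rw [Finset.mul_sum, ← Finset.sum_sub_distrib, ← Finset.sum_sub_distrib]
      refine Finset.sum_congr rfl fun v _ => ?_
      ring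
    have h5 : ∑ i, (F.E i - E) * F.a i r * (∑ v, F.e i v * F.e j v) =
        (F.E j - E) * F.a j r := by
      simp only [F.orth]
      simp
    have h6 : ∑ v, F.e j v * ((r v - nR z v) / τ) = (F.a j r - F.a j (nR z)) / τ := by
      unfold Flag.a
      rw [← Finset.sum_sub_distrib, Finset.sum_div]
      refine Finset.sum_congr rfl fun v _ => ?_
      ring
    rw [h3, h5, b3_AA_e F c hcI r j, hell j, h6] at h2
    have h7 : (F.a j r - F.a j (nR z)) / τ = 0 := by rw [← h2]; ring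
    rcases div_eq_zero_iff.mp h7 with h8 | h8
    · linarith
    · exact absurd h8 hτ.ne'
  · -- scale
    have h1 : ∀ v, r v * (Lf G c (c v) v r - E * r v -
        ∑ i, (F.E i - E) * F.a i r * F.e i v) =
        r v * ((r v - eps (z.c v) (c v) * (z.n v : ℝ)) / τ) := by
      intro v
      by_cases hv : v ∈ F.I
      · rw [hstat v (Or.inl hv)]
      · rcases (hm.1.2 v hv).eq_or_lt with h | h
        · rw [← h, zero_mul, zero_mul]
        · rw [hstat v (Or.inr h)]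
    have h2 : ∑ v, r v * (Lf G c (c v) v r - E * r v -
        ∑ i, (F.E i - E) * F.a i r * F.e i v) =
        ∑ v, r v * ((r v - eps (z.c v) (c v) * (z.n v : ℝ)) / τ) :=
      Finset.sum_congr rfl fun v _ => h1 v
    have h3 : ∑ v, r v * (Lf G c (c v) v r - E * r v -
        ∑ i, (F.E i - E) * F.a i r * F.e i v) = F.Th E c r := by
      unfold Flag.Th
      rw [AA_eq_Lf]
      have h4 : ∑ i, (F.E i - E) * F.a i r ^ 2 =
          ∑ v, r v * ∑ i, (F.E i - E) * F.a i r * F.e i v := by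
        simp only [Finset.mul_sum]
        rw [Finset.sum_comm]
        refine Finset.sum_congr rfl fun i _ => ?_
        rw [sq]
        nth_rewrite 2 [Flag.a]
        rw [Finset.mul_sum, Finset.mul_sum]
        refine Finset.sum_congr rfl fun v _ => ?_
        ring
      rw [h4, Finset.mul_sum, ← Finset.sum_sub_distrib, ← Finset.sum_sub_distrib]
      refine Finset.sum_congr rfl fun v _ => ?_
      ring
    have h5 : τ * F.Th E c r =
        ∑ v, r v ^ 2 - ∑ v, eps (z.c v) (c v) * (z.n v : ℝ) * r v := by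
      rw [← h3, h2, ← Finset.sum_sub_distrib, Finset.mul_sum]
      refine Finset.sum_congr rfl fun v _ => ?_
      field_simp
    have h6 : dsq z.c (nR z) c r =
        qq z - 2 * ∑ v, eps (z.c v) (c v) * (z.n v : ℝ) * r v + ∑ v, r v ^ 2 := by
      unfold dsq qq
      rw [Finset.mul_sum, ← Finset.sum_sub_distrib, ← Finset.sum_add_distrib]
      refine Finset.sum_congr rfl fun v _ => ?_
      have h7 := b3_eps_sq (z.c v) (c v)
      unfold nR
      linear_combination (r v ^ 2) * h7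
    rw [F.env_eq E τ z c r hm]
    unfold Flag.val
    have h8 : 2 * τ * (F.Th E c r - dsq z.c (nR z) c r / τ) =
        2 * (τ * F.Th E c r) - 2 * dsq z.c (nR z) c r := by
      field_simp
    rw [h8, h5]
    linarith
  · -- Th_eq
    rw [F.Th_eq E c r hcI]
    simp [hell]

end UC
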