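import Pool.Agent.helper25.UC.Base

/-!
# MP_747d65_pr : multi-type urn process on a finite graph.  Definitions.

`G` is a finite graph on `V`, colours are `Fin s`.
A state `z : St V s` has `z.n v` balls at `v`, all of colour `z.c v` (the colour of an empty
urn is junk and never matters).
-/

set_option linter.unusedVariables false
set_option linter.unusedSectionVars false
set_option linter.unusedSimpArgs false

namespace UC

open Finset

variable {V : Type} [Fintype V] [DecidableEq V] {s k : ℕ}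

/-- `+1` for equal colours, `-1` for different colours. -/
def eps (a b : Fin s) : ℝ := if a = b then 1 else -1

/-- numbers of balls as real numbers -/
def nR (z : St V s) : V → ℝ := fun v => (z.n v : ℝ)

/-- sum of squares -/
def qq (z : St V s) : ℝ := ∑ v, (z.n v : ℝ) ^ 2

/-- the (continuous time) generator: every ball is selected at rate one -/
def gen (G : SimpleGraph V) [DecidableRel G.Adj] (F : St V s → ℝ) (z : St V s) : ℝ :=
  ∑ w, (z.n w : ℝ) * (F (step G z w) - F z)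

/-- number of vertices -/
def cV (V : Type) [Fintype V] : ℝ := (Fintype.card V : ℝ)

/-- the signed adjacency form of two real configurations `(c,x)` and `(c',y)` -/
def AA (G : SimpleGraph V) [DecidableRel G.Adj] (c : V → Fin s) (x : V → ℝ)
    (c' : V → Fin s) (y : V → ℝ) : ℝ :=
  ∑ u, ∑ v, if G.Adj u v then eps (c u) (c' v) * x u * y v else 0

/-- squared distance of two real configurations -/
def dsq (c : V → Fin s) (x : V → ℝ) (c' : V → Fin s) (y : V → ℝ) : ℝ :=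
  ∑ v, (x v - eps (c v) (c' v) * y v) ^ 2

/-- the signed field of `(σ,x)` felt by colour `a` at `v` -/
def Lf (G : SimpleGraph V) [DecidableRel G.Adj] (σ : V → Fin s) (a : Fin s) (v : V)
    (x : V → ℝ) : ℝ :=
  ∑ u, if G.Adj v u then eps a (σ u) * x u else 0

/-- A flag of length `k`: orthonormal balanced directions `e 0, …, e (k-1)` with rates
`E 0 ≥ … ≥ E (k-1) ≥ E 0 / 2 ≥ 0`. -/
structure Flag (G : SimpleGraph V) [DecidableRel G.Adj] (s k : ℕ) where
  I : Finset V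
  σ : V → Fin s
  e : Fin k → V → ℝ
  E : Fin k → ℝ
  supp : ∀ j, ∀ v, v ∉ I → e j v = 0
  orth : ∀ i j, ∑ v, e i v * e j v = if i = j then 1 else 0
  cover : ∀ v ∈ I, ∃ j, 0 < e j v ∧ ∀ i, i < j → e i v = 0
  eig : ∀ j, ∀ v ∈ I, Lf G σ (σ v) v (e j) = E j * e j v
  bal : ∀ v, v ∉ I → ∀ a : Fin s, (∀ j, Lf G σ a v (e j) = 0) ∨
      ∃ j, Lf G σ a v (e j) < 0 ∧ ∀ i, i < j → Lf G σ a v (e i) = 0
  anti : ∀ i j, i ≤ j → E j ≤ E i
  half : ∀ i j, E i / 2 ≤ E j
  nonneg : ∀ j, 0 ≤ E j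

variable {G : SimpleGraph V} [DecidableRel G.Adj]

namespace Flag

/-- coordinate of `r` along `e j` -/
def a (F : Flag G s k) (j : Fin k) (r : V → ℝ) : ℝ := ∑ v, r v * F.e j v

/-- squared length of the rest -/
def o2 (F : Flag G s k) (r : V → ℝ) : ℝ := ∑ v, r v ^ 2 - ∑ j, F.a j r ^ 2

/-- the rest -/
def rho (F : Flag G s k) (r : V → ℝ) : V → ℝ := fun v => r v - ∑ j, F.a j r * F.e j v

/-- the drift of `a j` caused by the balls outside `I` -/
def ell (F : Flag G s k) (c : V → Fin s) (r : V → ℝ) (j : Fin k) : ℝ :=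
  ∑ v, if v ∈ F.I then 0 else r v * Lf G F.σ (c v) v (F.e j)

/-- the strictness sum `S = - ∑ a_j ell_j` -/
def S (F : Flag G s k) (c : V → Fin s) (r : V → ℝ) : ℝ := - ∑ j, F.a j r * F.ell c r j

/-- `Th F E c r = Q(r) - E |r|² - ∑ (E_j - E) a_j(r)²` -/
def Th (F : Flag G s k) (E : ℝ) (c : V → Fin s) (r : V → ℝ) : ℝ :=
  AA G c r c r - E * ∑ v, r v ^ 2 - ∑ j, (F.E j - E) * F.a j r ^ 2

/-- admissible real configurations: colour `σ` on `I` (real values), nonnegative off `I` -/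
def Adm (F : Flag G s k) (c : V → Fin s) (r : V → ℝ) : Prop :=
  (∀ v ∈ F.I, c v = F.σ v) ∧ ∀ v, v ∉ F.I → 0 ≤ r v

/-- the quantity which is maximised in the envelope -/
noncomputable def val (F : Flag G s k) (E τ : ℝ) (z : St V s) (c : V → Fin s) (r : V → ℝ) : ℝ :=
  F.Th E c r - dsq z.c (nR z) c r / τ

/-- the envelope `max_{(c,r) admissible} Th(c,r) - dist²(z,(c,r))/τ` -/
noncomputable def env (F : Flag G s k) (E τ : ℝ) (z : St V s) : ℝ :=
  sSup {t | ∃ c r, F.Adm c r ∧ t = F.val E τ z c r}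

/-- `(c,r)` is a maximiser for `z` -/
def IsMx (F : Flag G s k) (E τ : ℝ) (z : St V s) (c : V → Fin s) (r : V → ℝ) : Prop :=
  F.Adm c r ∧ ∀ c' r', F.Adm c' r' → F.val E τ z c' r' ≤ F.val E τ z c r

/-- the region where `z` follows the flag:
`c = σ` and `n ≥ 1` on `I`, `a_j > 0`, `a_j ≤ δx a_i` for `i < j`, `o2 ≤ δo² a_j²`,
`tot ≤ δx² a_j²`. -/
def Reg (F : Flag G s k) (δx δo : ℝ) (z : St V s) : Prop :=
  1 ≤ tot z ∧ (∀ v ∈ F.I, z.c v = F.σ v ∧ 1 ≤ z.n v) ∧ (∀ j, 0 < F.a j (nR z)) ∧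
  (∀ i j, i < j → F.a j (nR z) ≤ δx * F.a i (nR z)) ∧
  (∀ j, F.o2 (nR z) ≤ δo ^ 2 * F.a j (nR z) ^ 2) ∧
  (∀ j, tot z ≤ δx ^ 2 * F.a j (nR z) ^ 2)

end Flag

/-- the properties of `f = 1 - P(at least two colours survive)` which are used,
in the case that coexistence is possible. -/
structure BadF (G : SimpleGraph V) [DecidableRel G.Adj] {s : ℕ} (f : St V s → ℝ) : Prop where
  nonneg : ∀ z, 0 ≤ f z
  le_one : ∀ z, f z ≤ 1
  harm : ∀ z, gen G f z = 0
  pos : ∀ Q : ℝ, ∃ c > 0, ∀ z, 1 ≤ tot z → qq z ≤ Q → c ≤ f z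
  mono : ∀ z, 1 ≤ tot z → (∀ u v, 1 ≤ z.n u → 1 ≤ z.n v → z.c u = z.c v) → f z = 1
  bad : ∀ ε > 0, ∃ z, 1 ≤ tot z ∧ f z < ε

/-- The flag is reached by bad points. -/
def Reach (F : Flag G s k) (f : St V s → ℝ) : Prop :=
  ∀ δ > 0, ∀ ε > 0, ∃ z, F.Reg δ δ z ∧ f z < ε

/-- There are bad points near the flag, with large rest, with `env^E ≥ 0`. -/
def Ext (F : Flag G s k) (τ : ℝ) (f : St V s → ℝ) (E : ℝ) : Prop :=
  ∀ δ > 0, ∀ ε > 0, ∀ K > 0, ∃ z, F.Reg δ δ z ∧ f z < ε ∧ K * tot z ≤ F.o2 (nR z) ∧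
    0 ≤ F.env E τ z

/-- There are bad points near the flag whose rest is of the size of the noise. -/
def Terminal (F : Flag G s k) (f : St V s → ℝ) : Prop :=
  ∃ K : ℝ, ∀ δ > 0, ∀ ε > 0, ∃ z, F.Reg δ δ z ∧ f z < ε ∧ F.o2 (nR z) ≤ K * tot z

/-- No bad points near the flag with `env^{E_last} ≥ δ1 a_last²`. -/
def Inv (F : Flag G s (k + 1)) (τ : ℝ) (f : St V s → ℝ) : Prop :=
  ∃ δo > 0, ∀ δ1 > 0, ∃ δx > 0, ∃ ε > 0, ∀ z, F.Reg δx δo z →
    δ1 * F.a (Fin.last k) (nR z) ^ 2 ≤ F.env (F.E (Fin.last k)) τ z → ε ≤ f z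

/-- the bound for `τ` -/
noncomputable def tau0 (V : Type) [Fintype V] : ℝ := 1 / (16 * (cV V + 2) ^ 2)

end UC
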