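import Pool.Agent.helper25.UC.Base
import Pool.Agent.helper25.UC.Defs

/-!
# The process and the class `G_s`: see `Base`.
-/
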