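import Pool.Agent.helper25.UC.A2

/-!
# A3 : linear algebra of a flag
-/

namespace UC
open Finset
variable {V : Type} [Fintype V] [DecidableEq V] {s k : ℕ}
variable {G : SimpleGraph V} [DecidableRel G.Adj]

theorem Flag.a_add (F : Flag G s k) (j : Fin k) (x y : V → ℝ) :
    F.a j (fun v => x v + y v) = F.a j x + F.a j y := by
  simp only [Flag.a, add_mul, Finset.sum_add_distrib]

theorem Flag.a_smul (F : Flag G s k) (j : Fin k) (t : ℝ) (x : V → ℝ) :
    F.a j (fun v => t * x v) = t * F.a j x := by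
  simp only [Flag.a, mul_assoc, Finset.mul_sum]

theorem Flag.a_sub (F : Flag G s k) (j : Fin k) (x y : V → ℝ) :
    F.a j (fun v => x v - y v) = F.a j x - F.a j y := by
  simp only [Flag.a, sub_mul, Finset.sum_sub_distrib]

/-- coordinates of a combination of the `e j` -/
theorem Flag.a_lin (F : Flag G s k) (t : Fin k → ℝ) (i : Fin k) :
    F.a i (fun v => ∑ j, t j * F.e j v) = t i := by
  have h1 : F.a i (fun v => ∑ j, t j * F.e j v) = ∑ j, t j * ∑ v, F.e j v * F.e i v := by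
    unfold Flag.a
    simp only [Finset.sum_mul, Finset.mul_sum]
    rw [Finset.sum_comm]
    refine Finset.sum_congr rfl fun j _ => Finset.sum_congr rfl fun v _ => ?_
    ring
  rw [h1]
  simp only [F.orth, mul_ite, mul_one, mul_zero]
  simp

/-- squared length of a combination of the `e j` -/
theorem Flag.sq_lin (F : Flag G s k) (t : Fin k → ℝ) :
    ∑ v, (∑ j, t j * F.e j v) ^ 2 = ∑ j, t j ^ 2 := by
  have h1 : ∑ v, (∑ j, t j * F.e j v) ^ 2 =
      ∑ i, t i * F.a i (fun v => ∑ j, t j * F.e j v) := by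
    unfold Flag.a
    simp only [Finset.mul_sum]
    rw [Finset.sum_comm]
    refine Finset.sum_congr rfl fun v _ => ?_
    rw [sq, Finset.mul_sum]
    refine Finset.sum_congr rfl fun j _ => ?_
    ring
  rw [h1]
  refine Finset.sum_congr rfl fun i _ => ?_
  rw [F.a_lin, sq]

theorem Flag.mul_lin (F : Flag G s k) (t : Fin k → ℝ) (r : V → ℝ) :
    ∑ v, r v * ∑ j, t j * F.e j v = ∑ j, t j * F.a j r := by
  unfold Flag.a
  simp only [Finset.mul_sum]
  rw [Finset.sum_comm]
  refine Finset.sum_congr rfl fun j _ => Finset.sum_congr rfl fun v _ => ?_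
  ring

theorem Flag.o2_eq (F : Flag G s k) (r : V → ℝ) : F.o2 r = ∑ v, F.rho r v ^ 2 := by
  have h1 : ∑ v, F.rho r v ^ 2 = ∑ v, r v ^ 2 - 2 * ∑ v, r v * ∑ j, F.a j r * F.e j v +
      ∑ v, (∑ j, F.a j r * F.e j v) ^ 2 := by
    rw [Finset.mul_sum, ← Finset.sum_sub_distrib, ← Finset.sum_add_distrib]
    refine Finset.sum_congr rfl fun v _ => ?_
    unfold Flag.rho
    ring
  rw [h1, F.sq_lin, F.mul_lin]
  unfold Flag.o2
  have h2 : ∑ j, F.a j r * F.a j r = ∑ j, F.a j r ^ 2 :=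
    Finset.sum_congr rfl fun j _ => by ring
  rw [h2]
  ring

theorem Flag.o2_nonneg (F : Flag G s k) (r : V → ℝ) : 0 ≤ F.o2 r := by
  rw [F.o2_eq]
  exact Finset.sum_nonneg fun v _ => sq_nonneg _

theorem Flag.bessel (F : Flag G s k) (r : V → ℝ) : ∑ j, F.a j r ^ 2 ≤ ∑ v, r v ^ 2 := by
  have h := F.o2_nonneg r
  unfold Flag.o2 at h
  linarith

theorem Flag.a_sq_le (F : Flag G s k) (j : Fin k) (r : V → ℝ) : F.a j r ^ 2 ≤ ∑ v, r v ^ 2 :=
  (Finset.single_le_sum (f := fun j => F.a j r ^ 2) (fun i _ => sq_nonneg _)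
    (Finset.mem_univ j)).trans (F.bessel r)

theorem Flag.o2_le (F : Flag G s k) (r : V → ℝ) : F.o2 r ≤ ∑ v, r v ^ 2 := by
  have h : 0 ≤ ∑ j, F.a j r ^ 2 := Finset.sum_nonneg fun j _ => sq_nonneg _
  unfold Flag.o2
  linarith

theorem Flag.rho_sq_le (F : Flag G s k) (r : V → ℝ) (v : V) : F.rho r v ^ 2 ≤ F.o2 r := by
  rw [F.o2_eq]
  exact Finset.single_le_sum (f := fun v => F.rho r v ^ 2) (fun i _ => sq_nonneg _)
    (Finset.mem_univ v)

theorem Flag.a_rho (F : Flag G s k) (j : Fin k) (r : V → ℝ) : F.a j (F.rho r) = 0 := by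
  have h1 : F.a j (F.rho r) = F.a j r - F.a j (fun v => ∑ i, F.a i r * F.e i v) := by
    rw [← F.a_sub]
    rfl
  rw [h1, F.a_lin (fun i => F.a i r), sub_self]

theorem Flag.lin_off (F : Flag G s k) (t : Fin k → ℝ) (v : V) (hv : v ∉ F.I) :
    ∑ j, t j * F.e j v = 0 :=
  Finset.sum_eq_zero fun j _ => by rw [F.supp j v hv, mul_zero]

theorem Flag.rho_off (F : Flag G s k) (r : V → ℝ) (v : V) (hv : v ∉ F.I) : F.rho r v = r v := by
  unfold Flag.rho
  rw [F.lin_off (fun j => F.a j r) v hv, sub_zero]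

theorem Flag.norm_e (F : Flag G s k) (j : Fin k) : ∑ v, F.e j v ^ 2 = 1 := by
  have h := F.orth j j
  rw [if_pos rfl] at h
  rw [← h]
  exact Finset.sum_congr rfl fun v _ => sq _

theorem Flag.e_abs_le (F : Flag G s k) (j : Fin k) (v : V) : |F.e j v| ≤ 1 := by
  have h : F.e j v ^ 2 ≤ 1 := by
    rw [← F.norm_e j]
    exact Finset.single_le_sum (f := fun v => F.e j v ^ 2) (fun i _ => sq_nonneg _)
      (Finset.mem_univ v)
  exact abs_le_one_iff_mul_self_le_one.2 (by rw [← sq]; exact h)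

theorem Flag.Lf_e_abs_le (F : Flag G s k) (j : Fin k) (b : Fin s) (v : V) :
    |Lf G F.σ b v (F.e j)| ≤ cV V := by
  have h := Lf_le (G := G) F.σ b v (F.e j)
  rw [F.norm_e j, Real.sqrt_one, mul_one] at h
  exact h

theorem Flag.AA_e_self (F : Flag G s k) (j : Fin k) :
    AA G F.σ (F.e j) F.σ (F.e j) = F.E j := by
  rw [AA_eq_Lf]
  have h1 : ∀ v ∈ (Finset.univ : Finset V), F.e j v * Lf G F.σ (F.σ v) v (F.e j) =
      F.E j * F.e j v ^ 2 := by
    intro v _
    by_cases hv : v ∈ F.I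
    · rw [F.eig j v hv]
      ring
    · rw [F.supp j v hv]
      ring
  rw [Finset.sum_congr rfl h1, ← Finset.mul_sum, F.norm_e, mul_one]

theorem Flag.E_le (F : Flag G s k) (j : Fin k) : F.E j ≤ cV V := by
  have h := AA_self_le (G := G) F.σ (F.e j)
  rw [F.AA_e_self, F.norm_e, mul_one] at h
  exact (le_abs_self _).trans h

theorem Flag.k_le (F : Flag G s k) : (k : ℝ) ≤ cV V := by
  have h1 : (k : ℝ) = ∑ j : Fin k, ∑ v, F.e j v ^ 2 := by
    simp only [F.norm_e]
    simp
  have h2 : ∀ v : V, ∑ j, F.e j v ^ 2 ≤ 1 := by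
    intro v
    have h3 := F.bessel (fun u => if u = v then 1 else 0)
    have h4 : ∀ j, F.a j (fun u => if u = v then (1 : ℝ) else 0) = F.e j v := by
      intro j
      unfold Flag.a
      simp
    simp only [h4] at h3
    refine h3.trans ?_
    simp
  rw [h1, Finset.sum_comm]
  calc ∑ v, ∑ j, F.e j v ^ 2 ≤ ∑ _v : V, (1 : ℝ) := Finset.sum_le_sum fun v _ => h2 v
    _ = cV V := by simp [cV]

theorem Flag.Lf_congr (F : Flag G s k) (c : V → Fin s) (hc : ∀ v ∈ F.I, c v = F.σ v)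
    (b : Fin s) (v : V) (j : Fin k) : Lf G c b v (F.e j) = Lf G F.σ b v (F.e j) := by
  unfold Lf
  refine Finset.sum_congr rfl fun u _ => ?_
  by_cases hu : u ∈ F.I
  · rw [hc u hu]
  · rw [F.supp j u hu]
    simp

/-- the form against a direction of the flag -/
theorem Flag.AA_e (F : Flag G s k) (c : V → Fin s) (x : V → ℝ)
    (hc : ∀ v ∈ F.I, c v = F.σ v) (j : Fin k) :
    AA G c x c (F.e j) = F.E j * F.a j x + F.ell c x j := by
  rw [AA_eq_Lf]
  unfold Flag.a Flag.ell
  rw [Finset.mul_sum, ← Finset.sum_add_distrib]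
  refine Finset.sum_congr rfl fun v _ => ?_
  rw [F.Lf_congr c hc]
  by_cases hv : v ∈ F.I
  · rw [if_pos hv, hc v hv, F.eig j v hv]
    ring
  · rw [if_neg hv, F.supp j v hv]
    ring

theorem Flag.AA_lin (F : Flag G s k) (c : V → Fin s) (x : V → ℝ) (t : Fin k → ℝ) :
    AA G c x c (fun v => ∑ j, t j * F.e j v) = ∑ j, t j * AA G c x c (F.e j) := by
  simp only [AA_eq_Lf, Lf_sum, Finset.mul_sum]
  rw [Finset.sum_comm]
  refine Finset.sum_congr rfl fun j _ => Finset.sum_congr rfl fun v _ => ?_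
  ring

theorem AA_add_right' (c : V → Fin s) (x y z : V → ℝ) :
    AA G c x c (fun v => y v + z v) = AA G c x c y + AA G c x c z := by
  simp only [AA_eq_Lf, Lf_add, mul_add, Finset.sum_add_distrib]

theorem AA_add_left' (c : V → Fin s) (x y z : V → ℝ) :
    AA G c (fun v => y v + z v) c x = AA G c y c x + AA G c z c x := by
  rw [AA_symm, AA_add_right', AA_symm c x c y, AA_symm c x c z]

theorem Flag.ell_lin (F : Flag G s k) (c : V → Fin s) (t : Fin k → ℝ) (i : Fin k) :
    F.ell c (fun v => ∑ j, t j * F.e j v) i = 0 := by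
  unfold Flag.ell
  refine Finset.sum_eq_zero fun v _ => ?_
  split_ifs with hv
  · rfl
  · show (∑ j, t j * F.e j v) * _ = 0
    rw [F.lin_off t v hv, zero_mul]

theorem Flag.split (F : Flag G s k) (r : V → ℝ) :
    r = fun v => (∑ j, F.a j r * F.e j v) + F.rho r v := by
  funext v
  unfold Flag.rho
  ring

theorem Flag.AA_decomp (F : Flag G s k) (c : V → Fin s) (r : V → ℝ)
    (hc : ∀ v ∈ F.I, c v = F.σ v) :
    AA G c r c r = ∑ j, F.E j * F.a j r ^ 2 + 2 * ∑ j, F.a j r * F.ell c r j +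
      AA G c (F.rho r) c (F.rho r) := by
  set p : V → ℝ := fun v => ∑ j, F.a j r * F.e j v with hp
  have hrp : AA G c r c p = ∑ j, F.a j r * (F.E j * F.a j r + F.ell c r j) := by
    rw [hp, F.AA_lin]
    exact Finset.sum_congr rfl fun j _ => by rw [F.AA_e c r hc]
  have hpp : AA G c p c p = ∑ j, F.E j * F.a j r ^ 2 := by
    have h1 : AA G c p c p = ∑ j, F.a j r * (F.E j * F.a j p + F.ell c p j) := by
      conv_lhs => rw [hp, F.AA_lin]
      exact Finset.sum_congr rfl fun j _ => by rw [← hp, F.AA_e c p hc]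
    rw [h1]
    refine Finset.sum_congr rfl fun j _ => ?_
    have h2 : F.a j p = F.a j r := F.a_lin (fun j => F.a j r) j
    have h3 : F.ell c p j = 0 := F.ell_lin c (fun j => F.a j r) j
    rw [h2, h3]
    ring
  have hr : r = fun v => p v + F.rho r v := F.split r
  have e1 : AA G c r c r = AA G c r c p + AA G c r c (F.rho r) := by
    conv_lhs => rw [hr]
    rw [AA_add_right' c _ p (F.rho r), ← hr]
  have e2 : AA G c r c (F.rho r) = AA G c p c (F.rho r) + AA G c (F.rho r) c (F.rho r) := by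
    conv_lhs => rw [hr]
    rw [AA_add_left' c _ p (F.rho r), ← hr]
  have e3 : AA G c r c p = AA G c p c p + AA G c p c (F.rho r) := by
    conv_lhs => rw [hr]
    rw [AA_add_left' c _ p (F.rho r), AA_symm c (F.rho r) c p]
  have e4 : ∑ j, F.a j r * (F.E j * F.a j r + F.ell c r j) =
      ∑ j, F.E j * F.a j r ^ 2 + ∑ j, F.a j r * F.ell c r j := by
    rw [← Finset.sum_add_distrib]
    exact Finset.sum_congr rfl fun j _ => by ring
  rw [e4] at hrp
  linarith

theorem Flag.Th_eq (F : Flag G s k) (E : ℝ) (c : V → Fin s) (r : V → ℝ)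
    (hc : ∀ v ∈ F.I, c v = F.σ v) :
    F.Th E c r = AA G c (F.rho r) c (F.rho r) - E * F.o2 r + 2 * ∑ j, F.a j r * F.ell c r j := by
  unfold Flag.Th Flag.o2
  rw [F.AA_decomp c r hc]
  simp only [sub_mul, Finset.sum_sub_distrib, ← Finset.mul_sum]
  ring

theorem Flag.Th_mono (F : Flag G s k) (E E' : ℝ) (c : V → Fin s) (r : V → ℝ) :
    F.Th E c r = F.Th E' c r + (E' - E) * F.o2 r := by
  unfold Flag.Th Flag.o2
  simp only [sub_mul, Finset.sum_sub_distrib, ← Finset.mul_sum]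
  ring

/-- the field at any vertex, any colour -/
theorem Flag.field (F : Flag G s k) (c : V → Fin s) (r : V → ℝ)
    (hc : ∀ v ∈ F.I, c v = F.σ v) (v : V) (b : Fin s) :
    Lf G c b v r = ∑ j, F.a j r * Lf G F.σ b v (F.e j) + Lf G c b v (F.rho r) := by
  conv_lhs => rw [F.split r]
  rw [Lf_add, Lf_sum]
  congr 1
  exact Finset.sum_congr rfl fun j _ => by rw [F.Lf_congr c hc]

/-- the field at a vertex of `I` -/
theorem Flag.field_in (F : Flag G s k) (c : V → Fin s) (r : V → ℝ)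
    (hc : ∀ v ∈ F.I, c v = F.σ v) (v : V) (hv : v ∈ F.I) :
    Lf G c (c v) v r = ∑ j, F.E j * F.a j r * F.e j v + Lf G c (c v) v (F.rho r) := by
  rw [F.field c r hc v (c v)]
  congr 1
  refine Finset.sum_congr rfl fun j _ => ?_
  rw [hc v hv, F.eig j v hv]
  ring

theorem Flag.ell_abs_le (F : Flag G s k) (c : V → Fin s) (r : V → ℝ) (j : Fin k) :
    |F.ell c r j| ≤ cV V ^ 2 * Real.sqrt (F.o2 r) := by
  have hcV : 0 ≤ cV V := by
    unfold cV
    positivity
  unfold Flag.ell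
  refine (Finset.abs_sum_le_sum_abs _ _).trans ?_
  have h1 : ∀ v ∈ (Finset.univ : Finset V),
      |if v ∈ F.I then 0 else r v * Lf G F.σ (c v) v (F.e j)| ≤
        Real.sqrt (F.o2 r) * cV V := by
    intro v _
    split_ifs with hv
    · rw [abs_zero]
      exact mul_nonneg (Real.sqrt_nonneg _) hcV
    · rw [abs_mul]
      refine mul_le_mul ?_ (F.Lf_e_abs_le j (c v) v) (abs_nonneg _) (Real.sqrt_nonneg _)
      rw [← F.rho_off r v hv]
      exact Real.abs_le_sqrt (F.rho_sq_le r v)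
  refine (Finset.sum_le_sum h1).trans (le_of_eq ?_)
  rw [Finset.sum_const, Finset.card_univ, nsmul_eq_mul]
  unfold cV
  ring

/-- the difference on `I` -/
noncomputable def Flag.dI (F : Flag G s k) (r r' : V → ℝ) : V → ℝ :=
  fun v => if v ∈ F.I then r v - r' v else 0

theorem Flag.a_dI (F : Flag G s k) (r r' : V → ℝ) (j : Fin k) :
    F.a j (F.dI r r') = F.a j r - F.a j r' := by
  rw [← F.a_sub]
  unfold Flag.a Flag.dI
  refine Finset.sum_congr rfl fun v _ => ?_
  by_cases hv : v ∈ F.I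
  · rw [if_pos hv]
  · rw [F.supp j v hv]
    ring

theorem Flag.term_in (F : Flag G s k) (c c' : V → Fin s) (r r' : V → ℝ)
    (hc : ∀ v ∈ F.I, c v = F.σ v) (hc' : ∀ v ∈ F.I, c' v = F.σ v) (v : V) (hv : v ∈ F.I) :
    r v - eps (c v) (c' v) * r' v = r v - r' v := by
  rw [hc v hv, hc' v hv]
  unfold eps
  rw [if_pos rfl, one_mul]

theorem Flag.sum_a_sub_sq_le (F : Flag G s k) (c c' : V → Fin s) (r r' : V → ℝ)
    (hc : ∀ v ∈ F.I, c v = F.σ v) (hc' : ∀ v ∈ F.I, c' v = F.σ v) :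
    ∑ j, (F.a j r - F.a j r') ^ 2 ≤ dsq c r c' r' := by
  have h := F.bessel (F.dI r r')
  simp only [F.a_dI] at h
  refine h.trans ?_
  unfold dsq
  refine Finset.sum_le_sum fun v _ => ?_
  by_cases hv : v ∈ F.I
  · rw [F.term_in c c' r r' hc hc' v hv]
    unfold Flag.dI
    rw [if_pos hv]
  · unfold Flag.dI
    rw [if_neg hv]
    rw [zero_pow (by norm_num)]
    exact sq_nonneg _

/-- if two admissible configurations, then `|a_j - a'_j| ≤ dist` and
`|√o2 - √o2'| ≤ dist`. -/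
theorem Flag.a_sub_le (F : Flag G s k) (c c' : V → Fin s) (r r' : V → ℝ)
    (hc : ∀ v ∈ F.I, c v = F.σ v) (hc' : ∀ v ∈ F.I, c' v = F.σ v) (j : Fin k) :
    |F.a j r - F.a j r'| ≤ Real.sqrt (dsq c r c' r') := by
  refine Real.abs_le_sqrt ?_
  exact (Finset.single_le_sum (f := fun j => (F.a j r - F.a j r') ^ 2)
    (fun i _ => sq_nonneg _) (Finset.mem_univ j)).trans
    (F.sum_a_sub_sq_le c c' r r' hc hc')

theorem Flag.sqrt_o2_sub_le (F : Flag G s k) (c c' : V → Fin s) (r r' : V → ℝ)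
    (hc : ∀ v ∈ F.I, c v = F.σ v) (hc' : ∀ v ∈ F.I, c' v = F.σ v) :
    Real.sqrt (F.o2 r) ≤ Real.sqrt (F.o2 r') + Real.sqrt (dsq c r c' r') := by
  set u := F.dI r r' with hu
  set δ : V → ℝ := fun v => if v ∈ F.I then |F.rho u v| else |r v - eps (c v) (c' v) * r' v|
    with hδ
  have hδ0 : ∀ v, 0 ≤ δ v := by
    intro v
    rw [hδ]
    dsimp only
    split_ifs
    · exact abs_nonneg _
    · exact abs_nonneg _
  -- pointwise inequality
  have h1 : ∀ v, |F.rho r v| ≤ |F.rho r' v| + δ v := by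
    intro v
    by_cases hv : v ∈ F.I
    · have h2 : F.rho r v = F.rho r' v + F.rho u v := by
        unfold Flag.rho
        rw [hu]
        simp only [F.a_dI]
        unfold Flag.dI
        rw [if_pos hv]
        have h3 : ∑ j, (F.a j r - F.a j r') * F.e j v =
            ∑ j, F.a j r * F.e j v - ∑ j, F.a j r' * F.e j v := by
          rw [← Finset.sum_sub_distrib]
          exact Finset.sum_congr rfl fun j _ => by ring
        rw [h3]
        ring
      rw [hδ]
      dsimp only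
      rw [if_pos hv, h2]
      exact abs_add_le _ _
    · rw [F.rho_off r v hv, F.rho_off r' v hv, hδ]
      dsimp only
      rw [if_neg hv]
      have h2 : |eps (c v) (c' v) * r' v| = |r' v| := by
        unfold eps
        split_ifs
        · rw [one_mul]
        · rw [neg_one_mul, abs_neg]
      calc |r v| = |eps (c v) (c' v) * r' v + (r v - eps (c v) (c' v) * r' v)| := by
            congr 1
            ring
        _ ≤ |eps (c v) (c' v) * r' v| + |r v - eps (c v) (c' v) * r' v| := abs_add_le _ _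
        _ = |r' v| + |r v - eps (c v) (c' v) * r' v| := by rw [h2]
  -- the sum of the squares of δ
  have h2 : ∑ v, δ v ^ 2 ≤ dsq c r c' r' := by
    have h3 : ∑ v, δ v ^ 2 = ∑ v, F.rho u v ^ 2 +
        ∑ v, (if v ∈ F.I then 0 else (r v - eps (c v) (c' v) * r' v) ^ 2) := by
      rw [← Finset.sum_add_distrib]
      refine Finset.sum_congr rfl fun v _ => ?_
      rw [hδ]
      dsimp only
      by_cases hv : v ∈ F.I
      · rw [if_pos hv, if_pos hv, sq_abs, add_zero]
      · rw [if_neg hv, if_neg hv, sq_abs, F.rho_off u v hv, hu]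
        unfold Flag.dI
        rw [if_neg hv]
        ring
    have h4 : ∑ v, F.rho u v ^ 2 ≤ ∑ v, u v ^ 2 := by
      rw [← F.o2_eq]
      exact F.o2_le u
    have h5 : dsq c r c' r' = ∑ v, u v ^ 2 +
        ∑ v, (if v ∈ F.I then 0 else (r v - eps (c v) (c' v) * r' v) ^ 2) := by
      unfold dsq
      rw [← Finset.sum_add_distrib]
      refine Finset.sum_congr rfl fun v _ => ?_
      by_cases hv : v ∈ F.I
      · rw [if_pos hv, F.term_in c c' r r' hc hc' v hv, hu]
        unfold Flag.dI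
        rw [if_pos hv, add_zero]
      · rw [if_neg hv, hu]
        unfold Flag.dI
        rw [if_neg hv]
        ring
    rw [h3, h5]
    linarith
  -- Minkowski
  have h3 : F.o2 r ≤ ∑ v, (|F.rho r' v| + δ v) ^ 2 := by
    rw [F.o2_eq]
    refine Finset.sum_le_sum fun v _ => ?_
    rw [← sq_abs (F.rho r v)]
    exact pow_le_pow_left₀ (abs_nonneg _) (h1 v) 2
  have h4 : ∑ v, (|F.rho r' v| + δ v) ^ 2 =
      F.o2 r' + 2 * ∑ v, |F.rho r' v| * δ v + ∑ v, δ v ^ 2 := by
    rw [F.o2_eq, Finset.mul_sum, ← Finset.sum_add_distrib, ← Finset.sum_add_distrib]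
    refine Finset.sum_congr rfl fun v _ => ?_
    rw [← sq_abs (F.rho r' v)]
    ring
  have h5 : ∑ v, |F.rho r' v| * δ v ≤ Real.sqrt (F.o2 r') * Real.sqrt (∑ v, δ v ^ 2) := by
    have h6 := Real.sum_mul_le_sqrt_mul_sqrt Finset.univ (fun v => |F.rho r' v|) δ
    have h7 : ∑ v, |F.rho r' v| ^ 2 = F.o2 r' := by
      rw [F.o2_eq]
      exact Finset.sum_congr rfl fun v _ => sq_abs _
    rw [h7] at h6
    exact h6
  have h6 : Real.sqrt (∑ v, δ v ^ 2) ≤ Real.sqrt (dsq c r c' r') := Real.sqrt_le_sqrt h2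
  have hd : 0 ≤ dsq c r c' r' := dsq_nonneg _ _ _ _
  have ho : 0 ≤ F.o2 r' := F.o2_nonneg r'
  have h7 : Real.sqrt (F.o2 r') * Real.sqrt (∑ v, δ v ^ 2) ≤
      Real.sqrt (F.o2 r') * Real.sqrt (dsq c r c' r') :=
    mul_le_mul_of_nonneg_left h6 (Real.sqrt_nonneg _)
  rw [Real.sqrt_le_left (add_nonneg (Real.sqrt_nonneg _) (Real.sqrt_nonneg _)), add_sq,
    Real.sq_sqrt ho, Real.sq_sqrt hd]
  linarith

end UC
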