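import Pool.Agent.helper25.UC.Defs

/-!
# A1 : how the squared distance changes in one step

For a neighbour `u` of the selected vertex `w` put `Δ_u` = change of the `u`-th term
`(n_u - ε(c_u,c'_u) r_u)²` of `dsq`.  Other vertices do not change.

* `n_u = 0`: the urn becomes `(1, c_w)`.  Old term `r_u²` (since `n_u = 0`), new term
  `(1 - ε(c_w,c'_u) r_u)² = 1 - 2 ε(c_w,c'_u) r_u + r_u²`.  So `Δ_u = 1 - 2ε(c_w,c'_u) r_u`, equal
  to the term on the right of `step_dsq_le`.
* `n_u ≥ 1`, `c_u = c_w`: `n_u ↦ n_u + 1`, colour kept, `Δ_u = 2(n_u - ε(c_u,c'_u) r_u) + 1`, equal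
  to the term on the right.
* `n_u ≥ 1`, `c_u ≠ c_w`: `n_u ↦ n_u - 1`, colour kept,
  `Δ_u = -2(n_u - ε(c_u,c'_u) r_u) + 1`; the term on the right is `-2 n_u + 1 - 2ε(c_w,c'_u) r_u`;
  right - `Δ_u` = `-2 (ε(c_w,c'_u) + ε(c_u,c'_u)) r_u`; as `c_u ≠ c_w` the bracket is `0` or `-2`;
  it is `0` when `c'_u = c_u`; so right - `Δ_u ≥ 0` if `r_u ≥ 0` or `c_u = c'_u`.

`step_dsq_abs`: in all three cases `|Δ_u| ≤ 2 |n_u - ε r_u| + 1 ≤ 2 √dsq + 1`, and there are at
most `card V` neighbours.

`step_weight`: pure summation: `∑_w n_w ∑_{u ~ w} (2 ε(c_u,c_w) n_u) = 2 AA(z,z)`,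
`∑_w n_w ∑_{u~w} 1 = ∑_w n_w deg w ≤ card V * tot`, and
`∑_w n_w ∑_{u~w} 2 ε(c_w,c'_u) r_u = 2 AA(z,(c',r))`.

`gen_qq`: take `r = 0` (equality in all cases): `q(z^w) - q(z) = ∑_{u~w} (2ε(c_u,c_w) n_u + 1)`.
-/

namespace UC
open Finset
variable {V : Type} [Fintype V] [DecidableEq V] {s k : ℕ}
variable {G : SimpleGraph V} [DecidableRel G.Adj]

theorem A1_eps_sq (a b : Fin s) : eps a b * eps a b = 1 := by
  unfold eps
  split_ifs <;> norm_num

theorem A1_eps_comm (a b : Fin s) : eps a b = eps b a := by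
  unfold eps
  by_cases h : a = b
  · rw [if_pos h, if_pos h.symm]
  · rw [if_neg h, if_neg fun e => h e.symm]

theorem A1_eps_abs (a b : Fin s) : |eps a b| = 1 := by
  unfold eps
  split_ifs <;> norm_num

theorem A1_not (z : St V s) (w u : V) (h : ¬ G.Adj w u) :
    (step G z w).n u = z.n u ∧ (step G z w).c u = z.c u := by
  unfold step
  simp [h]

theorem A1_zero (z : St V s) (w u : V) (h : G.Adj w u) (h0 : z.n u = 0) :
    (step G z w).n u = 1 ∧ (step G z w).c u = z.c w := by
  unfold step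
  simp [h, h0]

theorem A1_same (z : St V s) (w u : V) (h : G.Adj w u) (h0 : z.n u ≠ 0) (hc : z.c u = z.c w) :
    (step G z w).n u = z.n u + 1 ∧ (step G z w).c u = z.c u := by
  unfold step
  simp [h, h0, hc]

theorem A1_diff (z : St V s) (w u : V) (h : G.Adj w u) (h0 : z.n u ≠ 0) (hc : z.c u ≠ z.c w) :
    (step G z w).n u = z.n u - 1 ∧ (step G z w).c u = z.c u := by
  unfold step
  simp [h, h0, hc]

theorem A1_diff' (z : St V s) (w u : V) (h : G.Adj w u) (h0 : z.n u ≠ 0) (hc : z.c u ≠ z.c w) :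
    ((step G z w).n u : ℝ) = (z.n u : ℝ) - 1 := by
  rw [(A1_diff z w u h h0 hc).1]
  have h1 : 1 ≤ z.n u := Nat.one_le_iff_ne_zero.2 h0
  push_cast [Nat.cast_sub h1]
  ring

theorem A1_term_le (z : St V s) (w : V) (c : V → Fin s) (r : V → ℝ) (u : V)
    (h : 0 ≤ r u ∨ (z.c u = c u ∧ 1 ≤ z.n u)) :
    (nR (step G z w) u - eps ((step G z w).c u) (c u) * r u) ^ 2 -
      (nR z u - eps (z.c u) (c u) * r u) ^ 2 ≤
      if G.Adj w u then
        2 * eps (z.c u) (z.c w) * (z.n u : ℝ) + 1 - 2 * eps (z.c w) (c u) * r u else 0 := by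
  by_cases ha : G.Adj w u
  · rw [if_pos ha]
    unfold nR
    by_cases h0 : z.n u = 0
    · obtain ⟨h1, h2⟩ := A1_zero z w u ha h0
      rw [h1, h2, h0]
      have e1 := A1_eps_sq (z.c w) (c u)
      have e2 := A1_eps_sq (z.c u) (c u)
      have e3 : (((1 : ℕ) : ℝ) - eps (z.c w) (c u) * r u) ^ 2 -
          (((0 : ℕ) : ℝ) - eps (z.c u) (c u) * r u) ^ 2 =
          1 - 2 * eps (z.c w) (c u) * r u + (eps (z.c w) (c u) * eps (z.c w) (c u)) * r u ^ 2 -
            (eps (z.c u) (c u) * eps (z.c u) (c u)) * r u ^ 2 := by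
        push_cast
        ring
      rw [e3, e1, e2]
      push_cast
      linarith
    · by_cases hc : z.c u = z.c w
      · obtain ⟨h1, h2⟩ := A1_same z w u ha h0 hc
        rw [h1, h2, hc]
        have e1 : eps (z.c w) (z.c w) = 1 := by unfold eps; rw [if_pos rfl]
        rw [e1]
        push_cast
        nlinarith
      · have h1 := A1_diff' z w u ha h0 hc
        have h2 := (A1_diff z w u ha h0 hc).2
        rw [h1, h2]
        have e1 : eps (z.c u) (z.c w) = -1 := by unfold eps; rw [if_neg hc]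
        have e2 : (eps (z.c w) (c u) + eps (z.c u) (c u)) * r u ≤ 0 := by
          unfold eps
          by_cases k1 : z.c w = c u
          · have k2 : ¬ z.c u = c u := fun e => hc (e.trans k1.symm)
            rw [if_pos k1, if_neg k2]
            simp
          · rw [if_neg k1]
            rcases h with h | h
            · split_ifs
              · simp
              · nlinarith
            · rw [if_pos h.1]
              simp
        rw [e1]
        nlinarith
  · rw [if_neg ha]
    obtain ⟨h1, h2⟩ := A1_not z w u ha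
    unfold nR
    rw [h1, h2, sub_self]

theorem step_dsq_le (z : St V s) (w : V) (c : V → Fin s) (r : V → ℝ)
    (h : ∀ u, 0 ≤ r u ∨ (z.c u = c u ∧ 1 ≤ z.n u)) :
    dsq (step G z w).c (nR (step G z w)) c r - dsq z.c (nR z) c r ≤
      ∑ u, if G.Adj w u then
        2 * eps (z.c u) (z.c w) * (z.n u : ℝ) + 1 - 2 * eps (z.c w) (c u) * r u else 0 := by
  unfold dsq
  rw [← Finset.sum_sub_distrib]
  exact Finset.sum_le_sum fun u _ => A1_term_le z w c r u (h u)

theorem A1_term_abs (z : St V s) (w : V) (c : V → Fin s) (r : V → ℝ) (u : V) :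
    |(nR (step G z w) u - eps ((step G z w).c u) (c u) * r u) ^ 2 -
      (nR z u - eps (z.c u) (c u) * r u) ^ 2| ≤
      2 * |nR z u - eps (z.c u) (c u) * r u| + 1 := by
  by_cases ha : G.Adj w u
  · unfold nR
    by_cases h0 : z.n u = 0
    · obtain ⟨h1, h2⟩ := A1_zero z w u ha h0
      rw [h1, h2, h0]
      have e1 := A1_eps_sq (z.c w) (c u)
      have e2 := A1_eps_sq (z.c u) (c u)
      have e3 : (((1 : ℕ) : ℝ) - eps (z.c w) (c u) * r u) ^ 2 -
          (((0 : ℕ) : ℝ) - eps (z.c u) (c u) * r u) ^ 2 =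
          1 - 2 * eps (z.c w) (c u) * r u + (eps (z.c w) (c u) * eps (z.c w) (c u)) * r u ^ 2 -
            (eps (z.c u) (c u) * eps (z.c u) (c u)) * r u ^ 2 := by
        push_cast
        ring
      rw [e3, e1, e2]
      have e4 : |((0 : ℕ) : ℝ) - eps (z.c u) (c u) * r u| = |r u| := by
        rw [Nat.cast_zero, zero_sub, abs_neg, abs_mul, A1_eps_abs, one_mul]
      rw [e4]
      have e5 : |eps (z.c w) (c u) * r u| = |r u| := by rw [abs_mul, A1_eps_abs, one_mul]
      have e6 := abs_le.1 (le_of_eq e5)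
      rw [abs_le]
      constructor <;> nlinarith [e6.1, e6.2, abs_nonneg (r u)]
    · by_cases hc : z.c u = z.c w
      · obtain ⟨h1, h2⟩ := A1_same z w u ha h0 hc
        rw [h1, h2]
        set x := (z.n u : ℝ) - eps (z.c u) (c u) * r u with hx
        have e1 : (((z.n u + 1 : ℕ) : ℝ) - eps (z.c u) (c u) * r u) ^ 2 - x ^ 2 = 2 * x + 1 := by
          rw [hx]
          push_cast
          ring
        rw [e1, abs_le]
        have e2 := le_abs_self x
        have e3 := neg_abs_le x
        constructor <;> linarith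
      · have h1 := A1_diff' z w u ha h0 hc
        have h2 := (A1_diff z w u ha h0 hc).2
        rw [h1, h2]
        set x := (z.n u : ℝ) - eps (z.c u) (c u) * r u with hx
        have e1 : ((z.n u : ℝ) - 1 - eps (z.c u) (c u) * r u) ^ 2 - x ^ 2 = -2 * x + 1 := by
          rw [hx]
          ring
        rw [e1, abs_le]
        have e2 := le_abs_self x
        have e3 := neg_abs_le x
        constructor <;> linarith
  · obtain ⟨h1, h2⟩ := A1_not z w u ha
    unfold nR
    rw [h1, h2, sub_self, abs_zero]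
    positivity

theorem step_dsq_abs (z : St V s) (w : V) (c : V → Fin s) (r : V → ℝ) :
    |dsq (step G z w).c (nR (step G z w)) c r - dsq z.c (nR z) c r| ≤
      cV V * (2 * Real.sqrt (dsq z.c (nR z) c r) + 1) := by
  have h1 : dsq (step G z w).c (nR (step G z w)) c r - dsq z.c (nR z) c r =
      ∑ u, ((nR (step G z w) u - eps ((step G z w).c u) (c u) * r u) ^ 2 -
        (nR z u - eps (z.c u) (c u) * r u) ^ 2) := by
    unfold dsq
    rw [← Finset.sum_sub_distrib]
  rw [h1]
  refine (Finset.abs_sum_le_sum_abs _ _).trans ?_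
  have h2 : ∀ u ∈ (Finset.univ : Finset V),
      |(nR (step G z w) u - eps ((step G z w).c u) (c u) * r u) ^ 2 -
        (nR z u - eps (z.c u) (c u) * r u) ^ 2| ≤
      2 * Real.sqrt (dsq z.c (nR z) c r) + 1 := by
    intro u _
    refine (A1_term_abs z w c r u).trans ?_
    have h3 : |nR z u - eps (z.c u) (c u) * r u| ≤ Real.sqrt (dsq z.c (nR z) c r) := by
      rw [← Real.sqrt_sq_eq_abs]
      apply Real.sqrt_le_sqrt
      unfold dsq
      exact Finset.single_le_sum (f := fun v => (nR z v - eps (z.c v) (c v) * r v) ^ 2)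
        (fun v _ => sq_nonneg _) (Finset.mem_univ u)
    linarith
  refine (Finset.sum_le_sum h2).trans ?_
  rw [Finset.sum_const, Finset.card_univ, nsmul_eq_mul]
  rfl

theorem A1_deg (z : St V s) :
    ∑ w, (z.n w : ℝ) * (∑ u, if G.Adj w u then (1 : ℝ) else 0) ≤ cV V * tot z := by
  unfold tot
  rw [Finset.mul_sum]
  refine Finset.sum_le_sum fun w _ => ?_
  have h1 : (∑ u, if G.Adj w u then (1 : ℝ) else 0) ≤ cV V := by
    have h2 : (∑ u : V, if G.Adj w u then (1 : ℝ) else 0) ≤ ∑ u : V, (1 : ℝ) := by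
      refine Finset.sum_le_sum fun u _ => ?_
      split_ifs <;> norm_num
    refine h2.trans (le_of_eq ?_)
    rw [Finset.sum_const, Finset.card_univ, nsmul_eq_mul, mul_one]
    rfl
  rw [mul_comm]
  exact mul_le_mul_of_nonneg_right h1 (Nat.cast_nonneg _)

theorem A1_weight_eq (z : St V s) (c : V → Fin s) (r : V → ℝ) :
    ∑ w, (z.n w : ℝ) * (∑ u, if G.Adj w u then
        2 * eps (z.c u) (z.c w) * (z.n u : ℝ) + 1 - 2 * eps (z.c w) (c u) * r u else 0) =
      2 * AA G z.c (nR z) z.c (nR z) - 2 * AA G z.c (nR z) c r +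
        ∑ w, (z.n w : ℝ) * (∑ u, if G.Adj w u then (1 : ℝ) else 0) := by
  unfold AA nR
  rw [Finset.mul_sum, Finset.mul_sum, ← Finset.sum_sub_distrib, ← Finset.sum_add_distrib]
  refine Finset.sum_congr rfl fun w _ => ?_
  rw [Finset.mul_sum, Finset.mul_sum, Finset.mul_sum, Finset.mul_sum, ← Finset.sum_sub_distrib,
    ← Finset.sum_add_distrib]
  refine Finset.sum_congr rfl fun u _ => ?_
  by_cases ha : G.Adj w u
  · simp only [if_pos ha]
    rw [A1_eps_comm (z.c u) (z.c w)]
    ring
  · simp only [if_neg ha]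
    ring

theorem step_weight (z : St V s) (c : V → Fin s) (r : V → ℝ) :
    ∑ w, (z.n w : ℝ) * (∑ u, if G.Adj w u then
        2 * eps (z.c u) (z.c w) * (z.n u : ℝ) + 1 - 2 * eps (z.c w) (c u) * r u else 0) ≤
      2 * AA G z.c (nR z) z.c (nR z) - 2 * AA G z.c (nR z) c r + cV V * tot z := by
  rw [A1_weight_eq]
  have h := A1_deg (G := G) z
  linarith

/-- exact one step change of the sum of squares -/
theorem step_qq (z : St V s) (w : V) :
    qq (step G z w) - qq z =
      ∑ u, if G.Adj w u then 2 * eps (z.c u) (z.c w) * (z.n u : ℝ) + 1 else 0 := by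
  unfold qq
  rw [← Finset.sum_sub_distrib]
  refine Finset.sum_congr rfl fun u _ => ?_
  by_cases ha : G.Adj w u
  · rw [if_pos ha]
    by_cases h0 : z.n u = 0
    · rw [(A1_zero z w u ha h0).1, h0]
      push_cast
      ring
    · by_cases hc : z.c u = z.c w
      · rw [(A1_same z w u ha h0 hc).1, hc]
        have e1 : eps (z.c w) (z.c w) = 1 := by unfold eps; rw [if_pos rfl]
        rw [e1]
        push_cast
        ring
      · rw [A1_diff' z w u ha h0 hc]
        have e1 : eps (z.c u) (z.c w) = -1 := by unfold eps; rw [if_neg hc]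
        rw [e1]
        ring
  · rw [if_neg ha, (A1_not z w u ha).1, sub_self]

theorem gen_qq (z : St V s) :
    gen G qq z = 2 * AA G z.c (nR z) z.c (nR z) +
      ∑ w, (z.n w : ℝ) * (∑ u, if G.Adj w u then (1 : ℝ) else 0) := by
  unfold gen
  simp only [step_qq]
  have h := A1_weight_eq (G := G) z z.c (fun _ => 0)
  have h0 : AA G z.c (nR z) z.c (fun _ => 0) = 0 := by
    unfold AA
    refine Finset.sum_eq_zero fun u _ => Finset.sum_eq_zero fun v _ => ?_
    split_ifs <;> ring
  rw [h0, mul_zero, sub_zero] at h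
  rw [← h]
  refine Finset.sum_congr rfl fun w _ => ?_
  congr 1
  refine Finset.sum_congr rfl fun u _ => ?_
  split_ifs
  · ring
  · rfl

theorem gen_qq_le (z : St V s) :
    gen G qq z ≤ 2 * AA G z.c (nR z) z.c (nR z) + cV V * tot z := by
  rw [gen_qq]
  have h := A1_deg (G := G) z
  linarith

theorem A1_n_le (z : St V s) (w u : V) : ((step G z w).n u : ℝ) ≤ (z.n u : ℝ) + 1 := by
  by_cases ha : G.Adj w u
  · by_cases h0 : z.n u = 0
    · rw [(A1_zero z w u ha h0).1, h0]
      push_cast
      linarith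
    · by_cases hc : z.c u = z.c w
      · rw [(A1_same z w u ha h0 hc).1]
        push_cast
        linarith
      · rw [A1_diff' z w u ha h0 hc]
        linarith
  · rw [(A1_not z w u ha).1]
    linarith

theorem A1_n_ge (z : St V s) (w u : V) : (z.n u : ℝ) - 1 ≤ ((step G z w).n u : ℝ) := by
  by_cases ha : G.Adj w u
  · by_cases h0 : z.n u = 0
    · rw [(A1_zero z w u ha h0).1, h0]
      push_cast
      linarith
    · by_cases hc : z.c u = z.c w
      · rw [(A1_same z w u ha h0 hc).1]
        push_cast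
        linarith
      · rw [A1_diff' z w u ha h0 hc]
  · rw [(A1_not z w u ha).1]
    linarith

/-- one step changes the total by at most `card V`, and the selected ball stays -/
theorem step_tot_le (z : St V s) (w : V) : tot (step G z w) ≤ tot z + cV V := by
  have h1 : tot (step G z w) ≤ ∑ u, ((z.n u : ℝ) + 1) :=
    Finset.sum_le_sum fun u _ => A1_n_le z w u
  rw [Finset.sum_add_distrib, Finset.sum_const, Finset.card_univ, nsmul_eq_mul, mul_one] at h1
  exact h1

theorem step_tot_ge (z : St V s) (w : V) : tot z - cV V ≤ tot (step G z w) := by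
  have h1 : ∑ u, ((z.n u : ℝ) - 1) ≤ tot (step G z w) :=
    Finset.sum_le_sum fun u _ => A1_n_ge z w u
  rw [Finset.sum_sub_distrib, Finset.sum_const, Finset.card_univ, nsmul_eq_mul, mul_one] at h1
  exact h1

/-- the selected vertex has the same urn afterwards -/
theorem step_self (z : St V s) (w : V) : (step G z w).n w = z.n w ∧ (step G z w).c w = z.c w :=
  A1_not z w w (SimpleGraph.irrefl G)

/-- if at least one ball is at `w`, the total after the step is at least one -/
theorem one_le_step_tot (z : St V s) (w : V) (hw : 1 ≤ z.n w) : 1 ≤ tot (step G z w) := by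
  have h1 : ((step G z w).n w : ℝ) ≤ tot (step G z w) :=
    Finset.single_le_sum (f := fun v => ((step G z w).n v : ℝ)) (fun v _ => Nat.cast_nonneg _)
      (Finset.mem_univ w)
  rw [(step_self z w).1] at h1
  have h2 : (1 : ℝ) ≤ (z.n w : ℝ) := by exact_mod_cast hw
  linarith

end UC
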