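import Pool.Agent.helper25.UC.A1
import Pool.Agent.helper25.UC.A3

/-!
# A4 : one step changes and drifts of `a_j` and `o2` (matched states)

Hypothesis `hm`: on `I` the colour of `z` is `σ` and `n ≥ 1`.

**a_step.**  For `u ∈ I` a neighbour of `w`: `n_u ≥ 1`, so `n_u ↦ n_u + ε(σ_u, c_w)`.  Hence
`a_j(z^w) - a_j(z) = ∑_{u~w, u∈I} ε(c_w,σ_u) e_j(u) = Lf σ c_w w e_j` (`e_j = 0` off `I`).

**gen_a.** `∑_w n_w Lf σ c_w w e_j`; the part `w ∈ I` is `∑ n_w E_j e_j(w) = E_j a_j` by `eig`,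
the part `w ∉ I` is `ell_j`.

**o2_step.** `o2 = qq - ∑ a_j²`; `qq(z^w) - qq(z) = ∑_{u~w}(2ε(c_u,c_w) n_u + 1)`,
`a_j(z^w)² - a_j² = 2 a_j Lf_j + Lf_j²`, and `∑_j a_j Lf_j = ∑_{u~w} ε(c_w,c_u) ∑_j a_j e_j(u)`
(`c_u = σ_u` where `e_j(u) ≠ 0`).

**gen_o2.** `gen qq = 2 AA(z,z) + D`, `D ≤ n0 tot` (`gen_qq_le`);
`gen(a_j²) = 2 a_j gen a_j + ∑_w n_w Lf_j² ≥ 2 a_j (E_j a_j + ell_j)`.
`AA(z,z) = ∑ E_j a_j² + 2∑ a_j ell_j + AA(ρ,ρ)` (`AA_decomp`).  So
`gen o2 ≤ 2AA(ρ,ρ) + 4 ∑ a_j ell_j - 2∑ a_j ell_j + D = 2AA(ρ,ρ) - 2 S + D`.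

**o2_step_abs**: from `o2_step`: `|2 ∑_{u~w} ε ρ_u| ≤ 2 n0 √o2`, `∑_{u~w} 1 ≤ n0`,
`∑_j Lf_j² ≤ k n0² ≤ n0³`.
-/

namespace UC
open Finset
variable {V : Type} [Fintype V] [DecidableEq V] {s k : ℕ}
variable {G : SimpleGraph V} [DecidableRel G.Adj]

/-- matched state -/
def Flag.Match (F : Flag G s k) (z : St V s) : Prop := ∀ v ∈ F.I, z.c v = F.σ v ∧ 1 ≤ z.n v

theorem a4_eps_symm (a b : Fin s) : eps a b = eps b a := by
  unfold eps
  by_cases h : a = b
  · rw [if_pos h, if_pos h.symm]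
  · rw [if_neg h, if_neg (fun h' => h h'.symm)]

theorem a4_eps_abs (a b : Fin s) : |eps a b| = 1 := by
  unfold eps
  split_ifs <;> norm_num

theorem Flag.a_step (F : Flag G s k) (z : St V s) (hm : F.Match z) (w : V) (j : Fin k) :
    F.a j (nR (step G z w)) - F.a j (nR z) = Lf G F.σ (z.c w) w (F.e j) := by
  unfold Flag.a Lf
  rw [← Finset.sum_sub_distrib]
  refine Finset.sum_congr rfl (fun u _ => ?_)
  by_cases hu : u ∈ F.I
  · obtain ⟨h1, h2⟩ := hm u hu
    have h3 : z.n u ≠ 0 := by omega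
    by_cases hadj : G.Adj w u
    · rw [if_pos hadj]
      by_cases hc : z.c u = z.c w
      · have h4 : nR (step G z w) u = (z.n u : ℝ) + 1 := by
          unfold nR step
          simp only [if_pos hadj, if_neg h3, if_pos hc]
          push_cast
          ring
        have h5 : eps (z.c w) (F.σ u) = 1 := by
          unfold eps
          rw [if_pos]
          rw [← h1, hc]
        rw [h4, h5]
        unfold nR
        ring
      · have h4 : nR (step G z w) u = (z.n u : ℝ) - 1 := by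
          unfold nR step
          simp only [if_pos hadj, if_neg h3, if_neg hc]
          rw [Nat.cast_sub h2]
          norm_num
        have h5 : eps (z.c w) (F.σ u) = -1 := by
          unfold eps
          rw [if_neg]
          rw [← h1]
          exact fun h => hc h.symm
        rw [h4, h5]
        unfold nR
        ring
    · rw [if_neg hadj]
      have h4 : nR (step G z w) u = (z.n u : ℝ) := by
        unfold nR step
        simp only [if_neg hadj]
      rw [h4]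
      unfold nR
      ring
  · rw [F.supp j u hu]
    simp

theorem Flag.a_step_abs (F : Flag G s k) (z : St V s) (hm : F.Match z) (w : V) (j : Fin k) :
    |F.a j (nR (step G z w)) - F.a j (nR z)| ≤ cV V := by
  rw [F.a_step z hm w j]
  exact F.Lf_e_abs_le j _ w

theorem Flag.a4_weight (F : Flag G s k) (z : St V s) (hm : F.Match z) (j : Fin k) :
    ∑ w, (z.n w : ℝ) * Lf G F.σ (z.c w) w (F.e j) =
      F.E j * F.a j (nR z) + F.ell z.c (nR z) j := by
  unfold Flag.a Flag.ell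
  rw [Finset.mul_sum, ← Finset.sum_add_distrib]
  refine Finset.sum_congr rfl (fun w _ => ?_)
  by_cases hw : w ∈ F.I
  · rw [if_pos hw, (hm w hw).1, F.eig j w hw]
    unfold nR
    ring
  · rw [if_neg hw, F.supp j w hw]
    unfold nR
    ring

theorem Flag.gen_a (F : Flag G s k) (z : St V s) (hm : F.Match z) (j : Fin k) :
    gen G (fun y => F.a j (nR y)) z = F.E j * F.a j (nR z) + F.ell z.c (nR z) j := by
  rw [← F.a4_weight z hm j]
  unfold gen
  refine Finset.sum_congr rfl (fun w _ => ?_)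
  rw [F.a_step z hm w j]

/-- the step of `o2` in terms of `qq` and the fields -/
theorem Flag.a4_o2_step (F : Flag G s k) (z : St V s) (hm : F.Match z) (w : V) :
    F.o2 (nR (step G z w)) - F.o2 (nR z) = qq (step G z w) - qq z -
      ∑ j, (2 * F.a j (nR z) * Lf G F.σ (z.c w) w (F.e j) + Lf G F.σ (z.c w) w (F.e j) ^ 2) := by
  have h1 : ∑ j, (2 * F.a j (nR z) * Lf G F.σ (z.c w) w (F.e j) +
      Lf G F.σ (z.c w) w (F.e j) ^ 2) = ∑ j, F.a j (nR (step G z w)) ^ 2 - ∑ j, F.a j (nR z) ^ 2 := by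
    rw [← Finset.sum_sub_distrib]
    refine Finset.sum_congr rfl (fun j _ => ?_)
    have h2 := F.a_step z hm w j
    rw [← h2]
    ring
  rw [h1]
  unfold Flag.o2 qq nR
  ring

theorem Flag.gen_o2 (F : Flag G s k) (z : St V s) (hm : F.Match z) :
    gen G (fun y => F.o2 (nR y)) z ≤
      2 * AA G z.c (F.rho (nR z)) z.c (F.rho (nR z)) - 2 * F.S z.c (nR z) + cV V * tot z := by
  have h1 : gen G (fun y => F.o2 (nR y)) z = gen G qq z - ∑ w, (z.n w : ℝ) *
      ∑ j, (2 * F.a j (nR z) * Lf G F.σ (z.c w) w (F.e j) + Lf G F.σ (z.c w) w (F.e j) ^ 2) := by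
    unfold gen
    rw [← Finset.sum_sub_distrib]
    refine Finset.sum_congr rfl (fun w _ => ?_)
    rw [F.a4_o2_step z hm w]
    ring
  have h2 : ∑ w, (z.n w : ℝ) * ∑ j, (2 * F.a j (nR z) * Lf G F.σ (z.c w) w (F.e j)) ≤
      ∑ w, (z.n w : ℝ) * ∑ j, (2 * F.a j (nR z) * Lf G F.σ (z.c w) w (F.e j) +
        Lf G F.σ (z.c w) w (F.e j) ^ 2) := by
    refine Finset.sum_le_sum (fun w _ => ?_)
    refine mul_le_mul_of_nonneg_left ?_ (Nat.cast_nonneg _)
    refine Finset.sum_le_sum (fun j _ => ?_)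
    have := sq_nonneg (Lf G F.σ (z.c w) w (F.e j))
    linarith
  have h3 : ∑ w, (z.n w : ℝ) * ∑ j, (2 * F.a j (nR z) * Lf G F.σ (z.c w) w (F.e j)) =
      ∑ j, 2 * F.a j (nR z) * (F.E j * F.a j (nR z) + F.ell z.c (nR z) j) := by
    simp_rw [Finset.mul_sum]
    rw [Finset.sum_comm]
    refine Finset.sum_congr rfl (fun j _ => ?_)
    rw [← F.a4_weight z hm j, Finset.mul_sum]
    refine Finset.sum_congr rfl (fun w _ => ?_)
    ring
  have h4 : ∑ j, 2 * F.a j (nR z) * (F.E j * F.a j (nR z) + F.ell z.c (nR z) j) =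
      2 * ∑ j, F.E j * F.a j (nR z) ^ 2 + 2 * ∑ j, F.a j (nR z) * F.ell z.c (nR z) j := by
    rw [Finset.mul_sum, Finset.mul_sum, ← Finset.sum_add_distrib]
    refine Finset.sum_congr rfl (fun j _ => ?_)
    ring
  have h5 := gen_qq_le (G := G) z
  have h6 := F.AA_decomp z.c (nR z) (fun v hv => (hm v hv).1)
  have h7 : F.S z.c (nR z) = -∑ j, F.a j (nR z) * F.ell z.c (nR z) j := rfl
  rw [h1, h7]
  linarith

theorem Flag.a4_o2_step2 (F : Flag G s k) (z : St V s) (hm : F.Match z) (w : V) :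
    F.o2 (nR (step G z w)) - F.o2 (nR z) =
      (∑ u, if G.Adj w u then 2 * eps (z.c u) (z.c w) * F.rho (nR z) u + 1 else 0) -
      ∑ j, Lf G F.σ (z.c w) w (F.e j) ^ 2 := by
  rw [F.a4_o2_step z hm w, step_qq, Finset.sum_add_distrib]
  have h1 : ∑ j, 2 * F.a j (nR z) * Lf G F.σ (z.c w) w (F.e j) =
      ∑ u, if G.Adj w u then 2 * eps (z.c u) (z.c w) * ∑ j, F.a j (nR z) * F.e j u else 0 := by
    unfold Lf
    simp_rw [Finset.mul_sum]
    rw [Finset.sum_comm]
    refine Finset.sum_congr rfl (fun u _ => ?_)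
    by_cases hadj : G.Adj w u
    · simp only [if_pos hadj]
      refine Finset.sum_congr rfl (fun j _ => ?_)
      by_cases hu : u ∈ F.I
      · rw [← (hm u hu).1, a4_eps_symm (z.c w)]
        ring
      · rw [F.supp j u hu]
        ring
    · simp only [if_neg hadj, mul_zero, Finset.sum_const_zero]
  rw [h1, ← sub_sub, ← Finset.sum_sub_distrib]
  congr 1
  refine Finset.sum_congr rfl (fun u _ => ?_)
  by_cases hadj : G.Adj w u
  · simp only [if_pos hadj]
    unfold Flag.rho nR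
    ring
  · simp only [if_neg hadj, sub_zero]

theorem Flag.o2_step_abs (F : Flag G s k) (z : St V s) (hm : F.Match z) (w : V) :
    |F.o2 (nR (step G z w)) - F.o2 (nR z)| ≤
      2 * cV V * Real.sqrt (F.o2 (nR z)) + cV V + cV V ^ 3 := by
  have hn : 0 ≤ cV V := Nat.cast_nonneg _
  have hs0 := Real.sqrt_nonneg (F.o2 (nR z))
  have hrho : ∀ u, |F.rho (nR z) u| ≤ Real.sqrt (F.o2 (nR z)) := fun u =>
    Real.abs_le_sqrt (F.rho_sq_le (nR z) u)
  have h1 : |∑ u, if G.Adj w u then 2 * eps (z.c u) (z.c w) * F.rho (nR z) u + 1 else 0| ≤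
      cV V * (2 * Real.sqrt (F.o2 (nR z)) + 1) := by
    refine (Finset.abs_sum_le_sum_abs _ _).trans ?_
    refine (Finset.sum_le_card_nsmul _ _ (2 * Real.sqrt (F.o2 (nR z)) + 1) ?_).trans ?_
    · intro u _
      by_cases hadj : G.Adj w u
      · rw [if_pos hadj]
        refine (abs_add_le _ _).trans ?_
        rw [abs_one, abs_mul, abs_mul, a4_eps_abs, mul_one, abs_two]
        have := hrho u
        linarith
      · rw [if_neg hadj, abs_zero]
        linarith
    · rw [nsmul_eq_mul]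
      exact le_refl _
  have h2 : 0 ≤ ∑ j, Lf G F.σ (z.c w) w (F.e j) ^ 2 :=
    Finset.sum_nonneg (fun j _ => sq_nonneg _)
  have h3 : ∑ j, Lf G F.σ (z.c w) w (F.e j) ^ 2 ≤ cV V ^ 3 := by
    refine (Finset.sum_le_card_nsmul _ _ (cV V ^ 2) ?_).trans ?_
    · intro j _
      have := F.Lf_e_abs_le j (z.c w) w
      exact sq_le_sq' (by linarith [(abs_le.1 this).1]) (abs_le.1 this).2
    · rw [nsmul_eq_mul, Finset.card_univ, Fintype.card_fin]
      have h4 := mul_le_mul_of_nonneg_right F.k_le (sq_nonneg (cV V))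
      calc (k : ℝ) * cV V ^ 2 ≤ cV V * cV V ^ 2 := h4
        _ = cV V ^ 3 := by ring
  rw [F.a4_o2_step2 z hm w]
  have h4 := abs_le.1 h1
  apply abs_le.2
  constructor
  · linarith [h4.1]
  · linarith [h4.2, pow_nonneg hn 3]

/-- colours on `I` are kept -/
theorem Flag.color_step (F : Flag G s k) (z : St V s) (hm : F.Match z) (w : V) :
    ∀ v ∈ F.I, (step G z w).c v = F.σ v := by
  intro v hv
  obtain ⟨h1, h2⟩ := hm v hv
  have h3 : ¬ (G.Adj w v ∧ z.n v = 0) := by
    rintro ⟨-, h⟩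
    omega
  unfold step
  simp only [if_neg h3]
  exact h1

end UC
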