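import Pool.Agent.helper25.UC.A3

/-!
# B1 : the envelope is a maximum (module of helper25, MP_747d65_pr)
-/

namespace UC
open Finset
variable {V : Type} [Fintype V] [DecidableEq V] {s k : ℕ}
variable {G : SimpleGraph V} [DecidableRel G.Adj]

theorem B1_cV_nonneg : 0 ≤ cV V := by
  unfold cV
  positivity

theorem B1_Q_nonneg (r : V → ℝ) : 0 ≤ ∑ v, r v ^ 2 :=
  Finset.sum_nonneg fun v _ => sq_nonneg _

theorem Flag.Th_abs_le (F : Flag G s k) (E : ℝ) (hE : |E| ≤ cV V + 2) (c : V → Fin s)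
    (r : V → ℝ) : |F.Th E c r| ≤ (4 * cV V + 4) * ∑ v, r v ^ 2 := by
  have hQ := B1_Q_nonneg r
  have hn : (0 : ℝ) ≤ cV V := B1_cV_nonneg
  have h1 := AA_self_le (G := G) c r
  have h2 : |E * ∑ v, r v ^ 2| ≤ (cV V + 2) * ∑ v, r v ^ 2 := by
    rw [abs_mul, abs_of_nonneg hQ]
    exact mul_le_mul_of_nonneg_right hE hQ
  have h3 : |∑ j, (F.E j - E) * F.a j r ^ 2| ≤ (2 * cV V + 2) * ∑ v, r v ^ 2 := by
    calc |∑ j, (F.E j - E) * F.a j r ^ 2| ≤ ∑ j, |(F.E j - E) * F.a j r ^ 2| :=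
          Finset.abs_sum_le_sum_abs _ _
      _ ≤ ∑ j, (2 * cV V + 2) * F.a j r ^ 2 := by
          apply Finset.sum_le_sum
          intro j _
          rw [abs_mul, abs_of_nonneg (sq_nonneg (F.a j r))]
          apply mul_le_mul_of_nonneg_right _ (sq_nonneg _)
          have e1 := F.E_le j
          have e2 := F.nonneg j
          have e3 := abs_le.1 hE
          rw [abs_le]
          constructor <;> linarith [e3.1, e3.2]
      _ = (2 * cV V + 2) * ∑ j, F.a j r ^ 2 := by rw [Finset.mul_sum]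
      _ ≤ (2 * cV V + 2) * ∑ v, r v ^ 2 :=
          mul_le_mul_of_nonneg_left (F.bessel r) (by linarith)
  unfold Flag.Th
  rw [abs_le] at h1 h2 h3 ⊢
  constructor <;> nlinarith [h1.1, h1.2, h2.1, h2.2, h3.1, h3.2]

theorem B1_dsq_lower (z : St V s) (c : V → Fin s) (r : V → ℝ) :
    (∑ v, r v ^ 2) / 2 - qq z ≤ dsq z.c (nR z) c r := by
  have h := norm_sub_le_dist z.c (nR z) c r
  have hq : ∑ v, nR z v ^ 2 = qq z := rfl
  rw [hq] at h
  have hQ := B1_Q_nonneg r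
  have hq0 : 0 ≤ qq z := by
    rw [← hq]
    exact B1_Q_nonneg _
  have hd := dsq_nonneg z.c (nR z) c r
  have h1 : (Real.sqrt (qq z) - Real.sqrt (∑ v, r v ^ 2)) ^ 2 ≤ dsq z.c (nR z) c r := by
    rw [← sq_abs, ← Real.sq_sqrt hd]
    exact pow_le_pow_left₀ (abs_nonneg _) h 2
  have h2 := Real.sq_sqrt hQ
  have h3 := Real.sq_sqrt hq0
  nlinarith [sq_nonneg (2 * Real.sqrt (qq z) - Real.sqrt (∑ v, r v ^ 2))]

theorem Flag.val_upper (F : Flag G s k) (E τ : ℝ) (hE : |E| ≤ cV V + 2) (hτ : 0 < τ)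
    (hτ0 : τ ≤ tau0 V) (z : St V s) (c : V → Fin s) (r : V → ℝ) :
    F.val E τ z c r ≤ - (∑ v, r v ^ 2) / (4 * τ) + qq z / τ := by
  have hQ := B1_Q_nonneg r
  have hn : (0 : ℝ) ≤ cV V := B1_cV_nonneg
  have h1 := (abs_le.1 (F.Th_abs_le E hE c r)).2
  have h2 := B1_dsq_lower z c r
  have h3 : ((∑ v, r v ^ 2) / 2 - qq z) / τ ≤ dsq z.c (nR z) c r / τ :=
    div_le_div_of_nonneg_right h2 hτ.le
  have h4 : 4 * cV V + 4 ≤ 1 / (4 * τ) := by
    rw [le_div_iff₀ (by positivity)]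
    unfold tau0 at hτ0
    have h5 : τ * (16 * (cV V + 2) ^ 2) ≤ 1 := by
      rwa [le_div_iff₀ (by positivity)] at hτ0
    nlinarith [mul_nonneg hτ.le hn, mul_nonneg (mul_nonneg hτ.le hn) hn]
  have h6 : (4 * cV V + 4) * ∑ v, r v ^ 2 ≤ 1 / (4 * τ) * ∑ v, r v ^ 2 :=
    mul_le_mul_of_nonneg_right h4 hQ
  unfold Flag.val
  have h7 : - (∑ v, r v ^ 2) / (4 * τ) + qq z / τ =
      1 / (4 * τ) * ∑ v, r v ^ 2 - ((∑ v, r v ^ 2) / 2 - qq z) / τ := by
    field_simp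
    ring
  rw [h7]
  linarith

theorem B1_AA_cont (c : V → Fin s) : Continuous fun r : V → ℝ => AA G c r c r := by
  unfold AA
  refine continuous_finset_sum _ fun u _ => continuous_finset_sum _ fun v _ => ?_
  split_ifs
  · fun_prop
  · fun_prop

theorem Flag.B1_val_cont (F : Flag G s k) (E τ : ℝ) (z : St V s) (c : V → Fin s) :
    Continuous fun r : V → ℝ => F.val E τ z c r := by
  unfold Flag.val Flag.Th Flag.a dsq
  have h := B1_AA_cont (G := G) c
  fun_prop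

theorem Flag.B1_val_zero (F : Flag G s k) (E τ : ℝ) (z : St V s) (c : V → Fin s) :
    F.val E τ z c (fun _ => 0) = - (qq z / τ) := by
  unfold Flag.val Flag.Th Flag.a dsq AA qq nR
  simp

theorem Flag.exists_mx (F : Flag G s k) (E τ : ℝ) (hE : |E| ≤ cV V + 2) (hτ : 0 < τ)
    (hτ0 : τ ≤ tau0 V) (z : St V s) : ∃ c r, F.IsMx E τ z c r := by
  classical
  have hcl : IsClosed {r : V → ℝ | ∀ v, v ∉ F.I → 0 ≤ r v} := by
    have : {r : V → ℝ | ∀ v, v ∉ F.I → 0 ≤ r v} = ⋂ v, ⋂ (_ : v ∉ F.I), {r : V → ℝ | 0 ≤ r v} := by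
      ext r
      simp
    rw [this]
    exact isClosed_iInter fun v => isClosed_iInter fun _ =>
      isClosed_le continuous_const (continuous_apply v)
  have hmax : ∀ c : V → Fin s, ∃ r : V → ℝ, (∀ v, v ∉ F.I → 0 ≤ r v) ∧
      ∀ r' : V → ℝ, (∀ v, v ∉ F.I → 0 ≤ r' v) → F.val E τ z c r' ≤ F.val E τ z c r := by
    intro c
    have hq0 : 0 ≤ qq z := by
      unfold qq
      exact Finset.sum_nonneg fun v _ => sq_nonneg _
    have hev : ∀ᶠ r in Filter.cocompact (V → ℝ) ⊓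
        Filter.principal {r : V → ℝ | ∀ v, v ∉ F.I → 0 ≤ r v},
        F.val E τ z c r ≤ F.val E τ z c (fun _ => 0) := by
      apply Filter.Eventually.filter_mono inf_le_left
      have hK : IsCompact (Metric.closedBall (0 : V → ℝ) (Real.sqrt (8 * qq z))) :=
        isCompact_closedBall _ _
      filter_upwards [hK.compl_mem_cocompact] with r hr
      have hQ : 8 * qq z ≤ ∑ v, r v ^ 2 := by
        by_contra hlt
        push Not at hlt
        apply hr
        rw [Metric.mem_closedBall, dist_zero_right, pi_norm_le_iff_of_nonneg (Real.sqrt_nonneg _)]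
        intro v
        rw [Real.norm_eq_abs]
        apply Real.abs_le_sqrt
        exact (Finset.single_le_sum (f := fun v => r v ^ 2) (fun v _ => sq_nonneg _)
          (Finset.mem_univ v)).trans hlt.le
      rw [F.B1_val_zero]
      refine (F.val_upper E τ hE hτ hτ0 z c r).trans ?_
      have h1 : 8 * qq z / (4 * τ) ≤ (∑ v, r v ^ 2) / (4 * τ) :=
        div_le_div_of_nonneg_right hQ (by positivity)
      have h2 : 8 * qq z / (4 * τ) = 2 * (qq z / τ) := by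
        field_simp
        ring
      rw [h2] at h1
      rw [neg_div]
      linarith
    obtain ⟨r, hr, hmx⟩ := (F.B1_val_cont E τ z c).continuousOn.exists_isMaxOn' hcl
      (x₀ := fun _ => 0) (fun v _ => le_rfl) hev
    exact ⟨r, hr, fun r' hr' => hmx hr'⟩
  choose R hR1 hR2 using hmax
  let A : Finset (V → Fin s) := Finset.univ.filter fun c => ∀ v ∈ F.I, c v = F.σ v
  have hA : A.Nonempty := ⟨F.σ, by simp [A]⟩
  obtain ⟨c, hc, hcm⟩ := A.exists_max_image (fun c => F.val E τ z c (R c)) hA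
  have hc' : ∀ v ∈ F.I, c v = F.σ v := (Finset.mem_filter.1 hc).2
  refine ⟨c, R c, ⟨hc', hR1 c⟩, ?_⟩
  intro c' r' h
  exact (hR2 c' r' h.2).trans (hcm c' (Finset.mem_filter.2 ⟨Finset.mem_univ _, h.1⟩))

theorem Flag.env_eq (F : Flag G s k) (E τ : ℝ) (z : St V s) (c : V → Fin s) (r : V → ℝ)
    (h : F.IsMx E τ z c r) : F.env E τ z = F.val E τ z c r := by
  unfold Flag.env
  apply IsGreatest.csSup_eq
  refine ⟨⟨c, r, h.1, rfl⟩, ?_⟩
  rintro t ⟨c', r', h', rfl⟩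
  exact h.2 c' r' h'

theorem Flag.le_env (F : Flag G s k) (E τ : ℝ) (hE : |E| ≤ cV V + 2) (hτ : 0 < τ)
    (hτ0 : τ ≤ tau0 V) (z : St V s) (c : V → Fin s) (r : V → ℝ) (h : F.Adm c r) :
    F.val E τ z c r ≤ F.env E τ z := by
  obtain ⟨c', r', h'⟩ := F.exists_mx E τ hE hτ hτ0 z
  rw [F.env_eq E τ z c' r' h']
  exact h'.2 c r h

theorem Flag.env_mono (F : Flag G s k) (E E' τ : ℝ) (hE : |E| ≤ cV V + 2)
    (hE' : |E'| ≤ cV V + 2) (hEE : E ≤ E') (hτ : 0 < τ)
    (hτ0 : τ ≤ tau0 V) (z : St V s) : F.env E' τ z ≤ F.env E τ z := by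
  obtain ⟨c, r, h⟩ := F.exists_mx E' τ hE' hτ hτ0 z
  rw [F.env_eq E' τ z c r h]
  refine le_trans ?_ (F.le_env E τ hE hτ hτ0 z c r h.1)
  unfold Flag.val
  rw [F.Th_mono E E' c r]
  have := mul_nonneg (sub_nonneg.2 hEE) (F.o2_nonneg r)
  linarith

theorem Flag.env_ge_Th (F : Flag G s k) (E τ : ℝ) (hE : |E| ≤ cV V + 2) (hτ : 0 < τ)
    (hτ0 : τ ≤ tau0 V) (z : St V s) (hc : ∀ v ∈ F.I, z.c v = F.σ v) :
    F.Th E z.c (nR z) ≤ F.env E τ z := by
  refine le_trans (le_of_eq ?_) (F.le_env E τ hE hτ hτ0 z z.c (nR z) ⟨hc, fun v _ => ?_⟩)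
  · unfold Flag.val dsq eps
    simp
  · unfold nR
    positivity

theorem Flag.env_zero_neg (F : Flag G s 0) (E τ : ℝ) (hE : |E| ≤ cV V + 2)
    (hE1 : cV V + 1 ≤ E) (hτ : 0 < τ) (hτ0 : τ ≤ tau0 V) (z : St V s) (hz : 1 ≤ tot z) :
    F.env E τ z < 0 := by
  obtain ⟨c, r, h⟩ := F.exists_mx E τ hE hτ hτ0 z
  rw [F.env_eq E τ z c r h]
  have hQ := B1_Q_nonneg r
  have h1 := (abs_le.1 (AA_self_le (G := G) c r)).2
  have h2 : F.Th E c r ≤ - ∑ v, r v ^ 2 := by
    unfold Flag.Th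
    simp only [Finset.univ_eq_empty, Finset.sum_empty, sub_zero]
    nlinarith
  unfold Flag.val
  have hd := dsq_nonneg z.c (nR z) c r
  have hd' : 0 ≤ dsq z.c (nR z) c r / τ := div_nonneg hd hτ.le
  rcases hQ.lt_or_eq with hQ1 | hQ1
  · linarith
  · have hr : ∀ v, r v = 0 := by
      intro v
      have := (Finset.sum_eq_zero_iff_of_nonneg (f := fun v => r v ^ 2)
        (fun v _ => sq_nonneg _)).1 hQ1.symm v (Finset.mem_univ v)
      exact pow_eq_zero_iff (two_ne_zero) |>.1 this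
    have h3 : dsq z.c (nR z) c r = qq z := by
      unfold dsq qq nR
      apply Finset.sum_congr rfl
      intro v _
      rw [hr v, mul_zero, sub_zero]
    have h4 := tot_le_qq z
    rw [h3]
    have h5 : 0 < qq z / τ := div_pos (by linarith) hτ
    linarith

end UC
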