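import Mathlib

/-!
# MP_747d65_pr : the multi-type urn process on a finite graph and the class `G_s`

`G` is a finite graph on `V`, colours are `Fin s`.
A state `z : St V s` has `z.n v` balls at `v`, all of colour `z.c v` (the colour of an empty
urn is junk and never matters).

`run G z0 w n` : the configuration after `n` steps, if the selected balls were at the vertices
`w 0, w 1, …, w (n-1)`.  `IsUrn G z0 P W`: the random selections `W 0, W 1, …` follow the law of the
process: given the first `n` selections, the next selected ball (uniform among all balls) is at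
`v` with probability (number of balls at `v`)/(total number of balls).
-/

namespace UC

open Finset MeasureTheory

/-- A configuration of balls. -/
@[ext] structure St (V : Type) (s : ℕ) where
  n : V → ℕ
  c : V → Fin s

variable {V : Type} [Fintype V] [DecidableEq V] {s : ℕ}

/-- One step of the process: a ball at `w` is selected and sends one ball to each neighbour. -/
def step (G : SimpleGraph V) [DecidableRel G.Adj] (z : St V s) (w : V) : St V s where
  n u := if G.Adj w u then
      (if z.n u = 0 then 1 else if z.c u = z.c w then z.n u + 1 else z.n u - 1) else z.n u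
  c u := if G.Adj w u ∧ z.n u = 0 then z.c w else z.c u

/-- total number of balls -/
def tot (z : St V s) : ℝ := ∑ v, (z.n v : ℝ)

/-- configuration after `n` steps -/
def run (G : SimpleGraph V) [DecidableRel G.Adj] (z0 : St V s) (w : ℕ → V) : ℕ → St V s
  | 0 => z0
  | n + 1 => step G (run G z0 w n) (w n)

/-- the law of the process started at `z0` -/
structure IsUrn (G : SimpleGraph V) [DecidableRel G.Adj] (z0 : St V s) {Ω : Type}
    [MeasurableSpace Ω] (P : Measure Ω) (W : ℕ → Ω → V) : Prop where
  meas : ∀ n v, MeasurableSet {ω | W n ω = v}
  law : ∀ (n : ℕ) (w : ℕ → V), P {ω | ∀ i < n + 1, W i ω = w i} =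
    P {ω | ∀ i < n, W i ω = w i} *
      ENNReal.ofReal (((run G z0 w n).n (w n) : ℝ) / tot (run G z0 w n))

/-- colour `a` survives along the selections `w`: it is present at arbitrarily large times -/
def Survives (G : SimpleGraph V) [DecidableRel G.Adj] (z0 : St V s) (w : ℕ → V)
    (a : Fin s) : Prop :=
  ∀ m : ℕ, ∃ n ≥ m, ∃ v, 1 ≤ (run G z0 w n).n v ∧ (run G z0 w n).c v = a

/-- no coexistence: from every nonempty initial configuration, almost surely exactly one colour
survives -/
def InG (G : SimpleGraph V) [DecidableRel G.Adj] (s : ℕ) : Prop :=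
  ∀ z0 : St V s, (∃ v, 1 ≤ z0.n v) → ∀ (Ω : Type) (_ : MeasurableSpace Ω) (P : Measure Ω)
    (_ : IsProbabilityMeasure P) (W : ℕ → Ω → V), IsUrn G z0 P W →
    ∀ᵐ ω ∂P, ∃! a, Survives G z0 (fun n => W n ω) a

end UC
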