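import Pool.Agent.helper25.UC.C1
import Pool.Agent.helper25.UC.C2
import Pool.Agent.helper25.UC.B7

/-!
# C8 : a crude bound for the growth of the defects in bounded time

`Fh = (o2 + tot)/a_l² + xs`.  Claim: `gen Fh ≤ C Fh` in the region.

* `off_drift_crude`: `gen o2 ≤ 2n0 o2 - 2S + n0 tot =: g`.
  `W_drift` with `α = 1`, `β = 0`, any `E` (e.g. `0`) and any maximiser (`exists_mx`) gives
  `gen(o2/a_l²) ≤ (2n0 o2 - 2S + n0 tot - 2E_l o2 + C(δo² S + tot))/a_l²
   ≤ (C o2 - (3/2) S + C tot)/a_l²`.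
* `gen(tot/a_l²)`: `quot_calc` with `X = tot` (`|ΔX| ≤ n0`), `Y = a_l²`:
  `≤ n0 tot/a_l² - tot(2E_l a_l² + 2a_l ell_l + ∑ n_w Lf²)/a_l⁴ + 2 tot·C a_l² tot/a_l⁶ +
  2 tot n0 C a_l/a_l⁴ ≤ (C tot + C δx² S)/a_l²`
  (`E_l ≥ 0`, `a_l |ell_l| ≤ C S`, `tot ≤ δx² a_l²`, `a_l ≥ 1`).
* `gen xs ≤ C xs (S + tot)/a_l² ≤ C' δx S/a_l² + C' tot/a_l²` (`xs ≤ (k+1)²δx`).
Sum: the `S` terms are `≤ (-(3/2) + C δ0) S/a_l² ≤ 0`, the rest is `≤ C (o2 + tot)/a_l² ≤ C Fh`.
-/

namespace UC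
open Finset
variable {V : Type} [Fintype V] [DecidableEq V] {s k : ℕ}
variable {G : SimpleGraph V} [DecidableRel G.Adj]

noncomputable def Flag.Fh (F : Flag G s (k + 1)) (z : St V s) : ℝ :=
  (F.o2 (nR z) + tot z) / F.a (Fin.last k) (nR z) ^ 2 + F.xs z

theorem cV_nonneg' (V : Type) [Fintype V] : 0 ≤ cV V := Nat.cast_nonneg _

/-- one step change of `a_l ^ 2` -/
theorem Flag.a_sq_step (F : Flag G s (k + 1)) (z : St V s) (hm : F.Match z) (w : V)
    (h1 : 1 ≤ F.a (Fin.last k) (nR z)) :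
    |F.a (Fin.last k) (nR (step G z w)) ^ 2 - F.a (Fin.last k) (nR z) ^ 2| ≤
      (2 * cV V + cV V ^ 2) * F.a (Fin.last k) (nR z) := by
  have hL := F.Lf_e_abs_le (Fin.last k) (z.c w) w
  have hs := F.a_step z hm w (Fin.last k)
  set A := F.a (Fin.last k) (nR z) with hA
  set L := Lf G F.σ (z.c w) w (F.e (Fin.last k)) with hLdef
  have e : F.a (Fin.last k) (nR (step G z w)) = A + L := by linarith
  have hn := cV_nonneg' V
  rw [e, show (A + L) ^ 2 - A ^ 2 = 2 * A * L + L ^ 2 by ring]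
  have hLL : L ^ 2 ≤ cV V ^ 2 := by
    rw [← sq_abs L]
    exact pow_le_pow_left₀ (abs_nonneg _) hL 2
  calc |2 * A * L + L ^ 2| ≤ |2 * A * L| + |L ^ 2| := abs_add_le _ _
    _ = 2 * A * |L| + L ^ 2 := by
        rw [abs_mul, abs_of_nonneg (by linarith : (0 : ℝ) ≤ 2 * A), abs_of_nonneg (sq_nonneg L)]
    _ ≤ 2 * A * cV V + cV V ^ 2 * A := by
        have h2 : cV V ^ 2 ≤ cV V ^ 2 * A := le_mul_of_one_le_right (sq_nonneg _) h1
        have h3 : 2 * A * |L| ≤ 2 * A * cV V := mul_le_mul_of_nonneg_left hL (by linarith)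
        linarith
    _ = (2 * cV V + cV V ^ 2) * A := by ring

/-- the drift of `a_l ^ 2` is at least `- 2 C S` -/
theorem Flag.a_sq_drift (F : Flag G s (k + 1)) (z : St V s) (hm : F.Match z) (CS : ℝ)
    (h1 : 1 ≤ F.a (Fin.last k) (nR z))
    (hell : F.a (Fin.last k) (nR z) * |F.ell z.c (nR z) (Fin.last k)| ≤ CS) :
    -(2 * CS) ≤ ∑ w, (z.n w : ℝ) *
      (F.a (Fin.last k) (nR (step G z w)) ^ 2 - F.a (Fin.last k) (nR z) ^ 2) := by
  have hg := F.gen_a z hm (Fin.last k)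
  unfold gen at hg
  set A := F.a (Fin.last k) (nR z) with hA
  have hE := F.nonneg (Fin.last k)
  have hge : 2 * A * ∑ w, (z.n w : ℝ) * (F.a (Fin.last k) (nR (step G z w)) - A) ≤
      ∑ w, (z.n w : ℝ) * (F.a (Fin.last k) (nR (step G z w)) ^ 2 - A ^ 2) := by
    rw [Finset.mul_sum]
    apply Finset.sum_le_sum
    intro w _
    have hn : (0 : ℝ) ≤ z.n w := Nat.cast_nonneg _
    have : (z.n w : ℝ) * (F.a (Fin.last k) (nR (step G z w)) ^ 2 - A ^ 2) -
        2 * A * ((z.n w : ℝ) * (F.a (Fin.last k) (nR (step G z w)) - A)) =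
        (z.n w : ℝ) * (F.a (Fin.last k) (nR (step G z w)) - A) ^ 2 := by ring
    have h2 : 0 ≤ (z.n w : ℝ) * (F.a (Fin.last k) (nR (step G z w)) - A) ^ 2 :=
      mul_nonneg hn (sq_nonneg _)
    linarith
  refine le_trans ?_ hge
  rw [hg]
  have h3 : -CS ≤ A * F.ell z.c (nR z) (Fin.last k) := by
    have h4 : -(A * |F.ell z.c (nR z) (Fin.last k)|) ≤ A * F.ell z.c (nR z) (Fin.last k) := by
      rw [← mul_neg]
      exact mul_le_mul_of_nonneg_left (neg_abs_le _) (by linarith)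
    linarith
  have h5 : 0 ≤ A * (F.E (Fin.last k) * A) := mul_nonneg (by linarith) (mul_nonneg hE (by linarith))
  nlinarith

/-- the drift of `tot / a_l ^ 2` -/
theorem Flag.gen_tot_quot (F : Flag G s (k + 1)) (z : St V s) (hm : F.Match z) (CS d : ℝ)
    (h1 : 1 ≤ F.a (Fin.last k) (nR z))
    (hlarge : 2 * (2 * cV V + cV V ^ 2) ≤ F.a (Fin.last k) (nR z))
    (hell : F.a (Fin.last k) (nR z) * |F.ell z.c (nR z) (Fin.last k)| ≤ CS)
    (hd0 : 0 ≤ d) (hd1 : d ≤ 1)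
    (hT : tot z ≤ d ^ 2 * F.a (Fin.last k) (nR z) ^ 2) :
    gen G (fun y => tot y / F.a (Fin.last k) (nR y) ^ 2) z ≤
      ((cV V + 2 * (2 * cV V + cV V ^ 2) ^ 2 + 2 * cV V * (2 * cV V + cV V ^ 2)) * tot z +
        2 * CS * d ^ 2) / F.a (Fin.last k) (nR z) ^ 2 := by
  have hstep := F.a_sq_step z hm
  have hdrift := F.a_sq_drift z hm CS h1 hell
  set A := F.a (Fin.last k) (nR z) with hA
  set B : ℝ := 2 * cV V + cV V ^ 2 with hB
  have hn0 := cV_nonneg' V
  have hB0 : 0 ≤ B := by positivity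
  have hA0 : 0 < A := by linarith
  have hCS : 0 ≤ CS := le_trans (mul_nonneg hA0.le (abs_nonneg _)) hell
  have hT0 : 0 ≤ tot z := tot_nonneg z
  have hd2 : d ^ 2 ≤ 1 := pow_le_one₀ hd0 hd1
  have hTA : tot z ≤ A ^ 2 := by
    calc tot z ≤ d ^ 2 * A ^ 2 := hT
      _ ≤ 1 * A ^ 2 := mul_le_mul_of_nonneg_right hd2 (sq_nonneg _)
      _ = A ^ 2 := one_mul _
  have hsumn : ∑ w, (z.n w : ℝ) = tot z := rfl
  have key := quot_calc (fun w => (z.n w : ℝ)) (fun w => tot (step G z w))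
    (fun w => F.a (Fin.last k) (nR (step G z w)) ^ 2) (tot z) (A ^ 2)
    (fun w => Nat.cast_nonneg _) (by positivity) (fun w _ => by
      refine (hstep w h1).trans ?_
      nlinarith)
  have hX : ∀ w, |tot (step G z w) - tot z| ≤ cV V := fun w => by
    rw [abs_le]
    have a := step_tot_le (G := G) z w
    have b := step_tot_ge (G := G) z w
    constructor <;> linarith
  -- first term
  have t1 : (∑ w, (z.n w : ℝ) * (tot (step G z w) - tot z)) / A ^ 2 ≤ cV V * tot z / A ^ 2 := by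
    apply div_le_div_of_nonneg_right _ (by positivity)
    rw [← hsumn, Finset.mul_sum]
    apply Finset.sum_le_sum
    intro w _
    rw [mul_comm (cV V)]
    exact mul_le_mul_of_nonneg_left ((le_abs_self _).trans (hX w)) (Nat.cast_nonneg _)
  -- second term
  have t2 : -(tot z * (∑ w, (z.n w : ℝ) *
      (F.a (Fin.last k) (nR (step G z w)) ^ 2 - A ^ 2)) / (A ^ 2) ^ 2) ≤
      2 * CS * d ^ 2 / A ^ 2 := by
    rw [← neg_div, div_le_div_iff₀ (by positivity) (by positivity)]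
    have e1 : -(tot z * (∑ w, (z.n w : ℝ) *
        (F.a (Fin.last k) (nR (step G z w)) ^ 2 - A ^ 2))) ≤ tot z * (2 * CS) := by
      rw [← mul_neg]
      exact mul_le_mul_of_nonneg_left (by linarith) hT0
    calc -(tot z * (∑ w, (z.n w : ℝ) *
        (F.a (Fin.last k) (nR (step G z w)) ^ 2 - A ^ 2))) * A ^ 2
        ≤ tot z * (2 * CS) * A ^ 2 := mul_le_mul_of_nonneg_right e1 (sq_nonneg _)
      _ ≤ (d ^ 2 * A ^ 2) * (2 * CS) * A ^ 2 := by
          apply mul_le_mul_of_nonneg_right _ (sq_nonneg _)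
          exact mul_le_mul_of_nonneg_right hT (by linarith)
      _ = 2 * CS * d ^ 2 * (A ^ 2) ^ 2 := by ring
  -- third term
  have t3 : 2 * |tot z| * (∑ w, (z.n w : ℝ) *
      (F.a (Fin.last k) (nR (step G z w)) ^ 2 - A ^ 2) ^ 2) / (A ^ 2) ^ 3 ≤
      2 * B ^ 2 * tot z / A ^ 2 := by
    rw [abs_of_nonneg hT0, div_le_div_iff₀ (by positivity) (by positivity)]
    have e1 : (∑ w, (z.n w : ℝ) *
        (F.a (Fin.last k) (nR (step G z w)) ^ 2 - A ^ 2) ^ 2) ≤ (B * A) ^ 2 * tot z := by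
      rw [← hsumn, Finset.mul_sum]
      apply Finset.sum_le_sum
      intro w _
      rw [mul_comm ((B * A) ^ 2)]
      apply mul_le_mul_of_nonneg_left _ (Nat.cast_nonneg _)
      rw [← sq_abs]
      exact pow_le_pow_left₀ (abs_nonneg _) (hstep w h1) 2
    calc 2 * tot z * (∑ w, (z.n w : ℝ) *
        (F.a (Fin.last k) (nR (step G z w)) ^ 2 - A ^ 2) ^ 2) * A ^ 2
        ≤ 2 * tot z * ((B * A) ^ 2 * tot z) * A ^ 2 := by
          apply mul_le_mul_of_nonneg_right _ (sq_nonneg _)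
          exact mul_le_mul_of_nonneg_left e1 (by linarith)
      _ ≤ 2 * tot z * ((B * A) ^ 2 * A ^ 2) * A ^ 2 := by
          apply mul_le_mul_of_nonneg_right _ (sq_nonneg _)
          apply mul_le_mul_of_nonneg_left _ (by linarith)
          exact mul_le_mul_of_nonneg_left hTA (sq_nonneg _)
      _ = 2 * B ^ 2 * tot z * (A ^ 2) ^ 3 := by ring
  -- fourth term
  have t4 : 2 * (∑ w, (z.n w : ℝ) * (|tot (step G z w) - tot z| *
      |F.a (Fin.last k) (nR (step G z w)) ^ 2 - A ^ 2|)) / (A ^ 2) ^ 2 ≤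
      2 * cV V * B * tot z / A ^ 2 := by
    rw [div_le_div_iff₀ (by positivity) (by positivity)]
    have e1 : (∑ w, (z.n w : ℝ) * (|tot (step G z w) - tot z| *
        |F.a (Fin.last k) (nR (step G z w)) ^ 2 - A ^ 2|)) ≤ (cV V * (B * A)) * tot z := by
      rw [← hsumn, Finset.mul_sum]
      apply Finset.sum_le_sum
      intro w _
      rw [mul_comm (cV V * (B * A))]
      apply mul_le_mul_of_nonneg_left _ (Nat.cast_nonneg _)
      exact mul_le_mul (hX w) (hstep w h1) (abs_nonneg _) hn0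
    have e2 : A ≤ A ^ 2 := by nlinarith
    calc 2 * (∑ w, (z.n w : ℝ) * (|tot (step G z w) - tot z| *
        |F.a (Fin.last k) (nR (step G z w)) ^ 2 - A ^ 2|)) * A ^ 2
        ≤ 2 * ((cV V * (B * A)) * tot z) * A ^ 2 := by
          apply mul_le_mul_of_nonneg_right _ (sq_nonneg _)
          linarith
      _ = 2 * cV V * B * tot z * A ^ 2 * A := by ring
      _ ≤ 2 * cV V * B * tot z * A ^ 2 * A ^ 2 := by
          apply mul_le_mul_of_nonneg_left e2
          positivity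
      _ = 2 * cV V * B * tot z * (A ^ 2) ^ 2 := by ring
  have e : ((cV V + 2 * B ^ 2 + 2 * cV V * B) * tot z + 2 * CS * d ^ 2) / A ^ 2 =
      cV V * tot z / A ^ 2 + 2 * CS * d ^ 2 / A ^ 2 + 2 * B ^ 2 * tot z / A ^ 2 +
        2 * cV V * B * tot z / A ^ 2 := by ring
  rw [e]
  refine le_trans key ?_
  have := t1
  linarith

theorem Flag.Fh_drift (F : Flag G s (k + 1)) (τ : ℝ) (hτ : 0 < τ) (hτ0 : τ ≤ tau0 V) :
    ∃ δ0 > 0, ∃ C > 0, ∀ δx δo : ℝ, 0 < δx → δx ≤ δo → δo ≤ δ0 → ∀ z, F.Reg δx δo z →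
      gen G F.Fh z ≤ C * F.Fh z := by
  obtain ⟨d1, hd1, C1, hC1, H1⟩ := F.W_drift τ hτ hτ0
  obtain ⟨d2, hd2, c2, hc2, C2, hC2, H2⟩ := F.reg_facts1
  obtain ⟨d3, hd3, H3⟩ := F.reg_large
  obtain ⟨d4, hd4, C4, hC4, H4⟩ := F.xs_drift
  set n0 : ℝ := cV V with hn0
  set B : ℝ := 2 * n0 + n0 ^ 2 with hB
  have hn00 : 0 ≤ n0 := cV_nonneg' V
  have hB0 : 0 ≤ B := by positivity
  set K : ℝ := n0 + 2 * B ^ 2 + 2 * n0 * B with hK
  have hK0 : 0 ≤ K := by positivity
  set kk : ℝ := ((k + 1 : ℕ) : ℝ) ^ 2 with hkk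
  have hkk0 : 0 ≤ kk := by positivity
  set Q : ℝ := C1 + 2 * C2 + C4 * kk + 1 with hQ
  have hQ0 : 1 ≤ Q := by
    have : 0 ≤ C4 * kk := by positivity
    linarith
  refine ⟨min (min (min d1 d2) (min d3 d4)) (min (1 / (2 * B + 1)) (1 / Q)), ?_,
    2 * n0 + n0 + C1 + K + C4 * kk + 1, by positivity, ?_⟩
  · refine lt_min (lt_min (lt_min hd1 hd2) (lt_min hd3 hd4)) (lt_min ?_ ?_)
    · positivity
    · positivity
  intro δx δo hx hxo ho z hz
  have ho0 : 0 < δo := hx.trans_le hxo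
  have o1 : δo ≤ d1 := ho.trans ((min_le_left _ _).trans ((min_le_left _ _).trans (min_le_left _ _)))
  have o2 : δo ≤ d2 := ho.trans ((min_le_left _ _).trans ((min_le_left _ _).trans (min_le_right _ _)))
  have o3 : δo ≤ d3 := ho.trans ((min_le_left _ _).trans ((min_le_right _ _).trans (min_le_left _ _)))
  have o4 : δo ≤ d4 := ho.trans ((min_le_left _ _).trans ((min_le_right _ _).trans (min_le_right _ _)))
  have o5 : δo ≤ 1 / (2 * B + 1) := ho.trans ((min_le_right _ _).trans (min_le_left _ _))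
  have o6 : δo ≤ 1 / Q := ho.trans ((min_le_right _ _).trans (min_le_right _ _))
  have ho1 : δo ≤ 1 := o6.trans (by rw [div_le_one (by linarith)]; exact hQ0)
  have hx1 : δx ≤ 1 := hxo.trans ho1
  obtain ⟨hf, hf1⟩ := H2 δx δo hx.le (hxo.trans o2) ho0.le o2 z hz
  obtain ⟨hl, -, -⟩ := H3 δx δo hx hxo o3 z hz
  have hm : F.Match z := hz.2.1
  have hTT : tot z ≤ δx ^ 2 * F.a (Fin.last k) (nR z) ^ 2 := hz.2.2.2.2.2 (Fin.last k)
  have hx4 := H4 δx δo hx hxo o4 z hz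
  obtain ⟨hxs0, hxs1⟩ := F.xs_le δx δo hx.le z hz
  have hS0 := hf.S_nonneg
  have hell := hf.ell_le (Fin.last k)
  have hone := hf1.one_le
  have hlast := hl (Fin.last k)
  have ho20 := F.o2_nonneg (nR z)
  have hT0 := tot_nonneg z
  have hE := F.nonneg (Fin.last k)
  obtain ⟨c, r, hmx⟩ := F.exists_mx 0 τ (by rw [abs_zero]; linarith) hτ hτ0 z
  have hw := H1 0 (by rw [abs_zero]; linarith) 1 0 zero_le_one le_rfl δx δo hx hxo o1 z hz c r hmx _
    (F.off_drift_crude z hm)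
  have e1 : (fun y : St V s => (1 * F.o2 (nR y) - 0 * F.env 0 τ y) /
      F.a (Fin.last k) (nR y) ^ 2) = fun y => F.o2 (nR y) / F.a (Fin.last k) (nR y) ^ 2 := by
    funext y
    simp
  rw [e1] at hw
  have hlarge : 2 * (2 * cV V + cV V ^ 2) ≤ F.a (Fin.last k) (nR z) := by
    refine le_trans ?_ hlast
    have p1 : 2 * B + 1 ≤ 1 / δx := by
      rw [le_div_iff₀ hx]
      have : (2 * B + 1) * δx ≤ (2 * B + 1) * (1 / (2 * B + 1)) :=
        mul_le_mul_of_nonneg_left (hxo.trans o5) (by positivity)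
      rwa [mul_one_div_cancel (by positivity)] at this
    have p2 : 1 / δx ≤ 1 / δx ^ 2 := by
      apply one_div_le_one_div_of_le (by positivity)
      nlinarith
    linarith
  have ht := F.gen_tot_quot z hm _ δx hone hlarge hell hx.le hx1 hTT
  have eF : F.Fh (k := k) = fun y : St V s =>
      (fun y : St V s => F.o2 (nR y) / F.a (Fin.last k) (nR y) ^ 2 +
        tot y / F.a (Fin.last k) (nR y) ^ 2) y + F.xs y := by
    funext y
    simp only [Flag.Fh]
    rw [add_div]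
  rw [eF, gen_add, gen_add]
  simp only
  set A := F.a (Fin.last k) (nR z) with hA
  set S := F.S z.c (nR z) with hS
  set T := tot z with hT
  set O := F.o2 (nR z) with hO
  set X := F.xs z with hX
  have hA2 : 0 < A ^ 2 := by
    have : 0 < A := by linarith
    positivity
  -- bound of each term
  have b1 : gen G (fun y => F.o2 (nR y) / F.a (Fin.last k) (nR y) ^ 2) z ≤
      (2 * n0 * O - 2 * S + n0 * T + C1 * (δo * S) + C1 * T) / A ^ 2 := by
    refine hw.trans ?_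
    apply div_le_div_of_nonneg_right _ hA2.le
    have q1 : 0 ≤ 2 * F.E (Fin.last k) * (1 * O - 0 * F.env 0 τ z) := by
      rw [one_mul, zero_mul, sub_zero]
      positivity
    have q2 : δo ^ 2 * S ≤ δo * S := mul_le_mul_of_nonneg_right (by nlinarith) hS0
    have q3 : C1 * (δo ^ 2 * S) ≤ C1 * (δo * S) := mul_le_mul_of_nonneg_left q2 hC1.le
    nlinarith
  have b2 : gen G (fun y => tot y / F.a (Fin.last k) (nR y) ^ 2) z ≤
      (K * T + 2 * C2 * (δo * S)) / A ^ 2 := by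
    refine ht.trans ?_
    apply div_le_div_of_nonneg_right _ hA2.le
    have q2 : δx ^ 2 * S ≤ δo * S := mul_le_mul_of_nonneg_right (by nlinarith) hS0
    have q3 : C2 * (δx ^ 2 * S) ≤ C2 * (δo * S) := mul_le_mul_of_nonneg_left q2 hC2.le
    have q4 : 2 * (C2 * S) * δx ^ 2 = 2 * (C2 * (δx ^ 2 * S)) := by ring
    rw [q4]
    linarith
  have b3 : gen G F.xs z ≤ (C4 * kk * (δo * S) + C4 * kk * T) / A ^ 2 := by
    refine hx4.trans ?_
    apply div_le_div_of_nonneg_right _ hA2.le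
    have q1 : X ≤ kk * δo := hxs1.trans (mul_le_mul_of_nonneg_left hxo hkk0)
    have q2 : C4 * X * (S + T) ≤ C4 * (kk * δo) * (S + T) :=
      mul_le_mul_of_nonneg_right (mul_le_mul_of_nonneg_left q1 hC4.le) (by linarith)
    have q3 : C4 * kk * (δo * T) ≤ C4 * kk * T := by
      apply mul_le_mul_of_nonneg_left _ (by positivity)
      nlinarith
    nlinarith
  have hδS : (C1 + 2 * C2 + C4 * kk) * (δo * S) ≤ S := by
    have q1 : (C1 + 2 * C2 + C4 * kk) * δo ≤ 1 := by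
      have q2 : Q * δo ≤ Q * (1 / Q) := mul_le_mul_of_nonneg_left o6 (by linarith)
      rw [mul_one_div_cancel (by linarith)] at q2
      have q3 : Q * δo = (C1 + 2 * C2 + C4 * kk) * δo + δo := by rw [hQ]; ring
      linarith
    calc (C1 + 2 * C2 + C4 * kk) * (δo * S) = ((C1 + 2 * C2 + C4 * kk) * δo) * S := by ring
      _ ≤ 1 * S := mul_le_mul_of_nonneg_right q1 hS0
      _ = S := one_mul _
  have htotal : (2 * n0 * O - 2 * S + n0 * T + C1 * (δo * S) + C1 * T) / A ^ 2 +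
      (K * T + 2 * C2 * (δo * S)) / A ^ 2 + (C4 * kk * (δo * S) + C4 * kk * T) / A ^ 2 ≤
      (2 * n0 * O + (n0 + C1 + K + C4 * kk) * T) / A ^ 2 := by
    rw [← add_div, ← add_div]
    apply div_le_div_of_nonneg_right _ hA2.le
    nlinarith
  have hfin : (2 * n0 * O + (n0 + C1 + K + C4 * kk) * T) / A ^ 2 ≤
      (2 * n0 + n0 + C1 + K + C4 * kk + 1) * ((O + T) / A ^ 2) := by
    rw [← mul_div_assoc]
    apply div_le_div_of_nonneg_right _ hA2.le
    have r1 : 0 ≤ (n0 + C1 + K + C4 * kk + 1) * O := by positivity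
    have r2 : 0 ≤ (2 * n0 + 1) * T := by positivity
    nlinarith
  have hX2 : 0 ≤ (2 * n0 + n0 + C1 + K + C4 * kk + 1) * X := by positivity
  have eR : (2 * n0 + n0 + C1 + K + C4 * kk + 1) * (O / A ^ 2 + T / A ^ 2 + X) =
      (2 * n0 + n0 + C1 + K + C4 * kk + 1) * ((O + T) / A ^ 2) +
        (2 * n0 + n0 + C1 + K + C4 * kk + 1) * X := by
    rw [add_div]; ring
  rw [eR]
  linarith

end UC
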