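import Pool.Agent.helper25.UC.H1

set_option linter.unusedSectionVars false

/-!
# H2 : `h < 1` everywhere, and `BadF`
-/

namespace UC
open Finset Filter
variable {V : Type} [Fintype V] [DecidableEq V] {s : ℕ}
variable {G : SimpleGraph V} [DecidableRel G.Adj]

theorem H2_lt_of_step (z : St V s) (u : V) (hu : 1 ≤ z.n u) (h : hh G (step G z u) < 1) :
    hh G z < 1 := by
  have hle : ∀ z : St V s, hh G z ≤ 1 := fun z =>
    (hh_le_gg z).trans (by unfold gg; split_ifs <;> norm_num)
  have hg := gen_hh (G := G) z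
  unfold gen at hg
  have hn : ∀ w, (0 : ℝ) ≤ (z.n w : ℝ) := fun w => Nat.cast_nonneg _
  have hu' : (1 : ℝ) ≤ (z.n u : ℝ) := by exact_mod_cast hu
  by_contra hcon
  push Not at hcon
  have hz1 : hh G z = 1 := le_antisymm (hle z) hcon
  have hlt : ∑ w, (z.n w : ℝ) * (hh G (step G z w) - hh G z) < ∑ w : V, (0 : ℝ) := by
    apply Finset.sum_lt_sum
    · intro w _
      apply mul_nonpos_of_nonneg_of_nonpos (hn w)
      rw [hz1]
      linarith [hle (step G z w)]
    · refine ⟨u, Finset.mem_univ u, ?_⟩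
      rw [hz1]
      nlinarith
  rw [hg] at hlt
  simp at hlt

open Classical in
noncomputable def H2_cc (C : Fin s) (z : St V s) : ℕ :=
  (Finset.univ.filter fun v => ¬ (1 ≤ z.n v ∧ z.c v = C)).card

theorem H2_keep (C : Fin s) (z : St V s) (u : V) (hu : 1 ≤ z.n u ∧ z.c u = C) (x : V)
    (hx : 1 ≤ z.n x ∧ z.c x = C) :
    1 ≤ (step G z u).n x ∧ (step G z u).c x = C := by
  have h0 : z.n x ≠ 0 := by omega
  have hc : z.c x = z.c u := hx.2.trans hu.2.symm
  by_cases ha : G.Adj u x
  · simp [step, ha, h0, hc, hu.2]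
  · simp [step, ha, hx.1, hx.2]

theorem H2_cc_le (C : Fin s) (z : St V s) (u : V) (hu : 1 ≤ z.n u ∧ z.c u = C) :
    H2_cc C (step G z u) ≤ H2_cc C z := by
  classical
  unfold H2_cc
  apply Finset.card_le_card
  intro x hx
  simp only [Finset.mem_filter, Finset.mem_univ, true_and] at hx ⊢
  exact fun h => hx (H2_keep C z u hu x h)

theorem H2_cc_lt (C : Fin s) (z : St V s) (u v : V) (hu : 1 ≤ z.n u ∧ z.c u = C)
    (ha : G.Adj u v) (hv : z.n v = 0) :
    H2_cc C (step G z u) < H2_cc C z := by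
  classical
  unfold H2_cc
  apply Finset.card_lt_card
  rw [Finset.ssubset_iff_of_subset]
  · refine ⟨v, ?_, ?_⟩
    · simp only [Finset.mem_filter, Finset.mem_univ, true_and]
      intro h
      omega
    · simp only [Finset.mem_filter, Finset.mem_univ, true_and, not_not]
      simp [step, ha, hv, hu.2]
  · intro x hx
    simp only [Finset.mem_filter, Finset.mem_univ, true_and] at hx ⊢
    exact fun h => hx (H2_keep C z u hu x h)

theorem H2_mono (z : St V s) (h : ∀ u v, 1 ≤ z.n u → 1 ≤ z.n v → z.c u = z.c v) :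
    hh G z = 0 := by
  have hT : ¬ TwoCol z := by
    rintro ⟨u, v, hu, hv, hne⟩
    exact hne (h u v hu hv)
  have h1 := hh_le_gg (G := G) z
  have h2 : gg z = 0 := by simp [gg, hT]
  rw [h2] at h1
  exact le_antisymm h1 (hh_nonneg z)

theorem H2_main (hG : G.Connected) (C : Fin s) : ∀ (k : ℕ) (z : St V s), H2_cc C z ≤ k →
    (∃ u, 1 ≤ z.n u ∧ z.c u = C) → hh G z < 1 := by
  intro k
  induction k with
  | zero =>
    intro z hz _
    have hall : ∀ v, 1 ≤ z.n v ∧ z.c v = C := by
      intro v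
      by_contra hv
      have h2 : 0 < H2_cc C z := by
        unfold H2_cc
        exact Finset.card_pos.2 ⟨v, by simpa using hv⟩
      omega
    rw [H2_mono z fun u v _ _ => (hall u).2.trans (hall v).2.symm]
    norm_num
  | succ k ih =>
    have inner : ∀ (m : ℕ) (z : St V s) (u v : V), H2_cc C z ≤ k + 1 → G.Adj u v →
        (1 ≤ z.n u ∧ z.c u = C) → ¬ (1 ≤ z.n v ∧ z.c v = C) → z.n v = m → hh G z < 1 := by
      intro m
      induction m with
      | zero =>
        intro z u v hcc ha hu hv hm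
        apply H2_lt_of_step z u hu.1
        apply ih
        · have := H2_cc_lt C z u v hu ha hm
          omega
        · exact ⟨u, H2_keep C z u hu u hu⟩
      | succ m ihm =>
        intro z u v hcc ha hu hv hm
        have hcv : z.c v ≠ C := fun h => hv ⟨by omega, h⟩
        have hcu : ¬ z.c v = z.c u := fun h => hcv (h.trans hu.2)
        have h1 : (step G z u).n v = m := by simp [step, ha, hm, hcu]
        have h2 : (step G z u).c v = z.c v := by simp [step, hm]
        apply H2_lt_of_step z u hu.1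
        refine ihm (step G z u) u v ((H2_cc_le C z u hu).trans hcc) ha (H2_keep C z u hu u hu) ?_ h1
        rw [h2]
        exact fun h => hcv h.2
    intro z hz hex
    obtain ⟨u0, hu0⟩ := hex
    by_cases hall : ∀ v, 1 ≤ z.n v ∧ z.c v = C
    · rw [H2_mono z fun u v _ _ => (hall u).2.trans (hall v).2.symm]
      norm_num
    · push Not at hall
      obtain ⟨v0, hv0⟩ := hall
      obtain ⟨p⟩ := hG.preconnected u0 v0
      obtain ⟨d, _, hd1, hd2⟩ := p.exists_boundary_dart {v | 1 ≤ z.n v ∧ z.c v = C} hu0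
        (fun h => hv0 h.1 h.2)
      exact inner _ z d.fst d.snd hz d.adj hd1 hd2 rfl

theorem hh_lt_one (hG : G.Connected) (z : St V s) (hz : 1 ≤ tot z) : hh G z < 1 := by
  have hex : ∃ u, 1 ≤ z.n u := by
    by_contra hcon
    push Not at hcon
    have h0 : tot z = 0 := by
      unfold tot
      apply Finset.sum_eq_zero
      intro w _
      have := hcon w
      have h1 : z.n w = 0 := by omega
      simp [h1]
    linarith
  obtain ⟨u, hu⟩ := hex
  exact H2_main hG (z.c u) _ z le_rfl ⟨u, hu, rfl⟩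

theorem H2_finite (Q : ℝ) : {z : St V s | qq z ≤ Q}.Finite := by
  let N : ℕ := ⌈Q⌉₊
  let f : (V → Fin (N + 1)) × (V → Fin s) → St V s := fun p =>
    { n := fun v => (p.1 v : ℕ), c := p.2 }
  refine (Set.finite_range f).subset ?_
  intro z hz
  have hz' : qq z ≤ Q := hz
  have hb : ∀ v, z.n v < N + 1 := by
    intro v
    have h1 : ((z.n v : ℝ)) ^ 2 ≤ qq z := by
      unfold qq
      exact Finset.single_le_sum (f := fun v => ((z.n v : ℝ)) ^ 2) (fun i _ => sq_nonneg _)
        (Finset.mem_univ v)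
    have h2 : ((z.n v : ℕ) : ℝ) ≤ ((z.n v : ℝ)) ^ 2 := by
      have : z.n v ≤ z.n v ^ 2 := Nat.le_self_pow (by norm_num) _
      exact_mod_cast this
    have h3 : ((z.n v : ℕ) : ℝ) ≤ (N : ℝ) := (h2.trans (h1.trans hz')).trans (Nat.le_ceil Q)
    have h4 : z.n v ≤ N := by exact_mod_cast h3
    omega
  refine ⟨(fun v => ⟨z.n v, hb v⟩, z.c), ?_⟩
  rfl

theorem badF_of_pos (hG : G.Connected) (z0 : St V s) (h0 : 1 ≤ tot z0) (hp : 0 < hh G z0) :
    BadF G (fun z : St V s => 1 - hh G z) where
  nonneg z := by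
    have : hh G z ≤ 1 := (hh_le_gg z).trans (by unfold gg; split_ifs <;> norm_num)
    linarith
  le_one z := by
    have := hh_nonneg (G := G) z
    linarith
  harm z := by
    have h := gen_hh (G := G) z
    unfold gen at h ⊢
    have : ∑ w, (z.n w : ℝ) * ((1 - hh G (step G z w)) - (1 - hh G z)) =
        - ∑ w, (z.n w : ℝ) * (hh G (step G z w) - hh G z) := by
      rw [← Finset.sum_neg_distrib]
      exact Finset.sum_congr rfl fun w _ => by ring
    rw [this, h, neg_zero]
  pos Q := by
    have hfin : ({z : St V s | qq z ≤ Q} ∩ {z | 1 ≤ tot z}).Finite := (H2_finite Q).inter_of_left _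
    by_cases hne : ({z : St V s | qq z ≤ Q} ∩ {z | 1 ≤ tot z}).Nonempty
    · obtain ⟨a, ha, hmin⟩ := Set.exists_min_image _ (fun z : St V s => 1 - hh G z) hfin hne
      refine ⟨1 - hh G a, ?_, fun z h1 h2 => hmin z ⟨h2, h1⟩⟩
      have := hh_lt_one hG a ha.2
      linarith
    · refine ⟨1, one_pos, fun z h1 h2 => ?_⟩
      exact absurd ⟨z, h2, h1⟩ hne
  mono z _ h := by
    rw [H2_mono z h, sub_zero]
  bad ε hε := by
    obtain ⟨z, hz, hz2⟩ := hh_sup z0 h0 hp ε hε
    exact ⟨z, hz, by linarith⟩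

end UC
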