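import Pool.Agent.helper25.UC.Main

/-!
# H4 : existence of the process

`Ω = List V → V` with the infinite product of the laws `μ l`, where `μ l` is the law of the next
selection after the history `l`.  `W n ω = ω (H n ω)` with the history `H n ω` of length `n`.
The event `{W_i = w_i, i < n}` is the finite product cylinder `{ω (hist w i) = w i, i < n}` and
the lists `hist w i` are different.
-/

namespace UC
open Finset MeasureTheory
variable {V : Type} [Fintype V] [DecidableEq V] {s : ℕ}
variable {G : SimpleGraph V} [DecidableRel G.Adj]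

namespace H4

/-- the first `n` selections as a list -/
def hist (w : ℕ → V) (n : ℕ) : List V := (List.range n).map w

omit [Fintype V] [DecidableEq V] in
theorem hist_length (w : ℕ → V) (n : ℕ) : (hist w n).length = n := by simp [hist]

omit [Fintype V] [DecidableEq V] in
theorem hist_succ (w : ℕ → V) (n : ℕ) : hist w (n + 1) = hist w n ++ [w n] := by
  simp [hist, List.range_succ]

omit [Fintype V] [DecidableEq V] in
theorem hist_inj (w : ℕ → V) : Function.Injective (hist w) := by
  intro a b h
  have := congrArg List.length h
  simpa [hist_length] using this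

/-- state after the history `l` -/
def runL (G : SimpleGraph V) [DecidableRel G.Adj] (z0 : St V s) (l : List V) : St V s :=
  l.foldl (step G) z0

omit [Fintype V] [DecidableEq V] in
theorem run_eq (z0 : St V s) (w : ℕ → V) (n : ℕ) : run G z0 w n = runL G z0 (hist w n) := by
  induction n with
  | zero => simp [run, runL, hist]
  | succ n ih => simp [run, runL, hist_succ, List.foldl_append, ih]

variable [MeasurableSpace V]

/-- law of the next selection from the state `z` -/
noncomputable def nu (v0 : V) (z : St V s) : Measure V :=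
  if 1 ≤ tot z then ∑ v, (ENNReal.ofReal ((z.n v : ℝ) / tot z)) • Measure.dirac v
  else Measure.dirac v0

theorem tot_nonneg (z : St V s) : 0 ≤ tot z := by
  unfold tot; exact Finset.sum_nonneg fun v _ => Nat.cast_nonneg _

instance nu_prob (v0 : V) (z : St V s) : IsProbabilityMeasure (nu v0 z) := by
  unfold nu
  split_ifs with h
  · constructor
    rw [Measure.finset_sum_apply]
    simp only [Measure.smul_apply, measure_univ, smul_eq_mul, mul_one]
    rw [← ENNReal.ofReal_sum_of_nonneg]
    · rw [← Finset.sum_div]
      have : (∑ v, (z.n v : ℝ)) = tot z := rfl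
      rw [this, div_self (by linarith)]
      simp
    · intro v _
      exact div_nonneg (Nat.cast_nonneg _) (by linarith)
  · infer_instance

theorem nu_apply [MeasurableSingletonClass V] (v0 : V) (z : St V s) (h : 1 ≤ tot z) (v : V) :
    nu v0 z {v} = ENNReal.ofReal ((z.n v : ℝ) / tot z) := by
  unfold nu
  rw [if_pos h, Measure.finset_sum_apply]
  simp only [Measure.smul_apply, smul_eq_mul]
  rw [Finset.sum_eq_single v]
  · simp
  · intro u _ hu
    rw [Measure.dirac_apply' _ (measurableSet_singleton v)]
    simp [Set.indicator, hu]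
  · intro h; exact absurd (Finset.mem_univ v) h

/-- the history -/
def H : ℕ → (List V → V) → List V
  | 0, _ => []
  | n + 1, ω => H n ω ++ [ω (H n ω)]

/-- the selections -/
def W (n : ℕ) (ω : List V → V) : V := ω (H n ω)

omit [Fintype V] [DecidableEq V] [MeasurableSpace V] in
theorem H_eq (ω : List V → V) (n : ℕ) : H n ω = hist (fun i => W i ω) n := by
  induction n with
  | zero => simp [H, hist]
  | succ n ih => rw [hist_succ, H, ← ih]; rfl

omit [Fintype V] [DecidableEq V] [MeasurableSpace V] in
theorem hist_congr {w w' : ℕ → V} {n : ℕ} (h : ∀ i < n, w i = w' i) : hist w n = hist w' n := by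
  unfold hist
  apply List.map_congr_left
  intro i hi
  exact h i (List.mem_range.1 hi)

omit [Fintype V] [DecidableEq V] [MeasurableSpace V] in
theorem event_eq (w : ℕ → V) (n : ℕ) :
    {ω : List V → V | ∀ i < n, W i ω = w i} = {ω | ∀ i < n, ω (hist w i) = w i} := by
  ext ω
  simp only [Set.mem_setOf_eq]
  induction n with
  | zero => simp
  | succ n ih =>
    have e1 : (∀ i < n + 1, W i ω = w i) ↔ (∀ i < n, W i ω = w i) ∧ W n ω = w n := by
      constructor
      · intro h; exact ⟨fun i hi => h i (by omega), h n (by omega)⟩
      · rintro ⟨h1, h2⟩ i hi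
        rcases Nat.lt_succ_iff_lt_or_eq.1 hi with h | h
        · exact h1 i h
        · exact h ▸ h2
    have e2 : (∀ i < n + 1, ω (hist w i) = w i) ↔
        (∀ i < n, ω (hist w i) = w i) ∧ ω (hist w n) = w n := by
      constructor
      · intro h; exact ⟨fun i hi => h i (by omega), h n (by omega)⟩
      · rintro ⟨h1, h2⟩ i hi
        rcases Nat.lt_succ_iff_lt_or_eq.1 hi with h | h
        · exact h1 i h
        · exact h ▸ h2
    rw [e1, e2, ← ih]
    constructor
    · rintro ⟨h1, h2⟩
      refine ⟨h1, ?_⟩
      rw [← hist_congr h1, ← H_eq]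
      exact h2
    · rintro ⟨h1, h2⟩
      refine ⟨h1, ?_⟩
      rw [← hist_congr h1, ← H_eq] at h2
      exact h2

omit [Fintype V] [DecidableEq V] in
theorem H_meas [Countable V] [MeasurableSingletonClass V] (n : ℕ) (l : List V) :
    MeasurableSet {ω : List V → V | H n ω = l} := by
  induction n generalizing l with
  | zero => simp [H]
  | succ n ih =>
    have : {ω : List V → V | H (n + 1) ω = l} =
        ⋃ k : List V, ({ω | H n ω = k} ∩ {ω | k ++ [ω k] = l}) := by
      ext ω
      simp [H]
    rw [this]
    apply MeasurableSet.iUnion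
    intro k
    apply (ih k).inter
    have hm : MeasurableSet ((fun ω : List V → V => ω k) ⁻¹' {v : V | k ++ [v] = l}) :=
      (measurable_pi_apply (X := fun _ : List V => V) k)
        (Set.to_countable {v : V | k ++ [v] = l}).measurableSet
    exact hm

omit [Fintype V] [DecidableEq V] in
theorem W_meas [Countable V] [MeasurableSingletonClass V] (n : ℕ) (v : V) :
    MeasurableSet {ω : List V → V | W n ω = v} := by
  have : {ω : List V → V | W n ω = v} = ⋃ k : List V, ({ω | H n ω = k} ∩ {ω | ω k = v}) := by
    ext ω
    simp [W]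
  rw [this]
  apply MeasurableSet.iUnion
  intro k
  apply (H_meas n k).inter
  have hm : MeasurableSet ((fun ω : List V → V => ω k) ⁻¹' {v}) :=
    (measurable_pi_apply (X := fun _ : List V => V) k) (measurableSet_singleton v)
  exact hm

theorem P_event [MeasurableSingletonClass V] (z0 : St V s) (v0 : V) (w : ℕ → V) (n : ℕ) :
    Measure.infinitePi (fun l : List V => nu v0 (runL G z0 l)) {ω | ∀ i < n, W i ω = w i} =
      ∏ i ∈ range n, nu v0 (run G z0 w i) {w i} := by
  have hinj := hist_inj w
  classical
  rw [event_eq]
  have : {ω : List V → V | ∀ i < n, ω (hist w i) = w i} =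
      Set.pi ((range n).image (hist w) : Finset (List V))
        (fun l => {w l.length}) := by
    ext ω
    simp [Set.mem_pi, hist_length]
  rw [this, Measure.infinitePi_pi _ (fun i _ => measurableSet_singleton _),
    Finset.prod_image (fun a _ b _ h => hinj h)]
  apply Finset.prod_congr rfl
  intro i _
  rw [hist_length, run_eq]

omit [DecidableEq V] [MeasurableSpace V] in
theorem tot_ge_of (z : St V s) (v : V) (h : 1 ≤ z.n v) : 1 ≤ tot z := by
  unfold tot
  have h1 : (1 : ℝ) ≤ z.n v := by exact_mod_cast h
  exact h1.trans (Finset.single_le_sum (f := fun v => (z.n v : ℝ))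
    (fun u _ => Nat.cast_nonneg _) (Finset.mem_univ v))

theorem tot_run [MeasurableSingletonClass V] (z0 : St V s) (h0 : 1 ≤ tot z0) (v0 : V)
    (w : ℕ → V) (n : ℕ) (h : ∏ i ∈ range n, nu v0 (run G z0 w i) {w i} ≠ 0) :
    1 ≤ tot (run G z0 w n) := by
  induction n with
  | zero => simpa [run] using h0
  | succ n ih =>
    rw [Finset.prod_range_succ] at h
    have h1 := ih (left_ne_zero_of_mul h)
    have h2 := right_ne_zero_of_mul h
    rw [nu_apply _ _ h1] at h2
    have h3 : 1 ≤ (run G z0 w n).n (w n) := by
      by_contra hc
      have : (run G z0 w n).n (w n) = 0 := by omega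
      rw [this] at h2
      simp at h2
    apply tot_ge_of _ (w n)
    simp only [run, step]
    simpa using h3

end H4

open H4 in
theorem exists_urn (z0 : St V s) (h0 : 1 ≤ tot z0) :
    ∃ (Ω : Type) (_ : MeasurableSpace Ω) (P : Measure Ω) (_ : IsProbabilityMeasure P)
      (W : ℕ → Ω → V), IsUrn G z0 P W := by
  let _ : MeasurableSpace V := ⊤
  have : MeasurableSingletonClass V := ⟨fun _ => trivial⟩
  have hV : Nonempty V := by
    by_contra hc
    rw [not_nonempty_iff] at hc
    unfold tot at h0
    simp at h0
    linarith
  obtain ⟨v0⟩ := hV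
  refine ⟨List V → V, inferInstance,
    Measure.infinitePi (fun l : List V => nu v0 (runL G z0 l)), inferInstance, H4.W, ?_⟩
  refine ⟨fun n v => W_meas n v, fun n w => ?_⟩
  rw [P_event, P_event, Finset.prod_range_succ]
  by_cases hz : ∏ i ∈ range n, nu v0 (run G z0 w i) {w i} = 0
  · rw [hz, zero_mul, zero_mul]
  · rw [nu_apply _ _ (tot_run z0 h0 v0 w n hz)]

end UC
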