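import Pool.Agent.helper25.UC.H3
import Pool.Agent.helper25.UC.H4
import Pool.Agent.helper25.UC.H5

/-!
# H6 : `InG` in terms of `hh`

Let `IsUrn G z0 P W`, `Z_m(ω) = run G z0 (W · ω) m`, `tot z0 ≥ 1`.  By `ae_selected` and `survive_iff`,
for almost all `ω`: `(∃! a, Survives …) ↔ ∃ m, ¬ TwoCol Z_m(ω)`, and (by `twoCol_of_step`) the events
`A_m = {TwoCol Z_m}` are decreasing up to null sets.  `P(A_m) = hseq m z0 → hh z0` (`prob_event`,
`hseq_tendsto`), so `P(⋂ A_m) = hh z0`.
* `inG_of_zero`: `hh z0 = 0` for all nonempty `z0`, so `P(⋂A_m) = 0`.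
* `not_inG_of_pos`: take the process from `exists_urn` (H4): `P(⋂A_m) > 0`.
-/

namespace UC
open Finset MeasureTheory
variable {V : Type} [Fintype V] [DecidableEq V] {s : ℕ}
variable {G : SimpleGraph V} [DecidableRel G.Adj]

omit [DecidableEq V] in
theorem h6_countable : Countable (St V s) :=
  Function.Injective.countable (f := fun z : St V s => (z.n, z.c)) (by
    intro a b h
    simp only [Prod.mk.injEq] at h
    exact St.ext h.1 h.2)

theorem h6_meas_run (z0 : St V s) {Ω : Type} [MeasurableSpace Ω]
    (P : Measure Ω) (W : ℕ → Ω → V) (hW : IsUrn G z0 P W) (m : ℕ) (z : St V s) :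
    MeasurableSet {ω | run G z0 (fun n => W n ω) m = z} := by
  haveI : Countable (St V s) := h6_countable
  induction m generalizing z with
  | zero => by_cases h : z0 = z <;> simp [run, h]
  | succ m ih =>
    have : {ω | run G z0 (fun n => W n ω) (m+1) = z} =
        ⋃ (z' : St V s) (w : V) (_ : step G z' w = z),
          ({ω | run G z0 (fun n => W n ω) m = z'} ∩ {ω | W m ω = w}) := by
      ext ω
      simp only [Set.mem_setOf_eq, Set.mem_iUnion, Set.mem_inter_iff, run]
      constructor
      · intro h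
        exact ⟨_, _, h, rfl, rfl⟩
      · rintro ⟨z', w, h, h1, h2⟩
        rw [h1, h2]
        exact h
    rw [this]
    exact MeasurableSet.iUnion fun z' => MeasurableSet.iUnion fun w =>
      MeasurableSet.iUnion fun _ => (ih z').inter (hW.meas m w)

theorem h6_meas_two (z0 : St V s) {Ω : Type} [MeasurableSpace Ω]
    (P : Measure Ω) (W : ℕ → Ω → V) (hW : IsUrn G z0 P W) (m : ℕ) :
    MeasurableSet {ω | TwoCol (run G z0 (fun n => W n ω) m)} := by
  haveI : Countable (St V s) := h6_countable
  have : {ω | TwoCol (run G z0 (fun n => W n ω) m)} =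
      ⋃ (z : St V s) (_ : TwoCol z), {ω | run G z0 (fun n => W n ω) m = z} := by
    ext ω
    simp only [Set.mem_setOf_eq, Set.mem_iUnion]
    constructor
    · intro h
      exact ⟨_, h, rfl⟩
    · rintro ⟨z', h, h1⟩
      rw [h1]
      exact h
  rw [this]
  exact MeasurableSet.iUnion fun z' => MeasurableSet.iUnion fun _ => h6_meas_run z0 P W hW m z'

omit [DecidableEq V] in
theorem h6_tot (z0 : St V s) (h : ∃ v, 1 ≤ z0.n v) : 1 ≤ tot z0 := by
  obtain ⟨v, hv⟩ := h
  have h1 : (1:ℝ) ≤ (z0.n v : ℝ) := by exact_mod_cast hv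
  have h2 : (z0.n v : ℝ) ≤ tot z0 := by
    unfold tot
    exact Finset.single_le_sum (f := fun v => (z0.n v : ℝ)) (fun i _ => Nat.cast_nonneg _)
      (Finset.mem_univ v)
  linarith

omit [DecidableEq V] in
theorem h6_ex (z0 : St V s) (h : 1 ≤ tot z0) : ∃ v, 1 ≤ z0.n v := by
  by_contra hc
  push Not at hc
  have : tot z0 = 0 := by
    unfold tot
    apply Finset.sum_eq_zero
    intro v _
    have := hc v
    have h0 : z0.n v = 0 := by omega
    simp [h0]
  linarith

theorem inG_of_zero (h : ∀ z : St V s, 1 ≤ tot z → hh G z = 0) : InG G s := by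
  intro z0 hz0 Ω _ P _ W hW
  have h0 := h6_tot z0 hz0
  have hzero : P (⋂ m, {ω | TwoCol (run G z0 (fun n => W n ω) m)}) = 0 := by
    have h1 : ∀ m, P (⋂ m, {ω | TwoCol (run G z0 (fun n => W n ω) m)})
        ≤ ENNReal.ofReal (hseq G m z0) := by
      intro m
      rw [← prob_event z0 h0 P W hW m]
      exact measure_mono (Set.iInter_subset _ m)
    have h2 : Filter.Tendsto (fun m => ENNReal.ofReal (hseq G m z0)) Filter.atTop
        (nhds (ENNReal.ofReal (hh G z0))) := ENNReal.tendsto_ofReal (hseq_tendsto z0)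
    have h3 := ge_of_tendsto' h2 h1
    rw [h z0 h0] at h3
    simpa using h3
  have hae : ∀ᵐ ω ∂P, ¬ ω ∈ (⋂ m, {ω | TwoCol (run G z0 (fun n => W n ω) m)}) :=
    measure_eq_zero_iff_ae_notMem.mp hzero
  filter_upwards [hae, ae_selected z0 h0 P W hW] with ω h1 h2
  rw [survive_iff z0 h0 _ h2]
  simp only [Set.mem_iInter, Set.mem_setOf_eq, not_forall] at h1
  exact h1

theorem not_inG_of_pos (z0 : St V s) (h0 : 1 ≤ tot z0) (hp : 0 < hh G z0) : ¬ InG G s := by
  intro hG
  obtain ⟨Ω, mΩ, P, hP, W, hW⟩ := exists_urn (G := G) z0 h0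
  have h1 := hG z0 (h6_ex z0 h0) Ω mΩ P hP W hW
  have hsel := ae_selected z0 h0 P W hW
  set A : ℕ → Set Ω := fun m => {ω | TwoCol (run G z0 (fun n => W n ω) m)} with hA
  have hAm : ∀ m, MeasurableSet (A m) := fun m => h6_meas_two z0 P W hW m
  have hnot : ∀ᵐ ω ∂P, ∃ m, ω ∉ A m := by
    filter_upwards [h1, hsel] with ω h2 h3
    rw [survive_iff z0 h0 _ h3] at h2
    exact h2
  have hz : P (⋂ m, A m) = 0 := by
    rw [measure_eq_zero_iff_ae_notMem]
    filter_upwards [hnot] with ω h2
    simp only [Set.mem_iInter, not_forall]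
    exact h2
  -- decreasing events
  set B : ℕ → Set Ω := fun m => ⋂ i ∈ Set.Iic m, A i with hB
  have hBA : ∀ m, P (B m) = P (A m) := by
    intro m
    apply measure_congr
    have : ∀ᵐ ω ∂P, (ω ∈ B m ↔ ω ∈ A m) := by
      filter_upwards [hsel] with ω h3
      constructor
      · intro h4
        simp only [hB, Set.mem_iInter, Set.mem_Iic] at h4
        exact h4 m le_rfl
      · intro h4
        have key : ∀ j, j ≤ m → ω ∈ A (m - j) := by
          intro j
          induction j with
          | zero => intro _; simpa using h4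
          | succ j ih =>
            intro hj
            have h5 := ih (by omega)
            have h6 : m - j = (m - (j+1)) + 1 := by omega
            rw [h6] at h5
            exact twoCol_of_step (G := G) (run G z0 (fun n => W n ω) (m - (j+1)))
              (W (m - (j+1)) ω) (h3 _) h5
        simp only [hB, Set.mem_iInter, Set.mem_Iic]
        intro i hi
        have := key (m - i) (by omega)
        rwa [Nat.sub_sub_self hi] at this
    filter_upwards [this] with ω h5
    exact propext h5
  have hBanti : Antitone B := by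
    intro a b hab
    apply Set.biInter_subset_biInter_left
    exact Set.Iic_subset_Iic.mpr hab
  have hBm : ∀ m, MeasurableSet (B m) := fun m =>
    MeasurableSet.biInter (Set.to_countable _) (fun i _ => hAm i)
  have hBI : ⋂ m, B m = ⋂ m, A m := by
    ext ω
    simp only [hB, Set.mem_iInter, Set.mem_Iic]
    exact ⟨fun h m => h m m le_rfl, fun h m i _ => h i⟩
  have hlim := tendsto_measure_iInter_atTop (μ := P) (fun m => (hBm m).nullMeasurableSet) hBanti
    ⟨0, measure_ne_top P _⟩
  rw [hBI, hz] at hlim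
  have hge : ∀ m, ENNReal.ofReal (hh G z0) ≤ P (B m) := by
    intro m
    rw [hBA m]
    have := prob_event z0 h0 P W hW m
    rw [hA]
    simp only
    rw [this]
    apply ENNReal.ofReal_le_ofReal
    exact (hseq_anti (G := G) z0).le_of_tendsto (hseq_tendsto z0) m
  have hfin := ge_of_tendsto' hlim hge
  have : ENNReal.ofReal (hh G z0) = 0 := by simpa using hfin
  rw [ENNReal.ofReal_eq_zero] at this
  linarith

end UC
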