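import Pool.Agent.helper25.UC.K1
import Pool.Agent.helper25.UC.B1
import Pool.Agent.helper25.UC.A3

/-!
# K4 : after a kick the envelope is large

Data: `(c,y)` admissible without strict mass, `r0 : V → ℝ` supported on `{e_0 ≠ 0} ⊆ I`,
`μ + (2/τ)∑ (y - r0)² ≤ Th F E' c y`, `μ > 0`.
`z` matched (`z.c = σ` on `I`), `o2(z) ≤ Kt tot z`, `N = tot z ≥ 1`, `Λ = L √N`,
`|m_v - Λ r0_v| ≤ 1`, `m_v = 0` if `e_0 v = 0`, `n_v + m_v ≥ 0`.

Test point `Y = (c', Y_v)`, `Y_v = ∑ a_j(z) e_j(v) + Λ y_v`, `c' = σ` on `I`; off `I`: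
`c'_v = c_v` if `y_v > 0`, `c'_v = z.c v` otherwise.  Admissible (`∑ a_j e_j = 0` off `I`,
`Λ y_v ≥ 0`).  `rho(Y) = Λ rho(y)`; `ell_j(Y) = 0` (no strict mass);
`AA c' (rho Y) c' (rho Y) = Λ² AA c (rho y) c (rho y)`; `o2(Y) = Λ² o2(y)`.  By `Th_eq`
`Th(Y) = Λ² Th(c,y)`.
Distance: `|n_v + m_v - ε Y_v| ≤ (|ρ_v| + 1) + Λ|y_v - r0_v|`; weighted Young inequality with
`η = μ τ / (8 (D² + 1))`.
-/

namespace UC
open Finset
variable {V : Type} [Fintype V] [DecidableEq V] {s k : ℕ}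
variable {G : SimpleGraph V} [DecidableRel G.Adj]

theorem k4_young {η : ℝ} (hη : 0 < η) (a b : ℝ) :
    (a + b) ^ 2 ≤ (1 + 1 / η) * a ^ 2 + (1 + η) * b ^ 2 := by
  have h : (1 + 1 / η) * a ^ 2 + (1 + η) * b ^ 2 - (a + b) ^ 2 = (a - η * b) ^ 2 / η := by
    field_simp
    ring
  have h2 : 0 ≤ (a - η * b) ^ 2 / η := by positivity
  linarith

theorem Flag.k4_a_comb (F : Flag G s k) (b : Fin k → ℝ) (j : Fin k) :
    F.a j (fun v => ∑ i, b i * F.e i v) = b j := by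
  simp only [Flag.a]
  simp_rw [Finset.sum_mul, mul_assoc]
  rw [Finset.sum_comm]
  simp_rw [← Finset.mul_sum, F.orth]
  simp

theorem k4_eps_self (a : Fin s) : eps a a = 1 := by simp [eps]

theorem k4_eps_abs (a b : Fin s) : |eps a b| = 1 := by
  unfold eps
  split_ifs <;> simp

theorem Flag.kick_env (F : Flag G s (k + 1)) (E τ : ℝ) (hE : |E| ≤ cV V + 2) (hτ : 0 < τ)
    (hτ0 : τ ≤ tau0 V) (c : V → Fin s) (y r0 : V → ℝ) (hA : F.Adm c y)
    (hN : ∀ v, v ∉ F.I → 0 < y v → ∀ j, Lf G F.σ (c v) v (F.e j) = 0)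
    (hr : ∀ v, F.e 0 v = 0 → r0 v = 0) (μ : ℝ) (hμ : 0 < μ)
    (hk : μ + 2 / τ * ∑ v, (y v - r0 v) ^ 2 ≤ F.Th E c y) (Kt : ℝ) :
    ∃ L0 > 0, ∀ L : ℝ, L0 ≤ L → ∀ z : St V s, F.Match z → 1 ≤ tot z →
      F.o2 (nR z) ≤ Kt * tot z → ∀ m : V → ℤ,
      (∀ v, F.e 0 v = 0 → m v = 0) → (∀ v, 0 ≤ (z.n v : ℤ) + m v) →
      (∀ v, |(m v : ℝ) - L * Real.sqrt (tot z) * r0 v| ≤ 1) →
      μ / 2 * L ^ 2 * tot z ≤ F.env E (τ / 2) (shift z m) := by
  have hn0 : (0 : ℝ) ≤ cV V := Nat.cast_nonneg _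
  set D2 : ℝ := ∑ v, (y v - r0 v) ^ 2 with hD2
  have hD2' : 0 ≤ D2 := Finset.sum_nonneg fun v _ => sq_nonneg _
  set η : ℝ := μ * τ / (8 * (D2 + 1)) with hη
  have hη' : 0 < η := by positivity
  have hη2 : 2 / τ * η * D2 ≤ μ / 4 := by
    have h1 : 2 / τ * η * D2 = μ / 4 * (D2 / (D2 + 1)) := by
      rw [hη]
      field_simp
      ring
    rw [h1]
    have h2 : D2 / (D2 + 1) ≤ 1 := by
      rw [div_le_one (by linarith)]
      linarith
    calc μ / 4 * (D2 / (D2 + 1)) ≤ μ / 4 * 1 := by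
          apply mul_le_mul_of_nonneg_left h2 (by linarith)
      _ = μ / 4 := mul_one _
  set M : ℝ := 2 / τ * ((1 + 1 / η) * (2 * |Kt| + 2 * cV V)) with hM
  have hM' : 0 ≤ M := by positivity
  refine ⟨1 + 4 * M / μ, by positivity, ?_⟩
  intro L hL z hz ht ho m hm0 hm1 hm2
  have hMμ : 0 ≤ 4 * M / μ := by positivity
  have hL1 : 1 ≤ L := by linarith
  have hT : 0 ≤ tot z := by linarith
  have hLM : M ≤ μ / 4 * L ^ 2 := by
    have h1 : 4 * M / μ ≤ L := by linarith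
    rw [div_le_iff₀ hμ] at h1
    nlinarith
  set Λ : ℝ := L * Real.sqrt (tot z) with hΛ
  have hΛ0 : 0 ≤ Λ := by positivity
  have hΛ2 : Λ ^ 2 = L ^ 2 * tot z := by
    rw [hΛ, mul_pow, Real.sq_sqrt hT]
  -- the test point
  set Y : V → ℝ := fun v => (∑ j, F.a j (nR z) * F.e j v) + Λ * y v with hY
  set c' : V → Fin s := fun v => if v ∈ F.I then F.σ v else if 0 < y v then c v else z.c v
    with hc'
  have hc'I : ∀ v ∈ F.I, c' v = F.σ v := by
    intro v hv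
    simp only [hc', if_pos hv]
  have hc'c : ∀ v, (v ∈ F.I ∨ 0 < y v) → c' v = c v := by
    intro v hv
    by_cases hvI : v ∈ F.I
    · rw [hc'I v hvI, hA.1 v hvI]
    · have hv' : 0 < y v := hv.resolve_left hvI
      simp only [hc', if_neg hvI, if_pos hv']
  have hYoff : ∀ v, v ∉ F.I → Y v = Λ * y v := by
    intro v hv
    have h0 : ∑ j, F.a j (nR z) * F.e j v = 0 :=
      Finset.sum_eq_zero fun j _ => by rw [F.supp j v hv, mul_zero]
    simp only [hY, h0, zero_add]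
  have hAdm : F.Adm c' Y := by
    refine ⟨hc'I, fun v hv => ?_⟩
    rw [hYoff v hv]
    exact mul_nonneg hΛ0 (hA.2 v hv)
  have haY : ∀ j, F.a j Y = F.a j (nR z) + Λ * F.a j y := by
    intro j
    rw [hY, F.a_add j (fun v => ∑ i, F.a i (nR z) * F.e i v) (fun v => Λ * y v), F.k4_a_comb,
      F.a_smul]
  have hrho : ∀ v, F.rho Y v = Λ * F.rho y v := by
    intro v
    have h1 : F.rho Y v = Y v - ∑ j, F.a j Y * F.e j v := rfl
    have h2 : Y v = (∑ j, F.a j (nR z) * F.e j v) + Λ * y v := rfl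
    have h3 : ∑ j, F.a j Y * F.e j v =
        (∑ j, F.a j (nR z) * F.e j v) + Λ * ∑ j, F.a j y * F.e j v := by
      rw [Finset.mul_sum, ← Finset.sum_add_distrib]
      exact Finset.sum_congr rfl fun j _ => by rw [haY]; ring
    have h4 : F.rho y v = y v - ∑ j, F.a j y * F.e j v := rfl
    rw [h1, h2, h3, h4]
    ring
  have ho2Y : F.o2 Y = Λ ^ 2 * F.o2 y := by
    rw [F.o2_eq, F.o2_eq, Finset.mul_sum]
    exact Finset.sum_congr rfl fun v _ => by rw [hrho v]; ring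
  have helly : ∀ j, F.ell c y j = 0 := by
    intro j
    simp only [Flag.ell]
    refine Finset.sum_eq_zero fun v _ => ?_
    by_cases hv : v ∈ F.I
    · rw [if_pos hv]
    · rw [if_neg hv]
      rcases eq_or_lt_of_le (hA.2 v hv) with h0 | hpos
      · rw [← h0, zero_mul]
      · rw [hN v hv hpos j, mul_zero]
  have hellY : ∀ j, F.ell c' Y j = 0 := by
    intro j
    simp only [Flag.ell]
    refine Finset.sum_eq_zero fun v _ => ?_
    by_cases hv : v ∈ F.I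
    · rw [if_pos hv]
    · rw [if_neg hv, hYoff v hv]
      rcases eq_or_lt_of_le (hA.2 v hv) with h0 | hpos
      · rw [← h0, mul_zero, zero_mul]
      · rw [hc'c v (Or.inr hpos), hN v hv hpos j, mul_zero]
  have hzero : ∀ v, ¬ (v ∈ F.I ∨ 0 < y v) → F.rho y v = 0 := by
    intro v hv
    push Not at hv
    rw [F.rho_off y v hv.1]
    exact le_antisymm hv.2 (hA.2 v hv.1)
  have hAA : AA G c' (F.rho Y) c' (F.rho Y) = Λ ^ 2 * AA G c (F.rho y) c (F.rho y) := by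
    simp only [AA, Finset.mul_sum]
    refine Finset.sum_congr rfl fun u _ => Finset.sum_congr rfl fun v _ => ?_
    by_cases hadj : G.Adj u v
    · rw [if_pos hadj, if_pos hadj, hrho u, hrho v]
      by_cases hu : u ∈ F.I ∨ 0 < y u
      · by_cases hv : v ∈ F.I ∨ 0 < y v
        · rw [hc'c u hu, hc'c v hv]
          ring
        · rw [hzero v hv]
          ring
      · rw [hzero u hu]
        ring
    · rw [if_neg hadj, if_neg hadj, mul_zero]
  have hTh : F.Th E c' Y = Λ ^ 2 * F.Th E c y := by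
    rw [F.Th_eq E c' Y hc'I, F.Th_eq E c y hA.1, hAA, ho2Y]
    simp only [hellY, helly, mul_zero, Finset.sum_const_zero]
    ring
  -- the distance
  have hn : ∀ v, nR (shift z m) v = (z.n v : ℝ) + (m v : ℝ) := by
    intro v
    simp only [nR, shift]
    have h1 := Int.toNat_of_nonneg (hm1 v)
    have h2 : ((((z.n v : ℤ) + m v).toNat : ℤ) : ℝ) = (((z.n v : ℤ) + m v : ℤ) : ℝ) := by
      rw [h1]
    push_cast at h2
    simpa using h2
  have hterm : ∀ v, (nR (shift z m) v - eps ((shift z m).c v) (c' v) * Y v) ^ 2 ≤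
      (1 + 1 / η) * (2 * F.rho (nR z) v ^ 2 + 2) + (1 + η) * (Λ ^ 2 * (y v - r0 v) ^ 2) := by
    intro v
    have habs : |nR (shift z m) v - eps ((shift z m).c v) (c' v) * Y v| ≤
        (|F.rho (nR z) v| + 1) + Λ * |y v - r0 v| := by
      have hcv : (shift z m).c v = z.c v := rfl
      rw [hn, hcv]
      by_cases hv : v ∈ F.I
      · rw [hc'I v hv, (hz v hv).1, k4_eps_self, one_mul]
        have h1 : (z.n v : ℝ) + m v - Y v =
            F.rho (nR z) v + (m v - Λ * r0 v) + -(Λ * (y v - r0 v)) := by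
          simp only [hY, Flag.rho, nR]
          ring
        rw [h1]
        have h2 := hm2 v
        calc |F.rho (nR z) v + (m v - Λ * r0 v) + -(Λ * (y v - r0 v))|
            ≤ |F.rho (nR z) v + (m v - Λ * r0 v)| + |-(Λ * (y v - r0 v))| := abs_add_le _ _
          _ ≤ (|F.rho (nR z) v| + |m v - Λ * r0 v|) + |-(Λ * (y v - r0 v))| := by
              gcongr
              exact abs_add_le _ _
          _ ≤ (|F.rho (nR z) v| + 1) + Λ * |y v - r0 v| := by
              rw [abs_neg, abs_mul, abs_of_nonneg hΛ0]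
              gcongr
      · have he0 : F.e 0 v = 0 := F.supp 0 v hv
        rw [hm0 v he0, hr v he0, hYoff v hv, F.rho_off _ v hv]
        have hyv := hA.2 v hv
        simp only [Int.cast_zero, add_zero, sub_zero, nR]
        have hnv : (0 : ℝ) ≤ (z.n v : ℝ) := Nat.cast_nonneg _
        calc |(z.n v : ℝ) - eps (z.c v) (c' v) * (Λ * y v)|
            ≤ |(z.n v : ℝ)| + |eps (z.c v) (c' v) * (Λ * y v)| := abs_sub _ _
          _ = |(z.n v : ℝ)| + Λ * |y v| := by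
              rw [abs_mul, k4_eps_abs, one_mul, abs_mul, abs_of_nonneg hΛ0]
          _ ≤ |(z.n v : ℝ)| + 1 + Λ * |y v| := by linarith
    have h1 : (nR (shift z m) v - eps ((shift z m).c v) (c' v) * Y v) ^ 2 ≤
        ((|F.rho (nR z) v| + 1) + Λ * |y v - r0 v|) ^ 2 := by
      rw [← sq_abs]
      exact pow_le_pow_left₀ (abs_nonneg _) habs 2
    have h2 := k4_young hη' (|F.rho (nR z) v| + 1) (Λ * |y v - r0 v|)
    have h3 : (|F.rho (nR z) v| + 1) ^ 2 ≤ 2 * F.rho (nR z) v ^ 2 + 2 := by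
      have := sq_nonneg (|F.rho (nR z) v| - 1)
      have h4 := sq_abs (F.rho (nR z) v)
      nlinarith
    have h4 : (Λ * |y v - r0 v|) ^ 2 = Λ ^ 2 * (y v - r0 v) ^ 2 := by
      rw [mul_pow, sq_abs]
    rw [h4] at h2
    have h5 : (1 + 1 / η) * (|F.rho (nR z) v| + 1) ^ 2 ≤
        (1 + 1 / η) * (2 * F.rho (nR z) v ^ 2 + 2) :=
      mul_le_mul_of_nonneg_left h3 (by positivity)
    linarith
  have hdist : dsq (shift z m).c (nR (shift z m)) c' Y ≤
      (1 + 1 / η) * (2 * |Kt| + 2 * cV V) * tot z + (1 + η) * (Λ ^ 2 * D2) := by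
    have h1 : dsq (shift z m).c (nR (shift z m)) c' Y ≤
        ∑ v, ((1 + 1 / η) * (2 * F.rho (nR z) v ^ 2 + 2) +
          (1 + η) * (Λ ^ 2 * (y v - r0 v) ^ 2)) := by
      simp only [dsq]
      exact Finset.sum_le_sum fun v _ => hterm v
    have h2 : ∑ v, ((1 + 1 / η) * (2 * F.rho (nR z) v ^ 2 + 2) +
          (1 + η) * (Λ ^ 2 * (y v - r0 v) ^ 2)) =
        (1 + 1 / η) * (2 * F.o2 (nR z) + 2 * cV V) + (1 + η) * (Λ ^ 2 * D2) := by
      rw [Finset.sum_add_distrib, ← Finset.mul_sum, ← Finset.mul_sum, ← Finset.mul_sum,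
        Finset.sum_add_distrib, ← Finset.mul_sum, ← F.o2_eq, Finset.sum_const, Finset.card_univ,
        nsmul_eq_mul]
      simp only [cV]
      ring
    have h3 : 2 * F.o2 (nR z) + 2 * cV V ≤ (2 * |Kt| + 2 * cV V) * tot z := by
      have h4 : Kt * tot z ≤ |Kt| * tot z := mul_le_mul_of_nonneg_right (le_abs_self _) hT
      have h5 : cV V * 1 ≤ cV V * tot z := mul_le_mul_of_nonneg_left ht hn0
      linarith
    have h6 : (1 + 1 / η) * (2 * F.o2 (nR z) + 2 * cV V) ≤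
        (1 + 1 / η) * ((2 * |Kt| + 2 * cV V) * tot z) :=
      mul_le_mul_of_nonneg_left h3 (by positivity)
    linarith
  -- the conclusion
  have hle := F.le_env E (τ / 2) hE (by linarith) (by linarith) (shift z m) c' Y hAdm
  refine le_trans ?_ hle
  simp only [Flag.val]
  rw [hTh]
  have h1 : dsq (shift z m).c (nR (shift z m)) c' Y / (τ / 2) ≤
      2 / τ * ((1 + 1 / η) * (2 * |Kt| + 2 * cV V) * tot z + (1 + η) * (Λ ^ 2 * D2)) := by
    have h2 : dsq (shift z m).c (nR (shift z m)) c' Y / (τ / 2) =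
        2 / τ * dsq (shift z m).c (nR (shift z m)) c' Y := by
      field_simp
    rw [h2]
    exact mul_le_mul_of_nonneg_left hdist (by positivity)
  have h3 : Λ ^ 2 * (μ + 2 / τ * D2) ≤ Λ ^ 2 * F.Th E c y :=
    mul_le_mul_of_nonneg_left hk (sq_nonneg _)
  have h4 : 2 / τ * ((1 + 1 / η) * (2 * |Kt| + 2 * cV V) * tot z + (1 + η) * (Λ ^ 2 * D2)) =
      M * tot z + 2 / τ * Λ ^ 2 * D2 + Λ ^ 2 * (2 / τ * η * D2) := by
    rw [hM]
    ring
  have h5 : Λ ^ 2 * (2 / τ * η * D2) ≤ Λ ^ 2 * (μ / 4) :=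
    mul_le_mul_of_nonneg_left hη2 (sq_nonneg _)
  have h6 : M * tot z ≤ μ / 4 * L ^ 2 * tot z := mul_le_mul_of_nonneg_right hLM hT
  have h7 : Λ ^ 2 * (μ + 2 / τ * D2) = Λ ^ 2 * μ + 2 / τ * Λ ^ 2 * D2 := by ring
  have h8 : Λ ^ 2 * (μ / 4) = μ / 4 * L ^ 2 * tot z := by rw [hΛ2]; ring
  have h9 : Λ ^ 2 * μ = μ * L ^ 2 * tot z := by rw [hΛ2]; ring
  linarith

end UC
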