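import Pool.Agent.helper25.UC.K2
import Pool.Agent.helper25.UC.C3
import Pool.Agent.helper25.UC.C4
import Pool.Agent.helper25.UC.C8

/-!
# K5 : survival for a bounded (continuous) time, with growth of the envelope

See the stub `Pool.Agent.helper25.UC.K5` for the plan of the proof.
-/

namespace UC
open Finset
variable {V : Type} [Fintype V] [DecidableEq V] {s k : ℕ}
variable {G : SimpleGraph V} [DecidableRel G.Adj]

/-- the region for the bounded time argument -/
def Flag.RK (F : Flag G s (k + 1)) (E τ δs K1 Nmax : ℝ) (z0 : St V s) : Set (St V s) :=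
  {Z | F.Reg δs δs Z ∧ K1 * tot Z ≤ F.env E τ Z ∧ F.a 0 (nR z0) ≤ 32 * F.a 0 (nR Z) ∧
    tot Z ≤ Nmax}

/-- positivity of `Fh` -/
theorem Flag.K5_Fh_nonneg (F : Flag G s (k + 1)) (z : St V s) (h : ∀ j, 0 < F.a j (nR z)) :
    0 ≤ F.Fh z := by
  have h1 := F.xs_nonneg z h
  have h2 : 0 ≤ F.o2 (nR z) := F.o2_nonneg _
  have h3 : 0 ≤ tot z := by unfold tot; positivity
  unfold Flag.Fh
  positivity

/-- a violated condition in `Reg` makes `Fh` large -/
theorem Flag.K5_Fh_gt (F : Flag G s (k + 1)) (δ : ℝ) (hδ : 0 < δ) (hδ1 : δ ≤ 1) (z : St V s)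
    (h0 : 1 ≤ tot z) (h1 : ∀ v ∈ F.I, z.c v = F.σ v ∧ 1 ≤ z.n v)
    (h : ∀ j, 0 < F.a j (nR z)) (hl : ∀ j, F.a (Fin.last k) (nR z) ≤ F.a j (nR z))
    (hn : ¬ F.Reg δ δ z) : δ ^ 2 < F.Fh z := by
  have hx := F.xs_nonneg z h
  have ho : 0 ≤ F.o2 (nR z) := F.o2_nonneg _
  have hal := h (Fin.last k)
  have hal2 : 0 < F.a (Fin.last k) (nR z) ^ 2 := by positivity
  have hsq : ∀ j, F.a (Fin.last k) (nR z) ^ 2 ≤ F.a j (nR z) ^ 2 := fun j =>
    pow_le_pow_left₀ hal.le (hl j) 2
  have hq : 0 ≤ (F.o2 (nR z) + tot z) / F.a (Fin.last k) (nR z) ^ 2 := by positivity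
  by_contra hcon
  push Not at hcon
  apply hn
  unfold Flag.Fh at hcon
  have hq2 : (F.o2 (nR z) + tot z) / F.a (Fin.last k) (nR z) ^ 2 ≤ δ ^ 2 := by linarith
  rw [div_le_iff₀ hal2] at hq2
  have hd2 : 0 < δ ^ 2 := by positivity
  refine ⟨h0, h1, h, ?_, ?_, ?_⟩
  · intro i j hij
    by_contra hc
    push Not at hc
    have := F.xs_gt δ z h i j hij hc
    have : δ ^ 2 ≤ δ := by nlinarith
    linarith
  · intro j
    have := mul_le_mul_of_nonneg_left (hsq j) hd2.le
    linarith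
  · intro j
    have := mul_le_mul_of_nonneg_left (hsq j) hd2.le
    linarith

open Classical in
theorem Flag.survive (F : Flag G s (k + 1)) (E τ : ℝ) (hE0 : 0 < E) (hE : |E| ≤ cV V + 2)
    (hτ : 0 < τ) (hτ0 : τ ≤ tau0 V) (B : ℝ) (hB : 1 ≤ B) :
    ∃ Cm ≥ 1, ∃ K1 > 0, ∃ δs0 > 0, ∀ δs : ℝ, 0 < δs → δs ≤ δs0 → ∃ θi > 0,
      ∀ z0 : St V s, F.Reg δs δs z0 → F.Fh z0 ≤ θi →
      16 * K1 * ((1 + cV V * (Cm + 1)) * tot z0) ≤ F.env E τ z0 →
      1 / 2 ≤ PR G (F.RK E τ δs K1 ((1 + cV V * (Cm + 1)) * tot z0) z0)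
        (fun Z => if B * F.env E τ z0 ≤ F.env E τ Z then (1 : ℝ) else 0)
        ⌈Cm * tot z0⌉₊ z0 := by
  obtain ⟨d1, hd1, c6, hc6, C6, hC6, hF⟩ := F.reg_facts1
  obtain ⟨d2, hd2, Ka, hKa, Ca, hCa, hIE⟩ := F.inv_env_drift τ hτ hτ0
  obtain ⟨d3, hd3, Kb, hKb, hEH⟩ := F.env_half τ hτ hτ0
  obtain ⟨d4, hd4, Ci, hCi, hIA⟩ := F.inv_a_drift
  obtain ⟨d5, hd5, Cf, hCf, hFh⟩ := F.Fh_drift τ hτ hτ0
  obtain ⟨d6, hd6, Cr, hCr, hRS⟩ := F.reg_step
  -- `card V ≥ 1`
  have hn0 : (1 : ℝ) ≤ cV V := by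
    have hne : Nonempty V := by
      by_contra hne
      rw [not_nonempty_iff] at hne
      have := F.orth 0 0
      simp at this
    unfold cV
    have : 0 < Fintype.card V := Fintype.card_pos
    exact_mod_cast this
  set n0 : ℝ := cV V with hn0def
  -- constants
  set b : ℝ := min E 1 with hb
  have hb0 : 0 < b := lt_min hE0 one_pos
  have hb1 : b ≤ 1 := min_le_right _ _
  have hbE : b ≤ E := min_le_left _ _
  have h8B : (1 : ℝ) < 8 * B := by linarith
  set Cm : ℝ := Real.exp (n0 / b * Real.log (8 * B)) with hCm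
  have hCm1 : 1 ≤ Cm := by
    apply Real.one_le_exp
    have := Real.log_pos h8B
    positivity
  have hgrow : ∀ y : ℝ, Cm ≤ y → B * Real.exp (-(b / n0) * Real.log (1 + n0 * y)) ≤ 1 / 8 := by
    intro y hy
    have h1 : Cm ≤ 1 + n0 * y := by nlinarith
    have h2 : n0 / b * Real.log (8 * B) ≤ Real.log (1 + n0 * y) := by
      have := Real.log_le_log (by positivity) h1
      rwa [hCm, Real.log_exp] at this
    have h3 : -(b / n0) * Real.log (1 + n0 * y) ≤ - Real.log (8 * B) := by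
      have h4 := mul_le_mul_of_nonneg_left h2 (show 0 ≤ b / n0 by positivity)
      have h5 : b / n0 * (n0 / b * Real.log (8 * B)) = Real.log (8 * B) := by
        field_simp
      rw [h5] at h4
      linarith
    have h6 : Real.exp (-(b / n0) * Real.log (1 + n0 * y)) ≤ 1 / (8 * B) := by
      refine (Real.exp_le_exp.mpr h3).trans ?_
      rw [Real.exp_neg, Real.exp_log (by linarith)]
      simp
    calc B * Real.exp (-(b / n0) * Real.log (1 + n0 * y)) ≤ B * (1 / (8 * B)) :=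
          mul_le_mul_of_nonneg_left h6 (by linarith)
      _ = 1 / 8 := by
          have : B ≠ 0 := by linarith
          field_simp
  set K1 : ℝ := max (max Ka Kb) (Ca / E) with hK1
  have hK1a : Ka ≤ K1 := (le_max_left _ _).trans (le_max_left _ _)
  have hK1b : Kb ≤ K1 := (le_max_right _ _).trans (le_max_left _ _)
  have hK1c : Ca / E ≤ K1 := le_max_right _ _
  have hK10 : 0 < K1 := lt_of_lt_of_le hKa hK1a
  have hCK : Ca / K1 ≤ E := by
    rw [div_le_iff₀ hE0] at hK1c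
    rw [div_le_iff₀ hK10]
    linarith
  have hlog2 : 0 < Real.log 2 := Real.log_pos (by norm_num)
  set δs0 : ℝ := min (min (min (d1 / 2) d2) (min d3 d4))
    (min (min d5 d6) (min (1 / 4) (Real.log 2 / (32 * C6 * Ci * (Cm + 1))))) with hδs0
  have hp : 0 < 32 * C6 * Ci * (Cm + 1) := by positivity
  have hδs0pos : 0 < δs0 := by
    rw [hδs0]
    refine lt_min (lt_min (lt_min ?_ hd2) (lt_min hd3 hd4))
      (lt_min (lt_min hd5 hd6) (lt_min (by norm_num) ?_))
    · positivity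
    · positivity
  refine ⟨Cm, hCm1, K1, hK10, δs0, hδs0pos, ?_⟩
  intro δs hδs hδsle
  have e1 : δs ≤ d1 / 2 := hδsle.trans (((min_le_left _ _).trans (min_le_left _ _)).trans
    (min_le_left _ _))
  have e2 : δs ≤ d2 := hδsle.trans (((min_le_left _ _).trans (min_le_left _ _)).trans
    (min_le_right _ _))
  have e3 : δs ≤ d3 := hδsle.trans (((min_le_left _ _).trans (min_le_right _ _)).trans
    (min_le_left _ _))
  have e4 : δs ≤ d4 := hδsle.trans (((min_le_left _ _).trans (min_le_right _ _)).trans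
    (min_le_right _ _))
  have e5 : δs ≤ d5 := hδsle.trans (((min_le_right _ _).trans (min_le_left _ _)).trans
    (min_le_left _ _))
  have e6 : δs ≤ d6 := hδsle.trans (((min_le_right _ _).trans (min_le_left _ _)).trans
    (min_le_right _ _))
  have e7 : δs ≤ 1 / 4 := hδsle.trans (((min_le_right _ _).trans (min_le_right _ _)).trans
    (min_le_left _ _))
  have e8 : δs ≤ Real.log 2 / (32 * C6 * Ci * (Cm + 1)) :=
    hδsle.trans (((min_le_right _ _).trans (min_le_right _ _)).trans (min_le_right _ _))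
  clear_value δs0
  have hδsq : 0 < δs ^ 2 := by positivity
  set Λ3 : ℝ := Real.exp (32 * C6 * Cf * (Cm + 1)) with hΛ3
  have hΛ3pos : 0 < Λ3 := Real.exp_pos _
  refine ⟨δs ^ 2 / (16 * Λ3), by positivity, ?_⟩
  intro z0 hz0 hFz0 hTz0
  set N0 : ℝ := tot z0 with hN0
  have hN01 : 1 ≤ N0 := hz0.1
  set Nmax : ℝ := (1 + n0 * (Cm + 1)) * N0 with hNmax
  set m : ℕ := ⌈Cm * N0⌉₊ with hm
  have hmge : Cm * N0 ≤ (m : ℝ) := Nat.le_ceil _
  have hmle : (m : ℝ) ≤ (Cm + 1) * N0 := by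
    have h1 : (m : ℝ) < Cm * N0 + 1 := Nat.ceil_lt_add_one (by positivity)
    have h2 : (Cm + 1) * N0 = Cm * N0 + N0 := by ring
    linarith
  have hNmax0 : N0 ≤ Nmax := by
    rw [hNmax]
    have h1 : 0 ≤ n0 * (Cm + 1) * N0 := by positivity
    have h2 : (1 + n0 * (Cm + 1)) * N0 = N0 + n0 * (Cm + 1) * N0 := by ring
    linarith
  have hNmaxm : N0 + n0 * m ≤ Nmax := by
    rw [hNmax]
    have h1 := mul_le_mul_of_nonneg_left hmle (show 0 ≤ n0 by linarith)
    have h2 : (1 + n0 * (Cm + 1)) * N0 = N0 + n0 * ((Cm + 1) * N0) := by ring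
    linarith
  set R : Set (St V s) := F.RK E τ δs K1 Nmax z0 with hRdef
  set T : St V s → ℝ := F.env E τ with hTdef
  have hT0 : 16 * K1 * Nmax ≤ T z0 := hTz0
  have hT0pos : 0 < T z0 := by
    have : 0 < 16 * K1 * Nmax := by
      have : 0 < Nmax := by linarith
      positivity
    linarith
  have ha0pos : 0 < F.a 0 (nR z0) := hz0.2.2.1 0
  -- facts in the region
  have fact : ∀ z, F.Reg δs δs z → F.Facts c6 C6 z ∧ F.Facts1 c6 C6 z := fun z hz =>
    hF δs δs hδs.le (by linarith) hδs.le (by linarith) z hz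
  have fact2 : ∀ z, F.Reg (2 * δs) (2 * δs) z → F.Facts c6 C6 z ∧ F.Facts1 c6 C6 z := fun z hz =>
    hF (2 * δs) (2 * δs) (by linarith) (by linarith) (by linarith) (by linarith) z hz
  have hTpos : ∀ z ∈ R, 0 < T z := by
    intro z hz
    have h1 : K1 * tot z ≤ T z := hz.2.1
    have h2 : 1 ≤ tot z := hz.1.1
    have : 0 < K1 * tot z := by
      have : 0 < tot z := by linarith
      positivity
    linarith
  have htotR : ∀ z ∈ R, 1 ≤ tot z := fun z hz => hz.1.1
  -- lower bound of the total in `R`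
  have htotlow : ∀ z ∈ R, N0 ≤ 32 * C6 * tot z := by
    intro z hz
    have h1 := (fact z0 hz0).2.tot_le
    have h2 := (fact z hz.1).2.zero_le_tot
    have h3 := hz.2.2.1
    have h4 : C6 * F.a 0 (nR z0) ≤ C6 * (32 * F.a 0 (nR z)) :=
      mul_le_mul_of_nonneg_left h3 hC6.le
    have h5 : C6 * (32 * F.a 0 (nR z)) ≤ C6 * (32 * tot z) :=
      mul_le_mul_of_nonneg_left (by linarith) hC6.le
    calc N0 ≤ C6 * F.a 0 (nR z0) := h1
      _ ≤ C6 * (32 * tot z) := h4.trans h5
      _ = 32 * C6 * tot z := by ring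
  have hz0R : z0 ∈ R := by
    refine ⟨hz0, ?_, by linarith, hNmax0⟩
    have h1 : K1 * N0 ≤ K1 * Nmax := mul_le_mul_of_nonneg_left hNmax0 hK10.le
    have h2 : 0 ≤ K1 * Nmax := by
      have : 0 < Nmax := by linarith
      positivity
    linarith
  -- the step
  have hstep : ∀ z ∈ R, ∀ w, 1 ≤ z.n w → F.Reg (2 * δs) (2 * δs) (step G z w) ∧
      0 < T (step G z w) := by
    intro z hz w hw
    refine ⟨(hRS δs δs hδs le_rfl e6 z hz.1 w hw).1, ?_⟩
    have h1 := hEH E hE K1 hK1b δs δs hδs le_rfl e3 z hz.1 hz.2.1 w hw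
    have h2 : T z ≤ 2 * T (step G z w) := h1.2.1
    have h3 := hTpos z hz
    linarith
  -- drift of `1/T`
  have hg : ∀ z ∈ R, gen G (fun y => 1 / T y) z ≤ -(b * (1 / T z)) := by
    intro z hz
    have h1 := hIE E hE K1 hK1a δs δs hδs le_rfl e2 z hz.1 hz.2.1
    have h2 : 0 < 1 / T z := by have := hTpos z hz; positivity
    have h3 : b ≤ 2 * E - Ca / K1 := by linarith
    have h4 := mul_le_mul_of_nonneg_right h3 h2.le
    calc gen G (fun y => 1 / T y) z ≤ -(2 * E - Ca / K1) * (1 / T z) := h1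
      _ ≤ -(b * (1 / T z)) := by linarith
  -- the three functions
  let U : Fin 3 → St V s → ℝ := ![fun z => K1 * Nmax * (1 / T z),
    fun z => F.a 0 (nR z0) / 32 * (1 / F.a 0 (nR z)), fun z => 1 / δs ^ 2 * F.Fh z]
  let c : Fin 3 → ℝ := ![0, 32 * C6 * Ci * δs / N0, 32 * C6 * Cf / N0]
  have hc : ∀ i, 0 ≤ c i := by
    intro i
    fin_cases i
    · exact le_rfl
    · show 0 ≤ 32 * C6 * Ci * δs / N0
      positivity
    · show 0 ≤ 32 * C6 * Cf / N0
      positivity
  have hNmaxpos : 0 < Nmax := by linarith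
  have hU0 : ∀ i, ∀ z ∈ R, 0 ≤ U i z := by
    intro i z hz
    have hT := hTpos z hz
    have ha := hz.1.2.2.1
    fin_cases i
    · show 0 ≤ K1 * Nmax * (1 / T z)
      positivity
    · show 0 ≤ F.a 0 (nR z0) / 32 * (1 / F.a 0 (nR z))
      have := ha 0
      positivity
    · show 0 ≤ 1 / δs ^ 2 * F.Fh z
      have := F.K5_Fh_nonneg z ha
      positivity
  have hU : ∀ i, ∀ z ∈ R, gen G (U i) z ≤ c i * tot z * U i z := by
    intro i z hz
    have hT := hTpos z hz
    have ha := hz.1.2.2.1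
    have hlow := htotlow z hz
    have hN0pos : 0 < N0 := by linarith
    fin_cases i
    · show gen G (fun z => K1 * Nmax * (1 / T z)) z ≤ 0 * tot z * (K1 * Nmax * (1 / T z))
      rw [gen_smul]
      have h1 := hg z hz
      have h2 : 0 ≤ b * (1 / T z) := by positivity
      have h3 : gen G (fun y => 1 / T y) z ≤ 0 := by linarith
      have h4 : K1 * Nmax * gen G (fun y => 1 / T y) z ≤ 0 :=
        mul_nonpos_of_nonneg_of_nonpos (by positivity) h3
      linarith
    · show gen G (fun z => F.a 0 (nR z0) / 32 * (1 / F.a 0 (nR z))) z ≤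
        32 * C6 * Ci * δs / N0 * tot z * (F.a 0 (nR z0) / 32 * (1 / F.a 0 (nR z)))
      rw [gen_smul]
      have h1 := hIA δs δs hδs le_rfl e4 z hz.1
      have h0 := ha 0
      have h2 : Ci * δs ≤ 32 * C6 * Ci * δs / N0 * tot z := by
        rw [div_mul_eq_mul_div, le_div_iff₀ hN0pos]
        have := mul_le_mul_of_nonneg_left hlow (show 0 ≤ Ci * δs by positivity)
        linarith
      have h3 : Ci * δs * (1 / F.a 0 (nR z)) ≤
          32 * C6 * Ci * δs / N0 * tot z * (1 / F.a 0 (nR z)) :=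
        mul_le_mul_of_nonneg_right h2 (by positivity)
      have h4 := mul_le_mul_of_nonneg_left (h1.trans h3)
        (show 0 ≤ F.a 0 (nR z0) / 32 by positivity)
      refine h4.trans (le_of_eq (by ring))
    · show gen G (fun z => 1 / δs ^ 2 * F.Fh z) z ≤
        32 * C6 * Cf / N0 * tot z * (1 / δs ^ 2 * F.Fh z)
      rw [gen_smul]
      have h1 := hFh δs δs hδs le_rfl e5 z hz.1
      have h0 := F.K5_Fh_nonneg z ha
      have h2 : Cf ≤ 32 * C6 * Cf / N0 * tot z := by
        rw [div_mul_eq_mul_div, le_div_iff₀ hN0pos]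
        have := mul_le_mul_of_nonneg_left hlow hCf.le
        linarith
      have h3 : Cf * F.Fh z ≤ 32 * C6 * Cf / N0 * tot z * F.Fh z :=
        mul_le_mul_of_nonneg_right h2 h0
      have h4 := mul_le_mul_of_nonneg_left (h1.trans h3)
        (show 0 ≤ 1 / δs ^ 2 by positivity)
      refine h4.trans (le_of_eq (by ring))
  have hexit : ∀ z ∈ R, ∀ w, 1 ≤ z.n w → tot (step G z w) ≤ Nmax → step G z w ∉ R →
      1 ≤ ∑ i, U i (step G z w) ∧ ∀ i, 0 ≤ U i (step G z w) := by
    intro z hz w hw htw hnot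
    obtain ⟨hreg', hT'⟩ := hstep z hz w hw
    set Z : St V s := step G z w with hZ
    have haZ := hreg'.2.2.1
    have hFhZ := F.K5_Fh_nonneg Z haZ
    have hfz := (fact2 Z hreg').2
    have hu0 : 0 ≤ K1 * Nmax * (1 / T Z) := by positivity
    have hu1 : 0 ≤ F.a 0 (nR z0) / 32 * (1 / F.a 0 (nR Z)) := by
      have := haZ 0
      positivity
    have hu2 : 0 ≤ 1 / δs ^ 2 * F.Fh Z := by positivity
    refine ⟨?_, ?_⟩
    · rw [Fin.sum_univ_three]
      show 1 ≤ K1 * Nmax * (1 / T Z) + F.a 0 (nR z0) / 32 * (1 / F.a 0 (nR Z)) +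
        1 / δs ^ 2 * F.Fh Z
      by_cases hA : K1 * tot Z ≤ T Z
      · by_cases hBB : F.a 0 (nR z0) ≤ 32 * F.a 0 (nR Z)
        · have hnr : ¬ F.Reg δs δs Z := fun hr => hnot ⟨hr, hA, hBB, htw⟩
          have := F.K5_Fh_gt δs hδs (by linarith) Z hreg'.1 hreg'.2.1 haZ hfz.last_le hnr
          have h1 : 1 ≤ 1 / δs ^ 2 * F.Fh Z := by
            rw [one_div, ← div_eq_inv_mul, le_div_iff₀ hδsq]
            linarith
          linarith
        · push Not at hBB
          have h1 : 1 ≤ F.a 0 (nR z0) / 32 * (1 / F.a 0 (nR Z)) := by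
            rw [mul_one_div, le_div_iff₀ (haZ 0)]
            linarith
          linarith
      · push Not at hA
        have h1 : 1 ≤ K1 * Nmax * (1 / T Z) := by
          rw [mul_one_div, le_div_iff₀ hT']
          have := mul_le_mul_of_nonneg_left htw hK10.le
          linarith
        linarith
    · intro i
      fin_cases i
      · exact hu0
      · exact hu1
      · exact hu2
  have hstay := stay_bound (G := G) R Nmax U c hc htotR hU0 hU hexit m z0 hz0R
    (by show N0 + n0 * m ≤ Nmax; exact hNmaxm)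
  have hN0pos : 0 < N0 := by linarith
  -- the three terms
  have hpow : ∀ t : ℝ, 0 ≤ t → (1 + t / N0) ^ m ≤ Real.exp (t * (Cm + 1)) := by
    intro t ht
    have h1 : 1 + t / N0 ≤ Real.exp (t / N0) := by
      have := Real.add_one_le_exp (t / N0)
      linarith
    have h2 : (1 + t / N0) ^ m ≤ Real.exp (t / N0) ^ m :=
      pow_le_pow_left₀ (by positivity) h1 m
    refine h2.trans ?_
    rw [← Real.exp_nat_mul]
    apply Real.exp_le_exp.mpr
    have h3 : (m : ℝ) * (t / N0) ≤ (Cm + 1) * N0 * (t / N0) :=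
      mul_le_mul_of_nonneg_right hmle (by positivity)
    refine h3.trans (le_of_eq ?_)
    field_simp
  have ht0 : (1 + c 0) ^ m * U 0 z0 ≤ 1 / 16 := by
    show (1 + 0) ^ m * (K1 * Nmax * (1 / T z0)) ≤ 1 / 16
    rw [add_zero, one_pow, one_mul, mul_one_div, div_le_iff₀ hT0pos]
    linarith
  have ht1 : (1 + c 1) ^ m * U 1 z0 ≤ 1 / 16 := by
    show (1 + 32 * C6 * Ci * δs / N0) ^ m *
      (F.a 0 (nR z0) / 32 * (1 / F.a 0 (nR z0))) ≤ 1 / 16
    have h1 : F.a 0 (nR z0) / 32 * (1 / F.a 0 (nR z0)) = 1 / 32 := by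
      have := ha0pos.ne'
      field_simp
    rw [h1]
    have h2 := hpow (32 * C6 * Ci * δs) (by positivity)
    have h3 : Real.exp (32 * C6 * Ci * δs * (Cm + 1)) ≤ 2 := by
      rw [← Real.exp_log (show (0 : ℝ) < 2 by norm_num)]
      apply Real.exp_le_exp.mpr
      rw [le_div_iff₀ hp] at e8
      linarith
    linarith
  have ht2 : (1 + c 2) ^ m * U 2 z0 ≤ 1 / 16 := by
    show (1 + 32 * C6 * Cf / N0) ^ m * (1 / δs ^ 2 * F.Fh z0) ≤ 1 / 16
    have h2 := hpow (32 * C6 * Cf) (by positivity)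
    have h3 : 1 / δs ^ 2 * F.Fh z0 ≤ 1 / (16 * Λ3) := by
      have := mul_le_mul_of_nonneg_left hFz0 (show 0 ≤ 1 / δs ^ 2 by positivity)
      refine this.trans (le_of_eq ?_)
      field_simp
    have h0 : 0 ≤ 1 / δs ^ 2 * F.Fh z0 := by
      have := F.K5_Fh_nonneg z0 hz0.2.2.1
      positivity
    calc (1 + 32 * C6 * Cf / N0) ^ m * (1 / δs ^ 2 * F.Fh z0)
        ≤ Λ3 * (1 / (16 * Λ3)) := mul_le_mul h2 h3 h0 hΛ3pos.le
      _ = 1 / 16 := by field_simp
  have hone : 13 / 16 ≤ PR G R (fun _ => 1) m z0 := by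
    have : ∑ i, (1 + c i) ^ m * U i z0 ≤ 3 / 16 := by
      rw [Fin.sum_univ_three]
      linarith
    linarith
  -- growth
  have hgr := grow_bound (G := G) R T b hb0 hb1 htotR hTpos hg
    (fun z hz w hw => (hstep z hz w hw).2) m z0 hz0R
  have hpr := prod_bound b N0 n0 hb0 hb1 hN01 hn0 m
  have hBT : B * T z0 * PR G R (fun y => 1 / T y) m z0 ≤ 1 / 8 := by
    have h1 : PR G R (fun y => 1 / T y) m z0 ≤
        1 / T z0 * Real.exp (-(b / n0) * Real.log (1 + n0 * m / N0)) :=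
      hgr.trans (mul_le_mul_of_nonneg_left hpr (by positivity))
    have h2 := mul_le_mul_of_nonneg_left h1 (show 0 ≤ B * T z0 by positivity)
    refine h2.trans ?_
    have h3 : B * T z0 * (1 / T z0 * Real.exp (-(b / n0) * Real.log (1 + n0 * m / N0))) =
        B * Real.exp (-(b / n0) * Real.log (1 + n0 * (m / N0))) := by
      have := hT0pos.ne'
      rw [mul_div_assoc n0]
      field_simp
    rw [h3]
    apply hgrow
    rw [le_div_iff₀ hN0pos]
    exact hmge
  have hφ : ∀ z ∈ R, 1 * (1 : ℝ) + (-(B * T z0)) * (1 / T z) ≤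
      (if B * T z0 ≤ T z then (1 : ℝ) else 0) := by
    intro z hz
    have hT := hTpos z hz
    split_ifs with h
    · have : 0 ≤ B * T z0 * (1 / T z) := by positivity
      linarith
    · push Not at h
      have : 1 ≤ B * T z0 * (1 / T z) := by
        rw [mul_one_div, le_div_iff₀ hT]
        linarith
      linarith
  have hmono := PR_mono (G := G) R (fun z => 1 * (1 : ℝ) + (-(B * T z0)) * (1 / T z))
    (fun z => if B * T z0 ≤ T z then (1 : ℝ) else 0) hφ m z0
  have hlin := PR_linear (G := G) R (fun _ => (1 : ℝ)) (fun z => 1 / T z) 1 (-(B * T z0)) m z0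
  have hfin : PR G R (fun z => 1 * (1 : ℝ) + (-(B * T z0)) * (1 / T z)) m z0 =
      1 * PR G R (fun _ => 1) m z0 + (-(B * T z0)) * PR G R (fun y => 1 / T y) m z0 := hlin
  rw [hfin] at hmono
  have : 1 / 2 ≤ PR G R (fun z => if B * T z0 ≤ T z then (1 : ℝ) else 0) m z0 := by linarith
  exact this

end UC
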