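import Pool.Agent.helper25.UC.K1
import Pool.Agent.helper25.UC.K4
import Pool.Agent.helper25.UC.K5
import Pool.Agent.helper25.UC.M1

/-!
# K7 : no kick is possible at a terminal flag

Suppose `μ := Th F E' c y - (2/τ)∑(y-r0)² > 0`.  `n0 = card V`, `D0 := 1 + ∑ r0²`,
`T := env^{E'}_{τ/2}` (`τ/2 ≤ tau0`), `Kt` from `Terminal`, `E' > E_l ≥ 0`.

*Constants in order.*  `B := 1 + 16 D0/(τμ)`.  `survive` for `τ/2, B`: `Cm, K1, δs0`; put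
`P := 1 + n0(Cm+1)`.  `main_lower` for `E'`, `τ`: `δM, KM, fM`.  `C6`: `tot ≤ C6 a_0` (`Facts1`).
`L ≥ L0(Kt)` (`kick_env`), `L ≥ 1`, `(μ/4)L² ≥ 16 K1 P`, `(μ/2)L² ≥ 8 KM P`.
`θ(δs) := √(256 L² D0 C6) δs`; `δs ≤ δs0` with `δs, θ(δs) ≤ δ0 (reg_shift)`,
`2(δs + θ(δs)) ≤ δM`.  `θi` from `survive`.  `Cχ` below, `Λ2 := exp(2 Cχ (Cm+1))`,
`ε := fM/(8Λ2)`.  `δ` very small.

Take `z ∈ Reg δ δ`, `f z < ε`, `o2 z ≤ Kt tot z`; `N := tot z ≥ a_0 ≥ 1/δ²` is large;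
`m_v := ⌊L√N r0_v⌋`, so `|m_v - L√N r0_v| ≤ 1`, `m_v = 0` where `e_0 v = 0`, and
`m2 m ≤ 2L²N∑r0² + 2n0 ≤ 2 L² N D0` (`L²N ≥ n0`).  `z0 := shift z m`.
1. `m2 m ≤ 2L²D0 δ² a_l²` (`N ≤ δ²a_l²`), `reg_shift` with `θ' = √(2D0) L δ`:
   `z0 ∈ Reg (2(δ+θ'))(2(δ+θ')) ⊆ Reg δs δs`; all its facts; `N/2 ≤ tot z0 ≤ 2N`.
   `Fh z0 = (o2(z0) + tot z0)/a_l(z0)² + xs(z0) ≤ (2Kt N + 4L²ND0 + 2N)·4/a_l² + (k+1)²2(δ+θ')
   ≤ C_L δ² + C_L δ ≤ θi` (`N/a_l² ≤ δ²`; `xs_le` with `Reg (2(δ+θ'))`).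
2. `kick_env`: `T(z0) ≥ (μ/2)L²N ≥ (μ/4)L² tot z0 ≥ 16K1 P tot z0`.
3. `survive`: `1/2 ≤ PR R φ m' z0`, `m' = ⌈Cm tot z0⌉`, `R = RK …`, `φ = 1_{B T(z0) ≤ T}`.
4. For `Z ∈ R` put `Ẑ := shift Z (-m)`.  `N ≤ 2 tot z0 ≤ 2C6 a_0(z0) ≤ 64C6 a_0(Z) ≤ 64C6 tot Z
   ≤ 64 C6 δs² a_l(Z)²`, so `m2 m ≤ 2L²D0·64C6δs² a_l(Z)² ≤ θ(δs)² a_l(Z)²`.  `reg_shift` for
   `Z, -m`: `Ẑ ∈ Reg δM δM`, the positivity facts, `tot Ẑ ≤ 2 tot Z ≤ 2P tot z0 ≤ 4PN`.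
   If `B T(z0) ≤ T(Z)`: `env_shift`: `env_τ(Ẑ) ≥ T(Z) - 2m2/τ ≥ B(μ/2)L²N - 4L²ND0/τ ≥ (μ/2)L²N
   ≥ 4 KM P N ≥ KM tot Ẑ` ((B-1)(μ/2)L²N = 8D0L²N/τ).  So `f(Ẑ) ≥ fM`.  Hence
   `√fM φ(Z) ≤ √(f(Ẑ))` on `R`, and `PR R √(f(shift · (-m))) m' z0 ≥ √fM/2` (`PR_mono`,
   `PR_linear`).
5. `cs_bound` with `T = shift · (-m)`: hypotheses from `shift_step` and 4.
   `hχ`: `N' = tot Z`, `M = ∑m`, `ñ_w = n_w - m_w`, `n_w²/ñ_w = n_w + m_w + m_w²/ñ_w`; so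
   `tot Ẑ·∑ n_w²/ñ_w = (N'-M)(N'+M+X) ≤ N'² + 2N'X`, `X = ∑ m_w²/ñ_w ≤ m2 m/(c a_0(Z))`
   (`m_w ≠ 0` only where `ñ_w ≥ c a_0(Z)`).  `a_0(Z), N' ≥ N/(64C6)`, so
   `2X/N' ≤ 2·2L²ND0 (64C6)²/(c N²) =: Cχ/N =: χ`.
   `(1+χ)^{m'} ≤ exp(χ m') ≤ exp((Cχ/N)(Cm+1)2N) = Λ2`.
   `shift z0 (-m) = z` (`shift_shift_neg`).  So `fM/4 ≤ Λ2 f z < Λ2 ε = fM/8`.  Contradiction.
-/

namespace UC
open Finset
variable {V : Type} [Fintype V] [DecidableEq V] {s k : ℕ}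
variable {G : SimpleGraph V} [DecidableRel G.Adj]

theorem K7_n_shift (z : St V s) (m : V → ℤ) (v : V) (h : 0 ≤ (z.n v : ℤ) + m v) :
    ((shift z m).n v : ℝ) = (z.n v : ℝ) + (m v : ℝ) := by
  have h1 : (((shift z m).n v : ℕ) : ℤ) = (z.n v : ℤ) + m v := by
    show ((((z.n v : ℤ) + m v).toNat : ℕ) : ℤ) = _
    exact Int.toNat_of_nonneg h
  have h2 : ((((shift z m).n v : ℕ) : ℤ) : ℝ) = (((z.n v : ℤ) + m v : ℤ) : ℝ) := by rw [h1]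
  push_cast at h2
  exact h2

theorem K7_m2_nonneg (m : V → ℤ) : 0 ≤ m2 m := Finset.sum_nonneg fun v _ => sq_nonneg _

theorem K7_m2_neg (m : V → ℤ) : m2 (fun v => - m v) = m2 m := by
  unfold m2
  refine Finset.sum_congr rfl fun v _ => ?_
  push_cast
  ring

/-- the chi-square estimate (step 5) -/
theorem chi_bound (z : St V s) (m : V → ℤ) (a : ℝ) (ha : 0 < a)
    (h : ∀ v, m v ≠ 0 → a ≤ (z.n v : ℝ) + m v ∧ 1 ≤ z.n v)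
    (ht : tot (shift z m) ≤ 2 * tot z) (h1 : 1 ≤ tot z) :
    tot (shift z m) * (∑ w, if z.n w = 0 then 0 else
      (z.n w : ℝ) ^ 2 / ((shift z m).n w : ℝ)) ≤
      (1 + 2 * m2 m / (a * tot z)) * tot z ^ 2 := by
  have hpos : ∀ v, 0 ≤ (z.n v : ℤ) + m v := by
    intro v
    by_cases hv : m v = 0
    · rw [hv]
      positivity
    · have h2 : (0:ℝ) < (((z.n v : ℤ) + m v : ℤ) : ℝ) := by
        push_cast
        linarith [(h v hv).1]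
      exact_mod_cast h2.le
  have hn : ∀ v, ((shift z m).n v : ℝ) = (z.n v : ℝ) + (m v : ℝ) := fun v => K7_n_shift z m v (hpos v)
  have htot : tot (shift z m) = tot z + ∑ v, (m v : ℝ) := by
    unfold tot
    rw [← Finset.sum_add_distrib]
    exact Finset.sum_congr rfl fun v _ => hn v
  have hterm : ∀ w, (if z.n w = 0 then 0 else (z.n w : ℝ) ^ 2 / ((shift z m).n w : ℝ)) ≤
      (z.n w : ℝ) - (m w : ℝ) + (m w : ℝ) ^ 2 / a := by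
    intro w
    rw [hn w]
    by_cases hw : m w = 0
    · rw [hw]
      by_cases h0 : z.n w = 0
      · rw [if_pos h0, h0]
        simp
      · rw [if_neg h0]
        have h0' : (0:ℝ) < (z.n w : ℝ) := by
          exact_mod_cast Nat.pos_of_ne_zero h0
        simp only [Int.cast_zero, add_zero, sub_zero]
        rw [sq, mul_div_assoc, div_self h0'.ne', mul_one]
        simp
    · obtain ⟨h2, h3⟩ := h w hw
      have h0 : z.n w ≠ 0 := by omega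
      rw [if_neg h0]
      have h4 : 0 < (z.n w : ℝ) + (m w : ℝ) := by linarith
      have h5 : (z.n w : ℝ) ^ 2 / ((z.n w : ℝ) + (m w : ℝ)) =
          (z.n w : ℝ) - (m w : ℝ) + (m w : ℝ) ^ 2 / ((z.n w : ℝ) + (m w : ℝ)) := by
        field_simp
        ring
      rw [h5]
      have h6 : (m w : ℝ) ^ 2 / ((z.n w : ℝ) + (m w : ℝ)) ≤ (m w : ℝ) ^ 2 / a :=
        div_le_div_of_nonneg_left (sq_nonneg _) ha h2
      linarith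
  have hsum : (∑ w, if z.n w = 0 then 0 else (z.n w : ℝ) ^ 2 / ((shift z m).n w : ℝ)) ≤
      tot z - ∑ v, (m v : ℝ) + m2 m / a := by
    refine (Finset.sum_le_sum fun w _ => hterm w).trans (le_of_eq ?_)
    rw [Finset.sum_add_distrib, Finset.sum_sub_distrib, ← Finset.sum_div]
    rfl
  have h0t : 0 ≤ tot (shift z m) := Finset.sum_nonneg fun v _ => Nat.cast_nonneg _
  have hX : 0 ≤ m2 m / a := div_nonneg (K7_m2_nonneg m) ha.le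
  calc tot (shift z m) * (∑ w, if z.n w = 0 then 0 else (z.n w : ℝ) ^ 2 / ((shift z m).n w : ℝ))
      ≤ tot (shift z m) * (tot z - ∑ v, (m v : ℝ) + m2 m / a) := mul_le_mul_of_nonneg_left hsum h0t
    _ = tot z ^ 2 - (∑ v, (m v : ℝ)) ^ 2 + tot (shift z m) * (m2 m / a) := by
        rw [htot]
        ring
    _ ≤ tot z ^ 2 + 2 * tot z * (m2 m / a) := by
        have := mul_le_mul_of_nonneg_right ht hX
        nlinarith [sq_nonneg (∑ v, (m v : ℝ))]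
    _ = (1 + 2 * m2 m / (a * tot z)) * tot z ^ 2 := by
        have : tot z ≠ 0 := by linarith
        field_simp

/-- bound for a rounded multiple of `r0` -/
theorem K7_m2_round (r0 : V → ℝ) (x : ℝ) (hx : cV V ≤ x ^ 2) (m : V → ℤ)
    (hm : ∀ v, |(m v : ℝ) - x * r0 v| ≤ 1) : m2 m ≤ 2 * x ^ 2 * (1 + ∑ v, r0 v ^ 2) := by
  have h1 : ∀ v, (m v : ℝ) ^ 2 ≤ 2 * x ^ 2 * r0 v ^ 2 + 2 := by
    intro v
    have h2 := abs_le.1 (hm v)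
    nlinarith [sq_nonneg ((m v : ℝ) - 2 * (x * r0 v)), sq_nonneg ((m v : ℝ) - x * r0 v)]
  calc m2 m ≤ ∑ v, (2 * x ^ 2 * r0 v ^ 2 + 2) := Finset.sum_le_sum fun v _ => h1 v
    _ = 2 * x ^ 2 * ∑ v, r0 v ^ 2 + 2 * cV V := by
        rw [Finset.sum_add_distrib, ← Finset.mul_sum, Finset.sum_const, nsmul_eq_mul, Finset.card_univ]
        unfold cV
        ring
    _ ≤ 2 * x ^ 2 * (1 + ∑ v, r0 v ^ 2) := by nlinarith

/-- a small parameter -/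
theorem K7_pick (A b : ℝ) (hA : 1 ≤ A) (hb : 0 < b) :
    ∃ δ > 0, ∀ x y : ℝ, x ≤ A → b ≤ y → x * δ ≤ y := by
  have hA0 : 0 < A := by linarith
  refine ⟨b / A, by positivity, fun x y hx hy => ?_⟩
  have h1 : 0 < b / A := by positivity
  calc x * (b / A) ≤ A * (b / A) := mul_le_mul_of_nonneg_right hx h1.le
    _ = b := by field_simp
    _ ≤ y := hy

theorem K7_L (μ L0 K1 KM PP : ℝ) (hμ : 0 < μ) (hL0 : 0 < L0) (hK1 : 0 < K1) (hKM : 0 < KM) (hPP : 1 ≤ PP) :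
    ∃ L, 1 ≤ L ∧ L0 ≤ L ∧ 16 * K1 * PP ≤ μ / 4 * L ^ 2 ∧ 8 * KM * PP ≤ μ / 2 * L ^ 2 := by
  have hq1 : 0 ≤ 64 * K1 * PP / μ := by positivity
  have hq2 : 0 ≤ 16 * KM * PP / μ := by positivity
  obtain ⟨L, hL⟩ : ∃ L, L = L0 + 1 + 64 * K1 * PP / μ + 16 * KM * PP / μ := ⟨_, rfl⟩
  have hL1 : 1 ≤ L := by rw [hL]; linarith
  have hLsq : L ≤ L ^ 2 := by nlinarith
  refine ⟨L, hL1, by rw [hL]; linarith, ?_, ?_⟩
  · have h1 : 64 * K1 * PP / μ ≤ L ^ 2 := le_trans (by rw [hL]; linarith) hLsq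
    rw [div_le_iff₀ hμ] at h1
    linarith
  · have h1 : 16 * KM * PP / μ ≤ L ^ 2 := le_trans (by rw [hL]; linarith) hLsq
    rw [div_le_iff₀ hμ] at h1
    linarith

theorem K7_Theta (L D0 C6 : ℝ) (hL : 1 ≤ L) (hD : 1 ≤ D0) (hC : 0 < C6) :
    ∃ Θ : ℝ, 1 ≤ Θ ∧ 256 * L ^ 2 * D0 * C6 ≤ Θ ^ 2 ∧ 2 * L ^ 2 * D0 ≤ Θ ^ 2 := by
  have hLD : 0 < L ^ 2 * D0 := by positivity
  have hLDC := mul_pos hLD hC
  refine ⟨1 + 256 * L ^ 2 * D0 * (C6 + 1), ?_, ?_, ?_⟩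
  · nlinarith
  · refine le_trans (b := 1 + 256 * L ^ 2 * D0 * (C6 + 1)) (by nlinarith) ?_
    have : 1 ≤ 1 + 256 * L ^ 2 * D0 * (C6 + 1) := by nlinarith
    nlinarith
  · refine le_trans (b := 1 + 256 * L ^ 2 * D0 * (C6 + 1)) (by nlinarith) ?_
    have : 1 ≤ 1 + 256 * L ^ 2 * D0 * (C6 + 1) := by nlinarith
    nlinarith

theorem K7_ds (Θ δs0 δr δM δf : ℝ) (hΘ : 1 ≤ Θ) (h1 : 0 < δs0) (h2 : 0 < δr) (h3 : 0 < δM) (h4 : 0 < δf) :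
    ∃ δs > 0, δs ≤ δs0 ∧ δs ≤ δr ∧ Θ * δs ≤ δr ∧ 2 * (δs + Θ * δs) ≤ δM ∧ δs ≤ δf := by
  obtain ⟨δs, hδs, hpick⟩ := K7_pick (2 * (1 + Θ)) (min (min δs0 δr) (min δM δf)) (by linarith)
    (lt_min (lt_min h1 h2) (lt_min h3 h4))
  refine ⟨δs, hδs, ?_, ?_, ?_, ?_, ?_⟩
  · have := hpick 1 δs0 (by linarith) ((min_le_left _ _).trans (min_le_left _ _))
    linarith
  · have := hpick 1 δr (by linarith) ((min_le_left _ _).trans (min_le_right _ _))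
    linarith
  · exact hpick Θ δr (by linarith) ((min_le_left _ _).trans (min_le_right _ _))
  · have := hpick (2 * (1 + Θ)) δM le_rfl ((min_le_right _ _).trans (min_le_left _ _))
    linarith
  · have := hpick 1 δf (by linarith) ((min_le_right _ _).trans (min_le_right _ _))
    linarith

theorem K7_d (Θ CL n δr δs δl θi : ℝ) (hΘ : 1 ≤ Θ) (hCL : 0 ≤ CL) (hn : 0 ≤ n) (h1 : 0 < δr) (h2 : 0 < δs)
    (h3 : 0 < δl) (h4 : 0 < θi) :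
    ∃ δ > 0, δ ≤ 1 ∧ δ ≤ δr ∧ Θ * δ ≤ δr ∧ 2 * (δ + Θ * δ) ≤ δs ∧ δ ≤ δl ∧ CL * δ ≤ θi ∧ (n + 1) * δ ≤ 1 := by
  obtain ⟨δ, hδ, hpick'⟩ := K7_pick (2 * (1 + Θ) + CL + (n + 1)) (min (min 1 δr) (min (min δs δl) θi))
    (by linarith) (lt_min (lt_min one_pos h1) (lt_min (lt_min h2 h3) h4))
  refine ⟨δ, hδ, ?_, ?_, ?_, ?_, ?_, ?_, ?_⟩
  · have := hpick' 1 1 (by linarith) ((min_le_left _ _).trans (min_le_left _ _))
    linarith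
  · have := hpick' 1 δr (by linarith) ((min_le_left _ _).trans (min_le_right _ _))
    linarith
  · exact hpick' Θ δr (by linarith) ((min_le_left _ _).trans (min_le_right _ _))
  · have := hpick' (2 * (1 + Θ)) δs (by linarith)
      ((min_le_right _ _).trans ((min_le_left _ _).trans (min_le_left _ _)))
    linarith
  · have := hpick' 1 δl (by linarith)
      ((min_le_right _ _).trans ((min_le_left _ _).trans (min_le_right _ _)))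
    linarith
  · exact hpick' CL θi (by linarith) ((min_le_right _ _).trans (min_le_right _ _))
  · exact hpick' (n + 1) 1 (by linarith) ((min_le_left _ _).trans (min_le_left _ _))

/-- the arithmetic of step 1 -/
theorem K7_Fh_arith (o o0 N t0 al al0 xs Kt L D0 m2m δ Θ kk : ℝ) (hN : 0 ≤ N) (hδ : 0 < δ) (hδ1 : δ ≤ 1)
    (hal : 0 < al) (hal0 : 0 < al0) (hl : al ≤ 2 * al0) (hD : 0 ≤ D0)
    (ho : o ≤ |Kt| * N) (ho0 : o0 ≤ 2 * o + 2 * m2m) (hm : m2m ≤ 2 * (L ^ 2 * N) * D0) (ht : t0 ≤ 2 * N)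
    (hNl : N ≤ δ ^ 2 * al ^ 2) (hxs : xs ≤ kk * (2 * (δ + Θ * δ))) :
    (o0 + t0) / al0 ^ 2 + xs ≤ (4 * (2 * |Kt| + 4 * L ^ 2 * D0 + 2) + kk * (2 * (1 + Θ))) * δ := by
  have h1 : (o0 + t0) / al0 ^ 2 ≤ 4 * (2 * |Kt| + 4 * L ^ 2 * D0 + 2) * δ := by
    rw [div_le_iff₀ (by positivity)]
    have h3 : o0 + t0 ≤ (2 * |Kt| + 4 * L ^ 2 * D0 + 2) * N := by
      have : (2 * |Kt| + 4 * L ^ 2 * D0 + 2) * N = 2 * (|Kt| * N) + 2 * (2 * (L ^ 2 * N) * D0) + 2 * N := by ring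
      rw [this]
      linarith
    have h4 : N ≤ δ * (4 * al0 ^ 2) := by
      have h5 : al ^ 2 ≤ 4 * al0 ^ 2 := by nlinarith
      have h7 : δ ^ 2 ≤ δ := by nlinarith
      calc N ≤ δ ^ 2 * al ^ 2 := hNl
        _ ≤ δ * (4 * al0 ^ 2) := mul_le_mul h7 h5 (by positivity) hδ.le
    calc o0 + t0 ≤ (2 * |Kt| + 4 * L ^ 2 * D0 + 2) * N := h3
      _ ≤ (2 * |Kt| + 4 * L ^ 2 * D0 + 2) * (δ * (4 * al0 ^ 2)) :=
          mul_le_mul_of_nonneg_left h4 (by positivity)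
      _ = 4 * (2 * |Kt| + 4 * L ^ 2 * D0 + 2) * δ * al0 ^ 2 := by ring
  calc (o0 + t0) / al0 ^ 2 + xs ≤ 4 * (2 * |Kt| + 4 * L ^ 2 * D0 + 2) * δ + kk * (2 * (δ + Θ * δ)) :=
        add_le_add h1 hxs
    _ = _ := by ring

/-- the arithmetic of step 5 -/
theorem K7_chi_arith (m2m L D0 N C6 cr a0 t : ℝ) (hN : 1 ≤ N) (hC : 0 < C6) (hcr : 0 < cr) (hD : 1 ≤ D0)
    (hm : m2m ≤ 2 * (L ^ 2 * N) * D0) (hm0 : 0 ≤ m2m) (ha : N ≤ 64 * C6 * a0) (hat : a0 ≤ t) :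
    2 * m2m / (cr * a0 * t) ≤ 4 * L ^ 2 * D0 * (64 * C6) ^ 2 / cr / N := by
  have hN0 : 0 < N := by linarith
  have ha0 : 0 < a0 := by
    by_contra h
    rw [not_lt] at h
    have : 64 * C6 * a0 ≤ 0 := mul_nonpos_of_nonneg_of_nonpos (by positivity) h
    linarith
  have ht : 0 < t := by linarith
  rw [div_div, div_le_div_iff₀ (by positivity) (by positivity)]
  have h1 : N ^ 2 ≤ (64 * C6) ^ 2 * (a0 * t) := by
    have h2 : 64 * C6 * a0 ≤ 64 * C6 * t := by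
      apply mul_le_mul_of_nonneg_left hat (by positivity)
    calc N ^ 2 = N * N := sq N
      _ ≤ (64 * C6 * a0) * (64 * C6 * t) := mul_le_mul ha (ha.trans h2) hN0.le (by positivity)
      _ = (64 * C6) ^ 2 * (a0 * t) := by ring
  calc 2 * m2m * (cr * N) ≤ 2 * (2 * (L ^ 2 * N) * D0) * (cr * N) := by
        apply mul_le_mul_of_nonneg_right _ (by positivity)
        linarith
    _ = 4 * L ^ 2 * D0 * cr * N ^ 2 := by ring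
    _ ≤ 4 * L ^ 2 * D0 * cr * ((64 * C6) ^ 2 * (a0 * t)) := mul_le_mul_of_nonneg_left h1 (by positivity)
    _ = 4 * L ^ 2 * D0 * (64 * C6) ^ 2 * (cr * a0 * t) := by ring

/-- positivity of the shifted numbers -/
theorem K7_pos (F : Flag G s (k + 1)) (z : St V s) (m : V → ℤ) (cr : ℝ)
    (hm0 : ∀ v, F.e 0 v = 0 → m v = 0)
    (h : ∀ v, F.e 0 v ≠ 0 → 2 ≤ z.n v ∧ 2 ≤ (z.n v : ℤ) + m v ∧
        cr * F.a 0 (nR z) ≤ (z.n v : ℝ) ∧ cr * F.a 0 (nR z) ≤ (z.n v : ℝ) + m v) :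
    (∀ v, 0 ≤ (z.n v : ℤ) + m v) ∧
    (∀ v, m v ≠ 0 → 2 ≤ z.n v ∧ 2 ≤ (z.n v : ℤ) + m v) ∧
    (∀ v, m v ≠ 0 → cr * F.a 0 (nR z) ≤ (z.n v : ℝ) + m v ∧ 1 ≤ z.n v) := by
  refine ⟨fun v => ?_, fun v hv => ?_, fun v hv => ?_⟩
  · by_cases hv : F.e 0 v = 0
    · rw [hm0 v hv]
      positivity
    · have := (h v hv).2.1
      omega
  · have hv' : F.e 0 v ≠ 0 := fun h' => hv (hm0 v h')
    exact ⟨(h v hv').1, (h v hv').2.1⟩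
  · have hv' : F.e 0 v ≠ 0 := fun h' => hv (hm0 v h')
    exact ⟨(h v hv').2.2.2, by have := (h v hv').1; omega⟩

/-- step 4: the facts on the region -/
theorem K7_region (F : Flag G s (k + 1)) (δr cr : ℝ)
    (hshift : ∀ δ θ : ℝ, 0 < δ → δ ≤ δr → 0 ≤ θ → θ ≤ δr → ∀ z, F.Reg δ δ z → ∀ m : V → ℤ,
      (∀ v, F.e 0 v = 0 → m v = 0) → m2 m ≤ θ ^ 2 * F.a (Fin.last k) (nR z) ^ 2 →
      F.Reg (2 * (δ + θ)) (2 * (δ + θ)) (shift z m) ∧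
      (∀ v, F.e 0 v ≠ 0 → 2 ≤ z.n v ∧ 2 ≤ (z.n v : ℤ) + m v ∧
        cr * F.a 0 (nR z) ≤ (z.n v : ℝ) ∧ cr * F.a 0 (nR z) ≤ (z.n v : ℝ) + m v) ∧
      F.a 0 (nR z) ≤ 2 * F.a 0 (nR (shift z m)) ∧
      F.a 0 (nR (shift z m)) ≤ 2 * F.a 0 (nR z) ∧
      F.a (Fin.last k) (nR z) ≤ 2 * F.a (Fin.last k) (nR (shift z m)) ∧
      tot (shift z m) ≤ 2 * tot z ∧ tot z ≤ 2 * tot (shift z m) ∧
      (∀ i j, i < j → F.a j (nR (shift z m)) / F.a i (nR (shift z m)) ≤ 2 * (δ + θ)) ∧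
      F.o2 (nR (shift z m)) ≤ 2 * F.o2 (nR z) + 2 * m2 m)
    (δf cf C6 : ℝ) (hC6 : 0 < C6) (hfacts : ∀ δx δo : ℝ, 0 ≤ δx → δx ≤ δf → 0 ≤ δo → δo ≤ δf →
      ∀ z, F.Reg δx δo z → F.Facts cf C6 z ∧ F.Facts1 cf C6 z)
    (δs Θ L D0 N δM : ℝ) (hδs : 0 < δs) (hδs2 : δs ≤ δr) (hΘ : 1 ≤ Θ) (hδs3 : Θ * δs ≤ δr)
    (hδs4 : 2 * (δs + Θ * δs) ≤ δM) (hδs5 : δs ≤ δf) (hL : 1 ≤ L) (hD0 : 1 ≤ D0)
    (hΘ2 : 256 * L ^ 2 * D0 * C6 ≤ Θ ^ 2)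
    (m : V → ℤ) (hm0 : ∀ v, F.e 0 v = 0 → m v = 0) (hm2 : m2 m ≤ 2 * (L ^ 2 * N) * D0)
    (z0 Z : St V s) (hz0 : F.Reg δs δs z0) (hNz0 : N ≤ 2 * tot z0)
    (hZ : F.Reg δs δs Z) (ha : F.a 0 (nR z0) ≤ 32 * F.a 0 (nR Z)) :
    N ≤ 64 * C6 * F.a 0 (nR Z) ∧ F.a 0 (nR Z) ≤ tot Z ∧
    F.Reg δM δM (shift Z (fun v => - m v)) ∧
    (∀ v, 0 ≤ (Z.n v : ℤ) + - m v) ∧
    (∀ v, m v ≠ 0 → 2 ≤ Z.n v ∧ 2 ≤ (Z.n v : ℤ) + - m v) ∧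
    (∀ v, m v ≠ 0 → cr * F.a 0 (nR Z) ≤ (Z.n v : ℝ) + ((- m v : ℤ) : ℝ) ∧ 1 ≤ Z.n v) ∧
    tot (shift Z (fun v => - m v)) ≤ 2 * tot Z := by
  have f0 := (hfacts δs δs hδs.le hδs5 hδs.le hδs5 z0 hz0).2
  have f1 := (hfacts δs δs hδs.le hδs5 hδs.le hδs5 Z hZ).2
  have h1 : N ≤ 64 * C6 * F.a 0 (nR Z) := by
    calc N ≤ 2 * tot z0 := hNz0
      _ ≤ 2 * (C6 * F.a 0 (nR z0)) := by
          have := f0.tot_le
          linarith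
      _ ≤ 2 * (C6 * (32 * F.a 0 (nR Z))) := by
          have := mul_le_mul_of_nonneg_left ha hC6.le
          linarith
      _ = 64 * C6 * F.a 0 (nR Z) := by ring
  have h2 : N ≤ 64 * C6 * (δs ^ 2 * F.a (Fin.last k) (nR Z) ^ 2) := by
    refine h1.trans (mul_le_mul_of_nonneg_left ?_ (by positivity))
    exact f1.zero_le_tot.trans (hZ.2.2.2.2.2 (Fin.last k))
  have hm0' : ∀ v, F.e 0 v = 0 → (fun v => - m v) v = 0 := by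
    intro v hv
    simp [hm0 v hv]
  have h3 : m2 (fun v => - m v) ≤ (Θ * δs) ^ 2 * F.a (Fin.last k) (nR Z) ^ 2 := by
    rw [K7_m2_neg]
    calc m2 m ≤ 2 * (L ^ 2 * N) * D0 := hm2
      _ = 2 * L ^ 2 * D0 * N := by ring
      _ ≤ 2 * L ^ 2 * D0 * (64 * C6 * (δs ^ 2 * F.a (Fin.last k) (nR Z) ^ 2)) :=
          mul_le_mul_of_nonneg_left h2 (by positivity)
      _ = (1 / 2) * (256 * L ^ 2 * D0 * C6) * (δs ^ 2 * F.a (Fin.last k) (nR Z) ^ 2) := by ring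
      _ ≤ 1 * Θ ^ 2 * (δs ^ 2 * F.a (Fin.last k) (nR Z) ^ 2) := by
          apply mul_le_mul_of_nonneg_right _ (by positivity)
          have : 0 ≤ 256 * L ^ 2 * D0 * C6 := by positivity
          linarith
      _ = (Θ * δs) ^ 2 * F.a (Fin.last k) (nR Z) ^ 2 := by ring
  obtain ⟨g1, g2, -, -, -, g3, -, -, -⟩ := hshift δs (Θ * δs) hδs hδs2 (by positivity) hδs3 Z hZ
    (fun v => - m v) hm0' h3
  obtain ⟨p1, p2, p3⟩ := K7_pos F Z (fun v => - m v) cr hm0' g2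
  refine ⟨h1, f1.zero_le_tot, F.Reg_mono (by positivity) (by positivity) hδs4 hδs4 _ g1, p1,
    fun v hv => p2 v (neg_ne_zero.2 hv), fun v hv => p3 v (neg_ne_zero.2 hv), g3⟩

/-- step 4: the envelope at the shifted point -/
theorem K7_env_arith (μ L N D0 τ B T0 TZ eh m2m KM PP t th : ℝ) (hμ : 0 < μ) (hτ : 0 < τ) (hN : 0 ≤ N)
    (hD : 0 ≤ D0) (hB : B = 1 + 16 * D0 / (τ * μ)) (hT0 : μ / 2 * L ^ 2 * N ≤ T0) (hBT : B * T0 ≤ TZ)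
    (hm : m2m ≤ 2 * (L ^ 2 * N) * D0) (he : TZ - 2 * m2m / τ ≤ eh) (hKM : 0 < KM) (hPP : 0 < PP)
    (hLb : 8 * KM * PP ≤ μ / 2 * L ^ 2) (ht : t ≤ 2 * th) (hth : th ≤ PP * (2 * N)) :
    KM * t ≤ eh := by
  have h1 : B * (μ / 2 * L ^ 2 * N) ≤ B * T0 := by
    apply mul_le_mul_of_nonneg_left hT0
    rw [hB]
    positivity
  have h2 : B * (μ / 2 * L ^ 2 * N) = μ / 2 * L ^ 2 * N + 8 * D0 * L ^ 2 * N / τ := by
    rw [hB]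
    field_simp
    ring
  have h3 : 2 * m2m / τ ≤ 4 * D0 * L ^ 2 * N / τ := by
    rw [div_le_div_iff_of_pos_right hτ]
    linarith
  have h4 : 8 * D0 * L ^ 2 * N / τ = 4 * D0 * L ^ 2 * N / τ + 4 * D0 * L ^ 2 * N / τ := by ring
  have h5 : 0 ≤ 4 * D0 * L ^ 2 * N / τ := by positivity
  have h6 : 8 * KM * PP * N ≤ μ / 2 * L ^ 2 * N := mul_le_mul_of_nonneg_right hLb hN
  have h7 : KM * t ≤ 4 * KM * PP * N := by
    calc KM * t ≤ KM * (2 * (PP * (2 * N))) := by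
          apply mul_le_mul_of_nonneg_left _ hKM.le
          linarith
      _ = 4 * KM * PP * N := by ring
  have h8 : 0 ≤ KM * PP * N := by positivity
  linarith

theorem K7_pow (χ Cχ N Cm t0 : ℝ) (hN : 1 ≤ N) (hC : 0 < Cχ) (hχ : χ = Cχ / N) (hCm : 1 ≤ Cm) (ht : 1 ≤ t0)
    (ht0 : t0 ≤ 2 * N) : (1 + χ) ^ ⌈Cm * t0⌉₊ ≤ Real.exp (2 * Cχ * (Cm + 1)) := by
  have hN0 : 0 < N := by linarith
  have hχ0 : 0 ≤ χ := by rw [hχ]; positivity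
  have h1 : (⌈Cm * t0⌉₊ : ℝ) ≤ (Cm + 1) * (2 * N) := by
    have h2 := Nat.ceil_lt_add_one (a := Cm * t0) (by positivity)
    have h3 : (Cm + 1) * t0 ≤ (Cm + 1) * (2 * N) := mul_le_mul_of_nonneg_left ht0 (by positivity)
    linarith
  calc (1 + χ) ^ ⌈Cm * t0⌉₊ ≤ (Real.exp χ) ^ ⌈Cm * t0⌉₊ := by
        apply pow_le_pow_left₀ (by positivity)
        have := Real.add_one_le_exp χ
        linarith
    _ = Real.exp (⌈Cm * t0⌉₊ * χ) := by rw [← Real.exp_nat_mul]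
    _ ≤ Real.exp (2 * Cχ * (Cm + 1)) := by
        apply Real.exp_le_exp.2
        calc (⌈Cm * t0⌉₊ : ℝ) * χ ≤ (Cm + 1) * (2 * N) * χ := mul_le_mul_of_nonneg_right h1 hχ0
          _ = 2 * Cχ * (Cm + 1) := by
              rw [hχ]
              field_simp

theorem no_kick {f : St V s → ℝ} (hf : BadF G f) (F : Flag G s (k + 1)) (τ : ℝ)
    (hτ : 0 < τ) (hτ0 : τ ≤ tau0 V) (hI : Inv F τ f) (hT : Terminal F f) (E' : ℝ)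
    (hE : F.E (Fin.last k) < E') (hE' : E' ≤ cV V + 1)
    (c : V → Fin s) (y r0 : V → ℝ) (hA : F.Adm c y)
    (hN : ∀ v, v ∉ F.I → 0 < y v → ∀ j, Lf G F.σ (c v) v (F.e j) = 0)
    (hr : ∀ v, F.e 0 v = 0 → r0 v = 0) :
    F.Th E' c y ≤ 2 / τ * ∑ v, (y v - r0 v) ^ 2 := by
  by_contra hcon
  rw [not_le] at hcon
  obtain ⟨μ, hμ⟩ : ∃ μ, μ = F.Th E' c y - 2 / τ * ∑ v, (y v - r0 v) ^ 2 := ⟨_, rfl⟩
  have hμ0 : 0 < μ := by rw [hμ]; linarith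
  have hμ1 : μ + 2 / τ * ∑ v, (y v - r0 v) ^ 2 ≤ F.Th E' c y := by rw [hμ]; linarith
  clear hcon hμ
  obtain ⟨D0, hD0⟩ : ∃ D0, D0 = 1 + ∑ v, r0 v ^ 2 := ⟨_, rfl⟩
  have hD1 : 1 ≤ D0 := by
    have : 0 ≤ ∑ v, r0 v ^ 2 := Finset.sum_nonneg fun v _ => sq_nonneg _
    rw [hD0]
    linarith
  have hn0 : 0 ≤ cV V := Nat.cast_nonneg _
  have hE'0 : 0 < E' := lt_of_le_of_lt (F.nonneg _) hE
  have hE'abs : |E'| ≤ cV V + 2 := by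
    rw [abs_of_pos hE'0]
    linarith
  have hτ2 : 0 < τ / 2 := by positivity
  have hτ2' : τ / 2 ≤ tau0 V := by linarith
  obtain ⟨B, hB⟩ : ∃ B, B = 1 + 16 * D0 / (τ * μ) := ⟨_, rfl⟩
  have hB1 : 1 ≤ B := by
    have : 0 ≤ 16 * D0 / (τ * μ) := by positivity
    rw [hB]
    linarith
  obtain ⟨Cm, hCm, K1, hK1, δs0, hδs0, hsurv⟩ := F.survive E' (τ / 2) hE'0 hE'abs hτ2 hτ2' B hB1
  obtain ⟨PP, hPP⟩ : ∃ PP, PP = 1 + cV V * (Cm + 1) := ⟨_, rfl⟩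
  have hPP1 : 1 ≤ PP := by
    have : 0 ≤ cV V * (Cm + 1) := by positivity
    rw [hPP]
    linarith
  rw [← hPP] at hsurv
  obtain ⟨δM, hδM, KM, hKM, fM, hfM, hmain⟩ := main_lower hf F τ hτ hτ0 hI E' hE hE'
  obtain ⟨δf, hδf, cf, hcf, C6, hC6, hfacts⟩ := F.reg_facts1
  obtain ⟨δr, hδr, cr, hcr, hshift⟩ := F.reg_shift
  obtain ⟨δl, hδl, hlarge⟩ := F.reg_large
  obtain ⟨Kt, hKt⟩ := hT
  obtain ⟨L0, hL0, hkick⟩ := F.kick_env E' τ hE'abs hτ hτ0 c y r0 hA hN hr μ hμ0 hμ1 Kt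
  obtain ⟨L, hL1, hLL0, hLa, hLb⟩ := K7_L μ L0 K1 KM PP hμ0 hL0 hK1 hKM hPP1
  obtain ⟨Θ, hΘ1, hΘ2, hΘ3⟩ := K7_Theta L D0 C6 hL1 hD1 hC6
  obtain ⟨δs, hδs, hδs1, hδs2, hδs3, hδs4, hδs5⟩ := K7_ds Θ δs0 δr δM δf hΘ1 hδs0 hδr hδM hδf
  obtain ⟨θi, hθi, hs⟩ := hsurv δs hδs hδs1
  obtain ⟨CL, hCL⟩ : ∃ CL, CL = 4 * (2 * |Kt| + 4 * L ^ 2 * D0 + 2) +
      ((k + 1 : ℕ) : ℝ) ^ 2 * (2 * (1 + Θ)) := ⟨_, rfl⟩
  have hCL0 : 0 ≤ CL := by rw [hCL]; positivity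
  obtain ⟨Cχ, hCχ⟩ : ∃ Cχ, Cχ = 4 * L ^ 2 * D0 * (64 * C6) ^ 2 / cr := ⟨_, rfl⟩
  have hCχ0 : 0 < Cχ := by rw [hCχ]; positivity
  obtain ⟨Λ2, hΛ2⟩ : ∃ Λ2, Λ2 = Real.exp (2 * Cχ * (Cm + 1)) := ⟨_, rfl⟩
  have hΛ0 : 0 < Λ2 := by rw [hΛ2]; exact Real.exp_pos _
  obtain ⟨δ, hδ, hδ1, hδ2, hδ3, hδ4, hδ5, hδ6, hδ7⟩ := K7_d Θ CL (cV V) δr δs δl θi hΘ1 hCL0 hn0 hδr hδs hδl hθi
  obtain ⟨z, hzR, hzf, hzo⟩ := hKt δ hδ (fM / (8 * Λ2)) (by positivity)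
  have hlz := (hlarge δ δ hδ le_rfl hδ5 z hzR).2.1
  have hzl := hzR.2.2.2.2.2 (Fin.last k)
  have hz1 := hzR.1
  have hkz := hkick L hLL0 z hzR.2.1 hz1 hzo
  obtain ⟨N, hNdef⟩ : ∃ N, N = tot z := ⟨_, rfl⟩
  rw [← hNdef] at hlz hzl hz1 hzo hkz
  have hN0 : 0 ≤ N := zero_le_one.trans hz1
  have hNn0 : cV V ≤ N := by
    refine le_trans ?_ hlz
    rw [le_div_iff₀ (by positivity)]
    clear * - hδ hδ1 hδ7 hn0
    have h2 : δ ^ 2 ≤ δ := by nlinarith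
    nlinarith
  -- the kick
  obtain ⟨m, hmdef⟩ : ∃ m : V → ℤ, m = fun v => ⌊L * Real.sqrt N * r0 v⌋ := ⟨_, rfl⟩
  have hm1 : ∀ v, |(m v : ℝ) - L * Real.sqrt N * r0 v| ≤ 1 := by
    intro v
    rw [hmdef, abs_le]
    have h1 := Int.floor_le (L * Real.sqrt N * r0 v)
    have h2 := Int.lt_floor_add_one (L * Real.sqrt N * r0 v)
    clear * - h1 h2
    constructor
    · show -1 ≤ ((⌊L * Real.sqrt N * r0 v⌋ : ℤ) : ℝ) - L * Real.sqrt N * r0 v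
      linarith
    · show ((⌊L * Real.sqrt N * r0 v⌋ : ℤ) : ℝ) - L * Real.sqrt N * r0 v ≤ 1
      linarith
  have hm0 : ∀ v, F.e 0 v = 0 → m v = 0 := by
    intro v hv
    rw [hmdef]
    show ⌊L * Real.sqrt N * r0 v⌋ = 0
    rw [hr v hv, mul_zero, Int.floor_zero]
  have hxsq : (L * Real.sqrt N) ^ 2 = L ^ 2 * N := by
    rw [mul_pow, Real.sq_sqrt hN0]
  have hL2 : 1 ≤ L ^ 2 := one_le_pow₀ hL1
  have hm2 : m2 m ≤ 2 * (L ^ 2 * N) * D0 := by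
    have h1 := K7_m2_round r0 (L * Real.sqrt N) (by
      rw [hxsq]
      exact hNn0.trans (le_mul_of_one_le_left hN0 hL2)) m hm1
    rwa [hxsq, ← hD0] at h1
  have hzstep := hshift δ (Θ * δ) hδ hδ2 (by positivity) hδ3 z hzR m hm0 (by
    refine hm2.trans ?_
    calc 2 * (L ^ 2 * N) * D0 = (2 * L ^ 2 * D0) * N := by ring
      _ ≤ Θ ^ 2 * (δ ^ 2 * F.a (Fin.last k) (nR z) ^ 2) :=
          mul_le_mul hΘ3 hzl hN0 (by positivity)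
      _ = (Θ * δ) ^ 2 * F.a (Fin.last k) (nR z) ^ 2 := by ring)
  obtain ⟨z0, hz0def⟩ : ∃ z0, z0 = shift z m := ⟨_, rfl⟩
  rw [← hz0def, ← hNdef] at hzstep
  obtain ⟨hz0R, hz0n, -, -, hz0l, hz0t, hz0t', -, hz0o⟩ := hzstep
  obtain ⟨hmpos, -, -⟩ := K7_pos F z m cr hm0 hz0n
  have hz0Rs : F.Reg δs δs z0 := F.Reg_mono (by positivity) (by positivity) hδ4 hδ4 z0 hz0R
  have hz01 := hz0R.1
  have ht0 : 0 ≤ tot z0 := zero_le_one.trans hz01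
  have hFh : F.Fh z0 ≤ θi := by
    refine le_trans ?_ hδ6
    rw [hCL]
    exact K7_Fh_arith (F.o2 (nR z)) (F.o2 (nR z0)) N (tot z0) (F.a (Fin.last k) (nR z))
      (F.a (Fin.last k) (nR z0)) (F.xs z0) Kt L D0 (m2 m) δ Θ (((k + 1 : ℕ) : ℝ) ^ 2) hN0 hδ hδ1
      (hzR.2.2.1 _) (hz0R.2.2.1 _) hz0l (zero_le_one.trans hD1)
      (hzo.trans (mul_le_mul_of_nonneg_right (le_abs_self _) hN0)) hz0o hm2 hz0t hzl
      (F.xs_le (2 * (δ + Θ * δ)) (2 * (δ + Θ * δ)) (by positivity) z0 hz0R).2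
  -- the envelope after the kick
  have hT0 : μ / 2 * L ^ 2 * N ≤ F.env E' (τ / 2) z0 := by
    have h1 := hkz m hm0 hmpos hm1
    rwa [← hz0def] at h1
  have h16 : 16 * K1 * (PP * tot z0) ≤ F.env E' (τ / 2) z0 := by
    refine le_trans ?_ hT0
    have h1 : 16 * K1 * PP * tot z0 ≤ μ / 4 * L ^ 2 * (2 * N) :=
      mul_le_mul hLa hz0t ht0 (by positivity)
    clear * - h1
    linarith
  have hsv := hs z0 hz0Rs hFh h16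
  -- the region
  have hreg : ∀ Z ∈ F.RK E' (τ / 2) δs K1 (PP * tot z0) z0, F.Reg δs δs Z ∧ tot Z ≤ PP * tot z0 ∧
      N ≤ 64 * C6 * F.a 0 (nR Z) ∧ F.a 0 (nR Z) ≤ tot Z ∧
      F.Reg δM δM (shift Z (fun v => - m v)) ∧
      (∀ v, 0 ≤ (Z.n v : ℤ) + - m v) ∧
      (∀ v, m v ≠ 0 → 2 ≤ Z.n v ∧ 2 ≤ (Z.n v : ℤ) + - m v) ∧
      (∀ v, m v ≠ 0 → cr * F.a 0 (nR Z) ≤ (Z.n v : ℝ) + ((- m v : ℤ) : ℝ) ∧ 1 ≤ Z.n v) ∧
      tot (shift Z (fun v => - m v)) ≤ 2 * tot Z := by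
    rintro Z ⟨hZ1, -, hZ2, hZ3⟩
    exact ⟨hZ1, hZ3, K7_region F δr cr hshift δf cf C6 hC6 hfacts δs Θ L D0 N δM hδs hδs2 hΘ1 hδs3 hδs4 hδs5
      hL1 hD1 hΘ2 m hm0 hm2 z0 Z hz0Rs hz0t' hZ1 hZ2⟩
  have hz0mem : z0 ∈ F.RK E' (τ / 2) δs K1 (PP * tot z0) z0 := by
    refine ⟨hz0Rs, ?_, ?_, ?_⟩
    · refine le_trans ?_ h16
      have h1 : K1 * tot z0 ≤ K1 * (PP * tot z0) :=
        mul_le_mul_of_nonneg_left (le_mul_of_one_le_left ht0 hPP1) hK1.le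
      have h2 : 0 ≤ K1 * (PP * tot z0) := by positivity
      clear * - h1 h2
      linarith
    · have h1 : 0 < F.a 0 (nR z0) := hz0Rs.2.2.1 0
      clear * - h1
      linarith
    · exact le_mul_of_one_le_left ht0 hPP1
  obtain ⟨R, hRdef⟩ : ∃ R, R = F.RK E' (τ / 2) δs K1 (PP * tot z0) z0 := ⟨_, rfl⟩
  rw [← hRdef] at hreg hz0mem hsv
  -- comparison with the shifted process
  have hcmp : ∀ Z ∈ R, Real.sqrt fM * (open Classical in if B * F.env E' (τ / 2) z0 ≤ F.env E' (τ / 2) Z then (1 : ℝ) else 0) +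
      0 * (0 : ℝ) ≤ Real.sqrt (f (shift Z (fun v => - m v))) := by
    classical
    intro Z hZ
    obtain ⟨g1, g2, g3, g4, g5, g6, g7, g8, g9⟩ := hreg Z hZ
    split_ifs with hbt
    · rw [mul_one, mul_zero, add_zero]
      apply Real.sqrt_le_sqrt
      refine hmain _ g5 ?_
      have he := F.env_shift E' τ hE'abs hτ hτ0 Z (fun v => - m v) g6
      rw [K7_m2_neg] at he
      refine K7_env_arith μ L N D0 τ B (F.env E' (τ / 2) z0) (F.env E' (τ / 2) Z) _ (m2 m) KM PP _ (tot Z)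
        hμ0 hτ hN0 (zero_le_one.trans hD1) hB hT0 hbt hm2 he hKM (lt_of_lt_of_le one_pos hPP1) hLb g9 ?_
      exact g2.trans (mul_le_mul_of_nonneg_left hz0t (zero_le_one.trans hPP1))
    · rw [mul_zero, mul_zero, add_zero]
      exact Real.sqrt_nonneg _
  have hPR : Real.sqrt fM / 2 ≤ PR G R (fun Z => Real.sqrt (f (shift Z (fun v => - m v)))) ⌈Cm * tot z0⌉₊ z0 := by
    have h1 := PR_mono (G := G) R _ _ hcmp ⌈Cm * tot z0⌉₊ z0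
    have h2 := PR_linear (G := G) R (fun Z => open Classical in if B * F.env E' (τ / 2) z0 ≤ F.env E' (τ / 2) Z then (1 : ℝ) else 0)
      (fun _ => 0) (Real.sqrt fM) 0 ⌈Cm * tot z0⌉₊ z0
    rw [h2] at h1
    have h3 := mul_le_mul_of_nonneg_left hsv (Real.sqrt_nonneg fM)
    clear * - h1 h3
    linarith
  obtain ⟨χ, hχ⟩ : ∃ χ, χ = Cχ / N := ⟨_, rfl⟩
  have hχ0 : 0 ≤ χ := by rw [hχ]; positivity
  have hcs := cs_bound (G := G) f hf.nonneg hf.harm R (fun Z => shift Z (fun v => - m v)) χ hχ0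
    (fun Z hZ => ⟨(hreg Z hZ).1.1, (hreg Z hZ).2.2.2.2.1.1⟩)
    (by
      intro Z hZ w hw
      obtain ⟨g1, g2, g3, g4, g5, g6, g7, g8, g9⟩ := hreg Z hZ
      refine ⟨shift_step Z (fun v => - m v) (fun v hv => g7 v (neg_ne_zero.1 hv)) w hw, ?_⟩
      show 1 ≤ ((Z.n w : ℤ) + - m w).toNat
      by_cases hmw : m w = 0
      · rw [hmw]
        omega
      · have := (g7 w hmw).2
        omega)
    (by
      intro Z hZ w hw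
      obtain ⟨g1, g2, g3, g4, g5, g6, g7, g8, g9⟩ := hreg Z hZ
      show ((Z.n w : ℤ) + - m w).toNat = 0
      have hmw : m w = 0 := by
        by_contra h
        have := (g7 w h).1
        omega
      rw [hmw, hw]
      rfl)
    (by
      intro Z hZ
      obtain ⟨g1, g2, g3, g4, g5, g6, g7, g8, g9⟩ := hreg Z hZ
      have ha0 : 0 < F.a 0 (nR Z) := g1.2.2.1 0
      have hcb := chi_bound Z (fun v => - m v) (cr * F.a 0 (nR Z)) (by positivity)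
        (fun v hv => g8 v (neg_ne_zero.1 hv)) g9 g1.1
      rw [K7_m2_neg] at hcb
      refine hcb.trans (mul_le_mul_of_nonneg_right ?_ (sq_nonneg _))
      have h1 := K7_chi_arith (m2 m) L D0 N C6 cr (F.a 0 (nR Z)) (tot Z) hz1 hC6 hcr hD1 hm2 (K7_m2_nonneg m) g3 g4
      rw [← hCχ, ← hχ] at h1
      exact add_le_add_right h1 1)
    ⌈Cm * tot z0⌉₊ z0 hz0mem
  have hback : shift z0 (fun v => - m v) = z := by
    rw [hz0def]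
    exact shift_shift_neg z m hmpos
  simp only [hback] at hcs
  have hpow := K7_pow χ Cχ N Cm (tot z0) hz1 hCχ0 hχ hCm hz01 hz0t
  rw [← hΛ2] at hpow
  have h1 : (Real.sqrt fM / 2) ^ 2 ≤ Λ2 * f z := by
    calc (Real.sqrt fM / 2) ^ 2 ≤ _ ^ 2 := pow_le_pow_left₀ (by positivity) hPR 2
      _ ≤ _ := hcs
      _ ≤ Λ2 * f z := mul_le_mul_of_nonneg_right hpow (hf.nonneg z)
  rw [div_pow, Real.sq_sqrt hfM.le] at h1
  rw [lt_div_iff₀ (by positivity)] at hzf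
  clear * - h1 hzf hfM
  linarith

end UC
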