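import Pool.Agent.helper25.UC.L4

/-!
# Q1 : a trap contains a claw

By connectedness, `e_pos`, `e_zero` there are adjacent `u, v` with `e u > 0`, `e v = 0`.
`x v = 0` (`insul`).  `A = ∑_{w~v} e w ≥ e u > 0` and `2 S_{σ u} ≤ A` (`weak_e`), so some neighbour
`u'` of `v` has `e u' > 0`, `σ u' ≠ σ u`; `u, u'` are not adjacent (`same`).
`strict` at `v` for the colours `σ u ≠ σ u'`: `S^x_{σ u} + S^x_{σ u'} < A^x`, so some neighbour `w` of
`v` has `x w > 0` and `σ w ∉ {σ u, σ u'}`.  `w` is not adjacent to `u`: if it were, then either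
`e w > 0` and `same` gives `σ w = σ u`, or `e w = 0` and `insul` gives `x w = 0`.  The same for
`u'`.  They are distinct (different colours).  So `v; u, u', w` is a claw.
-/

namespace UC
open Finset
variable {V : Type} [Fintype V] [DecidableEq V] {s : ℕ}
variable {G : SimpleGraph V} [DecidableRel G.Adj]

/-- no vertex has three pairwise non-adjacent neighbours -/
def ClawFree (G : SimpleGraph V) : Prop :=
  ¬ ∃ v a b c, G.Adj v a ∧ G.Adj v b ∧ G.Adj v c ∧ a ≠ b ∧ a ≠ c ∧ b ≠ c ∧
    ¬ G.Adj a b ∧ ¬ G.Adj a c ∧ ¬ G.Adj b c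

theorem not_clawFree (hG : G.Connected) (E : ℝ) (σ : V → Fin s) (e x : V → ℝ)
    (h : TrapStr G E σ e x) : ¬ ClawFree G := by
  classical
  -- an edge leaving the set where `e` is positive
  obtain ⟨p, hp⟩ := h.e_pos
  obtain ⟨z, hz⟩ := h.e_zero
  obtain ⟨W⟩ := hG.preconnected p z
  obtain ⟨d, -, hd1, hd2⟩ := W.exists_boundary_dart {t | 0 < e t} hp (by simp [hz])
  obtain ⟨⟨u, v⟩, huv⟩ := d
  simp only [Set.mem_ofPred_eq] at hd1 hd2
  have huv' : G.Adj u v := huv
  have hvu : G.Adj v u := huv'.symm
  have hev : e v = 0 := le_antisymm (not_lt.1 hd2) (h.e_nonneg v)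
  have hxv : x v = 0 := h.insul u v huv' hd1 hev
  -- a second neighbour of another colour
  have hu' : ∃ u', G.Adj v u' ∧ 0 < e u' ∧ σ u' ≠ σ u := by
    by_contra hcon
    push Not at hcon
    have h1 := h.weak_e v hev (σ u)
    have h2 : ∑ w, (if G.Adj v w ∧ σ w = σ u then e w else 0) =
        ∑ w, (if G.Adj v w then e w else 0) := by
      refine Finset.sum_congr rfl fun w _ => ?_
      by_cases hw : G.Adj v w
      · by_cases hw2 : σ w = σ u
        · simp [hw, hw2]
        · have h3 : e w = 0 := by
            by_contra h4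
            exact hw2 (hcon w hw (lt_of_le_of_ne (h.e_nonneg w) (Ne.symm h4)))
          simp [hw, hw2, h3]
      · simp [hw]
    have h5 : e u ≤ ∑ w, (if G.Adj v w then e w else 0) := by
      have := Finset.single_le_sum (f := fun w => if G.Adj v w then e w else 0)
        (s := Finset.univ) (fun w _ => by
          split_ifs
          · exact h.e_nonneg w
          · exact le_rfl) (Finset.mem_univ u)
      simpa [hvu] using this
    rw [h2] at h1
    linarith
  obtain ⟨u', hvu', heu', hcol⟩ := hu'
  have hnuu' : ¬ G.Adj u u' := fun hadj => hcol (h.same u u' hadj hd1 heu').symm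
  -- a third neighbour
  have hw' : ∃ w, G.Adj v w ∧ 0 < x w ∧ σ w ≠ σ u ∧ σ w ≠ σ u' := by
    by_contra hcon
    push Not at hcon
    have h1 := h.strict u v huv' hd1 hxv (σ u)
    have h2 := h.strict u v huv' hd1 hxv (σ u')
    have h3 : ∑ w, (if G.Adj v w then x w else 0) ≤
        ∑ w, (if G.Adj v w ∧ σ w = σ u then x w else 0) +
        ∑ w, (if G.Adj v w ∧ σ w = σ u' then x w else 0) := by
      rw [← Finset.sum_add_distrib]
      refine Finset.sum_le_sum fun w _ => ?_
      have hx0 := h.x_nonneg w
      by_cases hw : G.Adj v w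
      · by_cases hxw : 0 < x w
        · by_cases hc : σ w = σ u
          · simp only [hw, hc, true_and, if_true]
            split_ifs <;> linarith
          · have hc2 := hcon w hw hxw hc
            simp only [hw, hc2, true_and, if_true]
            split_ifs <;> linarith
        · have h0 : x w = 0 := le_antisymm (not_lt.1 hxw) hx0
          simp [h0]
      · simp [hw]
    linarith
  obtain ⟨w, hvw, hxw, hc1, hc2⟩ := hw'
  have key : ∀ t, 0 < e t → σ w ≠ σ t → ¬ G.Adj t w := by
    intro t ht hc hadj
    rcases (h.e_nonneg w).lt_or_eq with hpos | hzero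
    · exact hc (h.same t w hadj ht hpos).symm
    · have := h.insul t w hadj ht hzero.symm
      linarith
  intro hcf
  refine hcf ⟨v, u, u', w, hvu, hvu', hvw, ?_, ?_, ?_, hnuu', key u hd1 hc1, key u' heu' hc2⟩
  · rintro rfl; exact hcol rfl
  · rintro rfl; exact hc1 rfl
  · rintro rfl; exact hc2 rfl

end UC
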