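import Pool.Agent.helper25.UC.Defs
import Pool.Agent.helper25.UC.A1

set_option linter.unusedSectionVars false

/-!
# H1 : the probability `h` that at least two colours survive, as a limit

`gg z = 1` if `z` has at least two colours, else `0`.  `Pop F z` = one step expectation (for
`tot z = 0` put `Pop F z = F z`).  `hseq m = Pop^[m] gg`.
-/

namespace UC
open Finset Filter
variable {V : Type} [Fintype V] [DecidableEq V] {s : ℕ}

/-- at least two colours are present -/
def TwoCol (z : St V s) : Prop := ∃ u v, 1 ≤ z.n u ∧ 1 ≤ z.n v ∧ z.c u ≠ z.c v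

open Classical in
noncomputable def gg (z : St V s) : ℝ := if TwoCol z then 1 else 0

open Classical in
noncomputable def Pop (G : SimpleGraph V) [DecidableRel G.Adj] (F : St V s → ℝ)
    (z : St V s) : ℝ :=
  if tot z = 0 then F z else (∑ w, (z.n w : ℝ) * F (step G z w)) / tot z

noncomputable def hseq (G : SimpleGraph V) [DecidableRel G.Adj] (m : ℕ) : St V s → ℝ :=
  (Pop G)^[m] gg

noncomputable def hh (G : SimpleGraph V) [DecidableRel G.Adj] (z : St V s) : ℝ :=
  ⨅ m, hseq G m z

variable {G : SimpleGraph V} [DecidableRel G.Adj]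

theorem twoCol_of_step (z : St V s) (w : V) (hw : 1 ≤ z.n w) (h : TwoCol (step G z w)) :
    TwoCol z := by
  by_contra hc
  have key : ∀ u, 1 ≤ z.n u → z.c u = z.c w := by
    intro u hu
    by_contra hne
    exact hc ⟨u, w, hu, hw, hne⟩
  have key2 : ∀ u, 1 ≤ (step G z w).n u → (step G z w).c u = z.c w := by
    intro u hu
    by_cases ha : G.Adj w u
    · by_cases h0 : z.n u = 0
      · simp [step, ha, h0]
      · have : (step G z w).c u = z.c u := by simp [step, h0]
        rw [this]
        exact key u (by omega)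
    · have h1 : (step G z w).n u = z.n u := by simp [step, ha]
      have h2 : (step G z w).c u = z.c u := by simp [step, ha]
      rw [h2]
      exact key u (by omega)
  obtain ⟨u, v, hu, hv, hne⟩ := h
  exact hne ((key2 u hu).trans (key2 v hv).symm)

theorem H1_gg_nonneg (z : St V s) : 0 ≤ gg z := by
  unfold gg; split_ifs <;> norm_num

theorem H1_gg_le_one (z : St V s) : gg z ≤ 1 := by
  unfold gg; split_ifs <;> norm_num

theorem H1_tot_nonneg (z : St V s) : 0 ≤ tot z := by
  unfold tot; exact Finset.sum_nonneg fun _ _ => Nat.cast_nonneg _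

theorem H1_n_zero (z : St V s) (h : tot z = 0) (w : V) : z.n w = 0 := by
  unfold tot at h
  have := (Finset.sum_eq_zero_iff_of_nonneg (fun i _ => Nat.cast_nonneg (z.n i))).1 h w
    (Finset.mem_univ w)
  exact_mod_cast this

theorem H1_Pop_mono {F F' : St V s → ℝ} (h : ∀ z, F z ≤ F' z) (z : St V s) :
    Pop G F z ≤ Pop G F' z := by
  unfold Pop
  split_ifs with h0
  · exact h z
  · apply div_le_div_of_nonneg_right _ (H1_tot_nonneg z)
    exact Finset.sum_le_sum fun w _ => mul_le_mul_of_nonneg_left (h _) (Nat.cast_nonneg _)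

theorem H1_Pop_nonneg {F : St V s → ℝ} (h : ∀ z, 0 ≤ F z) (z : St V s) : 0 ≤ Pop G F z := by
  unfold Pop
  split_ifs with h0
  · exact h z
  · exact div_nonneg (Finset.sum_nonneg fun w _ => mul_nonneg (Nat.cast_nonneg _) (h _))
      (H1_tot_nonneg z)

theorem H1_Pop_gg (z : St V s) : Pop G gg z ≤ gg z := by
  unfold Pop
  split_ifs with h0
  · exact le_rfl
  · have hpos : 0 < tot z := lt_of_le_of_ne (H1_tot_nonneg z) (Ne.symm h0)
    by_cases hT : TwoCol z
    · have h1 : gg z = 1 := by simp [gg, hT]
      rw [h1, div_le_one hpos]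
      calc ∑ w, (z.n w : ℝ) * gg (step G z w) ≤ ∑ w, (z.n w : ℝ) * 1 :=
            Finset.sum_le_sum fun w _ =>
              mul_le_mul_of_nonneg_left (H1_gg_le_one _) (Nat.cast_nonneg _)
        _ = tot z := by simp [tot]
    · have h1 : gg z = 0 := by simp [gg, hT]
      have h2 : ∑ w, (z.n w : ℝ) * gg (step G z w) = 0 := by
        apply Finset.sum_eq_zero
        intro w _
        rcases Nat.eq_zero_or_pos (z.n w) with hw | hw
        · simp [hw]
        · have : ¬ TwoCol (step G z w) := fun hc => hT (twoCol_of_step z w hw hc)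
          simp [gg, this]
      rw [h1, h2, zero_div]

theorem H1_hseq_succ (m : ℕ) (z : St V s) : hseq G (m + 1) z = Pop G (hseq G m) z := by
  unfold hseq
  rw [Function.iterate_succ_apply']

theorem hseq_nonneg (m : ℕ) (z : St V s) : 0 ≤ hseq G m z := by
  induction m generalizing z with
  | zero => exact H1_gg_nonneg z
  | succ m ih => rw [H1_hseq_succ]; exact H1_Pop_nonneg ih z

theorem H1_succ_le (m : ℕ) (z : St V s) : hseq G (m + 1) z ≤ hseq G m z := by
  induction m generalizing z with
  | zero => rw [H1_hseq_succ]; exact H1_Pop_gg z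
  | succ m ih =>
    rw [H1_hseq_succ (m + 1), H1_hseq_succ m]
    exact H1_Pop_mono ih z

theorem hseq_anti (z : St V s) : Antitone (fun m => hseq G m z) :=
  antitone_nat_of_succ_le fun m => H1_succ_le m z

theorem hseq_le_one (m : ℕ) (z : St V s) : hseq G m z ≤ 1 :=
  (hseq_anti (G := G) z (Nat.zero_le m)).trans (H1_gg_le_one z)

theorem H1_bdd (z : St V s) : BddBelow (Set.range fun m => hseq G m z) :=
  ⟨0, by rintro _ ⟨m, rfl⟩; exact hseq_nonneg m z⟩

theorem hseq_tendsto (z : St V s) : Tendsto (fun m => hseq G m z) atTop (nhds (hh G z)) :=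
  tendsto_atTop_ciInf (hseq_anti z) (H1_bdd z)

theorem hh_nonneg (z : St V s) : 0 ≤ hh G z :=
  le_ciInf fun m => hseq_nonneg m z

theorem hh_le_gg (z : St V s) : hh G z ≤ gg z :=
  ciInf_le (H1_bdd z) 0

theorem H1_hh_fix (z : St V s) (h0 : tot z ≠ 0) :
    hh G z = (∑ w, (z.n w : ℝ) * hh G (step G z w)) / tot z := by
  have h1 : Tendsto (fun m => hseq G (m + 1) z) atTop (nhds (hh G z)) :=
    (hseq_tendsto z).comp (tendsto_add_atTop_nat 1)
  have h2 : Tendsto (fun m => hseq G (m + 1) z) atTop
      (nhds ((∑ w, (z.n w : ℝ) * hh G (step G z w)) / tot z)) := by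
    have : (fun m => hseq G (m + 1) z) =
        fun m => (∑ w, (z.n w : ℝ) * hseq G m (step G z w)) / tot z := by
      funext m
      rw [H1_hseq_succ]
      unfold Pop
      rw [if_neg h0]
    rw [this]
    apply Tendsto.div_const
    apply tendsto_finsetSum
    intro w _
    exact (hseq_tendsto _).const_mul _
  exact tendsto_nhds_unique h1 h2

theorem gen_hh (z : St V s) : gen G (hh G) z = 0 := by
  unfold gen
  by_cases h0 : tot z = 0
  · apply Finset.sum_eq_zero
    intro w _
    rw [H1_n_zero z h0 w]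
    simp
  · have h1 := H1_hh_fix (G := G) z h0
    have h2 : ∑ w, (z.n w : ℝ) * hh G (step G z w) = tot z * hh G z := by
      rw [h1]; field_simp
    have h3 : ∑ w, (z.n w : ℝ) * (hh G (step G z w) - hh G z) =
        ∑ w, (z.n w : ℝ) * hh G (step G z w) - (∑ w, (z.n w : ℝ)) * hh G z := by
      rw [Finset.sum_mul, ← Finset.sum_sub_distrib]
      exact Finset.sum_congr rfl fun w _ => by ring
    rw [h3, h2]
    unfold tot
    ring

theorem hh_lower (M : St V s → ℝ) (h1 : ∀ z, 1 ≤ tot z → 1 - M z ≤ gg z)
    (h2 : ∀ z, 1 ≤ tot z → gen G M z ≤ 0) (z : St V s) (hz : 1 ≤ tot z) :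
    1 - M z ≤ hh G z := by
  have key : ∀ m, ∀ z : St V s, 1 ≤ tot z → 1 - M z ≤ hseq G m z := by
    intro m
    induction m with
    | zero => intro z hz; exact h1 z hz
    | succ m ih =>
      intro z hz
      have hpos : 0 < tot z := by linarith
      rw [H1_hseq_succ]
      unfold Pop
      rw [if_neg hpos.ne', le_div_iff₀ hpos]
      have hg := h2 z hz
      unfold gen at hg
      have h3 : ∑ w, (z.n w : ℝ) * (M (step G z w) - M z) =
          ∑ w, (z.n w : ℝ) * M (step G z w) - (∑ w, (z.n w : ℝ)) * M z := by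
        rw [Finset.sum_mul, ← Finset.sum_sub_distrib]
        exact Finset.sum_congr rfl fun w _ => by ring
      rw [h3] at hg
      have h4 : ∑ w, (z.n w : ℝ) * (1 - M (step G z w)) ≤
          ∑ w, (z.n w : ℝ) * hseq G m (step G z w) := by
        apply Finset.sum_le_sum
        intro w _
        rcases Nat.eq_zero_or_pos (z.n w) with hw | hw
        · simp [hw]
        · exact mul_le_mul_of_nonneg_left (ih _ (one_le_step_tot z w hw)) (Nat.cast_nonneg _)
      have h5 : ∑ w, (z.n w : ℝ) * (1 - M (step G z w)) =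
          ∑ w, (z.n w : ℝ) - ∑ w, (z.n w : ℝ) * M (step G z w) := by
        rw [← Finset.sum_sub_distrib]
        exact Finset.sum_congr rfl fun w _ => by ring
      have h6 : tot z = ∑ w, (z.n w : ℝ) := rfl
      rw [h6]
      nlinarith [hg, h4, h5]
  exact le_ciInf fun m => key m z hz

theorem hh_sup (z0 : St V s) (h0 : 1 ≤ tot z0) (hp : 0 < hh G z0) (ε : ℝ) (hε : 0 < ε) :
    ∃ z : St V s, 1 ≤ tot z ∧ 1 - ε < hh G z := by
  by_contra hcon
  push Not at hcon
  have ha : 0 < 1 - ε := lt_of_lt_of_le hp (hcon z0 h0)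
  have key : ∀ m, ∀ z : St V s, 1 ≤ tot z → hh G z ≤ (1 - ε) * hseq G m z := by
    intro m
    induction m with
    | zero =>
      intro z hz
      change hh G z ≤ (1 - ε) * gg z
      by_cases hT : TwoCol z
      · have : gg z = 1 := by simp [gg, hT]
        rw [this, mul_one]; exact hcon z hz
      · have h1 : gg z = 0 := by simp [gg, hT]
        have := hh_le_gg (G := G) z
        rw [h1] at this ⊢
        simpa using this
    | succ m ih =>
      intro z hz
      have hpos : 0 < tot z := by linarith
      rw [H1_hh_fix z hpos.ne', H1_hseq_succ]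
      unfold Pop
      rw [if_neg hpos.ne', ← mul_div_assoc]
      apply div_le_div_of_nonneg_right _ hpos.le
      rw [Finset.mul_sum]
      apply Finset.sum_le_sum
      intro w _
      rcases Nat.eq_zero_or_pos (z.n w) with hw | hw
      · simp [hw]
      · have := mul_le_mul_of_nonneg_left (ih _ (one_le_step_tot (G := G) z w hw))
          (Nat.cast_nonneg (z.n w) : (0 : ℝ) ≤ (z.n w : ℝ))
        linarith
  have hlim : hh G z0 ≤ (1 - ε) * hh G z0 :=
    ge_of_tendsto' ((hseq_tendsto z0).const_mul (1 - ε)) fun m => key m z0 h0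
  nlinarith

end UC
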