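import Pool.Agent.helper25.UC.A4
import Pool.Agent.helper25.UC.B2
import Pool.Agent.helper25.UC.B6
import Pool.Agent.helper25.UC.C0
import Pool.Agent.helper25.UC.H1

/-!
# S1 : a sufficient condition for coexistence

Let `X2 = ∑ x²`, `e = x/√X2`.  `F : Flag G s 1` with `I = U`, `σ`, `e_0 = e`, `E_0 = E`:
`supp`, `orth`, `cover` clear; `eig`: for `v ∈ U` all neighbours in `U` have colour `σ v`, so
`Lf σ (σ v) v e = ∑_{u~v} e u = E e v`; `bal`: `v ∉ U`: `Lf σ b v e = (2S_b - A)/√X2 < 0` if `v`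
is adjacent to `U`, `= 0` otherwise.  `E ≥ 0`.
Write `a = F.a 0`, `o2`, `S`, `n0`; `T = {v ∉ U adjacent to U}`.  `a·ell_0 = -S`.
`δ0, c, C` from `reg_facts1` (`F.Facts, F.Facts1`), `tot ≤ C6 a`, `a ≤ tot`.

Choose `δ ≤ δ0` small, `C1` and `Kc` large (below).
`Θ z = Kc (o2/a² + C1/a)`,  `M z = min 1 (Θ z)` if `z` is matched (`F.Match z`) and `0 < a z`,
`M z = 1` otherwise.

**If `M z < 1` (and `tot z ≥ 1`) then `z ∈ Reg δ δ`, `a ≥ C1 Kc`**: `o2 ≤ a²/Kc ≤ δ²a²`;
`C1/a < 1/Kc`; `|z|² = a² + o2 ≤ 2a²`, `tot ≤ √n0 |z| ≤ 2 n0 a ≤ δ² a²` for `a ≥ 2n0/δ²`.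
**Then `1 - M z ≤ gg z`**: if `M z = 1` clear.  If `M z < 1`, `z` is matched, and `U` contains two
colours: by connectedness there is `v ∉ U` adjacent to `U`; with `A = ∑_{u~v} x u > 0` the strict
inequality for `b = ` the colour of a `U`-neighbour excludes that all `U`-neighbours of `v` have
colour `b`.
**`gen M ≤ 0`**: if `M z = 1` clear (`M ≤ 1`).  Let `M z < 1`.  For `n_w ≥ 1`, `z^w` is matched with
`a(z^w) ≥ a - n0 > 0` (`color_step`, `n_v ≥ c a ≥ 2` on `U`), so `M(z^w) ≤ Θ(z^w)` and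
`gen M z ≤ gen Θ z`.  Remains `gen (o2/a² + C1/a) ≤ 0`.
* `AA(ρ,ρ) ≤ E o2 + (3n0δ/c') S`, `ρ = rho z = ρ_U + n_T + n_R`:
  - `AA(ρ_U,ρ_U) = ∑_{u~v in U} ρ_u ρ_v ≤ ∑_{u~v} ½(ρ_u² e_v/e_u + ρ_v² e_u/e_v) = E|ρ_U|²`;
  - `AA(n_R,n_R) ≤ ∑_{u~v} n_u n_v ≤ E |n_R|²` (`hspec`, `ε ≤ 1`);
  - no edges between `U` and `R`;
  - terms with `n_T`: `≤ 3 n0 √o2 √(∑_T n²) ≤ 3n0 δ a ∑_T n_v`, and `S ≥ c a n_v` for each
    `v ∈ T` (`Facts.mass`/`S_mass`), so `a ∑_T n_v ≤ (n0/c) S`.
  With `gen_o2` and `δ` small: `gen o2 ≤ 2E o2 - (3/2) S + n0 tot`.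
* `quot_calc`, `X = o2`, `Y = a²` (`ΔY = 2aLf + Lf²`, `|ΔY| ≤ 3n0²a ≤ a²/2`,
  `|ΔX| ≤ C(√o2+1)` by `o2_step_abs`), `gen Y = 2a(Ea + ell) + ∑ n_w Lf² ≥ 2Ea² - 2S`:
  `gen(o2/a²) ≤ (2E o2 - (3/2)S + n0 tot)/a² - o2(2Ea² - 2S)/a⁴ + C tot/a² ≤ -S/a² + C'/a`
  (`o2 ≤ δ²a²`, `tot ≤ C6 a`).
* `gen(1/a) ≤ -(Ea + ell)/a² + 2n0² tot/a³ ≤ -E/a + S/a³ + C/a² ≤ -(E/2)/a + S/a³`.
* Sum: `≤ -S/a² + C'/a - C1(E/2)/a + C1 S/a³ ≤ 0` for `C1 = 2C'/E`, `a ≥ C1`.
`hh_lower`: `1 - M ≤ hh` on `{tot ≥ 1}`.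
**Start**: `z_N = (⌈N x v⌉, σ)` (`0` off `U`): matched, `o2 ≤ n0` (distance to `N x`), `a ≥ N√X2 - n0`,
so `Θ(z_N) → 0`; take `N` with `M(z_N) < 1`.
-/

namespace UC
open Finset
variable {V : Type} [Fintype V] [DecidableEq V] {s : ℕ}
variable {G : SimpleGraph V} [DecidableRel G.Adj]

theorem s1_AA_add (c : V → Fin s) (x y : V → ℝ) :
    AA G c (fun v => x v + y v) c (fun v => x v + y v) =
      AA G c x c x + 2 * AA G c x c y + AA G c y c y := by
  have h1 : AA G c (fun v => x v + y v) c (fun v => x v + y v) =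
      AA G c x c x + AA G c x c y + AA G c y c x + AA G c y c y := by
    rw [AA_eq_Lf, AA_eq_Lf, AA_eq_Lf, AA_eq_Lf, AA_eq_Lf, ← Finset.sum_add_distrib,
      ← Finset.sum_add_distrib, ← Finset.sum_add_distrib]
    apply Finset.sum_congr rfl
    intro v _
    rw [Lf_add]
    ring
  have h2 := AA_symm (G := G) c y c x
  rw [h1, h2]; ring

/-- the field of a vector supported on `U` -/
theorem s1_Lf (σ : V → Fin s) (x : V → ℝ) (t : ℝ) (b : Fin s) (v : V) :
    Lf G σ b v (fun u => x u / t) =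
      (2 * ∑ u, (if G.Adj v u ∧ σ u = b then x u else 0) - ∑ u, (if G.Adj v u then x u else 0)) / t := by
  unfold Lf
  rw [sub_div, mul_div_assoc, sum_div, sum_div, mul_sum, ← sum_sub_distrib]
  refine sum_congr rfl fun u _ => ?_
  by_cases h : G.Adj v u
  · by_cases h2 : σ u = b
    · subst h2
      simp only [h, eps, and_self, if_true]
      ring
    · have h3 : ¬ b = σ u := fun e => h2 e.symm
      simp only [h, h2, h3, eps, and_false, if_true, if_false]
      ring
  · simp [h]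

theorem s1_Lf_neg (U : Finset V) (σ : V → Fin s) (x : V → ℝ) (t : ℝ) (ht : 0 < t)
    (hstrict : ∀ v, v ∉ U → (∃ u ∈ U, G.Adj v u) → ∀ b : Fin s,
      2 * ∑ u, (if G.Adj v u ∧ σ u = b then x u else 0) < ∑ u, (if G.Adj v u then x u else 0))
    (v : V) (hv : v ∉ U) (hv' : ∃ u ∈ U, G.Adj v u) (b : Fin s) :
    Lf G σ b v (fun u => x u / t) < 0 := by
  rw [s1_Lf]
  exact div_neg_of_neg_of_pos (sub_neg.2 (hstrict v hv hv' b)) ht

theorem s1_flag (U : Finset V) (σ : V → Fin s) (x : V → ℝ) (E : ℝ)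
    (hE : 0 < E) (hU : U.Nonempty) (hx : ∀ v ∈ U, 0 < x v)
    (hx0 : ∀ v, v ∉ U → x v = 0)
    (heig : ∀ v ∈ U, ∑ u, (if G.Adj v u then x u else 0) = E * x v)
    (hsame : ∀ u ∈ U, ∀ v ∈ U, G.Adj u v → σ u = σ v)
    (hstrict : ∀ v, v ∉ U → (∃ u ∈ U, G.Adj v u) → ∀ b : Fin s,
      2 * ∑ u, (if G.Adj v u ∧ σ u = b then x u else 0) < ∑ u, (if G.Adj v u then x u else 0)) :
    ∃ F : Flag G s (0 + 1), F.I = U ∧ F.σ = σ ∧
      F.e 0 = (fun v => x v / Real.sqrt (∑ u, x u ^ 2)) ∧ F.E 0 = E := by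
  have hX2 : 0 < ∑ u, x u ^ 2 := by
    obtain ⟨u0, hu0⟩ := hU
    refine sum_pos' (fun i _ => sq_nonneg _) ⟨u0, mem_univ _, ?_⟩
    have := hx u0 hu0
    positivity
  have ht : 0 < Real.sqrt (∑ u, x u ^ 2) := Real.sqrt_pos.2 hX2
  set t := Real.sqrt (∑ u, x u ^ 2) with htdef
  have ht2 : t ^ 2 = ∑ u, x u ^ 2 := Real.sq_sqrt hX2.le
  refine ⟨⟨U, σ, fun _ v => x v / t, fun _ => E, ?_, ?_, ?_, ?_, ?_, ?_, ?_, ?_⟩,
    rfl, rfl, rfl, rfl⟩
  · intro _ v hv
    rw [hx0 v hv, zero_div]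
  · intro i j
    have hij : i = j := Subsingleton.elim (α := Fin 1) i j
    rw [if_pos hij]
    have : ∀ v, x v / t * (x v / t) = x v ^ 2 / t ^ 2 := fun v => by
      rw [div_mul_div_comm, ← pow_two, ← pow_two]
    simp only [this]
    rw [← sum_div, ← ht2, div_self (by positivity)]
  · intro v hv
    refine ⟨0, div_pos (hx v hv) ht, ?_⟩
    intro i hi
    exact absurd hi (by
      have : i = 0 := Subsingleton.elim (α := Fin 1) i 0
      rw [this]
      exact lt_irrefl _)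
  · intro _ v hv
    rw [s1_Lf]
    have h1 : ∑ u, (if G.Adj v u ∧ σ u = σ v then x u else 0) =
        ∑ u, (if G.Adj v u then x u else 0) := by
      refine sum_congr rfl fun u _ => ?_
      by_cases h : G.Adj v u
      · by_cases hu : u ∈ U
        · have := hsame v hv u hu h
          simp [h, this]
        · simp [h, hx0 u hu]
      · simp [h]
    rw [h1, heig v hv]
    ring
  · intro v hv b
    by_cases h : ∃ u ∈ U, G.Adj v u
    · right
      refine ⟨0, s1_Lf_neg U σ x t ht hstrict v hv h b, ?_⟩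
      intro i hi
      exact absurd hi (by
        have : i = 0 := Subsingleton.elim (α := Fin 1) i 0
        rw [this]
        exact lt_irrefl _)
    · left
      intro _
      push Not at h
      unfold Lf
      refine sum_eq_zero fun u _ => ?_
      by_cases hu : u ∈ U
      · rw [if_neg (h u hu)]
      · simp [hx0 u hu]
  · intro i j _
    exact le_rfl
  · intro i j
    linarith
  · intro j
    exact hE.le

/-- the form of the rest -/
theorem s1_form (U : Finset V) (σ : V → Fin s) (x : V → ℝ) (E : ℝ)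
    (hE : 0 < E) (hx : ∀ v ∈ U, 0 < x v)
    (hx0 : ∀ v, v ∉ U → x v = 0)
    (heig : ∀ v ∈ U, ∑ u, (if G.Adj v u then x u else 0) = E * x v)
    (hspec : ∀ y : V → ℝ, (∀ v, (v ∈ U ∨ ∃ u ∈ U, G.Adj v u) → y v = 0) →
      ∑ u, ∑ v, (if G.Adj u v then y u * y v else 0) ≤ E * ∑ v, y v ^ 2)
    (F : Flag G s (0 + 1)) (hI : F.I = U) (z : St V s) (t : ℝ) (ht0 : 0 ≤ t)
    (ht : ∀ v, v ∉ U → (∃ u ∈ U, G.Adj v u) → Real.sqrt (F.o2 (nR z)) * (z.n v : ℝ) ≤ t) :
    AA G z.c (F.rho (nR z)) z.c (F.rho (nR z)) ≤ E * F.o2 (nR z) + 3 * cV V ^ 2 * t := by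
  classical
  have hn0 : 0 ≤ cV V := Nat.cast_nonneg _
  set ρ := F.rho (nR z) with hρ
  have hρoff : ∀ v, v ∉ U → ρ v = (z.n v : ℝ) := by
    intro v hv
    exact F.rho_off (nR z) v (by rw [hI]; exact hv)
  let p : V → Prop := fun v => v ∉ U ∧ ∃ u ∈ U, G.Adj v u
  let m : V → ℝ := fun v => if p v then ρ v else 0
  let yU : V → ℝ := fun v => if v ∈ U then ρ v else 0
  let yR : V → ℝ := fun v => if v ∈ U ∨ p v then 0 else ρ v
  let y : V → ℝ := fun v => yU v + yR v
  have hm1 : ∀ v, p v → m v = ρ v := fun v h => if_pos h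
  have hm0 : ∀ v, ¬ p v → m v = 0 := fun v h => if_neg h
  have hU1 : ∀ v, v ∈ U → yU v = ρ v := fun v h => if_pos h
  have hU0 : ∀ v, v ∉ U → yU v = 0 := fun v h => if_neg h
  have hR0 : ∀ v, (v ∈ U ∨ p v) → yR v = 0 := fun v h => if_pos h
  have hR1 : ∀ v, ¬ (v ∈ U ∨ p v) → yR v = ρ v := fun v h => if_neg h
  have hsplit : ρ = fun v => y v + m v := by
    funext v
    by_cases hv : v ∈ U
    · have hp : ¬ p v := fun h => h.1 hv
      simp only [y, hU1 v hv, hR0 v (Or.inl hv), hm0 v hp, add_zero]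
    · by_cases hp : p v
      · simp only [y, hU0 v hv, hR0 v (Or.inr hp), hm1 v hp, add_zero, zero_add]
      · have : ¬ (v ∈ U ∨ p v) := by
          rintro (h | h)
          · exact hv h
          · exact hp h
        simp only [y, hU0 v hv, hR1 v this, hm0 v hp, add_zero, zero_add]
  have hsq : ∀ v, ρ v ^ 2 = yU v ^ 2 + yR v ^ 2 + m v ^ 2 := by
    intro v
    by_cases hv : v ∈ U
    · have hp : ¬ p v := fun h => h.1 hv
      rw [hU1 v hv, hR0 v (Or.inl hv), hm0 v hp]
      ring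
    · by_cases hp : p v
      · rw [hU0 v hv, hR0 v (Or.inr hp), hm1 v hp]
        ring
      · have : ¬ (v ∈ U ∨ p v) := by
          rintro (h | h)
          · exact hv h
          · exact hp h
        rw [hU0 v hv, hR1 v this, hm0 v hp]
        ring
  have hysq : ∀ v, y v ^ 2 = yU v ^ 2 + yR v ^ 2 := by
    intro v
    by_cases hv : v ∈ U
    · simp only [y, hR0 v (Or.inl hv)]
      ring
    · simp only [y, hU0 v hv]
      ring
  have ho2 : F.o2 (nR z) = ∑ v, yU v ^ 2 + ∑ v, yR v ^ 2 + ∑ v, m v ^ 2 := by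
    rw [F.o2_eq, ← sum_add_distrib, ← sum_add_distrib]
    exact sum_congr rfl fun v _ => hsq v
  have hs1 : 0 ≤ ∑ v, yU v ^ 2 := sum_nonneg fun v _ => sq_nonneg _
  have hs2 : 0 ≤ ∑ v, yR v ^ 2 := sum_nonneg fun v _ => sq_nonneg _
  have hs3 : 0 ≤ ∑ v, m v ^ 2 := sum_nonneg fun v _ => sq_nonneg _
  have heps : ∀ a b : Fin s, eps a b ≤ 1 := by
    intro a b
    unfold eps
    split_ifs <;> norm_num
  have heps' : ∀ a b : Fin s, |eps a b| = 1 := by
    intro a b
    unfold eps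
    split_ifs <;> norm_num
  -- the part on U
  have hxnn : ∀ v, 0 ≤ x v := by
    intro v
    by_cases hv : v ∈ U
    · exact (hx v hv).le
    · rw [hx0 v hv]
  have hUU : AA G z.c yU z.c yU ≤ E * ∑ v, yU v ^ 2 := by
    let h : V → V → ℝ := fun u v => if G.Adj u v then yU u ^ 2 * x v / x u else 0
    have hrow : ∀ u, ∑ v, h u v = E * yU u ^ 2 := by
      intro u
      by_cases hu : u ∈ U
      · have h1 : ∀ v, h u v = yU u ^ 2 / x u * (if G.Adj u v then x v else 0) := by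
          intro v
          simp only [h]
          split_ifs
          · ring
          · ring
        simp only [h1]
        rw [← mul_sum, heig u hu]
        have := hx u hu
        field_simp
      · have h1 : ∀ v, h u v = 0 := by
          intro v
          simp only [h, hU0 u hu]
          simp
        simp only [h1, hU0 u hu]
        simp
    have hterm : ∀ u v, (if G.Adj u v then eps (z.c u) (z.c v) * yU u * yU v else 0) ≤
        1 / 2 * (h u v + h v u) := by
      intro u v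
      by_cases hadj : G.Adj u v
      · have hadj' := hadj.symm
        simp only [h, hadj, hadj', if_true]
        by_cases hu : u ∈ U
        · by_cases hv : v ∈ U
          · have h1 := hx u hu
            have h2 := hx v hv
            have h3 : eps (z.c u) (z.c v) * yU u * yU v ≤ |yU u| * |yU v| := by
              refine (le_abs_self _).trans ?_
              rw [abs_mul, abs_mul, heps', one_mul]
            have h4 : |yU u| * |yU v| ≤ 1 / 2 * (yU u ^ 2 * x v / x u + yU v ^ 2 * x u / x v) := by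
              have h5 : yU u ^ 2 * x v / x u + yU v ^ 2 * x u / x v - 2 * (|yU u| * |yU v|) =
                  (|yU u| * x v - |yU v| * x u) ^ 2 / (x u * x v) := by
                rw [← sq_abs (yU u), ← sq_abs (yU v)]
                field_simp
                ring
              have h6 : 0 ≤ (|yU u| * x v - |yU v| * x u) ^ 2 / (x u * x v) := by positivity
              linarith
            exact h3.trans h4
          · rw [hU0 v hv]
            simp only [mul_zero]
            have := hxnn u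
            have := hxnn v
            positivity
        · rw [hU0 u hu]
          simp only [mul_zero, zero_mul]
          have := hxnn u
          have := hxnn v
          positivity
      · have hadj' : ¬ G.Adj v u := fun h => hadj h.symm
        simp [h, hadj, hadj']
    calc AA G z.c yU z.c yU ≤ ∑ u, ∑ v, 1 / 2 * (h u v + h v u) := by
          unfold AA
          exact sum_le_sum fun u _ => sum_le_sum fun v _ => hterm u v
      _ = 1 / 2 * (∑ u, ∑ v, h u v + ∑ u, ∑ v, h v u) := by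
          rw [← sum_add_distrib, mul_sum]
          refine sum_congr rfl fun u _ => ?_
          rw [← sum_add_distrib, mul_sum]
      _ = 1 / 2 * (∑ u, ∑ v, h u v + ∑ v, ∑ u, h v u) := by rw [sum_comm (f := fun u v => h v u)]
      _ = E * ∑ v, yU v ^ 2 := by
          simp only [hrow]
          rw [← mul_sum]
          ring
  have hRR : AA G z.c yR z.c yR ≤ E * ∑ v, yR v ^ 2 := by
    refine le_trans ?_ (hspec yR ?_)
    · unfold AA
      refine sum_le_sum fun u _ => sum_le_sum fun v _ => ?_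
      split_ifs
      · have h1 : 0 ≤ yR u := by
          by_cases h : u ∈ U ∨ p u
          · rw [hR0 u h]
          · rw [hR1 u h, hρoff u (fun h' => h (Or.inl h'))]
            positivity
        have h2 : 0 ≤ yR v := by
          by_cases h : v ∈ U ∨ p v
          · rw [hR0 v h]
          · rw [hR1 v h, hρoff v (fun h' => h (Or.inl h'))]
            positivity
        have h3 := mul_nonneg h1 h2
        have h4 := mul_le_mul_of_nonneg_right (heps (z.c u) (z.c v)) h3
        linarith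
      · exact le_rfl
    · intro v hv
      by_cases hvU : v ∈ U
      · exact hR0 v (Or.inl hvU)
      · rcases hv with h | h
        · exact absurd h hvU
        · exact hR0 v (Or.inr ⟨hvU, h⟩)
  have hUR : AA G z.c yU z.c yR = 0 := by
    unfold AA
    refine sum_eq_zero fun u _ => sum_eq_zero fun v _ => ?_
    split_ifs with hadj
    · by_cases hu : u ∈ U
      · by_cases hv : v ∈ U
        · rw [hR0 v (Or.inl hv), mul_zero]
        · rw [hR0 v (Or.inr ⟨hv, u, hu, hadj.symm⟩), mul_zero]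
      · rw [hU0 u hu, mul_zero, zero_mul]
    · rfl
  have hyy : AA G z.c y z.c y ≤ E * ∑ v, y v ^ 2 := by
    have h1 : AA G z.c y z.c y = AA G z.c yU z.c yU + 2 * AA G z.c yU z.c yR +
        AA G z.c yR z.c yR := s1_AA_add z.c yU yR
    have h2 : ∑ v, y v ^ 2 = ∑ v, yU v ^ 2 + ∑ v, yR v ^ 2 := by
      rw [← sum_add_distrib]
      exact sum_congr rfl fun v _ => hysq v
    rw [h1, hUR, h2]
    linarith
  have hysum : ∑ v, y v ^ 2 = ∑ v, yU v ^ 2 + ∑ v, yR v ^ 2 := by
    rw [← sum_add_distrib]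
    exact sum_congr rfl fun v _ => hysq v
  set q : ℝ := Real.sqrt (F.o2 (nR z)) with hq
  set m2 : ℝ := ∑ v, m v ^ 2 with hm2
  set sm : ℝ := Real.sqrt m2 with hsm
  have hq0 : 0 ≤ q := Real.sqrt_nonneg _
  have hsm0 : 0 ≤ sm := Real.sqrt_nonneg _
  have hsmq : sm ≤ q := Real.sqrt_le_sqrt (by linarith)
  have hsm2 : sm ^ 2 = m2 := Real.sq_sqrt hs3
  have hA1 : AA G z.c y z.c m ≤ cV V * (q * sm) := by
    have e1 := (abs_le.1 (AA_le (G := G) z.c y z.c m)).2
    have e2 : Real.sqrt (∑ v, y v ^ 2) ≤ q := Real.sqrt_le_sqrt (by linarith)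
    have e3 : cV V * (Real.sqrt (∑ v, y v ^ 2) * Real.sqrt (∑ v, m v ^ 2)) ≤ cV V * (q * sm) :=
      mul_le_mul_of_nonneg_left (mul_le_mul_of_nonneg_right e2 hsm0) hn0
    linarith
  have hA2 : AA G z.c m z.c m ≤ cV V * (q * sm) := by
    have e1 := (abs_le.1 (AA_self_le (G := G) z.c m)).2
    have e2 : m2 ≤ q * sm := by rw [← hsm2]; nlinarith
    have e3 : cV V * m2 ≤ cV V * (q * sm) := mul_le_mul_of_nonneg_left e2 hn0
    linarith
  have hmass : ∀ v, q * m v ≤ t := by
    intro v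
    by_cases h : p v
    · rw [hm1 v h, hρoff v h.1]
      exact ht v h.1 h.2
    · rw [hm0 v h, mul_zero]
      exact ht0
  have hsm_le : sm ≤ ∑ v, m v := by
    have hmn : ∀ v, 0 ≤ m v := by
      intro v
      by_cases h : p v
      · rw [hm1 v h, hρoff v h.1]; exact Nat.cast_nonneg _
      · rw [hm0 v h]
    apply Real.sqrt_le_iff.2
    refine ⟨Finset.sum_nonneg fun v _ => hmn v, ?_⟩
    rw [hm2]
    exact Finset.sum_sq_le_sq_sum_of_nonneg fun v _ => hmn v
  have hqsm : q * sm ≤ cV V * t := by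
    calc q * sm ≤ q * ∑ v, m v := mul_le_mul_of_nonneg_left hsm_le hq0
      _ = ∑ v, q * m v := by rw [Finset.mul_sum]
      _ ≤ ∑ _v : V, t := Finset.sum_le_sum fun v _ => hmass v
      _ = cV V * t := by simp [cV]
  have hAA : AA G z.c ρ z.c ρ = AA G z.c y z.c y + 2 * AA G z.c y z.c m + AA G z.c m z.c m := by
    rw [hsplit]
    exact s1_AA_add z.c y m
  rw [hAA]
  have h5 : cV V * (q * sm) ≤ cV V * (cV V * t) := mul_le_mul_of_nonneg_left hqsm hn0
  have h6 : E * ∑ v, y v ^ 2 ≤ E * F.o2 (nR z) := by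
    refine mul_le_mul_of_nonneg_left ?_ hE.le
    linarith
  have h7 : 3 * cV V ^ 2 * t = 3 * (cV V * (cV V * t)) := by ring
  rw [h7]
  linarith

/-- the drift of the rest -/
theorem s1_drift (F : Flag G s (0 + 1)) (E : ℝ) (hE : 0 < E) (hFE : F.E 0 = E)
    (hform : ∃ δ1 > 0, ∀ δ : ℝ, 0 < δ → δ ≤ δ1 → ∀ z, F.Reg δ δ z →
      gen G (fun y => F.o2 (nR y)) z ≤
        2 * E * F.o2 (nR z) - 3 / 2 * F.S z.c (nR z) + cV V * tot z) :
    ∃ C1 > 0, ∃ δ2 > 0, ∀ z, F.Reg δ2 δ2 z →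
      gen G (fun y => F.o2 (nR y) / F.a 0 (nR y) ^ 2 + C1 * (1 / F.a 0 (nR y))) z ≤ 0 ∧
      ∀ w, 1 ≤ z.n w → F.Match (step G z w) ∧ 0 < F.a 0 (nR (step G z w)) := by
  obtain ⟨δ1, hδ1, hform⟩ := hform
  obtain ⟨δa, hδa, c, hc, C6, hC6, hfacts⟩ := F.reg_facts1
  obtain ⟨δb, hδb, Cb, hCb, hstep⟩ := F.reg_step
  obtain ⟨δc, hδc, hlarge⟩ := F.reg_large
  have hn0 : 0 ≤ cV V := Nat.cast_nonneg _
  set n0 := cV V with hn0def
  set K1 : ℝ := 3 * n0 + n0 ^ 3 with hK1
  set K2 : ℝ := n0 + 5 * n0 ^ 2 + 6 * n0 * K1 with hK2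
  have hK1p : 0 ≤ K1 := by positivity
  have hK2p : 0 ≤ K2 := by positivity
  set C1 : ℝ := 2 * K2 * C6 / E + 1 with hC1
  have hC1p : 0 < C1 := by positivity
  set A0 : ℝ := 1 + 6 * n0 + C1 + 4 * n0 ^ 2 * C6 / E with hA0
  have hA0p : 1 ≤ A0 := by
    have : 0 ≤ 4 * n0 ^ 2 * C6 / E := by positivity
    linarith
  obtain ⟨δ2, hδ2, e1, e2, e3, e4, e5, e6⟩ : ∃ δ2 : ℝ, 0 < δ2 ∧ δ2 ≤ δ1 ∧ δ2 ≤ δa ∧ δ2 ≤ δb ∧
      δ2 ≤ δc ∧ δ2 ≤ 1 / 2 ∧ δ2 ≤ 1 / A0 := by
    refine ⟨min δ1 (min δa (min δb (min δc (min (1 / 2) (1 / A0))))), by positivity,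
      min_le_left _ _, (min_le_right _ _).trans (min_le_left _ _),
      (min_le_right _ _).trans ((min_le_right _ _).trans (min_le_left _ _)),
      (min_le_right _ _).trans ((min_le_right _ _).trans ((min_le_right _ _).trans
        (min_le_left _ _))),
      (min_le_right _ _).trans ((min_le_right _ _).trans ((min_le_right _ _).trans
        ((min_le_right _ _).trans (min_le_left _ _)))),
      (min_le_right _ _).trans ((min_le_right _ _).trans ((min_le_right _ _).trans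
        ((min_le_right _ _).trans (min_le_right _ _))))⟩
  refine ⟨C1, hC1p, δ2, hδ2, ?_⟩
  intro z hreg
  obtain ⟨hF, hF1⟩ := hfacts δ2 δ2 hδ2.le e2 hδ2.le e2 z hreg
  have hL := (hlarge δ2 δ2 hδ2 le_rfl e4 z hreg).1 0
  have hm : F.Match z := hreg.2.1
  refine ⟨?_, ?_⟩
  · set a := F.a 0 (nR z) with ha
    set q := F.o2 (nR z) with hq
    set S := F.S z.c (nR z) with hS
    set T := tot z with hT
    set ell := F.ell z.c (nR z) 0 with hell
    have hap : 0 < a := hreg.2.2.1 0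
    have haA : A0 ≤ a := by
      have h1 : A0 ≤ 1 / δ2 ^ 2 := by
        rw [le_div_iff₀ (by positivity)]
        rw [le_div_iff₀ (by linarith)] at e6
        have h2 : δ2 * (δ2 * A0) ≤ 1 / 2 * 1 := mul_le_mul e5 e6 (by positivity) (by norm_num)
        nlinarith
      exact h1.trans hL
    have h4n : 0 ≤ 4 * n0 ^ 2 * C6 / E := by positivity
    have ha1 : 1 ≤ a := by linarith
    have han : n0 ≤ a := by linarith
    have ha6 : 6 * n0 ≤ a := by linarith
    have haC : C1 ≤ a := by linarith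
    have haE : 4 * n0 ^ 2 * C6 / E ≤ a := by linarith
    have hq0 : 0 ≤ q := F.o2_nonneg _
    have hqa : q ≤ a ^ 2 / 4 := by
      have h1 := hreg.2.2.2.2.1 0
      have h2 : δ2 ^ 2 ≤ 1 / 4 := by nlinarith
      have h3 : δ2 ^ 2 * a ^ 2 ≤ 1 / 4 * a ^ 2 := mul_le_mul_of_nonneg_right h2 (sq_nonneg _)
      linarith
    have hsq : Real.sqrt q ≤ a := by
      rw [Real.sqrt_le_iff]
      refine ⟨hap.le, ?_⟩
      have := sq_nonneg a
      linarith
    have hSnn : 0 ≤ S := hF.S_nonneg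
    have hTa : T ≤ C6 * a := hF1.tot_le
    have hT0 : 0 ≤ T := tot_nonneg z
    have hSell : a * ell = - S := by
      have : S = - ∑ j : Fin (0 + 1), F.a j (nR z) * F.ell z.c (nR z) j := rfl
      rw [this, Fin.sum_univ_one]
      ring
    -- one step
    have hn : ∀ w, (0 : ℝ) ≤ (z.n w : ℝ) := fun w => Nat.cast_nonneg _
    have hda : ∀ w, |F.a 0 (nR (step G z w)) - a| ≤ n0 := fun w => F.a_step_abs z hm w 0
    have hdY : ∀ w, |F.a 0 (nR (step G z w)) ^ 2 - a ^ 2| ≤ 3 * n0 * a := by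
      intro w
      have h1 := hda w
      have h2 : F.a 0 (nR (step G z w)) ^ 2 - a ^ 2 =
          (F.a 0 (nR (step G z w)) - a) * (F.a 0 (nR (step G z w)) - a + 2 * a) := by ring
      rw [h2, abs_mul]
      have h3 : |F.a 0 (nR (step G z w)) - a + 2 * a| ≤ 3 * a := by
        refine (abs_add_le _ _).trans ?_
        rw [abs_of_pos (show 0 < 2 * a by positivity)]
        linarith
      calc _ ≤ n0 * (3 * a) := mul_le_mul h1 h3 (abs_nonneg _) hn0
        _ = _ := by ring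
    have hdX : ∀ w, |F.o2 (nR (step G z w)) - q| ≤ K1 * a := by
      intro w
      refine (F.o2_step_abs z hm w).trans ?_
      rw [← hn0def, ← hq]
      have h1 : 2 * n0 * Real.sqrt q ≤ 2 * n0 * a := mul_le_mul_of_nonneg_left hsq (by positivity)
      have h2 : (n0 + n0 ^ 3) * 1 ≤ (n0 + n0 ^ 3) * a :=
        mul_le_mul_of_nonneg_left ha1 (by positivity)
      rw [hK1]
      linarith
    have hgena : ∑ w, (z.n w : ℝ) * (F.a 0 (nR (step G z w)) - a) = E * a + ell := by
      have := F.gen_a z hm 0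
      rw [hFE] at this
      exact this
    have hsqsum : ∑ w, (z.n w : ℝ) * (F.a 0 (nR (step G z w)) - a) ^ 2 ≤ n0 ^ 2 * T := by
      have h1 : n0 ^ 2 * T = ∑ w, (z.n w : ℝ) * n0 ^ 2 := by
        rw [← sum_mul]
        simp only [hT, tot]
        ring
      rw [h1]
      refine sum_le_sum fun w _ => mul_le_mul_of_nonneg_left ?_ (hn w)
      rw [← sq_abs]
      exact pow_le_pow_left₀ (abs_nonneg _) (hda w) 2
    have hsqsum0 : 0 ≤ ∑ w, (z.n w : ℝ) * (F.a 0 (nR (step G z w)) - a) ^ 2 :=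
      sum_nonneg fun w _ => mul_nonneg (hn w) (sq_nonneg _)
    -- 1/a
    have hA : gen G (fun y => 1 / F.a 0 (nR y)) z ≤
        -(E / a) + S / a ^ 3 + 2 * n0 ^ 2 * C6 / a ^ 2 := by
      have h1 := quot_calc (fun w => (z.n w : ℝ)) (fun _ => (1 : ℝ))
        (fun w => F.a 0 (nR (step G z w))) 1 a hn hap (fun w _ => by
          refine (hda w).trans ?_
          linarith)
      have h2 : gen G (fun y => 1 / F.a 0 (nR y)) z =
          ∑ w, (z.n w : ℝ) * (1 / F.a 0 (nR (step G z w)) - 1 / a) := rfl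
      rw [h2]
      refine h1.trans ?_
      simp only [sub_self, mul_zero, sum_const_zero, zero_div, abs_one, mul_one, one_mul, abs_zero,
        zero_mul, add_zero, zero_sub]
      rw [hgena]
      have h3 : 2 * (∑ w, (z.n w : ℝ) * (F.a 0 (nR (step G z w)) - a) ^ 2) / a ^ 3 ≤
          2 * n0 ^ 2 * C6 / a ^ 2 := by
        rw [div_le_div_iff₀ (by positivity) (by positivity)]
        have h4 : n0 ^ 2 * T ≤ n0 ^ 2 * (C6 * a) := mul_le_mul_of_nonneg_left hTa (by positivity)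
        calc _ ≤ 2 * (n0 ^ 2 * (C6 * a)) * a ^ 2 := by
              refine mul_le_mul_of_nonneg_right ?_ (by positivity)
              linarith
          _ = _ := by ring
      have h5 : -((E * a + ell) / a ^ 2) = -(E / a) + S / a ^ 3 := by
        have : S = -(a * ell) := by linarith
        rw [this]
        field_simp
        ring
      linarith
    -- o2/a^2
    have hB : gen G (fun y => F.o2 (nR y) / F.a 0 (nR y) ^ 2) z ≤ -(S / a ^ 2) + K2 * C6 / a := by
      have h1 := quot_calc (fun w => (z.n w : ℝ)) (fun w => F.o2 (nR (step G z w)))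
        (fun w => F.a 0 (nR (step G z w)) ^ 2) q (a ^ 2) hn (by positivity) (fun w _ => by
          refine (hdY w).trans ?_
          nlinarith)
      have h2 : gen G (fun y => F.o2 (nR y) / F.a 0 (nR y) ^ 2) z =
          ∑ w, (z.n w : ℝ) * (F.o2 (nR (step G z w)) / F.a 0 (nR (step G z w)) ^ 2 -
            q / a ^ 2) := rfl
      rw [h2]
      refine h1.trans ?_
      have hP1 : ∑ w, (z.n w : ℝ) * (F.o2 (nR (step G z w)) - q) ≤
          2 * E * q - 3 / 2 * S + n0 * T := hform δ2 hδ2 e1 z hreg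
      have hP2 : 2 * E * a ^ 2 - 2 * S ≤
          ∑ w, (z.n w : ℝ) * (F.a 0 (nR (step G z w)) ^ 2 - a ^ 2) := by
        have h3 : ∑ w, (z.n w : ℝ) * (F.a 0 (nR (step G z w)) ^ 2 - a ^ 2) =
            2 * a * ∑ w, (z.n w : ℝ) * (F.a 0 (nR (step G z w)) - a) +
              ∑ w, (z.n w : ℝ) * (F.a 0 (nR (step G z w)) - a) ^ 2 := by
          rw [mul_sum, ← sum_add_distrib]
          refine sum_congr rfl fun w _ => ?_
          ring
        rw [h3, hgena]
        nlinarith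
      have hP3 : ∑ w, (z.n w : ℝ) * (F.a 0 (nR (step G z w)) ^ 2 - a ^ 2) ^ 2 ≤
          9 * n0 ^ 2 * a ^ 2 * T := by
        have h3 : 9 * n0 ^ 2 * a ^ 2 * T = ∑ w, (z.n w : ℝ) * (3 * n0 * a) ^ 2 := by
          rw [← sum_mul]
          simp only [hT, tot]
          ring
        rw [h3]
        refine sum_le_sum fun w _ => mul_le_mul_of_nonneg_left ?_ (hn w)
        rw [← sq_abs]
        exact pow_le_pow_left₀ (abs_nonneg _) (hdY w) 2
      have hP4 : ∑ w, (z.n w : ℝ) * (|F.o2 (nR (step G z w)) - q| *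
          |F.a 0 (nR (step G z w)) ^ 2 - a ^ 2|) ≤ 3 * n0 * K1 * a ^ 2 * T := by
        have h3 : 3 * n0 * K1 * a ^ 2 * T = ∑ w, (z.n w : ℝ) * (K1 * a * (3 * n0 * a)) := by
          rw [← sum_mul]
          simp only [hT, tot]
          ring
        rw [h3]
        refine sum_le_sum fun w _ => mul_le_mul_of_nonneg_left ?_ (hn w)
        exact mul_le_mul (hdX w) (hdY w) (abs_nonneg _) (by positivity)
      have hTa2 : T / a ^ 2 ≤ C6 / a := by
        rw [div_le_div_iff₀ (by positivity) hap]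
        nlinarith
      have g1 : (∑ w, (z.n w : ℝ) * (F.o2 (nR (step G z w)) - q)) / a ^ 2 ≤
          2 * E * (q / a ^ 2) - 3 / 2 * (S / a ^ 2) + n0 * (T / a ^ 2) := by
        have : 2 * E * (q / a ^ 2) - 3 / 2 * (S / a ^ 2) + n0 * (T / a ^ 2) =
            (2 * E * q - 3 / 2 * S + n0 * T) / a ^ 2 := by ring
        rw [this]
        exact div_le_div_of_nonneg_right hP1 (by positivity)
      have hqa' : q / a ^ 2 ≤ 1 / 4 := by
        rw [div_le_iff₀ (by positivity)]
        linarith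
      have hqa0 : 0 ≤ q / a ^ 2 := by positivity
      have hSa0 : 0 ≤ S / a ^ 2 := by positivity
      have hTa0 : 0 ≤ T / a ^ 2 := by positivity
      have g2 : 2 * E * (q / a ^ 2) - 1 / 2 * (S / a ^ 2) ≤
          q * (∑ w, (z.n w : ℝ) * (F.a 0 (nR (step G z w)) ^ 2 - a ^ 2)) / (a ^ 2) ^ 2 := by
        have h3 : q * (2 * E * a ^ 2 - 2 * S) / (a ^ 2) ^ 2 =
            2 * E * (q / a ^ 2) - 2 * (q / a ^ 2) * (S / a ^ 2) := by
          field_simp
        have h4 : q * (2 * E * a ^ 2 - 2 * S) / (a ^ 2) ^ 2 ≤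
            q * (∑ w, (z.n w : ℝ) * (F.a 0 (nR (step G z w)) ^ 2 - a ^ 2)) / (a ^ 2) ^ 2 :=
          div_le_div_of_nonneg_right (mul_le_mul_of_nonneg_left hP2 hq0) (by positivity)
        have h5 : (q / a ^ 2) * (S / a ^ 2) ≤ 1 / 4 * (S / a ^ 2) :=
          mul_le_mul_of_nonneg_right hqa' hSa0
        linarith
      have g3 : 2 * |q| * (∑ w, (z.n w : ℝ) * (F.a 0 (nR (step G z w)) ^ 2 - a ^ 2) ^ 2) /
          (a ^ 2) ^ 3 ≤ 9 / 2 * n0 ^ 2 * (T / a ^ 2) := by
        rw [abs_of_nonneg hq0]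
        have h3 : 2 * q * (9 * n0 ^ 2 * a ^ 2 * T) / (a ^ 2) ^ 3 =
            18 * n0 ^ 2 * (q / a ^ 2) * (T / a ^ 2) := by
          field_simp
          ring
        have h4 : 2 * q * (∑ w, (z.n w : ℝ) * (F.a 0 (nR (step G z w)) ^ 2 - a ^ 2) ^ 2) /
            (a ^ 2) ^ 3 ≤ 2 * q * (9 * n0 ^ 2 * a ^ 2 * T) / (a ^ 2) ^ 3 :=
          div_le_div_of_nonneg_right (mul_le_mul_of_nonneg_left hP3 (by positivity))
            (by positivity)
        have h5 : 18 * n0 ^ 2 * (q / a ^ 2) * (T / a ^ 2) ≤ 18 * n0 ^ 2 * (1 / 4) * (T / a ^ 2) :=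
          mul_le_mul_of_nonneg_right (mul_le_mul_of_nonneg_left hqa' (by positivity)) hTa0
        linarith
      have g4 : 2 * (∑ w, (z.n w : ℝ) * (|F.o2 (nR (step G z w)) - q| *
          |F.a 0 (nR (step G z w)) ^ 2 - a ^ 2|)) / (a ^ 2) ^ 2 ≤ 6 * n0 * K1 * (T / a ^ 2) := by
        have h3 : 2 * (3 * n0 * K1 * a ^ 2 * T) / (a ^ 2) ^ 2 = 6 * n0 * K1 * (T / a ^ 2) := by
          field_simp
          ring
        rw [← h3]
        exact div_le_div_of_nonneg_right (mul_le_mul_of_nonneg_left hP4 (by norm_num))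
          (by positivity)
      have g5 : K2 * (T / a ^ 2) ≤ K2 * (C6 / a) := mul_le_mul_of_nonneg_left hTa2 hK2p
      have g6 : K2 * C6 / a = K2 * (C6 / a) := by ring
      have g7 : K2 * (T / a ^ 2) = n0 * (T / a ^ 2) + 5 * n0 ^ 2 * (T / a ^ 2) +
          6 * n0 * K1 * (T / a ^ 2) := by
        rw [hK2]
        ring
      have g8 : 0 ≤ n0 ^ 2 * (T / a ^ 2) := by positivity
      rw [g6]
      linarith
    rw [gen_add (fun y => F.o2 (nR y) / F.a 0 (nR y) ^ 2) (fun y => C1 * (1 / F.a 0 (nR y))),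
      gen_smul]
    have hA' := mul_le_mul_of_nonneg_left hA hC1p.le
    have k1 : C1 * (S / a ^ 3) ≤ S / a ^ 2 := by
      rw [← mul_div_assoc, div_le_div_iff₀ (by positivity) (by positivity)]
      have : C1 * (S * a ^ 2) ≤ a * (S * a ^ 2) := mul_le_mul_of_nonneg_right haC (by positivity)
      linarith
    have k2 : C1 * (2 * n0 ^ 2 * C6 / a ^ 2) ≤ C1 * (E / (2 * a)) := by
      refine mul_le_mul_of_nonneg_left ?_ hC1p.le
      rw [div_le_div_iff₀ (by positivity) (by positivity)]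
      rw [div_le_iff₀ hE] at haE
      have : 4 * n0 ^ 2 * C6 * a ≤ a * E * a := mul_le_mul_of_nonneg_right haE hap.le
      linarith
    have k3 : K2 * C6 / a ≤ C1 * (E / (2 * a)) := by
      have h1 : K2 * C6 ≤ C1 * (E / 2) := by
        have h0 : C1 * (E / 2) = K2 * C6 + E / 2 := by
          simp only [hC1]
          field_simp
        rw [h0]
        linarith
      have h2 : C1 * (E / (2 * a)) = C1 * (E / 2) / a := by
        field_simp
      rw [h2]
      exact div_le_div_of_nonneg_right h1 hap.le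
    have k4 : C1 * (E / (2 * a)) + C1 * (E / (2 * a)) = C1 * (E / a) := by
      field_simp
      ring
    linarith
  · intro w hw
    have h1 := (hstep δ2 δ2 hδ2 le_rfl e3 z hreg w hw).1
    exact ⟨h1.2.1, h1.2.2.1 0⟩

/-- large vector: the region -/
theorem s1_region (F : Flag G s (0 + 1)) (C1 δ2 : ℝ) (hC1 : 0 < C1) (hδ2 : 0 < δ2) :
    ∃ Kc : ℝ, 0 < Kc ∧ ∀ z : St V s, 1 ≤ tot z → F.Match z → 0 < F.a 0 (nR z) →
      Kc * (F.o2 (nR z) / F.a 0 (nR z) ^ 2 + C1 * (1 / F.a 0 (nR z))) < 1 → F.Reg δ2 δ2 z := by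
  have hn0 : 0 ≤ cV V := Nat.cast_nonneg _
  set n0 := cV V with hn0def
  obtain ⟨Kc, hKc1, hKc2, hKc3⟩ : ∃ Kc : ℝ, 1 ≤ Kc ∧ 1 / δ2 ^ 2 ≤ Kc ∧
      (2 * n0 + 1) / (C1 * δ2 ^ 2) ≤ Kc :=
    ⟨max 1 (max (1 / δ2 ^ 2) ((2 * n0 + 1) / (C1 * δ2 ^ 2))), le_max_left _ _,
      (le_max_left _ _).trans (le_max_right _ _), (le_max_right _ _).trans (le_max_right _ _)⟩
  have hKcp : 0 < Kc := by linarith
  refine ⟨Kc, hKcp, ?_⟩
  intro z hz hm hap hlt
  set a := F.a 0 (nR z) with ha
  set q := F.o2 (nR z) with hq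
  have hq0 : 0 ≤ q := F.o2_nonneg _
  have hqa0 : 0 ≤ q / a ^ 2 := by positivity
  have hCa0 : 0 < C1 * (1 / a) := by positivity
  have h1 : Kc * (q / a ^ 2) < 1 := by
    have := mul_pos hKcp hCa0
    linarith
  have h2 : Kc * (C1 * (1 / a)) < 1 := by
    have := mul_nonneg hKcp.le hqa0
    linarith
  have hqa : Kc * q < a ^ 2 := by
    rw [← mul_div_assoc, div_lt_one (by positivity)] at h1
    exact h1
  have haK : Kc * C1 < a := by
    rw [mul_one_div, ← mul_div_assoc, div_lt_one hap] at h2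
    exact h2
  have hqa1 : q ≤ a ^ 2 := by
    have : 1 * q ≤ Kc * q := mul_le_mul_of_nonneg_right hKc1 hq0
    linarith
  have hqd : q ≤ δ2 ^ 2 * a ^ 2 := by
    rw [div_le_iff₀ (by positivity)] at hKc2
    have : 1 * q ≤ (Kc * δ2 ^ 2) * q := mul_le_mul_of_nonneg_right hKc2 hq0
    have h3 : δ2 ^ 2 * (Kc * q) ≤ δ2 ^ 2 * a ^ 2 := mul_le_mul_of_nonneg_left hqa.le (by positivity)
    linarith
  have hqq : qq z = a ^ 2 + q := by
    have : q = qq z - ∑ j : Fin (0 + 1), F.a j (nR z) ^ 2 := rfl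
    rw [this, Fin.sum_univ_one]
    have : F.a 0 (nR z) = a := rfl
    simp only [this]
    ring
  have ht2 : tot z ^ 2 ≤ 2 * n0 * a ^ 2 := by
    have := tot_sq_le z
    rw [hqq, ← hn0def] at this
    have h3 : n0 * (a ^ 2 + q) ≤ n0 * (2 * a ^ 2) := mul_le_mul_of_nonneg_left (by linarith) hn0
    linarith
  have haδ : 2 * n0 + 1 ≤ δ2 ^ 2 * a := by
    rw [div_le_iff₀ (by positivity)] at hKc3
    have : δ2 ^ 2 * (Kc * C1) ≤ δ2 ^ 2 * a := mul_le_mul_of_nonneg_left haK.le (by positivity)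
    linarith
  have htot : tot z ≤ δ2 ^ 2 * a ^ 2 := by
    have h3 : tot z ^ 2 ≤ (δ2 ^ 2 * a ^ 2) ^ 2 := by
      calc tot z ^ 2 ≤ 2 * n0 * a ^ 2 := ht2
        _ ≤ (2 * n0 + 1) ^ 2 * a ^ 2 := by
            refine mul_le_mul_of_nonneg_right ?_ (by positivity)
            nlinarith
        _ ≤ (δ2 ^ 2 * a) ^ 2 * a ^ 2 := by
            refine mul_le_mul_of_nonneg_right ?_ (by positivity)
            exact pow_le_pow_left₀ (by positivity) haδ 2
        _ = _ := by ring
    exact (abs_le_of_sq_le_sq' h3 (by positivity)).2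
  have hj : ∀ j : Fin (0 + 1), j = 0 := fun j => Subsingleton.elim (α := Fin 1) j 0
  refine ⟨hz, hm, ?_, ?_, ?_, ?_⟩
  · intro j
    rw [hj j]
    exact hap
  · intro i j hij
    rw [hj i, hj j] at hij
    exact absurd hij (lt_irrefl _)
  · intro j
    rw [hj j]
    exact hqd
  · intro j
    rw [hj j]
    exact htot

theorem trap_pos (hG : G.Connected) (U : Finset V) (σ : V → Fin s) (x : V → ℝ) (E : ℝ)
    (hE : 0 < E) (hU : U.Nonempty) (hU' : ∃ v, v ∉ U) (hx : ∀ v ∈ U, 0 < x v)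
    (hx0 : ∀ v, v ∉ U → x v = 0)
    (heig : ∀ v ∈ U, ∑ u, (if G.Adj v u then x u else 0) = E * x v)
    (hsame : ∀ u ∈ U, ∀ v ∈ U, G.Adj u v → σ u = σ v)
    (hstrict : ∀ v, v ∉ U → (∃ u ∈ U, G.Adj v u) → ∀ b : Fin s,
      2 * ∑ u, (if G.Adj v u ∧ σ u = b then x u else 0) < ∑ u, (if G.Adj v u then x u else 0))
    (hspec : ∀ y : V → ℝ, (∀ v, (v ∈ U ∨ ∃ u ∈ U, G.Adj v u) → y v = 0) →
      ∑ u, ∑ v, (if G.Adj u v then y u * y v else 0) ≤ E * ∑ v, y v ^ 2) :
    ∃ z : St V s, 1 ≤ tot z ∧ 0 < hh G z := by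
  classical
  obtain ⟨F, hFI, hFσ, hFe, hFE⟩ := s1_flag (G := G) U σ x E hE hU hx hx0 heig hsame hstrict
  have hn0 : 0 ≤ cV V := Nat.cast_nonneg _
  have hX2 : 0 < ∑ u, x u ^ 2 := by
    obtain ⟨u0, hu0⟩ := hU
    refine sum_pos' (fun i _ => sq_nonneg _) ⟨u0, mem_univ _, ?_⟩
    have := hx u0 hu0
    positivity
  have ht : 0 < Real.sqrt (∑ u, x u ^ 2) := Real.sqrt_pos.2 hX2
  set t := Real.sqrt (∑ u, x u ^ 2) with htdef
  have ht2 : t ^ 2 = ∑ u, x u ^ 2 := Real.sq_sqrt hX2.le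
  -- the drift of o2
  obtain ⟨δa, hδa, c, hc, C6, hC6, hfacts⟩ := F.reg_facts1
  have hform : ∃ δ1 > 0, ∀ δ : ℝ, 0 < δ → δ ≤ δ1 → ∀ z, F.Reg δ δ z →
      gen G (fun y => F.o2 (nR y)) z ≤
        2 * E * F.o2 (nR z) - 3 / 2 * F.S z.c (nR z) + cV V * tot z := by
    refine ⟨min δa (c / (12 * (cV V ^ 2 + 1))), by positivity, ?_⟩
    intro δ hδ hδ' z hreg
    have d1 : δ ≤ δa := hδ'.trans (min_le_left _ _)
    have d2 : δ ≤ c / (12 * (cV V ^ 2 + 1)) := hδ'.trans (min_le_right _ _)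
    obtain ⟨hF, hF1⟩ := hfacts δ δ hδ.le d1 hδ.le d1 z hreg
    have hSnn : 0 ≤ F.S z.c (nR z) := hF.S_nonneg
    have hap : 0 < F.a 0 (nR z) := hreg.2.2.1 0
    have hsq : Real.sqrt (F.o2 (nR z)) ≤ δ * F.a 0 (nR z) := by
      rw [Real.sqrt_le_iff]
      refine ⟨by positivity, ?_⟩
      rw [mul_pow]
      exact hreg.2.2.2.2.1 0
    have h1 := s1_form U σ x E hE hx hx0 heig hspec F hFI z (δ / c * F.S z.c (nR z))
      (by positivity) (by
        intro v hv hadj
        have hneg : Lf G F.σ (z.c v) v (F.e 0) < 0 := by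
          rw [hFσ, hFe]
          exact s1_Lf_neg U σ x t ht hstrict v hv hadj (z.c v)
        have h2 := hF1.S_mass v (by rw [hFI]; exact hv) ⟨0, hneg.ne⟩
        have h3 : (Fin.last 0 : Fin (0 + 1)) = 0 := rfl
        rw [h3] at h2
        have hnv : (0 : ℝ) ≤ z.n v := Nat.cast_nonneg _
        calc Real.sqrt (F.o2 (nR z)) * (z.n v : ℝ) ≤ δ * F.a 0 (nR z) * z.n v :=
              mul_le_mul_of_nonneg_right hsq hnv
          _ = δ / c * (c * F.a 0 (nR z) * z.n v) := by
              field_simp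
          _ ≤ δ / c * F.S z.c (nR z) := mul_le_mul_of_nonneg_left h2 (by positivity))
    have h4 : 3 * cV V ^ 2 * (δ / c * F.S z.c (nR z)) ≤ 1 / 4 * F.S z.c (nR z) := by
      have h5 : 3 * cV V ^ 2 * (δ / c) ≤ 1 / 4 := by
        rw [← mul_div_assoc, div_le_iff₀ hc]
        rw [le_div_iff₀ (by positivity)] at d2
        nlinarith
      have := mul_le_mul_of_nonneg_right h5 hSnn
      linarith
    have h6 := F.gen_o2 z hreg.2.1
    linarith
  obtain ⟨C1, hC1, δ2, hδ2, hdrift⟩ := s1_drift F E hE hFE hform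
  obtain ⟨Kc, hKc, hregion⟩ := s1_region F C1 δ2 hC1 hδ2
  let Θ : St V s → ℝ := fun z =>
    Kc * (F.o2 (nR z) / F.a 0 (nR z) ^ 2 + C1 * (1 / F.a 0 (nR z)))
  let M : St V s → ℝ := fun z => if F.Match z ∧ 0 < F.a 0 (nR z) then min 1 (Θ z) else 1
  have hM1 : ∀ z, M z ≤ 1 := by
    intro z
    simp only [M]
    split_ifs
    · exact min_le_left _ _
    · exact le_rfl
  have hMlt : ∀ z, M z < 1 → F.Match z ∧ 0 < F.a 0 (nR z) ∧ Θ z < 1 ∧ M z = Θ z := by
    intro z hz
    simp only [M] at hz ⊢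
    split_ifs at hz ⊢ with h
    · have h1 : Θ z < 1 := by
        by_contra hcon
        push Not at hcon
        rw [min_eq_left hcon] at hz
        exact lt_irrefl _ hz
      exact ⟨h.1, h.2, h1, min_eq_right h1.le⟩
    · exact absurd hz (lt_irrefl _)
  have hMle : ∀ z, F.Match z → 0 < F.a 0 (nR z) → M z ≤ Θ z := by
    intro z h1 h2
    simp only [M]
    rw [if_pos ⟨h1, h2⟩]
    exact min_le_right _ _
  have hM0 : ∀ z, 0 ≤ M z := by
    intro z
    simp only [M]
    split_ifs with h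
    · have := F.o2_nonneg (nR z)
      have := h.2
      have : 0 ≤ Θ z := by
        simp only [Θ]
        positivity
      exact le_min zero_le_one this
    · exact zero_le_one
  -- 1 - M ≤ gg
  have hgg : ∀ z : St V s, 1 ≤ tot z → 1 - M z ≤ gg z := by
    intro z _
    by_cases hz : M z < 1
    · obtain ⟨hm, -, -, -⟩ := hMlt z hz
      have htwo : TwoCol z := by
        -- an outer neighbour
        obtain ⟨v, hv, u0, hu0, hadj⟩ : ∃ v, v ∉ U ∧ ∃ u ∈ U, G.Adj v u := by
          by_contra hcon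
          push Not at hcon
          obtain ⟨v1, hv1⟩ := hU'
          obtain ⟨u1, hu1⟩ := hU
          have hreach : ∀ {a b : V}, G.Walk a b → a ∈ U → b ∈ U := by
            intro a b p
            induction p with
            | nil => exact id
            | cons h _ ih =>
              intro ha
              refine ih ?_
              by_contra hb
              exact hcon _ hb _ ha h.symm
          obtain ⟨p⟩ := hG.preconnected u1 v1
          exact hv1 (hreach p hu1)
        have hA : 0 < ∑ u, (if G.Adj v u then x u else 0) := by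
          refine sum_pos' (fun u _ => ?_) ⟨u0, mem_univ _, ?_⟩
          · split_ifs
            · by_cases hu : u ∈ U
              · exact (hx u hu).le
              · rw [hx0 u hu]
            · exact le_rfl
          · rw [if_pos hadj]
            exact hx u0 hu0
        obtain ⟨u1, hu1, hne⟩ : ∃ u1 ∈ U, σ u1 ≠ σ u0 := by
          by_contra hcon
          push Not at hcon
          have h1 := hstrict v hv ⟨u0, hu0, hadj⟩ (σ u0)
          have h2 : ∑ u, (if G.Adj v u ∧ σ u = σ u0 then x u else 0) =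
              ∑ u, (if G.Adj v u then x u else 0) := by
            refine sum_congr rfl fun u _ => ?_
            by_cases h : G.Adj v u
            · by_cases hu : u ∈ U
              · simp [h, hcon u hu]
              · simp [h, hx0 u hu]
            · simp [h]
          rw [h2] at h1
          linarith
        have m0 := hm u0 (by rw [hFI]; exact hu0)
        have m1 := hm u1 (by rw [hFI]; exact hu1)
        rw [hFσ] at m0 m1
        exact ⟨u1, u0, m1.2, m0.2, by rw [m1.1, m0.1]; exact hne⟩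
      have : gg z = 1 := if_pos htwo
      rw [this]
      have := hM0 z
      linarith
    · have h1 : 0 ≤ gg z := by
        unfold gg
        split_ifs <;> norm_num
      linarith
  -- gen M ≤ 0
  have hgen : ∀ z : St V s, 1 ≤ tot z → gen G M z ≤ 0 := by
    intro z hz
    by_cases hlt : M z < 1
    · obtain ⟨hm, hap, hΘ, hMΘ⟩ := hMlt z hlt
      obtain ⟨h1, h2⟩ := hdrift z (hregion z hz hm hap hΘ)
      have h3 : gen G M z ≤ gen G Θ z := by
        unfold gen
        refine sum_le_sum fun w _ => ?_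
        rcases Nat.eq_zero_or_pos (z.n w) with h0 | h0
        · rw [h0]
          simp
        · refine mul_le_mul_of_nonneg_left ?_ (Nat.cast_nonneg _)
          obtain ⟨g1, g2⟩ := h2 w h0
          have := hMle _ g1 g2
          rw [hMΘ]
          linarith
      have h4 : gen G Θ z = Kc * gen G (fun y => F.o2 (nR y) / F.a 0 (nR y) ^ 2 +
          C1 * (1 / F.a 0 (nR y))) z :=
        gen_smul Kc (fun y => F.o2 (nR y) / F.a 0 (nR y) ^ 2 + C1 * (1 / F.a 0 (nR y))) z
      rw [h4] at h3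
      exact h3.trans (mul_nonpos_of_nonneg_of_nonpos hKc.le h1)
    · have h1 : M z = 1 := le_antisymm (hM1 z) (not_lt.1 hlt)
      unfold gen
      refine sum_nonpos fun w _ => ?_
      have := hM1 (step G z w)
      rw [h1]
      exact mul_nonpos_of_nonneg_of_nonpos (Nat.cast_nonneg _) (by linarith)
  -- the start
  obtain ⟨N, hN1, hN2⟩ : ∃ N : ℝ, 1 ≤ N ∧ Kc * (cV V + C1) + 1 ≤ N * t := by
    refine ⟨max 1 ((Kc * (cV V + C1) + 1) / t), le_max_left _ _, ?_⟩
    have := le_max_right 1 ((Kc * (cV V + C1) + 1) / t)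
    calc Kc * (cV V + C1) + 1 = (Kc * (cV V + C1) + 1) / t * t := by field_simp
      _ ≤ _ := mul_le_mul_of_nonneg_right this ht.le
  let z : St V s := ⟨fun v => ⌈N * x v⌉₊, σ⟩
  have hxnn : ∀ v, 0 ≤ x v := by
    intro v
    by_cases hv : v ∈ U
    · exact (hx v hv).le
    · rw [hx0 v hv]
  have hzn1 : ∀ v, N * x v ≤ (z.n v : ℝ) := fun v => Nat.le_ceil _
  have hzn2 : ∀ v, (z.n v : ℝ) < N * x v + 1 := fun v =>
    Nat.ceil_lt_add_one (mul_nonneg (by linarith) (hxnn v))
  have hzn3 : ∀ v, v ∈ U → 1 ≤ z.n v := by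
    intro v hv
    have h1 : 0 < N * x v := mul_pos (by linarith) (hx v hv)
    exact Nat.one_le_iff_ne_zero.2 (Nat.ceil_pos.2 h1).ne'
  have hm : F.Match z := by
    intro v hv
    rw [hFI] at hv
    refine ⟨?_, hzn3 v hv⟩
    rw [hFσ]
  have htot : 1 ≤ tot z := by
    obtain ⟨u0, hu0⟩ := hU
    have h1 : (z.n u0 : ℝ) ≤ tot z :=
      single_le_sum (f := fun v => (z.n v : ℝ)) (fun i _ => Nat.cast_nonneg _) (mem_univ u0)
    have h2 : (1 : ℝ) ≤ z.n u0 := by exact_mod_cast hzn3 u0 hu0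
    linarith
  have haz : N * t ≤ F.a 0 (nR z) := by
    have h1 : N * t = ∑ v, (N * x v) * (x v / t) := by
      have : ∀ v, (N * x v) * (x v / t) = N / t * x v ^ 2 := fun v => by ring
      simp only [this]
      rw [← mul_sum, ← ht2]
      field_simp
    rw [h1]
    unfold Flag.a
    rw [hFe]
    refine sum_le_sum fun v _ => ?_
    exact mul_le_mul_of_nonneg_right (hzn1 v) (div_nonneg (hxnn v) ht.le)
  have hap : 0 < F.a 0 (nR z) := lt_of_lt_of_le (by positivity) haz
  have ho2 : F.o2 (nR z) ≤ cV V := by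
    have h1 := F.sqrt_o2_sub_le σ σ (nR z) (fun v => N * x v)
      (fun v _ => by rw [hFσ]) (fun v _ => by rw [hFσ])
    have h2 : F.o2 (fun v => N * x v) = 0 := by
      have h3 : F.a 0 (fun v => N * x v) = N * t := by
        unfold Flag.a
        rw [hFe]
        have : ∀ v, (N * x v) * (x v / t) = N / t * x v ^ 2 := fun v => by ring
        simp only [this]
        rw [← mul_sum, ← ht2]
        field_simp
      have h4 : F.o2 (fun v => N * x v) =
          ∑ v, (N * x v) ^ 2 - ∑ j : Fin (0 + 1), F.a j (fun v => N * x v) ^ 2 := rfl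
      rw [h4, Fin.sum_univ_one]
      have h5 : F.a (0 : Fin (0 + 1)) (fun v => N * x v) = N * t := h3
      have h6 : ∑ v, (N * x v) ^ 2 = N ^ 2 * t ^ 2 := by
        rw [ht2, mul_sum]
        exact sum_congr rfl fun v _ => by ring
      rw [h6]
      erw [h5]
      ring
    have h7 : dsq σ (nR z) σ (fun v => N * x v) ≤ cV V := by
      have h8 : cV V = ∑ _v : V, (1 : ℝ) := by simp [cV]
      rw [h8]
      unfold dsq
      refine sum_le_sum fun v _ => ?_
      have g1 := hzn1 v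
      have g2 := hzn2 v
      have g3 : eps (σ v) (σ v) = 1 := if_pos rfl
      rw [g3]
      have g4 : nR z v = (z.n v : ℝ) := rfl
      rw [g4]
      nlinarith
    rw [h2, Real.sqrt_zero] at h1
    have h1' : Real.sqrt (F.o2 (nR z)) ≤ Real.sqrt (dsq σ (nR z) σ (fun v => N * x v)) := by
      linarith
    have h9 := (Real.sqrt_le_sqrt_iff (dsq_nonneg _ _ _ _)).1 h1'
    exact h9.trans h7
  have hΘ : Θ z < 1 := by
    simp only [Θ]
    set a := F.a 0 (nR z) with ha
    have ha1 : Kc * (cV V + C1) + 1 ≤ a := hN2.trans haz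
    have h1 : F.o2 (nR z) / a ^ 2 ≤ cV V / a := by
      rw [div_le_div_iff₀ (by positivity) hap]
      have e1 : F.o2 (nR z) * a ≤ cV V * a := mul_le_mul_of_nonneg_right ho2 hap.le
      have e2 : 1 ≤ a := by
        have : 0 ≤ Kc * (cV V + C1) := by positivity
        linarith
      have e3 : cV V * a * 1 ≤ cV V * a * a := mul_le_mul_of_nonneg_left e2 (by positivity)
      linarith
    have h2 : Kc * (F.o2 (nR z) / a ^ 2 + C1 * (1 / a)) ≤ Kc * ((cV V + C1) / a) := by
      refine mul_le_mul_of_nonneg_left ?_ hKc.le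
      rw [add_div, mul_one_div]
      linarith
    refine lt_of_le_of_lt h2 ?_
    rw [← mul_div_assoc, div_lt_one hap]
    linarith
  refine ⟨z, htot, ?_⟩
  have h1 := hh_lower M hgg hgen z htot
  have h2 := hMle z hm hap
  linarith

end UC
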