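import Pool.Agent.helper25.UC.I1
import Pool.Agent.helper25.UC.K7
import Pool.Agent.helper25.UC.H2
import Pool.Agent.helper25.UC.H6
import Pool.Agent.helper25.UC.S1
import Pool.Agent.helper25.UC.Q1

/-!
# Assembly
-/

namespace UC
open Finset
variable {V : Type} [Fintype V] [DecidableEq V] {s k : ℕ}
variable {G : SimpleGraph V} [DecidableRel G.Adj]

/-- coexistence forces the trap structure -/
theorem trap_of_not_inG (hG : G.Connected) (h : ¬ InG G s) :
    ∃ (E : ℝ) (σ : V → Fin s) (e x : V → ℝ), TrapStr G E σ e x := by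
  have hz : ∃ z : St V s, 1 ≤ tot z ∧ 0 < hh G z := by
    by_contra hc
    push Not at hc
    exact h (inG_of_zero fun z hz => le_antisymm (hc z hz) (hh_nonneg z))
  obtain ⟨z0, h0, hp⟩ := hz
  have hf := badF_of_pos hG z0 h0 hp
  have hτ : 0 < tau0 V := by
    unfold tau0
    have : (0 : ℝ) ≤ cV V := Nat.cast_nonneg _
    positivity
  obtain ⟨k, F, -, hI, hT⟩ := exists_terminal hf (tau0 V) hτ le_rfl
  have hN : NoKick F (tau0 V) := fun E' h1 h2 c y r0 hA hb hr =>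
    no_kick hf F (tau0 V) hτ le_rfl hI hT E' h1 h2 c y r0 hA hb hr
  obtain ⟨E, e, x, hS⟩ := trap_str hG hf F (tau0 V) hτ hT hN
  exact ⟨E, F.σ, e, x, hS⟩

/-- claw-free graphs have no coexistence -/
theorem inG_of_clawFree (hG : G.Connected) (hc : ClawFree G) (s : ℕ) : InG G s := by
  by_contra h
  obtain ⟨E, σ, e, x, hS⟩ := trap_of_not_inG hG h
  exact not_clawFree hG E σ e x hS hc

/-- sufficient condition for coexistence -/
theorem not_inG_of_trap (hG : G.Connected) (U : Finset V) (σ : V → Fin s) (x : V → ℝ) (E : ℝ)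
    (hE : 0 < E) (hU : U.Nonempty) (hU' : ∃ v, v ∉ U) (hx : ∀ v ∈ U, 0 < x v)
    (hx0 : ∀ v, v ∉ U → x v = 0)
    (heig : ∀ v ∈ U, ∑ u, (if G.Adj v u then x u else 0) = E * x v)
    (hsame : ∀ u ∈ U, ∀ v ∈ U, G.Adj u v → σ u = σ v)
    (hstrict : ∀ v, v ∉ U → (∃ u ∈ U, G.Adj v u) → ∀ b : Fin s,
      2 * ∑ u, (if G.Adj v u ∧ σ u = b then x u else 0) < ∑ u, (if G.Adj v u then x u else 0))
    (hspec : ∀ y : V → ℝ, (∀ v, (v ∈ U ∨ ∃ u ∈ U, G.Adj v u) → y v = 0) →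
      ∑ u, ∑ v, (if G.Adj u v then y u * y v else 0) ≤ E * ∑ v, y v ^ 2) :
    ¬ InG G s := by
  obtain ⟨z, h1, h2⟩ := trap_pos hG U σ x E hE hU hU' hx hx0 heig hsame hstrict hspec
  exact not_inG_of_pos z h1 h2

end UC
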