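import Pool.Agent.helper25.UC.M1

/-!
# M2 : `Ext(E')` fails for `E' > E_last`

Suppose `Ext F τ f E'` with `E_l < E' ≤ n0+2` (`n0 = card V`, `l = last`).  Since `E_l ≤ n0`
(`E_le`) we may pick `E1` with `E_l < E1 < E'`, `E1 ≤ n0 + 1` (e.g. `E1 = (E_l + min E' (n0+1))/2`).
`main_lower` for `E1`: `δ, K, fM`.  Use `Ext` with `min δ (δ0 of env_bounds)`, `ε = fM` and
`K' = 4K/(E'-E1)`: `z` with `f z < fM`, `K' tot ≤ o2`, `env^{E'} z ≥ 0`.  `env_bounds` (gap):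
`env^{E1} z ≥ env^{E'} z + (E'-E1) o2/4 ≥ (E'-E1) K' tot/4 = K tot`.  So `f z ≥ fM`.
Contradiction.

`ext_mono`: `Ext(E)` and `E1 ≤ E` give `Ext(E1)` (`env_mono`).
`not_ext_zero`: `k = 0`, `E ≥ n0+1`: `env < 0` by `env_zero_neg`.
-/

namespace UC
open Finset
variable {V : Type} [Fintype V] [DecidableEq V] {s k : ℕ}
variable {G : SimpleGraph V} [DecidableRel G.Adj]

theorem not_ext {f : St V s → ℝ} (hf : BadF G f) (F : Flag G s (k + 1)) (τ : ℝ)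
    (hτ : 0 < τ) (hτ0 : τ ≤ tau0 V) (hI : Inv F τ f) (E' : ℝ) (hE : F.E (Fin.last k) < E')
    (hE' : E' ≤ cV V + 2) : ¬ Ext F τ f E' := by
  intro hx
  have hEl := F.E_le (Fin.last k)
  have hEl0 := F.nonneg (Fin.last k)
  have hm : F.E (Fin.last k) < min E' (cV V + 1) := lt_min hE (by linarith)
  have hm1 : min E' (cV V + 1) ≤ E' := min_le_left _ _
  have hm2 : min E' (cV V + 1) ≤ cV V + 1 := min_le_right _ _
  obtain ⟨E1, hE1⟩ : ∃ E1, E1 = (F.E (Fin.last k) + min E' (cV V + 1)) / 2 := ⟨_, rfl⟩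
  have h1 : F.E (Fin.last k) < E1 := by rw [hE1]; linarith
  have h2 : E1 < E' := by rw [hE1]; linarith
  have h3 : E1 ≤ cV V + 1 := by rw [hE1]; linarith
  obtain ⟨δ, hδ, K, hK, fM, hfM, hmain⟩ := main_lower hf F τ hτ hτ0 hI E1 h1 h3
  obtain ⟨δ0, hδ0, hb⟩ := F.env_bounds τ hτ hτ0
  have hd : 0 < E' - E1 := by linarith
  have hδ' : 0 < min δ δ0 := lt_min hδ hδ0
  obtain ⟨z, hz1, hz2, hz3, hz4⟩ := hx (min δ δ0) hδ' fM hfM (4 * K / (E' - E1)) (by positivity)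
  obtain ⟨-, -, hgap⟩ := hb (min δ δ0) (min δ δ0) hδ'.le (min_le_right _ _) hδ'.le
    (min_le_right _ _) z hz1
  have h4 := hgap E' E1 (by rw [abs_le]; constructor <;> linarith)
    (by rw [abs_le]; constructor <;> linarith) h2.le hz4
  have h5 : K * tot z ≤ (E' - E1) * F.o2 (nR z) / 4 := by
    have h6 : (E' - E1) * (4 * K / (E' - E1) * tot z) ≤ (E' - E1) * F.o2 (nR z) :=
      mul_le_mul_of_nonneg_left hz3 hd.le
    have h7 : (E' - E1) * (4 * K / (E' - E1) * tot z) = 4 * (K * tot z) := by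
      field_simp
    linarith
  have h8 := hmain z (F.Reg_mono hδ'.le hδ'.le (min_le_left _ _) (min_le_left _ _) z hz1)
    (by linarith)
  linarith

theorem ext_mono {f : St V s → ℝ} (F : Flag G s k) (τ : ℝ)
    (hτ : 0 < τ) (hτ0 : τ ≤ tau0 V) (E E1 : ℝ) (hE1 : -1 ≤ E1) (hE : E ≤ cV V + 2)
    (h : E1 ≤ E) (hx : Ext F τ f E) : Ext F τ f E1 := by
  intro δ hδ ε hε K hK
  obtain ⟨z, hz1, hz2, hz3, hz4⟩ := hx δ hδ ε hε K hK
  refine ⟨z, hz1, hz2, hz3, hz4.trans ?_⟩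
  have hc : (0 : ℝ) ≤ cV V := Nat.cast_nonneg _
  exact F.env_mono E1 E τ (by rw [abs_le]; constructor <;> linarith)
    (by rw [abs_le]; constructor <;> linarith) h hτ hτ0 z

theorem not_ext_zero {f : St V s → ℝ} (F : Flag G s 0) (τ : ℝ)
    (hτ : 0 < τ) (hτ0 : τ ≤ tau0 V) (E : ℝ) (hE : cV V + 1 ≤ E) (hE' : E ≤ cV V + 2) :
    ¬ Ext F τ f E := by
  intro hx
  obtain ⟨z, hz1, -, -, hz4⟩ := hx 1 one_pos 1 one_pos 1 one_pos
  have hc : (0 : ℝ) ≤ cV V := Nat.cast_nonneg _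
  have h := F.env_zero_neg E τ (by rw [abs_le]; constructor <;> linarith) hE hτ hτ0 z hz1.1
  linarith

end UC
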