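import Pool.Agent.helper25.UC.N1

/-!
# N0 : the same for the empty flag (`k = 0`)

`I = ∅`, `S = 0`, `o2 = qq`, `Reg δ δ z` means `1 ≤ tot z`.  Same notation and constants as in N1
(`b0, ē, E2 = Es - 2ē, δe, εe, Ke, M = 32/ē`, `C3 = 16(n0+1)`, `f₁ = min ε εe`).
`R := {z : 1 ≤ tot, f z < f₁, Q0 < qq, qq ≤ M T}`, `T = env^{E2}`.
On `R`: `tot² ≤ n0 qq`, so `T ≥ qq/M ≥ K̂ tot` if `Q0 ≥ n0 K̂² M²`; also `tot ≤ qq·√(n0/Q0)`, so
`K tot, Ke tot ≤ qq`.  `gen V ≤ -b0 V` exactly as in N1 (`V_drift`, `off_drift`).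
`H := V/M`, `U := V`.  Exits: `T(z') > 0` by `env_half`; `f z' ≥ f₁`, or `qq z' ≤ Q0` and then
`f z' ≥ c(Q0)` (`BadF.pos`), or `qq > M T`, `H > 1`.  `f₀ := min f₁ c(Q0)`.
Start: as in N1 (`K'' ≥ Q0 + 1` gives `qq ≥ K'' tot > Q0`), `ε'' = f₀/8`.
-/

namespace UC
open Finset
variable {V : Type} [Fintype V] [DecidableEq V] {s k : ℕ}
variable {G : SimpleGraph V} [DecidableRel G.Adj]

theorem N0_reg (F : Flag G s 0) (δ δ' : ℝ) (z : St V s) (h : 1 ≤ tot z) : F.Reg δ δ' z := by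
  refine ⟨h, ?_, fun j => j.elim0, fun i => i.elim0, fun j => j.elim0, fun j => j.elim0⟩
  intro v hv
  obtain ⟨j, -⟩ := F.cover v hv
  exact j.elim0

theorem N0_S (F : Flag G s 0) (c : V → Fin s) (r : V → ℝ) : F.S c r = 0 := by
  simp [Flag.S]

theorem N0_o2 (F : Flag G s 0) (z : St V s) : F.o2 (nR z) = qq z := by
  simp [Flag.o2, qq, nR]

theorem N0_tot_sq (z : St V s) : tot z ^ 2 ≤ cV V * qq z := by
  unfold tot qq cV
  have := sq_sum_le_card_mul_sum_sq (s := (univ : Finset V)) (f := fun v => (z.n v : ℝ))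
  simpa using this

theorem N0_big {M Kh Q0 : ℝ} (hM : 0 ≤ M) (hKh : 0 ≤ Kh) (hQ : cV V * (M * Kh) ^ 2 ≤ Q0)
    (z : St V s) (hz : 1 ≤ tot z) (hq : Q0 < qq z) : M * Kh * tot z ≤ qq z := by
  have hcv : 0 ≤ cV V := by
    unfold cV
    positivity
  have hQ0 : 0 ≤ Q0 := le_trans (by positivity) hQ
  have hqq : 0 < qq z := by linarith
  have h1 : (M * Kh * tot z) ^ 2 ≤ qq z ^ 2 := by
    have h2 : (M * Kh * tot z) ^ 2 = (M * Kh) ^ 2 * tot z ^ 2 := by ring
    rw [h2]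
    calc (M * Kh) ^ 2 * tot z ^ 2 ≤ (M * Kh) ^ 2 * (cV V * qq z) :=
          mul_le_mul_of_nonneg_left (N0_tot_sq z) (by positivity)
      _ = (cV V * (M * Kh) ^ 2) * qq z := by ring
      _ ≤ qq z * qq z := mul_le_mul_of_nonneg_right (by linarith) hqq.le
      _ = qq z ^ 2 := by ring
  exact abs_le_of_sq_le_sq' h1 hqq.le |>.2

theorem near_crit_zero {f : St V s → ℝ} (hf : BadF G f) (F : Flag G s 0) (τ : ℝ)
    (hτ : 0 < τ) (hτ0 : τ ≤ tau0 V) (Es : ℝ) (h0 : 0 ≤ Es) (h1 : Es ≤ cV V + 1)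
    (hx : ∀ E, -1 ≤ E → E < Es → Ext F τ f E)
    (hn : ∀ E, Es < E → E ≤ cV V + 2 → ¬ Ext F τ f E) : NearCrit F τ f Es := by
  intro δ hδ ε hε K hK η hη
  by_contra hcon
  push Not at hcon
  have hcv : 0 ≤ cV V := by
    unfold cV
    positivity
  set C3 : ℝ := 16 * (cV V + 1) with hC3
  have hC3p : 0 < C3 := by positivity
  set b0 : ℝ := η / (8 * τ ^ 2 * C3) with hb0
  have hb0p : 0 < b0 := by positivity
  obtain ⟨eb, heb, heb1, heb2, heb3⟩ : ∃ eb : ℝ, 0 < eb ∧ 2 * eb ≤ η ∧ 2 * eb ≤ 1 ∧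
      12 * eb ≤ b0 := by
    refine ⟨min (η / 2) (min (1 / 2) (b0 / 12)), by positivity, ?_, ?_, ?_⟩
    · have := min_le_left (η / 2) (min (1 / 2) (b0 / 12))
      linarith
    · have := (min_le_right (η / 2) (min (1 / 2) (b0 / 12))).trans (min_le_left _ _)
      linarith
    · have := (min_le_right (η / 2) (min (1 / 2) (b0 / 12))).trans (min_le_right _ _)
      linarith
  have hne := hn (Es + eb) (by linarith) (by linarith)
  unfold Ext at hne
  push Not at hne
  obtain ⟨δe, hδe, εe, hεe, Ke, hKe, hne⟩ := hne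
  obtain ⟨δa, hδa, K0a, hK0a, Ca, hCa, hV⟩ := F.V_drift τ hτ hτ0
  obtain ⟨δb, hδb, Cb, hCb, hoff⟩ := F.off_drift τ hτ hτ0
  obtain ⟨δc, hδc, K0c, hK0c, hhalf⟩ := F.env_half τ hτ hτ0
  obtain ⟨δd, hδd, hbd⟩ := F.env_bounds τ hτ hτ0
  obtain ⟨δf, hδf, Cf, hCf, hstep⟩ := F.reg_step
  obtain ⟨δ1, hδ1, hδ1a, hδ1b, hδ1c, hδ1d, hδ1f⟩ : ∃ δ1 : ℝ, 0 < δ1 ∧ δ1 ≤ δa ∧ δ1 ≤ δb ∧
      δ1 ≤ δc ∧ δ1 ≤ δd ∧ δ1 ≤ δf := by
    refine ⟨min δa (min δb (min δc (min δd δf))), by positivity, min_le_left _ _,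
      (min_le_right _ _).trans (min_le_left _ _),
      (min_le_right _ _).trans ((min_le_right _ _).trans (min_le_left _ _)),
      (min_le_right _ _).trans ((min_le_right _ _).trans ((min_le_right _ _).trans
        (min_le_left _ _))),
      (min_le_right _ _).trans ((min_le_right _ _).trans ((min_le_right _ _).trans
        (min_le_right _ _)))⟩
  set f₁ : ℝ := min ε εe with hf₁
  have hf₁p : 0 < f₁ := lt_min hε hεe
  obtain ⟨Kh, hKh1, hKh2, hKh3, hKh4, hKh5, hKh6⟩ : ∃ Kh : ℝ, 1 ≤ Kh ∧ K0a ≤ Kh ∧ K0c ≤ Kh ∧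
      K ≤ Kh ∧ Ke ≤ Kh ∧ 2 * (Cb * C3 + Ca) / b0 ≤ Kh := by
    refine ⟨max 1 (max K0a (max K0c (max K (max Ke (2 * (Cb * C3 + Ca) / b0))))),
      le_max_left _ _, (le_max_left _ _).trans (le_max_right _ _),
      (le_max_left _ _).trans ((le_max_right _ _).trans (le_max_right _ _)),
      (le_max_left _ _).trans ((le_max_right _ _).trans ((le_max_right _ _).trans
        (le_max_right _ _))),
      (le_max_left _ _).trans ((le_max_right _ _).trans ((le_max_right _ _).trans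
        ((le_max_right _ _).trans (le_max_right _ _)))),
      (le_max_right _ _).trans ((le_max_right _ _).trans ((le_max_right _ _).trans
        ((le_max_right _ _).trans (le_max_right _ _))))⟩
  have hKhp : 0 < Kh := by linarith
  set M : ℝ := 32 / eb with hM
  have hMp : 0 < M := by positivity
  have hM1 : 1 ≤ M := by
    rw [hM, le_div_iff₀ heb]
    linarith
  set Q0 : ℝ := cV V * (M * Kh) ^ 2 with hQ0
  have hQ0p : 0 ≤ Q0 := by positivity
  obtain ⟨cQ, hcQ, hpos⟩ := hf.pos Q0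
  set f₀ : ℝ := min f₁ cQ with hf₀
  have hf₀p : 0 < f₀ := lt_min hf₁p hcQ
  set E2 : ℝ := Es - 2 * eb with hE2
  have hE2a : |E2| ≤ cV V + 2 := by
    rw [abs_le]
    constructor <;> linarith
  have hE3a : |Es + eb| ≤ cV V + 2 := by
    rw [abs_le]
    constructor <;> linarith
  have hE4a : |Es - eb| ≤ cV V + 2 := by
    rw [abs_le]
    constructor <;> linarith
  set R : Set (St V s) := {z | 1 ≤ tot z ∧ f z < f₁ ∧ Q0 < qq z ∧ qq z ≤ M * F.env E2 τ z} with hR
  -- facts on R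
  have hRf : ∀ z ∈ R, M * Kh * tot z ≤ qq z ∧ Kh * tot z ≤ F.env E2 τ z ∧ 0 < F.env E2 τ z ∧
      F.env E2 τ z ≤ C3 * qq z ∧ 0 < qq z ∧
      gen G (fun y => F.o2 (nR y) / F.env E2 τ y) z ≤ -(b0 * (F.o2 (nR z) / F.env E2 τ z)) := by
    intro z hz
    obtain ⟨z1, z2, z3, z4⟩ := hz
    have hreg := N0_reg F δ1 δ1 z z1
    have hqq : 0 < qq z := by linarith
    have a1 := N0_big hMp.le hKhp.le le_rfl z z1 z3
    have a2 : Kh * tot z ≤ F.env E2 τ z := by
      have : M * (Kh * tot z) ≤ M * F.env E2 τ z := by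
        calc M * (Kh * tot z) = M * Kh * tot z := by ring
          _ ≤ qq z := a1
          _ ≤ _ := z4
      exact le_of_mul_le_mul_left this hMp
    have hTp : 0 < F.env E2 τ z := lt_of_lt_of_le (by positivity) a2
    have a3 := (hbd δ1 δ1 hδ1.le hδ1d hδ1.le hδ1d z hreg).2.1 E2 hE2a
    rw [N0_o2, ← hC3] at a3
    have hKtot : Kh * tot z ≤ qq z := by
      calc Kh * tot z = 1 * (Kh * tot z) := by ring
        _ ≤ M * (Kh * tot z) := mul_le_mul_of_nonneg_right hM1 (by positivity)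
        _ = M * Kh * tot z := by ring
        _ ≤ _ := a1
    refine ⟨a1, a2, hTp, a3, hqq, ?_⟩
    -- drift
    have hb1 := hoff (Es + eb) hE3a δ1 δ1 hδ1.le hδ1b hδ1.le hδ1b z hreg
    have hb2 : F.env (Es + eb) τ z < 0 := by
      refine hne z (N0_reg F _ _ z z1) (lt_of_lt_of_le z2 (min_le_right _ _)) ?_
      rw [N0_o2]
      refine le_trans (mul_le_mul_of_nonneg_right hKh5 (by linarith)) hKtot
    have hb3 : gen G (fun y => F.o2 (nR y)) z ≤ 2 * (Es + eb) * F.o2 (nR z) + Cb * tot z := by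
      rw [N0_S] at hb1
      linarith
    obtain ⟨c, r, hmx⟩ := F.exists_mx E2 τ hE2a hτ hτ0 z
    have hb4 := hV E2 hE2a Kh hKh2 δ1 δ1 hδ1 le_rfl hδ1a z hreg a2 c r hmx _ hb3
    have hb5 : η * F.o2 (nR z) < dsq z.c (nR z) c r := by
      refine hcon E2 (by linarith) (by linarith) (by linarith) z (N0_reg F _ _ z z1)
        (lt_of_lt_of_le z2 (min_le_left _ _)) ?_ c r hmx
      rw [N0_o2]
      refine le_trans (mul_le_mul_of_nonneg_right hKh4 (by linarith)) hKtot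
    rw [N0_o2] at hb4 hb5 ⊢
    set T := F.env E2 τ z with hT
    set v := qq z / T with hv
    have hvp : 0 < v := by positivity
    have hv3 : 1 ≤ C3 * v := by
      rw [hv, mul_div_assoc', le_div_iff₀ hTp]
      linarith
    have e1 : (2 * (Es + eb) * qq z + Cb * tot z) / T = 2 * (Es + eb) * v + Cb * (tot z / T) := by
      rw [hv]
      ring
    have e2 : tot z / T ≤ 1 / Kh := by
      rw [div_le_div_iff₀ hTp hKhp]
      linarith
    have e3 : η * v ^ 2 / (4 * τ ^ 2) ≤ qq z * dsq z.c (nR z) c r / (4 * τ ^ 2 * T ^ 2) := by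
      have : η * v ^ 2 / (4 * τ ^ 2) = qq z * (η * qq z) / (4 * τ ^ 2 * T ^ 2) := by
        rw [hv]
        field_simp
      rw [this]
      gcongr
    have e4 : 2 * b0 * v ≤ η * v ^ 2 / (4 * τ ^ 2) := by
      have : η * v ^ 2 / (4 * τ ^ 2) = 2 * b0 * v * (C3 * v) := by
        rw [hb0]
        field_simp
        ring
      rw [this]
      exact le_mul_of_one_le_right (by positivity) hv3
    have e5 : Cb * (tot z / T) ≤ Cb * C3 / Kh * v := by
      calc Cb * (tot z / T) ≤ Cb * (1 / Kh) := mul_le_mul_of_nonneg_left e2 hCb.le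
        _ = Cb / Kh * 1 := by ring
        _ ≤ Cb / Kh * (C3 * v) := mul_le_mul_of_nonneg_left hv3 (by positivity)
        _ = _ := by ring
    have e6 : (Cb * C3 + Ca) / Kh ≤ b0 / 2 := by
      rw [div_le_iff₀ hKhp]
      rw [div_le_iff₀ hb0p] at hKh6
      linarith
    have e7 : (Cb * C3 + Ca) / Kh * v ≤ b0 / 2 * v := mul_le_mul_of_nonneg_right e6 hvp.le
    have e8 : 12 * eb * v ≤ b0 * v := mul_le_mul_of_nonneg_right heb3 hvp.le
    have e9 : (Cb * C3 + Ca) / Kh * v = Cb * C3 / Kh * v + Ca / Kh * v := by ring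
    rw [e1] at hb4
    have e10 : 2 * E2 * v = 2 * Es * v - 4 * eb * v := by
      rw [hE2]
      ring
    nlinarith [hb4, e3, e4, e5, e7, e8, e9, e10]
  -- exits
  have hexit : ∀ z ∈ R, ∀ w, 1 ≤ z.n w → 1 ≤ tot (step G z w) ∧ 0 < F.env E2 τ (step G z w) := by
    intro z hz w hw
    obtain ⟨b1, b2, b3, b4, b5, -⟩ := hRf z hz
    have hreg := N0_reg F δ1 δ1 z hz.1
    have c1 := (hstep δ1 δ1 hδ1 le_rfl hδ1f z hreg w hw).1.1
    have c2 := (hhalf E2 hE2a Kh hKh3 δ1 δ1 hδ1 le_rfl hδ1c z hreg b2 w hw).2.1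
    exact ⟨c1, by linarith⟩
  have hmin := min_principle (G := G) f (fun y => 1 / M * (F.o2 (nR y) / F.env E2 τ y))
    (fun y => F.o2 (nR y) / F.env E2 τ y) R f₀ (1 / C3) b0 hf.nonneg hf.harm hf₀p.le (by positivity)
    hb0p (fun z hz => hz.1) ?_ ?_ ?_ ?_ (fun z hz => (hRf z hz).2.2.2.2.2) ?_
  · -- the start
    obtain ⟨z, hz1, hz2, hz3, hz4⟩ := hx (Es - eb) (by linarith) (by linarith) δ1 hδ1 (f₀ / 8)
      (by positivity) (Q0 + 1) (by positivity)
    have ht : 1 ≤ tot z := hz1.1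
    have hg := (hbd δ1 δ1 hδ1.le hδ1d hδ1.le hδ1d z hz1).2.2 (Es - eb) E2 hE4a hE2a (by linarith) hz4
    rw [N0_o2] at hz3 hg
    have hq : Q0 < qq z := by
      have : (Q0 + 1) * 1 ≤ (Q0 + 1) * tot z := mul_le_mul_of_nonneg_left ht (by positivity)
      linarith
    have hqp : 0 < qq z := by linarith
    have hT : eb * qq z / 4 ≤ F.env E2 τ z := by
      have : (Es - eb - E2) * qq z / 4 = eb * qq z / 4 := by
        rw [hE2]
        ring
      linarith
    have hTp : 0 < F.env E2 τ z := lt_of_lt_of_le (by positivity) hT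
    have hV8 : 1 / M * (qq z / F.env E2 τ z) ≤ 1 / 8 := by
      rw [hM, one_div, inv_div, div_mul_div_comm, div_le_iff₀ (by positivity)]
      linarith
    have hzR : z ∈ R := by
      refine ⟨ht, ?_, hq, ?_⟩
      · have := min_le_left f₁ cQ
        rw [← hf₀] at this
        linarith
      · rw [hM, div_mul_eq_mul_div, le_div_iff₀ heb]
        linarith
    have hfin := hmin z hzR
    simp only [N0_o2] at hfin
    nlinarith
  · intro z hz
    rw [gen_smul]
    have := (hRf z hz).2.2.2.2.2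
    obtain ⟨-, -, hTp, -, hqp, -⟩ := hRf z hz
    have hvp : 0 < F.o2 (nR z) / F.env E2 τ z := by
      rw [N0_o2]
      positivity
    have h2 : gen G (fun y => F.o2 (nR y) / F.env E2 τ y) z ≤ 0 := by
      have := mul_pos hb0p hvp
      linarith
    exact mul_nonpos_of_nonneg_of_nonpos (by positivity) h2
  · intro z hz
    obtain ⟨-, -, hTp, -, hqp, -⟩ := hRf z hz
    have : 0 < 1 / M * (F.o2 (nR z) / F.env E2 τ z) := by
      rw [N0_o2]
      positivity
    linarith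
  · intro z hz w hw hnot
    obtain ⟨c1, c2⟩ := hexit z hz w hw
    have hq0 : 0 ≤ qq (step G z w) := by
      unfold qq
      positivity
    have hF0 : 0 ≤ 1 / M * (F.o2 (nR (step G z w)) / F.env E2 τ (step G z w)) := by
      rw [N0_o2]
      positivity
    by_cases hfa : f₁ ≤ f (step G z w)
    · left
      exact ⟨(min_le_left _ _).trans hfa, by linarith⟩
    · push Not at hfa
      by_cases hqa : qq (step G z w) ≤ Q0
      · left
        exact ⟨(min_le_right _ _).trans (hpos _ c1 hqa), by linarith⟩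
      · push Not at hqa
        right
        have hqb : M * F.env E2 τ (step G z w) < qq (step G z w) := by
          by_contra hh
          push Not at hh
          exact hnot ⟨c1, hfa, hqa, hh⟩
        rw [N0_o2, div_mul_div_comm, one_mul, one_le_div (by positivity)]
        exact hqb.le
  · intro z hz
    obtain ⟨-, -, hTp, hT3, hqp, -⟩ := hRf z hz
    rw [N0_o2, div_le_div_iff₀ hC3p hTp]
    linarith
  · intro z hz w hw _
    obtain ⟨c1, c2⟩ := hexit z hz w hw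
    have hq0 : 0 ≤ qq (step G z w) := by
      unfold qq
      positivity
    simp only [N0_o2]
    positivity

end UC
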