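import Pool.Agent.helper25.UC.P1
import Pool.Agent.helper25.UC.B7
import Pool.Agent.helper25.UC.C1
import Pool.Agent.helper25.UC.C2
import Pool.Agent.helper25.UC.C3
import Pool.Agent.helper25.UC.C4

/-!
# N1 : at the extremal rate there are bad points which are nearly critical (length `k+1`)

`l = last`, `n0 = card V`, `C3 = 16(n0+1)`.  Suppose the claim is false: there are
`δ, ε, K, η > 0` such that for all `E2 ∈ [Es-η, Es]`, `z ∈ Reg δ δ`, `f z < ε`, `K tot ≤ o2`,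
every maximiser for `E2` has `dsq > η o2`.

*Constants*: `b0 := η/(8τ²C3)`; `ē > 0` with `2ē ≤ η`, `2ē ≤ 1`, `12 ē ≤ b0`; `E2 := Es - 2ē`.
`¬Ext(Es+ē)` gives `δe, εe, Ke`; `δ1 ≤ min(δ, δe, all δ0's)` small; `f₀ := min ε εe`;
`K̂` large (`≥ K0`'s, `≥ C3·max(K,Ke,1)`, ...); `M := 32/ē`.
`T := env^{E2}`, `V := o2/T`, `U3 := a_0/T`, `Y := (2C3 o2 - T)/a_l²`.
`R := {z ∈ Reg δ1 δ1 : f z < f₀, K̂ tot ≤ T, o2 ≤ M T}`.

On `R`: `T ≤ C3 o2`, `tot ≤ T/K̂ ≤ C3 o2/K̂`, so `K tot, Ke tot ≤ o2`; hence `env^{Es+ē} z < 0`,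
and any maximiser for `E2` has `dsq > η o2`.
* `off_drift` with `Es + ē`: `gen o2 ≤ g := 2(Es+ē) o2 - (3/2)S + C tot`.
* `V_drift`: `gen V ≤ g/T - 2E2 V - o2 dsq/(4τ²T²) + (C/K̂)V ≤ (6ē + C'/K̂) V - 2 b0 V ≤ -b0 V`:
  `C tot/T ≤ C/K̂ ≤ (C C3/K̂) V`; `o2 dsq/(4τ²T²) ≥ η V²/(4τ²) ≥ η V/(4τ²C3) = 2b0 V`
  (`V ≥ 1/C3`).
* `A_drift`: `gen U3 ≤ (E_0 - 2E2 + C/K̂) U3 - a_0 dsq/(4τ²T²) ≤ (4ē + C/K̂ - 2b0) U3 ≤ 0`
  (`E_0 ≤ 2 Es`; `a_0 dsq/(4τ²T²) ≥ U3 η o2/(4τ²T) ≥ 2b0 U3`).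
* `W_drift` with `E2`, `α = 2C3`, `β = 1`: with `h := E_l - Es ≥ 0`:
  `a_l² gen Y ≤ -2h(2C3 o2 - T) + 4ē C3 o2 + 4ē T - dsq/(2τ²) - 3C3 S + C(2C3+1)(δ1² S + tot)
   + 2C3·C tot ≤ (8ē C3 - 4 b0 C3 + C''/K̂) o2 - C3 S ≤ -2b0C3 o2 - S ≤ -(S + tot)`
  (`2C3o2 - T ≥ 0`; `dsq/(2τ²) ≥ η o2/(2τ²) = 4b0C3 o2`; `8ē ≤ b0`; `2b0C3 o2 ≥ 2b0 K̂ tot ≥ tot`).
* `xs_drift`, `xs_le`: `gen xs ≤ C(k+1)² δ1 (S+tot)/a_l²`.
* `H := V/M + K̂ C6 U3 + A3 Y + xs/δ1`, `A3 := max(C(k+1)², 1/(C3δ1²))` (`tot ≤ C6 a_0`).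
  `gen H ≤ 0` and `H ≥ 0` on `R`.
*Exits* `z' ∉ R`: `z' ∈ Reg (2δ1)(2δ1)` (`reg_step`), `T(z') > 0` (`env_half`),
`T(z') ≤ C3 o2(z')`, so `Y(z') ≥ C3 o2/a_l² ≥ 0`, `H(z') ≥ 0`.  If `f z' ≥ f₀` fine.  Otherwise one
of: `T < K̂ tot` (then `K̂C6U3 ≥ K̂ tot/T > 1`); `o2 > M T` (then `V/M > 1`); a ratio fails
(`xs/δ1 > 1`); `o2 > δ1² a_j² ≥ δ1² a_l²` (`A3 Y ≥ A3C3δ1² ≥ 1`); or (with `K̂ tot ≤ T`)
`tot > δ1² a_j²`: `o2 ≥ T/C3 ≥ K̂ tot/C3 ≥ tot > δ1² a_l²`, same.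
*Exit function* `V`: `V ≥ 1/C3`, `gen V ≤ -b0 V`.
`min_principle`: `f ≥ (f₀/2)(1-H)` on `R`.
*Start*: `Ext(Es - ē)` with `δ'' ≤ δ1` small, `ε'' = f₀/8`, `K''` large: `z` with
`env^{Es-ē} z ≥ 0`; `env_bounds` (gap): `T ≥ ē o2/4`, so `V ≤ 4/ē`, `V/M ≤ 1/8`;
`T ≥ ē K'' tot/4 ≥ K̂ tot`; `K̂C6U3 ≤ K̂C6·tot/T ≤ 4K̂C6/(ēK'') ≤ 1/8`; `A3Y ≤ 2A3C3δ''² ≤ 1/8`;
`xs/δ1 ≤ (k+1)²δ''/δ1 ≤ 1/8`.  So `z ∈ R`, `H ≤ 1/2`, `f z ≥ f₀/4`: contradiction.
(`|E| ≤ n0+2` for all used `E`: `-1 ≤ E2`, `Es + ē ≤ n0 + 2`.)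
-/

set_option linter.unusedSectionVars false

namespace UC
open Finset

theorem n1_V {o2 T S tot d e b0 τ C3 Kh Ca Cb Es : ℝ} (hτ : 0 < τ) (hC3 : 0 < C3)
    (hb0 : 0 < b0) (hT : 0 < T) (hS : 0 ≤ S) (hKh : 0 < Kh) (hCa : 0 ≤ Ca)
    (hTC : T ≤ C3 * o2) (hKT : Kh * tot ≤ T) (hd : 8 * τ ^ 2 * C3 * b0 * o2 ≤ d)
    (he : 12 * e ≤ b0) (hK1 : 2 * (Ca * C3 + Cb) ≤ b0 * Kh) :
    (2 * (Es + e) * o2 - 3 / 2 * S + Ca * tot) / T - 2 * (Es - 2 * e) * (o2 / T) -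
      o2 * d / (4 * τ ^ 2 * T ^ 2) + Cb / Kh * (o2 / T) ≤ -(b0 * (o2 / T)) := by
  have ho2 : 0 < o2 := by
    by_contra h
    have : C3 * o2 ≤ 0 := mul_nonpos_of_nonneg_of_nonpos hC3.le (not_lt.mp h)
    linarith
  have hv : 0 < o2 / T := div_pos ho2 hT
  have h1 : 1 ≤ C3 * (o2 / T) := by
    rw [← mul_div_assoc, le_div_iff₀ hT]; linarith
  have h2 : tot / T ≤ 1 / Kh := by
    rw [div_le_div_iff₀ hT hKh]; linarith
  have h3 : 1 / Kh ≤ C3 / Kh * (o2 / T) := by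
    rw [div_mul_eq_mul_div]
    exact div_le_div_of_nonneg_right h1 hKh.le
  have h4 : Ca * (tot / T) ≤ Ca * (C3 / Kh * (o2 / T)) :=
    mul_le_mul_of_nonneg_left (h2.trans h3) hCa
  have h5 : 2 * b0 * (o2 / T) ≤ o2 * d / (4 * τ ^ 2 * T ^ 2) := by
    have h6 : o2 * (8 * τ ^ 2 * C3 * b0 * o2) / (4 * τ ^ 2 * T ^ 2) ≤
        o2 * d / (4 * τ ^ 2 * T ^ 2) := by
      apply div_le_div_of_nonneg_right (mul_le_mul_of_nonneg_left hd ho2.le)
      positivity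
    have h7 : o2 * (8 * τ ^ 2 * C3 * b0 * o2) / (4 * τ ^ 2 * T ^ 2) =
        2 * b0 * (o2 / T) * (C3 * (o2 / T)) := by
      field_simp
      ring
    rw [h7] at h6
    have h8 : 2 * b0 * (o2 / T) * 1 ≤ 2 * b0 * (o2 / T) * (C3 * (o2 / T)) :=
      mul_le_mul_of_nonneg_left h1 (by positivity)
    linarith
  have h9 : (Ca * C3 + Cb) / Kh ≤ b0 / 2 := by
    rw [div_le_div_iff₀ hKh (by norm_num)]; linarith
  have h10 : (Ca * C3 + Cb) / Kh * (o2 / T) ≤ b0 / 2 * (o2 / T) :=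
    mul_le_mul_of_nonneg_right h9 hv.le
  have h11 : (2 * (Es + e) * o2 - 3 / 2 * S + Ca * tot) / T =
      2 * (Es + e) * (o2 / T) - 3 / 2 * (S / T) + Ca * (tot / T) := by
    field_simp
  have h12 : 0 ≤ S / T := div_nonneg hS hT.le
  have h13 : (Ca * C3 + Cb) / Kh * (o2 / T) = Ca * (C3 / Kh * (o2 / T)) + Cb / Kh * (o2 / T) := by
    ring
  have h14 : 6 * e * (o2 / T) ≤ b0 / 2 * (o2 / T) :=
    mul_le_mul_of_nonneg_right (by linarith) hv.le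
  rw [h11]
  nlinarith [h4, h5, h10, h12, h13, h14]

theorem n1_U {o2 T a0 d e b0 τ C3 Kh Cc Es E0 : ℝ} (hτ : 0 < τ) (hC3 : 0 < C3)
    (hb0 : 0 < b0) (hT : 0 < T) (hKh : 0 < Kh) (ha0 : 0 ≤ a0)
    (hTC : T ≤ C3 * o2) (hd : 8 * τ ^ 2 * C3 * b0 * o2 ≤ d)
    (he : 12 * e ≤ b0) (hK1 : Cc ≤ b0 * Kh) (hE0 : E0 ≤ 2 * Es) :
    (E0 - 2 * (Es - 2 * e) + Cc / Kh) * (a0 / T) -
      a0 * d / (4 * τ ^ 2 * T ^ 2) ≤ 0 := by
  have ho2 : 0 < o2 := by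
    by_contra h
    have : C3 * o2 ≤ 0 := mul_nonpos_of_nonneg_of_nonpos hC3.le (not_lt.mp h)
    linarith
  have hv : 0 ≤ a0 / T := div_nonneg ha0 hT.le
  have h1 : 1 ≤ C3 * (o2 / T) := by
    rw [← mul_div_assoc, le_div_iff₀ hT]; linarith
  have h5 : 2 * b0 * (a0 / T) ≤ a0 * d / (4 * τ ^ 2 * T ^ 2) := by
    have h6 : a0 * (8 * τ ^ 2 * C3 * b0 * o2) / (4 * τ ^ 2 * T ^ 2) ≤
        a0 * d / (4 * τ ^ 2 * T ^ 2) := by
      apply div_le_div_of_nonneg_right (mul_le_mul_of_nonneg_left hd ha0)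
      positivity
    have h7 : a0 * (8 * τ ^ 2 * C3 * b0 * o2) / (4 * τ ^ 2 * T ^ 2) =
        2 * b0 * (a0 / T) * (C3 * (o2 / T)) := by
      field_simp
      ring
    rw [h7] at h6
    have h8 : 2 * b0 * (a0 / T) * 1 ≤ 2 * b0 * (a0 / T) * (C3 * (o2 / T)) :=
      mul_le_mul_of_nonneg_left h1 (by positivity)
    linarith
  have h9 : Cc / Kh ≤ b0 := by
    rw [div_le_iff₀ hKh]; linarith
  have h10 : (E0 - 2 * (Es - 2 * e) + Cc / Kh) * (a0 / T) ≤ (2 * b0) * (a0 / T) :=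
    mul_le_mul_of_nonneg_right (by linarith) hv
  linarith

theorem n1_Y {o2 T S tot d e b0 τ C3 Kh Ca Cd Es El δ1 : ℝ} (hτ : 0 < τ) (hC3 : 1 ≤ C3)
    (hb0 : 0 < b0) (hS : 0 ≤ S) (hKh : 0 < Kh) (hCa : 0 ≤ Ca) (hCd : 0 ≤ Cd) (ho2 : 0 ≤ o2)
    (hTC : T ≤ C3 * o2) (hKT : Kh * tot ≤ T) (hd : 8 * τ ^ 2 * C3 * b0 * o2 ≤ d)
    (he : 12 * e ≤ b0) (he0 : 0 ≤ e)
    (hK1 : 2 * C3 * Ca + Cd * (2 * C3 + 1) ≤ b0 * Kh)
    (hK2 : 1 ≤ 2 * b0 * Kh)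
    (hδ : Cd * (2 * C3 + 1) * δ1 ^ 2 ≤ C3) (hEl : Es ≤ El) :
    2 * C3 * (2 * (Es + e) * o2 - 3 / 2 * S + Ca * tot) -
      1 * (2 * (Es - 2 * e) * T + d / (2 * τ ^ 2)) - 2 * El * (2 * C3 * o2 - 1 * T) +
      Cd * (2 * C3 + 1) * (δ1 ^ 2 * S + tot) ≤ -(S + tot) := by
  have h1 : 0 ≤ 2 * C3 * o2 - T := by nlinarith
  have h2 : 2 * Es * (2 * C3 * o2 - T) ≤ 2 * El * (2 * C3 * o2 - T) :=
    mul_le_mul_of_nonneg_right (by linarith) h1
  have h3 : 4 * C3 * b0 * o2 ≤ d / (2 * τ ^ 2) := by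
    rw [le_div_iff₀ (by positivity)]
    nlinarith
  have h4 : Cd * (2 * C3 + 1) * δ1 ^ 2 * S ≤ C3 * S := mul_le_mul_of_nonneg_right hδ hS
  have h5 : Kh * tot ≤ C3 * o2 := hKT.trans hTC
  have h6 : tot ≤ C3 * o2 / Kh := by
    rw [le_div_iff₀ hKh]; linarith
  have hnn : 0 ≤ C3 * o2 := by positivity
  have h7 : (2 * C3 * Ca + Cd * (2 * C3 + 1)) * tot ≤ b0 * (C3 * o2) := by
    calc (2 * C3 * Ca + Cd * (2 * C3 + 1)) * tot
        ≤ (2 * C3 * Ca + Cd * (2 * C3 + 1)) * (C3 * o2 / Kh) :=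
          mul_le_mul_of_nonneg_left h6 (by positivity)
      _ ≤ (b0 * Kh) * (C3 * o2 / Kh) :=
          mul_le_mul_of_nonneg_right hK1 (by positivity)
      _ = b0 * (C3 * o2) := by field_simp
  have h8 : tot ≤ 2 * b0 * (C3 * o2) := by
    calc tot ≤ C3 * o2 / Kh := h6
      _ = 1 * (C3 * o2 / Kh) := by ring
      _ ≤ (2 * b0 * Kh) * (C3 * o2 / Kh) :=
          mul_le_mul_of_nonneg_right hK2 (by positivity)
      _ = 2 * b0 * (C3 * o2) := by field_simp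
  have h9 : 4 * e * T ≤ 4 * e * (C3 * o2) :=
    mul_le_mul_of_nonneg_left hTC (by positivity)
  have h10 : 12 * e * (C3 * o2) ≤ b0 * (C3 * o2) := mul_le_mul_of_nonneg_right he hnn
  have h10' : 0 ≤ e * (C3 * o2) := by positivity
  have h11 : S ≤ C3 * S := by nlinarith
  nlinarith [h2, h3, h4, h7, h8, h9, h10, h11, h10']

variable {V : Type} [Fintype V] [DecidableEq V] {s k : ℕ}
variable {G : SimpleGraph V} [DecidableRel G.Adj]

theorem n1_gen (p q r t : ℝ) (A B C D : St V s → ℝ) (z : St V s) :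
    gen G (fun y => p * A y + q * B y + r * C y + t * D y) z =
      p * gen G A z + q * gen G B z + r * gen G C z + t * gen G D z := by
  simp only [gen, Finset.mul_sum, ← Finset.sum_add_distrib]
  exact Finset.sum_congr rfl fun w _ => by ring

/-- near the flag there are bad points which are nearly critical for rates near `Es` -/
def NearCrit (F : Flag G s k) (τ : ℝ) (f : St V s → ℝ) (Es : ℝ) : Prop :=
  ∀ δ > 0, ∀ ε > 0, ∀ K > 0, ∀ η > 0, ∃ E2, Es - η ≤ E2 ∧ E2 ≤ Es ∧ -1 ≤ E2 ∧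
    ∃ z, F.Reg δ δ z ∧ f z < ε ∧ K * tot z ≤ F.o2 (nR z) ∧
      ∃ c r, F.IsMx E2 τ z c r ∧ dsq z.c (nR z) c r ≤ η * F.o2 (nR z)

theorem n1_small : ∀ l : List ℝ, (∀ x ∈ l, 0 < x) → ∃ δ > 0, ∀ x ∈ l, δ ≤ x
  | [], _ => ⟨1, one_pos, by simp⟩
  | a :: l, h => by
    obtain ⟨δ, hδ, h'⟩ := n1_small l fun x hx => h x (List.mem_cons_of_mem _ hx)
    refine ⟨min δ a, lt_min hδ (h a List.mem_cons_self), fun x hx => ?_⟩
    rcases List.mem_cons.mp hx with rfl | hx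
    · exact min_le_right _ _
    · exact (min_le_left _ _).trans (h' x hx)

theorem near_crit_succ {f : St V s → ℝ} (hf : BadF G f) (F : Flag G s (k + 1)) (τ : ℝ)
    (hτ : 0 < τ) (hτ0 : τ ≤ tau0 V) (Es : ℝ) (h0 : F.E 0 ≤ 2 * Es)
    (h1 : Es ≤ F.E (Fin.last k))
    (hx : ∀ E, -1 ≤ E → E < Es → Ext F τ f E)
    (hn : ∀ E, Es < E → E ≤ cV V + 2 → ¬ Ext F τ f E) : NearCrit F τ f Es := by
  by_contra hcon
  unfold NearCrit at hcon
  push Not at hcon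
  obtain ⟨δ, hδ, ε, hε, K, hK, η, hη, hcon⟩ := hcon
  have hEs0 : 0 ≤ Es := by have := F.nonneg 0; linarith
  have hEs1 : Es ≤ cV V := h1.trans (F.E_le _)
  have hcV : 1 ≤ cV V := by
    have h := F.k_le
    push_cast at h
    have : (0 : ℝ) ≤ k := Nat.cast_nonneg k
    linarith
  obtain ⟨C3, hC3⟩ : ∃ C3 : ℝ, C3 = 16 * (cV V + 1) := ⟨_, rfl⟩
  have hC31 : 1 ≤ C3 := by linarith
  have hC3p : 0 < C3 := by linarith
  obtain ⟨b0, hb0⟩ : ∃ b0 : ℝ, b0 = η / (8 * τ ^ 2 * C3) := ⟨_, rfl⟩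
  have hb0p : 0 < b0 := by rw [hb0]; positivity
  have hη' : 8 * τ ^ 2 * C3 * b0 = η := by rw [hb0]; field_simp
  obtain ⟨e, hep, he⟩ := n1_small [η / 2, 1 / 2, b0 / 12] (by
    intro x hx
    simp only [List.mem_cons, List.not_mem_nil, or_false] at hx
    rcases hx with rfl | rfl | rfl <;> positivity)
  have he1 : e ≤ η / 2 := he _ (by simp)
  have he2 : e ≤ 1 / 2 := he _ (by simp)
  have he3 : 12 * e ≤ b0 := by have := he (b0 / 12) (by simp); linarith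
  have hE2 : |Es - 2 * e| ≤ cV V + 2 := by rw [abs_le]; constructor <;> linarith
  have hEp : |Es + e| ≤ cV V + 2 := by rw [abs_le]; constructor <;> linarith
  have hEm : |Es - e| ≤ cV V + 2 := by rw [abs_le]; constructor <;> linarith
  have hnE := hn (Es + e) (by linarith) (by linarith)
  unfold Ext at hnE
  push Not at hnE
  obtain ⟨δe, hδe, εe, hεe, Ke, hKe, hnE⟩ := hnE
  obtain ⟨da, hda, Ca, hCa, hoff⟩ := F.off_drift τ hτ hτ0
  obtain ⟨db, hdb, K0b, hK0b, Cb, hCb, hV⟩ := F.V_drift τ hτ hτ0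
  obtain ⟨dc, hdc, K0c, hK0c, Cc, hCc, hA⟩ := F.A_drift τ hτ hτ0
  obtain ⟨dd, hdd, Cd, hCd, hW⟩ := F.W_drift τ hτ hτ0
  obtain ⟨de, hde, Ce, hCe, hX⟩ := F.xs_drift
  obtain ⟨df, hdf, hB⟩ := F.env_bounds τ hτ hτ0
  obtain ⟨dg, hdg, K0g, hK0g, hH⟩ := F.env_half τ hτ hτ0
  obtain ⟨dh, hdh, Ch, hCh, hS⟩ := F.reg_step
  obtain ⟨di, hdi, c6, hc6, C6, hC6, hF1⟩ := F.reg_facts1
  obtain ⟨δ1, hδ1, hδs⟩ := n1_small [δ, δe, da / 2, db / 2, dc / 2, dd / 2, de / 2, df / 2, dg / 2,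
    dh / 2, di / 2, 1, C3 / (Cd * (2 * C3 + 1))] (by
    intro x hx
    simp only [List.mem_cons, List.not_mem_nil, or_false] at hx
    rcases hx with rfl | rfl | rfl | rfl | rfl | rfl | rfl | rfl | rfl | rfl | rfl | rfl | rfl <;>
      positivity)
  have s1 : δ1 ≤ δ := hδs _ (by simp)
  have s2 : δ1 ≤ δe := hδs _ (by simp)
  have sa : δ1 ≤ da / 2 := hδs _ (by simp)
  have sb : δ1 ≤ db / 2 := hδs _ (by simp)
  have sc : δ1 ≤ dc / 2 := hδs _ (by simp)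
  have sd : δ1 ≤ dd / 2 := hδs _ (by simp)
  have se : δ1 ≤ de / 2 := hδs _ (by simp)
  have sf : δ1 ≤ df / 2 := hδs _ (by simp)
  have sg : δ1 ≤ dg / 2 := hδs _ (by simp)
  have sh : δ1 ≤ dh / 2 := hδs _ (by simp)
  have si : δ1 ≤ di / 2 := hδs _ (by simp)
  have s3 : δ1 ≤ 1 := hδs _ (by simp)
  have s4 : δ1 ≤ C3 / (Cd * (2 * C3 + 1)) := hδs _ (by simp)
  have s5 : Cd * (2 * C3 + 1) * δ1 ^ 2 ≤ C3 := by
    have h2 : 0 < Cd * (2 * C3 + 1) := by positivity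
    have h3 : Cd * (2 * C3 + 1) * δ1 ≤ C3 := by
      rw [le_div_iff₀ h2] at s4; linarith
    calc Cd * (2 * C3 + 1) * δ1 ^ 2 = (Cd * (2 * C3 + 1) * δ1) * δ1 := by ring
      _ ≤ (Cd * (2 * C3 + 1) * δ1) * 1 := mul_le_mul_of_nonneg_left s3 (by positivity)
      _ ≤ C3 := by linarith
  -- the constants `Kh`, `M`, `A3`, `f₀`
  obtain ⟨Kh, hKhp, hKhs⟩ : ∃ Kh > 0, ∀ x ∈ [1, K0b, K0c, K0g, C3 * K, C3 * Ke, C3,
      2 * (Ca * C3 + Cb) / b0, Cc / b0, (2 * C3 * Ca + Cd * (2 * C3 + 1)) / b0, 1 / (2 * b0)],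
      x ≤ Kh := by
    obtain ⟨u, hu, hu'⟩ := n1_small ((([1, K0b, K0c, K0g, C3 * K, C3 * Ke, C3,
      2 * (Ca * C3 + Cb) / b0, Cc / b0, (2 * C3 * Ca + Cd * (2 * C3 + 1)) / b0,
      1 / (2 * b0)] : List ℝ)).map (fun x => 1 / x)) (by
      intro x hx
      simp only [List.map_cons, List.map_nil, List.mem_cons, List.not_mem_nil, or_false] at hx
      rcases hx with rfl | rfl | rfl | rfl | rfl | rfl | rfl | rfl | rfl | rfl | rfl <;>
        positivity)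
    refine ⟨1 / u, by positivity, fun x hx => ?_⟩
    have hxp : 0 < x := by
      simp only [List.mem_cons, List.not_mem_nil, or_false] at hx
      rcases hx with rfl | rfl | rfl | rfl | rfl | rfl | rfl | rfl | rfl | rfl | rfl <;>
        positivity
    have := hu' (1 / x) (List.mem_map.mpr ⟨x, hx, rfl⟩)
    rw [le_div_iff₀ hu]
    rw [le_div_iff₀ hxp] at this
    linarith
  have k1 : 1 ≤ Kh := hKhs _ (by simp)
  have kb : K0b ≤ Kh := hKhs _ (by simp)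
  have kc : K0c ≤ Kh := hKhs _ (by simp)
  have kg : K0g ≤ Kh := hKhs _ (by simp)
  have kK : C3 * K ≤ Kh := hKhs _ (by simp)
  have kKe : C3 * Ke ≤ Kh := hKhs _ (by simp)
  have kC3 : C3 ≤ Kh := hKhs _ (by simp)
  have k2 : 2 * (Ca * C3 + Cb) ≤ b0 * Kh := by
    have := hKhs (2 * (Ca * C3 + Cb) / b0) (by simp)
    rw [div_le_iff₀ hb0p] at this; linarith
  have k3 : Cc ≤ b0 * Kh := by
    have := hKhs (Cc / b0) (by simp)
    rw [div_le_iff₀ hb0p] at this; linarith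
  have k4 : 2 * C3 * Ca + Cd * (2 * C3 + 1) ≤ b0 * Kh := by
    have := hKhs ((2 * C3 * Ca + Cd * (2 * C3 + 1)) / b0) (by simp)
    rw [div_le_iff₀ hb0p] at this; linarith
  have k5 : 1 ≤ 2 * b0 * Kh := by
    have := hKhs (1 / (2 * b0)) (by simp)
    rw [div_le_iff₀ (by positivity)] at this; linarith
  obtain ⟨f₀, hf₀⟩ : ∃ f₀ : ℝ, f₀ = min ε εe := ⟨_, rfl⟩
  have hf₀p : 0 < f₀ := by rw [hf₀]; exact lt_min hε hεe
  have hf₀1 : f₀ ≤ ε := by rw [hf₀]; exact min_le_left _ _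
  have hf₀2 : f₀ ≤ εe := by rw [hf₀]; exact min_le_right _ _
  obtain ⟨M, hM⟩ : ∃ M : ℝ, M = 32 / e := ⟨_, rfl⟩
  have hMp : 0 < M := by rw [hM]; positivity
  obtain ⟨A3, hA3⟩ : ∃ A3 : ℝ, A3 = Ce * ((k + 1 : ℕ) : ℝ) ^ 2 + 1 / (C3 * δ1 ^ 2) := ⟨_, rfl⟩
  have hA3a : Ce * ((k + 1 : ℕ) : ℝ) ^ 2 ≤ A3 := by
    rw [hA3]; linarith [show 0 < 1 / (C3 * δ1 ^ 2) by positivity]
  have hA3b : 1 / (C3 * δ1 ^ 2) ≤ A3 := by
    rw [hA3]; linarith [show 0 ≤ Ce * ((k + 1 : ℕ) : ℝ) ^ 2 by positivity]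
  have hA3p : 0 < A3 := lt_of_lt_of_le (by positivity) hA3b
  -- facts
  have hTp : ∀ z, F.Reg δ1 δ1 z → Kh * tot z ≤ F.env (Es - 2 * e) τ z →
      0 < F.env (Es - 2 * e) τ z := by
    intro z hz hz'
    have h2 := hz.1
    have h3 : 1 * tot z ≤ Kh * tot z := mul_le_mul_of_nonneg_right k1 (by linarith)
    linarith
  have hTC : ∀ z, F.Reg (2 * δ1) (2 * δ1) z → F.env (Es - 2 * e) τ z ≤ C3 * F.o2 (nR z) := by
    intro z hz
    have := (hB (2 * δ1) (2 * δ1) (by positivity) (by linarith) (by positivity) (by linarith)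
      z hz).2.1 (Es - 2 * e) hE2
    rw [hC3]; exact this
  have hReg2 : ∀ z, F.Reg δ1 δ1 z → F.Reg (2 * δ1) (2 * δ1) z := fun z hz =>
    F.Reg_mono hδ1.le hδ1.le (by linarith) (by linarith) z hz
  -- the region
  let R : Set (St V s) := {z | F.Reg δ1 δ1 z ∧ f z < f₀ ∧ Kh * tot z ≤ F.env (Es - 2 * e) τ z ∧
    F.o2 (nR z) ≤ M * F.env (Es - 2 * e) τ z}
  let H : St V s → ℝ := fun y =>
    (1 / M) * (F.o2 (nR y) / F.env (Es - 2 * e) τ y) +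
    (Kh * C6) * (F.a 0 (nR y) / F.env (Es - 2 * e) τ y) +
    A3 * ((2 * C3 * F.o2 (nR y) - 1 * F.env (Es - 2 * e) τ y) / F.a (Fin.last k) (nR y) ^ 2) +
    (1 / δ1) * F.xs y
  -- nonnegativity of the four terms
  have hpos : ∀ z, F.Reg (2 * δ1) (2 * δ1) z → 0 < F.env (Es - 2 * e) τ z →
      0 ≤ F.o2 (nR z) / F.env (Es - 2 * e) τ z ∧
      0 ≤ F.a 0 (nR z) / F.env (Es - 2 * e) τ z ∧
      C3 * F.o2 (nR z) / F.a (Fin.last k) (nR z) ^ 2 ≤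
        (2 * C3 * F.o2 (nR z) - 1 * F.env (Es - 2 * e) τ z) / F.a (Fin.last k) (nR z) ^ 2 ∧
      0 ≤ (2 * C3 * F.o2 (nR z) - 1 * F.env (Es - 2 * e) τ z) / F.a (Fin.last k) (nR z) ^ 2 ∧
      0 ≤ F.xs z := by
    intro z hz hT
    have ho := F.o2_nonneg (nR z)
    have hC := hTC z hz
    have h3 : C3 * F.o2 (nR z) / F.a (Fin.last k) (nR z) ^ 2 ≤
        (2 * C3 * F.o2 (nR z) - 1 * F.env (Es - 2 * e) τ z) / F.a (Fin.last k) (nR z) ^ 2 :=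
      div_le_div_of_nonneg_right (by linarith) (sq_nonneg _)
    refine ⟨div_nonneg ho hT.le, div_nonneg (hz.2.2.1 0).le hT.le, h3,
      le_trans (by positivity) h3, F.xs_nonneg z hz.2.2.1⟩
  have hHnn : ∀ z, F.Reg (2 * δ1) (2 * δ1) z → 0 < F.env (Es - 2 * e) τ z → 0 ≤ H z := by
    intro z hz hT
    obtain ⟨p1, p2, p3, p4, p5⟩ := hpos z hz hT
    have m1 : 0 ≤ (1 / M) * (F.o2 (nR z) / F.env (Es - 2 * e) τ z) :=
      mul_nonneg (by positivity) p1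
    have m2 : 0 ≤ (Kh * C6) * (F.a 0 (nR z) / F.env (Es - 2 * e) τ z) :=
      mul_nonneg (by positivity) p2
    have m3 : 0 ≤ A3 * ((2 * C3 * F.o2 (nR z) - 1 * F.env (Es - 2 * e) τ z) /
        F.a (Fin.last k) (nR z) ^ 2) := mul_nonneg hA3p.le p4
    have m4 : 0 ≤ (1 / δ1) * F.xs z := mul_nonneg (by positivity) p5
    show 0 ≤ (1 / M) * (F.o2 (nR z) / F.env (Es - 2 * e) τ z) +
        (Kh * C6) * (F.a 0 (nR z) / F.env (Es - 2 * e) τ z) +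
        A3 * ((2 * C3 * F.o2 (nR z) - 1 * F.env (Es - 2 * e) τ z) /
          F.a (Fin.last k) (nR z) ^ 2) + (1 / δ1) * F.xs z
    linarith
  have honR : ∀ z ∈ R, 0 < F.env (Es - 2 * e) τ z ∧
      F.env (Es - 2 * e) τ z ≤ C3 * F.o2 (nR z) ∧ 0 ≤ F.S z.c (nR z) ∧
      gen G (fun y => F.o2 (nR y)) z ≤
        2 * (Es + e) * F.o2 (nR z) - 3 / 2 * F.S z.c (nR z) + Ca * tot z ∧
      ∃ c r, F.IsMx (Es - 2 * e) τ z c r ∧
        8 * τ ^ 2 * C3 * b0 * F.o2 (nR z) ≤ dsq z.c (nR z) c r := by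
    rintro z ⟨hz, hfz, hKT, hoM⟩
    have hT := hTp z hz hKT
    have hC := hTC z (hReg2 z hz)
    obtain ⟨q1, q2⟩ := hF1 δ1 δ1 hδ1.le (by linarith) hδ1.le (by linarith) z hz
    have htot : 1 ≤ tot z := hz.1
    have hK1 : K * tot z ≤ F.o2 (nR z) := by
      have h3 : C3 * K * tot z ≤ Kh * tot z := mul_le_mul_of_nonneg_right kK (by linarith)
      have h4 : C3 * (K * tot z) ≤ C3 * F.o2 (nR z) := by linarith
      exact le_of_mul_le_mul_left h4 hC3p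
    have hK2 : Ke * tot z ≤ F.o2 (nR z) := by
      have h3 : C3 * Ke * tot z ≤ Kh * tot z := mul_le_mul_of_nonneg_right kKe (by linarith)
      have h4 : C3 * (Ke * tot z) ≤ C3 * F.o2 (nR z) := by linarith
      exact le_of_mul_le_mul_left h4 hC3p
    have hep' := hnE z (F.Reg_mono hδ1.le hδ1.le s2 s2 z hz) (by linarith) hK2
    have hg := hoff (Es + e) hEp δ1 δ1 hδ1.le (by linarith) hδ1.le (by linarith) z hz
    obtain ⟨c, r, hmx⟩ := F.exists_mx (Es - 2 * e) τ hE2 hτ hτ0 z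
    have hd := hcon (Es - 2 * e) (by linarith) (by linarith) (by linarith) z
      (F.Reg_mono hδ1.le hδ1.le s1 s1 z hz) (by linarith) hK1 c r hmx
    refine ⟨hT, hC, q1.S_nonneg, by linarith, c, r, hmx, ?_⟩
    rw [hη']; exact hd.le
  have hmain := min_principle (G := G) f H
    (fun y => F.o2 (nR y) / F.env (Es - 2 * e) τ y) R f₀ (1 / C3) b0
    hf.nonneg hf.harm hf₀p.le (by positivity) hb0p
    (fun z hz => hz.1.1) ?_ ?_ ?_ ?_ ?_ ?_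
  · -- the contradiction
    obtain ⟨δs, hδs0, hss⟩ := n1_small [1, δ1, 1 / (16 * A3 * C3),
      δ1 / (8 * ((k + 1 : ℕ) : ℝ) ^ 2)] (by
      intro x hx
      simp only [List.mem_cons, List.not_mem_nil, or_false] at hx
      rcases hx with rfl | rfl | rfl | rfl <;> positivity)
    have t1 : δs ≤ 1 := hss _ (by simp)
    have t2 : δs ≤ δ1 := hss _ (by simp)
    have t3 : δs ≤ 1 / (16 * A3 * C3) := hss _ (by simp)
    have t4 : δs ≤ δ1 / (8 * ((k + 1 : ℕ) : ℝ) ^ 2) := hss _ (by simp)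
    obtain ⟨Ks, hKs⟩ : ∃ Ks : ℝ, Ks = 4 * Kh / e + 32 * Kh * C6 / e := ⟨_, rfl⟩
    have hKsp : 0 < Ks := by rw [hKs]; positivity
    have u1 : 4 * Kh ≤ e * Ks := by
      have : e * Ks = 4 * Kh + 32 * Kh * C6 := by rw [hKs]; field_simp
      rw [this]; nlinarith [mul_pos hKhp hC6]
    have u2 : 32 * Kh * C6 ≤ e * Ks := by
      have : e * Ks = 4 * Kh + 32 * Kh * C6 := by rw [hKs]; field_simp
      rw [this]; linarith
    obtain ⟨z, hz, hfz, hKz, henv⟩ := hx (Es - e) (by linarith) (by linarith) δs hδs0 (f₀ / 8)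
      (by positivity) Ks hKsp
    have hz1 : F.Reg δ1 δ1 z := F.Reg_mono hδs0.le hδs0.le t2 t2 z hz
    have hz2 := hReg2 z hz1
    have ho := F.o2_nonneg (nR z)
    have hgap := (hB δs δs hδs0.le (by linarith) hδs0.le (by linarith) z hz).2.2 (Es - e)
      (Es - 2 * e) hEm hE2 (by linarith) henv
    have hT1 : e * F.o2 (nR z) / 4 ≤ F.env (Es - 2 * e) τ z := by
      have : (Es - e - (Es - 2 * e)) = e := by ring
      rw [this] at hgap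
      linarith
    have htot := hz.1
    have hT2 : Kh * tot z ≤ F.env (Es - 2 * e) τ z := by
      have h3 : e * (Ks * tot z) ≤ e * F.o2 (nR z) := mul_le_mul_of_nonneg_left hKz hep.le
      have h4 : 4 * Kh * tot z ≤ e * Ks * tot z := mul_le_mul_of_nonneg_right u1 (by linarith)
      linarith
    have hT0 := hTp z hz1 hT2
    have hoM : F.o2 (nR z) ≤ M * F.env (Es - 2 * e) τ z := by
      rw [hM, div_mul_eq_mul_div, le_div_iff₀ hep]
      linarith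
    have hzR : z ∈ R := ⟨hz1, by linarith, hT2, hoM⟩
    have hm := hmain z hzR
    -- bound `H z`
    obtain ⟨p1, p2, p3, p4, p5⟩ := hpos z hz2 hT0
    obtain ⟨q1, q2⟩ := hF1 δ1 δ1 hδ1.le (by linarith) hδ1.le (by linarith) z hz1
    have b1 : (1 / M) * (F.o2 (nR z) / F.env (Es - 2 * e) τ z) ≤ 1 / 8 := by
      rw [hM, one_div_div, div_mul_div_comm, div_le_div_iff₀ (by positivity) (by norm_num)]
      linarith
    have b2 : (Kh * C6) * (F.a 0 (nR z) / F.env (Es - 2 * e) τ z) ≤ 1 / 8 := by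
      rw [← mul_div_assoc, div_le_div_iff₀ hT0 (by norm_num)]
      have h3 : F.a 0 (nR z) ≤ tot z := q2.zero_le_tot
      have h4 : Kh * C6 * F.a 0 (nR z) ≤ Kh * C6 * tot z :=
        mul_le_mul_of_nonneg_left h3 (by positivity)
      have h5 : 32 * Kh * C6 * tot z ≤ e * Ks * tot z := mul_le_mul_of_nonneg_right u2 (by linarith)
      have h6 : e * (Ks * tot z) ≤ e * F.o2 (nR z) := mul_le_mul_of_nonneg_left hKz hep.le
      linarith
    have hal : 0 < F.a (Fin.last k) (nR z) := hz.2.2.1 _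
    have b3 : A3 * ((2 * C3 * F.o2 (nR z) - 1 * F.env (Es - 2 * e) τ z) /
        F.a (Fin.last k) (nR z) ^ 2) ≤ 1 / 8 := by
      have h3 : (2 * C3 * F.o2 (nR z) - 1 * F.env (Es - 2 * e) τ z) /
          F.a (Fin.last k) (nR z) ^ 2 ≤ 2 * C3 * δs := by
        rw [div_le_iff₀ (by positivity)]
        have h4 := hz.2.2.2.2.1 (Fin.last k)
        have h5 : δs ^ 2 ≤ δs := by nlinarith
        have h6 : δs ^ 2 * F.a (Fin.last k) (nR z) ^ 2 ≤ δs * F.a (Fin.last k) (nR z) ^ 2 :=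
          mul_le_mul_of_nonneg_right h5 (sq_nonneg _)
        have h7 : 2 * C3 * F.o2 (nR z) ≤ 2 * C3 * (δs * F.a (Fin.last k) (nR z) ^ 2) :=
          mul_le_mul_of_nonneg_left (h4.trans h6) (by positivity)
        linarith
      have h4 : δs * (16 * A3 * C3) ≤ 1 := by
        rw [le_div_iff₀ (by positivity)] at t3; exact t3
      have h5 : A3 * ((2 * C3 * F.o2 (nR z) - 1 * F.env (Es - 2 * e) τ z) /
        F.a (Fin.last k) (nR z) ^ 2) ≤ A3 * (2 * C3 * δs) := mul_le_mul_of_nonneg_left h3 hA3p.le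
      linarith
    have b4 : (1 / δ1) * F.xs z ≤ 1 / 8 := by
      have h3 := (F.xs_le δs δs hδs0.le z hz).2
      have hk : (0 : ℝ) < ((k + 1 : ℕ) : ℝ) := by positivity
      rw [le_div_iff₀ (by positivity)] at t4
      rw [one_div_mul_eq_div, div_le_div_iff₀ hδ1 (by norm_num)]
      linarith
    have hH : H z ≤ 1 / 2 := by
      show (1 / M) * (F.o2 (nR z) / F.env (Es - 2 * e) τ z) +
        (Kh * C6) * (F.a 0 (nR z) / F.env (Es - 2 * e) τ z) +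
        A3 * ((2 * C3 * F.o2 (nR z) - 1 * F.env (Es - 2 * e) τ z) /
          F.a (Fin.last k) (nR z) ^ 2) + (1 / δ1) * F.xs z ≤ 1 / 2
      linarith
    have : f₀ / 2 * (1 / 2) ≤ f₀ / 2 * (1 - H z) :=
      mul_le_mul_of_nonneg_left (by linarith) (by positivity)
    linarith
  · -- superharmonic
    rintro z hz
    obtain ⟨hT, hC, hS0, hg, c, r, hmx, hd⟩ := honR z hz
    obtain ⟨hz1, hfz, hKT, hoM⟩ := hz
    obtain ⟨q1, q2⟩ := hF1 δ1 δ1 hδ1.le (by linarith) hδ1.le (by linarith) z hz1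
    have ho := F.o2_nonneg (nR z)
    have htot : 1 ≤ tot z := hz1.1
    have hal : 0 < F.a (Fin.last k) (nR z) := hz1.2.2.1 _
    have hgen : gen G H z = (1 / M) * gen G (fun y => F.o2 (nR y) / F.env (Es - 2 * e) τ y) z +
        (Kh * C6) * gen G (fun y => F.a 0 (nR y) / F.env (Es - 2 * e) τ y) z +
        A3 * gen G (fun y => (2 * C3 * F.o2 (nR y) - 1 * F.env (Es - 2 * e) τ y) /
          F.a (Fin.last k) (nR y) ^ 2) z + (1 / δ1) * gen G F.xs z := n1_gen _ _ _ _ _ _ _ _ z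
    have g1 := hV (Es - 2 * e) hE2 Kh kb δ1 δ1 hδ1 le_rfl (by linarith) z hz1 hKT c r hmx _ hg
    have g1' := n1_V (o2 := F.o2 (nR z)) (T := F.env (Es - 2 * e) τ z) (S := F.S z.c (nR z))
      (tot := tot z) (d := dsq z.c (nR z) c r) hτ hC3p hb0p hT hS0 hKhp hCa.le hC hKT hd he3 k2
      (Es := Es)
    have g2 := hA (Es - 2 * e) hE2 Kh kc δ1 δ1 hδ1 le_rfl (by linarith) z hz1 hKT c r hmx
    have g2' := n1_U (o2 := F.o2 (nR z)) (T := F.env (Es - 2 * e) τ z) (a0 := F.a 0 (nR z))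
      (d := dsq z.c (nR z) c r) hτ hC3p hb0p hT hKhp (hz1.2.2.1 0).le hC hd he3 k3 h0
    have g3 := hW (Es - 2 * e) hE2 (2 * C3) 1 (by positivity) zero_le_one δ1 δ1 hδ1 le_rfl
      (by linarith) z hz1 c r hmx _ hg
    have g3' := n1_Y (o2 := F.o2 (nR z)) (T := F.env (Es - 2 * e) τ z) (S := F.S z.c (nR z))
      (tot := tot z) (d := dsq z.c (nR z) c r) hτ hC31 hb0p hS0 hKhp hCa.le hCd.le ho hC hKT hd
      he3 hep.le k4 k5 s5 h1
    have g3'' := div_le_div_of_nonneg_right g3' (sq_nonneg (F.a (Fin.last k) (nR z)))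
    have g4 := hX δ1 δ1 hδ1 le_rfl (by linarith) z hz1
    have h5 := (F.xs_le δ1 δ1 hδ1.le z hz1)
    have h6 : 0 ≤ (F.S z.c (nR z) + tot z) / F.a (Fin.last k) (nR z) ^ 2 :=
      div_nonneg (by linarith) (sq_nonneg _)
    have h7 : Ce * F.xs z * (F.S z.c (nR z) + tot z) / F.a (Fin.last k) (nR z) ^ 2 ≤
        δ1 * (A3 * ((F.S z.c (nR z) + tot z) / F.a (Fin.last k) (nR z) ^ 2)) := by
      rw [mul_div_assoc, ← mul_assoc]
      apply mul_le_mul_of_nonneg_right _ h6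
      calc Ce * F.xs z ≤ Ce * (((k + 1 : ℕ) : ℝ) ^ 2 * δ1) :=
            mul_le_mul_of_nonneg_left h5.2 hCe.le
        _ = δ1 * (Ce * ((k + 1 : ℕ) : ℝ) ^ 2) := by ring
        _ ≤ δ1 * A3 := mul_le_mul_of_nonneg_left hA3a hδ1.le
    have e1 : (1 / M) * gen G (fun y => F.o2 (nR y) / F.env (Es - 2 * e) τ y) z ≤ 0 := by
      apply mul_nonpos_of_nonneg_of_nonpos (by positivity)
      have : 0 ≤ b0 * (F.o2 (nR z) / F.env (Es - 2 * e) τ z) :=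
        mul_nonneg hb0p.le (div_nonneg ho hT.le)
      linarith
    have e2 : (Kh * C6) * gen G (fun y => F.a 0 (nR y) / F.env (Es - 2 * e) τ y) z ≤ 0 :=
      mul_nonpos_of_nonneg_of_nonpos (by positivity) (g2.trans g2')
    have e3 : A3 * gen G (fun y => (2 * C3 * F.o2 (nR y) - 1 * F.env (Es - 2 * e) τ y) /
          F.a (Fin.last k) (nR y) ^ 2) z ≤
        A3 * (-(F.S z.c (nR z) + tot z) / F.a (Fin.last k) (nR z) ^ 2) :=
      mul_le_mul_of_nonneg_left (g3.trans g3'') hA3p.le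
    have e4 : (1 / δ1) * gen G F.xs z ≤
        A3 * ((F.S z.c (nR z) + tot z) / F.a (Fin.last k) (nR z) ^ 2) := by
      rw [one_div_mul_eq_div, div_le_iff₀ hδ1]
      linarith
    have e5 : A3 * (-(F.S z.c (nR z) + tot z) / F.a (Fin.last k) (nR z) ^ 2) =
        -(A3 * ((F.S z.c (nR z) + tot z) / F.a (Fin.last k) (nR z) ^ 2)) := by ring
    rw [hgen]
    linarith
  · -- lower bound of `H`
    rintro z hz
    obtain ⟨hz1, hfz, hKT, hoM⟩ := hz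
    have := hHnn z (hReg2 z hz1) (hTp z hz1 hKT)
    linarith
  · -- exits
    rintro z ⟨hz1, hfz, hKT, hoM⟩ w hw hex
    obtain ⟨r1, -, -, -, -⟩ := hS δ1 δ1 hδ1 le_rfl (by linarith) z hz1 w hw
    obtain ⟨r2, r3, -⟩ := hH (Es - 2 * e) hE2 Kh kg δ1 δ1 hδ1 le_rfl (by linarith) z hz1 hKT w hw
    generalize step G z w = z' at r1 r3 hex
    have hT : 0 < F.env (Es - 2 * e) τ z' := by linarith
    have hHn := hHnn z' r1 hT
    by_cases hf' : f₀ ≤ f z'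
    · exact Or.inl ⟨hf', by linarith⟩
    right
    have hf'' : f z' < f₀ := not_le.mp hf'
    obtain ⟨p1, p2, p3, p4, p5⟩ := hpos z' r1 hT
    have hC := hTC z' r1
    obtain ⟨q1, q2⟩ := hF1 (2 * δ1) (2 * δ1) (by positivity) (by linarith) (by positivity)
      (by linarith) z' r1
    have hal : 0 < F.a (Fin.last k) (nR z') := r1.2.2.1 _
    have m1 : 0 ≤ (1 / M) * (F.o2 (nR z') / F.env (Es - 2 * e) τ z') :=
      mul_nonneg (by positivity) p1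
    have m2 : 0 ≤ (Kh * C6) * (F.a 0 (nR z') / F.env (Es - 2 * e) τ z') :=
      mul_nonneg (by positivity) p2
    have m3 : 0 ≤ A3 * ((2 * C3 * F.o2 (nR z') - 1 * F.env (Es - 2 * e) τ z') /
        F.a (Fin.last k) (nR z') ^ 2) := mul_nonneg hA3p.le p4
    have m4 : 0 ≤ (1 / δ1) * F.xs z' := mul_nonneg (by positivity) p5
    show 1 ≤ (1 / M) * (F.o2 (nR z') / F.env (Es - 2 * e) τ z') +
        (Kh * C6) * (F.a 0 (nR z') / F.env (Es - 2 * e) τ z') +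
        A3 * ((2 * C3 * F.o2 (nR z') - 1 * F.env (Es - 2 * e) τ z') /
          F.a (Fin.last k) (nR z') ^ 2) + (1 / δ1) * F.xs z'
    by_cases c1 : Kh * tot z' ≤ F.env (Es - 2 * e) τ z'
    swap
    · have : 1 ≤ (Kh * C6) * (F.a 0 (nR z') / F.env (Es - 2 * e) τ z') := by
        rw [← mul_div_assoc, le_div_iff₀ hT]
        have h3 : Kh * tot z' ≤ Kh * (C6 * F.a 0 (nR z')) :=
          mul_le_mul_of_nonneg_left q2.tot_le hKhp.le
        linarith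
      linarith
    by_cases c2 : F.o2 (nR z') ≤ M * F.env (Es - 2 * e) τ z'
    swap
    · have : 1 ≤ (1 / M) * (F.o2 (nR z') / F.env (Es - 2 * e) τ z') := by
        rw [one_div_mul_eq_div, le_div_iff₀ hMp, le_div_iff₀ hT]
        linarith
      linarith
    have hkey : ∀ j, δ1 ^ 2 * F.a j (nR z') ^ 2 < F.o2 (nR z') →
        1 ≤ A3 * ((2 * C3 * F.o2 (nR z') - 1 * F.env (Es - 2 * e) τ z') /
          F.a (Fin.last k) (nR z') ^ 2) := by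
      intro j hj
      have h3 : F.a (Fin.last k) (nR z') ^ 2 ≤ F.a j (nR z') ^ 2 :=
        pow_le_pow_left₀ hal.le (q2.last_le j) 2
      have h4 : δ1 ^ 2 * F.a (Fin.last k) (nR z') ^ 2 ≤ δ1 ^ 2 * F.a j (nR z') ^ 2 :=
        mul_le_mul_of_nonneg_left h3 (sq_nonneg _)
      have h5 : C3 * δ1 ^ 2 ≤ C3 * F.o2 (nR z') / F.a (Fin.last k) (nR z') ^ 2 := by
        rw [le_div_iff₀ (by positivity), mul_assoc]
        exact mul_le_mul_of_nonneg_left (by linarith) hC3p.le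
      have h6 : 1 ≤ A3 * (C3 * δ1 ^ 2) := by
        rw [div_le_iff₀ (by positivity)] at hA3b
        exact hA3b
      exact h6.trans (mul_le_mul_of_nonneg_left (h5.trans p3) hA3p.le)
    by_cases c3 : ∃ j, δ1 ^ 2 * F.a j (nR z') ^ 2 < F.o2 (nR z')
    · obtain ⟨j, hj⟩ := c3
      have := hkey j hj
      linarith
    push Not at c3
    by_cases c4 : ∃ j, δ1 ^ 2 * F.a j (nR z') ^ 2 < tot z'
    · obtain ⟨j, hj⟩ := c4
      have htot : 1 ≤ tot z' := r1.1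
      have h3 : tot z' ≤ F.o2 (nR z') := by
        have h4 : C3 * tot z' ≤ Kh * tot z' := mul_le_mul_of_nonneg_right kC3 (by linarith)
        have h5 : C3 * tot z' ≤ C3 * F.o2 (nR z') := by linarith
        exact le_of_mul_le_mul_left h5 hC3p
      have := hkey j (by linarith)
      linarith
    push Not at c4
    by_cases c5 : ∃ i j, i < j ∧ δ1 * F.a i (nR z') < F.a j (nR z')
    · obtain ⟨i, j, hij, hv⟩ := c5
      have h3 := F.xs_gt δ1 z' r1.2.2.1 i j hij hv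
      have : 1 ≤ (1 / δ1) * F.xs z' := by
        rw [one_div_mul_eq_div, le_div_iff₀ hδ1]
        linarith
      linarith
    push Not at c5
    exact absurd ⟨⟨r1.1, r1.2.1, r1.2.2.1, fun i j hij => c5 i j hij, c3, c4⟩, hf'', c1, c2⟩ hex
  · -- the exit function is bounded below
    rintro z hz
    obtain ⟨hT, hC, hS0, hg, c, r, hmx, hd⟩ := honR z hz
    show 1 / C3 ≤ F.o2 (nR z) / F.env (Es - 2 * e) τ z
    rw [div_le_div_iff₀ hC3p hT]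
    linarith
  · -- drift of the exit function
    rintro z hz
    obtain ⟨hT, hC, hS0, hg, c, r, hmx, hd⟩ := honR z hz
    obtain ⟨hz1, hfz, hKT, hoM⟩ := hz
    have g1 := hV (Es - 2 * e) hE2 Kh kb δ1 δ1 hδ1 le_rfl (by linarith) z hz1 hKT c r hmx _ hg
    have g1' := n1_V (o2 := F.o2 (nR z)) (T := F.env (Es - 2 * e) τ z) (S := F.S z.c (nR z))
      (tot := tot z) (d := dsq z.c (nR z) c r) hτ hC3p hb0p hT hS0 hKhp hCa.le hC hKT hd he3 k2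
      (Es := Es)
    exact g1.trans g1'
  · -- the exit function is nonnegative at the exits
    rintro z ⟨hz1, hfz, hKT, hoM⟩ w hw hex
    obtain ⟨r2, r3, -⟩ := hH (Es - 2 * e) hE2 Kh kg δ1 δ1 hδ1 le_rfl (by linarith) z hz1 hKT w hw
    exact div_nonneg (F.o2_nonneg _) (by linarith)

end UC
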