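import Pool.Agent.helper25.UC.P1
import Pool.Agent.helper25.UC.B7
import Pool.Agent.helper25.UC.C1
import Pool.Agent.helper25.UC.C2
import Pool.Agent.helper25.UC.C4

/-!
# T1 : if `Ext(E)` fails for some `E < E_0/2` then the flag is terminal

Let `γ = E_0 - 2E > 0` and suppose the flag is not terminal.  For `K = κ²` large and `δ` small, on
`R = {z ∈ Reg δ δ : f z < ε}` we have `o2 > K tot` and `env^E < 0`.  Then `U = o2/a_0` satisfies
`gen U ≤ -(γ/2) U`, and `H = A o2/a_l² + xs/δ` is superharmonic, so the minimum principle gives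
`f ≥ (ε/2)(1 - H)` on `R`, which contradicts `Reach`.
-/

namespace UC
open Finset
variable {V : Type} [Fintype V] [DecidableEq V] {s k : ℕ}
variable {G : SimpleGraph V} [DecidableRel G.Adj]

theorem sq_le_of_le_one' {δ : ℝ} (h0 : 0 < δ) (h1 : δ ≤ 1) : δ ^ 2 ≤ δ := by nlinarith

theorem le_sq_of_two_le' {κ : ℝ} (h : 2 ≤ κ) : κ ≤ κ ^ 2 ∧ 4 ≤ κ ^ 2 := by
  constructor <;> nlinarith

theorem exists_pos_le_list (l : List ℝ) (h : ∀ x ∈ l, 0 < x) : ∃ δ : ℝ, 0 < δ ∧ ∀ x ∈ l, δ ≤ x := by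
  induction l with
  | nil => exact ⟨1, one_pos, by simp⟩
  | cons a l ih =>
    obtain ⟨δ, hδ, hl⟩ := ih (fun x hx => h x (List.mem_cons_of_mem _ hx))
    refine ⟨min a δ, lt_min (h a List.mem_cons_self) hδ, ?_⟩
    intro x hx
    rcases List.mem_cons.mp hx with rfl | hx
    · exact min_le_left _ _
    · exact (min_le_right _ _).trans (hl x hx)

theorem terminal_of_not_ext {f : St V s → ℝ} (hf : BadF G f) (F : Flag G s (k + 1)) (τ : ℝ)
    (hτ : 0 < τ) (hτ0 : τ ≤ tau0 V) (hR : Reach F f) (E : ℝ) (hE : -1 ≤ E)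
    (hE0 : 2 * E < F.E 0) (hne : ¬ Ext F τ f E) : Terminal F f := by
  by_contra hT
  have hn1 : (1:ℝ) ≤ cV V := by
    have h1 := F.k_le
    push_cast at h1
    have : (0:ℝ) ≤ k := Nat.cast_nonneg k
    linarith
  have hE0n := F.E_le 0
  have hEabs : |E| ≤ cV V + 2 := by
    rw [abs_le]; constructor <;> linarith
  obtain ⟨γ, hγdef⟩ : ∃ γ, γ = F.E 0 - 2 * E := ⟨_, rfl⟩
  have hγ : 0 < γ := by linarith
  unfold Ext at hne
  push Not at hne
  obtain ⟨δE, hδE, εE, hεE, KE, hKE, hExt⟩ := hne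
  unfold Terminal at hT
  push Not at hT
  obtain ⟨δ1, hδ1, C1, hC1, hoff⟩ := F.off_drift τ hτ hτ0
  obtain ⟨δ2, hδ2, C2, hC2, hB⟩ := F.B_drift
  obtain ⟨δ3, hδ3, C3, hC3, hW⟩ := F.W_drift τ hτ hτ0
  obtain ⟨δ4, hδ4, C4, hC4, hxs⟩ := F.xs_drift
  obtain ⟨δ5, hδ5, c5, hc5, C5, hC5, hfacts⟩ := F.reg_facts1
  obtain ⟨δ6, hδ6, C6, hC6, hstep⟩ := F.reg_step
  obtain ⟨δ7, hδ7, hlarge⟩ := F.reg_large
  obtain ⟨κ, hκ⟩ : ∃ κ, κ = 2 + 16 * C2 / γ + 8 * C1 / γ + 4 * C6 + KE + (C1 + C3 + 1) / γ :=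
    ⟨_, rfl⟩
  have p1 : 0 < 16 * C2 / γ := by positivity
  have p2 : 0 < 8 * C1 / γ := by positivity
  have p3 : 0 < (C1 + C3 + 1) / γ := by positivity
  have hκ2 : 2 ≤ κ := by linarith
  have hκC2 : 16 * C2 ≤ γ * κ := by
    have : 16 * C2 / γ ≤ κ := by linarith
    rwa [div_le_iff₀ hγ, mul_comm κ γ] at this
  have hκC1 : 8 * C1 ≤ γ * κ := by
    have : 8 * C1 / γ ≤ κ := by linarith
    rwa [div_le_iff₀ hγ, mul_comm κ γ] at this
  have hκC13 : C1 + C3 + 1 ≤ γ * κ := by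
    have : (C1 + C3 + 1) / γ ≤ κ := by linarith
    rwa [div_le_iff₀ hγ, mul_comm κ γ] at this
  have hκC6 : 4 * C6 ≤ κ := by linarith
  have hκKE : KE ≤ κ := by linarith
  obtain ⟨hκsq, hκ4⟩ := le_sq_of_two_le' hκ2
  obtain ⟨δK, hδK, εK, hεK, hTer⟩ := hT (κ ^ 2)
  -- choice of δ
  obtain ⟨δ, hδ, hdK, hdE, hd1, hd2, hd3, hd4, hd5, hd6, hd7, hd8, hd9, hd10, hd11⟩ :
      ∃ δ : ℝ, 0 < δ ∧ δ ≤ δK ∧ δ ≤ δE ∧ δ ≤ δ1 ∧ δ ≤ δ2 ∧ δ ≤ δ3 ∧ δ ≤ δ4 ∧ δ ≤ δ5 / 2 ∧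
        δ ≤ δ6 ∧ δ ≤ δ7 ∧ δ ≤ 1 ∧ δ ≤ γ / (4 * C2) ∧ δ ≤ 1 / C2 ∧ δ ≤ 1 / (2 * C3) := by
    have h1 : 0 < δ5 / 2 := by linarith
    have h2 : 0 < γ / (4 * C2) := by positivity
    have h3 : 0 < 1 / C2 := by positivity
    have h4 : 0 < 1 / (2 * C3) := by positivity
    obtain ⟨δ, hδ, hl⟩ := exists_pos_le_list [δK, δE, δ1, δ2, δ3, δ4, δ5 / 2, δ6, δ7, 1,
      γ / (4 * C2), 1 / C2, 1 / (2 * C3)] (by
        intro x hx
        simp only [List.mem_cons, List.not_mem_nil, or_false] at hx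
        rcases hx with h | h | h | h | h | h | h | h | h | h | h | h | h <;> rw [h] <;>
          first | assumption | exact one_pos)
    refine ⟨δ, hδ, hl _ ?_, hl _ ?_, hl _ ?_, hl _ ?_, hl _ ?_, hl _ ?_, hl _ ?_, hl _ ?_,
      hl _ ?_, hl _ ?_, hl _ ?_, hl _ ?_, hl _ ?_⟩ <;> simp only [List.mem_cons, true_or, or_true]
  have hδsq : δ ^ 2 ≤ δ := sq_le_of_le_one' hδ hd8
  have hC2a : C2 * δ ^ 2 ≤ γ / 4 := by
    have h1 : C2 * δ ≤ γ / 4 := by
      rw [le_div_iff₀ (by positivity)] at hd9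
      linarith
    exact (mul_le_mul_of_nonneg_left hδsq hC2.le).trans h1
  have hC2b : C2 * δ ^ 2 ≤ 1 := by
    have h1 : δ * C2 ≤ 1 := by
      rwa [le_div_iff₀ hC2] at hd10
    have h2 := mul_le_mul_of_nonneg_left hδsq hC2.le
    linarith
  have hC3a : C3 * δ ^ 2 ≤ 1 / 2 := by
    have h1 : δ * (2 * C3) ≤ 1 := by
      rwa [le_div_iff₀ (by positivity)] at hd11
    have h2 := mul_le_mul_of_nonneg_left hδsq hC3.le
    linarith
  obtain ⟨ε, hε, hεK', hεE'⟩ : ∃ ε : ℝ, 0 < ε ∧ ε ≤ εK ∧ ε ≤ εE :=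
    ⟨min εK εE, lt_min hεK hεE, min_le_left _ _, min_le_right _ _⟩
  obtain ⟨A, hA⟩ : ∃ A : ℝ, A = C4 * ((k : ℝ) + 1) ^ 2 + 4 / δ ^ 2 := ⟨_, rfl⟩
  have hA1 : C4 * ((k : ℝ) + 1) ^ 2 ≤ A := by
    have : 0 < 4 / δ ^ 2 := by positivity
    linarith
  have hA2 : 4 ≤ A * δ ^ 2 := by
    have h1 : 4 / δ ^ 2 ≤ A := by
      have : 0 ≤ C4 * ((k : ℝ) + 1) ^ 2 := by positivity
      linarith
    rwa [div_le_iff₀ (by positivity)] at h1
  have hA0 : 0 < A := by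
    have : 0 < 4 / δ ^ 2 := by positivity
    have : 0 ≤ C4 * ((k : ℝ) + 1) ^ 2 := by positivity
    linarith
  -- basic facts on `R`
  have key : ∀ z, F.Reg δ δ z → f z < ε →
      κ ^ 2 * tot z < F.o2 (nR z) ∧ F.env E τ z < 0 := by
    intro z hz hfz
    have h1 := hTer z (F.Reg_mono hδ.le hδ.le hdK hdK z hz) (lt_of_lt_of_le hfz hεK')
    refine ⟨h1, ?_⟩
    refine hExt z (F.Reg_mono hδ.le hδ.le hdE hdE z hz) (lt_of_lt_of_le hfz hεE') ?_
    have h2 : 1 ≤ tot z := hz.1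
    have h3 : KE * tot z ≤ κ ^ 2 * tot z := by
      apply mul_le_mul_of_nonneg_right _ (by linarith)
      linarith
    linarith
  have o2facts : ∀ z, F.Reg δ δ z → f z < ε →
      κ ^ 2 ≤ F.o2 (nR z) ∧ κ * Real.sqrt (F.o2 (nR z)) ≤ F.o2 (nR z) ∧
        κ * 1 ≤ F.o2 (nR z) := by
    intro z hz hfz
    have h1 := (key z hz hfz).1
    have h2 : 1 ≤ tot z := hz.1
    have h3 : κ ^ 2 ≤ F.o2 (nR z) := by
      have := mul_le_mul_of_nonneg_left h2 (sq_nonneg κ)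
      linarith
    have h4 : κ ≤ Real.sqrt (F.o2 (nR z)) := Real.le_sqrt_of_sq_le h3
    have h5 : Real.sqrt (F.o2 (nR z)) * Real.sqrt (F.o2 (nR z)) = F.o2 (nR z) :=
      Real.mul_self_sqrt (F.o2_nonneg _)
    refine ⟨h3, ?_, by linarith⟩
    calc κ * Real.sqrt (F.o2 (nR z)) ≤ Real.sqrt (F.o2 (nR z)) * Real.sqrt (F.o2 (nR z)) :=
          mul_le_mul_of_nonneg_right h4 (Real.sqrt_nonneg _)
      _ = _ := h5
  have hgo2 : ∀ z, F.Reg δ δ z → f z < ε → gen G (fun y => F.o2 (nR y)) z ≤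
      2 * E * F.o2 (nR z) - 3 / 2 * F.S z.c (nR z) + C1 * tot z := by
    intro z hz hfz
    have h1 := hoff E hEabs δ δ hδ.le hd1 hδ.le hd1 z hz
    have h2 := (key z hz hfz).2
    linarith
  -- the exit function
  have hUdrift : ∀ z, F.Reg δ δ z → f z < ε →
      gen G (fun y => F.o2 (nR y) / F.a 0 (nR y)) z ≤
        -(γ / 2 * (F.o2 (nR z) / F.a 0 (nR z))) := by
    intro z hz hfz
    have h1 := hB δ δ hδ le_rfl hd2 z hz _ (hgo2 z hz hfz)
    obtain ⟨hf1, hf2⟩ := hfacts δ δ hδ.le (by linarith) hδ.le (by linarith) z hz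
    obtain ⟨h3, h4, h5⟩ := o2facts z hz hfz
    have h6 := (key z hz hfz).1
    have ha0 : 0 < F.a 0 (nR z) := hz.2.2.1 0
    have hS := hf1.S_nonneg
    have ho : 0 ≤ F.o2 (nR z) := F.o2_nonneg _
    have htot : 1 ≤ tot z := hz.1
    refine h1.trans ?_
    rw [← mul_div_assoc, ← neg_div]
    apply div_le_div_of_nonneg_right _ ha0.le
    have e1 : C1 * tot z ≤ γ / 8 * F.o2 (nR z) := by
      have h7 : 8 * C1 * tot z ≤ γ * κ * tot z := by
        apply mul_le_mul_of_nonneg_right hκC1 (by linarith)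
      have h8 : γ * κ * tot z ≤ γ * (κ ^ 2 * tot z) := by
        have : κ * tot z ≤ κ ^ 2 * tot z := mul_le_mul_of_nonneg_right hκsq (by linarith)
        rw [mul_assoc]
        exact mul_le_mul_of_nonneg_left this hγ.le
      have h9 : γ * (κ ^ 2 * tot z) ≤ γ * F.o2 (nR z) := mul_le_mul_of_nonneg_left h6.le hγ.le
      linarith
    have e2 : C2 * Real.sqrt (F.o2 (nR z)) ≤ γ / 16 * F.o2 (nR z) := by
      have h7 : 16 * C2 * Real.sqrt (F.o2 (nR z)) ≤ γ * κ * Real.sqrt (F.o2 (nR z)) :=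
        mul_le_mul_of_nonneg_right hκC2 (Real.sqrt_nonneg _)
      have h8 : γ * (κ * Real.sqrt (F.o2 (nR z))) ≤ γ * F.o2 (nR z) :=
        mul_le_mul_of_nonneg_left h4 hγ.le
      linarith
    have e3 : C2 ≤ γ / 16 * F.o2 (nR z) := by
      have h8 : γ * (κ * 1) ≤ γ * F.o2 (nR z) :=
        mul_le_mul_of_nonneg_left h5 hγ.le
      linarith
    have e4 : C2 * δ ^ 2 * F.S z.c (nR z) ≤ 1 * F.S z.c (nR z) :=
      mul_le_mul_of_nonneg_right hC2b hS
    have e5 : C2 * δ ^ 2 * F.o2 (nR z) ≤ γ / 4 * F.o2 (nR z) :=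
      mul_le_mul_of_nonneg_right hC2a ho
    have e6 : C2 * (δ ^ 2 * (F.S z.c (nR z) + F.o2 (nR z)) + Real.sqrt (F.o2 (nR z)) + 1) =
        C2 * δ ^ 2 * F.S z.c (nR z) + C2 * δ ^ 2 * F.o2 (nR z) +
          C2 * Real.sqrt (F.o2 (nR z)) + C2 := by ring
    rw [e6]
    have e7 : F.E 0 * F.o2 (nR z) = γ * F.o2 (nR z) + 2 * E * F.o2 (nR z) := by
      rw [hγdef]; ring
    rw [e7]
    linarith
  -- the drift of `o2/a_l²`
  have hWdrift : ∀ z, F.Reg δ δ z → f z < ε →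
      gen G (fun y => F.o2 (nR y) / F.a (Fin.last k) (nR y) ^ 2) z ≤
        -((F.S z.c (nR z) + tot z) / F.a (Fin.last k) (nR z) ^ 2) := by
    intro z hz hfz
    obtain ⟨c, r, hcr⟩ := F.exists_mx E τ hEabs hτ hτ0 z
    have h1 := hW E hEabs 1 0 zero_le_one le_rfl δ δ hδ le_rfl hd3 z hz c r hcr _ (hgo2 z hz hfz)
    simp only [one_mul, zero_mul, sub_zero, add_zero, mul_one] at h1
    obtain ⟨hf1, hf2⟩ := hfacts δ δ hδ.le (by linarith) hδ.le (by linarith) z hz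
    have h6 := (key z hz hfz).1
    have hal : 0 < F.a (Fin.last k) (nR z) := hz.2.2.1 _
    have hS := hf1.S_nonneg
    have ho : 0 ≤ F.o2 (nR z) := F.o2_nonneg _
    have htot : 1 ≤ tot z := hz.1
    refine h1.trans ?_
    rw [← neg_div]
    apply div_le_div_of_nonneg_right _ (by positivity)
    have hhalf := F.half 0 (Fin.last k)
    have e1 : (C1 + C3 + 1) * tot z ≤ γ * F.o2 (nR z) := by
      have h7 : (C1 + C3 + 1) * tot z ≤ γ * κ * tot z :=
        mul_le_mul_of_nonneg_right hκC13 (by linarith)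
      have h8 : γ * κ * tot z ≤ γ * (κ ^ 2 * tot z) := by
        have : κ * tot z ≤ κ ^ 2 * tot z := mul_le_mul_of_nonneg_right hκsq (by linarith)
        rw [mul_assoc]
        exact mul_le_mul_of_nonneg_left this hγ.le
      have h9 : γ * (κ ^ 2 * tot z) ≤ γ * F.o2 (nR z) := mul_le_mul_of_nonneg_left h6.le hγ.le
      linarith
    have e2 : C3 * δ ^ 2 * F.S z.c (nR z) ≤ 1 / 2 * F.S z.c (nR z) :=
      mul_le_mul_of_nonneg_right hC3a hS
    have e3 : (F.E 0 / 2) * F.o2 (nR z) ≤ F.E (Fin.last k) * F.o2 (nR z) :=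
      mul_le_mul_of_nonneg_right hhalf ho
    have e4 : F.E 0 * F.o2 (nR z) = γ * F.o2 (nR z) + 2 * E * F.o2 (nR z) := by
      rw [hγdef]; ring
    have e5 : C3 * (δ ^ 2 * F.S z.c (nR z) + tot z) =
        C3 * δ ^ 2 * F.S z.c (nR z) + C3 * tot z := by ring
    rw [e5]
    linarith
  -- superharmonic `H`
  obtain ⟨H, hH⟩ : ∃ H : St V s → ℝ, H = fun y =>
      A * (F.o2 (nR y) / F.a (Fin.last k) (nR y) ^ 2) + 1 / δ * F.xs y := ⟨_, rfl⟩
  have hHnonneg : ∀ z, (∀ j, 0 < F.a j (nR z)) → 0 ≤ H z := by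
    intro z hz
    rw [hH]
    have h1 := F.xs_nonneg z hz
    have h2 := F.o2_nonneg (nR z)
    simp only
    positivity
  have hHdrift : ∀ z, F.Reg δ δ z → f z < ε → gen G H z ≤ 0 := by
    intro z hz hfz
    rw [hH, gen_add, gen_smul, gen_smul]
    have h1 := hWdrift z hz hfz
    have h2 := hxs δ δ hδ le_rfl hd4 z hz
    have h3 := F.xs_le δ δ hδ.le z hz
    obtain ⟨hf1, hf2⟩ := hfacts δ δ hδ.le (by linarith) hδ.le (by linarith) z hz
    have hS := hf1.S_nonneg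
    have htot : 1 ≤ tot z := hz.1
    have hal : 0 < F.a (Fin.last k) (nR z) := hz.2.2.1 _
    obtain ⟨Q, hQ⟩ : ∃ Q, Q = (F.S z.c (nR z) + tot z) / F.a (Fin.last k) (nR z) ^ 2 := ⟨_, rfl⟩
    have hQ0 : 0 ≤ Q := by rw [hQ]; apply div_nonneg <;> [linarith; positivity]
    rw [mul_div_assoc, ← hQ] at h2
    rw [← hQ] at h1
    have h4 : C4 * F.xs z * Q ≤ C4 * (((k + 1 : ℕ) : ℝ) ^ 2 * δ) * Q := by
      apply mul_le_mul_of_nonneg_right _ hQ0
      exact mul_le_mul_of_nonneg_left h3.2 hC4.le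
    have h5 : A * gen G (fun y => F.o2 (nR y) / F.a (Fin.last k) (nR y) ^ 2) z ≤ A * (-Q) :=
      mul_le_mul_of_nonneg_left h1 hA0.le
    have h6 : 1 / δ * gen G F.xs z ≤ 1 / δ * (C4 * (((k + 1 : ℕ) : ℝ) ^ 2 * δ) * Q) :=
      mul_le_mul_of_nonneg_left (h2.trans h4) (by positivity)
    have h7 : 1 / δ * (C4 * (((k + 1 : ℕ) : ℝ) ^ 2 * δ) * Q) = C4 * ((k : ℝ) + 1) ^ 2 * Q := by
      push_cast
      field_simp
    rw [h7] at h6
    have h8 : C4 * ((k : ℝ) + 1) ^ 2 * Q ≤ A * Q := mul_le_mul_of_nonneg_right hA1 hQ0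
    have h9 : gen G (fun y => F.xs y) z = gen G F.xs z := rfl
    rw [h9]
    linarith
  have hmin := min_principle (G := G) f H (fun y => F.o2 (nR y) / F.a 0 (nR y))
    {z | F.Reg δ δ z ∧ f z < ε} ε (κ ^ 2) (γ / 2) hf.nonneg hf.harm hε.le (by positivity)
    (by positivity) (fun z hz => hz.1.1) (fun z hz => hHdrift z hz.1 hz.2)
    (fun z hz => by linarith [hHnonneg z hz.1.2.2.1]) ?_ ?_ (fun z hz => hUdrift z hz.1 hz.2) ?_
  · -- conclusion
    obtain ⟨δ', hδ', hδ'δ, hδ'A⟩ : ∃ δ' : ℝ, 0 < δ' ∧ δ' ≤ δ ∧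
        A * δ' ^ 2 + 1 / δ * (((k + 1 : ℕ) : ℝ) ^ 2 * δ') ≤ 1 / 2 := by
      have hB0 : 0 < A + 1 / δ * (((k + 1 : ℕ) : ℝ) ^ 2) := by positivity
      refine ⟨min δ (1 / (2 * (A + 1 / δ * (((k + 1 : ℕ) : ℝ) ^ 2)))), ?_, min_le_left _ _, ?_⟩
      · exact lt_min hδ (by positivity)
      · obtain ⟨x, hx⟩ : ∃ x, x = min δ (1 / (2 * (A + 1 / δ * (((k + 1 : ℕ) : ℝ) ^ 2)))) :=
          ⟨_, rfl⟩
        rw [← hx]
        have hx0 : 0 < x := by rw [hx]; exact lt_min hδ (by positivity)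
        have hx1 : x ≤ 1 := by rw [hx]; exact (min_le_left _ _).trans hd8
        have hx2 : x ≤ 1 / (2 * (A + 1 / δ * (((k + 1 : ℕ) : ℝ) ^ 2))) := by
          rw [hx]; exact min_le_right _ _
        rw [le_div_iff₀ (by positivity)] at hx2
        have hx3 : A * x ^ 2 ≤ A * x := by
          exact mul_le_mul_of_nonneg_left (sq_le_of_le_one' hx0 hx1) hA0.le
        linarith
    obtain ⟨z, hz, hfz⟩ := hR δ' hδ' (ε / 4) (by positivity)
    have hz' : F.Reg δ δ z := F.Reg_mono hδ'.le hδ'.le hδ'δ hδ'δ z hz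
    have h1 := hmin z ⟨hz', by linarith⟩
    have hal : 0 < F.a (Fin.last k) (nR z) := hz.2.2.1 _
    have h2 : F.o2 (nR z) / F.a (Fin.last k) (nR z) ^ 2 ≤ δ' ^ 2 := by
      rw [div_le_iff₀ (by positivity)]
      exact hz.2.2.2.2.1 _
    have h3 := (F.xs_le δ' δ' hδ'.le z hz).2
    have h4 : H z ≤ 1 / 2 := by
      rw [hH]
      simp only
      have h5 : A * (F.o2 (nR z) / F.a (Fin.last k) (nR z) ^ 2) ≤ A * δ' ^ 2 :=
        mul_le_mul_of_nonneg_left h2 hA0.le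
      have h6 : 1 / δ * F.xs z ≤ 1 / δ * (((k + 1 : ℕ) : ℝ) ^ 2 * δ') :=
        mul_le_mul_of_nonneg_left h3 (by positivity)
      linarith
    have h7 : ε / 2 * (1 / 2) ≤ ε / 2 * (1 - H z) :=
      mul_le_mul_of_nonneg_left (by linarith) (by positivity)
    linarith
  · -- exits
    rintro z ⟨hz, hfz⟩ w hw hnot
    obtain ⟨hr1, -, hr3, -, -⟩ := hstep δ δ hδ le_rfl hd6 z hz w hw
    obtain ⟨z', hz'⟩ : ∃ z', z' = step G z w := ⟨_, rfl⟩
    rw [← hz'] at hr1 hr3 hnot ⊢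
    have hapos : ∀ j, 0 < F.a j (nR z') := hr1.2.2.1
    have hHz' := hHnonneg z' hapos
    by_cases hfz' : ε ≤ f z'
    · exact Or.inl ⟨hfz', by linarith⟩
    · right
      push Not at hfz'
      have hnr : ¬ F.Reg δ δ z' := fun h => hnot ⟨h, hfz'⟩
      have hal : 0 < F.a (Fin.last k) (nR z') := hapos _
      obtain ⟨-, hf2⟩ := hfacts (2 * δ) (2 * δ) (by linarith) (by linarith) (by linarith)
        (by linarith) z' hr1
      have hxs0 := F.xs_nonneg z' hapos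
      have ho0 := F.o2_nonneg (nR z')
      have hbig : δ ^ 2 * F.a (Fin.last k) (nR z') ^ 2 < F.o2 (nR z') → 1 ≤ H z' := by
        intro h
        have h1 : δ ^ 2 ≤ F.o2 (nR z') / F.a (Fin.last k) (nR z') ^ 2 := by
          rw [le_div_iff₀ (by positivity)]; exact h.le
        rw [hH]
        simp only
        have h2 : A * δ ^ 2 ≤ A * (F.o2 (nR z') / F.a (Fin.last k) (nR z') ^ 2) :=
          mul_le_mul_of_nonneg_left h1 hA0.le
        have h3 : 0 ≤ 1 / δ * F.xs z' := by positivity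
        linarith
      by_cases hrat : ∀ i j, i < j → F.a j (nR z') ≤ δ * F.a i (nR z')
      · by_cases hoo : ∀ j, F.o2 (nR z') ≤ δ ^ 2 * F.a j (nR z') ^ 2
        · have htt : ¬ ∀ j, tot z' ≤ δ ^ 2 * F.a j (nR z') ^ 2 := fun h =>
            hnr ⟨hr1.1, hr1.2.1, hapos, hrat, hoo, h⟩
          push Not at htt
          obtain ⟨j, hj⟩ := htt
          apply hbig
          have h1 : F.a (Fin.last k) (nR z') ^ 2 ≤ F.a j (nR z') ^ 2 :=
            pow_le_pow_left₀ hal.le (hf2.last_le j) 2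
          have h2 : δ ^ 2 * F.a (Fin.last k) (nR z') ^ 2 < tot z' :=
            lt_of_le_of_lt (mul_le_mul_of_nonneg_left h1 (by positivity)) hj
          obtain ⟨h3, h4, h5⟩ := o2facts z hz hfz
          have h6 := (key z hz hfz).1
          have h7 := (hlarge δ δ hδ le_rfl hd7 z hz).2.2 w hw
          rw [← hz'] at h7
          have h8 : F.o2 (nR z) - C6 * (Real.sqrt (F.o2 (nR z)) + 1) ≤ F.o2 (nR z') := by
            have := (abs_le.mp hr3).1
            linarith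
          have h9 : C6 * (Real.sqrt (F.o2 (nR z)) + 1) ≤ F.o2 (nR z) / 2 := by
            have e1 : 4 * C6 * Real.sqrt (F.o2 (nR z)) ≤ κ * Real.sqrt (F.o2 (nR z)) :=
              mul_le_mul_of_nonneg_right hκC6 (Real.sqrt_nonneg _)
            linarith
          have h10 : 4 * tot z ≤ κ ^ 2 * tot z := by
            exact mul_le_mul_of_nonneg_right hκ4 (by linarith [hz.1])
          linarith [h7.1]
        · push Not at hoo
          obtain ⟨j, hj⟩ := hoo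
          apply hbig
          have h1 : F.a (Fin.last k) (nR z') ^ 2 ≤ F.a j (nR z') ^ 2 :=
            pow_le_pow_left₀ hal.le (hf2.last_le j) 2
          exact lt_of_le_of_lt (mul_le_mul_of_nonneg_left h1 (by positivity)) hj
      · push Not at hrat
        obtain ⟨i, j, hij, hv⟩ := hrat
        have h1 := F.xs_gt δ z' hapos i j hij hv
        rw [hH]
        simp only
        have h2 : 0 ≤ A * (F.o2 (nR z') / F.a (Fin.last k) (nR z') ^ 2) := by positivity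
        have h3 : 1 / δ * δ ≤ 1 / δ * F.xs z' := mul_le_mul_of_nonneg_left h1.le (by positivity)
        have h4 : 1 / δ * δ = 1 := by field_simp
        linarith
  · -- lower bound for `U`
    rintro z ⟨hz, hfz⟩
    obtain ⟨-, hf2⟩ := hfacts δ δ hδ.le (by linarith) hδ.le (by linarith) z hz
    have ha0 : 0 < F.a 0 (nR z) := hz.2.2.1 0
    have h6 := (key z hz hfz).1
    rw [le_div_iff₀ ha0]
    have h7 : κ ^ 2 * F.a 0 (nR z) ≤ κ ^ 2 * tot z :=
      mul_le_mul_of_nonneg_left hf2.zero_le_tot (by positivity)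
    linarith
  · rintro z ⟨hz, hfz⟩ w hw hnot
    obtain ⟨hr1, -, -, -, -⟩ := hstep δ δ hδ le_rfl hd6 z hz w hw
    have h1 : 0 < F.a 0 (nR (step G z w)) := hr1.2.2.1 0
    have h2 := F.o2_nonneg (nR (step G z w))
    positivity

end UC
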