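import Pool.Agent.helper25.UC.X1
import Pool.Agent.helper25.UC.A3

/-!
# X3 : the limit direction is balanced at neutral vertices where it vanishes

Let `v ∉ I`, `e v = 0`, `b` a colour with `Lf σ b v e_j = 0` for all `j`.  Claim
`L := Lf c0 b v e ≤ 0`.  Suppose `L > 0`.  Fix `η0 > 0` (small, see the end).  For large `n`
compare the maximiser `(c0, r_n)` with `(c', r')`: `c' = update c0 v b`,
`r' = update r_n v (η0 R_n)`, `R_n = √o2(r_n)`.  It is admissible.  Let `ρ_n = rho(r_n)`.
* `a_j` are unchanged (`e_j(v) = 0`).  No loops in `G`, so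
  `Th(c',r') - Th(c0,r_n) = 2η0R_n Lf c0 b v r_n - 2 r_n(v) Lf c0 (c0 v) v r_n
     - E2 (η0²R_n² - r_n(v)²)`.
* `Lf c0 b v r_n = Lf c0 b v ρ_n` (`field`, neutral), `/R_n → L`.
* `r_n(v) = ρ_n(v)`, `r_n(v)/R_n → e v = 0`; if `r_n(v) > 0` then (`neutral`) `Lf c0 (c0 v) v r_n =
  Lf c0 (c0 v) v ρ_n`, which is `≤ n0 R_n` in absolute value (`Lf_le`); so the second term is
  `o(R_n²)` (it is `0` if `r_n(v) = 0`).
* `dsq` changes by `(n_v - ε η0R_n)² - (n_v - ε r_n(v))² ≤ (n_v + η0 R_n)²`, and
  `n_v ≤ |n_v - ε r_n(v)| + r_n(v) ≤ d_n + r_n(v) = o(R_n)`.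
Maximality, divided by `R_n²`, in the limit: `0 ≥ 2η0 L - Es η0² - η0²/τ`.  For `η0` small this is
false.
-/

namespace UC
open Finset Filter
variable {V : Type} [Fintype V] [DecidableEq V] {s k : ℕ}
variable {G : SimpleGraph V} [DecidableRel G.Adj]
variable {F : Flag G s k} {τ : ℝ} {f : St V s → ℝ} {Es : ℝ} {c0 : V → Fin s} {e : V → ℝ}
  {E2 : ℕ → ℝ} {z : ℕ → St V s} {r : ℕ → V → ℝ}

omit [DecidableEq V] in
theorem Lf_update_off (c : V → Fin s) (b b' : Fin s) (v : V) (x : V → ℝ) (t : ℝ) [DecidableEq V] :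
    Lf G (Function.update c v b') b v (Function.update x v t) = Lf G c b v x := by
  unfold Lf
  apply Finset.sum_congr rfl
  intro u _
  by_cases hu : G.Adj v u
  · have hne : u ≠ v := fun h => by rw [h] at hu; exact G.loopless.irrefl v hu
    rw [Function.update_of_ne hne, Function.update_of_ne hne]
  · rw [if_neg hu, if_neg hu]

theorem AA_zero_at (c : V → Fin s) (v : V) (x : V → ℝ) :
    AA G c x c x = AA G c (Function.update x v 0) c (Function.update x v 0) +
      2 * x v * Lf G c (c v) v x := by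
  have h0 : ∀ u (a : Fin s), Lf G c a u x = Lf G c a u (Function.update x v 0) +
      (if G.Adj u v then eps a (c v) * x v else 0) := by
    intro u a
    unfold Lf
    rw [← Finset.add_sum_erase _ _ (Finset.mem_univ v), ← Finset.add_sum_erase (Finset.univ)
      (fun w => if G.Adj u w then eps a (c w) * Function.update x v 0 w else 0) (Finset.mem_univ v)]
    have h1 : ∑ w ∈ Finset.univ.erase v, (if G.Adj u w then eps a (c w) * x w else 0) =
        ∑ w ∈ Finset.univ.erase v, (if G.Adj u w then eps a (c w) * Function.update x v 0 w else 0) := by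
      apply Finset.sum_congr rfl
      intro w hw
      rw [Function.update_of_ne (Finset.ne_of_mem_erase hw)]
    rw [h1]
    simp only [Function.update_self, mul_zero, ite_self]
    ring
  have h2 : Lf G c (c v) v x = Lf G c (c v) v (Function.update x v 0) := by
    rw [h0 v (c v)]
    simp
  rw [AA_eq_Lf, AA_eq_Lf]
  have h3 : ∑ u, x u * Lf G c (c u) u x = ∑ u, x u * Lf G c (c u) u (Function.update x v 0) +
      x v * Lf G c (c v) v x := by
    have h4 : ∀ u, x u * Lf G c (c u) u x = x u * Lf G c (c u) u (Function.update x v 0) +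
        x v * (if G.Adj v u then eps (c v) (c u) * x u else 0) := by
      intro u
      rw [h0 u (c u)]
      have h5 : (if G.Adj u v then eps (c u) (c v) * x v else 0) =
          (if G.Adj v u then eps (c v) (c u) * x v else 0) := by
        have e1 : eps (c u) (c v) = eps (c v) (c u) := by
          unfold eps
          by_cases h : c u = c v
          · rw [if_pos h, if_pos h.symm]
          · rw [if_neg h, if_neg (fun h' => h h'.symm)]
        rw [e1]
        simp only [G.adj_comm u v]
      rw [h5]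
      split_ifs <;> ring
    rw [Finset.sum_congr rfl (fun u _ => h4 u), Finset.sum_add_distrib, ← Finset.mul_sum]
    rfl
  rw [h3]
  have h6 : ∑ u, x u * Lf G c (c u) u (Function.update x v 0) =
      ∑ u, Function.update x v 0 u * Lf G c (c u) u (Function.update x v 0) +
        x v * Lf G c (c v) v (Function.update x v 0) := by
    rw [← Finset.add_sum_erase _ _ (Finset.mem_univ v), ← Finset.add_sum_erase (Finset.univ)
      (fun w => Function.update x v 0 w * Lf G c (c w) w (Function.update x v 0)) (Finset.mem_univ v)]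
    have h7 : ∑ w ∈ Finset.univ.erase v, x w * Lf G c (c w) w (Function.update x v 0) =
        ∑ w ∈ Finset.univ.erase v, Function.update x v 0 w * Lf G c (c w) w (Function.update x v 0) := by
      apply Finset.sum_congr rfl
      intro w hw
      rw [Function.update_of_ne (Finset.ne_of_mem_erase hw)]
    rw [h7]
    simp only [Function.update_self, zero_mul]
    ring
  rw [h6, ← h2]
  ring

theorem AA_congr_zero (c c' : V → Fin s) (v : V) (x : V → ℝ) (hx : x v = 0)
    (hc : ∀ u, u ≠ v → c' u = c u) : AA G c' x c' x = AA G c x c x := by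
  unfold AA
  apply Finset.sum_congr rfl
  intro u _
  apply Finset.sum_congr rfl
  intro w _
  by_cases hu : u = v
  · rw [hu, hx]; simp
  · by_cases hw : w = v
    · rw [hw, hx]; simp
    · rw [hc u hu, hc w hw]

theorem AA_update (c : V → Fin s) (v : V) (b : Fin s) (x : V → ℝ) (t : ℝ) :
    AA G (Function.update c v b) (Function.update x v t) (Function.update c v b)
      (Function.update x v t) - AA G c x c x = 2 * t * Lf G c b v x - 2 * x v * Lf G c (c v) v x := by
  rw [AA_zero_at (Function.update c v b) v (Function.update x v t), AA_zero_at c v x]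
  have h1 : Function.update (Function.update x v t) v 0 = Function.update x v 0 := by
    simp
  rw [h1, AA_congr_zero c (Function.update c v b) v (Function.update x v 0) (by simp)
    (fun u hu => by rw [Function.update_of_ne hu])]
  rw [Function.update_self, Function.update_self, Lf_update_off]
  ring

theorem sum_sq_update (v : V) (x : V → ℝ) (t : ℝ) :
    ∑ u, Function.update x v t u ^ 2 = ∑ u, x u ^ 2 + t ^ 2 - x v ^ 2 := by
  rw [← Finset.add_sum_erase _ _ (Finset.mem_univ v), ← Finset.add_sum_erase (Finset.univ)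
      (fun w => x w ^ 2) (Finset.mem_univ v)]
  have h7 : ∑ w ∈ Finset.univ.erase v, Function.update x v t w ^ 2 =
      ∑ w ∈ Finset.univ.erase v, x w ^ 2 := by
    apply Finset.sum_congr rfl
    intro w hw
    rw [Function.update_of_ne (Finset.ne_of_mem_erase hw)]
  rw [h7, Function.update_self]
  ring

theorem dsq_update (c : V → Fin s) (y : V → ℝ) (c0 : V → Fin s) (v : V) (b : Fin s) (x : V → ℝ)
    (t : ℝ) : dsq c y (Function.update c0 v b) (Function.update x v t) - dsq c y c0 x =
      (y v - eps (c v) b * t) ^ 2 - (y v - eps (c v) (c0 v) * x v) ^ 2 := by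
  unfold dsq
  rw [← Finset.add_sum_erase _ _ (Finset.mem_univ v), ← Finset.add_sum_erase (Finset.univ)
      (fun w => (y w - eps (c w) (c0 w) * x w) ^ 2) (Finset.mem_univ v)]
  have h7 : ∑ w ∈ Finset.univ.erase v,
      (y w - eps (c w) (Function.update c0 v b w) * Function.update x v t w) ^ 2 =
      ∑ w ∈ Finset.univ.erase v, (y w - eps (c w) (c0 w) * x w) ^ 2 := by
    apply Finset.sum_congr rfl
    intro w hw
    rw [Function.update_of_ne (Finset.ne_of_mem_erase hw), Function.update_of_ne (Finset.ne_of_mem_erase hw)]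
  rw [h7, Function.update_self, Function.update_self]
  ring

theorem Flag.a_update (F : Flag G s k) (j : Fin k) (v : V) (hv : v ∉ F.I) (x : V → ℝ) (t : ℝ) :
    F.a j (Function.update x v t) = F.a j x := by
  unfold Flag.a
  apply Finset.sum_congr rfl
  intro u _
  by_cases hu : u = v
  · rw [hu, F.supp j v hv]; ring
  · rw [Function.update_of_ne hu]

/-- maximality against a change at one vertex -/
theorem IsMx_update (F : Flag G s k) {E τ : ℝ} {z : St V s} {c : V → Fin s} {x : V → ℝ}
    (hτ : 0 < τ) (h : F.IsMx E τ z c x) (v : V) (hv : v ∉ F.I) (b : Fin s) {t : ℝ} (ht : 0 ≤ t) :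
    2 * t * Lf G c b v x - 2 * x v * Lf G c (c v) v x - E * (t ^ 2 - x v ^ 2) ≤
      ((z.n v : ℝ) + t) ^ 2 / τ := by
  have hadm : F.Adm (Function.update c v b) (Function.update x v t) := by
    refine ⟨fun u hu => ?_, fun u hu => ?_⟩
    · have hne : u ≠ v := fun h' => hv (h' ▸ hu)
      rw [Function.update_of_ne hne]; exact h.1.1 u hu
    · by_cases huv : u = v
      · rw [huv, Function.update_self]; exact ht
      · rw [Function.update_of_ne huv]; exact h.1.2 u hu
  have h1 := h.2 _ _ hadm
  unfold Flag.val Flag.Th at h1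
  have e1 := AA_update (G := G) c v b x t
  have e2 := sum_sq_update v x t
  have e3 := dsq_update z.c (nR z) c v b x t
  simp only [F.a_update _ v hv] at h1
  have e4 : dsq z.c (nR z) (Function.update c v b) (Function.update x v t) =
      dsq z.c (nR z) c x + ((nR z v - eps (z.c v) b * t) ^ 2 - (nR z v - eps (z.c v) (c v) * x v) ^ 2) := by
    linarith
  rw [e2, e4, add_div] at h1
  have e5 : (nR z v - eps (z.c v) b * t) ^ 2 - (nR z v - eps (z.c v) (c v) * x v) ^ 2 ≤
      ((z.n v : ℝ) + t) ^ 2 := by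
    have e6 : (nR z v - eps (z.c v) b * t) ^ 2 ≤ ((z.n v : ℝ) + t) ^ 2 := by
      have hn : (0 : ℝ) ≤ (z.n v : ℝ) := Nat.cast_nonneg _
      have e7 : nR z v = (z.n v : ℝ) := rfl
      rw [e7]
      unfold eps
      split_ifs
      · nlinarith [mul_nonneg hn ht]
      · nlinarith [mul_nonneg hn ht]
    have e8 := sq_nonneg (nR z v - eps (z.c v) (c v) * x v)
    linarith
  have e9 : ((nR z v - eps (z.c v) b * t) ^ 2 - (nR z v - eps (z.c v) (c v) * x v) ^ 2) / τ ≤
      ((z.n v : ℝ) + t) ^ 2 / τ := div_le_div_of_nonneg_right e5 hτ.le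
  nlinarith

theorem tendsto_Lf (c : V → Fin s) (a : Fin s) (v : V) {u : ℕ → V → ℝ} {e : V → ℝ}
    (hu : ∀ w, Tendsto (fun n => u n w) atTop (nhds (e w))) :
    Tendsto (fun n => Lf G c a v (u n)) atTop (nhds (Lf G c a v e)) := by
  unfold Lf
  apply tendsto_finset_sum
  intro w _
  split_ifs
  · exact (hu w).const_mul _
  · exact tendsto_const_nhds

theorem lim_bal (hτ : 0 < τ) (h : Lim F τ f Es c0 e E2 z r) (v : V) (hv : v ∉ F.I)
    (he : e v = 0) (b : Fin s) (hb : ∀ j, Lf G F.σ b v (F.e j) = 0) :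
    Lf G c0 b v e ≤ 0 := by
  by_contra hcon
  have hL : 0 < Lf G c0 b v e := not_le.1 hcon
  set L := Lf G c0 b v e with hLdef
  have hD : 0 < |Es| + 1 / τ + 1 := by positivity
  set η : ℝ := L / (|Es| + 1 / τ + 1) with hη
  have hη0 : 0 < η := div_pos hL hD
  let R : ℕ → ℝ := fun n => Real.sqrt (F.o2 (r n))
  have hR : ∀ n, 0 < R n := fun n => Real.sqrt_pos.2 (h.R_pos n)
  let u : ℕ → V → ℝ := fun n w => F.rho (r n) w / R n
  let m : ℕ → ℝ := fun n => ((z n).n v : ℝ) / R n
  have hu : ∀ w, Tendsto (fun n => u n w) atTop (nhds (e w)) := h.u_lim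
  have hrv : ∀ n, r n v = R n * u n v := by
    intro n
    have h1 : F.rho (r n) v = r n v := F.rho_off (r n) v hv
    show r n v = R n * (F.rho (r n) v / R n)
    rw [h1]
    field_simp [(hR n).ne']
  have hLfu : ∀ n (a : Fin s), Lf G c0 a v (F.rho (r n)) = R n * Lf G c0 a v (u n) := by
    intro n a
    rw [← Lf_smul]
    congr 1
    funext w
    show F.rho (r n) w = R n * (F.rho (r n) w / R n)
    field_simp [(hR n).ne']
  have hcσ : ∀ n, ∀ w ∈ F.I, c0 w = F.σ w := fun n => (h.mx n).1.1
  have hrv0 : ∀ n, 0 ≤ r n v := fun n => (h.mx n).1.2 v hv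
  have hLb : ∀ n, Lf G c0 b v (r n) = R n * Lf G c0 b v (u n) := by
    intro n
    rw [F.field c0 (r n) (hcσ n) v b]
    simp only [hb, mul_zero, Finset.sum_const_zero, zero_add]
    exact hLfu n b
  have hLc : ∀ n, r n v * Lf G c0 (c0 v) v (r n) = r n v * (R n * Lf G c0 (c0 v) v (u n)) := by
    intro n
    rcases eq_or_lt_of_le (hrv0 n) with h0 | h0
    · rw [← h0]; ring
    · rw [F.field c0 (r n) (hcσ n) v (c0 v)]
      have h1 := (h.facts n).neutral v hv h0
      simp only [h1, mul_zero, Finset.sum_const_zero, zero_add]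
      rw [hLfu n (c0 v)]
  have hineq : ∀ n, 2 * η * Lf G c0 b v (u n) - 2 * u n v * Lf G c0 (c0 v) v (u n) -
      E2 n * (η ^ 2 - u n v ^ 2) ≤ (m n + η) ^ 2 / τ := by
    intro n
    have h1 := IsMx_update F hτ (h.mx n) v hv b (t := η * R n) (by have := hR n; positivity)
    have hRn := hR n
    have h2 : 2 * (η * R n) * Lf G c0 b v (r n) - 2 * r n v * Lf G c0 (c0 v) v (r n) -
        E2 n * ((η * R n) ^ 2 - r n v ^ 2) = R n ^ 2 * (2 * η * Lf G c0 b v (u n) -
          2 * u n v * Lf G c0 (c0 v) v (u n) - E2 n * (η ^ 2 - u n v ^ 2)) := by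
      have h3 : 2 * r n v * Lf G c0 (c0 v) v (r n) = 2 * (r n v * (R n * Lf G c0 (c0 v) v (u n))) := by
        rw [← hLc n]; ring
      rw [h3, hLb n, hrv n]
      ring
    have h4 : (((z n).n v : ℝ) + η * R n) ^ 2 / τ = R n ^ 2 * ((m n + η) ^ 2 / τ) := by
      show (((z n).n v : ℝ) + η * R n) ^ 2 / τ = R n ^ 2 * ((((z n).n v : ℝ) / R n + η) ^ 2 / τ)
      field_simp
    rw [h2, h4] at h1
    exact le_of_mul_le_mul_left h1 (by positivity)
  have hm : Tendsto m atTop (nhds 0) := by
    have hup : ∀ n, m n ≤ Real.sqrt (dsq (z n).c (nR (z n)) c0 (r n)) / R n + u n v := by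
      intro n
      have hRn := hR n
      have h1 : (nR (z n) v - eps ((z n).c v) (c0 v) * r n v) ^ 2 ≤ dsq (z n).c (nR (z n)) c0 (r n) := by
        unfold dsq
        exact Finset.single_le_sum (f := fun v => (nR (z n) v - eps ((z n).c v) (c0 v) * r n v) ^ 2)
          (fun _ _ => sq_nonneg _) (Finset.mem_univ v)
      have h2 := (abs_le.1 (Real.abs_le_sqrt h1)).2
      have h3 : eps ((z n).c v) (c0 v) * r n v ≤ r n v := by
        have := hrv0 n
        unfold eps
        split_ifs <;> linarith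
      have h4 : nR (z n) v = ((z n).n v : ℝ) := rfl
      rw [h4] at h2
      have h5 : ((z n).n v : ℝ) ≤ Real.sqrt (dsq (z n).c (nR (z n)) c0 (r n)) + R n * u n v := by
        rw [← hrv n]; linarith
      show ((z n).n v : ℝ) / R n ≤ _
      rw [div_le_iff₀ hRn, add_mul, div_mul_cancel₀ _ hRn.ne']
      linarith
    have hlo : ∀ n, 0 ≤ m n := fun n => div_nonneg (Nat.cast_nonneg _) (hR n).le
    have hlim : Tendsto (fun n => Real.sqrt (dsq (z n).c (nR (z n)) c0 (r n)) / R n + u n v) atTop
        (nhds (0 + e v)) := h.d_lim.add (hu v)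
    rw [he, add_zero] at hlim
    exact squeeze_zero hlo hup hlim
  have hlimA : Tendsto (fun n => 2 * η * Lf G c0 b v (u n) - 2 * u n v * Lf G c0 (c0 v) v (u n) -
      E2 n * (η ^ 2 - u n v ^ 2)) atTop (nhds (2 * η * L - 2 * e v * Lf G c0 (c0 v) v e -
        Es * (η ^ 2 - e v ^ 2))) := by
    apply Tendsto.sub
    · apply Tendsto.sub
      · exact (tendsto_Lf c0 b v hu).const_mul _
      · exact ((hu v).const_mul _).mul (tendsto_Lf c0 (c0 v) v hu)
    · exact h.E2_lim.mul (tendsto_const_nhds.sub ((hu v).pow 2))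
  have hlimB : Tendsto (fun n => (m n + η) ^ 2 / τ) atTop (nhds ((0 + η) ^ 2 / τ)) :=
    ((hm.add tendsto_const_nhds).pow 2).div_const τ
  have hfin := le_of_tendsto_of_tendsto' hlimA hlimB hineq
  rw [he] at hfin
  have h1 : 2 * η * L ≤ Es * η ^ 2 + η ^ 2 / τ := by
    have e1 : (0 + η) ^ 2 / τ = η ^ 2 / τ := by rw [zero_add]
    rw [e1] at hfin
    nlinarith
  have h2 : Es * η ^ 2 + η ^ 2 / τ ≤ (|Es| + 1 / τ + 1) * η ^ 2 := by
    have e2 : Es * η ^ 2 ≤ |Es| * η ^ 2 := mul_le_mul_of_nonneg_right (le_abs_self _) (sq_nonneg _)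
    have e3 : η ^ 2 / τ = 1 / τ * η ^ 2 := by ring
    rw [e3]
    nlinarith [sq_nonneg η]
  have h3 : (|Es| + 1 / τ + 1) * η = L := by
    rw [hη]; field_simp
  have h4 : (|Es| + 1 / τ + 1) * η ^ 2 = L * η := by
    rw [pow_two, ← mul_assoc, h3]
  rw [h4] at h2
  nlinarith [mul_pos hL hη0]

end UC
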