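import Pool.Agent.helper25.UC.X2
import Pool.Agent.helper25.UC.X3

/-!
# X4 : the new flag, and it is reached

`F'`: `I' = I ∪ {v ∉ I : e v ≠ 0}`, `σ' = c0` (`= σ` on `I`), `e' = e_0,…,e_{k-1}, e`
(`Fin.snoc`), `E' = E_0, …, E_{k-1}, Es`.
* `supp`, `orth` (`lim_norm`, `lim_orth`), `cover` (`v ∈ I`: old; `v ∈ I' \ I`: `e v > 0`, all
  `e_j(v) = 0`).
* `eig` for the old `e_j` at `v ∈ I`: old (`Lf c0 = Lf σ` on vectors supported in `I`); at
  `v ∈ I' \ I`: `lim_neutral` gives `0 = E_j · 0`.  For `e`: `lim_eig`.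
* `bal` at `v ∉ I'` (so `e v = 0`): if some `Lf σ b v e_j ≠ 0` the old `bal` gives the first
  nonzero index with a negative value; otherwise `lim_bal`: `Lf c0 b v e ≤ 0`, either `= 0` (all
  zero) or `< 0` (the last index).
* `anti`, `half`, `nonneg`: from `E_i/2 ≤ Es ≤ E_j` and `0 ≤ Es`.

**Reach.**  Let `δ ≤ 1`, `ε > 0`.  For large `n` (`R_n, ρ_n, d_n` as in X2), `z = z_n`:
* `z ∈ Reg_F δ' δ'` for every prescribed `δ'`; `f z < ε`;
* matched on `I'`: for `v ∈ I' \ I`: `|n_v - ε(c_v, c0 v) r_n(v)| ≤ d_n = o(R_n)` and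
  `r_n(v)/R_n → e v > 0`.  If `c_v ≠ c0 v` then `n_v + r_n(v) ≤ d_n`, impossible; so
  `c_v = c0 v` and `n_v ≥ r_n(v) - d_n > 0`.
* `a'_k(z) := ∑ n_v e v`: as `z` is matched where `e ≠ 0`,
  `|∑ n_v e v - ∑ r_n(v) e v| ≤ d_n` (Cauchy-Schwarz, `∑e²=1`), and
  `∑ r_n e = ∑ ρ_n e` (`lim_orth`) `= R_n ∑ u_n(v) e(v)`, `∑ u_n e → 1`.  So `a'_k/R_n → 1`.
* `R_n ≤ √o2(z) + d_n` and `√o2(z) ≤ R_n + d_n`, so `√o2(z)/R_n → 1`; hence
  `a'_k ≤ 2√o2(z) ≤ 2δ' a_i ≤ δ a_i`; and `o2'(z) = o2(z) - a'_k² = o(R_n²) ≤ δ² a'_k²`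
  (`≤ δ² a_j²` for the others, since `a'_k ≤ a_j`); `tot z ≤ o2(z)/K ≤ δ² a'_k²` (`large`).
-/

namespace UC
open Finset Filter
variable {V : Type} [Fintype V] [DecidableEq V] {s k : ℕ}
variable {G : SimpleGraph V} [DecidableRel G.Adj]

/-- `F'` extends `F` by one direction -/
structure Flag.Extends (F : Flag G s k) (F' : Flag G s (k + 1)) : Prop where
  I_sub : F.I ⊆ F'.I
  σ_eq : ∀ v ∈ F.I, F'.σ v = F.σ v
  e_eq : ∀ j : Fin k, F'.e j.castSucc = F.e j
  E_eq : ∀ j : Fin k, F'.E j.castSucc = F.E j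

theorem Lf_eq_of_supp (F : Flag G s k) {c0 : V → Fin s} (hc : ∀ v ∈ F.I, c0 v = F.σ v)
    (b : Fin s) (v : V) (j : Fin k) : Lf G c0 b v (F.e j) = Lf G F.σ b v (F.e j) := by
  unfold Lf
  refine Finset.sum_congr rfl fun u _ => ?_
  by_cases hu : u ∈ F.I
  · rw [hc u hu]
  · rw [F.supp j u hu, mul_zero, mul_zero]

/-- the extended flag -/
noncomputable def newFlag (F : Flag G s k) (c0 : V → Fin s) (e : V → ℝ) (Es : ℝ)
    (h0 : 0 ≤ Es) (ha : ∀ j, Es ≤ F.E j) (hb : ∀ j, F.E j / 2 ≤ Es)
    (n1 : ∑ v, e v * e v = 1) (n2 : ∀ j, ∑ v, F.e j v * e v = 0)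
    (n3 : ∀ v, v ∉ F.I → 0 ≤ e v) (n4 : ∀ v ∈ F.I, c0 v = F.σ v)
    (n5 : ∀ v, (v ∈ F.I ∨ 0 < e v) → Lf G c0 (c0 v) v e = Es * e v)
    (n6 : ∀ v, v ∉ F.I → 0 < e v → ∀ j, Lf G F.σ (c0 v) v (F.e j) = 0)
    (n7 : ∀ v, v ∉ F.I → e v = 0 → ∀ b, (∀ j, Lf G F.σ b v (F.e j) = 0) →
      Lf G c0 b v e ≤ 0) : Flag G s (k + 1) where
  I := F.I ∪ univ.filter fun v => e v ≠ 0
  σ := c0
  e := Fin.snoc (α := fun _ => V → ℝ) F.e e
  E := Fin.snoc (α := fun _ => ℝ) F.E Es
  supp := by
    intro j v hv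
    simp only [mem_union, mem_filter, mem_univ, true_and, not_or, not_not] at hv
    induction j using Fin.lastCases with
    | last => rw [Fin.snoc_last]; exact hv.2
    | cast j => rw [Fin.snoc_castSucc]; exact F.supp j v hv.1
  orth := by
    intro i j
    induction i using Fin.lastCases with
    | last =>
      induction j using Fin.lastCases with
      | last => simp only [Fin.snoc_last, if_true]; exact n1
      | cast j =>
        simp only [Fin.snoc_last, Fin.snoc_castSucc]
        rw [if_neg (Fin.castSucc_lt_last j).ne']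
        rw [← n2 j]
        exact Finset.sum_congr rfl fun v _ => mul_comm _ _
    | cast i =>
      induction j using Fin.lastCases with
      | last =>
        simp only [Fin.snoc_last, Fin.snoc_castSucc]
        rw [if_neg (Fin.castSucc_lt_last i).ne]
        exact n2 i
      | cast j =>
        simp only [Fin.snoc_castSucc, Fin.castSucc_inj]
        exact F.orth i j
  cover := by
    intro v hv
    simp only [mem_union, mem_filter, mem_univ, true_and] at hv
    by_cases hI : v ∈ F.I
    · obtain ⟨j, hj, hj'⟩ := F.cover v hI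
      refine ⟨j.castSucc, by rw [Fin.snoc_castSucc]; exact hj, ?_⟩
      intro i hi
      induction i using Fin.lastCases with
      | last => exact absurd hi (not_lt.2 (Fin.castSucc_lt_last j).le)
      | cast i =>
        rw [Fin.snoc_castSucc]
        exact hj' i (Fin.castSucc_lt_castSucc_iff.1 hi)
    · have he : e v ≠ 0 := by
        rcases hv with hv | hv
        · exact absurd hv hI
        · exact hv
      refine ⟨Fin.last k, by rw [Fin.snoc_last]; exact lt_of_le_of_ne (n3 v hI) he.symm, ?_⟩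
      intro i hi
      induction i using Fin.lastCases with
      | last => exact absurd hi (lt_irrefl _)
      | cast i =>
        rw [Fin.snoc_castSucc]
        exact F.supp i v hI
  eig := by
    intro j v hv
    simp only [mem_union, mem_filter, mem_univ, true_and] at hv
    induction j using Fin.lastCases with
    | last =>
      rw [Fin.snoc_last, Fin.snoc_last]
      apply n5
      by_cases hI : v ∈ F.I
      · exact Or.inl hI
      · rcases hv with hv | hv
        · exact absurd hv hI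
        · exact Or.inr (lt_of_le_of_ne (n3 v hI) (Ne.symm hv))
    | cast j =>
      rw [Fin.snoc_castSucc, Fin.snoc_castSucc, Lf_eq_of_supp F n4]
      by_cases hI : v ∈ F.I
      · rw [n4 v hI]
        exact F.eig j v hI
      · rcases hv with hv | hv
        · exact absurd hv hI
        · rw [n6 v hI (lt_of_le_of_ne (n3 v hI) (Ne.symm hv)) j, F.supp j v hI, mul_zero]
  bal := by
    intro v hv a
    simp only [mem_union, mem_filter, mem_univ, true_and, not_or, not_not] at hv
    rcases F.bal v hv.1 a with h | ⟨j, hj, hj'⟩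
    · have h7 := n7 v hv.1 hv.2 a h
      rcases h7.lt_or_eq with h8 | h8
      · right
        refine ⟨Fin.last k, by rw [Fin.snoc_last]; exact h8, ?_⟩
        intro i hi
        induction i using Fin.lastCases with
        | last => exact absurd hi (lt_irrefl _)
        | cast i =>
          rw [Fin.snoc_castSucc, Lf_eq_of_supp F n4]
          exact h i
      · left
        intro i
        induction i using Fin.lastCases with
        | last => rw [Fin.snoc_last]; exact h8
        | cast i =>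
          rw [Fin.snoc_castSucc, Lf_eq_of_supp F n4]
          exact h i
    · right
      refine ⟨j.castSucc, by rw [Fin.snoc_castSucc, Lf_eq_of_supp F n4]; exact hj, ?_⟩
      intro i hi
      induction i using Fin.lastCases with
      | last => exact absurd hi (not_lt.2 (Fin.castSucc_lt_last j).le)
      | cast i =>
        rw [Fin.snoc_castSucc, Lf_eq_of_supp F n4]
        exact hj' i (Fin.castSucc_lt_castSucc_iff.1 hi)
  anti := by
    intro i j hij
    induction i using Fin.lastCases with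
    | last =>
      induction j using Fin.lastCases with
      | last => exact le_rfl
      | cast j => exact absurd hij (not_le.2 (Fin.castSucc_lt_last j))
    | cast i =>
      induction j using Fin.lastCases with
      | last => rw [Fin.snoc_last, Fin.snoc_castSucc]; exact ha i
      | cast j =>
        rw [Fin.snoc_castSucc, Fin.snoc_castSucc]
        exact F.anti i j (Fin.castSucc_le_castSucc_iff.1 hij)
  half := by
    intro i j
    induction i using Fin.lastCases with
    | last =>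
      induction j using Fin.lastCases with
      | last => rw [Fin.snoc_last]; linarith
      | cast j => rw [Fin.snoc_last, Fin.snoc_castSucc]; have := ha j; linarith
    | cast i =>
      induction j using Fin.lastCases with
      | last => rw [Fin.snoc_last, Fin.snoc_castSucc]; exact hb i
      | cast j =>
        rw [Fin.snoc_castSucc, Fin.snoc_castSucc]
        exact F.half i j
  nonneg := by
    intro j
    induction j using Fin.lastCases with
    | last => rw [Fin.snoc_last]; exact h0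
    | cast j => rw [Fin.snoc_castSucc]; exact F.nonneg j

theorem dsq_term_le (c : V → Fin s) (x : V → ℝ) (c' : V → Fin s) (y : V → ℝ) (v : V) :
    |x v - eps (c v) (c' v) * y v| ≤ Real.sqrt (dsq c x c' y) := by
  apply Real.abs_le_sqrt
  unfold dsq
  exact Finset.single_le_sum (f := fun v => (x v - eps (c v) (c' v) * y v) ^ 2)
    (fun v _ => sq_nonneg _) (mem_univ v)

section

variable {F : Flag G s k} {τ : ℝ} {f : St V s → ℝ} {Es : ℝ} {c0 : V → Fin s} {e : V → ℝ}
  {E2 : ℕ → ℝ} {z : ℕ → St V s} {r : ℕ → V → ℝ}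

/-- the state is eventually matched where `e v > 0` off `I` -/
theorem Lim.match_off (h : Lim F τ f Es c0 e E2 z r) {v : V} (hv : v ∉ F.I) (he : 0 < e v) :
    ∀ᶠ n in atTop, (z n).c v = c0 v ∧ 1 ≤ (z n).n v := by
  have h1 : ∀ᶠ n in atTop, e v / 2 < F.rho (r n) v / Real.sqrt (F.o2 (r n)) :=
    (h.u_lim v).eventually (lt_mem_nhds (by linarith))
  have h2 : ∀ᶠ n in atTop, Real.sqrt (dsq (z n).c (nR (z n)) c0 (r n)) /
      Real.sqrt (F.o2 (r n)) < e v / 2 := h.d_lim.eventually (gt_mem_nhds (by linarith))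
  filter_upwards [h1, h2] with n a b
  have hR : 0 < Real.sqrt (F.o2 (r n)) := Real.sqrt_pos.2 (h.R_pos n)
  rw [F.rho_off (r n) v hv] at a
  have hlt : Real.sqrt (dsq (z n).c (nR (z n)) c0 (r n)) < r n v := by
    have := b.trans a
    rwa [div_lt_div_iff_of_pos_right hR] at this
  have ht := dsq_term_le (z n).c (nR (z n)) c0 (r n) v
  have hn : (0 : ℝ) ≤ nR (z n) v := by unfold nR; positivity
  have hd0 := Real.sqrt_nonneg (dsq (z n).c (nR (z n)) c0 (r n))
  have hc : (z n).c v = c0 v := by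
    by_contra hne
    have he' : eps ((z n).c v) (c0 v) = -1 := by simp [eps, hne]
    rw [he'] at ht
    have := (abs_le.1 ht).2
    linarith
  refine ⟨hc, ?_⟩
  have he' : eps ((z n).c v) (c0 v) = 1 := by simp [eps, hc]
  rw [he', one_mul] at ht
  have h3 := (abs_le.1 ht).1
  have h4 : 0 < nR (z n) v := by linarith
  have h5 : (0 : ℝ) < ((z n).n v : ℝ) := h4
  exact_mod_cast h5

theorem Lim.match_on (h : Lim F τ f Es c0 e E2 z r) {v : V} (hv : v ∈ F.I) :
    ∀ᶠ n in atTop, (z n).c v = c0 v ∧ 1 ≤ (z n).n v := by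
  filter_upwards [h.reg 1 one_pos] with n hn
  obtain ⟨h1, h2⟩ := hn.2.1 v hv
  exact ⟨h1.trans (lim_color h v hv).symm, h2⟩

theorem Lim.match_all (h : Lim F τ f Es c0 e E2 z r) :
    ∀ᶠ n in atTop, ∀ v ∈ F.I ∪ univ.filter (fun v => e v ≠ 0),
      (z n).c v = c0 v ∧ 1 ≤ (z n).n v := by
  rw [Filter.eventually_all_finset]
  intro v hv
  by_cases hI : v ∈ F.I
  · exact h.match_on hI
  · simp only [mem_union, mem_filter, mem_univ, true_and] at hv
    rcases hv with hv | hv
    · exact absurd hv hI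
    · exact h.match_off hI (lt_of_le_of_ne (lim_nonneg h v hI) (Ne.symm hv))

theorem Lim.last_lim (h : Lim F τ f Es c0 e E2 z r) :
    Tendsto (fun n => (∑ v, nR (z n) v * e v) / Real.sqrt (F.o2 (r n))) atTop (nhds 1) := by
  have h1 : Tendsto (fun n => ∑ v, F.rho (r n) v / Real.sqrt (F.o2 (r n)) * e v) atTop
      (nhds (∑ v, e v * e v)) :=
    tendsto_finsetSum _ fun v _ => (h.u_lim v).mul_const (e v)
  rw [lim_norm h] at h1
  have h2 : ∀ v, Tendsto (fun n => (nR (z n) v - r n v) * e v / Real.sqrt (F.o2 (r n))) atTop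
      (nhds 0) := by
    intro v
    by_cases hv : e v = 0
    · simp only [hv, mul_zero, zero_div]
      exact tendsto_const_nhds
    · have hm : ∀ᶠ n in atTop, (z n).c v = c0 v ∧ 1 ≤ (z n).n v := by
        filter_upwards [h.match_all] with n hn
        exact hn v (mem_union_right _ (mem_filter.2 ⟨mem_univ _, hv⟩))
      have hd := h.d_lim.mul_const |e v|
      rw [zero_mul] at hd
      refine squeeze_zero_norm' ?_ hd
      filter_upwards [hm] with n hn
      have hR : 0 < Real.sqrt (F.o2 (r n)) := Real.sqrt_pos.2 (h.R_pos n)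
      have ht := dsq_term_le (z n).c (nR (z n)) c0 (r n) v
      have he' : eps ((z n).c v) (c0 v) = 1 := by simp [eps, hn.1]
      rw [he', one_mul] at ht
      rw [Real.norm_eq_abs, abs_div, abs_mul, abs_of_pos hR, div_mul_eq_mul_div]
      gcongr
  have h3 : Tendsto (fun n => ∑ v, (nR (z n) v - r n v) * e v / Real.sqrt (F.o2 (r n))) atTop
      (nhds (∑ _v : V, (0 : ℝ))) := tendsto_finsetSum _ fun v _ => h2 v
  rw [Finset.sum_const_zero] at h3
  have h4 := h3.add h1
  rw [zero_add] at h4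
  refine h4.congr fun n => ?_
  have e1 : ∑ v, F.rho (r n) v * e v = ∑ v, r n v * e v := by
    have e2 : ∀ v, F.rho (r n) v * e v =
        r n v * e v - ∑ j, F.a j (r n) * (F.e j v * e v) := by
      intro v
      unfold Flag.rho
      rw [sub_mul, Finset.sum_mul]
      congr 1
      exact Finset.sum_congr rfl fun j _ => by ring
    rw [Finset.sum_congr rfl fun v _ => e2 v, Finset.sum_sub_distrib, Finset.sum_comm]
    have e3 : ∑ j, ∑ v, F.a j (r n) * (F.e j v * e v) = 0 := by
      refine Finset.sum_eq_zero fun j _ => ?_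
      rw [← Finset.mul_sum, lim_orth h j, mul_zero]
    rw [e3, sub_zero]
  rw [← Finset.sum_div]
  have e4 : ∑ v, F.rho (r n) v / Real.sqrt (F.o2 (r n)) * e v =
      (∑ v, F.rho (r n) v * e v) / Real.sqrt (F.o2 (r n)) := by
    rw [Finset.sum_div]
    exact Finset.sum_congr rfl fun v _ => by ring
  rw [e4, e1, ← add_div, ← Finset.sum_add_distrib]
  congr 1
  exact Finset.sum_congr rfl fun v _ => by ring

theorem Lim.off_lim (h : Lim F τ f Es c0 e E2 z r) :
    Tendsto (fun n => Real.sqrt (F.o2 (nR (z n))) / Real.sqrt (F.o2 (r n))) atTop (nhds 1) := by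
  have h1 : Tendsto (fun n => Real.sqrt (F.o2 (nR (z n))) / Real.sqrt (F.o2 (r n)) - 1) atTop
      (nhds 0) := by
    refine squeeze_zero_norm (fun n => ?_) h.d_lim
    have hR : 0 < Real.sqrt (F.o2 (r n)) := Real.sqrt_pos.2 (h.R_pos n)
    have a := (h.facts n).rho_le
    have b := (h.facts n).rho_ge
    rw [Real.norm_eq_abs, div_sub_one hR.ne', abs_div, abs_of_pos hR]
    gcongr
    rw [abs_le]
    constructor <;> linarith
  have h2 := h1.add_const 1
  rw [zero_add] at h2
  refine h2.congr fun n => ?_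
  ring

end

theorem exists_flag {f : St V s → ℝ} (F : Flag G s k) (τ : ℝ)
    (hτ : 0 < τ) (hτ0 : τ ≤ tau0 V) (Es : ℝ) (h0 : 0 ≤ Es) (h1 : Es ≤ cV V + 1)
    (ha : ∀ j, Es ≤ F.E j) (hb : ∀ j, F.E j / 2 ≤ Es)
    (h : NearCrit F τ f Es) :
    ∃ F' : Flag G s (k + 1), F.Extends F' ∧ F'.E (Fin.last k) = Es ∧ Reach F' f := by
  obtain ⟨c0, e, E2, z, r, hL⟩ := exists_lim F τ hτ hτ0 Es h0 h1 h
  set F' : Flag G s (k + 1) := newFlag F c0 e Es h0 ha hb (lim_norm hL) (lim_orth hL)
    (lim_nonneg hL) (lim_color hL) (lim_eig hτ hL) (lim_neutral hL)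
    (lim_bal hτ hL) with hF'
  have hI' : F'.I = F.I ∪ univ.filter fun v => e v ≠ 0 := rfl
  have hσ' : F'.σ = c0 := rfl
  have he' : ∀ j : Fin k, F'.e j.castSucc = F.e j := fun j =>
    Fin.snoc_castSucc (α := fun _ => V → ℝ) e F.e j
  have hel : F'.e (Fin.last k) = e := Fin.snoc_last (α := fun _ => V → ℝ) e F.e
  have hE' : ∀ j : Fin k, F'.E j.castSucc = F.E j := fun j =>
    Fin.snoc_castSucc (α := fun _ => ℝ) Es F.E j
  have hEl : F'.E (Fin.last k) = Es := Fin.snoc_last (α := fun _ => ℝ) Es F.E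
  refine ⟨F', ⟨?_, ?_, he', hE'⟩, hEl, ?_⟩
  · rw [hI']; exact subset_union_left
  · intro v hv
    rw [hσ']; exact lim_color hL v hv
  intro δ hδ ε hε
  have hac : ∀ (x : V → ℝ) (j : Fin k), F'.a j.castSucc x = F.a j x := by
    intro x j
    unfold Flag.a
    rw [he' j]
  have hal : ∀ x : V → ℝ, F'.a (Fin.last k) x = ∑ v, x v * e v := by
    intro x
    unfold Flag.a
    rw [hel]
  have ho2 : ∀ x : V → ℝ, F'.o2 x = F.o2 x - F'.a (Fin.last k) x ^ 2 := by
    intro x
    unfold Flag.o2
    rw [Fin.sum_univ_castSucc]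
    simp only [hac]
    ring
  have hA := hL.last_lim
  have hB := hL.off_lim
  have q5 : ∀ᶠ n in atTop, 1 / 2 < (∑ v, nR (z n) v * e v) / Real.sqrt (F.o2 (r n)) :=
    hA.eventually (lt_mem_nhds (by norm_num))
  have q6 : ∀ᶠ n in atTop, (∑ v, nR (z n) v * e v) / Real.sqrt (F.o2 (r n)) -
      2 * (Real.sqrt (F.o2 (nR (z n))) / Real.sqrt (F.o2 (r n))) < 0 :=
    (hA.sub (hB.const_mul 2)).eventually (gt_mem_nhds (by norm_num))
  have q7 : ∀ᶠ n in atTop, (Real.sqrt (F.o2 (nR (z n))) / Real.sqrt (F.o2 (r n))) ^ 2 -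
      (1 + δ ^ 2) * ((∑ v, nR (z n) v * e v) / Real.sqrt (F.o2 (r n))) ^ 2 < 0 :=
    ((hB.pow 2).sub ((hA.pow 2).const_mul (1 + δ ^ 2))).eventually (gt_mem_nhds (by
      have : 0 < δ ^ 2 := by positivity
      linarith))
  have q8 : ∀ᶠ n in atTop, (Real.sqrt (F.o2 (nR (z n))) / Real.sqrt (F.o2 (r n))) ^ 2 -
      2 * ((∑ v, nR (z n) v * e v) / Real.sqrt (F.o2 (r n))) ^ 2 < 0 :=
    ((hB.pow 2).sub ((hA.pow 2).const_mul 2)).eventually (gt_mem_nhds (by norm_num))
  have hδ2 : 0 < δ / 2 := by positivity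
  obtain ⟨n, p1, p2, p3, p4, p5, p6, p7, p8⟩ := ((hL.reg (δ / 2) hδ2).and
    ((hL.small ε hε).and ((hL.large (2 / δ ^ 2) (by positivity)).and
      (hL.match_all.and (q5.and (q6.and (q7.and q8))))))).exists
  have hR : 0 < Real.sqrt (F.o2 (r n)) := Real.sqrt_pos.2 (hL.R_pos n)
  set R := Real.sqrt (F.o2 (r n)) with hRd
  set A := ∑ v, nR (z n) v * e v with hAd
  have hAl : F'.a (Fin.last k) (nR (z n)) = A := hal _
  have ho0 := F.o2_nonneg (nR (z n))
  set B := Real.sqrt (F.o2 (nR (z n))) with hBd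
  have hBsq : B ^ 2 = F.o2 (nR (z n)) := Real.sq_sqrt ho0
  have hB0 : 0 ≤ B := Real.sqrt_nonneg _
  have r5 : 0 < A := by
    rw [lt_div_iff₀ hR] at p5
    have : 0 < 1 / 2 * R := by positivity
    linarith
  have r6 : A < 2 * B := by
    have : A / R < 2 * B / R := by rw [mul_div_assoc]; linarith
    rwa [div_lt_div_iff_of_pos_right hR] at this
  have hR2 : 0 < R ^ 2 := by positivity
  have r7 : B ^ 2 < (1 + δ ^ 2) * A ^ 2 := by
    rw [div_pow, div_pow] at p7
    have : B ^ 2 / R ^ 2 < (1 + δ ^ 2) * A ^ 2 / R ^ 2 := by rw [mul_div_assoc]; linarith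
    rwa [div_lt_div_iff_of_pos_right hR2] at this
  have r8 : B ^ 2 < 2 * A ^ 2 := by
    rw [div_pow, div_pow] at p8
    have : B ^ 2 / R ^ 2 < 2 * A ^ 2 / R ^ 2 := by rw [mul_div_assoc]; linarith
    rwa [div_lt_div_iff_of_pos_right hR2] at this
  obtain ⟨g1, g2, g3, g4, g5, g6⟩ := p1
  refine ⟨z n, ⟨g1, ?_, ?_, ?_, ?_, ?_⟩, p2⟩
  · intro v hv
    rw [hI'] at hv
    rw [hσ']
    exact p4 v hv
  · intro j
    induction j using Fin.lastCases with
    | last => rw [hAl]; exact r5
    | cast j => rw [hac]; exact g3 j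
  · intro i j hij
    induction i using Fin.lastCases with
    | last => exact absurd hij (not_lt.2 (Fin.le_last j))
    | cast i =>
      induction j using Fin.lastCases with
      | last =>
        rw [hAl, hac]
        have h5 : B ≤ δ / 2 * F.a i (nR (z n)) := by
          rw [hBd]
          apply Real.sqrt_le_iff.2
          refine ⟨mul_nonneg hδ2.le (g3 i).le, ?_⟩
          rw [mul_pow]
          exact g5 i
        linarith
      | cast j =>
        rw [hac, hac]
        have h5 := g4 i j (Fin.castSucc_lt_castSucc_iff.1 hij)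
        have h6 : δ / 2 * F.a i (nR (z n)) ≤ δ * F.a i (nR (z n)) :=
          mul_le_mul_of_nonneg_right (by linarith) (g3 i).le
        linarith
  · intro j
    rw [ho2, hAl]
    induction j using Fin.lastCases with
    | last =>
      rw [hAl, ← hBsq]
      linarith
    | cast j =>
      rw [hac]
      have h5 := g5 j
      have h6 : (δ / 2) ^ 2 * F.a j (nR (z n)) ^ 2 ≤ δ ^ 2 * F.a j (nR (z n)) ^ 2 := by
        gcongr
        linarith
      have h7 : 0 ≤ A ^ 2 := sq_nonneg _
      linarith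
  · intro j
    induction j using Fin.lastCases with
    | last =>
      rw [hAl]
      rw [← hBsq, div_mul_eq_mul_div, div_le_iff₀ (by positivity)] at p3
      have h5 : 2 * tot (z n) < 2 * A ^ 2 * δ ^ 2 :=
        lt_of_le_of_lt p3 (mul_lt_mul_of_pos_right r8 (by positivity))
      linarith
    | cast j =>
      rw [hac]
      have h5 := g6 j
      have h6 : (δ / 2) ^ 2 * F.a j (nR (z n)) ^ 2 ≤ δ ^ 2 * F.a j (nR (z n)) ^ 2 := by
        gcongr
        linarith
      linarith

end UC
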