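import Pool.Agent.helper25.UC.X4
import Pool.Agent.helper25.UC.B5

/-!
# X5 : the new flag has `Inv`

`F'` extends `F` by `e := F'.e (last)` with rate `Es = F'.E (last)`.  `a' := a'_k(z) = ∑ n_v e v`.
Take `δo` small: below the `δ0`'s of `mx_facts`, `env_bounds`, `reg_facts1` for `F'`, `δo ≤ 1/4`,
and `4 δo ≤ c` (`c` of `reg_facts1`).  Given `δ1 > 0` put `ē := δ1/8`, (also `ē ≤ 1`);
`¬ Ext F τ f (Es + ē)` gives `δe, εe, Ke`.  Choose `δx ≤ δo` with `2δx ≤ δe`, `Ke δx² ≤ 1`.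
Let `z ∈ Reg_{F'} δx δo`, `env_{F'}^{Es}(z) ≥ δ1 a'²`.  Claim `f z ≥ εe`.
Let `(c,r)` be a maximiser for `F'`, `Es`, `d² = dsq ≤ 3 o2'(z) ≤ 3δo² a'²`.
1. `(c,r)` is admissible for `F`: colours on `I ⊆ I'` are `σ' = σ`; off `I'`: `r ≥ 0`; for
   `v ∈ I' \ I`: `r_v ≥ n_v - d ≥ c a' - 2δo a' > 0` (`Facts1.low`; same colour).
2. `Th_{F'}^{Es} = Th_F^{Es}` (the extra term has coefficient `E'_last - Es = 0`; `a_j` agree).
3. So `env_F^{Es+ē}(z) ≥ Th_F^{Es+ē}(c,r) - d²/τ = Th_F^{Es}(c,r) - ē o2_F(r) - d²/τ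
   = env_{F'}^{Es}(z) - ē o2_F(r)` (`Th_mono`), and `o2_F(r) = o2_{F'}(r) + a'(r)²`,
   `a'(r) = a'` (`a_eq`), `√o2_{F'}(r) ≤ √o2'(z) + d ≤ 3δo a' ≤ a'`; so `o2_F(r) ≤ 2a'²` and
   `env_F^{Es+ē}(z) ≥ (δ1 - 2ē) a'² ≥ 0`.
4. `z ∈ Reg_F δe δe`: matching, positivity, ratios: inherited (`δx ≤ δe`);
   `o2_F(z) = o2'(z) + a'² ≤ 2a'² ≤ 2δx² a_j² ≤ δe² a_j²`; `tot ≤ δx² a_j²`; and
   `Ke tot z ≤ Ke δx² a'² ≤ a'² ≤ o2_F(z)`.
5. Hence `f z ≥ εe` (otherwise `z` would contradict `¬Ext`).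
-/

namespace UC
open Finset Filter
variable {V : Type} [Fintype V] [DecidableEq V] {s k : ℕ}
variable {G : SimpleGraph V} [DecidableRel G.Adj]

theorem Flag.Extends.a_eq {F : Flag G s k} {F' : Flag G s (k + 1)} (hext : F.Extends F') (j : Fin k)
    (r : V → ℝ) : F'.a j.castSucc r = F.a j r := by
  unfold Flag.a
  rw [hext.e_eq]

theorem Flag.Extends.o2_eq {F : Flag G s k} {F' : Flag G s (k + 1)} (hext : F.Extends F')
    (r : V → ℝ) : F.o2 r = F'.o2 r + F'.a (Fin.last k) r ^ 2 := by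
  unfold Flag.o2
  rw [Fin.sum_univ_castSucc]
  simp only [hext.a_eq]
  ring

theorem Flag.Extends.Th_eq' {F : Flag G s k} {F' : Flag G s (k + 1)} (hext : F.Extends F')
    (c : V → Fin s) (r : V → ℝ) :
    F'.Th (F'.E (Fin.last k)) c r = F.Th (F'.E (Fin.last k)) c r := by
  unfold Flag.Th
  rw [Fin.sum_univ_castSucc]
  simp only [hext.a_eq, hext.E_eq]
  ring

theorem inv_of_extends {f : St V s → ℝ} (F : Flag G s k) (F' : Flag G s (k + 1)) (τ : ℝ)
    (hτ : 0 < τ) (hτ0 : τ ≤ tau0 V) (hext : F.Extends F')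
    (h1 : F'.E (Fin.last k) ≤ cV V + 1)
    (hn : ∀ E, F'.E (Fin.last k) < E → E ≤ cV V + 2 → ¬ Ext F τ f E) : Inv F' τ f := by
  have hcV : 0 ≤ cV V := Nat.cast_nonneg _
  obtain ⟨δm, hδm, hmx⟩ := F'.mx_facts τ hτ hτ0
  obtain ⟨δr, hδr, cc, hcc, C, hC, hrf⟩ := F'.reg_facts1
  set Es := F'.E (Fin.last k) with hEs
  have hEs0 : 0 ≤ Es := F'.nonneg _
  have hEsabs : |Es| ≤ cV V + 2 := by
    rw [abs_of_nonneg hEs0]; linarith
  set δo : ℝ := min (min δm δr) (min (1 / 4) (cc / 4)) with hδo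
  have hδo0 : 0 < δo := by
    rw [hδo]; positivity
  have hδo1 : δo ≤ δm := (min_le_left _ _).trans (min_le_left _ _)
  have hδo2 : δo ≤ δr := (min_le_left _ _).trans (min_le_right _ _)
  have hδo3 : δo ≤ 1 / 4 := (min_le_right _ _).trans (min_le_left _ _)
  have hδo4 : δo ≤ cc / 4 := (min_le_right _ _).trans (min_le_right _ _)
  refine ⟨δo, hδo0, ?_⟩
  intro δ1 hδ1
  set eb : ℝ := min (δ1 / 8) 1 with heb
  have heb0 : 0 < eb := by rw [heb]; positivity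
  have heb1 : eb ≤ δ1 / 8 := min_le_left _ _
  have heb2 : eb ≤ 1 := min_le_right _ _
  have hE2abs : |Es + eb| ≤ cV V + 2 := by
    rw [abs_of_nonneg (by linarith)]; linarith
  have hne := hn (Es + eb) (by linarith) (by linarith)
  unfold Ext at hne
  push Not at hne
  obtain ⟨δe, hδe, εe, hεe, Ke, hKe, hneg⟩ := hne
  set δx : ℝ := min (min δo (δe / 2)) (1 / (Ke + 1)) with hδx
  have hδx0 : 0 < δx := by rw [hδx]; positivity
  have hδx1 : δx ≤ δo := (min_le_left _ _).trans (min_le_left _ _)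
  have hδx2 : δx ≤ δe / 2 := (min_le_left _ _).trans (min_le_right _ _)
  have hδx3 : δx ≤ 1 / (Ke + 1) := min_le_right _ _
  refine ⟨δx, hδx0, εe, hεe, ?_⟩
  intro z hz henv
  by_contra hfz
  have hfz' : f z < εe := not_le.1 hfz
  obtain ⟨c, r, hcr⟩ := F'.exists_mx Es τ hEsabs hτ hτ0 z
  have hM := hmx Es hEsabs δx δo hδx0.le (hδx1.trans hδo1) hδo0.le hδo1 z hz c r hcr
  obtain ⟨-, hF1⟩ := hrf δx δo hδx0.le (hδx1.trans hδo2) hδo0.le hδo2 z hz
  obtain ⟨hz1, hz2, hz3, hz4, hz5, hz6⟩ := hz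
  set a' : ℝ := F'.a (Fin.last k) (nR z) with ha'
  have ha'0 : 0 < a' := hz3 _
  have ho2 : F'.o2 (nR z) ≤ δo ^ 2 * a' ^ 2 := hz5 _
  have hso2 : Real.sqrt (F'.o2 (nR z)) ≤ δo * a' := by
    apply Real.sqrt_le_iff.2
    refine ⟨by positivity, ?_⟩
    rw [mul_pow]; exact ho2
  have hsd : Real.sqrt (dsq z.c (nR z) c r) ≤ 2 * δo * a' := by
    apply Real.sqrt_le_iff.2
    refine ⟨by positivity, ?_⟩
    have h3 := hM.dist
    nlinarith [sq_nonneg (δo * a')]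
  have hadm : F.Adm c r := by
    refine ⟨fun v hv => ?_, fun v hv => ?_⟩
    · rw [hcr.1.1 v (hext.I_sub hv)]
      exact hext.σ_eq v hv
    · by_cases hv' : v ∈ F'.I
      · have e1 : c v = F'.σ v := hcr.1.1 v hv'
        have e2 : z.c v = F'.σ v := (hz2 v hv').1
        have e3 : eps (z.c v) (c v) = 1 := by unfold eps; rw [e1, e2]; simp
        have h4 : (nR z v - eps (z.c v) (c v) * r v) ^ 2 ≤ dsq z.c (nR z) c r := by
          unfold dsq
          exact Finset.single_le_sum (f := fun v => (nR z v - eps (z.c v) (c v) * r v) ^ 2)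
            (fun _ _ => sq_nonneg _) (Finset.mem_univ v)
        rw [e3, one_mul] at h4
        have h5 : |nR z v - r v| ≤ Real.sqrt (dsq z.c (nR z) c r) := Real.abs_le_sqrt h4
        have h6 := (abs_le.1 (h5.trans hsd)).2
        have h7 : cc * a' ≤ nR z v := hF1.low v hv'
        have h8 : 2 * δo * a' ≤ cc * a' := by nlinarith
        linarith
      · exact hcr.1.2 v hv'
  have henv' : F'.env Es τ z = F'.Th Es c r - dsq z.c (nR z) c r / τ := F'.env_eq Es τ z c r hcr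
  have hle : F.val (Es + eb) τ z c r ≤ F.env (Es + eb) τ z :=
    F.le_env (Es + eb) τ hE2abs hτ hτ0 z c r hadm
  have hval : F.val (Es + eb) τ z c r = F'.env Es τ z - eb * F.o2 r := by
    unfold Flag.val
    rw [F.Th_mono (Es + eb) Es c r, henv', hext.Th_eq']
    ring
  have hso2r : Real.sqrt (F'.o2 r) ≤ a' := by
    have := hM.rho_le
    nlinarith
  have ho2r : F'.o2 r ≤ a' ^ 2 := by
    have h9 := F'.o2_nonneg r
    have h10 := Real.sq_sqrt h9
    have h11 := Real.sqrt_nonneg (F'.o2 r)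
    nlinarith
  have ho2Fr : F.o2 r ≤ 2 * a' ^ 2 := by
    rw [hext.o2_eq, hM.a_eq]
    linarith
  have henvF : 0 ≤ F.env (Es + eb) τ z := by
    have h12 : eb * F.o2 r ≤ δ1 / 8 * (2 * a' ^ 2) := by
      apply mul_le_mul heb1 ho2Fr (F.o2_nonneg r) (by positivity)
    have h13 : 0 ≤ δ1 * a' ^ 2 := by positivity
    linarith
  have ho2F : F.o2 (nR z) = F'.o2 (nR z) + a' ^ 2 := hext.o2_eq _
  have ho2'0 := F'.o2_nonneg (nR z)
  have hδo5 : δo ^ 2 ≤ 1 := by nlinarith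
  have ho2F2 : F.o2 (nR z) ≤ 2 * a' ^ 2 := by
    rw [ho2F]; nlinarith [sq_nonneg a']
  have hδxe : δx ≤ δe := by linarith
  have hreg : F.Reg δe δe z := by
    refine ⟨hz1, fun v hv => ?_, fun j => ?_, fun i j hij => ?_, fun j => ?_, fun j => ?_⟩
    · rw [← hext.σ_eq v hv]
      exact hz2 v (hext.I_sub hv)
    · rw [← hext.a_eq]; exact hz3 _
    · rw [← hext.a_eq, ← hext.a_eq]
      have h14 := hz4 i.castSucc j.castSucc (by simpa using hij)
      have h15 := hz3 i.castSucc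
      nlinarith
    · have h16 := hz4 j.castSucc (Fin.last k) (Fin.castSucc_lt_last j)
      rw [hext.a_eq] at h16
      have h17 : 0 < F.a j (nR z) := by rw [← hext.a_eq]; exact hz3 _
      have h18 : a' ^ 2 ≤ (δx * F.a j (nR z)) ^ 2 := by
        apply pow_le_pow_left₀ ha'0.le h16
      have h19 : δx ^ 2 ≤ (δe / 2) ^ 2 := pow_le_pow_left₀ hδx0.le hδx2 2
      have h20 : 0 ≤ F.a j (nR z) ^ 2 := sq_nonneg _
      nlinarith [mul_le_mul_of_nonneg_right h19 h20]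
    · have h21 := hz6 j.castSucc
      rw [hext.a_eq] at h21
      have h22 : δx ^ 2 ≤ δe ^ 2 := pow_le_pow_left₀ hδx0.le hδxe 2
      exact h21.trans (mul_le_mul_of_nonneg_right h22 (sq_nonneg _))
  have hK : Ke * tot z ≤ F.o2 (nR z) := by
    have h23 : tot z ≤ δx ^ 2 * a' ^ 2 := hz6 _
    have h24 : Ke * δx ^ 2 ≤ 1 := by
      have h25 : (Ke + 1) * δx ≤ 1 := by
        have := mul_le_mul_of_nonneg_left hδx3 (by linarith : (0:ℝ) ≤ Ke + 1)
        rwa [mul_one_div_cancel (by positivity)] at this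
      nlinarith
    have h26 : Ke * tot z ≤ Ke * (δx ^ 2 * a' ^ 2) := mul_le_mul_of_nonneg_left h23 hKe.le
    have h27 : Ke * δx ^ 2 * a' ^ 2 ≤ 1 * a' ^ 2 := mul_le_mul_of_nonneg_right h24 (sq_nonneg _)
    rw [ho2F]
    nlinarith
  have := hneg z hreg hfz' hK
  linarith

end UC
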