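import Pool.Agent.helper25.UC.T0
import Pool.Agent.helper25.UC.T1
import Pool.Agent.helper25.UC.M2
import Pool.Agent.helper25.UC.N0
import Pool.Agent.helper25.UC.N1
import Pool.Agent.helper25.UC.X4
import Pool.Agent.helper25.UC.X5

/-!
# I1 : there is a terminal flag

`n0 = card V`.

**step_zero**: a flag `F1` of length `1` with `Reach`, `Inv`.  Let `F0` be the empty flag
(`I = ∅`, `σ` any colouring, e.g. `z.c` for the `z` from `BadF.bad`; `Fin 0` is empty).
`X := {E : -1 ≤ E ≤ n0 + 2, Ext F0 τ f E}` contains `[-1,0)` (`ext_zero`), is bounded by `n0 + 1`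
(`not_ext_zero`), downward closed in `[-1, ∞)` (`ext_mono`).  `Es := sSup X ∈ [0, n0+1]`; for
`-1 ≤ E < Es` `Ext` holds, for `Es < E ≤ n0+2` it fails.  `near_crit_zero`, `exists_flag`,
`inv_of_extends`.

**step_succ**: `F` of length `k+1` with `Reach`, `Inv`, not `Terminal`: a flag of length `k+2` with
`Reach`, `Inv`.  By `terminal_of_not_ext`, `Ext F τ f E` for all `E ∈ [-1, E_0/2)`.
`X` as above (nonempty: if `E_0/2 > -1` yes, `E_0 ≥ 0`), bounded by `E_l` (`not_ext`; `l = last`).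
`Es := sSup X`, `E_0/2 ≤ Es ≤ E_l ≤ n0` (`E_le`); `near_crit_succ`, `exists_flag`
(`E_j/2 ≤ E_0/2 ≤ Es ≤ E_l ≤ E_j` by `anti`), `inv_of_extends`.

**exists_terminal**: iterate; a flag of length `k` has `k ≤ card V` (`k_le`), so it must stop.
(Induction on `card V - k`.)
-/

namespace UC
open Finset
variable {V : Type} [Fintype V] [DecidableEq V] {s k : ℕ}
variable {G : SimpleGraph V} [DecidableRel G.Adj]

/-- the critical rate -/
theorem exists_crit {P : ℝ → Prop} {N lo B : ℝ}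
    (hmono : ∀ E E1, -1 ≤ E1 → E ≤ N → E1 ≤ E → P E → P E1)
    (hlo : ∀ E, -1 ≤ E → E < lo → P E) (hlo1 : -1 < lo) (hloN : lo ≤ N)
    (hB : ∀ E, B < E → E ≤ N → ¬ P E) :
    ∃ Es, lo ≤ Es ∧ Es ≤ B ∧ (∀ E, -1 ≤ E → E < Es → P E) ∧ (∀ E, Es < E → E ≤ N → ¬ P E) := by
  set X : Set ℝ := {E | -1 ≤ E ∧ E ≤ N ∧ P E} with hX
  have hne : X.Nonempty := ⟨-1, le_refl _, by linarith, hlo _ le_rfl hlo1⟩
  have hub : ∀ E ∈ X, E ≤ B := by
    intro E hE
    by_contra hcon
    exact hB E (not_le.1 hcon) hE.2.1 hE.2.2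
  have hbdd : BddAbove X := ⟨B, hub⟩
  have hlow : lo ≤ sSup X := by
    by_contra hcon
    have hcon' : sSup X < lo := not_le.1 hcon
    have h1 : max (-1) ((sSup X + lo) / 2) < lo := max_lt hlo1 (by linarith)
    have h2 : max (-1) ((sSup X + lo) / 2) ∈ X :=
      ⟨le_max_left _ _, by linarith, hlo _ (le_max_left _ _) h1⟩
    have h3 := le_csSup hbdd h2
    have h4 := le_max_right (-1) ((sSup X + lo) / 2)
    linarith
  refine ⟨sSup X, hlow, csSup_le hne hub, ?_, ?_⟩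
  · intro E hE1 hE2
    obtain ⟨E', hE', hlt⟩ := exists_lt_of_lt_csSup hne hE2
    exact hmono E' E hE1 hE'.2.1 hlt.le hE'.2.2
  · intro E hE1 hE2 hP
    have h1 : E ∈ X := ⟨by linarith, hE2, hP⟩
    have h2 := le_csSup hbdd h1
    linarith

/-- the empty flag -/
def emptyFlag (G : SimpleGraph V) [DecidableRel G.Adj] (σ : V → Fin s) : Flag G s 0 where
  I := ∅
  σ := σ
  e := fun j => j.elim0
  E := fun j => j.elim0
  supp := fun j => j.elim0
  orth := fun i => i.elim0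
  cover := fun v hv => absurd hv (Finset.notMem_empty v)
  eig := fun j => j.elim0
  bal := fun v _ a => Or.inl (fun j => j.elim0)
  anti := fun i => i.elim0
  half := fun i => i.elim0
  nonneg := fun j => j.elim0

theorem step_zero {f : St V s → ℝ} (hf : BadF G f) (τ : ℝ) (hτ : 0 < τ)
    (hτ0 : τ ≤ tau0 V) : ∃ F : Flag G s 1, Reach F f ∧ Inv F τ f := by
  obtain ⟨z0, -, -⟩ := hf.bad 1 one_pos
  have hcV : 0 ≤ cV V := Nat.cast_nonneg _
  let F0 : Flag G s 0 := emptyFlag G z0.c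
  obtain ⟨Es, h1, h2, h3, h4⟩ := exists_crit (P := Ext F0 τ f) (N := cV V + 2) (lo := 0)
    (B := cV V + 1) (fun E E1 a b c d => ext_mono F0 τ hτ hτ0 E E1 a b c d)
    (fun E a b => ext_zero hf F0 τ hτ hτ0 E a b) (by norm_num) (by linarith)
    (fun E a b => not_ext_zero F0 τ hτ hτ0 E a.le b)
  have hN : NearCrit F0 τ f Es := near_crit_zero hf F0 τ hτ hτ0 Es h1 h2 h3 h4
  obtain ⟨F', hext, hE, hR⟩ := exists_flag F0 τ hτ hτ0 Es h1 h2 (fun j => j.elim0)
    (fun j => j.elim0) hN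
  refine ⟨F', hR, ?_⟩
  exact inv_of_extends F0 F' τ hτ hτ0 hext (by rw [hE]; exact h2) (fun E a b => h4 E (by rw [hE] at a; exact a) b)

theorem step_succ {f : St V s → ℝ} (hf : BadF G f) (τ : ℝ) (hτ : 0 < τ)
    (hτ0 : τ ≤ tau0 V) (F : Flag G s (k + 1)) (hR : Reach F f) (hI : Inv F τ f)
    (hT : ¬ Terminal F f) : ∃ F' : Flag G s (k + 2), Reach F' f ∧ Inv F' τ f := by
  have hE0 : 0 ≤ F.E 0 := F.nonneg 0
  have hEl : F.E (Fin.last k) ≤ cV V := F.E_le _
  have hE0l : F.E 0 ≤ cV V := F.E_le _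
  obtain ⟨Es, h1, h2, h3, h4⟩ := exists_crit (P := Ext F τ f) (N := cV V + 2) (lo := F.E 0 / 2)
    (B := F.E (Fin.last k)) (fun E E1 a b c d => ext_mono F τ hτ hτ0 E E1 a b c d)
    (fun E a b => by
      by_contra hcon
      exact hT (terminal_of_not_ext hf F τ hτ hτ0 hR E a (by linarith) hcon))
    (by linarith) (by linarith)
    (fun E a b => not_ext hf F τ hτ hτ0 hI E a b)
  have hN : NearCrit F τ f Es := near_crit_succ hf F τ hτ hτ0 Es (by linarith) h2 h3 h4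
  obtain ⟨F', hext, hE, hR'⟩ := exists_flag F τ hτ hτ0 Es (by linarith) (by linarith)
    (fun j => h2.trans (F.anti j (Fin.last k) (Fin.le_last j)))
    (fun j => by
      have := F.anti 0 j (Fin.zero_le j)
      linarith) hN
  refine ⟨F', hR', ?_⟩
  exact inv_of_extends F F' τ hτ hτ0 hext (by rw [hE]; linarith)
    (fun E a b => h4 E (by rw [hE] at a; exact a) b)

theorem exists_terminal_aux {f : St V s → ℝ} (hf : BadF G f) (τ : ℝ) (hτ : 0 < τ)
    (hτ0 : τ ≤ tau0 V) (m : ℕ) : ∀ (k : ℕ) (F : Flag G s (k + 1)), Fintype.card V ≤ k + 1 + m →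
    Reach F f → Inv F τ f → ∃ (k : ℕ) (F : Flag G s (k + 1)), Reach F f ∧ Inv F τ f ∧ Terminal F f := by
  induction m with
  | zero =>
    intro k F hk hR hI
    by_cases hT : Terminal F f
    · exact ⟨k, F, hR, hI, hT⟩
    · exfalso
      obtain ⟨F', -, -⟩ := step_succ hf τ hτ hτ0 F hR hI hT
      have h1 : ((k + 2 : ℕ) : ℝ) ≤ (Fintype.card V : ℝ) := F'.k_le
      have h2 : k + 2 ≤ Fintype.card V := by exact_mod_cast h1
      omega
  | succ m ih =>
    intro k F hk hR hI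
    by_cases hT : Terminal F f
    · exact ⟨k, F, hR, hI, hT⟩
    · obtain ⟨F', hR', hI'⟩ := step_succ hf τ hτ hτ0 F hR hI hT
      exact ih (k + 1) F' (by omega) hR' hI'

theorem exists_terminal {f : St V s → ℝ} (hf : BadF G f) (τ : ℝ) (hτ : 0 < τ)
    (hτ0 : τ ≤ tau0 V) :
    ∃ (k : ℕ) (F : Flag G s (k + 1)), Reach F f ∧ Inv F τ f ∧ Terminal F f := by
  obtain ⟨F, hR, hI⟩ := step_zero hf τ hτ hτ0
  exact exists_terminal_aux hf τ hτ hτ0 (Fintype.card V) 0 F (by omega) hR hI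

end UC
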