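import Pool.Agent.helper25.UC.B1
import Pool.Agent.helper25.UC.B2
import Pool.Agent.helper25.UC.B6

/-!
# K1 : shifting a state by an integer vector

`shift z m` adds `m v` balls at `v` (same colours).  `m` will be supported on the vertices with
`e_0 v ≠ 0`.

**shift_step**: if `m v ≠ 0` implies `2 ≤ n_v` and `2 ≤ n_v + m_v`, then a step at any `w` commutes
with the shift.  (`u` with `m_u = 0`: same urn.  `u` with `m_u ≠ 0`: both urns are nonempty with the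
same colour, both change by the same `±1`; the colour is kept.)

**env_shift**: `env_τ(shift z m) ≥ env_{τ/2}(z) - 2|m|²/τ` (`n_v + m_v ≥ 0` where needed).  For any
`(c,r)`: `|n_v + m_v - ε r_v| ≤ |n_v - ε r_v| + |m_v|`, so
`dsq(shift) ≤ 2 dsq(z) + 2|m|²`.  Take `(c,r)` a maximiser for `z`, `τ/2`:
`val_τ(shift) ≥ Th - (2dsq + 2|m|²)/τ = val_{τ/2}(z) - 2|m|²/τ`.

**reg_shift**: `z ∈ Reg δ δ`, `|m| ≤ θ a_l`, `m` supported on `{e_0 ≠ 0}`, `δ,θ ≤ δ0`:
`shift z m ∈ Reg (2(δ+θ)) (2(δ+θ))`, and `n_v + m_v ≥ (c/2) a_0 ≥ 2`, `n_v ≥ c a_0 ≥ 2` where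
`e_0 v ≠ 0`.
Proof.  `n_v ≥ c a_0` (`Facts1.low0`), `|m_v| ≤ θ a_l ≤ (c/2) a_0`, and `a_0 ≥ 1/δ²` is large.
`a_j' = a_j + a_j(m)`, `|a_j(m)| ≤ |m| ≤ θ a_j`.  Ratio:
`a_j' ≤ (1+θ)δ a_i ≤ (1+θ)/(1-θ) δ a_i' ≤ 2δ a_i'`.  `√o2' ≤ √o2 + |m| ≤ (δ+θ) a_j ≤ 2(δ+θ)a_j'`.
`tot' ≤ tot + n0|m| ≤ δ² a_j² + n0 θ a_j ≤ 2δ² a_j² ≤ 4δ² a_j'²`, since `a_j ≥ 1/δ²`
(`n0 θ a_j ≤ n0θδ² a_j²`).  `tot' ≥ 1`: the urns with `e_0 v ≠ 0` are nonempty (`e_0 ≠ 0`).
Also `a_0' ≥ a_0/2`, `a_0' ≤ 2 a_0`, `a_l' ≥ a_l/2`, `tot' ≤ 2 tot`, `tot ≤ 2 tot'`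
(`n0|m| ≤ n0θ a_0 ≤ n0 θ tot`).
-/

namespace UC
open Finset
variable {V : Type} [Fintype V] [DecidableEq V] {s k : ℕ}
variable {G : SimpleGraph V} [DecidableRel G.Adj]

def shift (z : St V s) (m : V → ℤ) : St V s where
  n v := ((z.n v : ℤ) + m v).toNat
  c := z.c

/-- squared norm of `m` -/
def m2 (m : V → ℤ) : ℝ := ∑ v, (m v : ℝ) ^ 2

theorem shift_shift_neg (z : St V s) (m : V → ℤ) (h : ∀ v, 0 ≤ (z.n v : ℤ) + m v) :
    shift (shift z m) (fun v => - m v) = z := by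
  ext v
  · simp only [shift]
    have := h v
    omega
  · rfl

theorem shift_step (z : St V s) (m : V → ℤ)
    (h : ∀ v, m v ≠ 0 → 2 ≤ z.n v ∧ 2 ≤ (z.n v : ℤ) + m v) (w : V) (hw : 1 ≤ z.n w) :
    shift (step G z w) m = step G (shift z m) w := by
  ext u
  · have e1 : (shift (step G z w) m).n u = (((step G z w).n u : ℤ) + m u).toNat := rfl
    have e2 : (step G z w).n u = if G.Adj w u then
      (if z.n u = 0 then 1 else if z.c u = z.c w then z.n u + 1 else z.n u - 1) else z.n u := rfl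
    have e3 : (step G (shift z m) w).n u = if G.Adj w u then
      (if (shift z m).n u = 0 then 1 else if z.c u = z.c w then (shift z m).n u + 1
        else (shift z m).n u - 1) else (shift z m).n u := rfl
    have e4 : (shift z m).n u = ((z.n u : ℤ) + m u).toNat := rfl
    rw [e1, e2, e3]
    by_cases hm : m u = 0
    · rw [hm, add_zero] at e4
      split_ifs <;> omega
    · obtain ⟨h1, h2⟩ := h u hm
      split_ifs <;> omega
  · have e2 : (shift (step G z w) m).c u = if G.Adj w u ∧ z.n u = 0 then z.c w else z.c u := rfl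
    have e3 : (step G (shift z m) w).c u =
      if G.Adj w u ∧ (shift z m).n u = 0 then z.c w else z.c u := rfl
    have e4 : (shift z m).n u = ((z.n u : ℤ) + m u).toNat := rfl
    have e5 : (shift z m).n u = 0 ↔ z.n u = 0 := by
      by_cases hm : m u = 0
      · rw [hm, add_zero] at e4
        omega
      · obtain ⟨h1, h2⟩ := h u hm
        omega
    rw [e2, e3]
    simp only [e5]

theorem nR_shift (z : St V s) (m : V → ℤ) (h : ∀ v, 0 ≤ (z.n v : ℤ) + m v) (v : V) :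
    nR (shift z m) v = nR z v + m v := by
  simp only [nR, shift]
  have h1 : ((((z.n v : ℤ) + m v).toNat : ℕ) : ℤ) = (z.n v : ℤ) + m v := Int.toNat_of_nonneg (h v)
  have h2 : (((((z.n v : ℤ) + m v).toNat : ℕ) : ℤ) : ℝ) = (((z.n v : ℤ) + m v : ℤ) : ℝ) := by
    rw [h1]
  push_cast at h2
  exact h2

theorem Flag.env_shift (F : Flag G s k) (E τ : ℝ) (hE : |E| ≤ cV V + 2) (hτ : 0 < τ)
    (hτ0 : τ ≤ tau0 V) (z : St V s) (m : V → ℤ) (h : ∀ v, 0 ≤ (z.n v : ℤ) + m v) :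
    F.env E (τ / 2) z - 2 * m2 m / τ ≤ F.env E τ (shift z m) := by
  obtain ⟨c, r, hmx⟩ := F.exists_mx E (τ / 2) hE (by positivity) (by linarith) z
  rw [F.env_eq E (τ / 2) z c r hmx]
  refine le_trans ?_ (F.le_env E τ hE hτ hτ0 (shift z m) c r hmx.1)
  have hd : dsq (shift z m).c (nR (shift z m)) c r ≤ 2 * dsq z.c (nR z) c r + 2 * m2 m := by
    unfold dsq m2
    rw [mul_sum, mul_sum, ← sum_add_distrib]
    refine sum_le_sum fun v _ => ?_
    rw [nR_shift z m h]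
    have hc : (shift z m).c v = z.c v := rfl
    rw [hc]
    nlinarith [sq_nonneg (nR z v - eps (z.c v) (c v) * r v - m v)]
  unfold Flag.val
  have h1 : dsq (shift z m).c (nR (shift z m)) c r / τ ≤
      (2 * dsq z.c (nR z) c r + 2 * m2 m) / τ := by gcongr
  have h2 : dsq z.c (nR z) c r / (τ / 2) = 2 * dsq z.c (nR z) c r / τ := by
    field_simp
  have h3 : (2 * dsq z.c (nR z) c r + 2 * m2 m) / τ =
      2 * dsq z.c (nR z) c r / τ + 2 * m2 m / τ := by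
    rw [add_div]
  rw [h2]
  linarith

theorem K1_tot (z : St V s) (m : V → ℤ) (h : ∀ v, 0 ≤ (z.n v : ℤ) + m v) :
    tot (shift z m) = tot z + ∑ v, (m v : ℝ) := by
  have h1 : tot (shift z m) = ∑ v, nR (shift z m) v := rfl
  have h2 : tot z = ∑ v, nR z v := rfl
  rw [h1, h2, ← sum_add_distrib]
  exact sum_congr rfl fun v _ => nR_shift z m h v

theorem K1_abs (m : V → ℤ) (b : ℝ) (hb : 0 ≤ b) (hm : m2 m ≤ b ^ 2) (v : V) :
    |(m v : ℝ)| ≤ b := by
  have h1 : (m v : ℝ) ^ 2 ≤ m2 m := by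
    unfold m2
    exact single_le_sum (f := fun v => (m v : ℝ) ^ 2) (fun i _ => sq_nonneg _) (mem_univ v)
  exact abs_le_of_sq_le_sq (h1.trans hm) hb

theorem K1_sum_abs (m : V → ℤ) (b : ℝ) (hb : 0 ≤ b) (hm : m2 m ≤ b ^ 2) :
    |∑ v, (m v : ℝ)| ≤ cV V * b := by
  refine (abs_sum_le_sum_abs _ _).trans ?_
  calc ∑ v, |(m v : ℝ)| ≤ ∑ _v : V, b := sum_le_sum fun v _ => K1_abs m b hb hm v
    _ = cV V * b := by
      simp [cV]

theorem K1_dsq (σ : V → Fin s) (z : St V s) (m : V → ℤ) (h : ∀ v, 0 ≤ (z.n v : ℤ) + m v) :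
    dsq σ (nR (shift z m)) σ (nR z) = m2 m := by
  unfold dsq m2
  refine sum_congr rfl fun v _ => ?_
  rw [nR_shift z m h]
  simp [eps]

theorem Flag.reg_shift (F : Flag G s (k + 1)) : ∃ δ0 > 0, ∃ c > 0,
    ∀ δ θ : ℝ, 0 < δ → δ ≤ δ0 → 0 ≤ θ → θ ≤ δ0 → ∀ z, F.Reg δ δ z → ∀ m : V → ℤ,
      (∀ v, F.e 0 v = 0 → m v = 0) → m2 m ≤ θ ^ 2 * F.a (Fin.last k) (nR z) ^ 2 →
      F.Reg (2 * (δ + θ)) (2 * (δ + θ)) (shift z m) ∧
      (∀ v, F.e 0 v ≠ 0 → 2 ≤ z.n v ∧ 2 ≤ (z.n v : ℤ) + m v ∧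
        c * F.a 0 (nR z) ≤ (z.n v : ℝ) ∧ c * F.a 0 (nR z) ≤ (z.n v : ℝ) + m v) ∧
      F.a 0 (nR z) ≤ 2 * F.a 0 (nR (shift z m)) ∧
      F.a 0 (nR (shift z m)) ≤ 2 * F.a 0 (nR z) ∧
      F.a (Fin.last k) (nR z) ≤ 2 * F.a (Fin.last k) (nR (shift z m)) ∧
      tot (shift z m) ≤ 2 * tot z ∧ tot z ≤ 2 * tot (shift z m) ∧
      (∀ i j, i < j → F.a j (nR (shift z m)) / F.a i (nR (shift z m)) ≤ 2 * (δ + θ)) ∧
      F.o2 (nR (shift z m)) ≤ 2 * F.o2 (nR z) + 2 * m2 m := by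
  obtain ⟨δ1, hδ1, c1, hc1, C1, hC1, hfacts⟩ := F.reg_facts1
  obtain ⟨δ2, hδ2, hlarge⟩ := F.reg_large
  have hcv : 0 ≤ cV V := by
    unfold cV
    positivity
  obtain ⟨δ0, hδ0, b1, b2, b3, b4, b5, b6⟩ : ∃ δ0 : ℝ, 0 < δ0 ∧ δ0 ≤ δ1 ∧ δ0 ≤ δ2 ∧ δ0 ≤ 1 / 4 ∧
      δ0 ≤ c1 / 2 ∧ cV V * δ0 ≤ 1 / 2 ∧ δ0 ≤ c1 / 4 := by
    refine ⟨min δ1 (min δ2 (min (1 / 4) (min (c1 / 4) (1 / (2 * (cV V + 1)))))), ?_, min_le_left _ _,
      (min_le_right _ _).trans (min_le_left _ _),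
      (min_le_right _ _).trans ((min_le_right _ _).trans (min_le_left _ _)), ?_, ?_, ?_⟩
    · positivity
    · have := (min_le_right δ1 (min δ2 (min (1 / 4) (min (c1 / 4) (1 / (2 * (cV V + 1))))))).trans
        ((min_le_right _ _).trans ((min_le_right _ _).trans (min_le_left _ _)))
      linarith
    · have h1 := (min_le_right δ1 (min δ2 (min (1 / 4) (min (c1 / 4) (1 / (2 * (cV V + 1))))))).trans
        ((min_le_right _ _).trans ((min_le_right _ _).trans (min_le_right _ _)))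
      calc _ ≤ cV V * (1 / (2 * (cV V + 1))) := mul_le_mul_of_nonneg_left h1 hcv
        _ ≤ 1 / 2 := by
          rw [mul_one_div, div_le_div_iff₀ (by positivity) (by norm_num)]
          linarith
    · exact (min_le_right δ1 (min δ2 (min (1 / 4) (min (c1 / 4) (1 / (2 * (cV V + 1))))))).trans
        ((min_le_right _ _).trans ((min_le_right _ _).trans (min_le_left _ _)))
  refine ⟨δ0, hδ0, c1 / 2, by positivity, ?_⟩
  intro δ θ hδ hδδ hθ hθδ z hreg m hm0 hm2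
  obtain ⟨hF, hF1⟩ := hfacts δ δ hδ.le (hδδ.trans b1) hδ.le (hδδ.trans b1) z hreg
  obtain ⟨hL, hLt, -⟩ := hlarge δ δ hδ le_rfl (hδδ.trans b2) z hreg
  have hθ4 : θ ≤ 1 / 4 := hθδ.trans b3
  have hδ4 : δ ≤ 1 / 4 := hδδ.trans b3
  set al := F.a (Fin.last k) (nR z) with hal
  have hal1 : 1 ≤ al := hF1.one_le
  have hb : 0 ≤ θ * al := by positivity
  have hmb : m2 m ≤ (θ * al) ^ 2 := by
    rw [mul_pow]
    exact hm2
  have hmv := K1_abs m (θ * al) hb hmb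
  have hδsq : δ ^ 2 ≤ c1 / 16 := by
    have h1 : δ ≤ c1 / 4 := hδδ.trans b6
    nlinarith
  have ha0L : 1 / δ ^ 2 ≤ F.a 0 (nR z) := hL 0
  have ha0 : 0 < F.a 0 (nR z) := lt_of_lt_of_le (by positivity) ha0L
  have hbig : 16 ≤ c1 * F.a 0 (nR z) := by
    rw [div_le_iff₀ (by positivity)] at ha0L
    have h1 : F.a 0 (nR z) * δ ^ 2 ≤ F.a 0 (nR z) * (c1 / 16) :=
      mul_le_mul_of_nonneg_left hδsq ha0.le
    linarith
  have hala0 : al ≤ F.a 0 (nR z) := hF1.last_le 0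
  have hθa0 : θ * al ≤ c1 / 2 * F.a 0 (nR z) := by
    calc θ * al ≤ (c1 / 2) * al := mul_le_mul_of_nonneg_right (hθδ.trans b4) (by linarith)
      _ ≤ _ := mul_le_mul_of_nonneg_left hala0 (by positivity)
  have h2 : ∀ v, F.e 0 v ≠ 0 → 2 ≤ z.n v ∧ 2 ≤ (z.n v : ℤ) + m v ∧
        c1 / 2 * F.a 0 (nR z) ≤ (z.n v : ℝ) ∧ c1 / 2 * F.a 0 (nR z) ≤ (z.n v : ℝ) + m v := by
    intro v hv
    have h1 := hF1.low0 v hv
    have h3 := (abs_le.1 (hmv v)).1
    refine ⟨?_, ?_, ?_, ?_⟩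
    · have : (2 : ℝ) ≤ z.n v := by linarith
      exact_mod_cast this
    · have : (2 : ℝ) ≤ z.n v + m v := by linarith
      exact_mod_cast this
    · linarith
    · linarith
  have hnn : ∀ v, 0 ≤ (z.n v : ℤ) + m v := by
    intro v
    by_cases hv : F.e 0 v = 0
    · rw [hm0 v hv]
      positivity
    · have := (h2 v hv).2.1
      omega
  have hσ := K1_dsq F.σ z m hnn
  have hsq : Real.sqrt (m2 m) ≤ θ * al := by
    rw [← Real.sqrt_sq hb]
    exact Real.sqrt_le_sqrt hmb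
  have haj : ∀ j, |F.a j (nR (shift z m)) - F.a j (nR z)| ≤ θ * al := by
    intro j
    have := F.a_sub_le F.σ F.σ (nR (shift z m)) (nR z) (fun _ _ => rfl) (fun _ _ => rfl) j
    rw [hσ] at this
    exact this.trans hsq
  have hajp : ∀ j, 0 < F.a j (nR z) := hreg.2.2.1
  have hlj : ∀ j, θ * al ≤ θ * F.a j (nR z) := fun j => mul_le_mul_of_nonneg_left (hF1.last_le j) hθ
  have hlo : ∀ j, (1 - θ) * F.a j (nR z) ≤ F.a j (nR (shift z m)) := by
    intro j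
    have h1 := (abs_le.1 (haj j)).1
    have h3 := hlj j
    linarith
  have hhi : ∀ j, F.a j (nR (shift z m)) ≤ (1 + θ) * F.a j (nR z) := by
    intro j
    have h1 := (abs_le.1 (haj j)).2
    have h3 := hlj j
    linarith
  have hlo' : ∀ j, 3 / 4 * F.a j (nR z) ≤ F.a j (nR (shift z m)) := by
    intro j
    refine le_trans ?_ (hlo j)
    exact mul_le_mul_of_nonneg_right (by linarith) (hajp j).le
  have hpos' : ∀ j, 0 < F.a j (nR (shift z m)) := fun j =>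
    lt_of_lt_of_le (mul_pos (by norm_num) (hajp j)) (hlo' j)
  have hratio : ∀ i j, i < j → F.a j (nR (shift z m)) ≤ 2 * (δ + θ) * F.a i (nR (shift z m)) := by
    intro i j hij
    have h1 := hreg.2.2.2.1 i j hij
    calc F.a j (nR (shift z m)) ≤ (1 + θ) * F.a j (nR z) := hhi j
      _ ≤ (1 + θ) * (δ * F.a i (nR z)) := mul_le_mul_of_nonneg_left h1 (by linarith)
      _ = ((1 + θ) * δ) * F.a i (nR z) := by ring
      _ ≤ (2 * (δ + θ) * (1 - θ)) * F.a i (nR z) := by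
          refine mul_le_mul_of_nonneg_right ?_ (hajp i).le
          have e1 : (1 + θ) * δ ≤ 5 / 4 * δ := mul_le_mul_of_nonneg_right (by linarith) hδ.le
          have e2 : 2 * (δ + θ) * (3 / 4) ≤ 2 * (δ + θ) * (1 - θ) :=
            mul_le_mul_of_nonneg_left (by linarith) (by linarith)
          linarith
      _ = 2 * (δ + θ) * ((1 - θ) * F.a i (nR z)) := by ring
      _ ≤ 2 * (δ + θ) * F.a i (nR (shift z m)) :=
          mul_le_mul_of_nonneg_left (hlo i) (by linarith)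
  have htot := K1_tot z m hnn
  have hsum := K1_sum_abs m (θ * al) hb hmb
  have hsum1 := abs_le.1 hsum
  have hcθ : cV V * θ ≤ 1 / 2 := (mul_le_mul_of_nonneg_left hθδ hcv).trans b5
  have htpos : 0 < tot z := by linarith [hreg.1]
  have hnθ : cV V * (θ * al) ≤ 1 / 2 * tot z := by
    calc cV V * (θ * al) = (cV V * θ) * al := by ring
      _ ≤ 1 / 2 * al := mul_le_mul_of_nonneg_right hcθ (by linarith)
      _ ≤ 1 / 2 * tot z := by
        have := hF1.zero_le_tot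
        linarith
  have ht1 : tot (shift z m) ≤ 2 * tot z := by
    rw [htot]
    linarith
  have ht2 : tot z ≤ 2 * tot (shift z m) := by
    rw [htot]
    linarith
  have hsqo : Real.sqrt (F.o2 (nR (shift z m))) ≤ Real.sqrt (F.o2 (nR z)) + Real.sqrt (m2 m) := by
    have := F.sqrt_o2_sub_le F.σ F.σ (nR (shift z m)) (nR z) (fun _ _ => rfl) (fun _ _ => rfl)
    rwa [hσ] at this
  have ho' := F.o2_nonneg (nR (shift z m))
  have ho := F.o2_nonneg (nR z)
  have hm2n : 0 ≤ m2 m := by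
    unfold m2
    positivity
  refine ⟨⟨?_, ?_, hpos', hratio, ?_, ?_⟩, h2, ?_, ?_, ?_, ht1, ht2, ?_, ?_⟩
  · have h1 : 16 ≤ 1 / δ ^ 2 := by
      rw [le_div_iff₀ (by positivity)]
      nlinarith
    linarith
  · intro v hv
    obtain ⟨e1, e2⟩ := hreg.2.1 v hv
    refine ⟨e1, ?_⟩
    have hs : (shift z m).n v = ((z.n v : ℤ) + m v).toNat := rfl
    rw [hs]
    by_cases hv0 : F.e 0 v = 0
    · rw [hm0 v hv0]
      omega
    · have := (h2 v hv0).2.1
      omega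
  · intro j
    have h1 := hreg.2.2.2.2.1 j
    have h3 : Real.sqrt (F.o2 (nR z)) ≤ δ * F.a j (nR z) := by
      rw [← Real.sqrt_sq (show 0 ≤ δ * F.a j (nR z) from mul_nonneg hδ.le (hajp j).le)]
      refine Real.sqrt_le_sqrt ?_
      rw [mul_pow]
      exact h1
    have h4 : Real.sqrt (F.o2 (nR (shift z m))) ≤ 2 * (δ + θ) * F.a j (nR (shift z m)) := by
      calc Real.sqrt (F.o2 (nR (shift z m))) ≤ δ * F.a j (nR z) + θ * F.a j (nR z) := by
            have := hlj j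
            linarith
        _ = (δ + θ) * F.a j (nR z) := by ring
        _ ≤ (δ + θ) * (2 * F.a j (nR (shift z m))) := by
            refine mul_le_mul_of_nonneg_left ?_ (by linarith)
            have e1 := hlo' j
            have e2 := hajp j
            linarith
        _ = _ := by ring
    have h5 : Real.sqrt (F.o2 (nR (shift z m))) ^ 2 ≤
        (2 * (δ + θ) * F.a j (nR (shift z m))) ^ 2 :=
      pow_le_pow_left₀ (Real.sqrt_nonneg _) h4 2
    rw [Real.sq_sqrt ho', mul_pow] at h5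
    exact h5
  · intro j
    have h1 := hreg.2.2.2.2.2 j
    have hLj := hL j
    rw [div_le_iff₀ (by positivity)] at hLj
    have h3 : cV V * (θ * al) ≤ δ ^ 2 * F.a j (nR z) ^ 2 / 2 := by
      calc cV V * (θ * al) ≤ cV V * (θ * F.a j (nR z)) := mul_le_mul_of_nonneg_left (hlj j) hcv
        _ = (cV V * θ) * F.a j (nR z) := by ring
        _ ≤ 1 / 2 * F.a j (nR z) := mul_le_mul_of_nonneg_right hcθ (hajp j).le
        _ = 1 / 2 * F.a j (nR z) * 1 := by ring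
        _ ≤ 1 / 2 * F.a j (nR z) * (F.a j (nR z) * δ ^ 2) :=
            mul_le_mul_of_nonneg_left hLj (by have := hajp j; positivity)
        _ = _ := by ring
    have h4 : tot (shift z m) ≤ 3 / 2 * (δ ^ 2 * F.a j (nR z) ^ 2) := by
      rw [htot]
      linarith
    have h5 : F.a j (nR z) ^ 2 ≤ 16 / 9 * F.a j (nR (shift z m)) ^ 2 := by
      have e1 := hlo' j
      have e2 := hajp j
      nlinarith
    have h6 : δ ^ 2 ≤ (δ + θ) ^ 2 := pow_le_pow_left₀ hδ.le (by linarith) 2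
    calc tot (shift z m) ≤ 3 / 2 * (δ ^ 2 * F.a j (nR z) ^ 2) := h4
      _ ≤ 3 / 2 * ((δ + θ) ^ 2 * (16 / 9 * F.a j (nR (shift z m)) ^ 2)) := by
          refine mul_le_mul_of_nonneg_left ?_ (by norm_num)
          exact mul_le_mul h6 h5 (by positivity) (by positivity)
      _ ≤ (2 * (δ + θ)) ^ 2 * F.a j (nR (shift z m)) ^ 2 := by
          have : 0 ≤ (δ + θ) ^ 2 * F.a j (nR (shift z m)) ^ 2 := by positivity
          nlinarith
  · have e1 := hlo' 0
    linarith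
  · have e1 := hhi 0
    have e2 : (1 + θ) * F.a 0 (nR z) ≤ 2 * F.a 0 (nR z) :=
      mul_le_mul_of_nonneg_right (by linarith) ha0.le
    linarith
  · have e1 := hlo' (Fin.last k)
    linarith
  · intro i j hij
    rw [div_le_iff₀ (hpos' i)]
    exact hratio i j hij
  · have h1 : Real.sqrt (F.o2 (nR (shift z m))) ^ 2 ≤
        (Real.sqrt (F.o2 (nR z)) + Real.sqrt (m2 m)) ^ 2 :=
      pow_le_pow_left₀ (Real.sqrt_nonneg _) hsqo 2
    rw [Real.sq_sqrt ho'] at h1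
    have h3 := Real.sq_sqrt ho
    have h4 := Real.sq_sqrt hm2n
    nlinarith [sq_nonneg (Real.sqrt (F.o2 (nR z)) - Real.sqrt (m2 m))]

end UC
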