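import Pool.Agent.helper25.UC.Defs

/-!
# K2 : the Cauchy-Schwarz comparison, staying probabilities

`PR G R φ m z` = expectation of `φ(Z_m)` on the event that `Z_0, …, Z_m ∈ R`.

**cs_bound**: induction on `m`.  `m = 0`: `√(f(Tz))² = f(Tz)`.  Step: for `z ∈ R`, with
`n = z.n`, `N = tot z`, `ñ = (T z).n`, `Ñ = tot (Tz)`:
`PR(m+1) z = (1/N)∑_w n_w PR m (z^w)`; if `z^w ∉ R`, `PR m (z^w) = 0`; if `z^w ∈ R` by induction
`PR m (z^w) ≤ √((1+χ)^m f(T z^w)) = √((1+χ)^m f((Tz)^w))` (only `w` with `n_w ≥ 1` matter; `PR ≥ 0`).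
Cauchy-Schwarz: `(∑_w (n_w/N) √g_w)² ≤ (∑_w (n_w/N)² Ñ/ñ_w)(∑_w (ñ_w/Ñ) g_w)`
`≤ (1+χ)·(1+χ)^m f(Tz)`, by `hχ` and harmonicity of `f` at `Tz`
(`∑_w ñ_w f((Tz)^w) = Ñ f(Tz)`).

**stay_bound**: `c_i ≥ 0`, `V_i ≥ 0` everywhere needed.  Claim by induction on `m`, for `z ∈ R` with
`tot z + n0 m ≤ Nmax`: `1 - ∑_i (1+c_i)^m V_i z ≤ PR G R 1 m z`.
`m = 0`: `PR = 1` and `V_i ≥ 0`.  Step: `PR 1 (m+1) z = (1/N)∑ n_w PR 1 m (z^w)
≥ (1/N)∑ n_w (1 - ∑_i (1+c_i)^m V_i(z^w))`: for `z^w ∈ R` by induction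
(`tot (z^w) + n0 m ≤ tot z + n0(m+1)`, `K2_step_tot_le`-type bound `htot`), for `z^w ∉ R` because
`∑_i V_i(z^w) ≥ 1` and `PR = 0` (`tot(z^w) ≤ Nmax`).  And
`(1/N) ∑ n_w V_i(z^w) ≤ (1+c_i) V_i z`.

**grow_bound**: `PR G R (1/T) m z ≤ (1/T z) ∏_{j<m} (1 - b/(tot z + n0 j))`.  Same induction,
monotone in `tot`.
**prod_bound**: `∏_{j<m} (1 - b/(x + n0 j)) ≤ exp(-(b/n0) log(1 + n0 m/x))`:
`1 - u ≤ e^{-u}`, and `log((x+n0(j+1))/(x+n0 j)) ≤ n0/(x+n0 j)`, telescoping.
-/

namespace UC
open Finset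
variable {V : Type} [Fintype V] [DecidableEq V] {s k : ℕ}

/-- expectation of `φ` after `m` steps on the event of staying in `R` -/
noncomputable def PR (G : SimpleGraph V) [DecidableRel G.Adj] (R : Set (St V s))
    (φ : St V s → ℝ) : ℕ → St V s → ℝ
  | 0, z => by classical exact if z ∈ R then φ z else 0
  | m + 1, z => by classical exact
      if z ∈ R then (∑ w, (z.n w : ℝ) * PR G R φ m (step G z w)) / tot z else 0

variable {G : SimpleGraph V} [DecidableRel G.Adj]

theorem K2_step_tot_le (z : St V s) (w : V) : tot (step G z w) ≤ tot z + cV V := by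
  unfold tot cV
  have h : (Fintype.card V : ℝ) = ∑ _v : V, (1 : ℝ) := by simp
  rw [h, ← Finset.sum_add_distrib]
  apply Finset.sum_le_sum
  intro v _
  have : (step G z w).n v ≤ z.n v + 1 := by
    simp only [step]
    split_ifs <;> omega
  exact_mod_cast this

theorem K2_tot_nonneg (z : St V s) : 0 ≤ tot z := by
  unfold tot
  exact Finset.sum_nonneg fun v _ => Nat.cast_nonneg _

theorem K2_gen_sum (f : St V s → ℝ) (z : St V s) :
    ∑ w, (z.n w : ℝ) * f (step G z w) = gen G f z + tot z * f z := by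
  unfold gen tot
  rw [Finset.sum_mul, ← Finset.sum_add_distrib]
  apply Finset.sum_congr rfl
  intro w _
  ring

theorem PR_zero_in {R : Set (St V s)} {φ : St V s → ℝ} {z : St V s} (h : z ∈ R) : PR G R φ 0 z = φ z := by
  simp only [PR, if_pos h]

theorem PR_out {R : Set (St V s)} {φ : St V s → ℝ} {z : St V s} (h : z ∉ R) (m : ℕ) : PR G R φ m z = 0 := by
  cases m <;> simp only [PR, if_neg h]

theorem PR_succ_in {R : Set (St V s)} {φ : St V s → ℝ} {z : St V s} (h : z ∈ R) (m : ℕ) :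
    PR G R φ (m + 1) z = (∑ w, (z.n w : ℝ) * PR G R φ m (step G z w)) / tot z := by
  simp only [PR, if_pos h]

theorem PR_mono (R : Set (St V s)) (φ ψ : St V s → ℝ) (h : ∀ z ∈ R, φ z ≤ ψ z)
    (m : ℕ) (z : St V s) : PR G R φ m z ≤ PR G R ψ m z := by
  induction m generalizing z with
  | zero =>
    by_cases hz : z ∈ R
    · rw [PR_zero_in hz, PR_zero_in hz]; exact h z hz
    · rw [PR_out hz, PR_out hz]
  | succ m ih =>
    by_cases hz : z ∈ R
    · rw [PR_succ_in hz, PR_succ_in hz]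
      apply div_le_div_of_nonneg_right _ (K2_tot_nonneg z)
      apply Finset.sum_le_sum
      intro w _
      exact mul_le_mul_of_nonneg_left (ih _) (Nat.cast_nonneg _)
    · rw [PR_out hz, PR_out hz]

theorem K2_PR_nonneg (R : Set (St V s)) (φ : St V s → ℝ) (h : ∀ z ∈ R, 0 ≤ φ z)
    (m : ℕ) (z : St V s) : 0 ≤ PR G R φ m z := by
  induction m generalizing z with
  | zero =>
    by_cases hz : z ∈ R
    · rw [PR_zero_in hz]; exact h z hz
    · rw [PR_out hz]
  | succ m ih =>
    by_cases hz : z ∈ R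
    · rw [PR_succ_in hz]
      apply div_nonneg _ (K2_tot_nonneg z)
      apply Finset.sum_nonneg
      intro w _
      exact mul_nonneg (Nat.cast_nonneg _) (ih _)
    · rw [PR_out hz]

theorem PR_linear (R : Set (St V s)) (φ ψ : St V s → ℝ) (a b : ℝ)
    (m : ℕ) (z : St V s) :
    PR G R (fun y => a * φ y + b * ψ y) m z = a * PR G R φ m z + b * PR G R ψ m z := by
  induction m generalizing z with
  | zero =>
    by_cases hz : z ∈ R
    · rw [PR_zero_in hz, PR_zero_in hz, PR_zero_in hz]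
    · rw [PR_out hz, PR_out hz, PR_out hz]; ring
  | succ m ih =>
    by_cases hz : z ∈ R
    · rw [PR_succ_in hz, PR_succ_in hz, PR_succ_in hz, ← mul_div_assoc, ← mul_div_assoc, ← add_div,
        Finset.mul_sum, Finset.mul_sum, ← Finset.sum_add_distrib]
      congr 1
      apply Finset.sum_congr rfl
      intro w _
      rw [ih]
      ring
    · rw [PR_out hz, PR_out hz, PR_out hz]; ring

theorem cs_bound (f : St V s → ℝ) (hf0 : ∀ z, 0 ≤ f z) (hfh : ∀ z, gen G f z = 0)
    (R : Set (St V s)) (T : St V s → St V s) (χ : ℝ) (hχ0 : 0 ≤ χ)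
    (hR : ∀ z ∈ R, 1 ≤ tot z ∧ 1 ≤ tot (T z))
    (hT : ∀ z ∈ R, ∀ w, 1 ≤ z.n w → T (step G z w) = step G (T z) w ∧ 1 ≤ (T z).n w)
    (hT0 : ∀ z ∈ R, ∀ w, z.n w = 0 → (T z).n w = 0)
    (hχ : ∀ z ∈ R, tot (T z) *
      (∑ w, if z.n w = 0 then 0 else (z.n w : ℝ) ^ 2 / ((T z).n w : ℝ)) ≤
        (1 + χ) * tot z ^ 2) :
    ∀ m, ∀ z ∈ R, (PR G R (fun z => Real.sqrt (f (T z))) m z) ^ 2 ≤ (1 + χ) ^ m * f (T z) := by
  intro m
  induction m with
  | zero =>
    intro z hz
    rw [PR_zero_in hz, Real.sq_sqrt (hf0 _)]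
    simp
  | succ m ih =>
    intro z hz
    obtain ⟨hN, hN'⟩ := hR z hz
    rw [PR_succ_in hz, div_pow, div_le_iff₀ (by positivity)]
    set p : V → ℝ := fun w => PR G R (fun z => Real.sqrt (f (T z))) m (step G z w) with hp
    have hχ1 : 0 ≤ (1 + χ) ^ m := by positivity
    have hp2 : ∀ w, 1 ≤ z.n w → p w ^ 2 ≤ (1 + χ) ^ m * f (step G (T z) w) := by
      intro w hw
      by_cases hzw : step G z w ∈ R
      · have := ih _ hzw
        rw [(hT z hz w hw).1] at this
        exact this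
      · have h0 : p w = 0 := PR_out hzw m
        rw [h0]
        have := mul_nonneg hχ1 (hf0 (step G (T z) w))
        simpa using this
    have hcs := Finset.sum_mul_sq_le_sq_mul_sq Finset.univ
      (fun w => if z.n w = 0 then 0 else (z.n w : ℝ) / Real.sqrt ((T z).n w : ℝ))
      (fun w => Real.sqrt ((T z).n w : ℝ) * p w)
    have h1 : ∀ w, (if z.n w = 0 then 0 else (z.n w : ℝ) / Real.sqrt ((T z).n w : ℝ)) *
        (Real.sqrt ((T z).n w : ℝ) * p w) = (z.n w : ℝ) * p w := by
      intro w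
      by_cases hw : z.n w = 0
      · simp [hw]
      · have h2 : 1 ≤ (T z).n w := (hT z hz w (Nat.one_le_iff_ne_zero.2 hw)).2
        have h3 : (0:ℝ) < Real.sqrt ((T z).n w : ℝ) := Real.sqrt_pos.2 (by exact_mod_cast h2)
        rw [if_neg hw]
        field_simp
    have h2 : ∀ w, (if z.n w = 0 then 0 else (z.n w : ℝ) / Real.sqrt ((T z).n w : ℝ)) ^ 2 =
        if z.n w = 0 then 0 else (z.n w : ℝ) ^ 2 / ((T z).n w : ℝ) := by
      intro w
      by_cases hw : z.n w = 0
      · simp [hw]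
      · rw [if_neg hw, if_neg hw, div_pow, Real.sq_sqrt (Nat.cast_nonneg _)]
    have h3 : ∀ w, (Real.sqrt ((T z).n w : ℝ) * p w) ^ 2 ≤ (1 + χ) ^ m * (((T z).n w : ℝ) * f (step G (T z) w)) := by
      intro w
      rw [mul_pow, Real.sq_sqrt (Nat.cast_nonneg _)]
      by_cases hw : z.n w = 0
      · rw [hT0 z hz w hw]
        simp
      · have := mul_le_mul_of_nonneg_left (hp2 w (Nat.one_le_iff_ne_zero.2 hw)) (Nat.cast_nonneg (α := ℝ) ((T z).n w))
        linarith
    rw [Finset.sum_congr rfl (fun w _ => h1 w), Finset.sum_congr rfl (fun w _ => h2 w)] at hcs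
    have h4 : ∑ w, (Real.sqrt ((T z).n w : ℝ) * p w) ^ 2 ≤ (1 + χ) ^ m * (tot (T z) * f (T z)) := by
      have h5 := K2_gen_sum (G := G) f (T z)
      rw [hfh, zero_add] at h5
      rw [← h5, Finset.mul_sum]
      exact Finset.sum_le_sum fun w _ => h3 w
    have hA0 : 0 ≤ ∑ w, if z.n w = 0 then 0 else (z.n w : ℝ) ^ 2 / ((T z).n w : ℝ) := by
      apply Finset.sum_nonneg
      intro w _
      split_ifs
      · exact le_refl _
      · positivity
    have h5 := mul_le_mul_of_nonneg_left h4 hA0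
    have h6 := mul_le_mul_of_nonneg_right (hχ z hz) (mul_nonneg hχ1 (hf0 (T z)))
    calc (∑ w, (z.n w : ℝ) * p w) ^ 2 ≤ _ := hcs
      _ ≤ _ := h5
      _ = (tot (T z) * ∑ w, if z.n w = 0 then 0 else (z.n w : ℝ) ^ 2 / ((T z).n w : ℝ)) *
          ((1 + χ) ^ m * f (T z)) := by ring
      _ ≤ _ := h6
      _ = (1 + χ) ^ (m + 1) * f (T z) * tot z ^ 2 := by ring

theorem stay_bound {p : ℕ} (R : Set (St V s)) (Nmax : ℝ) (U : Fin p → St V s → ℝ)
    (c : Fin p → ℝ) (hc : ∀ i, 0 ≤ c i)
    (hR : ∀ z ∈ R, 1 ≤ tot z)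
    (hU0 : ∀ i, ∀ z ∈ R, 0 ≤ U i z)
    (hU : ∀ i, ∀ z ∈ R, gen G (U i) z ≤ c i * tot z * U i z)
    (hexit : ∀ z ∈ R, ∀ w, 1 ≤ z.n w → tot (step G z w) ≤ Nmax → step G z w ∉ R →
      1 ≤ ∑ i, U i (step G z w) ∧ ∀ i, 0 ≤ U i (step G z w)) :
    ∀ m : ℕ, ∀ z ∈ R, tot z + cV V * m ≤ Nmax →
      1 - ∑ i, (1 + c i) ^ m * U i z ≤ PR G R (fun _ => 1) m z := by
  have hcV : 0 ≤ cV V := Nat.cast_nonneg _
  intro m
  induction m with
  | zero =>
    intro z hz _
    rw [PR_zero_in hz]
    have : 0 ≤ ∑ i, (1 + c i) ^ 0 * U i z := Finset.sum_nonneg fun i _ => by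
      rw [pow_zero, one_mul]; exact hU0 i z hz
    linarith
  | succ m ih =>
    intro z hz hm
    push_cast at hm
    have hN : 0 < tot z := by linarith [hR z hz]
    rw [PR_succ_in hz, le_div_iff₀ hN]
    have hw : ∀ w, (z.n w : ℝ) * (1 - ∑ i, (1 + c i) ^ m * U i (step G z w)) ≤
        (z.n w : ℝ) * PR G R (fun _ => 1) m (step G z w) := by
      intro w
      by_cases hw0 : z.n w = 0
      · simp [hw0]
      · have hw1 : 1 ≤ z.n w := Nat.one_le_iff_ne_zero.2 hw0
        apply mul_le_mul_of_nonneg_left _ (Nat.cast_nonneg _)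
        have htot := K2_step_tot_le (G := G) z w
        by_cases hzw : step G z w ∈ R
        · exact ih _ hzw (by linarith)
        · rw [PR_out hzw]
          have hmc : 0 ≤ cV V * m := mul_nonneg hcV (Nat.cast_nonneg _)
          obtain ⟨h1, h2⟩ := hexit z hz w hw1 (by linarith) hzw
          have h3 : ∑ i, U i (step G z w) ≤ ∑ i, (1 + c i) ^ m * U i (step G z w) := by
            apply Finset.sum_le_sum
            intro i _
            have h4 : 1 ≤ (1 + c i) ^ m := one_le_pow₀ (by linarith [hc i])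
            have := mul_le_mul_of_nonneg_right h4 (h2 i)
            linarith
          linarith
    have hsum := Finset.sum_le_sum fun w (_ : w ∈ Finset.univ) => hw w
    refine le_trans ?_ hsum
    have h1 : ∑ w, (z.n w : ℝ) * (1 - ∑ i, (1 + c i) ^ m * U i (step G z w)) =
        tot z - ∑ i, (1 + c i) ^ m * ∑ w, (z.n w : ℝ) * U i (step G z w) := by
      have h2 : ∀ w, (z.n w : ℝ) * (1 - ∑ i, (1 + c i) ^ m * U i (step G z w)) =
          (z.n w : ℝ) - ∑ i, (1 + c i) ^ m * ((z.n w : ℝ) * U i (step G z w)) := by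
        intro w
        rw [mul_sub, mul_one, Finset.mul_sum]
        congr 1
        apply Finset.sum_congr rfl
        intro i _
        ring
      rw [Finset.sum_congr rfl (fun w _ => h2 w), Finset.sum_sub_distrib, Finset.sum_comm]
      congr 1
      apply Finset.sum_congr rfl
      intro i _
      rw [Finset.mul_sum]
    rw [h1]
    have h2 : ∑ i, (1 + c i) ^ m * ∑ w, (z.n w : ℝ) * U i (step G z w) ≤
        (∑ i, (1 + c i) ^ (m + 1) * U i z) * tot z := by
      rw [Finset.sum_mul]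
      apply Finset.sum_le_sum
      intro i _
      rw [K2_gen_sum]
      have h3 := hU i z hz
      have h4 : 0 ≤ (1 + c i) ^ m := pow_nonneg (by linarith [hc i]) m
      have h5 : gen G (U i) z + tot z * U i z ≤ (1 + c i) * U i z * tot z := by linarith
      calc (1 + c i) ^ m * (gen G (U i) z + tot z * U i z) ≤ (1 + c i) ^ m * ((1 + c i) * U i z * tot z) :=
            mul_le_mul_of_nonneg_left h5 h4
        _ = (1 + c i) ^ (m + 1) * U i z * tot z := by ring
    have h3 : (1 - ∑ i, (1 + c i) ^ (m + 1) * U i z) * tot z =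
        tot z - (∑ i, (1 + c i) ^ (m + 1) * U i z) * tot z := by ring
    rw [h3]
    linarith

theorem grow_bound (R : Set (St V s)) (T : St V s → ℝ) (b : ℝ) (hb : 0 < b) (hb1 : b ≤ 1)
    (hR : ∀ z ∈ R, 1 ≤ tot z)
    (hT : ∀ z ∈ R, 0 < T z)
    (hg : ∀ z ∈ R, gen G (fun y => 1 / T y) z ≤ -(b * (1 / T z)))
    (hpos : ∀ z ∈ R, ∀ w, 1 ≤ z.n w → 0 < T (step G z w)) :
    ∀ m : ℕ, ∀ z ∈ R, PR G R (fun y => 1 / T y) m z ≤
      1 / T z * ∏ j ∈ Finset.range m, (1 - b / (tot z + cV V * j)) := by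
  have hcV : 0 ≤ cV V := Nat.cast_nonneg _
  have hfac : ∀ t : ℝ, 1 ≤ t → 0 ≤ 1 - b / t := by
    intro t ht
    have : b / t ≤ 1 := by
      rw [div_le_one (by linarith)]; linarith
    linarith
  intro m
  induction m with
  | zero =>
    intro z hz
    rw [PR_zero_in hz]
    simp
  | succ m ih =>
    intro z hz
    have hN1 := hR z hz
    have hN : 0 < tot z := by linarith
    rw [PR_succ_in hz, div_le_iff₀ hN, Finset.prod_range_succ']
    set P' : ℝ := ∏ j ∈ Finset.range m, (1 - b / (tot z + cV V * ((j + 1 : ℕ) : ℝ))) with hP'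
    have hj0 : ∀ j : ℕ, 0 ≤ cV V * (j : ℝ) := fun j => mul_nonneg hcV (Nat.cast_nonneg _)
    have hP0 : 0 ≤ P' := by
      apply Finset.prod_nonneg
      intro j _
      apply hfac
      have := hj0 (j + 1)
      linarith
    have hw : ∀ w, (z.n w : ℝ) * PR G R (fun y => 1 / T y) m (step G z w) ≤
        (z.n w : ℝ) * (1 / T (step G z w)) * P' := by
      intro w
      by_cases hw0 : z.n w = 0
      · simp [hw0]
      · have hw1 : 1 ≤ z.n w := Nat.one_le_iff_ne_zero.2 hw0
        rw [mul_assoc]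
        apply mul_le_mul_of_nonneg_left _ (Nat.cast_nonneg _)
        have hTp : 0 ≤ 1 / T (step G z w) := (one_div_pos.2 (hpos z hz w hw1)).le
        by_cases hzw : step G z w ∈ R
        · refine (ih _ hzw).trans ?_
          apply mul_le_mul_of_nonneg_left _ hTp
          have hN1' := hR _ hzw
          apply Finset.prod_le_prod
          · intro j _
            apply hfac
            have := hj0 j
            linarith
          · intro j _
            have htot := K2_step_tot_le (G := G) z w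
            have h1 : tot (step G z w) + cV V * (j : ℝ) ≤ tot z + cV V * ((j + 1 : ℕ) : ℝ) := by
              push_cast
              linarith
            have h2 : 0 < tot (step G z w) + cV V * (j : ℝ) := by
              have := hj0 j
              linarith
            have h3 := div_le_div_of_nonneg_left hb.le h2 h1
            linarith
        · rw [PR_out hzw]
          exact mul_nonneg hTp hP0
    have hsum := Finset.sum_le_sum fun w (_ : w ∈ Finset.univ) => hw w
    rw [← Finset.sum_mul, K2_gen_sum (G := G) (fun y => 1 / T y) z] at hsum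
    refine hsum.trans ?_
    have h1 := hg z hz
    have h2 : gen G (fun y => 1 / T y) z + tot z * (1 / T z) ≤ (1 / T z) * (1 - b / tot z) * tot z := by
      have h3 : (1 / T z) * (1 - b / tot z) * tot z = (1 / T z) * (tot z - b) := by
        field_simp
      rw [h3]
      linarith
    have h4 := mul_le_mul_of_nonneg_right h2 hP0
    refine h4.trans (le_of_eq ?_)
    push_cast
    ring

theorem prod_bound (b x n0 : ℝ) (hb : 0 < b) (hb1 : b ≤ 1) (hx : 1 ≤ x) (hn : 1 ≤ n0) (m : ℕ) :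
    ∏ j ∈ Finset.range m, (1 - b / (x + n0 * j)) ≤
      Real.exp (-(b / n0) * Real.log (1 + n0 * m / x)) := by
  induction m with
  | zero => simp
  | succ m ih =>
    rw [Finset.prod_range_succ]
    have hm : (0:ℝ) ≤ m := Nat.cast_nonneg m
    have hnm : 0 ≤ n0 * m := mul_nonneg (by linarith) hm
    set y : ℝ := x + n0 * m with hy
    have hy1 : 1 ≤ y := by linarith
    have h1 : 0 ≤ 1 - b / y := by
      have : b / y ≤ 1 := by
        rw [div_le_one (by linarith)]; linarith
      linarith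
    have h2 : 1 - b / y ≤ Real.exp (-(b / y)) := by
      have := Real.add_one_le_exp (-(b / y))
      linarith
    have h3 := mul_le_mul ih h2 h1 (Real.exp_pos _).le
    refine h3.trans ?_
    rw [← Real.exp_add]
    apply Real.exp_le_exp.2
    have hx0 : 0 < x := by linarith
    have hn0 : 0 < n0 := by linarith
    have e1 : 1 + n0 * (m : ℝ) / x = y / x := by
      rw [hy]; field_simp
    have e2 : 1 + n0 * ((m + 1 : ℕ) : ℝ) / x = (y + n0) / x := by
      rw [hy]; push_cast; field_simp; ring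
    rw [e1, e2, Real.log_div (by linarith) hx0.ne', Real.log_div (by linarith) hx0.ne']
    have h4 : Real.log (y + n0) - Real.log y ≤ n0 / y := by
      rw [← Real.log_div (by linarith) (by linarith)]
      have h5 : (y + n0) / y = 1 + n0 / y := by field_simp
      rw [h5]
      have h6 : 0 < 1 + n0 / y := by positivity
      have := Real.log_le_sub_one_of_pos h6
      linarith
    have h5 : b / n0 * (Real.log (y + n0) - Real.log y) ≤ b / y := by
      calc b / n0 * (Real.log (y + n0) - Real.log y) ≤ b / n0 * (n0 / y) :=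
            mul_le_mul_of_nonneg_left h4 (by positivity)
        _ = b / y := by field_simp
    linarith

end UC
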