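import Pool.Agent.helper25.UC.A3

/-!
# L1 : consequences of the absence of kicks for the leading direction `e_0`

`NoKick F τ` is the conclusion of `no_kick` (K7).  `U1 = {v : e_0 v ≠ 0} ⊆ I`, and there
`e_0 v > 0` (`cover`: the first nonzero entry at `v` is positive, index `0` is the first).
`AA σ e_0 σ e_0 = E_0` (`eig`, norm one).  `E_0 ≤ n0` (`E_le`).  For `E' ≥ E_0` all
`-(E_j - E') a_j² ≥ 0`, so `Th F E' σ y ≥ AA σ y σ y - E' ∑ y²`.

**L1 adj_same.**  Suppose `u ~ v` in `U1` with `σ u ≠ σ v`.  Let `y w = - e_0 w` if `σ w = σ u`,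
`y w = e_0 w` otherwise; colours `σ`; `r0 = y`.  It is admissible, zero off `I`.  For an ordered
adjacent pair `(p,q)` the product `ε(σ p,σ q) y_p y_q` equals `ε(σ p,σ q) e_0(p) e_0(q)` unless
exactly one of `σ p, σ q` is `σ u`; then it is `+ e_0(p)e_0(q)` instead of `- e_0(p)e_0(q)`.  So
`AA(y,y) ≥ E_0 + 4 e_0(u) e_0(v) > E_0` (pairs `(u,v)`, `(v,u)`).  Take `E'` with
`E_0 < E' < min (AA(y,y)) (n0+1)`: `Th ≥ AA(y,y) - E' > 0 = (2/τ)∑(y-r0)²`: contradicts `NoKick`.

**L2 insulated.**  Let `u ∈ I`, `e_0 u = 0`, and suppose `u ~ v0` with `e_0 v0 ≠ 0`.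
`r0 w = - e_0 w` if `σ w = σ u`, else `e_0 w`.  `y = r0 - t 1_u`, `t > 0` (`u ∈ I`: real values are
allowed).  `AA(r0,r0) = E_0` (by L1 adjacent vertices of `U1` have the same colour, so all products
are unchanged).  `Lf σ (σ u) u r0 = ∑_{w~u} ε(σ u,σ w) r0 w = -∑_{w~u} e_0 w = -A`, `A > 0`.
`AA(y,y) = E_0 - 2t Lf σ (σ u) u r0 = E_0 + 2tA` (no loop at `u`), `∑ y² = 1 + t²`,
`∑(y-r0)² = t²`.  `NoKick` for `E' ∈ (E_0, n0+1]`: `E_0 + 2tA - E'(1+t²) ≤ (2/τ)t²`; let
`E' ↓ E_0`: `2tA ≤ (E_0 + 2/τ) t²` for all `t > 0`: false for small `t`.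
-/

namespace UC
open Finset
variable {V : Type} [Fintype V] [DecidableEq V] {s k : ℕ}
variable {G : SimpleGraph V} [DecidableRel G.Adj]

/-- no kick is possible -/
def NoKick (F : Flag G s (k + 1)) (τ : ℝ) : Prop :=
  ∀ E' : ℝ, F.E (Fin.last k) < E' → E' ≤ cV V + 1 → ∀ (c : V → Fin s) (y r0 : V → ℝ),
    F.Adm c y → (∀ v, v ∉ F.I → 0 < y v → ∀ j, Lf G F.σ (c v) v (F.e j) = 0) →
    (∀ v, F.e 0 v = 0 → r0 v = 0) → F.Th E' c y ≤ 2 / τ * ∑ v, (y v - r0 v) ^ 2

theorem e0_nonneg (F : Flag G s (k + 1)) (v : V) : 0 ≤ F.e 0 v := by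
  by_cases hv : v ∈ F.I
  · obtain ⟨j, h1, h2⟩ := F.cover v hv
    rcases Fin.eq_zero_or_eq_succ j with h | ⟨i, h⟩
    · rw [h] at h1; exact h1.le
    · rw [h2 0 (by rw [h]; exact Fin.succ_pos i)]
  · rw [F.supp 0 v hv]

theorem exists_e0_pos (F : Flag G s (k + 1)) : ∃ v, 0 < F.e 0 v := by
  by_contra hcon
  push Not at hcon
  have h1 : ∀ v, F.e 0 v = 0 := fun v => le_antisymm (hcon v) (e0_nonneg F v)
  have h2 := F.orth 0 0
  simp [h1] at h2

theorem AA_e0 (F : Flag G s (k + 1)) : AA G F.σ (F.e 0) F.σ (F.e 0) = F.E 0 := by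
  rw [AA_eq_Lf]
  have h1 : ∀ v, F.e 0 v * Lf G F.σ (F.σ v) v (F.e 0) = F.E 0 * (F.e 0 v * F.e 0 v) := by
    intro v
    by_cases hv : v ∈ F.I
    · rw [F.eig 0 v hv]; ring
    · rw [F.supp 0 v hv]; ring
  rw [Finset.sum_congr rfl (fun v _ => h1 v), ← Finset.mul_sum, F.orth 0 0]
  simp

theorem Th_ge_L1 (F : Flag G s (k + 1)) {E' : ℝ} (hE : F.E 0 ≤ E') (c : V → Fin s) (y : V → ℝ) :
    AA G c y c y - E' * ∑ v, y v ^ 2 ≤ F.Th E' c y := by
  unfold Flag.Th
  have h1 : ∑ j, (F.E j - E') * F.a j y ^ 2 ≤ 0 := by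
    apply Finset.sum_nonpos
    intro j _
    have h2 := F.anti 0 j (Fin.zero_le j)
    exact mul_nonpos_of_nonpos_of_nonneg (by linarith) (sq_nonneg _)
  linarith

theorem eps_of_eq {a b : Fin s} (h : a = b) : eps a b = 1 := by unfold eps; rw [if_pos h]

theorem eps_of_ne {a b : Fin s} (h : a ≠ b) : eps a b = -1 := by unfold eps; rw [if_neg h]

theorem AA_zero_at_L1 (c : V → Fin s) (v : V) (x : V → ℝ) :
    AA G c x c x = AA G c (Function.update x v 0) c (Function.update x v 0) +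
      2 * x v * Lf G c (c v) v x := by
  have h0 : ∀ u (a : Fin s), Lf G c a u x = Lf G c a u (Function.update x v 0) +
      (if G.Adj u v then eps a (c v) * x v else 0) := by
    intro u a
    unfold Lf
    rw [← Finset.add_sum_erase _ _ (Finset.mem_univ v), ← Finset.add_sum_erase (Finset.univ)
      (fun w => if G.Adj u w then eps a (c w) * Function.update x v 0 w else 0) (Finset.mem_univ v)]
    have h1 : ∑ w ∈ Finset.univ.erase v, (if G.Adj u w then eps a (c w) * x w else 0) =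
        ∑ w ∈ Finset.univ.erase v, (if G.Adj u w then eps a (c w) * Function.update x v 0 w else 0) := by
      apply Finset.sum_congr rfl
      intro w hw
      rw [Function.update_of_ne (Finset.ne_of_mem_erase hw)]
    rw [h1]
    simp only [Function.update_self, mul_zero, ite_self]
    ring
  have h2 : Lf G c (c v) v x = Lf G c (c v) v (Function.update x v 0) := by
    rw [h0 v (c v)]
    simp
  rw [AA_eq_Lf, AA_eq_Lf]
  have h3 : ∑ u, x u * Lf G c (c u) u x = ∑ u, x u * Lf G c (c u) u (Function.update x v 0) +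
      x v * Lf G c (c v) v x := by
    have h4 : ∀ u, x u * Lf G c (c u) u x = x u * Lf G c (c u) u (Function.update x v 0) +
        x v * (if G.Adj v u then eps (c v) (c u) * x u else 0) := by
      intro u
      rw [h0 u (c u)]
      have h5 : (if G.Adj u v then eps (c u) (c v) * x v else 0) =
          (if G.Adj v u then eps (c v) (c u) * x v else 0) := by
        have e1 : eps (c u) (c v) = eps (c v) (c u) := by
          unfold eps
          by_cases h : c u = c v
          · rw [if_pos h, if_pos h.symm]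
          · rw [if_neg h, if_neg (fun h' => h h'.symm)]
        rw [e1]
        simp only [G.adj_comm u v]
      rw [h5]
      split_ifs <;> ring
    rw [Finset.sum_congr rfl (fun u _ => h4 u), Finset.sum_add_distrib, ← Finset.mul_sum]
    rfl
  rw [h3]
  have h6 : ∑ u, x u * Lf G c (c u) u (Function.update x v 0) =
      ∑ u, Function.update x v 0 u * Lf G c (c u) u (Function.update x v 0) +
        x v * Lf G c (c v) v (Function.update x v 0) := by
    rw [← Finset.add_sum_erase _ _ (Finset.mem_univ v), ← Finset.add_sum_erase (Finset.univ)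
      (fun w => Function.update x v 0 w * Lf G c (c w) w (Function.update x v 0)) (Finset.mem_univ v)]
    have h7 : ∑ w ∈ Finset.univ.erase v, x w * Lf G c (c w) w (Function.update x v 0) =
        ∑ w ∈ Finset.univ.erase v, Function.update x v 0 w * Lf G c (c w) w (Function.update x v 0) := by
      apply Finset.sum_congr rfl
      intro w hw
      rw [Function.update_of_ne (Finset.ne_of_mem_erase hw)]
    rw [h7]
    simp only [Function.update_self, zero_mul]
    ring
  rw [h6, ← h2]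
  ring


theorem e0_sq_sum (F : Flag G s (k + 1)) : ∑ v, F.e 0 v ^ 2 = 1 := by
  have h := F.orth 0 0
  simp only [if_true] at h
  rw [← h]
  exact Finset.sum_congr rfl (fun v _ => by ring)

theorem adj_same (F : Flag G s (k + 1)) (τ : ℝ) (hτ : 0 < τ) (hN : NoKick F τ) (u v : V)
    (huv : G.Adj u v) (hu : F.e 0 u ≠ 0) (hv : F.e 0 v ≠ 0) : F.σ u = F.σ v := by
  by_contra hne
  have hu0 : 0 < F.e 0 u := lt_of_le_of_ne (e0_nonneg F u) (Ne.symm hu)
  have hv0 : 0 < F.e 0 v := lt_of_le_of_ne (e0_nonneg F v) (Ne.symm hv)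
  let y : V → ℝ := fun w => if F.σ w = F.σ u then -F.e 0 w else F.e 0 w
  have hyz : ∀ w, F.e 0 w = 0 → y w = 0 := by
    intro w hw
    show (if F.σ w = F.σ u then -F.e 0 w else F.e 0 w) = 0
    rw [hw]; simp
  have hoff : ∀ w, w ∉ F.I → y w = 0 := fun w hw => hyz w (F.supp 0 w hw)
  have hterm : ∀ p q, (if G.Adj p q then eps (F.σ p) (F.σ q) * F.e 0 p * F.e 0 q else 0) ≤
      (if G.Adj p q then eps (F.σ p) (F.σ q) * y p * y q else 0) := by
    intro p q
    have hp := e0_nonneg F p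
    have hq := e0_nonneg F q
    split_ifs with h
    · show _ ≤ eps (F.σ p) (F.σ q) * (if F.σ p = F.σ u then -F.e 0 p else F.e 0 p) *
        (if F.σ q = F.σ u then -F.e 0 q else F.e 0 q)
      by_cases h1 : F.σ p = F.σ u
      · by_cases h2 : F.σ q = F.σ u
        · rw [if_pos h1, if_pos h2]; apply le_of_eq; ring
        · rw [if_pos h1, if_neg h2, eps_of_ne (fun h3 => h2 (h3.symm.trans h1))]
          nlinarith [mul_nonneg hp hq]
      · by_cases h2 : F.σ q = F.σ u
        · rw [if_neg h1, if_pos h2, eps_of_ne (fun h3 => h1 (h3.trans h2))]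
          nlinarith [mul_nonneg hp hq]
        · rw [if_neg h1, if_neg h2]
    · exact le_refl _
  have hlt : AA G F.σ (F.e 0) F.σ (F.e 0) < AA G F.σ y F.σ y := by
    unfold AA
    apply Finset.sum_lt_sum
    · intro p _
      exact Finset.sum_le_sum (fun q _ => hterm p q)
    · refine ⟨u, Finset.mem_univ _, ?_⟩
      apply Finset.sum_lt_sum
      · intro q _
        exact hterm u q
      · refine ⟨v, Finset.mem_univ _, ?_⟩
        rw [if_pos huv, if_pos huv]
        show _ < eps (F.σ u) (F.σ v) * (if F.σ u = F.σ u then -F.e 0 u else F.e 0 u) *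
          (if F.σ v = F.σ u then -F.e 0 v else F.e 0 v)
        rw [if_pos rfl, if_neg (fun h => hne h.symm), eps_of_ne hne]
        nlinarith [mul_pos hu0 hv0]
  rw [AA_e0] at hlt
  have hE0 : F.E 0 ≤ cV V := F.E_le 0
  have hsq : ∑ w, y w ^ 2 = 1 := by
    rw [← e0_sq_sum F]
    apply Finset.sum_congr rfl
    intro w _
    show (if F.σ w = F.σ u then -F.e 0 w else F.e 0 w) ^ 2 = _
    split_ifs
    · ring
    · rfl
  set E' : ℝ := min ((F.E 0 + AA G F.σ y F.σ y) / 2) (cV V + 1) with hE'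
  have h1 : F.E 0 < E' := lt_min (by linarith) (by linarith)
  have h2 : E' < AA G F.σ y F.σ y := lt_of_le_of_lt (min_le_left _ _) (by linarith)
  have h3 : F.E (Fin.last k) < E' := lt_of_le_of_lt (F.anti 0 (Fin.last k) (Fin.zero_le _)) h1
  have h4 := hN E' h3 (min_le_right _ _) F.σ y y ⟨fun w _ => rfl, fun w hw => by rw [hoff w hw]⟩
    (fun w hw hpos => by rw [hoff w hw] at hpos; exact absurd hpos (lt_irrefl _))
    hyz
  have h5 := Th_ge_L1 F h1.le F.σ y
  rw [hsq] at h5
  simp only [sub_self] at h4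
  norm_num at h4
  linarith

theorem insulated (F : Flag G s (k + 1)) (τ : ℝ) (hτ : 0 < τ) (hN : NoKick F τ) (u v : V)
    (hu : u ∈ F.I) (hu0 : F.e 0 u = 0) (huv : G.Adj u v) : F.e 0 v = 0 := by
  by_contra hv
  have hv0 : 0 < F.e 0 v := lt_of_le_of_ne (e0_nonneg F v) (Ne.symm hv)
  let r0 : V → ℝ := fun w => if F.σ w = F.σ u then -F.e 0 w else F.e 0 w
  have hrz : ∀ w, F.e 0 w = 0 → r0 w = 0 := by
    intro w hw
    show (if F.σ w = F.σ u then -F.e 0 w else F.e 0 w) = 0
    rw [hw]; simp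
  have hAAr : AA G F.σ r0 F.σ r0 = F.E 0 := by
    rw [← AA_e0 F]
    unfold AA
    apply Finset.sum_congr rfl
    intro p _
    apply Finset.sum_congr rfl
    intro q _
    split_ifs with h
    · by_cases hp : F.e 0 p = 0
      · rw [hp, hrz p hp]; ring
      · by_cases hq : F.e 0 q = 0
        · rw [hq, hrz q hq]; ring
        · have hs := adj_same F τ hτ hN p q h hp hq
          show eps (F.σ p) (F.σ q) * (if F.σ p = F.σ u then -F.e 0 p else F.e 0 p) *
            (if F.σ q = F.σ u then -F.e 0 q else F.e 0 q) = _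
          rw [← hs]
          split_ifs <;> ring
    · rfl
  set A : ℝ := ∑ w, (if G.Adj u w then F.e 0 w else 0) with hA
  have hApos : 0 < A := by
    have h1 : (if G.Adj u v then F.e 0 v else 0) ≤ A := by
      rw [hA]
      apply Finset.single_le_sum (f := fun w => if G.Adj u w then F.e 0 w else 0) _ (Finset.mem_univ v)
      intro w _
      show 0 ≤ if G.Adj u w then F.e 0 w else 0
      split_ifs
      · exact e0_nonneg F w
      · exact le_refl _
    rw [if_pos huv] at h1
    linarith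
  have hLf : Lf G F.σ (F.σ u) u r0 = -A := by
    rw [hA, ← Finset.sum_neg_distrib]
    unfold Lf
    apply Finset.sum_congr rfl
    intro w _
    split_ifs with h
    · show eps (F.σ u) (F.σ w) * (if F.σ w = F.σ u then -F.e 0 w else F.e 0 w) = _
      by_cases h1 : F.σ w = F.σ u
      · rw [if_pos h1, eps_of_eq h1.symm]; ring
      · rw [if_neg h1, eps_of_ne (fun h2 => h1 h2.symm)]; ring
    · simp
  have hE0 : F.E 0 ≤ cV V := F.E_le 0
  have hE00 : 0 ≤ F.E 0 := F.nonneg 0
  set B : ℝ := F.E 0 + 2 / τ + 1 with hB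
  have hBpos : 0 < B := by rw [hB]; positivity
  set t : ℝ := A / B with ht
  have htpos : 0 < t := div_pos hApos hBpos
  set δ : ℝ := min (1 / (1 + t ^ 2)) (A ^ 2 / B / 2 / (1 + t ^ 2)) with hδ
  have hden : 0 < 1 + t ^ 2 := by positivity
  have hδpos : 0 < δ := by rw [hδ]; positivity
  have hδ1 : δ * (1 + t ^ 2) ≤ A ^ 2 / B / 2 := by
    have : δ ≤ A ^ 2 / B / 2 / (1 + t ^ 2) := min_le_right _ _
    rwa [le_div_iff₀ hden] at this
  have hδ2 : δ ≤ 1 := by
    have h1 : δ ≤ 1 / (1 + t ^ 2) := min_le_left _ _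
    have h2 : 1 / (1 + t ^ 2) ≤ 1 := by
      rw [div_le_one hden]; nlinarith [sq_nonneg t]
    linarith
  let y : V → ℝ := Function.update r0 u (-t)
  have hyu : y u = -t := Function.update_self _ _ _
  have hyne : ∀ w, w ≠ u → y w = r0 w := fun w hw => Function.update_of_ne hw _ _
  have hru : r0 u = 0 := hrz u hu0
  have hupd : Function.update y u 0 = r0 := by
    funext w
    by_cases hw : w = u
    · rw [hw, Function.update_self, hru]
    · rw [Function.update_of_ne hw, hyne w hw]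
  have hLfy : Lf G F.σ (F.σ u) u y = -A := by
    rw [← hLf]
    unfold Lf
    apply Finset.sum_congr rfl
    intro w _
    split_ifs with h
    · have hne : w ≠ u := fun h' => by rw [h'] at h; exact G.loopless.irrefl u h
      rw [hyne w hne]
    · rfl
  have hAAy : AA G F.σ y F.σ y = F.E 0 + 2 * t * A := by
    rw [AA_zero_at_L1 F.σ u y, hupd, hAAr, hLfy, hyu]; ring
  have hsqr : ∑ w, r0 w ^ 2 = 1 := by
    rw [← e0_sq_sum F]
    apply Finset.sum_congr rfl
    intro w _
    show (if F.σ w = F.σ u then -F.e 0 w else F.e 0 w) ^ 2 = _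
    split_ifs
    · ring
    · rfl
  have hsqy : ∑ w, y w ^ 2 = 1 + t ^ 2 := by
    rw [← hsqr, ← Finset.add_sum_erase _ _ (Finset.mem_univ u), ← Finset.add_sum_erase (Finset.univ)
      (fun w => r0 w ^ 2) (Finset.mem_univ u)]
    have h7 : ∑ w ∈ Finset.univ.erase u, y w ^ 2 = ∑ w ∈ Finset.univ.erase u, r0 w ^ 2 := by
      apply Finset.sum_congr rfl
      intro w hw
      rw [hyne w (Finset.ne_of_mem_erase hw)]
    rw [h7, hyu, hru]
    ring
  have hdiff : ∑ w, (y w - r0 w) ^ 2 = t ^ 2 := by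
    rw [← Finset.add_sum_erase _ _ (Finset.mem_univ u)]
    have h7 : ∑ w ∈ Finset.univ.erase u, (y w - r0 w) ^ 2 = 0 := by
      apply Finset.sum_eq_zero
      intro w hw
      rw [hyne w (Finset.ne_of_mem_erase hw), sub_self]
      ring
    rw [h7, hyu, hru]
    ring
  have h1 : F.E 0 < F.E 0 + δ := by linarith
  have h3 : F.E (Fin.last k) < F.E 0 + δ :=
    lt_of_le_of_lt (F.anti 0 (Fin.last k) (Fin.zero_le _)) h1
  have hoff : ∀ w, w ∉ F.I → y w = 0 := by
    intro w hw
    have hne : w ≠ u := fun h => hw (h ▸ hu)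
    rw [hyne w hne]
    exact hrz w (F.supp 0 w hw)
  have h4 := hN (F.E 0 + δ) h3 (by linarith) F.σ y r0
    ⟨fun w _ => rfl, fun w hw => by rw [hoff w hw]⟩
    (fun w hw hpos => by rw [hoff w hw] at hpos; exact absurd hpos (lt_irrefl _)) hrz
  have h5 := Th_ge_L1 F h1.le F.σ y
  rw [hsqy, hAAy] at h5
  rw [hdiff] at h4
  have h6 : 2 * t * A ≤ B * t ^ 2 + δ * (1 + t ^ 2) := by
    have e1 : B * t ^ 2 = F.E 0 * t ^ 2 + 2 / τ * t ^ 2 + t ^ 2 := by rw [hB]; ring
    have e2 : 0 ≤ t ^ 2 := sq_nonneg t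
    have e3 : (F.E 0 + δ) * (1 + t ^ 2) = F.E 0 + F.E 0 * t ^ 2 + δ * (1 + t ^ 2) := by ring
    rw [e3] at h5
    linarith
  have h7 : B * t = A := by rw [ht]; field_simp
  have h8 : B * t ^ 2 = A * t := by rw [pow_two, ← mul_assoc, h7]
  have h9 : A ^ 2 / B = A * t := by rw [ht]; ring
  rw [h9] at hδ1
  nlinarith [mul_pos hApos htpos]

end UC
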