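import Pool.Agent.helper25.UC.L1

/-!
# L3 : strict balance at the outer neighbours

`U1 = {e_0 ≠ 0}`, `t ∉ I` adjacent to `U1`, `b` a colour.  Claim: there is `j` with `E_j = E_0`,
`Lf σ b t e_j < 0` and `Lf σ b t e_i = 0` for `i < j`.

If `Lf σ b t e_0 ≠ 0`, then `bal` gives a first nonzero index, which is `0`, with negative value.
Now let `Lf σ b t e_0 = 0`.  Put `A = ∑_{w~t} e_0 w > 0`, `S = ∑_{w~t, σ w = b} e_0 w`;
`Lf σ b t e_0 = 2S - A`, so `S = A/2 > 0`.  `r0 w = e_0 w` if `σ w = b`, else `0`.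
`AA σ r0 σ r0 = E_0 ∑ r0²`: for `v ∈ U1` with `σ v = b` all neighbours of `v` in `U1` have colour `b`
(`adj_same`), so `∑_{w~v} ε(σ v,σ w) r0 w = ∑_{w ~ v} ε(σ v, σ w) e_0 w = E_0 e_0 v`.
Suppose that `Lf σ b t e_j = 0` for all `j` with `E_j = E_0`.
* Case all `E_j = E_0`.  Colours: `σ` except `b` at `t`.  `y = r0 + θ 1_t`, `θ > 0`: admissible,
  `t` is neutral for `b`, `AA(y,y) = E_0∑r0² + 2θ Lf σ b t r0 = E_0 ∑ r0² + 2θ S`.
  `NoKick` for `E' ∈ (E_0, n0+1]`: `E_0∑r0² + 2θS - E'(∑r0² + θ²) ≤ (2/τ)θ²`; `E' ↓ E_0`: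
  `2θS ≤ (E_0 + 2/τ)θ²` for all `θ > 0`: false.
* Case some `E_j < E_0`: then `E_l < E_0` (`l = last`, `anti`).  Choose `E'` with `E_j < E' < E_0`
  for all `j` with `E_j < E_0`.  `y = r0`: `Th F E' σ r0 = (E_0-E')∑r0² - ∑ (E_j-E')a_j(r0)²
  ≥ (E_0 - E')(∑ r0² - ∑_{E_j=E_0} a_j(r0)²)`; `NoKick`: `≤ 0`.  So
  `∑ r0² ≤ ∑_{E_j=E_0} a_j(r0)²`, hence `r0 = ∑_{E_j=E_0} a_j(r0) e_j` (orthonormal system), and
  `Lf σ b t r0 = ∑_{E_j = E_0} a_j Lf σ b t e_j = 0`; but `Lf σ b t r0 = S > 0`.  Contradiction.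
So some `j` with `E_j = E_0` has `Lf σ b t e_j ≠ 0`.  The first nonzero index `i ≤ j` (from `bal`)
has negative value and `E_i ≥ E_j = E_0`, `E_i ≤ E_0`.
-/

namespace UC
open Finset
variable {V : Type} [Fintype V] [DecidableEq V] {s k : ℕ}
variable {G : SimpleGraph V} [DecidableRel G.Adj]

/-- the part of `e_0` of colour `b` -/
noncomputable def l3r (F : Flag G s (k + 1)) (b : Fin s) : V → ℝ :=
  fun w => if F.σ w = b then F.e 0 w else 0

theorem l3r_same (F : Flag G s (k + 1)) (τ : ℝ) (hτ : 0 < τ) (hN : NoKick F τ) (b : Fin s) (v u : V)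
    (hv : F.σ v = b) (hv0 : F.e 0 v ≠ 0) (hvu : G.Adj v u) : l3r F b u = F.e 0 u := by
  unfold l3r
  by_cases hu : F.e 0 u = 0
  · rw [hu]; simp
  · rw [if_pos ((adj_same F τ hτ hN v u hvu hv0 hu).symm.trans hv)]

theorem l3_AA (F : Flag G s (k + 1)) (τ : ℝ) (hτ : 0 < τ) (hN : NoKick F τ) (b : Fin s) :
    AA G F.σ (l3r F b) F.σ (l3r F b) = F.E 0 * ∑ v, l3r F b v ^ 2 := by
  rw [AA_eq_Lf, mul_sum]
  refine sum_congr rfl fun v _ => ?_
  by_cases h0 : l3r F b v = 0
  · rw [h0]; ring
  · have hv : F.σ v = b := by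
      by_contra hne
      exact h0 (by unfold l3r; rw [if_neg hne])
    have hr : l3r F b v = F.e 0 v := by unfold l3r; rw [if_pos hv]
    have hv0 : F.e 0 v ≠ 0 := by rwa [hr] at h0
    have hI : v ∈ F.I := by
      by_contra hne
      exact hv0 (F.supp 0 v hne)
    have h1 : Lf G F.σ (F.σ v) v (l3r F b) = Lf G F.σ (F.σ v) v (F.e 0) := by
      unfold Lf
      refine sum_congr rfl fun u _ => ?_
      by_cases hvu : G.Adj v u
      · rw [if_pos hvu, if_pos hvu, l3r_same F τ hτ hN b v u hv hv0 hvu]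
      · rw [if_neg hvu, if_neg hvu]
    rw [h1, F.eig 0 v hI, ← hr]
    ring

theorem l3_eps_comm (a b : Fin s) : eps a b = eps b a := by
  unfold eps
  by_cases h : a = b
  · rw [if_pos h, if_pos h.symm]
  · rw [if_neg h, if_neg (Ne.symm h)]

/-- adding `θ` balls of colour `b` at `t` -/
theorem l3_kick (σ : V → Fin s) (b : Fin s) (t : V) (r : V → ℝ) (hr : r t = 0) (θ : ℝ) :
    AA G (Function.update σ t b) (fun w => r w + θ * (if w = t then 1 else 0))
      (Function.update σ t b) (fun w => r w + θ * (if w = t then 1 else 0)) =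
      AA G σ r σ r + 2 * θ * Lf G σ b t r := by
  set c := Function.update σ t b with hc
  set y : V → ℝ := fun w => r w + θ * (if w = t then 1 else 0) with hy
  have hct : c t = b := by rw [hc, Function.update_self]
  have hcn : ∀ u, u ≠ t → c u = σ u := fun u hu => by rw [hc, Function.update_of_ne hu]
  have hyt : y t = θ := by simp only [hy, if_true, hr]; ring
  have hyn : ∀ u, u ≠ t → y u = r u := fun u hu => by simp only [hy, if_neg hu]; ring
  have key : ∀ v, y v * Lf G c (c v) v y = r v * Lf G σ (σ v) v r +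
      θ * (if G.Adj t v then eps b (σ v) * r v else 0) +
      (if v = t then θ * Lf G σ b t r else 0) := by
    intro v
    by_cases hv : v = t
    · subst hv
      rw [hct, hyt, hr, if_pos rfl, if_neg (G.loopless.irrefl v)]
      have h1 : Lf G c b v y = Lf G σ b v r := by
        unfold Lf
        refine sum_congr rfl fun u _ => ?_
        by_cases hvu : G.Adj v u
        · have hne : u ≠ v := fun h => G.loopless.irrefl v (h ▸ hvu)
          rw [if_pos hvu, if_pos hvu, hcn u hne, hyn u hne]
        · rw [if_neg hvu, if_neg hvu]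
      rw [h1]; ring
    · rw [hcn v hv, hyn v hv, if_neg hv]
      have h1 : Lf G c (σ v) v y = Lf G σ (σ v) v r +
          θ * (if G.Adj v t then eps (σ v) b else 0) := by
        unfold Lf
        have h2 : ∀ u, (if G.Adj v u then eps (σ v) (c u) * y u else 0) =
            (if G.Adj v u then eps (σ v) (σ u) * r u else 0) +
            (if u = t then θ * (if G.Adj v t then eps (σ v) b else 0) else 0) := by
          intro u
          by_cases hu : u = t
          · subst hu
            rw [hct, hyt, hr, if_pos rfl]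
            by_cases hvu : G.Adj v u
            · rw [if_pos hvu, if_pos hvu, if_pos hvu]; ring
            · rw [if_neg hvu, if_neg hvu, if_neg hvu]; ring
          · rw [hcn u hu, hyn u hu, if_neg hu, add_zero]
        rw [sum_congr rfl fun u _ => h2 u, sum_add_distrib, Finset.sum_ite_eq' univ t]
        simp
      rw [h1]
      by_cases hvt : G.Adj v t
      · rw [if_pos hvt, if_pos hvt.symm, l3_eps_comm (σ v) b]; ring
      · rw [if_neg hvt, if_neg (fun h => hvt h.symm)]; ring
  rw [AA_eq_Lf, sum_congr rfl fun v _ => key v, sum_add_distrib, sum_add_distrib, ← mul_sum,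
    Finset.sum_ite_eq' univ t, AA_eq_Lf]
  simp only [mem_univ, if_true]
  have : (∑ v, if G.Adj t v then eps b (σ v) * r v else 0) = Lf G σ b t r := rfl
  rw [this]; ring

theorem strict_outer (F : Flag G s (k + 1)) (τ : ℝ) (hτ : 0 < τ) (hN : NoKick F τ) (t v : V)
    (ht : t ∉ F.I) (htv : G.Adj t v) (hv : F.e 0 v ≠ 0) (b : Fin s) :
    ∃ j, F.E j = F.E 0 ∧ Lf G F.σ b t (F.e j) < 0 ∧
      ∀ i, i < j → Lf G F.σ b t (F.e i) = 0 := by
  classical
  -- it is enough to find one nonzero entry with rate `E 0`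
  have red : (∃ j, F.E j = F.E 0 ∧ Lf G F.σ b t (F.e j) ≠ 0) →
      ∃ j, F.E j = F.E 0 ∧ Lf G F.σ b t (F.e j) < 0 ∧
      ∀ i, i < j → Lf G F.σ b t (F.e i) = 0 := by
    rintro ⟨j, hj, hne⟩
    rcases F.bal t ht b with h0 | ⟨i, hi, hi'⟩
    · exact absurd (h0 j) hne
    · refine ⟨i, le_antisymm (F.anti 0 i (Fin.zero_le i)) ?_, hi, hi'⟩
      have hij : i ≤ j := by
        by_contra hcon
        exact hne (hi' j (not_le.1 hcon))
      rw [← hj]
      exact F.anti i j hij
  apply red
  by_contra hcon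
  push Not at hcon
  -- all entries with rate `E 0` vanish
  set r0 := l3r F b with hr0
  have ht0 : F.e 0 t = 0 := F.supp 0 t ht
  have hr0t : r0 t = 0 := by
    simp only [hr0, l3r]
    rw [ht0]; simp
  have hrnn : ∀ w, 0 ≤ r0 w := fun w => by
    simp only [hr0, l3r]
    split_ifs
    · exact e0_nonneg F w
    · exact le_rfl
  have hS : 0 < Lf G F.σ b t r0 := by
    have h1 : Lf G F.σ b t (F.e 0) = 0 := hcon 0 rfl
    have h2 : 2 * Lf G F.σ b t r0 = Lf G F.σ b t (F.e 0) +
        ∑ u, (if G.Adj t u then F.e 0 u else 0) := by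
      unfold Lf
      rw [mul_sum, ← sum_add_distrib]
      refine sum_congr rfl fun u _ => ?_
      by_cases hu : G.Adj t u
      · rw [if_pos hu, if_pos hu, if_pos hu]
        simp only [hr0, l3r, eps]
        by_cases h3 : F.σ u = b
        · rw [if_pos h3.symm, if_pos h3]; ring
        · rw [if_neg (fun h => h3 h.symm), if_neg h3]; ring
      · rw [if_neg hu, if_neg hu, if_neg hu]; ring
    have h3 : 0 < ∑ u, (if G.Adj t u then F.e 0 u else 0) := by
      refine sum_pos' (fun u _ => ?_) ⟨v, mem_univ _, ?_⟩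
      · split_ifs
        · exact e0_nonneg F u
        · exact le_rfl
      · rw [if_pos htv]
        exact lt_of_le_of_ne (e0_nonneg F v) (Ne.symm hv)
    linarith
  set S := Lf G F.σ b t r0 with hSdef
  set R := ∑ v, r0 v ^ 2 with hR
  have hRnn : 0 ≤ R := sum_nonneg fun v _ => sq_nonneg _
  have hAA : AA G F.σ r0 F.σ r0 = F.E 0 * R := l3_AA F τ hτ hN b
  have hE0 : 0 ≤ F.E 0 := F.nonneg 0
  have hE0' : F.E 0 ≤ cV V := F.E_le 0
  have hz : ∀ w, F.e 0 w = 0 → r0 w = 0 := fun w hw => by
    simp only [hr0, l3r]; rw [hw]; simp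
  by_cases hall : ∀ j, F.E j = F.E 0
  · -- all rates are equal
    have hkick : ∀ θ η : ℝ, 0 < θ → 0 < η → η ≤ 1 →
        F.E 0 * R + 2 * θ * S - (F.E 0 + η) * (R + θ ^ 2) ≤ 2 / τ * θ ^ 2 := by
      intro θ η hθ hη hη1
      set y : V → ℝ := fun w => r0 w + θ * (if w = t then 1 else 0) with hy
      have hk := hN (F.E 0 + η) (by rw [hall (Fin.last k)]; linarith) (by linarith)
        (Function.update F.σ t b) y r0 ⟨?_, ?_⟩ ?_ hz
      · have e1 : F.Th (F.E 0 + η) (Function.update F.σ t b) y =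
            F.E 0 * R + 2 * θ * S - (F.E 0 + η) * ∑ v, y v ^ 2 +
              η * ∑ j, F.a j y ^ 2 := by
          unfold Flag.Th
          rw [hy, l3_kick F.σ b t r0 hr0t θ, ← hy, hAA]
          have : ∑ j, (F.E j - (F.E 0 + η)) * F.a j y ^ 2 = -(η * ∑ j, F.a j y ^ 2) := by
            rw [mul_sum, ← sum_neg_distrib]
            refine sum_congr rfl fun j _ => ?_
            rw [hall j]; ring
          rw [this]; ring
        have e2 : ∑ v, y v ^ 2 = R + θ ^ 2 := by
          have : ∀ v, y v ^ 2 = r0 v ^ 2 + (if v = t then θ ^ 2 else 0) := by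
            intro v
            simp only [hy]
            by_cases h : v = t
            · rw [if_pos h, if_pos h, h, hr0t]; ring
            · rw [if_neg h, if_neg h]; ring
          rw [sum_congr rfl fun v _ => this v, sum_add_distrib, Finset.sum_ite_eq' univ t]
          simp [hR]
        have e3 : ∑ v, (y v - r0 v) ^ 2 = θ ^ 2 := by
          have : ∀ v, (y v - r0 v) ^ 2 = (if v = t then θ ^ 2 else 0) := by
            intro v
            simp only [hy]
            by_cases h : v = t
            · rw [if_pos h, if_pos h]; ring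
            · rw [if_neg h, if_neg h]; ring
          rw [sum_congr rfl fun v _ => this v, Finset.sum_ite_eq' univ t]
          simp
        rw [e1, e2, e3] at hk
        have e4 : 0 ≤ η * ∑ j, F.a j y ^ 2 :=
          mul_nonneg hη.le (sum_nonneg fun j _ => sq_nonneg _)
        linarith
      · intro w hw
        rw [Function.update_of_ne]
        rintro rfl
        exact ht hw
      · intro w _
        simp only [hy]
        split_ifs
        · have := hrnn w; linarith
        · have := hrnn w; linarith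
      · intro w hw hwy j
        by_cases h : w = t
        · subst h
          rw [Function.update_self]
          exact hcon j (hall j)
        · exfalso
          have h1 : r0 w = 0 := hz w (F.supp 0 w hw)
          simp only [hy, if_neg h, h1] at hwy
          linarith
    -- choice of `θ` and `η`
    have h2τ : 0 < 2 / τ := by positivity
    set Cc := F.E 0 + 1 + 2 / τ with hCc
    have hCpos : 0 < Cc := by rw [hCc]; linarith
    have hθ : 0 < S / Cc := div_pos hS hCpos
    have hθS : 0 < S / Cc * S := mul_pos hθ hS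
    set η := min 1 (S / Cc * S / (2 * (R + 1))) with hη
    have hηpos : 0 < η := lt_min one_pos (div_pos hθS (by linarith))
    have hη1 : η ≤ 1 := min_le_left _ _
    have hηR : η * R ≤ S / Cc * S / 2 := by
      have h1 : η ≤ S / Cc * S / (2 * (R + 1)) := min_le_right _ _
      have h2 : η * (R + 1) ≤ S / Cc * S / 2 := by
        calc η * (R + 1) ≤ S / Cc * S / (2 * (R + 1)) * (R + 1) :=
              mul_le_mul_of_nonneg_right h1 (by linarith)
          _ = S / Cc * S / 2 := by
              have : R + 1 ≠ 0 := by linarith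
              field_simp
      nlinarith
    have h3 := hkick (S / Cc) η hθ hηpos hη1
    have h4 : Cc * (S / Cc) ^ 2 = S / Cc * S := by field_simp
    have h5 : (F.E 0 + η + 2 / τ) * (S / Cc) ^ 2 ≤ Cc * (S / Cc) ^ 2 :=
      mul_le_mul_of_nonneg_right (by rw [hCc]; linarith) (sq_nonneg _)
    nlinarith
  · -- some rate is smaller
    push Not at hall
    obtain ⟨j0, hj0⟩ := hall
    obtain ⟨m, hm, hmax⟩ := Finset.exists_max_image (univ.filter fun j => F.E j ≠ F.E 0) F.E
      ⟨j0, by rw [mem_filter]; exact ⟨mem_univ _, hj0⟩⟩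
    have hmE : F.E m ≠ F.E 0 := (mem_filter.1 hm).2
    have hlt : ∀ j, F.E j ≠ F.E 0 → F.E j < F.E 0 := fun j hj =>
      lt_of_le_of_ne (F.anti 0 j (Fin.zero_le j)) hj
    have hm0 := hlt m hmE
    set E' := (F.E m + F.E 0) / 2 with hE'
    have hbelow : ∀ j, F.E j ≠ F.E 0 → F.E j < E' := fun j hj => by
      have := hmax j (by rw [mem_filter]; exact ⟨mem_univ _, hj⟩)
      rw [hE']; linarith
    have hlast : F.E (Fin.last k) ≠ F.E 0 := by
      have := F.anti j0 (Fin.last k) (Fin.le_last j0)
      have := hlt j0 hj0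
      exact ne_of_lt (by linarith)
    have hk := hN E' (hbelow _ hlast) (by rw [hE']; linarith) F.σ r0 r0
      ⟨fun w _ => rfl, fun w _ => hrnn w⟩
      (fun w hw hwy => by
        exfalso
        rw [hz w (F.supp 0 w hw)] at hwy
        exact lt_irrefl _ hwy) hz
    have hk' : F.Th E' F.σ r0 ≤ 0 := by
      refine hk.trans ?_
      simp
    unfold Flag.Th at hk'
    rw [hAA] at hk'
    -- `∑ a_j² over all j` against `R`
    have hgap : 0 < F.E 0 - E' := by rw [hE']; linarith
    have hterm : ∀ j, (F.E j - E') * F.a j r0 ^ 2 ≤ (F.E 0 - E') * F.a j r0 ^ 2 := fun j =>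
      mul_le_mul_of_nonneg_right (by linarith [F.anti 0 j (Fin.zero_le j)]) (sq_nonneg _)
    have hbes := F.bessel r0
    have hsum : ∑ j, ((F.E 0 - E') * F.a j r0 ^ 2 - (F.E j - E') * F.a j r0 ^ 2) ≤ 0 := by
      rw [sum_sub_distrib, ← mul_sum]
      have := mul_le_mul_of_nonneg_left hbes hgap.le
      nlinarith
    have hzero : ∀ j, (F.E 0 - E') * F.a j r0 ^ 2 - (F.E j - E') * F.a j r0 ^ 2 = 0 := by
      intro j
      have h1 := (sum_eq_zero_iff_of_nonneg (s := univ)
        (f := fun j => (F.E 0 - E') * F.a j r0 ^ 2 - (F.E j - E') * F.a j r0 ^ 2)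
        (fun j _ => sub_nonneg.2 (hterm j))).1
        (le_antisymm hsum (sum_nonneg fun j _ => sub_nonneg.2 (hterm j)))
      exact h1 j (mem_univ _)
    have haz : ∀ j, F.E j ≠ F.E 0 → F.a j r0 = 0 := by
      intro j hj
      have h1 := hzero j
      have h2 := hlt j hj
      have h3 : (F.E 0 - F.E j) * F.a j r0 ^ 2 = 0 := by linarith
      rcases mul_eq_zero.1 h3 with h4 | h4
      · linarith
      · exact pow_eq_zero_iff (two_ne_zero) |>.1 h4
    have ho2 : F.o2 r0 = 0 := by
      have h1 : ∑ j, (F.E j - E') * F.a j r0 ^ 2 = (F.E 0 - E') * ∑ j, F.a j r0 ^ 2 := by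
        rw [mul_sum]
        exact sum_congr rfl fun j _ => (sub_eq_zero.1 (hzero j)).symm
      rw [h1] at hk'
      have h2 : (F.E 0 - E') * F.o2 r0 ≤ 0 := by
        unfold Flag.o2
        nlinarith
      have h3 := F.o2_nonneg r0
      exact le_antisymm (by
        by_contra hc
        push Not at hc
        have := mul_pos hgap hc
        linarith) h3
    have hrho : F.rho r0 = fun _ => 0 := by
      funext w
      have h1 := F.rho_sq_le r0 w
      rw [ho2] at h1
      exact pow_eq_zero_iff (two_ne_zero) |>.1 (le_antisymm h1 (sq_nonneg _))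
    have hfield := F.field F.σ r0 (fun w _ => rfl) t b
    rw [hrho] at hfield
    have h1 : ∑ j, F.a j r0 * Lf G F.σ b t (F.e j) = 0 := by
      refine sum_eq_zero fun j _ => ?_
      by_cases hj : F.E j = F.E 0
      · rw [hcon j hj, mul_zero]
      · rw [haz j hj, zero_mul]
    have h2 : Lf G F.σ b t (fun _ => (0 : ℝ)) = 0 := by
      unfold Lf
      simp
    rw [h1, h2] at hfield
    rw [← hSdef] at hfield
    linarith

end UC
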