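import Pool.Agent.helper25.UC.Defs
import Pool.Agent.helper25.UC.A1

/-!
# P1 : minimum principle

`R` a set of states (with at least one ball), `f` harmonic with values in `[0,1]`,
`F` superharmonic on `R` (`gen F ≤ 0`), `F ≥ -1` on `R`; each one-step exit `z'` of `R` satisfies
`(f(z') ≥ f₀ and F(z') ≥ -1) or F(z') ≥ 1`.
Exit function: `U ≥ u0 > 0` on `R`, `gen U ≤ -c U` on `R`, `U ≥ 0` at the exits.
Then `f ≥ (f₀/2)(1 - F)` on `R`.
-/

set_option linter.unusedSectionVars false

namespace UC
open Finset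
variable {V : Type} [Fintype V] [DecidableEq V] {s : ℕ}
variable {G : SimpleGraph V} [DecidableRel G.Adj]

open Classical in
/-- probability of staying `m` steps in `R` -/
noncomputable def p1Stay (G : SimpleGraph V) [DecidableRel G.Adj] (R : Set (St V s)) :
    ℕ → St V s → ℝ
  | 0, z => if z ∈ R then 1 else 0
  | m + 1, z => if z ∈ R then (∑ w, (z.n w : ℝ) * p1Stay G R m (step G z w)) / tot z else 0

theorem p1_stay_off (R : Set (St V s)) (m : ℕ) (z : St V s) (hz : z ∉ R) :
    p1Stay G R m z = 0 := by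
  cases m <;> simp [p1Stay, hz]

theorem p1_gen_sum (F : St V s → ℝ) (z : St V s) :
    ∑ w, (z.n w : ℝ) * F (step G z w) = gen G F z + tot z * F z := by
  unfold gen tot
  rw [Finset.sum_mul, ← Finset.sum_add_distrib]
  exact Finset.sum_congr rfl fun w _ => by ring

theorem min_principle (f F U : St V s → ℝ) (R : Set (St V s)) (f₀ u0 c : ℝ)
    (hf0 : ∀ z, 0 ≤ f z) (hfh : ∀ z, gen G f z = 0)
    (hf₀ : 0 ≤ f₀) (hu0 : 0 < u0) (hc : 0 < c)
    (hR : ∀ z ∈ R, 1 ≤ tot z)
    (hF : ∀ z ∈ R, gen G F z ≤ 0) (hF1 : ∀ z ∈ R, -1 ≤ F z)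
    (hexit : ∀ z ∈ R, ∀ w, 1 ≤ z.n w → step G z w ∉ R →
      (f₀ ≤ f (step G z w) ∧ -1 ≤ F (step G z w)) ∨ 1 ≤ F (step G z w))
    (hU : ∀ z ∈ R, u0 ≤ U z) (hUg : ∀ z ∈ R, gen G U z ≤ -(c * U z))
    (hUe : ∀ z ∈ R, ∀ w, 1 ≤ z.n w → step G z w ∉ R → 0 ≤ U (step G z w)) :
    ∀ z ∈ R, f₀ / 2 * (1 - F z) ≤ f z := by
  -- Claim 1
  have claim1 : ∀ m : ℕ, ∀ z ∈ R, -(f₀ * p1Stay G R m z) ≤ f z - f₀ / 2 * (1 - F z) := by
    intro m
    induction m with
    | zero =>
      intro z hz
      have h1 := hF1 z hz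
      have h2 := hf0 z
      simp only [p1Stay, if_pos hz]
      nlinarith
    | succ m ih =>
      intro z hz
      have ht : 0 < tot z := lt_of_lt_of_le one_pos (hR z hz)
      simp only [p1Stay, if_pos hz]
      have hterm : ∀ w, (z.n w : ℝ) * (-(f₀ * p1Stay G R m (step G z w))) ≤
          (z.n w : ℝ) * (f (step G z w) - f₀ / 2 * (1 - F (step G z w))) := by
        intro w
        rcases Nat.eq_zero_or_pos (z.n w) with h0 | h0
        · simp [h0]
        · apply mul_le_mul_of_nonneg_left _ (Nat.cast_nonneg _)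
          by_cases hw : step G z w ∈ R
          · exact ih _ hw
          · rw [p1_stay_off R m _ hw]
            rcases hexit z hz w h0 hw with ⟨h1, h2⟩ | h1
            · nlinarith
            · have := hf0 (step G z w)
              nlinarith
      have hsum := Finset.sum_le_sum fun w (_ : w ∈ univ) => hterm w
      have hH : ∑ w, (z.n w : ℝ) * (f (step G z w) - f₀ / 2 * (1 - F (step G z w))) ≤
          tot z * (f z - f₀ / 2 * (1 - F z)) := by
        have e1 := p1_gen_sum (G := G) f z
        have e2 := p1_gen_sum (G := G) F z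
        have e3 : ∑ w, (z.n w : ℝ) * (f (step G z w) - f₀ / 2 * (1 - F (step G z w))) =
            ∑ w, (z.n w : ℝ) * f (step G z w) - f₀ / 2 * tot z +
              f₀ / 2 * ∑ w, (z.n w : ℝ) * F (step G z w) := by
          unfold tot
          rw [Finset.mul_sum, Finset.mul_sum, ← Finset.sum_sub_distrib, ← Finset.sum_add_distrib]
          exact Finset.sum_congr rfl fun w _ => by ring
        rw [e3, e1, e2, hfh z]
        have h4 := hF z hz
        nlinarith [mul_nonneg (by linarith : (0:ℝ) ≤ f₀ / 2) (neg_nonneg.mpr h4)]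
      have e5 : ∑ w, (z.n w : ℝ) * (-(f₀ * p1Stay G R m (step G z w))) =
          -(f₀ * ∑ w, (z.n w : ℝ) * p1Stay G R m (step G z w)) := by
        rw [Finset.mul_sum, ← Finset.sum_neg_distrib]
        exact Finset.sum_congr rfl fun w _ => by ring
      rw [e5] at hsum
      have h6 := le_trans hsum hH
      have e7 : -(f₀ * ((∑ w, (z.n w : ℝ) * p1Stay G R m (step G z w)) / tot z)) =
          (-(f₀ * ∑ w, (z.n w : ℝ) * p1Stay G R m (step G z w))) / tot z := by ring
      rw [e7, div_le_iff₀ ht]
      linarith [mul_comm (tot z) (f z - f₀ / 2 * (1 - F z))]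
  -- Claim 2
  set c' : ℝ := min c 1 with hc'
  have hc'0 : 0 < c' := lt_min hc one_pos
  have hc'1 : c' ≤ 1 := min_le_right _ _
  have hc'c : c' ≤ c := min_le_left _ _
  have hn0 : (0 : ℝ) ≤ cV V := by unfold cV; positivity
  have fac0 : ∀ t : ℝ, 1 ≤ t → ∀ i : ℕ, 0 ≤ 1 - c' / (t + cV V * i) := by
    intro t ht i
    have h1 : (1 : ℝ) ≤ t + cV V * i := by
      have : 0 ≤ cV V * (i : ℝ) := mul_nonneg hn0 (Nat.cast_nonneg _)
      linarith
    have h2 : c' / (t + cV V * i) ≤ 1 := by
      rw [div_le_one (by linarith)]; linarith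
    linarith
  have claim2 : ∀ m : ℕ, ∀ z ∈ R, u0 * p1Stay G R m z ≤
      U z * ∏ i ∈ range m, (1 - c' / (tot z + cV V * i)) := by
    intro m
    induction m with
    | zero =>
      intro z hz
      simp only [p1Stay, if_pos hz, Finset.range_zero, Finset.prod_empty, mul_one]
      exact hU z hz
    | succ m ih =>
      intro z hz
      have ht1 := hR z hz
      have ht : 0 < tot z := lt_of_lt_of_le one_pos ht1
      simp only [p1Stay, if_pos hz]
      set Pi : ℝ := ∏ i ∈ range m, (1 - c' / (tot z + cV V * ((i + 1 : ℕ) : ℝ))) with hPi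
      have hPi0 : 0 ≤ Pi := Finset.prod_nonneg fun i _ => fac0 _ ht1 _
      have hterm : ∀ w, (z.n w : ℝ) * (u0 * p1Stay G R m (step G z w)) ≤
          (z.n w : ℝ) * (U (step G z w) * Pi) := by
        intro w
        rcases Nat.eq_zero_or_pos (z.n w) with h0 | h0
        · simp [h0]
        · apply mul_le_mul_of_nonneg_left _ (Nat.cast_nonneg _)
          by_cases hw : step G z w ∈ R
          · refine le_trans (ih _ hw) ?_
            have hU0 : 0 ≤ U (step G z w) := le_trans hu0.le (hU _ hw)
            apply mul_le_mul_of_nonneg_left _ hU0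
            apply Finset.prod_le_prod
            · intro i _; exact fac0 _ (hR _ hw) _
            · intro i _
              have h1 := step_tot_le (G := G) z w
              have h2 : 0 ≤ cV V * (i : ℝ) := mul_nonneg hn0 (Nat.cast_nonneg _)
              have h3 := hR _ hw
              have h4 : c' / (tot z + cV V * ((i + 1 : ℕ) : ℝ)) ≤
                  c' / (tot (step G z w) + cV V * i) := by
                apply div_le_div_of_nonneg_left hc'0.le (by linarith)
                push_cast
                linarith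
              linarith
          · rw [p1_stay_off R m _ hw, mul_zero]
            exact mul_nonneg (hUe z hz w h0 hw) hPi0
      have hsum := Finset.sum_le_sum fun w (_ : w ∈ univ) => hterm w
      have e1 : ∑ w, (z.n w : ℝ) * (u0 * p1Stay G R m (step G z w)) =
          u0 * ∑ w, (z.n w : ℝ) * p1Stay G R m (step G z w) := by
        rw [Finset.mul_sum]
        exact Finset.sum_congr rfl fun w _ => by ring
      have e2 : ∑ w, (z.n w : ℝ) * (U (step G z w) * Pi) =
          (∑ w, (z.n w : ℝ) * U (step G z w)) * Pi := by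
        rw [Finset.sum_mul]
        exact Finset.sum_congr rfl fun w _ => by ring
      rw [e1, e2, p1_gen_sum (G := G) U z] at hsum
      have hUz : u0 ≤ U z := hU z hz
      have h3 : gen G U z + tot z * U z ≤ (tot z - c') * U z := by
        have := hUg z hz
        have h4 : c' * U z ≤ c * U z := mul_le_mul_of_nonneg_right hc'c (by linarith)
        nlinarith
      have h5 := le_trans hsum (mul_le_mul_of_nonneg_right h3 hPi0)
      rw [Finset.prod_range_succ']
      have e6 : u0 * ((∑ w, (z.n w : ℝ) * p1Stay G R m (step G z w)) / tot z) =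
          (u0 * ∑ w, (z.n w : ℝ) * p1Stay G R m (step G z w)) / tot z := by ring
      rw [e6, div_le_iff₀ ht]
      have e7 : U z * (Pi * (1 - c' / (tot z + cV V * ((0 : ℕ) : ℝ)))) * tot z =
          (tot z - c') * U z * Pi := by
        have hne : tot z ≠ 0 := ht.ne'
        push_cast
        field_simp
        ring
      rw [hPi] at e7
      rw [e7]
      exact h5
  -- the limit
  intro z hz
  have ht1 := hR z hz
  have hUz : 0 < U z := lt_of_lt_of_le hu0 (hU z hz)
  have hlim : Filter.Tendsto (fun m : ℕ => -(f₀ * (U z / u0 *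
      Real.exp (-(c' / (tot z + cV V) * ∑ i ∈ range m, (1 / ((i : ℝ) + 1))))))) Filter.atTop
      (nhds (-(f₀ * (U z / u0 * 0)))) := by
    apply Filter.Tendsto.neg
    apply Filter.Tendsto.const_mul
    apply Filter.Tendsto.const_mul
    apply Real.tendsto_exp_neg_atTop_nhds_zero.comp
    apply Filter.Tendsto.const_mul_atTop (by positivity)
    exact Real.tendsto_sum_range_one_div_nat_succ_atTop
  have hle : ∀ m : ℕ, -(f₀ * (U z / u0 *
      Real.exp (-(c' / (tot z + cV V) * ∑ i ∈ range m, (1 / ((i : ℝ) + 1)))))) ≤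
      f z - f₀ / 2 * (1 - F z) := by
    intro m
    refine le_trans ?_ (claim1 m z hz)
    apply neg_le_neg
    apply mul_le_mul_of_nonneg_left _ hf₀
    have h2 := claim2 m z hz
    have h3 : ∏ i ∈ range m, (1 - c' / (tot z + cV V * i)) ≤
        Real.exp (-(c' / (tot z + cV V) * ∑ i ∈ range m, (1 / ((i : ℝ) + 1)))) := by
      rw [Finset.mul_sum, ← Finset.sum_neg_distrib, Real.exp_sum]
      apply Finset.prod_le_prod
      · intro i _; exact fac0 _ ht1 _
      · intro i _
        have h4 : c' / (tot z + cV V) * (1 / ((i : ℝ) + 1)) ≤ c' / (tot z + cV V * i) := by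
          rw [div_mul_div_comm, mul_one]
          apply div_le_div_of_nonneg_left hc'0.le
          · have : 0 ≤ cV V * (i : ℝ) := mul_nonneg hn0 (Nat.cast_nonneg _)
            linarith
          · have hi : (0 : ℝ) ≤ i := Nat.cast_nonneg _
            nlinarith [mul_nonneg hn0 hi, mul_nonneg (by linarith : (0:ℝ) ≤ tot z) hi]
        have h5 := Real.add_one_le_exp (-(c' / (tot z + cV V) * (1 / ((i : ℝ) + 1))))
        linarith
    have h4 : u0 * p1Stay G R m z ≤ U z *
        Real.exp (-(c' / (tot z + cV V) * ∑ i ∈ range m, (1 / ((i : ℝ) + 1)))) :=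
      le_trans h2 (mul_le_mul_of_nonneg_left h3 hUz.le)
    have h5 : p1Stay G R m z ≤ (U z *
        Real.exp (-(c' / (tot z + cV V) * ∑ i ∈ range m, (1 / ((i : ℝ) + 1))))) / u0 := by
      rw [le_div_iff₀ hu0]; linarith
    calc p1Stay G R m z ≤ _ := h5
      _ = _ := by ring
  have := le_of_tendsto' hlim hle
  simp at this
  linarith

end UC
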