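import Pool.Agent.helper25.UC.H1
import Pool.Agent.helper25.UC.H2
import Pool.Agent.helper25.UC.K2

/-!
# R1 : expectations after `m` steps; Levy's zero-one law for `f = 1 - hh`

`PT G φ m z = E_z φ(Z_m)`.  Claim `levy_hh`: `E_z [f(Z_m); two colours at time m] → 0`.
Proof.  For `tot z ≥ 1` (preserved by steps with `n_w ≥ 1`, `one_le_step_tot`; the other `w` have
weight `0`):
* `PT gg m z = hseq G m z` (`H1_hseq_succ`; induction on `m`; `gg = 1` iff `TwoCol`);
* `PT f m z = f z` (`f` harmonic: `badF_of_pos`'s field `harm` or `gen_hh`; induction);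
* if `¬ TwoCol y` then `hh y = 0` (`hh_le_gg`, `hh_nonneg`), `f y = 1`; so pointwise
  `(if TwoCol y then f y else 0) = f y - (1 - gg y)`, and `PT` is linear:
  `PT (…) m z = f z - (1 - hseq G m z) = hseq G m z - hh G z → 0` (`hseq_tendsto`).

`PR_le_PT`: `PR G R φ m z ≤ PT G φ m z` for `φ ≥ 0`: induction on `m`.
-/

namespace UC
open Finset Filter
variable {V : Type} [Fintype V] [DecidableEq V] {s : ℕ}

/-- expectation after `m` steps -/
noncomputable def PT (G : SimpleGraph V) [DecidableRel G.Adj] (φ : St V s → ℝ) :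
    ℕ → St V s → ℝ
  | 0, z => φ z
  | m + 1, z => (∑ w, (z.n w : ℝ) * PT G φ m (step G z w)) / tot z

open Classical in
/-- `E_z [f(Z_m) ; two colours at time m] → 0` -/
def Levy (G : SimpleGraph V) [DecidableRel G.Adj] (f : St V s → ℝ) : Prop :=
  ∀ z : St V s, 1 ≤ tot z →
    Tendsto (fun m => PT G (fun y => if TwoCol y then f y else 0) m z) atTop (nhds 0)

variable {G : SimpleGraph V} [DecidableRel G.Adj]

open Classical in
theorem R1_PT_eq (m : ℕ) : ∀ z : St V s, 1 ≤ tot z →
    PT G (fun y => if TwoCol y then 1 - hh G y else 0) m z = hseq G m z - hh G z := by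
  induction m with
  | zero =>
    intro z _
    show (if TwoCol z then 1 - hh G z else 0) = gg z - hh G z
    unfold gg
    by_cases h : TwoCol z
    · rw [if_pos h, if_pos h]
    · have h1 := hh_le_gg (G := G) z
      have h2 := hh_nonneg (G := G) z
      unfold gg at h1
      rw [if_neg h] at h1
      rw [if_neg h, if_neg h]
      linarith
  | succ m ih =>
    intro z hz
    have h0 : tot z ≠ 0 := by linarith
    have hterm : ∀ w, (z.n w : ℝ) * PT G (fun y => if TwoCol y then 1 - hh G y else 0) m
        (step G z w) = (z.n w : ℝ) * hseq G m (step G z w) - (z.n w : ℝ) * hh G (step G z w) := by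
      intro w
      rcases Nat.eq_zero_or_pos (z.n w) with h | h
      · rw [h]; simp
      · rw [ih _ (one_le_step_tot z w h)]; ring
    show (∑ w, (z.n w : ℝ) * PT G (fun y => if TwoCol y then 1 - hh G y else 0) m
        (step G z w)) / tot z = hseq G (m + 1) z - hh G z
    rw [H1_hh_fix z h0, H1_hseq_succ]
    unfold Pop
    rw [if_neg h0, Finset.sum_congr rfl fun w _ => hterm w, Finset.sum_sub_distrib, sub_div]

theorem levy_hh : Levy G (fun z : St V s => 1 - hh G z) := by
  classical
  intro z hz
  have h1 : Tendsto (fun m => hseq G m z - hh G z) atTop (nhds 0) := by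
    have := (hseq_tendsto (G := G) z).sub_const (hh G z)
    rwa [sub_self] at this
  refine h1.congr fun m => ?_
  rw [← R1_PT_eq m z hz]

theorem PR_le_PT (R : Set (St V s)) (hR : ∀ z ∈ R, 1 ≤ tot z) (φ : St V s → ℝ)
    (hφ : ∀ z, 0 ≤ φ z) (m : ℕ) (z : St V s) : PR G R φ m z ≤ PT G φ m z := by
  have hnn : ∀ m (z : St V s), 0 ≤ PT G φ m z := by
    intro m
    induction m with
    | zero => exact hφ
    | succ m ih =>
      intro z
      exact div_nonneg (Finset.sum_nonneg fun w _ => mul_nonneg (Nat.cast_nonneg _) (ih _))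
        (H1_tot_nonneg z)
  induction m generalizing z with
  | zero =>
    by_cases h : z ∈ R
    · rw [PR_zero_in h]; exact le_refl _
    · rw [PR_out h]; exact hφ z
  | succ m ih =>
    by_cases h : z ∈ R
    · rw [PR_succ_in h]
      exact div_le_div_of_nonneg_right (Finset.sum_le_sum fun w _ =>
        mul_le_mul_of_nonneg_left (ih _) (Nat.cast_nonneg _)) (H1_tot_nonneg z)
    · rw [PR_out h]; exact hnn _ z

end UC
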