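import Pool.Agent.helper25.UC.R9

/-!
# R10 : graphs for which the spectral condition is automatic

**trap_E_ge_one**: pick `v ∈ U`; `E x_v = ∑_{u~v} x_u > 0`, so `v` has a neighbour `u` with `x u > 0`
(`u ∈ U`).  `E x_v ≥ x_u`, `E x_u ≥ x_v`, so `E² x_v ≥ x_v`.

**trap_cubic**: let `W = {v : v ∈ U ∨ v has a neighbour in U}`.  If `W ≠ V`, by connectedness
(`Walk.exists_boundary_dart` as in Q1) there are adjacent `v ∈ W`, `t ∉ W`.  `v ∉ U` (else `t ∈ W`), so
`v` has a neighbour in `U`; `x t = 0`.  So `v` has at most two neighbours in `U`.  Let `u` be the one with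
the largest `x`: `2 x_u ≤ 2 ∑_{σ = σ u} < ∑_{p~v} x_p ≤ 2 x_u`.  Contradiction.

**trap_seven**: `U` is nonempty and proper, so there is `v ∉ U` adjacent to `U`.  `strict`: let `a` be a
neighbour in `U`; not all neighbours in `U` have the colour `σ a` (`2 S < S`), let `b` have another one;
if all neighbours in `U` had one of the two colours, `2S_a < S_a + S_b`, `2S_b < S_a + S_b`; so there is
a neighbour `c ∈ U` with a third colour.  Each of `a, b, c` has a neighbour `a', b', c'` in `U` (`eig`,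
`E > 0`), of the same colour (`same`).  So `a, a', b, b', c, c'` are distinct, all in `U`, and `v ∉ U`:
seven elements of `{v : v ∈ U ∨ …}`, which is disjoint from `A`.  (`Finset.card_union_of_disjoint` or
`card_le_card`.)

**not_inG_iff**: `→` is `strict_trap_of_not_inG`.  `←`: `not_inG_of_strict_trap`.  First case: by
`trap_cubic` `y = 0`.  Second case: let `A = {v : y v ≠ 0}`; by `trap_seven` `card A ≤ 2`.
`∑_{u~v} y_u y_v ≤ ∑_{u≠v∈A} |y_u||y_v| = (∑_A |y|)² - ∑ y² ≤ (card A - 1) ∑ y² ≤ ∑ y² ≤ E ∑ y²`.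
-/

namespace UC
open Finset
variable {V : Type} [Fintype V] [DecidableEq V] {s k : ℕ}
variable {G : SimpleGraph V} [DecidableRel G.Adj]

theorem r10_nonneg {E : ℝ} {U : Finset V} {σ : V → Fin s} {x : V → ℝ} (h : Trap G E U σ x)
    (v : V) : 0 ≤ x v := by
  by_cases hv : v ∈ U
  · exact (h.pos v hv).le
  · exact (h.zero v hv).ge

theorem r10_single {E : ℝ} {U : Finset V} {σ : V → Fin s} {x : V → ℝ} (h : Trap G E U σ x)
    {v u : V} (hu : G.Adj v u) : x u ≤ ∑ u, (if G.Adj v u then x u else 0) := by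
  have := Finset.single_le_sum (f := fun w => if G.Adj v w then x w else 0)
    (s := Finset.univ) (fun w _ => by
      split_ifs
      · exact r10_nonneg h w
      · exact le_rfl) (Finset.mem_univ u)
  simpa [hu] using this

theorem r10_nb {E : ℝ} {U : Finset V} {σ : V → Fin s} {x : V → ℝ} (h : Trap G E U σ x)
    {v : V} (hv : v ∈ U) : ∃ u ∈ U, G.Adj v u := by
  by_contra hcon
  push Not at hcon
  have h1 := h.eig v hv
  have h2 : ∑ u, (if G.Adj v u then x u else 0) = 0 := by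
    refine Finset.sum_eq_zero fun u _ => ?_
    by_cases hu : u ∈ U
    · rw [if_neg (hcon u hu)]
    · rw [h.zero u hu, ite_self]
  rw [h2] at h1
  have h3 := mul_pos h.E_pos (h.pos v hv)
  linarith

theorem r10_third {E : ℝ} {U : Finset V} {σ : V → Fin s} {x : V → ℝ} (h : Trap G E U σ x)
    {v : V} (hv : v ∉ U) (hu : ∃ u ∈ U, G.Adj v u) (C : Finset (Fin s)) (hC : C.card ≤ 2) :
    ∃ w ∈ U, G.Adj v w ∧ σ w ∉ C := by
  by_contra hcon
  push Not at hcon
  obtain ⟨u0, hu0, ha0⟩ := hu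
  set S := ∑ u, (if G.Adj v u then x u else 0) with hS
  have hS0 : 0 < S := lt_of_lt_of_le (h.pos u0 hu0) (r10_single h ha0)
  have h1 : S ≤ ∑ b ∈ C, ∑ u, (if G.Adj v u ∧ σ u = b then x u else 0) := by
    rw [Finset.sum_comm]
    refine Finset.sum_le_sum fun u _ => ?_
    by_cases ha : G.Adj v u
    · by_cases huU : u ∈ U
      · have := hcon u huU ha
        rw [Finset.sum_eq_single (σ u) (fun b _ hb => by rw [if_neg (fun h' => hb h'.2.symm)])
          (fun h' => absurd this h')]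
        simp [ha]
      · simp [h.zero u huU]
    · simp [ha]
  have hne : C.Nonempty := ⟨σ u0, hcon u0 hu0 ha0⟩
  have h3 : ∑ b ∈ C, ∑ u, (if G.Adj v u ∧ σ u = b then x u else 0) < ∑ b ∈ C, S / 2 :=
    Finset.sum_lt_sum_of_nonempty hne (fun b _ => by
      have := h.strict v hv ⟨u0, hu0, ha0⟩ b
      linarith)
  rw [Finset.sum_const, nsmul_eq_mul] at h3
  have h4 : (C.card : ℝ) ≤ 2 := by exact_mod_cast hC
  nlinarith

theorem trap_E_ge_one (E : ℝ) (U : Finset V) (σ : V → Fin s) (x : V → ℝ) (h : Trap G E U σ x) :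
    1 ≤ E := by
  obtain ⟨v, hv⟩ := h.nonempty
  obtain ⟨u, hu, ha⟩ := r10_nb h hv
  have h1 : x u ≤ E * x v := by
    rw [← h.eig v hv]
    exact r10_single h ha
  have h2 : x v ≤ E * x u := by
    rw [← h.eig u hu]
    exact r10_single h ha.symm
  have hE := h.E_pos
  have hp := h.pos v hv
  by_contra hcon
  push Not at hcon
  have h3 : x v ≤ E * (E * x v) := h2.trans (mul_le_mul_of_nonneg_left h1 hE.le)
  have h4 : E * E < 1 := by nlinarith
  nlinarith

/-- in a graph of maximal degree at most three the exterior is empty -/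
theorem trap_cubic (hG : G.Connected) (hd : ∀ v, (univ.filter fun u => G.Adj v u).card ≤ 3)
    (E : ℝ) (U : Finset V) (σ : V → Fin s) (x : V → ℝ) (h : Trap G E U σ x) :
    ∀ v, v ∈ U ∨ ∃ u ∈ U, G.Adj v u := by
  classical
  by_contra hcon
  push Not at hcon
  obtain ⟨t0, ht0, ht0'⟩ := hcon
  obtain ⟨p, hp⟩ := h.nonempty
  obtain ⟨W⟩ := hG.preconnected p t0
  obtain ⟨d, -, hd1, hd2⟩ := W.exists_boundary_dart {t | t ∈ U ∨ ∃ u ∈ U, G.Adj t u}
    (Or.inl hp) (by
      intro h1
      rcases h1 with h1 | ⟨u, hu, ha⟩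
      · exact ht0 h1
      · exact ht0' u hu ha)
  obtain ⟨⟨v, t⟩, hvt⟩ := d
  simp only [Set.mem_ofPred_eq] at hd1 hd2
  have hvt' : G.Adj v t := hvt
  push Not at hd2
  obtain ⟨htU, htN⟩ := hd2
  have hvU : v ∉ U := fun h1 => htN v h1 hvt'.symm
  have hvN : ∃ u ∈ U, G.Adj v u := hd1.resolve_left hvU
  set N := univ.filter fun u => G.Adj v u ∧ u ∈ U with hN
  have hNne : N.Nonempty := by
    obtain ⟨u, hu, ha⟩ := hvN
    exact ⟨u, by simp [hN, hu, ha]⟩
  have hNc : N.card ≤ 2 := by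
    have h1 : N ⊆ (univ.filter fun u => G.Adj v u).erase t := by
      intro u hu
      simp only [hN, Finset.mem_filter, Finset.mem_univ, true_and] at hu
      rw [Finset.mem_erase, Finset.mem_filter]
      exact ⟨fun he => htU (he ▸ hu.2), Finset.mem_univ _, hu.1⟩
    have h2 := Finset.card_le_card h1
    have h3 : t ∈ univ.filter fun u => G.Adj v u := by simp [hvt']
    rw [Finset.card_erase_of_mem h3] at h2
    have := hd v
    omega
  obtain ⟨u, huN, hmax⟩ := Finset.exists_max_image N x hNne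
  have hu' : G.Adj v u ∧ u ∈ U := by simpa [hN] using huN
  have h1 := h.strict v hvU hvN (σ u)
  have h2 : ∑ w, (if G.Adj v w then x w else 0) = ∑ w ∈ N, x w := by
    rw [hN, Finset.sum_filter]
    refine Finset.sum_congr rfl fun w _ => ?_
    by_cases ha : G.Adj v w
    · by_cases hw : w ∈ U
      · simp [ha, hw]
      · simp [hw, h.zero w hw]
    · simp [ha]
  have h3 : ∑ w ∈ N, x w ≤ N.card • x u := Finset.sum_le_card_nsmul _ _ _ hmax
  have h4 : x u ≤ ∑ w, (if G.Adj v w ∧ σ w = σ u then x w else 0) := by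
    have := Finset.single_le_sum (f := fun w => if G.Adj v w ∧ σ w = σ u then x w else 0)
      (s := Finset.univ) (fun w _ => by
        split_ifs
        · exact r10_nonneg h w
        · exact le_rfl) (Finset.mem_univ u)
    simpa [hu'.1] using this
  have h5 : (N.card : ℝ) ≤ 2 := by exact_mod_cast hNc
  have h6 := h.pos u hu'.2
  rw [nsmul_eq_mul] at h3
  nlinarith

/-- `U` and its neighbours are at least seven vertices -/
theorem trap_seven (hG : G.Connected) (E : ℝ) (U : Finset V) (σ : V → Fin s) (x : V → ℝ)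
    (h : Trap G E U σ x) (A : Finset V) (hA : ∀ v ∈ A, ¬ (v ∈ U ∨ ∃ u ∈ U, G.Adj v u)) :
    A.card + 7 ≤ Fintype.card V := by
  classical
  obtain ⟨p, hp⟩ := h.nonempty
  obtain ⟨t0, ht0⟩ := h.proper
  obtain ⟨W⟩ := hG.preconnected p t0
  obtain ⟨d, -, hd1, hd2⟩ := W.exists_boundary_dart {t | t ∈ U} hp ht0
  obtain ⟨⟨u, v⟩, huv⟩ := d
  simp only [Set.mem_ofPred_eq] at hd1 hd2
  have huv' : G.Adj u v := huv
  have hvN : ∃ u ∈ U, G.Adj v u := ⟨u, hd1, huv'.symm⟩
  obtain ⟨a, haU, hva, -⟩ := r10_third h hd2 hvN ∅ (by simp)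
  obtain ⟨b, hbU, hvb, hb⟩ := r10_third h hd2 hvN {σ a} (by simp)
  obtain ⟨c, hcU, hvc, hc⟩ := r10_third h hd2 hvN {σ a, σ b} Finset.card_le_two
  obtain ⟨a', ha'U, haa'⟩ := r10_nb h haU
  obtain ⟨b', hb'U, hbb'⟩ := r10_nb h hbU
  obtain ⟨c', hc'U, hcc'⟩ := r10_nb h hcU
  have sa := h.same a haU a' ha'U haa'
  have sb := h.same b hbU b' hb'U hbb'
  have sc := h.same c hcU c' hc'U hcc'
  rw [Finset.mem_singleton] at hb
  rw [Finset.mem_insert, Finset.mem_singleton, not_or] at hc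
  obtain ⟨hca, hcb⟩ := hc
  have hne : ∀ y z : V, σ y ≠ σ z → y ≠ z := fun y z h1 h2 => h1 (by rw [h2])
  have hneU : ∀ y ∈ U, v ≠ y := fun y hy h1 => hd2 (h1 ▸ hy)
  have hT : ({v, a, a', b, b', c, c'} : Finset V).card = 7 := by
    rw [Finset.card_insert_of_notMem, Finset.card_insert_of_notMem,
      Finset.card_insert_of_notMem, Finset.card_insert_of_notMem, Finset.card_insert_of_notMem,
      Finset.card_insert_of_notMem, Finset.card_singleton]
    · rw [Finset.mem_singleton]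
      exact hcc'.ne
    · simp only [Finset.mem_insert, Finset.mem_singleton, not_or]
      exact ⟨hne _ _ (by rw [← sb]; exact Ne.symm hcb), hne _ _ (by rw [← sb, ← sc]; exact Ne.symm hcb)⟩
    · simp only [Finset.mem_insert, Finset.mem_singleton, not_or]
      exact ⟨hbb'.ne, hne _ _ (Ne.symm hcb), hne _ _ (by rw [← sc]; exact Ne.symm hcb)⟩
    · simp only [Finset.mem_insert, Finset.mem_singleton, not_or]
      exact ⟨hne _ _ (by rw [← sa]; exact Ne.symm hb), hne _ _ (by rw [← sa, ← sb]; exact Ne.symm hb),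
        hne _ _ (by rw [← sa]; exact Ne.symm hca), hne _ _ (by rw [← sa, ← sc]; exact Ne.symm hca)⟩
    · simp only [Finset.mem_insert, Finset.mem_singleton, not_or]
      exact ⟨haa'.ne, hne _ _ (Ne.symm hb), hne _ _ (by rw [← sb]; exact Ne.symm hb),
        hne _ _ (Ne.symm hca), hne _ _ (by rw [← sc]; exact Ne.symm hca)⟩
    · simp only [Finset.mem_insert, Finset.mem_singleton, not_or]
      exact ⟨hneU a haU, hneU a' ha'U, hneU b hbU, hneU b' hb'U, hneU c hcU, hneU c' hc'U⟩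
  have hdis : Disjoint A ({v, a, a', b, b', c, c'} : Finset V) := by
    rw [Finset.disjoint_left]
    intro y hy hy'
    have h1 := hA y hy
    rw [not_or] at h1
    simp only [Finset.mem_insert, Finset.mem_singleton] at hy'
    rcases hy' with rfl | rfl | rfl | rfl | rfl | rfl | rfl
    · exact h1.2 hvN
    · exact h1.1 haU
    · exact h1.1 ha'U
    · exact h1.1 hbU
    · exact h1.1 hb'U
    · exact h1.1 hcU
    · exact h1.1 hc'U
  rw [← hT, ← Finset.card_union_of_disjoint hdis]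
  exact Finset.card_le_univ _

/-- at most two vertices carry `y` -/
theorem r10_two (y : V → ℝ) (hy : (univ.filter fun v => y v ≠ 0).card ≤ 2) :
    ∑ u, ∑ v, (if G.Adj u v then y u * y v else 0) ≤ ∑ v, y v ^ 2 := by
  classical
  have key : ∀ u, ∑ v, (if G.Adj u v ∧ y u ≠ 0 ∧ y v ≠ 0 then y u ^ 2 / 2 else 0) ≤ y u ^ 2 / 2 := by
    intro u
    by_cases hu : y u = 0
    · simp [hu]
    · rw [← Finset.sum_filter, Finset.sum_const, nsmul_eq_mul]
      have h1 : (univ.filter fun v => G.Adj u v ∧ y u ≠ 0 ∧ y v ≠ 0) ⊆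
          (univ.filter fun v => y v ≠ 0).erase u := by
        intro v hv
        simp only [Finset.mem_filter, Finset.mem_univ, true_and] at hv
        rw [Finset.mem_erase, Finset.mem_filter]
        exact ⟨hv.1.ne', Finset.mem_univ _, hv.2.2⟩
      have h2 := Finset.card_le_card h1
      rw [Finset.card_erase_of_mem (by simp [hu])] at h2
      have h3 : (univ.filter fun v => G.Adj u v ∧ y u ≠ 0 ∧ y v ≠ 0).card ≤ 1 := by omega
      have h4 : (((univ.filter fun v => G.Adj u v ∧ y u ≠ 0 ∧ y v ≠ 0).card : ℕ) : ℝ) ≤ 1 := by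
        exact_mod_cast h3
      nlinarith [sq_nonneg (y u)]
  have h1 : ∑ u, ∑ v, (if G.Adj u v then y u * y v else 0) ≤
      ∑ u, ∑ v, ((if G.Adj u v ∧ y u ≠ 0 ∧ y v ≠ 0 then y u ^ 2 / 2 else 0) +
        (if G.Adj u v ∧ y u ≠ 0 ∧ y v ≠ 0 then y v ^ 2 / 2 else 0)) := by
    refine Finset.sum_le_sum fun u _ => Finset.sum_le_sum fun v _ => ?_
    by_cases ha : G.Adj u v
    · by_cases hu : y u = 0
      · simp [hu]
      · by_cases hv : y v = 0
        · simp [hv]
        · rw [if_pos ha, if_pos ⟨ha, hu, hv⟩, if_pos ⟨ha, hu, hv⟩]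
          nlinarith [sq_nonneg (y u - y v)]
    · simp [ha]
  have h2 : ∑ u, ∑ v, (if G.Adj u v ∧ y u ≠ 0 ∧ y v ≠ 0 then y v ^ 2 / 2 else 0) =
      ∑ u, ∑ v, (if G.Adj u v ∧ y u ≠ 0 ∧ y v ≠ 0 then y u ^ 2 / 2 else 0) := by
    rw [Finset.sum_comm]
    refine Finset.sum_congr rfl fun u _ => Finset.sum_congr rfl fun v _ => ?_
    congr 1
    rw [G.adj_comm]
    exact propext ⟨fun h => ⟨h.1, h.2.2, h.2.1⟩, fun h => ⟨h.1, h.2.2, h.2.1⟩⟩
  have h3 : ∑ u, ∑ v, (if G.Adj u v ∧ y u ≠ 0 ∧ y v ≠ 0 then y u ^ 2 / 2 else 0) ≤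
      ∑ u, y u ^ 2 / 2 := Finset.sum_le_sum fun u _ => key u
  have h4 : ∑ u, y u ^ 2 = ∑ u, y u ^ 2 / 2 + ∑ u, y u ^ 2 / 2 := by
    rw [← Finset.sum_add_distrib]
    exact Finset.sum_congr rfl fun u _ => by ring
  calc _ ≤ _ := h1
    _ = ∑ u, ∑ v, (if G.Adj u v ∧ y u ≠ 0 ∧ y v ≠ 0 then y u ^ 2 / 2 else 0) +
        ∑ u, ∑ v, (if G.Adj u v ∧ y u ≠ 0 ∧ y v ≠ 0 then y v ^ 2 / 2 else 0) := by
      rw [← Finset.sum_add_distrib]
      exact Finset.sum_congr rfl fun u _ => by rw [Finset.sum_add_distrib]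
    _ ≤ _ := by
      rw [h2, h4]
      linarith

/-- complete answer for subcubic graphs and for graphs with at most nine vertices -/
theorem not_inG_iff (hG : G.Connected)
    (h : (∀ v, (univ.filter fun u => G.Adj v u).card ≤ 3) ∨ Fintype.card V ≤ 9) :
    ¬ InG G s ↔ ∃ (E : ℝ) (U : Finset V) (σ : V → Fin s) (x : V → ℝ), Trap G E U σ x := by
  classical
  constructor
  · exact strict_trap_of_not_inG hG
  · rintro ⟨E, U, σ, x, hT⟩
    refine not_inG_of_strict_trap hG E U σ x hT fun y hy => ?_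
    rcases h with h | h
    · have h1 := trap_cubic hG h E U σ x hT
      have h2 : ∀ v, y v = 0 := fun v => hy v (h1 v)
      simp [h2]
    · have h1 := trap_seven hG E U σ x hT (univ.filter fun v => y v ≠ 0) (by
        intro v hv h2
        rw [Finset.mem_filter] at hv
        exact hv.2 (hy v h2))
      have h2 := r10_two (G := G) y (by omega)
      have h3 := trap_E_ge_one E U σ x hT
      have h4 : 0 ≤ ∑ v, y v ^ 2 := Finset.sum_nonneg fun v _ => sq_nonneg _
      nlinarith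

end UC
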