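import Pool.Agent.helper25.UC.R10

/-!
# R11 : a strict trap contains three pairwise non-adjacent edges around a vertex
-/

namespace UC
open Finset
variable {V : Type} [Fintype V] [DecidableEq V] {s k : ℕ}
variable {G : SimpleGraph V} [DecidableRel G.Adj]

theorem threeLegs_of_trap (hG : G.Connected) (E : ℝ) (U : Finset V) (σ : V → Fin s) (x : V → ℝ)
    (h : Trap G E U σ x) : ∃ v a a' b b' c c', ThreeLegs G v a a' b b' c c' := by
  classical
  obtain ⟨p, hp⟩ := h.nonempty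
  obtain ⟨t0, ht0⟩ := h.proper
  obtain ⟨W⟩ := hG.preconnected p t0
  obtain ⟨d, -, hd1, hd2⟩ := W.exists_boundary_dart {t | t ∈ U} hp ht0
  obtain ⟨⟨u, v⟩, huv⟩ := d
  have hu : u ∈ U := hd1
  have hv : v ∉ U := hd2
  have huv' : G.Adj u v := huv
  have hadj : G.Adj v u := huv'.symm
  have hex : ∃ u ∈ U, G.Adj v u := ⟨u, hu, hadj⟩
  obtain ⟨b, hb, hvb, hσb⟩ := r10_third h hv hex {σ u} (by simp)
  obtain ⟨c, hc, hvc, hσc⟩ := r10_third h hv hex {σ u, σ b} Finset.card_le_two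
  simp only [Finset.mem_singleton] at hσb
  simp only [Finset.mem_insert, Finset.mem_singleton, not_or] at hσc
  obtain ⟨a', ha', haa'⟩ := r10_nb h hu
  obtain ⟨b', hb', hbb'⟩ := r10_nb h hb
  obtain ⟨c', hc', hcc'⟩ := r10_nb h hc
  have ea := h.same u hu a' ha' haa'
  have eb := h.same b hb b' hb' hbb'
  have ec := h.same c hc c' hc' hcc'
  have key : ∀ p ∈ U, ∀ q ∈ U, σ p ≠ σ q → p ≠ q ∧ ¬ G.Adj p q := fun p hp q hq hne =>
    ⟨fun h' => hne (by rw [h']), fun h' => hne (h.same p hp q hq h')⟩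
  refine ⟨v, u, a', b, b', c, c', hadj, hvb, hvc, haa', hbb', hcc', ?_, ?_, ?_, ?_, ?_, ?_⟩
  · rintro rfl; exact hv ha'
  · rintro rfl; exact hv hb'
  · rintro rfl; exact hv hc'
  · rintro p (rfl | rfl) q (rfl | rfl)
    · exact key _ hu _ hb (fun h' => hσb h'.symm)
    · exact key _ hu _ hb' (fun h' => hσb (eb.trans h'.symm))
    · exact key _ ha' _ hb (fun h' => hσb (ea.trans h').symm)
    · exact key _ ha' _ hb' (fun h' => hσb ((ea.trans h').trans eb.symm).symm)
  · rintro p (rfl | rfl) q (rfl | rfl)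
    · exact key _ hu _ hc (fun h' => hσc.1 h'.symm)
    · exact key _ hu _ hc' (fun h' => hσc.1 (ec.trans h'.symm))
    · exact key _ ha' _ hc (fun h' => hσc.1 (ea.trans h').symm)
    · exact key _ ha' _ hc' (fun h' => hσc.1 ((ea.trans h').trans ec.symm).symm)
  · rintro p (rfl | rfl) q (rfl | rfl)
    · exact key _ hb _ hc (fun h' => hσc.2 h'.symm)
    · exact key _ hb _ hc' (fun h' => hσc.2 (ec.trans h'.symm))
    · exact key _ hb' _ hc (fun h' => hσc.2 (eb.trans h').symm)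
    · exact key _ hb' _ hc' (fun h' => hσc.2 ((eb.trans h').trans ec.symm).symm)

end UC
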