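import Pool.Agent.helper25.UC.B4
import Pool.Agent.helper25.UC.B5
import Pool.Agent.helper25.UC.B6
import Pool.Agent.helper25.UC.C0
import Pool.Agent.helper25.UC.C8

/-!
# R3 : drift of `a_0/a_l²` and of `-env/a_l²` (empty flag envelope)

`l = last`, `E = E_0 = E_l > 0`, `n0 = card V`.  `quot_calc`/`gen_quot_num` with `Y = a_l²`:
`|ΔY| ≤ C a_l` (`Flag.a_sq_step` in C8), `gen Y = 2E a_l² + 2 a_l ell_l + ∑ n_w (Δa_l)²`
(`c2_gen_sq` in C2 or `gen_a`), `a_l |ell_l| ≤ C S` (`Facts.ell_le`), `a_l ≥ 1/δx²` (`reg_large`),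
`tot ≤ δx² a_l²`, `a_0 ≤ tot ≤ C6 a_0` (`Facts1`).

**a0_drift**: `X = a_0`, `gen X = E a_0 + ell_0 ≤ E a_0` (`ell_zero`), `|ΔX| ≤ n0`:
`gen(a_0/a_l²) ≤ E a_0/a_l² - a_0 (2E a_l² - 2CS)/a_l⁴ + 2a_0 C² a_l² tot/a_l⁶ + 2 n0 C a_l tot/a_l⁴
≤ -E a_0/a_l² + 2C (a_0/a_l²) S/a_l² + C δx² a_0/a_l²`
(`tot/a_l³ ≤ C6 (a_0/a_l²)/a_l ≤ C6 δx² a_0/a_l²`), and `a_0/a_l² ≤ tot/a_l² ≤ δx²`.

**T_drift**: `T = env` of the empty flag `F0` at rate `E`, `W = -T`; by `engine` for `F0` (`Reg` of `F0`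
is `1 ≤ tot`) `W (step z w) ≤ -T + x_w`, `∑ n_w x_w ≤ -2E T - dsq/(2τ²) + C tot`,
`|x_w| ≤ C(√dsq + 1)`, `dsq ≤ 3 qq` (`MxFacts.dist`, `o2 = qq` for `F0`).
`-qq/τ ≤ T ≤ 16(n0+1) qq` (`env_bounds` for `F0`), `qq ≤ tot² ≤ C6² a_0² ≤ C6² R² a_l²`.
`gen(W/Y) ≤ (-2E T - dsq/(2τ²) + C tot)/a_l² + T (2E a_l² + 2a_l ell_l + ∑ n_w (Δa_l)²)/a_l⁴ +
 2|T| C² a_l² tot/a_l⁶ + 2 ∑ n_w |x_w| C a_l/a_l⁴`: the terms `∓2E T/a_l²` cancel, the others are
`≤ C R² (S + tot)/a_l²`.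
-/

namespace UC
open Finset
variable {V : Type} [Fintype V] [DecidableEq V] {s k : ℕ}
variable {G : SimpleGraph V} [DecidableRel G.Adj]

/-- a weighted sum bound -/
theorem R3_wsum (z : St V s) (a : V → ℝ) (B : ℝ) (h : ∀ w, 1 ≤ z.n w → a w ≤ B) :
    ∑ w, (z.n w : ℝ) * a w ≤ B * tot z := c2_wsum z a B h

/-- the step of `A²` -/
theorem R3_sq_step (A A' n0 : ℝ) (h : |A' - A| ≤ n0) (hn : n0 ≤ A) :
    |A' ^ 2 - A ^ 2| ≤ 3 * n0 * A := by
  have hn0 : 0 ≤ n0 := (abs_nonneg _).trans h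
  have h2 : A' ^ 2 - A ^ 2 = (A' - A) * (2 * A + (A' - A)) := by ring
  rw [h2, abs_mul]
  have h3 : |2 * A + (A' - A)| ≤ 3 * A := by
    refine (abs_add_le _ _).trans ?_
    rw [abs_of_nonneg (by linarith : (0 : ℝ) ≤ 2 * A)]
    linarith
  have h4 := mul_le_mul h h3 (abs_nonneg _) hn0
  linarith [h4, mul_comm n0 (3 * A), mul_assoc 3 n0 A, mul_left_comm 3 n0 A]

theorem Flag.a0_drift (F : Flag G s (k + 1)) (hE : ∀ j, F.E j = F.E 0) (hpos : 0 < F.E 0) :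
    ∃ δ0 > 0, ∃ C > 0, ∀ δx δo : ℝ, 0 < δx → δx ≤ δo → δo ≤ δ0 → ∀ z, F.Reg δx δo z →
      gen G (fun y => F.a 0 (nR y) / F.a (Fin.last k) (nR y) ^ 2) z ≤
        -(F.E 0 / 2 * (F.a 0 (nR z) / F.a (Fin.last k) (nR z) ^ 2)) +
          C * δx ^ 2 * F.S z.c (nR z) / F.a (Fin.last k) (nR z) ^ 2 := by
  obtain ⟨d1, hd1, c3, hc3, C3, hC3, hfacts⟩ := F.reg_facts1
  obtain ⟨d2, hd2, hlarge⟩ := F.reg_large
  have hn0 : (0 : ℝ) ≤ cV V := Nat.cast_nonneg _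
  set n0 : ℝ := cV V with hn0def
  set K : ℝ := 18 * n0 ^ 2 + 6 * n0 ^ 2 * C3 with hK
  have hK0 : 0 ≤ K := by positivity
  refine ⟨min (min d1 d2) (min (min 1 (1 / (6 * n0 + 6))) (F.E 0 / (2 * (K + 1)))),
    lt_min (lt_min hd1 hd2) (lt_min (lt_min one_pos (by positivity)) (by positivity)),
    2 * C3, by positivity, ?_⟩
  intro δx δo hx hxo ho z hz
  have ho1 : δo ≤ d1 := ho.trans ((min_le_left _ _).trans (min_le_left _ _))
  have ho2 : δo ≤ d2 := ho.trans ((min_le_left _ _).trans (min_le_right _ _))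
  have ho3 : δo ≤ 1 := ho.trans ((min_le_right _ _).trans ((min_le_left _ _).trans (min_le_left _ _)))
  have ho4 : δo ≤ 1 / (6 * n0 + 6) :=
    ho.trans ((min_le_right _ _).trans ((min_le_left _ _).trans (min_le_right _ _)))
  have ho5 : δo ≤ F.E 0 / (2 * (K + 1)) := ho.trans ((min_le_right _ _).trans (min_le_right _ _))
  have ho0 : 0 ≤ δo := hx.le.trans hxo
  have hx1 : δx ≤ 1 := hxo.trans ho3
  have hmatch : F.Match z := fun v hv => hz.2.1 v hv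
  obtain ⟨hf, hf1⟩ := hfacts δx δo hx.le (hxo.trans ho1) ho0 ho1 z hz
  have hlg := (hlarge δx δo hx hxo ho2 z hz).1 (Fin.last k)
  have hell := hf.ell_le (Fin.last k)
  have hS0 := hf.S_nonneg
  have ht1 : 1 ≤ tot z := hz.1
  have htA := hz.2.2.2.2.2 (Fin.last k)
  have ha0 : 0 < F.a 0 (nR z) := hz.2.2.1 0
  have ha0t := hf1.zero_le_tot
  have hta0 := hf1.tot_le
  have hez := hf1.ell_zero
  have hgX := F.gen_a z hmatch 0
  have hgY := F.c2_gen_sq z hmatch (Fin.last k)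
  have hEl : F.E (Fin.last k) = F.E 0 := hE _
  have hda : ∀ j w, |F.a j (nR (step G z w)) - F.a j (nR z)| ≤ n0 := fun j w =>
    F.a_step_abs z hmatch w j
  have hA6 : 6 * n0 + 6 ≤ F.a (Fin.last k) (nR z) := by
    refine le_trans ?_ hlg
    have h1 : δx ≤ 1 / (6 * n0 + 6) := hxo.trans ho4
    have h2 : (6 * n0 + 6) * δx ≤ 1 := by
      rw [le_div_iff₀ (by positivity)] at h1
      linarith
    rw [le_div_iff₀ (by positivity)]
    calc (6 * n0 + 6) * δx ^ 2 = (6 * n0 + 6) * δx * δx := by ring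
      _ ≤ 1 * 1 := mul_le_mul h2 hx1 hx.le zero_le_one
      _ = 1 := one_mul 1
  set A := F.a (Fin.last k) (nR z) with hAdef
  set X := F.a 0 (nR z) with hXdef
  set t := tot z with htdef
  set S := F.S z.c (nR z) with hSdef
  set L := F.ell z.c (nR z) (Fin.last k) with hLdef
  set E := F.E 0 with hEdef
  have hA0 : 0 < A := by linarith
  have hAA : 0 < A ^ 2 := by positivity
  have hY : ∀ w, |F.a (Fin.last k) (nR (step G z w)) ^ 2 - A ^ 2| ≤ 3 * n0 * A := fun w =>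
    R3_sq_step A _ n0 (hda _ w) (by linarith)
  have hinvA : 1 / A ≤ δx ^ 2 := by
    rw [div_le_iff₀ hA0]
    rw [div_le_iff₀ (by positivity)] at hlg
    linarith
  have hq := gen_quot_num (G := G) (fun y => F.a 0 (nR y))
    (fun y => F.a (Fin.last k) (nR y) ^ 2) z
    (fun w => F.a 0 (nR (step G z w)))
    (by show 0 < A ^ 2; positivity)
    (fun w _ => le_rfl)
    (by
      intro w _
      show |F.a (Fin.last k) (nR (step G z w)) ^ 2 - A ^ 2| ≤ A ^ 2 / 2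
      refine (hY w).trans ?_
      have h1 := mul_le_mul_of_nonneg_right (by linarith : 6 * n0 ≤ A) hA0.le
      rw [sq]
      linarith)
  change gen G (fun y => F.a 0 (nR y) / F.a (Fin.last k) (nR y) ^ 2) z ≤
    (gen G (fun y => F.a 0 (nR y)) z) / A ^ 2 -
      X * gen G (fun y => F.a (Fin.last k) (nR y) ^ 2) z / (A ^ 2) ^ 2 +
      2 * |X| * (∑ w, (z.n w : ℝ) * (F.a (Fin.last k) (nR (step G z w)) ^ 2 - A ^ 2) ^ 2) / (A ^ 2) ^ 3 +
      2 * (∑ w, (z.n w : ℝ) * (|F.a 0 (nR (step G z w)) - X| *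
        |F.a (Fin.last k) (nR (step G z w)) ^ 2 - A ^ 2|)) / (A ^ 2) ^ 2 at hq
  refine hq.trans ?_
  -- first term
  have b1 : (gen G (fun y => F.a 0 (nR y)) z) / A ^ 2 ≤ (E * X) / A ^ 2 := by
    apply div_le_div_of_nonneg_right _ hAA.le
    rw [hgX]
    linarith
  -- second term
  have hXt : X * S ≤ δx ^ 2 * A ^ 2 * S :=
    mul_le_mul_of_nonneg_right (ha0t.trans htA) hS0
  have b2 : -(X * gen G (fun y => F.a (Fin.last k) (nR y) ^ 2) z / (A ^ 2) ^ 2) ≤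
      (-(2 * E * X) + 2 * C3 * (δx ^ 2 * S)) / A ^ 2 := by
    rw [hgY, hEl]
    set Q := ∑ w, (z.n w : ℝ) * (F.a (Fin.last k) (nR (step G z w)) - A) ^ 2 with hQdef
    have hQ0 : 0 ≤ Q := Finset.sum_nonneg fun w _ => mul_nonneg (Nat.cast_nonneg _) (sq_nonneg _)
    have h1 : -(A * L) ≤ C3 * S := by
      refine le_trans ?_ hell
      rw [← mul_neg]
      exact mul_le_mul_of_nonneg_left (neg_le_abs _) hA0.le
    have h2 : -(X * (2 * A * (E * A + L) + Q)) ≤ -(2 * E * X) * A ^ 2 + 2 * C3 * (δx ^ 2 * S) * A ^ 2 := by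
      have h3 : X * (-(A * L)) ≤ X * (C3 * S) := mul_le_mul_of_nonneg_left h1 ha0.le
      have h4 : C3 * (X * S) ≤ C3 * (δx ^ 2 * A ^ 2 * S) := mul_le_mul_of_nonneg_left hXt hC3.le
      have h5 : 0 ≤ X * Q := mul_nonneg ha0.le hQ0
      linarith
    rw [← neg_div, div_le_div_iff₀ (by positivity) hAA]
    calc -(X * (2 * A * (E * A + L) + Q)) * A ^ 2
        ≤ (-(2 * E * X) * A ^ 2 + 2 * C3 * (δx ^ 2 * S) * A ^ 2) * A ^ 2 :=
          mul_le_mul_of_nonneg_right h2 hAA.le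
      _ = (-(2 * E * X) + 2 * C3 * (δx ^ 2 * S)) * (A ^ 2) ^ 2 := by ring
  -- third term
  have b3 : 2 * |X| * (∑ w, (z.n w : ℝ) * (F.a (Fin.last k) (nR (step G z w)) ^ 2 - A ^ 2) ^ 2) /
      (A ^ 2) ^ 3 ≤ (18 * n0 ^ 2 * (δx ^ 2 * X)) / A ^ 2 := by
    have h1 : ∑ w, (z.n w : ℝ) * (F.a (Fin.last k) (nR (step G z w)) ^ 2 - A ^ 2) ^ 2 ≤
        (9 * n0 ^ 2 * A ^ 2) * t := by
      refine R3_wsum z _ _ ?_
      intro w _
      rw [← sq_abs]
      refine (pow_le_pow_left₀ (abs_nonneg _) (hY w) 2).trans (le_of_eq ?_)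
      ring
    rw [abs_of_pos ha0, div_le_div_iff₀ (by positivity) hAA]
    calc 2 * X * (∑ w, (z.n w : ℝ) *
        (F.a (Fin.last k) (nR (step G z w)) ^ 2 - A ^ 2) ^ 2) * A ^ 2
        ≤ 2 * X * ((9 * n0 ^ 2 * A ^ 2) * t) * A ^ 2 := by
          apply mul_le_mul_of_nonneg_right _ hAA.le
          exact mul_le_mul_of_nonneg_left h1 (by linarith)
      _ ≤ 2 * X * ((9 * n0 ^ 2 * A ^ 2) * (δx ^ 2 * A ^ 2)) * A ^ 2 := by
          apply mul_le_mul_of_nonneg_right _ hAA.le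
          apply mul_le_mul_of_nonneg_left _ (by linarith)
          exact mul_le_mul_of_nonneg_left htA (by positivity)
      _ = (18 * n0 ^ 2 * (δx ^ 2 * X)) * (A ^ 2) ^ 3 := by ring
  -- fourth term
  have b4 : 2 * (∑ w, (z.n w : ℝ) * (|F.a 0 (nR (step G z w)) - X| *
        |F.a (Fin.last k) (nR (step G z w)) ^ 2 - A ^ 2|)) / (A ^ 2) ^ 2 ≤
      (6 * n0 ^ 2 * C3 * (δx ^ 2 * X)) / A ^ 2 := by
    have h1 : ∑ w, (z.n w : ℝ) * (|F.a 0 (nR (step G z w)) - X| *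
        |F.a (Fin.last k) (nR (step G z w)) ^ 2 - A ^ 2|) ≤ (3 * n0 ^ 2 * A) * t := by
      refine R3_wsum z _ _ ?_
      intro w _
      refine (mul_le_mul (hda 0 w) (hY w) (abs_nonneg _) hn0).trans (le_of_eq ?_)
      ring
    have h2 : t ≤ C3 * X * (δx ^ 2 * A) := by
      have h3 : 1 ≤ δx ^ 2 * A := by
        rw [div_le_iff₀ (by positivity)] at hlg
        linarith
      have h4 : C3 * X * 1 ≤ C3 * X * (δx ^ 2 * A) :=
        mul_le_mul_of_nonneg_left h3 (by positivity)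
      linarith
    rw [div_le_div_iff₀ (by positivity) hAA]
    calc 2 * (∑ w, (z.n w : ℝ) * (|F.a 0 (nR (step G z w)) - X| *
        |F.a (Fin.last k) (nR (step G z w)) ^ 2 - A ^ 2|)) * A ^ 2
        ≤ 2 * ((3 * n0 ^ 2 * A) * t) * A ^ 2 := by
          apply mul_le_mul_of_nonneg_right _ hAA.le
          linarith
      _ ≤ 2 * ((3 * n0 ^ 2 * A) * (C3 * X * (δx ^ 2 * A))) * A ^ 2 := by
          apply mul_le_mul_of_nonneg_right _ hAA.le
          apply mul_le_mul_of_nonneg_left _ (by norm_num)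
          exact mul_le_mul_of_nonneg_left h2 (by positivity)
      _ = (6 * n0 ^ 2 * C3 * (δx ^ 2 * X)) * (A ^ 2) ^ 2 := by ring
  -- assembly
  have hKd : K * δx ^ 2 ≤ E / 2 := by
    have h1 : δx ≤ E / (2 * (K + 1)) := hxo.trans ho5
    rw [le_div_iff₀ (by positivity)] at h1
    have h2 : K * δx ^ 2 ≤ K * δx := by
      apply mul_le_mul_of_nonneg_left _ hK0
      nlinarith
    nlinarith
  have hfin : E * X + (-(2 * E * X) + 2 * C3 * (δx ^ 2 * S)) + 18 * n0 ^ 2 * (δx ^ 2 * X) +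
      6 * n0 ^ 2 * C3 * (δx ^ 2 * X) ≤ -(E / 2 * X) + 2 * C3 * δx ^ 2 * S := by
    have h1 : (K * δx ^ 2) * X ≤ E / 2 * X := mul_le_mul_of_nonneg_right hKd ha0.le
    have h2 : (K * δx ^ 2) * X = 18 * n0 ^ 2 * (δx ^ 2 * X) + 6 * n0 ^ 2 * C3 * (δx ^ 2 * X) := by
      rw [hK]; ring
    linarith
  have hfin2 := div_le_div_of_nonneg_right hfin hAA.le
  rw [add_div, add_div, add_div] at hfin2
  have e1 : -(E / 2 * (X / A ^ 2)) + 2 * C3 * δx ^ 2 * S / A ^ 2 =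
      (-(E / 2 * X) + 2 * C3 * δx ^ 2 * S) / A ^ 2 := by ring
  rw [e1]
  linarith

/-- the empty flag: the region is `1 ≤ tot` -/
theorem R3_reg0 (F0 : Flag G s 0) (z : St V s) (h : 1 ≤ tot z) : F0.Reg 0 0 z := by
  refine ⟨h, ?_, fun j => j.elim0, fun i => i.elim0, fun j => j.elim0, fun j => j.elim0⟩
  intro v hv
  obtain ⟨j, -⟩ := F0.cover v hv
  exact j.elim0

theorem R3_o2 (F0 : Flag G s 0) (z : St V s) : F0.o2 (nR z) = qq z := by
  unfold Flag.o2 qq nR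
  simp

theorem R3_qq_le (z : St V s) : qq z ≤ tot z ^ 2 := by
  unfold qq tot
  exact Finset.sum_sq_le_sq_sum_of_nonneg fun v _ => Nat.cast_nonneg _

theorem Flag.T_drift (F : Flag G s (k + 1)) (F0 : Flag G s 0) (τ : ℝ) (hτ : 0 < τ)
    (hτ0 : τ ≤ tau0 V) (hE : ∀ j, F.E j = F.E 0) :
    ∃ δ0 > 0, ∃ C > 0, ∀ δx δo : ℝ, 0 < δx → δx ≤ δo → δo ≤ δ0 → ∀ R : ℝ, 1 ≤ R →
      ∀ z, F.Reg δx δo z → F.a 0 (nR z) ≤ R * F.a (Fin.last k) (nR z) →
      ∀ c y, F0.IsMx (F.E 0) τ z c y →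
      gen G (fun y => -(F0.env (F.E 0) τ y) / F.a (Fin.last k) (nR y) ^ 2) z ≤
        -(dsq z.c (nR z) c y / (2 * τ ^ 2 * F.a (Fin.last k) (nR z) ^ 2)) +
          C * R ^ 2 * (F.S z.c (nR z) + tot z) / F.a (Fin.last k) (nR z) ^ 2 := by
  obtain ⟨d1, hd1, c3, hc3, C3, hC3, hfacts⟩ := F.reg_facts1
  obtain ⟨d2, hd2, hlarge⟩ := F.reg_large
  obtain ⟨e1, he1, hb⟩ := F0.env_bounds τ hτ hτ0
  obtain ⟨e2, he2, C1, hC1, he⟩ := F0.engine τ hτ hτ0
  have hn0 : (0 : ℝ) ≤ cV V := Nat.cast_nonneg _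
  set n0 : ℝ := cV V with hn0def
  set C4 : ℝ := 16 * (n0 + 1) + 1 / τ with hC4def
  have hC4 : 0 < C4 := by positivity
  refine ⟨min (min d1 d2) (min 1 (1 / (6 * n0 + 6))),
    lt_min (lt_min hd1 hd2) (lt_min one_pos (by positivity)),
    C1 + C4 * C3 ^ 2 * (2 * C3 + n0 ^ 2) + 18 * n0 ^ 2 * C4 * C3 ^ 2 +
      6 * n0 * C1 * (2 * C3 + 1), by positivity, ?_⟩
  intro δx δo hx hxo ho R hR z hz hzR c y hm
  have ho1 : δo ≤ d1 := ho.trans ((min_le_left _ _).trans (min_le_left _ _))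
  have ho2 : δo ≤ d2 := ho.trans ((min_le_left _ _).trans (min_le_right _ _))
  have ho3 : δo ≤ 1 := ho.trans ((min_le_right _ _).trans (min_le_left _ _))
  have ho4 : δo ≤ 1 / (6 * n0 + 6) := ho.trans ((min_le_right _ _).trans (min_le_right _ _))
  have ho0 : 0 ≤ δo := hx.le.trans hxo
  have hx1 : δx ≤ 1 := hxo.trans ho3
  have hmatch : F.Match z := fun v hv => hz.2.1 v hv
  obtain ⟨hf, hf1⟩ := hfacts δx δo hx.le (hxo.trans ho1) ho0 ho1 z hz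
  have hlg := (hlarge δx δo hx hxo ho2 z hz).1 (Fin.last k)
  have hell := hf.ell_le (Fin.last k)
  have hS0 := hf.S_nonneg
  have ht1 : 1 ≤ tot z := hz.1
  have ha0 : 0 < F.a 0 (nR z) := hz.2.2.1 0
  have hta0 := hf1.tot_le
  have hgY := F.c2_gen_sq z hmatch (Fin.last k)
  have hEl : F.E (Fin.last k) = F.E 0 := hE _
  have hEabs : |F.E 0| ≤ n0 + 2 := by
    rw [abs_of_nonneg (F.nonneg 0)]
    have := F.E_le 0
    linarith
  have hreg0 := R3_reg0 F0 z ht1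
  obtain ⟨hb1, hb2, -⟩ := hb 0 0 le_rfl he1.le le_rfl he1.le z hreg0
  obtain ⟨hmf, x, hx1', hx2, hx3⟩ := he (F.E 0) hEabs 0 0 le_rfl he2.le le_rfl he2.le z hreg0 c y hm
  have hlow := hb1 (F.E 0) hEabs
  have hup := hb2 (F.E 0) hEabs
  have hDX := hmf.dist
  rw [R3_o2] at hlow hup hDX
  have hqt := R3_qq_le z
  have hqq0 : 0 ≤ qq z := by
    unfold qq
    exact Finset.sum_nonneg fun v _ => sq_nonneg _
  have hD0 : 0 ≤ dsq z.c (nR z) c y := dsq_nonneg _ _ _ _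
  have hda : ∀ w, |F.a (Fin.last k) (nR (step G z w)) - F.a (Fin.last k) (nR z)| ≤ n0 := fun w =>
    F.a_step_abs z hmatch w _
  have hA6 : 6 * n0 + 6 ≤ F.a (Fin.last k) (nR z) := by
    refine le_trans ?_ hlg
    have h1 : δx ≤ 1 / (6 * n0 + 6) := hxo.trans ho4
    have h2 : (6 * n0 + 6) * δx ≤ 1 := by
      rw [le_div_iff₀ (by positivity)] at h1
      linarith
    rw [le_div_iff₀ (by positivity)]
    calc (6 * n0 + 6) * δx ^ 2 = (6 * n0 + 6) * δx * δx := by ring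
      _ ≤ 1 * 1 := mul_le_mul h2 hx1 hx.le zero_le_one
      _ = 1 := one_mul 1
  set A := F.a (Fin.last k) (nR z) with hAdef
  set T := F0.env (F.E 0) τ z with hTdef
  set q := qq z with hqdef
  set D := dsq z.c (nR z) c y with hDdef
  set t := tot z with htdef
  set S := F.S z.c (nR z) with hSdef
  set L := F.ell z.c (nR z) (Fin.last k) with hLdef
  set E := F.E 0 with hEdef
  have hA0 : 0 < A := by linarith
  have hA1 : 1 ≤ A := by linarith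
  have hAA : 0 < A ^ 2 := by positivity
  have hR0 : 0 < R := by linarith
  have hRR : 1 ≤ R ^ 2 := one_le_pow₀ hR
  have hRR' : R ≤ R ^ 2 := by nlinarith
  have htA : t ≤ C3 * (R * A) := hta0.trans (mul_le_mul_of_nonneg_left hzR hC3.le)
  have hqA : q ≤ (C3 * (R * A)) ^ 2 :=
    hqt.trans (pow_le_pow_left₀ (by linarith) htA 2)
  have hT4 : |T| ≤ C4 * q := by
    rw [abs_le]
    constructor
    · have h1 : -q / τ = -(1 / τ * q) := by ring
      rw [h1] at hlow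
      have h2 : 0 ≤ 16 * (n0 + 1) * q := by positivity
      have h3 : C4 * q = 16 * (n0 + 1) * q + 1 / τ * q := by rw [hC4def]; ring
      linarith
    · have h2 : 0 ≤ (1 / τ) * q := by positivity
      have h3 : C4 * q = 16 * (n0 + 1) * q + 1 / τ * q := by rw [hC4def]; ring
      linarith
  have hTA : |T| ≤ C4 * C3 ^ 2 * R ^ 2 * A ^ 2 := by
    refine hT4.trans ((mul_le_mul_of_nonneg_left hqA hC4.le).trans (le_of_eq ?_))
    ring
  have hY : ∀ w, |F.a (Fin.last k) (nR (step G z w)) ^ 2 - A ^ 2| ≤ 3 * n0 * A := fun w =>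
    R3_sq_step A _ n0 (hda w) (by linarith)
  have hq := gen_quot_num (G := G) (fun y => -(F0.env E τ y))
    (fun y => F.a (Fin.last k) (nR y) ^ 2) z
    (fun w => -(T - x w))
    (by show 0 < A ^ 2; positivity)
    (by
      intro w _
      show -(F0.env E τ (step G z w)) ≤ -(T - x w)
      have := hx1' w
      linarith)
    (by
      intro w _
      show |F.a (Fin.last k) (nR (step G z w)) ^ 2 - A ^ 2| ≤ A ^ 2 / 2
      refine (hY w).trans ?_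
      have h1 := mul_le_mul_of_nonneg_right (by linarith : 6 * n0 ≤ A) hA0.le
      rw [sq]
      linarith)
  change gen G (fun y => -(F0.env E τ y) / F.a (Fin.last k) (nR y) ^ 2) z ≤
    (∑ w, (z.n w : ℝ) * (-(T - x w) - -T)) / A ^ 2 -
      -T * gen G (fun y => F.a (Fin.last k) (nR y) ^ 2) z / (A ^ 2) ^ 2 +
      2 * |-T| * (∑ w, (z.n w : ℝ) * (F.a (Fin.last k) (nR (step G z w)) ^ 2 - A ^ 2) ^ 2) / (A ^ 2) ^ 3 +
      2 * (∑ w, (z.n w : ℝ) * (|-(T - x w) - -T| *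
        |F.a (Fin.last k) (nR (step G z w)) ^ 2 - A ^ 2|)) / (A ^ 2) ^ 2 at hq
  refine hq.trans ?_
  have ex : ∀ w, -(T - x w) - -T = x w := fun w => by ring
  simp only [ex]
  -- first term
  have b1 : (∑ w, (z.n w : ℝ) * x w) / A ^ 2 ≤
      (-(2 * E * T) - D / (2 * τ ^ 2) + C1 * t) / A ^ 2 := by
    apply div_le_div_of_nonneg_right _ hAA.le
    linarith
  -- second term
  have b2 : -(-T * gen G (fun y => F.a (Fin.last k) (nR y) ^ 2) z / (A ^ 2) ^ 2) ≤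
      (2 * E * T + C4 * C3 ^ 2 * R ^ 2 * (2 * C3 * S + n0 ^ 2 * t)) / A ^ 2 := by
    rw [hgY, hEl]
    set Q := ∑ w, (z.n w : ℝ) * (F.a (Fin.last k) (nR (step G z w)) - A) ^ 2 with hQdef
    have hQ0 : 0 ≤ Q := Finset.sum_nonneg fun w _ => mul_nonneg (Nat.cast_nonneg _) (sq_nonneg _)
    have hQ1 : Q ≤ n0 ^ 2 * t := by
      refine R3_wsum z _ _ ?_
      intro w _
      rw [← sq_abs]
      exact pow_le_pow_left₀ (abs_nonneg _) (hda w) 2
    have h1 : |2 * A * L + Q| ≤ 2 * C3 * S + n0 ^ 2 * t := by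
      refine (abs_add_le _ _).trans ?_
      rw [abs_of_nonneg hQ0, abs_mul, abs_of_nonneg (by linarith : (0 : ℝ) ≤ 2 * A)]
      linarith
    have h2 : T * (2 * A * L + Q) ≤ C4 * C3 ^ 2 * R ^ 2 * A ^ 2 * (2 * C3 * S + n0 ^ 2 * t) := by
      refine (le_abs_self _).trans ?_
      rw [abs_mul]
      exact mul_le_mul hTA h1 (abs_nonneg _) (by positivity)
    rw [← neg_div, div_le_div_iff₀ (by positivity) hAA]
    have h3 : -(-T * (2 * A * (E * A + L) + Q)) ≤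
        (2 * E * T + C4 * C3 ^ 2 * R ^ 2 * (2 * C3 * S + n0 ^ 2 * t)) * A ^ 2 := by
      have e1 : -(-T * (2 * A * (E * A + L) + Q)) = 2 * E * T * A ^ 2 + T * (2 * A * L + Q) := by
        ring
      rw [e1, add_mul]
      have e2 : C4 * C3 ^ 2 * R ^ 2 * (2 * C3 * S + n0 ^ 2 * t) * A ^ 2 =
          C4 * C3 ^ 2 * R ^ 2 * A ^ 2 * (2 * C3 * S + n0 ^ 2 * t) := by ring
      rw [e2]
      linarith
    calc -(-T * (2 * A * (E * A + L) + Q)) * A ^ 2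
        ≤ (2 * E * T + C4 * C3 ^ 2 * R ^ 2 * (2 * C3 * S + n0 ^ 2 * t)) * A ^ 2 * A ^ 2 :=
          mul_le_mul_of_nonneg_right h3 hAA.le
      _ = (2 * E * T + C4 * C3 ^ 2 * R ^ 2 * (2 * C3 * S + n0 ^ 2 * t)) * (A ^ 2) ^ 2 := by ring
  -- third term
  have b3 : 2 * |-T| * (∑ w, (z.n w : ℝ) * (F.a (Fin.last k) (nR (step G z w)) ^ 2 - A ^ 2) ^ 2) /
      (A ^ 2) ^ 3 ≤ (18 * n0 ^ 2 * C4 * C3 ^ 2 * R ^ 2 * t) / A ^ 2 := by
    have h1 : ∑ w, (z.n w : ℝ) * (F.a (Fin.last k) (nR (step G z w)) ^ 2 - A ^ 2) ^ 2 ≤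
        (9 * n0 ^ 2 * A ^ 2) * t := by
      refine R3_wsum z _ _ ?_
      intro w _
      rw [← sq_abs]
      refine (pow_le_pow_left₀ (abs_nonneg _) (hY w) 2).trans (le_of_eq ?_)
      ring
    have h3 : 2 * |-T| * (∑ w, (z.n w : ℝ) * (F.a (Fin.last k) (nR (step G z w)) ^ 2 - A ^ 2) ^ 2) ≤
        2 * (C4 * C3 ^ 2 * R ^ 2 * A ^ 2) * ((9 * n0 ^ 2 * A ^ 2) * t) := by
      rw [abs_neg]
      apply mul_le_mul (by linarith) h1 _ (by positivity)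
      exact Finset.sum_nonneg fun w _ => mul_nonneg (Nat.cast_nonneg _) (sq_nonneg _)
    refine (div_le_div_of_nonneg_right h3 (by positivity)).trans (le_of_eq ?_)
    field_simp
    ring
  -- fourth term
  have hDle : Real.sqrt D ≤ 2 * C3 * (R * A) := by
    rw [Real.sqrt_le_left (by positivity)]
    refine hDX.trans ?_
    have : 3 * q ≤ 3 * (C3 * (R * A)) ^ 2 := by linarith
    nlinarith [sq_nonneg (C3 * (R * A))]
  have b4 : 2 * (∑ w, (z.n w : ℝ) * (|x w| *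
        |F.a (Fin.last k) (nR (step G z w)) ^ 2 - A ^ 2|)) / (A ^ 2) ^ 2 ≤
      (6 * n0 * C1 * (2 * C3 + 1) * R ^ 2 * t) / A ^ 2 := by
    have h1 : ∑ w, (z.n w : ℝ) * (|x w| *
        |F.a (Fin.last k) (nR (step G z w)) ^ 2 - A ^ 2|) ≤
        (3 * n0 * C1 * (2 * C3 + 1) * R ^ 2 * A ^ 2) * t := by
      refine R3_wsum z _ _ ?_
      intro w _
      have h3 := hx2 w
      have hRA : 1 ≤ R * A := one_le_mul_of_one_le_of_one_le hR hA1
      have h5 : Real.sqrt D + 1 ≤ (2 * C3 + 1) * (R * A) := by linarith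
      have h6 : |x w| ≤ C1 * ((2 * C3 + 1) * (R * A)) :=
        h3.trans (mul_le_mul_of_nonneg_left h5 hC1.le)
      have h7 : C1 * ((2 * C3 + 1) * (R * A)) ≤ C1 * ((2 * C3 + 1) * (R ^ 2 * A)) := by
        apply mul_le_mul_of_nonneg_left _ hC1.le
        apply mul_le_mul_of_nonneg_left _ (by positivity)
        exact mul_le_mul_of_nonneg_right hRR' hA0.le
      refine (mul_le_mul (h6.trans h7) (hY w) (abs_nonneg _) (by positivity)).trans (le_of_eq ?_)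
      ring
    refine (div_le_div_of_nonneg_right (mul_le_mul_of_nonneg_left h1 (by norm_num : (0 : ℝ) ≤ 2))
      (by positivity)).trans (le_of_eq ?_)
    field_simp
    ring
  -- assembly
  have hfin : (-(2 * E * T) - D / (2 * τ ^ 2) + C1 * t) +
      (2 * E * T + C4 * C3 ^ 2 * R ^ 2 * (2 * C3 * S + n0 ^ 2 * t)) +
      (18 * n0 ^ 2 * C4 * C3 ^ 2 * R ^ 2 * t) + (6 * n0 * C1 * (2 * C3 + 1) * R ^ 2 * t) ≤
      -(D / (2 * τ ^ 2)) + (C1 + C4 * C3 ^ 2 * (2 * C3 + n0 ^ 2) + 18 * n0 ^ 2 * C4 * C3 ^ 2 +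
      6 * n0 * C1 * (2 * C3 + 1)) * R ^ 2 * (S + t) := by
    have t0 : 0 ≤ t := by linarith
    have p1 : C1 * t ≤ C1 * R ^ 2 * t := by
      have : C1 * 1 ≤ C1 * R ^ 2 := mul_le_mul_of_nonneg_left hRR hC1.le
      nlinarith
    have p2 : 0 ≤ C1 * R ^ 2 * S := by positivity
    have p3 : 0 ≤ C4 * C3 ^ 2 * R ^ 2 * (2 * C3 * t) := by positivity
    have p4 : 0 ≤ C4 * C3 ^ 2 * R ^ 2 * (n0 ^ 2 * S) := by positivity
    have p5 : 0 ≤ 18 * n0 ^ 2 * C4 * C3 ^ 2 * R ^ 2 * S := by positivity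
    have p6 : 0 ≤ 6 * n0 * C1 * (2 * C3 + 1) * R ^ 2 * S := by positivity
    nlinarith
  have hfin2 := div_le_div_of_nonneg_right hfin hAA.le
  have e3 : -(D / (2 * τ ^ 2)) / A ^ 2 = -(D / (2 * τ ^ 2 * A ^ 2)) := by
    rw [neg_div, div_div]
  rw [← e3, ← add_div]
  refine le_trans ?_ hfin2
  rw [add_div _ (6 * n0 * C1 * (2 * C3 + 1) * R ^ 2 * t),
    add_div _ (18 * n0 ^ 2 * C4 * C3 ^ 2 * R ^ 2 * t),
    add_div _ (2 * E * T + C4 * C3 ^ 2 * R ^ 2 * (2 * C3 * S + n0 ^ 2 * t))]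
  linarith

end UC
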