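import Pool.Agent.helper25.UC.B3
import Pool.Agent.helper25.UC.B7
import Pool.Agent.helper25.UC.C2
import Pool.Agent.helper25.UC.Z4
import Pool.Agent.helper25.UC.R3

/-!
# R4 : the region around a flag with equal rates is stable

All `E_j = E := E_0 > 0`.

**lojaE.**  For a symmetric matrix `T` there is `C` with `|⟨x,Tx⟩| ≤ C |Tx|²` (`Z4_sym` in Z4).  Apply it
to the finitely many `T_{c,J} = (M_{c} - E)` restricted to `J`,
`M_c(u,v) = ε(c_u,c_v) 1_{u~v}`: for `y = 0` off `J`: `⟨y,Ty⟩ = AA c y c y - E ∑ y²`,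
`(Ty)_v = Lf c (c v) v y - E y_v` on `J`, `0` off `J`.

**env_le_dsq.**  For a maximiser `(c,r)` of `F` at `E` (`MxFacts`): `env = Th - dsq/τ ≤ Th`,
`Th^E(c,r) = AA(r,r) - E∑r²` (all `E_j = E`), and with `J = {v : v ∈ I ∨ 0 < r v}` (`r = 0` off `J` by
`Adm`) `stat` gives `Lf c (c v) v r - E r_v = (r_v - ε n_v)/τ` on `J`.  So `env ≤ C0 dsq/τ²`.

**H1_drift.**  `Y = (o2 - B env)/a_l²`, `B = 4 C0`.  `W_drift` with `E`, `α = 1`, `β = B` and
`g = 2env + 2E o2 - (3/2)S + C tot` (`off_drift` with `E`):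
`a_l² gen Y ≤ 2env + 2E o2 - (3/2)S + C tot - B(2E env + dsq/(2τ²)) - 2E(o2 - B env) +
C(1+B)(δo² S + tot) = 2env - B dsq/(2τ²) - (3/2 - C(1+B)δo²) S + C' tot ≤ -S + C' tot`
(`2env ≤ 2C0 dsq/τ² = B dsq/(2τ²)`; `δo` small).
`K3 := 2 C6 (C'+1)/E`: `K3 gen(a_0/a_l²) ≤ -(C'+1) C6 a_0/a_l² + K3 C δx² S/a_l² ≤
(-(C'+1) tot + (1/4) S)/a_l²` (`a0_drift`, `tot ≤ C6 a_0`, `δx` small).
-/

namespace UC
open Finset
variable {V : Type} [Fintype V] [DecidableEq V] {s k : ℕ}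
variable {G : SimpleGraph V} [DecidableRel G.Adj]

/-- the restriction to `J` -/
def R4_P (J : Finset V) : (V → ℝ) →ₗ[ℝ] (V → ℝ) where
  toFun y v := if v ∈ J then y v else 0
  map_add' x y := by
    funext v
    rw [Pi.add_apply]
    by_cases h : v ∈ J
    · simp only [if_pos h, Pi.add_apply]
    · simp only [if_neg h, Pi.add_apply, add_zero]
  map_smul' t x := by
    funext v
    rw [RingHom.id_apply, Pi.smul_apply]
    by_cases h : v ∈ J
    · simp only [if_pos h, Pi.smul_apply]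
    · simp only [if_neg h, Pi.smul_apply, smul_zero]

theorem R4_P_apply (J : Finset V) (y : V → ℝ) (v : V) :
    R4_P J y v = if v ∈ J then y v else 0 := rfl

/-- `M_c - E` restricted to `J` -/
noncomputable def R4_T (G : SimpleGraph V) [DecidableRel G.Adj] (c : V → Fin s) (E : ℝ)
    (J : Finset V) : (V → ℝ) →ₗ[ℝ] (V → ℝ) := Z4_T G c J - E • R4_P J

theorem R4_T_apply (c : V → Fin s) (E : ℝ) (J : Finset V) (y : V → ℝ) (v : V) :
    R4_T G c E J y v = Z4_T G c J y v - E * (if v ∈ J then y v else 0) := by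
  rw [R4_T, LinearMap.sub_apply, LinearMap.smul_apply, Pi.sub_apply, Pi.smul_apply, smul_eq_mul,
    R4_P_apply]

theorem R4_T_sym (c : V → Fin s) (E : ℝ) (J : Finset V) (x y : V → ℝ) :
    ∑ v, x v * R4_T G c E J y v = ∑ v, R4_T G c E J x v * y v := by
  simp only [R4_T_apply, mul_sub, sub_mul, Finset.sum_sub_distrib]
  rw [Z4_T_sym]
  congr 1
  refine Finset.sum_congr rfl fun v _ => ?_
  by_cases h : v ∈ J
  · rw [if_pos h, if_pos h]; ring
  · rw [if_neg h, if_neg h]; ring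

theorem lojaE (G : SimpleGraph V) [DecidableRel G.Adj] (s : ℕ) (E : ℝ) :
    ∃ C0 > 0, ∀ (c : V → Fin s) (y : V → ℝ) (J : Finset V), (∀ v, v ∉ J → y v = 0) →
      |AA G c y c y - E * ∑ v, y v ^ 2| ≤
        C0 * ∑ v ∈ J, (Lf G c (c v) v y - E * y v) ^ 2 := by
  have h1 : ∀ p : (V → Fin s) × Finset V, ∃ C > 0, ∀ x,
      |∑ v, x v * R4_T G p.1 E p.2 x v| ≤ C * ∑ v, (R4_T G p.1 E p.2 x v) ^ 2 :=
    fun p => Z4_sym _ (R4_T_sym p.1 E p.2)
  choose C hC0 hC using h1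
  refine ⟨1 + ∑ p, C p, ?_, fun c y J hJ => ?_⟩
  · have : 0 ≤ ∑ p, C p := Finset.sum_nonneg fun p _ => (hC0 p).le
    linarith
  have hT0 : ∀ v, Z4_T G c J y v = if v ∈ J then Lf G c (c v) v y else 0 := by
    intro v
    rw [Z4_T_apply]
    by_cases hv : v ∈ J
    · rw [if_pos hv]
      unfold Lf
      refine Finset.sum_congr rfl fun u _ => ?_
      by_cases ha : G.Adj v u
      · rw [if_pos ha]
        by_cases hu : u ∈ J
        · rw [if_pos ⟨ha, hv, hu⟩]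
        · rw [hJ u hu, mul_zero]
          split_ifs <;> rfl
      · rw [if_neg ha, if_neg fun e => ha e.1]
    · rw [if_neg hv]
      refine Finset.sum_eq_zero fun u _ => ?_
      rw [if_neg fun e => hv e.2.1]
  have hT : ∀ v, R4_T G c E J y v = if v ∈ J then Lf G c (c v) v y - E * y v else 0 := by
    intro v
    rw [R4_T_apply, hT0]
    by_cases hv : v ∈ J
    · rw [if_pos hv, if_pos hv, if_pos hv]
    · rw [if_neg hv, if_neg hv, if_neg hv]; ring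
  have hAA : AA G c y c y - E * ∑ v, y v ^ 2 = ∑ v, y v * R4_T G c E J y v := by
    rw [AA_eq_Lf, Finset.mul_sum, ← Finset.sum_sub_distrib]
    refine Finset.sum_congr rfl fun v _ => ?_
    rw [hT v]
    by_cases hv : v ∈ J
    · rw [if_pos hv]; ring
    · rw [if_neg hv, hJ v hv]; ring
  have hsum : ∑ v, (R4_T G c E J y v) ^ 2 = ∑ v ∈ J, (Lf G c (c v) v y - E * y v) ^ 2 := by
    have e : ∀ v, (R4_T G c E J y v) ^ 2 =
        if v ∈ J then (Lf G c (c v) v y - E * y v) ^ 2 else 0 := by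
      intro v
      rw [hT v]
      by_cases hv : v ∈ J
      · rw [if_pos hv, if_pos hv]
      · rw [if_neg hv, if_neg hv]; ring
    simp only [e]
    rw [Finset.sum_ite_mem, Finset.univ_inter]
  have h2 := hC (c, J) y
  simp only at h2
  rw [← hAA, hsum] at h2
  refine h2.trans (mul_le_mul_of_nonneg_right ?_ (Finset.sum_nonneg fun v _ => sq_nonneg _))
  have e : C (c, J) ≤ ∑ p, C p :=
    Finset.single_le_sum (f := C) (fun p _ => (hC0 p).le) (Finset.mem_univ _)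
  linarith

theorem Flag.R4_abs_E (F : Flag G s k) (j : Fin k) : |F.E j| ≤ cV V + 2 := by
  rw [abs_of_nonneg (F.nonneg j)]
  have := F.E_le j
  linarith

theorem Flag.env_le_dsq (F : Flag G s (k + 1)) (τ : ℝ) (hτ : 0 < τ) (hτ0 : τ ≤ tau0 V)
    (hE : ∀ j, F.E j = F.E 0) :
    ∃ δ0 > 0, ∃ C0 > 0, ∀ δx δo : ℝ, 0 ≤ δx → δx ≤ δ0 → 0 ≤ δo → δo ≤ δ0 → ∀ z, F.Reg δx δo z →
      ∀ c r, F.IsMx (F.E 0) τ z c r →
        F.env (F.E 0) τ z ≤ C0 * dsq z.c (nR z) c r / τ ^ 2 := by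
  obtain ⟨δ1, hδ1, C1, hC1, he⟩ := F.engine τ hτ hτ0
  obtain ⟨C0, hC0, hl⟩ := lojaE G s (F.E 0)
  refine ⟨δ1, hδ1, C0, hC0, ?_⟩
  intro δx δo hx0 hx1 ho0 ho1 z hz c r hm
  obtain ⟨hmf, -⟩ := he (F.E 0) (F.R4_abs_E 0) δx δo hx0 hx1 ho0 ho1 z hz c r hm
  have henv := F.env_eq (F.E 0) τ z c r hm
  have hD0 : 0 ≤ dsq z.c (nR z) c r := dsq_nonneg _ _ _ _
  have hTh : F.Th (F.E 0) c r = AA G c r c r - F.E 0 * ∑ v, r v ^ 2 := by
    unfold Flag.Th
    have : ∑ j, (F.E j - F.E 0) * F.a j r ^ 2 = 0 :=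
      Finset.sum_eq_zero fun j _ => by rw [hE j]; ring
    rw [this, sub_zero]
  classical
  set J : Finset V := univ.filter fun v => v ∈ F.I ∨ 0 < r v with hJ
  have hoff : ∀ v, v ∉ J → r v = 0 := by
    intro v hv
    rw [hJ, Finset.mem_filter] at hv
    push Not at hv
    obtain ⟨h1, h2⟩ := hv (Finset.mem_univ v)
    exact le_antisymm h2 (hm.1.2 v h1)
  have h1 := hl c r J hoff
  have h2 : ∀ v ∈ J, (Lf G c (c v) v r - F.E 0 * r v) ^ 2 =
      (nR z v - eps (z.c v) (c v) * r v) ^ 2 / τ ^ 2 := by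
    intro v hv
    rw [hJ, Finset.mem_filter] at hv
    have h3 := hmf.stat v hv.2
    have h4 : ∑ j, (F.E j - F.E 0) * F.a j r * F.e j v = 0 :=
      Finset.sum_eq_zero fun j _ => by rw [hE j]; ring
    rw [h4, sub_zero] at h3
    rw [h3, div_pow]
    congr 1
    have h5 := b3_eps_sq (z.c v) (c v)
    unfold nR
    linear_combination ((z.n v : ℝ) ^ 2 - r v ^ 2) * h5
  have h3 : ∑ v ∈ J, (Lf G c (c v) v r - F.E 0 * r v) ^ 2 ≤ dsq z.c (nR z) c r / τ ^ 2 := by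
    rw [Finset.sum_congr rfl h2, ← Finset.sum_div]
    refine div_le_div_of_nonneg_right ?_ (sq_nonneg τ)
    unfold dsq
    exact Finset.sum_le_sum_of_subset_of_nonneg (Finset.subset_univ _) fun v _ _ => sq_nonneg _
  have h4 : F.env (F.E 0) τ z ≤ F.Th (F.E 0) c r := by
    rw [henv]
    unfold Flag.val
    have : 0 ≤ dsq z.c (nR z) c r / τ := by positivity
    linarith
  calc F.env (F.E 0) τ z ≤ F.Th (F.E 0) c r := h4
    _ ≤ |AA G c r c r - F.E 0 * ∑ v, r v ^ 2| := by rw [hTh]; exact le_abs_self _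
    _ ≤ C0 * ∑ v ∈ J, (Lf G c (c v) v r - F.E 0 * r v) ^ 2 := h1
    _ ≤ C0 * (dsq z.c (nR z) c r / τ ^ 2) := mul_le_mul_of_nonneg_left h3 hC0.le
    _ = C0 * dsq z.c (nR z) c r / τ ^ 2 := by ring

theorem R4_small {P δ m : ℝ} (hP : 0 ≤ P) (hδ : 0 ≤ δ) (h1 : δ ≤ 1) (hm : 0 < m)
    (h : δ ≤ 1 / (m * (P + 1))) : P * δ ^ 2 ≤ 1 / m := by
  have e1 : δ ^ 2 ≤ δ := by nlinarith
  have e2 : P * δ ^ 2 ≤ (P + 1) * δ := by nlinarith
  have e3 : (P + 1) * δ ≤ (P + 1) * (1 / (m * (P + 1))) :=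
    mul_le_mul_of_nonneg_left h (by positivity)
  have e4 : (P + 1) * (1 / (m * (P + 1))) = 1 / m := by
    have : P + 1 ≠ 0 := by positivity
    field_simp
  linarith

theorem R4_alg1 {E B C0 C1 C2 τ T X S t D δ : ℝ} (hB : B = 4 * C0) (hτ : 0 < τ)
    (hT : T ≤ C0 * D / τ ^ 2) (hS : 0 ≤ S) (hδ : C2 * (1 + B) * δ ^ 2 ≤ 1 / 2) :
    1 * (2 * T + 2 * E * X - 3 / 2 * S + C1 * t) - B * (2 * E * T + D / (2 * τ ^ 2)) -
      2 * E * (1 * X - B * T) + C2 * (1 + B) * (δ ^ 2 * S + t) ≤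
      -S + (C1 + C2 * (1 + B)) * t := by
  have k2 : B * (D / (2 * τ ^ 2)) = 2 * (C0 * D / τ ^ 2) := by
    rw [hB]; field_simp; ring
  have e1 : C2 * (1 + B) * δ ^ 2 * S ≤ 1 / 2 * S := mul_le_mul_of_nonneg_right hδ hS
  have e2 : 1 * (2 * T + 2 * E * X - 3 / 2 * S + C1 * t) - B * (2 * E * T + D / (2 * τ ^ 2)) -
    2 * E * (1 * X - B * T) + C2 * (1 + B) * (δ ^ 2 * S + t) =
    2 * T - B * (D / (2 * τ ^ 2)) - 3 / 2 * S + C2 * (1 + B) * δ ^ 2 * S +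
      (C1 + C2 * (1 + B)) * t := by ring
  rw [e2, k2]
  linarith

theorem R4_alg2 {E K3 C3 C6 C' a0 A S t δ : ℝ} (hE : 0 < E) (hK : K3 = 2 * C6 * (C' + 1) / E)
    (hA : 0 < A) (hC' : 0 < C') (ht : t ≤ C6 * a0) (hS : 0 ≤ S)
    (hδ : K3 * C3 * δ ^ 2 ≤ 1 / 4) :
    K3 * (-(E / 2 * (a0 / A ^ 2)) + C3 * δ ^ 2 * S / A ^ 2) ≤
      (-((C' + 1) * t) + 1 / 4 * S) / A ^ 2 := by
  have hA2 : 0 < A ^ 2 := by positivity
  have e1 : K3 * (-(E / 2 * (a0 / A ^ 2)) + C3 * δ ^ 2 * S / A ^ 2) =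
      (-(K3 * E / 2 * a0) + K3 * C3 * δ ^ 2 * S) / A ^ 2 := by
    field_simp
  have e0 : K3 * E / 2 * a0 = (C' + 1) * (C6 * a0) := by
    rw [hK]; field_simp
  rw [e1, e0]
  refine div_le_div_of_nonneg_right ?_ hA2.le
  have e2 : (C' + 1) * t ≤ (C' + 1) * (C6 * a0) := mul_le_mul_of_nonneg_left ht (by positivity)
  have e3 : K3 * C3 * δ ^ 2 * S ≤ 1 / 4 * S := mul_le_mul_of_nonneg_right hδ hS
  linarith

/-- the functional which keeps the process near the flag -/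
noncomputable def Flag.H1 (F : Flag G s (k + 1)) (τ B K3 : ℝ) (z : St V s) : ℝ :=
  (F.o2 (nR z) - B * F.env (F.E 0) τ z) / F.a (Fin.last k) (nR z) ^ 2 +
    K3 * (F.a 0 (nR z) / F.a (Fin.last k) (nR z) ^ 2)

theorem Flag.H1_drift (F : Flag G s (k + 1)) (τ : ℝ) (hτ : 0 < τ) (hτ0 : τ ≤ tau0 V)
    (hE : ∀ j, F.E j = F.E 0) (hpos : 0 < F.E 0) :
    ∃ B > 0, ∃ K3 > 0, ∃ δ0 > 0, ∀ δx δo : ℝ, 0 < δx → δx ≤ δo → δo ≤ δ0 → ∀ z,
      F.Reg δx δo z →
      gen G (F.H1 τ B K3) z ≤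
        -(1 / 2 * (F.S z.c (nR z) + tot z) / F.a (Fin.last k) (nR z) ^ 2) := by
  obtain ⟨δ1, hδ1, C0, hC0, hed⟩ := F.env_le_dsq τ hτ hτ0 hE
  obtain ⟨δ2, hδ2, C1, hC1, hod⟩ := F.off_drift τ hτ hτ0
  obtain ⟨δ3, hδ3, C2, hC2, hWd⟩ := F.W_drift τ hτ hτ0
  obtain ⟨δ4, hδ4, C3, hC3, had⟩ := F.a0_drift hE hpos
  obtain ⟨δ5, hδ5, c6, hc6, C6, hC6, hrf⟩ := F.reg_facts1
  set E := F.E 0 with hEdef
  set B : ℝ := 4 * C0 with hB
  have hB0 : 0 < B := by positivity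
  set C' : ℝ := C1 + C2 * (1 + B) with hC'
  have hC'0 : 0 < C' := by positivity
  set K3 : ℝ := 2 * C6 * (C' + 1) / E with hK3
  have hK30 : 0 < K3 := by positivity
  refine ⟨B, hB0, K3, hK30, min (min (min δ1 δ2) (min δ3 δ4)) (min (min δ5 1)
    (min (1 / (2 * (C2 * (1 + B) + 1))) (1 / (4 * (K3 * C3 + 1))))), ?_, ?_⟩
  · exact lt_min (lt_min (lt_min hδ1 hδ2) (lt_min hδ3 hδ4)) (lt_min (lt_min hδ5 one_pos)
      (lt_min (by positivity) (by positivity)))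
  intro δx δo hx hxo ho z hz
  have ho1 : δo ≤ δ1 :=
    ho.trans ((min_le_left _ _).trans ((min_le_left _ _).trans (min_le_left _ _)))
  have ho2 : δo ≤ δ2 :=
    ho.trans ((min_le_left _ _).trans ((min_le_left _ _).trans (min_le_right _ _)))
  have ho3 : δo ≤ δ3 :=
    ho.trans ((min_le_left _ _).trans ((min_le_right _ _).trans (min_le_left _ _)))
  have ho4 : δo ≤ δ4 :=
    ho.trans ((min_le_left _ _).trans ((min_le_right _ _).trans (min_le_right _ _)))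
  have ho5 : δo ≤ δ5 :=
    ho.trans ((min_le_right _ _).trans ((min_le_left _ _).trans (min_le_left _ _)))
  have ho6 : δo ≤ 1 :=
    ho.trans ((min_le_right _ _).trans ((min_le_left _ _).trans (min_le_right _ _)))
  have ho7 : δo ≤ 1 / (2 * (C2 * (1 + B) + 1)) :=
    ho.trans ((min_le_right _ _).trans ((min_le_right _ _).trans (min_le_left _ _)))
  have ho8 : δo ≤ 1 / (4 * (K3 * C3 + 1)) :=
    ho.trans ((min_le_right _ _).trans ((min_le_right _ _).trans (min_le_right _ _)))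
  have ho0 : 0 ≤ δo := hx.le.trans hxo
  have hEa : |E| ≤ cV V + 2 := F.R4_abs_E 0
  obtain ⟨c, r, hm⟩ := F.exists_mx E τ hEa hτ hτ0 z
  have h1 := hed δx δo hx.le (hxo.trans ho1) ho0 ho1 z hz c r hm
  have h2 := hod E hEa δx δo hx.le (hxo.trans ho2) ho0 ho2 z hz
  have h3 := hWd E hEa 1 B zero_le_one hB0.le δx δo hx hxo ho3 z hz c r hm _ h2
  have h4 := had δx δo hx hxo ho4 z hz
  obtain ⟨hf, hf1⟩ := hrf δx δo hx.le (hxo.trans ho5) ho0 ho5 z hz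
  have hS0 := hf.S_nonneg
  have ht0 : 0 ≤ tot z := tot_nonneg z
  have hA0 : 0 < F.a (Fin.last k) (nR z) := hz.2.2.1 _
  have htl := hf1.tot_le
  have hEl : F.E (Fin.last k) = E := hE _
  rw [hEl] at h3
  have hD0 : 0 ≤ dsq z.c (nR z) c r := dsq_nonneg _ _ _ _
  -- splitting
  have hgen : gen G (F.H1 τ B K3) z =
      gen G (fun y => (1 * F.o2 (nR y) - B * F.env E τ y) / F.a (Fin.last k) (nR y) ^ 2) z +
        K3 * gen G (fun y => F.a 0 (nR y) / F.a (Fin.last k) (nR y) ^ 2) z := by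
    rw [← gen_smul, ← gen_add]
    congr 1
    funext y
    unfold Flag.H1
    rw [one_mul]
  rw [hgen]
  set A := F.a (Fin.last k) (nR z) with hA
  set S := F.S z.c (nR z) with hS
  set t := tot z with ht
  set X := F.o2 (nR z) with hX
  set T := F.env E τ z with hT
  set D := dsq z.c (nR z) c r with hD
  set a0 := F.a 0 (nR z) with ha0
  have hA2 : 0 < A ^ 2 := by positivity
  -- first part
  have k1 : C2 * (1 + B) * δo ^ 2 ≤ 1 / 2 :=
    R4_small (by positivity) ho0 ho6 (by norm_num) ho7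
  have k4 := h3.trans (div_le_div_of_nonneg_right
    (R4_alg1 (C1 := C1) (E := E) (X := X) (t := t) hB hτ h1 hS0 k1) hA2.le)
  -- second part
  have k5 : K3 * C3 * δx ^ 2 ≤ 1 / 4 :=
    R4_small (by positivity) hx.le (hxo.trans ho6) (by norm_num) (hxo.trans ho8)
  have k6 := R4_alg2 (a0 := a0) hpos hK3 hA0 hC'0 htl hS0 k5
  have k7 := (mul_le_mul_of_nonneg_left h4 hK30.le).trans k6
  rw [← hC'] at k4
  have k8 : (-S + C' * t) / A ^ 2 + (-((C' + 1) * t) + 1 / 4 * S) / A ^ 2 ≤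
      -(1 / 2 * (S + t) / A ^ 2) := by
    rw [← add_div, ← neg_div]
    refine div_le_div_of_nonneg_right ?_ hA2.le
    linarith
  linarith

end UC
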