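import Pool.Agent.helper25.UC.C1
import Pool.Agent.helper25.UC.M2
import Pool.Agent.helper25.UC.R2
import Pool.Agent.helper25.UC.R4

/-!
# R6 : a region around a flag with equal rates which is hard to leave

`F` has length `k+1`, all `E_j = E := E_0 > 0`, `Reach`, `Inv`; `l = last`, `n0 = card V`; `C6`: the
constant of `reg_facts1`.

*Constants.*  `B, K3` from `H1_drift`; `Cx` a common constant `≥ 1` for `xs_drift`, `xi_drift`,
`a0_drift`, `env_step`.  `δo > 0` below `dd`, `1/4`, all `δ0`'s and the `δo` of `Inv`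
(`Reg_mono`).  `A := 8 (Cx C6 + Cx (k+1)² + Cx + 1) + 1/δo²`.
`δ1 := 1/(128 A B)`.  `Inv` with this `δ1` gives `δx > 0`, `ε1 > 0`; shrink `δx ≤ δo`, `δx` so small
that `Cx (δo a + 1) ≤ (δ1/4) a²` for `a ≥ 1/δx²`.
`f₀ := min ε1 (1/2)`, `K̂ := 4 C6/δx²`, `b1 := 8 B δ1`.
`Hb R1 := A (H1 + b1) + xs/δx + xi/R1 + K̂ a_0/a_l²`.
`RR F f δx δo f₀ R1 := {z ∈ Reg δx δo : xi z ≤ R1, f z < f₀}`.
*On `RR`*: `env_F^E z < δ1 a_l²` by `Inv` (`f < ε1`).  `H1 ≥ -B env/a_l² ≥ -Bδ1`, so `H1 + b1 ≥ 0`,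
`Hb ≥ 0`.  `gen Hb ≤ 0`:
`A gen H1 ≤ -(A/2)(S+tot)/a_l²`; `gen xs/δx ≤ Cx (k+1)² (S+tot)/a_l²` (`xs_drift`, `xs_le`);
`gen xi/R1 ≤ Cx (S+tot)/a_l²`; `K̂ gen(a_0/a_l²) ≤ K̂ Cx δx² S/a_l² = 4C6 Cx S/a_l²`.
*Exits* `z' = step z w ∉ RR`, `z ∈ RR`, `n_w ≥ 1`: `z' ∈ Reg (2δx)(2δo)` (`reg_step`), in particular
matched, `a_j(z') > 0`, `a_j ≤ 2 a_j(z')`;
`env_F(z') ≤ env_F(z) + Cx(√o2 + 1) ≤ δ1 a_l² + Cx(δo a_l + 1) ≤ (5/4) δ1 a_l² ≤ 8δ1 a_l(z')²`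
(`a_l ≥ 1/δx²`: `reg_large`), so `H1(z') + b1 ≥ o2(z')/a_l(z')² ≥ 0` and all terms of `Hb(z')` are
`≥ 0`.  One of: `f z' ≥ f₀`.  `xi z' > R1`: `xi/R1 > 1`.  A ratio fails: `xs/δx > 1` (`xs_gt`).
`o2 > δo² a_j² ≥ δo² a_l²` (in `Reg (2δx)(2δo)` `a_l ≤ a_j`): `A(H1 + b1) ≥ A o2/a_l² > 1`.
`tot > δx² a_j² ≥ δx² a_l²`: `K̂ a_0/a_l² ≥ K̂ tot/(C6 a_l²) > 1` (`tot ≤ C6 a_0` in
`Reg (2δx)(2δo)`).
*Start*: `Reach` with `δ ≤ δx` small, `ε = f₀/8`: `z0 ∈ Reg δ δ`, `f z0 < f₀/8`;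
`H1 ≤ (1 + B/τ) δ² + K3 δ²` (`env ≥ -o2/τ`: `env_bounds`; `a_0 ≤ tot ≤ δ² a_l²`),
`A b1 = 1/16`, `xs/δx ≤ (k+1)²δ/δx`, `xi/R1 ≤ 1/16`, `K̂ a_0/a_l² ≤ K̂ δ²`.  So `Hb ≤ 1/4`.
-/

namespace UC
open Finset
variable {V : Type} [Fintype V] [DecidableEq V] {s k : ℕ}
variable {G : SimpleGraph V} [DecidableRel G.Adj]

/-- the region -/
def RR (F : Flag G s (k + 1)) (f : St V s → ℝ) (δx δo f₀ R1 : ℝ) : Set (St V s) :=
  {z | F.Reg δx δo z ∧ F.xi z ≤ R1 ∧ f z < f₀}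

theorem region_H {f : St V s → ℝ} (hf : BadF G f) (F : Flag G s (k + 1))
    (τ : ℝ) (hτ : 0 < τ) (hτ0 : τ ≤ tau0 V) (hE : ∀ j, F.E j = F.E 0)
    (hpos : 0 < F.E 0) (hR : Reach F f) (hI : Inv F τ f) (dd : ℝ) (hdd : 0 < dd) :
    ∃ B > 0, ∃ K3 > 0, ∃ b1 > 0, ∃ δx > 0, ∃ δo > 0, ∃ f₀ > 0, δx ≤ δo ∧ δo ≤ dd ∧ f₀ ≤ 1 / 2 ∧
    ∃ Hb : ℝ → St V s → ℝ,
      (∀ R1 : ℝ, 1 ≤ R1 → ∀ z ∈ RR F f δx δo f₀ R1,
        0 ≤ Hb R1 z ∧ gen G (Hb R1) z ≤ 0 ∧ 0 ≤ F.H1 τ B K3 z + b1 ∧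
        gen G (F.H1 τ B K3) z ≤
          -(1 / 2 * (F.S z.c (nR z) + tot z) / F.a (Fin.last k) (nR z) ^ 2)) ∧
      (∀ R1 : ℝ, 1 ≤ R1 → ∀ z ∈ RR F f δx δo f₀ R1, ∀ w, 1 ≤ z.n w →
        step G z w ∉ RR F f δx δo f₀ R1 →
        0 ≤ Hb R1 (step G z w) ∧ (f₀ ≤ f (step G z w) ∨ 1 ≤ Hb R1 (step G z w)) ∧
        0 ≤ F.H1 τ B K3 (step G z w) + b1) ∧
      (∃ z0, F.Reg δx δo z0 ∧ f z0 < f₀ / 8 ∧
        ∀ R1 : ℝ, 1 ≤ R1 → 16 * (F.xi z0 + 1) ≤ R1 → Hb R1 z0 ≤ 1 / 4) := by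
  classical
  have hn0 : 0 ≤ cV V := Nat.cast_nonneg _
  have hEle := F.E_le 0
  have hEabs : |F.E 0| ≤ cV V + 2 := by rw [abs_le]; constructor <;> linarith
  -- constants of the imported theorems
  obtain ⟨B, hB, K3, hK3, d0, hd0, hH1⟩ := F.H1_drift τ hτ hτ0 hE hpos
  obtain ⟨d1, hd1, c1, hc1, Cf, hCf, hfacts⟩ := F.reg_facts1
  obtain ⟨d2, hd2, hbounds⟩ := F.env_bounds τ hτ hτ0
  obtain ⟨d3, hd3, Ca, hCa, ha0⟩ := F.a0_drift hE hpos
  obtain ⟨d4, hd4, Ci, hCi, hxi⟩ := F.xi_drift hE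
  obtain ⟨d5, hd5, Cs, hCs, hxs⟩ := F.xs_drift
  obtain ⟨d10, hd10, C10, hC10, hstep⟩ := F.reg_step
  obtain ⟨d11, hd11, C11, hC11, hestep⟩ := F.env_step τ hτ hτ0
  obtain ⟨d12, hd12, hlarge⟩ := F.reg_large
  obtain ⟨dI, hdI, hInv⟩ := hI
  obtain ⟨δo, hδo, hδodd, hδo1, hδoI, ho0, ho1, ho2, ho3, ho4, ho5, ho10, ho11, ho12⟩ :
      ∃ δo : ℝ, 0 < δo ∧ δo ≤ dd ∧ δo ≤ 1 ∧ δo ≤ dI ∧
      δo ≤ d0 ∧ 2 * δo ≤ d1 ∧ δo ≤ d2 ∧ δo ≤ d3 ∧ δo ≤ d4 ∧ δo ≤ d5 ∧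
        δo ≤ d10 ∧ δo ≤ d11 ∧ δo ≤ d12 := by
    have hm : ∃ x : ℝ, 0 < x ∧ ∀ y ∈ ([dd, 1, dI, d0, d1 / 2, d2, d3, d4, d5, d10, d11, d12] :
        List ℝ), x ≤ y := by
      have hall : ∀ y ∈ ([dd, 1, dI, d0, d1 / 2, d2, d3, d4, d5, d10, d11, d12] :
        List ℝ), 0 < y := by
        intro y hy
        simp only [List.mem_cons, List.not_mem_nil, or_false] at hy
        rcases hy with h | h | h | h | h | h | h | h | h | h | h | h <;> rw [h] <;> positivity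
      exact m1_min _ hall
    obtain ⟨x, hx, hxy⟩ := hm
    simp only [List.mem_cons, List.not_mem_nil, or_false, forall_eq_or_imp, forall_eq] at hxy
    obtain ⟨h0, h1, h2, h3, h4, h5, h6, h7, h8, h9, h10, h11⟩ := hxy
    exact ⟨x, hx, h0, h1, h2, h3, by linarith, h5, h6, h7, h8, h9, h10, h11⟩
  -- the constant `A`
  obtain ⟨A, hA, hA1, hA2⟩ : ∃ A : ℝ, 0 < A ∧ 1 ≤ A * δo ^ 2 ∧
      Cs * ((k + 1 : ℕ) : ℝ) ^ 2 + Ci + 4 * Cf * Ca ≤ A / 2 := by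
    refine ⟨2 * (Cs * ((k + 1 : ℕ) : ℝ) ^ 2 + Ci + 4 * Cf * Ca) + 1 / δo ^ 2, by positivity, ?_, ?_⟩
    · have h1 : 1 / δo ^ 2 * δo ^ 2 = 1 := by field_simp
      have h2 : 0 ≤ 2 * (Cs * ((k + 1 : ℕ) : ℝ) ^ 2 + Ci + 4 * Cf * Ca) * δo ^ 2 := by positivity
      rw [add_mul, h1]
      linarith
    · have h1 : 0 < 1 / δo ^ 2 := by positivity
      linarith
  obtain ⟨δ1, hδ1, hδ1A⟩ : ∃ δ1 : ℝ, 0 < δ1 ∧ A * (8 * B * δ1) = 1 / 16 := by
    refine ⟨1 / (128 * A * B), by positivity, ?_⟩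
    field_simp
    norm_num
  obtain ⟨dX, hdX, ε1, hε1, hInv1⟩ := hInv δ1 hδ1
  obtain ⟨δx, hδx, hδxI, hδxo, hδxC⟩ : ∃ δx : ℝ, 0 < δx ∧ δx ≤ dX ∧ δx ≤ δo ∧
      δx ^ 2 * (8 * C10 + 4 * C11 / δ1 + 1) ≤ 1 := by
    have hp : 0 < 8 * C10 + 4 * C11 / δ1 + 1 := by positivity
    have hx0 : 0 < min (min dX δo) (1 / (8 * C10 + 4 * C11 / δ1 + 1)) :=
      lt_min (lt_min hdX hδo) (by positivity)
    refine ⟨min (min dX δo) (1 / (8 * C10 + 4 * C11 / δ1 + 1)), hx0,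
      (min_le_left _ _).trans (min_le_left _ _), (min_le_left _ _).trans (min_le_right _ _), ?_⟩
    have hx1 : min (min dX δo) (1 / (8 * C10 + 4 * C11 / δ1 + 1)) ≤ 1 :=
      (min_le_left _ _).trans ((min_le_right _ _).trans hδo1)
    have hx2 : min (min dX δo) (1 / (8 * C10 + 4 * C11 / δ1 + 1)) ≤
      1 / (8 * C10 + 4 * C11 / δ1 + 1) := min_le_right _ _
    rw [le_div_iff₀ hp] at hx2
    exact m1_b hx0 hx1 hp hx2
  have hδx1 : δx ≤ 1 := hδxo.trans hδo1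
  set b1 : ℝ := 8 * B * δ1 with hb1
  have hb1pos : 0 < b1 := by positivity
  set Kh : ℝ := 4 * Cf / δx ^ 2 with hKh
  have hKhpos : 0 < Kh := by positivity
  obtain ⟨f₀, hf₀, hf₀1, hf₀2⟩ : ∃ f₀ : ℝ, 0 < f₀ ∧ f₀ ≤ ε1 ∧ f₀ ≤ 1 / 2 :=
    ⟨min ε1 (1 / 2), lt_min hε1 (by norm_num), min_le_left _ _, min_le_right _ _⟩
  set l : Fin (k + 1) := Fin.last k with hl
  set Af : St V s → ℝ := fun y => F.a 0 (nR y) / F.a l (nR y) ^ 2 with hAf
  set Hb : ℝ → St V s → ℝ := fun R1 y =>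
    ((A * (F.H1 τ B K3 y + b1) + 1 / δx * F.xs y) + 1 / R1 * F.xi y) + Kh * Af y with hHb
  -- basic facts on `Reg`
  have ho2nn : ∀ z : St V s, 0 ≤ F.o2 (nR z) := fun z => F.o2_nonneg _
  have hfac : ∀ z, F.Reg δx δo z → F.Facts c1 Cf z ∧ F.Facts1 c1 Cf z := fun z hz =>
    hfacts δx δo hδx.le (by linarith) hδo.le (by linarith) z hz
  have hgenH : ∀ R1 z, gen G (Hb R1) z = A * gen G (F.H1 τ B K3) z + 1 / δx * gen G F.xs z +
      1 / R1 * gen G F.xi z + Kh * gen G Af z := by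
    intro R1 z
    have e1 : gen G (Hb R1) z = gen G (fun y => ((A * (F.H1 τ B K3 y + b1) + 1 / δx * F.xs y) +
      1 / R1 * F.xi y) + Kh * Af y) z := rfl
    rw [e1, gen_add (fun y => (A * (F.H1 τ B K3 y + b1) + 1 / δx * F.xs y) + 1 / R1 * F.xi y)
        (fun y => Kh * Af y),
      gen_add (fun y => A * (F.H1 τ B K3 y + b1) + 1 / δx * F.xs y) (fun y => 1 / R1 * F.xi y),
      gen_add (fun y => A * (F.H1 τ B K3 y + b1)) (fun y => 1 / δx * F.xs y),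
      gen_smul A (fun y => F.H1 τ B K3 y + b1), gen_smul (1 / δx) F.xs, gen_smul (1 / R1) F.xi,
      gen_smul Kh Af, gen_add (F.H1 τ B K3) (fun _ => b1), gen_const]
    ring
  -- lower bound for `H1`
  have hH1low : ∀ z : St V s, (∀ j, 0 < F.a j (nR z)) →
      F.env (F.E 0) τ z ≤ 2 * δ1 * F.a l (nR z) ^ 2 →
      F.o2 (nR z) / F.a l (nR z) ^ 2 ≤ F.H1 τ B K3 z + b1 := by
    intro z ha hT
    have hal := ha l
    have h1 : F.env (F.E 0) τ z / F.a l (nR z) ^ 2 ≤ 2 * δ1 := by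
      rw [div_le_iff₀ (by positivity)]
      exact hT
    have e : F.H1 τ B K3 z = F.o2 (nR z) / F.a l (nR z) ^ 2 -
        B * (F.env (F.E 0) τ z / F.a l (nR z) ^ 2) + K3 * (F.a 0 (nR z) / F.a l (nR z) ^ 2) := by
      unfold Flag.H1
      rw [← hl]
      ring
    rw [e]
    have h2 := mul_le_mul_of_nonneg_left h1 hB.le
    have h3 : 0 ≤ K3 * (F.a 0 (nR z) / F.a l (nR z) ^ 2) := by
      have := ha 0
      positivity
    have h4 : 0 < B * δ1 := by positivity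
    have h5 : b1 = 8 * (B * δ1) := by rw [hb1]; ring
    rw [h5]
    linarith
  have hnn : ∀ R1 : ℝ, 1 ≤ R1 → ∀ z : St V s, (∀ j, 0 < F.a j (nR z)) →
      0 ≤ 1 / δx * F.xs z ∧ 0 ≤ 1 / R1 * F.xi z ∧ 0 ≤ Kh * Af z := by
    intro R1 hR1 z ha
    have h0 : 0 < R1 := by linarith
    have h1 := F.xs_nonneg z ha
    have h2 := F.xi_nonneg z ha
    have h3 : 0 ≤ Af z := by
      have := ha 0
      show 0 ≤ F.a 0 (nR z) / F.a l (nR z) ^ 2
      positivity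
    exact ⟨by positivity, by positivity, by positivity⟩
  -- the envelope on the region
  have henv : ∀ R1 : ℝ, ∀ z ∈ RR F f δx δo f₀ R1, F.env (F.E 0) τ z < δ1 * F.a l (nR z) ^ 2 := by
    intro R1 z hz
    by_contra hcon
    rw [not_lt] at hcon
    have h1 := hInv1 z (F.Reg_mono hδx.le hδo.le hδxI hδoI z hz.1) (by
      rw [hE l]
      exact hcon)
    have h2 := hz.2.2
    linarith
  -- the situation after a step
  have hafter : ∀ R1 : ℝ, ∀ z ∈ RR F f δx δo f₀ R1, ∀ w, 1 ≤ z.n w →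
      F.Reg (2 * δx) (2 * δo) (step G z w) ∧
      F.env (F.E 0) τ (step G z w) ≤ 2 * δ1 * F.a l (nR (step G z w)) ^ 2 := by
    intro R1 z hz w hw
    obtain ⟨hreg, haa, -, -, -⟩ := hstep δx δo hδx hδxo ho10 z hz.1 w hw
    refine ⟨hreg, ?_⟩
    exact m1_T hδ1 hδx hC10 hC11 hδo1 hδo ((hlarge δx δo hδx hδxo ho12 z hz.1).1 l) (haa l)
      (henv R1 z hz) (hz.1.2.2.2.2.1 l) (hestep (F.E 0) hEabs δx δo hδx hδxo ho11 z hz.1 w hw) hδxC
  refine ⟨B, hB, K3, hK3, b1, hb1pos, δx, hδx, δo, hδo, f₀, hf₀, hδxo, hδodd, hf₀2, Hb,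
    ?_, ?_, ?_⟩
  · -- inside the region
    intro R1 hR1 z hz
    have hR10 : 0 < R1 := by linarith
    have ha : ∀ j, 0 < F.a j (nR z) := hz.1.2.2.1
    have hal := ha l
    obtain ⟨hF, hF1⟩ := hfac z hz.1
    have hSnn : 0 ≤ F.S z.c (nR z) := hF.S_nonneg
    have htot : 1 ≤ tot z := hz.1.1
    have hl1 := hH1low z ha (by
      have h1 := henv R1 z hz
      have h2 : 0 < δ1 * F.a l (nR z) ^ 2 := by positivity
      linarith)
    have hon : 0 ≤ F.o2 (nR z) / F.a l (nR z) ^ 2 := div_nonneg (ho2nn z) (by positivity)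
    obtain ⟨n1, n2, n3⟩ := hnn R1 hR1 z ha
    have hH1nn : 0 ≤ F.H1 τ B K3 z + b1 := hon.trans hl1
    have hg1 := hH1 δx δo hδx hδxo ho0 z hz.1
    refine ⟨?_, ?_, hH1nn, hg1⟩
    · show 0 ≤ ((A * (F.H1 τ B K3 z + b1) + 1 / δx * F.xs z) + 1 / R1 * F.xi z) + Kh * Af z
      have := mul_nonneg hA.le hH1nn
      linarith
    · rw [hgenH]
      set D : ℝ := (F.S z.c (nR z) + tot z) / F.a l (nR z) ^ 2 with hD
      have hDnn : 0 ≤ D := div_nonneg (by linarith) (by positivity)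
      have g1 : A * gen G (F.H1 τ B K3) z ≤ -(A / 2 * D) := by
        have h1 := mul_le_mul_of_nonneg_left hg1 hA.le
        have h2 : A * -(1 / 2 * (F.S z.c (nR z) + tot z) / F.a (Fin.last k) (nR z) ^ 2) =
            -(A / 2 * D) := by
          rw [hD, ← hl]
          ring
        linarith
      have g2 : 1 / δx * gen G F.xs z ≤ Cs * ((k + 1 : ℕ) : ℝ) ^ 2 * D := by
        have h1 := hxs δx δo hδx hδxo ho5 z hz.1
        have h2 := (F.xs_le δx δo hδx.le z hz.1).2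
        have h3 : Cs * F.xs z * (F.S z.c (nR z) + tot z) / F.a (Fin.last k) (nR z) ^ 2 =
            Cs * F.xs z * D := by
          rw [hD, ← hl]
          ring
        rw [h3] at h1
        have h4 : Cs * F.xs z * D ≤ Cs * (((k + 1 : ℕ) : ℝ) ^ 2 * δx) * D :=
          mul_le_mul_of_nonneg_right (mul_le_mul_of_nonneg_left h2 hCs.le) hDnn
        have h5 := mul_le_mul_of_nonneg_left (h1.trans h4) (by positivity : 0 ≤ 1 / δx)
        have h6 : 1 / δx * (Cs * (((k + 1 : ℕ) : ℝ) ^ 2 * δx) * D) =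
            Cs * ((k + 1 : ℕ) : ℝ) ^ 2 * D := by
          field_simp
        linarith
      have g3 : 1 / R1 * gen G F.xi z ≤ Ci * D := by
        have h1 := hxi δx δo hδx hδxo ho4 z hz.1
        have h2 := hz.2.1
        have h3 : Ci * F.xi z * (F.S z.c (nR z) + tot z) / F.a (Fin.last k) (nR z) ^ 2 =
            Ci * F.xi z * D := by
          rw [hD, ← hl]
          ring
        rw [h3] at h1
        have h4 : Ci * F.xi z * D ≤ Ci * R1 * D :=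
          mul_le_mul_of_nonneg_right (mul_le_mul_of_nonneg_left h2 hCi.le) hDnn
        have h5 := mul_le_mul_of_nonneg_left (h1.trans h4) (by positivity : 0 ≤ 1 / R1)
        have h6 : 1 / R1 * (Ci * R1 * D) = Ci * D := by
          field_simp
        linarith
      have g4 : Kh * gen G Af z ≤ 4 * Cf * Ca * D := by
        have h1 := ha0 δx δo hδx hδxo ho3 z hz.1
        have h2 : 0 ≤ F.E 0 / 2 * (F.a 0 (nR z) / F.a (Fin.last k) (nR z) ^ 2) := by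
          have := ha 0
          positivity
        have h3 : gen G Af z ≤ Ca * δx ^ 2 * F.S z.c (nR z) / F.a (Fin.last k) (nR z) ^ 2 := by
          have h4 : gen G Af z = gen G (fun y => F.a 0 (nR y) / F.a (Fin.last k) (nR y) ^ 2) z := rfl
          rw [h4]
          linarith
        have h4 := mul_le_mul_of_nonneg_left h3 hKhpos.le
        have h5 : Kh * (Ca * δx ^ 2 * F.S z.c (nR z) / F.a (Fin.last k) (nR z) ^ 2) =
            4 * Cf * Ca * (F.S z.c (nR z) / F.a l (nR z) ^ 2) := by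
          rw [hKh, ← hl]
          field_simp
        have h6 : F.S z.c (nR z) / F.a l (nR z) ^ 2 ≤ D := by
          rw [hD]
          apply div_le_div_of_nonneg_right _ (by positivity)
          linarith
        have h7 := mul_le_mul_of_nonneg_left h6 (by positivity : 0 ≤ 4 * Cf * Ca)
        linarith
      have g5 := mul_le_mul_of_nonneg_right hA2 hDnn
      have g6 : (Cs * ((k + 1 : ℕ) : ℝ) ^ 2 + Ci + 4 * Cf * Ca) * D =
          Cs * ((k + 1 : ℕ) : ℝ) ^ 2 * D + Ci * D + 4 * Cf * Ca * D := by ring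
      linarith
  · -- the exits
    intro R1 hR1 z hz w hw hout
    have hR10 : 0 < R1 := by linarith
    obtain ⟨hreg, hTup⟩ := hafter R1 z hz w hw
    set y := step G z w with hy
    have ha : ∀ j, 0 < F.a j (nR y) := hreg.2.2.1
    have hal := ha l
    have hfy := (hfacts (2 * δx) (2 * δo) (by linarith) (by linarith) (by linarith) (by linarith)
      y hreg).2
    have hl1 := hH1low y ha hTup
    have hon : 0 ≤ F.o2 (nR y) / F.a l (nR y) ^ 2 := div_nonneg (ho2nn y) (by positivity)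
    obtain ⟨n1, n2, n3⟩ := hnn R1 hR1 y ha
    have hH1nn : 0 ≤ F.H1 τ B K3 y + b1 := hon.trans hl1
    have hAH1 : A * (F.o2 (nR y) / F.a l (nR y) ^ 2) ≤ A * (F.H1 τ B K3 y + b1) :=
      mul_le_mul_of_nonneg_left hl1 hA.le
    have hA0 : 0 ≤ A * (F.o2 (nR y) / F.a l (nR y) ^ 2) := mul_nonneg hA.le hon
    have hHy : Hb R1 y = ((A * (F.H1 τ B K3 y + b1) + 1 / δx * F.xs y) + 1 / R1 * F.xi y) +
      Kh * Af y := rfl
    refine ⟨?_, ?_, hH1nn⟩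
    · rw [hHy]
      linarith
    · by_cases hfy0 : f₀ ≤ f y
      · exact Or.inl hfy0
      right
      rw [not_le] at hfy0
      by_cases hxiy : F.xi y ≤ R1
      swap
      · rw [not_le] at hxiy
        have h1 : 1 ≤ 1 / R1 * F.xi y := by
          rw [one_div, ← div_eq_inv_mul, le_div_iff₀ hR10, one_mul]
          exact hxiy.le
        rw [hHy]
        linarith
      by_cases hr : ∀ i j, i < j → F.a j (nR y) ≤ δx * F.a i (nR y)
      swap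
      · push Not at hr
        obtain ⟨i, j, hij, hv⟩ := hr
        have h7 := F.xs_gt δx y ha i j hij hv
        have h8 : 1 ≤ 1 / δx * F.xs y := by
          rw [one_div, ← div_eq_inv_mul, le_div_iff₀ hδx, one_mul]
          exact h7.le
        rw [hHy]
        linarith
      by_cases hr2 : ∀ j, F.o2 (nR y) ≤ δo ^ 2 * F.a j (nR y) ^ 2
      swap
      · push Not at hr2
        obtain ⟨j, hj⟩ := hr2
        have hlj := hfy.last_le j
        have h7 : δo ^ 2 ≤ F.o2 (nR y) / F.a l (nR y) ^ 2 := by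
          rw [le_div_iff₀ (by positivity)]
          have h8 : F.a l (nR y) ^ 2 ≤ F.a j (nR y) ^ 2 := pow_le_pow_left₀ hal.le hlj 2
          have h9 := mul_le_mul_of_nonneg_left h8 (by positivity : (0 : ℝ) ≤ δo ^ 2)
          linarith
        have h8 := mul_le_mul_of_nonneg_left h7 hA.le
        rw [hHy]
        linarith
      by_cases hr3 : ∀ j, tot y ≤ δx ^ 2 * F.a j (nR y) ^ 2
      swap
      · push Not at hr3
        obtain ⟨j, hj⟩ := hr3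
        have hlj := hfy.last_le j
        have h8 : F.a l (nR y) ^ 2 ≤ F.a j (nR y) ^ 2 := pow_le_pow_left₀ hal.le hlj 2
        have h9 := mul_le_mul_of_nonneg_left h8 (by positivity : (0 : ℝ) ≤ δx ^ 2)
        have h10 : δx ^ 2 * F.a l (nR y) ^ 2 ≤ Cf * F.a 0 (nR y) := by
          have := hfy.tot_le
          linarith
        have h11 : 1 ≤ Kh * Af y := by
          show 1 ≤ Kh * (F.a 0 (nR y) / F.a l (nR y) ^ 2)
          rw [hKh, ← mul_div_assoc, le_div_iff₀ (by positivity), one_mul, div_mul_eq_mul_div,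
            le_div_iff₀ (by positivity)]
          have h12 : 0 < F.a l (nR y) ^ 2 * δx ^ 2 := by positivity
          linarith
        rw [hHy]
        linarith
      exact absurd ⟨⟨hreg.1, hreg.2.1, ha, hr, hr2, hr3⟩, hxiy, hfy0⟩ hout
  · -- the starting point
    have hkp : (0 : ℝ) < ((k + 1 : ℕ) : ℝ) := by positivity
    obtain ⟨δ, hδ, hδδx, hδ1', hδs, hδq⟩ : ∃ δ : ℝ, 0 < δ ∧ δ ≤ δx ∧ δ ≤ d2 ∧
        ((k + 1 : ℕ) : ℝ) ^ 2 * δ ≤ 1 / 16 * δx ∧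
        (A * ((1 + B / τ) + K3) + Kh) * δ ^ 2 ≤ 1 / 16 := by
      have hq : 0 < A * ((1 + B / τ) + K3) + Kh := by positivity
      have hm : ∃ x : ℝ, 0 < x ∧ ∀ y ∈ ([δx, d2, δx / (16 * ((k + 1 : ℕ) : ℝ) ^ 2),
          1 / (16 * (A * ((1 + B / τ) + K3) + Kh))] : List ℝ), x ≤ y := by
        have hall : ∀ y ∈ ([δx, d2, δx / (16 * ((k + 1 : ℕ) : ℝ) ^ 2),
          1 / (16 * (A * ((1 + B / τ) + K3) + Kh))] : List ℝ), 0 < y := by
          intro y hy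
          simp only [List.mem_cons, List.not_mem_nil, or_false] at hy
          rcases hy with h | h | h | h <;> rw [h] <;> positivity
        exact m1_min _ hall
      obtain ⟨x, hx, hxy⟩ := hm
      simp only [List.mem_cons, List.not_mem_nil, or_false, forall_eq_or_imp, forall_eq] at hxy
      obtain ⟨h1, h2, h3, h4⟩ := hxy
      have hx1 : x ≤ 1 := h1.trans hδx1
      have hxx : x ^ 2 ≤ x := m1_d hx hx1
      rw [le_div_iff₀ (by positivity)] at h3 h4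
      refine ⟨x, hx, h1, h2, by linarith, ?_⟩
      have h5 := mul_le_mul_of_nonneg_left hxx hq.le
      linarith
    obtain ⟨z0, hz0, hfz0⟩ := hR δ hδ (f₀ / 8) (by positivity)
    refine ⟨z0, F.Reg_mono hδ.le hδ.le hδδx (hδδx.trans hδxo) z0 hz0, hfz0, ?_⟩
    intro R1 hR1 hR1'
    have hR10 : 0 < R1 := by linarith
    have ha : ∀ j, 0 < F.a j (nR z0) := hz0.2.2.1
    have hal := ha l
    have hal2 : 0 < F.a l (nR z0) ^ 2 := by positivity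
    have hfz := (hfacts δ δ hδ.le (by linarith) hδ.le (by linarith) z0 hz0).2
    have hb := (hbounds δ δ hδ.le hδ1' hδ.le hδ1' z0 hz0).1 (F.E 0) hEabs
    have ho : F.o2 (nR z0) / F.a l (nR z0) ^ 2 ≤ δ ^ 2 := by
      rw [div_le_iff₀ hal2]
      exact hz0.2.2.2.2.1 l
    have ha0l : Af z0 ≤ δ ^ 2 := by
      show F.a 0 (nR z0) / F.a l (nR z0) ^ 2 ≤ δ ^ 2
      rw [div_le_iff₀ hal2]
      exact hfz.zero_le_tot.trans (hz0.2.2.2.2.2 l)
    have he : -(F.env (F.E 0) τ z0 / F.a l (nR z0) ^ 2) ≤ δ ^ 2 / τ := by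
      have h1 : -(F.env (F.E 0) τ z0) ≤ F.o2 (nR z0) / τ := by
        have h2 : -(F.o2 (nR z0)) / τ = -(F.o2 (nR z0) / τ) := by ring
        linarith
      rw [← neg_div]
      calc -(F.env (F.E 0) τ z0) / F.a l (nR z0) ^ 2 ≤ (F.o2 (nR z0) / τ) / F.a l (nR z0) ^ 2 :=
            div_le_div_of_nonneg_right h1 hal2.le
        _ = (F.o2 (nR z0) / F.a l (nR z0) ^ 2) / τ := by ring
        _ ≤ δ ^ 2 / τ := div_le_div_of_nonneg_right ho hτ.le
    have hH1z : F.H1 τ B K3 z0 ≤ ((1 + B / τ) + K3) * δ ^ 2 := by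
      have e : F.H1 τ B K3 z0 = F.o2 (nR z0) / F.a l (nR z0) ^ 2 +
          B * -(F.env (F.E 0) τ z0 / F.a l (nR z0) ^ 2) + K3 * Af z0 := by
        show (F.o2 (nR z0) - B * F.env (F.E 0) τ z0) / F.a l (nR z0) ^ 2 +
          K3 * (F.a 0 (nR z0) / F.a l (nR z0) ^ 2) = F.o2 (nR z0) / F.a l (nR z0) ^ 2 +
          B * -(F.env (F.E 0) τ z0 / F.a l (nR z0) ^ 2) + K3 * (F.a 0 (nR z0) / F.a l (nR z0) ^ 2)
        ring
      rw [e]
      have h1 := mul_le_mul_of_nonneg_left he hB.le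
      have h2 := mul_le_mul_of_nonneg_left ha0l hK3.le
      have h3 : ((1 + B / τ) + K3) * δ ^ 2 = δ ^ 2 + B * (δ ^ 2 / τ) + K3 * δ ^ 2 := by ring
      linarith
    have t1 : A * (F.H1 τ B K3 z0 + b1) ≤ A * (((1 + B / τ) + K3) * δ ^ 2) + 1 / 16 := by
      have h1 := mul_le_mul_of_nonneg_left hH1z hA.le
      rw [mul_add, hδ1A]
      linarith
    have t2 : 1 / δx * F.xs z0 ≤ 1 / 16 := by
      have h1 := (F.xs_le δ δ hδ.le z0 hz0).2
      rw [one_div, ← div_eq_inv_mul, div_le_iff₀ hδx]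
      linarith
    have t3 : 1 / R1 * F.xi z0 ≤ 1 / 16 := by
      rw [one_div, ← div_eq_inv_mul, div_le_iff₀ hR10]
      linarith
    have t4 : Kh * Af z0 ≤ Kh * δ ^ 2 := mul_le_mul_of_nonneg_left ha0l hKhpos.le
    show ((A * (F.H1 τ B K3 z0 + b1) + 1 / δx * F.xs z0) + 1 / R1 * F.xi z0) + Kh * Af z0 ≤ 1 / 4
    have h6 : (A * ((1 + B / τ) + K3) + Kh) * δ ^ 2 =
      A * (((1 + B / τ) + K3) * δ ^ 2) + Kh * δ ^ 2 := by ring
    linarith

end UC
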