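import Pool.Agent.helper25.UC.R5
import Pool.Agent.helper25.UC.R6

/-!
# R6B : bad, nearly critical states at a fixed distance of a flag with equal rates

`F` has length `k+1`, all `E_j = E := E_0 > 0`, `Reach`, `Inv`; `l = last`, `n0 = card V`; `C6, c`: the
constants of `reg_facts1`.
Claim: there is `c' > 0` such that for all `ε', η > 0` there is a state `z` with `f z < ε'`, colour `F.σ`
and `n_v ≥ c' tot z` on `F.I`, and a maximiser `(c,y)` of the empty flag envelope at the rate `E` with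
`dsq ≤ η qq z`.

`region_H` with `dd` = min of the `δ0`'s of `reg_facts1` (halved, so that it also applies to
`Reg (2δx)(2δo)`), `T_drift`, `reg_step`, `reg_large`, `env_bounds` (for `F0`).  `z0` from its last part,
`R1 := 16 (xi z0 + 1)`, `H := Hb R1`, `R := RR F f δx δo f₀ R1`, `Ψ := 1 - H - f/f₀`.  Then
`z0 ∈ R`, `Ψ z0 ≥ 1 - 1/4 - 1/8`, `gen Ψ ≥ 0` (`gen f = 0`), `Ψ ≤ 1` on `R`, `Ψ ≤ 0` at exits
(`f ≥ 0`).  `R ⊆ TwoCol`: otherwise `f = 1` (`mono`).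
`R' := 1 + R1` bounds `a_0/a_l` on `R` (`xi_zero`).  `Cx` the constant of `T_drift`,
`K6 := 4 Cx R'²`, `T := env` of `F0` at `E`, `U := K5 - T/a_l² + K6 (H1 + b1)`.
`K5 := 16 (n0+1) C6² (4R')²`: `T ≤ 16(n0+1) qq`, `qq ≤ tot² ≤ C6² a_0²`, `a_0 ≤ R' a_l` on `R`; at an
exit `z'`: `a_0(z') ≤ 2a_0(z) ≤ 2R' a_l(z) ≤ 4R' a_l(z')` (`reg_step`).  So `U ≥ 0` on `R` and at the
exits.  `T_drift` and the drift of `H1`: `gen U ≤ -dsq/(2τ² a_l²) ≤ 0` for any maximiser `(c,y)` of `F0`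
(exists: `exists_mx`).
Given `ε', η`, suppose the claim fails with `c' := c/(C6 R')` (`Facts1.low`: on `R`
`n_v ≥ c a_l ≥ (c/R') a_0 ≥ c/(C6R') tot` on `I`).  Then for `z ∈ R` with `f z < ε'` every maximiser for
`F0` has `dsq > η qq ≥ η a_l²` (`a_sq_le`: `a_l² ≤ qq`), so
`gen U ≤ -η/(2τ²) =: -c1`.  `abs_main` gives a contradiction.  (`c'` does not depend on `ε', η`.)
-/

namespace UC
open Finset
variable {V : Type} [Fintype V] [DecidableEq V] {s k : ℕ}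
variable {G : SimpleGraph V} [DecidableRel G.Adj]

/-- the generator of `1 - H - f/f₀` -/
private theorem r6b_gen_psi (H f : St V s → ℝ) (f₀ : ℝ) (z : St V s) :
    gen G (fun y => 1 - H y - f y / f₀) z = -(gen G H z) - gen G f z / f₀ := by
  unfold gen
  rw [← Finset.sum_neg_distrib, Finset.sum_div, ← Finset.sum_sub_distrib]
  refine Finset.sum_congr rfl fun w _ => ?_
  ring

/-- the generator of `K + T + K6 (H + b)` -/
private theorem r6b_gen_U (T H : St V s → ℝ) (K K6 b : ℝ) (z : St V s) :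
    gen G (fun y => K + T y + K6 * (H y + b)) z = gen G T z + K6 * gen G H z := by
  unfold gen
  rw [Finset.mul_sum, ← Finset.sum_add_distrib]
  refine Finset.sum_congr rfl fun w _ => ?_
  ring

/-- the upper bound for the empty flag envelope -/
private theorem r6b_env0 (F0 : Flag G s 0) (τ : ℝ) (hτ : 0 < τ) (hτ0 : τ ≤ tau0 V) (E : ℝ)
    (hE : |E| ≤ cV V + 2) (z : St V s) (hz : 1 ≤ tot z) :
    F0.env E τ z ≤ 16 * (cV V + 1) * tot z ^ 2 := by
  obtain ⟨δ0, hδ0, h⟩ := F0.env_bounds τ hτ hτ0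
  have hreg : F0.Reg 0 0 z :=
    ⟨hz, fun v hv => (F0.b6_I_zero v hv).elim, fun j => j.elim0, fun i => i.elim0,
      fun j => j.elim0, fun j => j.elim0⟩
  have h1 := (h 0 0 le_rfl hδ0.le le_rfl hδ0.le z hreg).2.1 E hE
  have h2 : F0.o2 (nR z) ≤ tot z ^ 2 := (F0.o2_le (nR z)).trans (qq_le_tot_sq z)
  have h3 : 0 ≤ 16 * (cV V + 1) := by
    have : 0 ≤ cV V := Nat.cast_nonneg _
    positivity
  exact h1.trans (mul_le_mul_of_nonneg_left h2 h3)

theorem near_crit_on {f : St V s → ℝ} (hf : BadF G f) (hL : Levy G f) (F : Flag G s (k + 1))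
    (F0 : Flag G s 0) (τ : ℝ) (hτ : 0 < τ) (hτ0 : τ ≤ tau0 V) (hE : ∀ j, F.E j = F.E 0)
    (hpos : 0 < F.E 0) (hR : Reach F f) (hI : Inv F τ f) :
    ∃ c' > 0, ∀ ε' > 0, ∀ η > 0, ∃ z : St V s, 1 ≤ tot z ∧ f z < ε' ∧
      (∀ v ∈ F.I, z.c v = F.σ v ∧ c' * tot z ≤ (z.n v : ℝ)) ∧
      ∃ c y, F0.IsMx (F.E 0) τ z c y ∧ dsq z.c (nR z) c y ≤ η * qq z := by
  obtain ⟨δf, hδf, c, hc, C6, hC6, hfacts⟩ := F.reg_facts1
  obtain ⟨δt, hδt, Cx, hCx, hT⟩ := F.T_drift F0 τ hτ hτ0 hE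
  obtain ⟨δs, hδs, Cs, hCs, hstep⟩ := F.reg_step
  obtain ⟨B, hB, K3, hK3, b1, hb1, δx, hδx, δo, hδo, f₀, hf₀, hxo, hodd, hf₀2, Hb, hH, hHe, z0,
    hz0, hfz0, hHz0⟩ := region_H hf F τ hτ hτ0 hE hpos hR hI (min (δf / 2) (min δt δs))
      (by positivity)
  have ho1 : δo ≤ δf / 2 := hodd.trans (min_le_left _ _)
  have ho2 : δo ≤ δt := hodd.trans ((min_le_right _ _).trans (min_le_left _ _))
  have ho3 : δo ≤ δs := hodd.trans ((min_le_right _ _).trans (min_le_right _ _))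
  have hn0 : 0 ≤ cV V := Nat.cast_nonneg _
  have hEabs : |F.E 0| ≤ cV V + 2 := by
    rw [abs_of_pos hpos]
    linarith [F.E_le 0]
  -- constants
  have hxi0 : 0 ≤ F.xi z0 := F.xi_nonneg z0 hz0.2.2.1
  obtain ⟨R1, hR1⟩ : ∃ R1 : ℝ, R1 = 16 * (F.xi z0 + 1) := ⟨_, rfl⟩
  have hR1' : 1 ≤ R1 := by rw [hR1]; linarith
  obtain ⟨R', hR'⟩ : ∃ R' : ℝ, R' = 1 + R1 := ⟨_, rfl⟩
  have hR'1 : 1 ≤ R' := by linarith
  have hR'0 : 0 < R' := by linarith
  obtain ⟨K5, hK5⟩ : ∃ K5 : ℝ, K5 = 16 * (cV V + 1) * (C6 * (4 * R')) ^ 2 := ⟨_, rfl⟩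
  obtain ⟨K6, hK6⟩ : ∃ K6 : ℝ, K6 = 4 * Cx * R' ^ 2 := ⟨_, rfl⟩
  have hK6p : 0 < K6 := by rw [hK6]; positivity
  -- facts on the region
  have hfac : ∀ z ∈ RR F f δx δo f₀ R1, F.Facts c C6 z ∧ F.Facts1 c C6 z := fun z hz =>
    hfacts δx δo hδx.le (by linarith) hδo.le (by linarith) z hz.1
  have hfac2 : ∀ z, F.Reg (2 * δx) (2 * δo) z → F.Facts c C6 z ∧ F.Facts1 c C6 z := fun z hz =>
    hfacts (2 * δx) (2 * δo) (by positivity) (by linarith) (by positivity) (by linarith) z hz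
  have ha0 : ∀ z ∈ RR F f δx δo f₀ R1, F.a 0 (nR z) ≤ R' * F.a (Fin.last k) (nR z) := by
    intro z hz
    have h1 := F.xi_zero z hz.1.2.2.1
    have h2 := hz.1.2.2.1 (Fin.last k)
    have h3 : (1 + F.xi z) * F.a (Fin.last k) (nR z) ≤ R' * F.a (Fin.last k) (nR z) :=
      mul_le_mul_of_nonneg_right (by rw [hR']; linarith [hz.2.1]) h2.le
    exact h1.trans h3
  have hTbound : ∀ z, 1 ≤ tot z → 0 < F.a (Fin.last k) (nR z) → tot z ≤ C6 * F.a 0 (nR z) →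
      F.a 0 (nR z) ≤ 4 * R' * F.a (Fin.last k) (nR z) →
      0 ≤ K5 + -(F0.env (F.E 0) τ z) / F.a (Fin.last k) (nR z) ^ 2 := by
    intro z h1 hal h2 h3
    have h4 := r6b_env0 F0 τ hτ hτ0 (F.E 0) hEabs z h1
    have h5 : tot z ≤ C6 * (4 * R') * F.a (Fin.last k) (nR z) := by
      calc tot z ≤ C6 * F.a 0 (nR z) := h2
        _ ≤ C6 * (4 * R' * F.a (Fin.last k) (nR z)) := mul_le_mul_of_nonneg_left h3 hC6.le
        _ = _ := by ring
    have h6 : tot z ^ 2 ≤ (C6 * (4 * R')) ^ 2 * F.a (Fin.last k) (nR z) ^ 2 := by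
      rw [← mul_pow]
      exact pow_le_pow_left₀ (by linarith) h5 2
    have h7 : F0.env (F.E 0) τ z ≤ K5 * F.a (Fin.last k) (nR z) ^ 2 := by
      rw [hK5]
      calc F0.env (F.E 0) τ z ≤ 16 * (cV V + 1) * tot z ^ 2 := h4
        _ ≤ 16 * (cV V + 1) * ((C6 * (4 * R')) ^ 2 * F.a (Fin.last k) (nR z) ^ 2) :=
          mul_le_mul_of_nonneg_left h6 (by positivity)
        _ = _ := by ring
    have h8 : F0.env (F.E 0) τ z / F.a (Fin.last k) (nR z) ^ 2 ≤ K5 := by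
      rw [div_le_iff₀ (by positivity)]
      exact h7
    rw [neg_div]
    linarith
  -- drift of `U`
  have hgU : ∀ z ∈ RR F f δx δo f₀ R1, ∀ c1 y, F0.IsMx (F.E 0) τ z c1 y →
      gen G (fun y => K5 + -(F0.env (F.E 0) τ y) / F.a (Fin.last k) (nR y) ^ 2 +
        K6 * (F.H1 τ B K3 y + b1)) z ≤
        -(dsq z.c (nR z) c1 y / (2 * τ ^ 2 * F.a (Fin.last k) (nR z) ^ 2)) := by
    intro z hz c1 y hmx
    rw [r6b_gen_U (fun y => -(F0.env (F.E 0) τ y) / F.a (Fin.last k) (nR y) ^ 2) (F.H1 τ B K3)]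
    have h1 := hT δx δo hδx hxo ho2 R' hR'1 z hz.1 (ha0 z hz) c1 y hmx
    have h2 := ((hH R1 hR1' z hz).2.2.2)
    have h3 := (hfac z hz).1.S_nonneg
    have h4 : 0 ≤ tot z := tot_nonneg z
    have hal : 0 < F.a (Fin.last k) (nR z) := hz.1.2.2.1 _
    have h5 : K6 * gen G (F.H1 τ B K3) z ≤
        K6 * -(1 / 2 * (F.S z.c (nR z) + tot z) / F.a (Fin.last k) (nR z) ^ 2) :=
      mul_le_mul_of_nonneg_left h2 hK6p.le
    have h6 : 0 ≤ (F.S z.c (nR z) + tot z) / F.a (Fin.last k) (nR z) ^ 2 := by positivity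
    have h7 : K6 * -(1 / 2 * (F.S z.c (nR z) + tot z) / F.a (Fin.last k) (nR z) ^ 2) =
        -(2 * (Cx * R' ^ 2) * ((F.S z.c (nR z) + tot z) / F.a (Fin.last k) (nR z) ^ 2)) := by
      rw [hK6]; ring
    have h8 : Cx * R' ^ 2 * (F.S z.c (nR z) + tot z) / F.a (Fin.last k) (nR z) ^ 2 =
        Cx * R' ^ 2 * ((F.S z.c (nR z) + tot z) / F.a (Fin.last k) (nR z) ^ 2) := by ring
    have h9 : 0 ≤ Cx * R' ^ 2 * ((F.S z.c (nR z) + tot z) / F.a (Fin.last k) (nR z) ^ 2) := by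
      positivity
    rw [h8] at h1
    linarith
  refine ⟨c / (C6 * R'), by positivity, fun ε' hε' η hη => ?_⟩
  by_contra hno
  push Not at hno
  have hz0R : z0 ∈ RR F f δx δo f₀ R1 :=
    ⟨hz0, by rw [hR1]; linarith, by linarith⟩
  refine abs_main (G := G) f (fun z => 1 - Hb R1 z - f z / f₀)
    (fun y => K5 + -(F0.env (F.E 0) τ y) / F.a (Fin.last k) (nR y) ^ 2 +
        K6 * (F.H1 τ B K3 y + b1)) (RR F f δx δo f₀ R1) ε' (η / (2 * τ ^ 2)) hε' (by positivity)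
    ?_ hf.nonneg hL ?_ ?_ ?_ ?_ ?_ ?_ ?_ z0 hz0R ?_
  · intro z hz
    refine ⟨hz.1.1, ?_⟩
    by_contra h2
    have h3 : f z = 1 := hf.mono z hz.1.1 (fun u v hu hv => by
      by_contra h4
      exact h2 ⟨u, v, hu, hv, h4⟩)
    have := hz.2.2
    rw [h3] at this
    linarith
  · intro z hz
    have h1 := (hH R1 hR1' z hz).1
    have h2 : 0 ≤ f z / f₀ := div_nonneg (hf.nonneg z) hf₀.le
    linarith
  · intro z hz
    rw [r6b_gen_psi, hf.harm z]
    have h1 := (hH R1 hR1' z hz).2.1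
    simp only [zero_div, sub_zero]
    linarith
  · intro z hz w hw hex
    obtain ⟨h1, h2, h3⟩ := hHe R1 hR1' z hz w hw hex
    rcases h2 with h2 | h2
    · have : 1 ≤ f (step G z w) / f₀ := by
        rw [le_div_iff₀ hf₀]
        linarith
      linarith
    · have : 0 ≤ f (step G z w) / f₀ := div_nonneg (hf.nonneg _) hf₀.le
      linarith
  · intro z hz
    have h1 := (hH R1 hR1' z hz).2.2.1
    have hal : 0 < F.a (Fin.last k) (nR z) := hz.1.2.2.1 _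
    have h2 := hTbound z hz.1.1 hal (hfac z hz).2.tot_le (by
      have := ha0 z hz
      have h5 : 0 < R' * F.a (Fin.last k) (nR z) := by positivity
      linarith)
    have h3 : 0 ≤ K6 * (F.H1 τ B K3 z + b1) := mul_nonneg hK6p.le h1
    linarith
  · intro z hz w hw hex
    have h1 := (hHe R1 hR1' z hz w hw hex).2.2
    obtain ⟨hreg, -, -, h4, h5⟩ := hstep δx δo hδx hxo ho3 z hz.1 w hw
    have hal' : 0 < F.a (Fin.last k) (nR (step G z w)) := hreg.2.2.1 _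
    have h6 := ha0 z hz
    have h7 := h4 (Fin.last k)
    have h8 := h5 0
    have h2 := hTbound (step G z w) hreg.1 hal' (hfac2 _ hreg).2.tot_le (by
      have h9 : R' * F.a (Fin.last k) (nR z) ≤ R' * (2 * F.a (Fin.last k) (nR (step G z w))) :=
        mul_le_mul_of_nonneg_left h7 hR'0.le
      linarith)
    have h3 : 0 ≤ K6 * (F.H1 τ B K3 (step G z w) + b1) := mul_nonneg hK6p.le h1
    linarith
  · intro z hz
    obtain ⟨c1, y, hmx⟩ := F0.exists_mx (F.E 0) τ hEabs hτ hτ0 z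
    have h1 := hgU z hz c1 y hmx
    have hal : 0 < F.a (Fin.last k) (nR z) := hz.1.2.2.1 _
    have h2 : 0 ≤ dsq z.c (nR z) c1 y / (2 * τ ^ 2 * F.a (Fin.last k) (nR z) ^ 2) :=
      div_nonneg (dsq_nonneg _ _ _ _) (by positivity)
    linarith
  · intro z hz hfz
    obtain ⟨c1, y, hmx⟩ := F0.exists_mx (F.E 0) τ hEabs hτ hτ0 z
    have h1 := hgU z hz c1 y hmx
    have hal : 0 < F.a (Fin.last k) (nR z) := hz.1.2.2.1 _
    have h2 := hno z hz.1.1 hfz (fun v hv => ⟨(hz.1.2.1 v hv).1, by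
      have h3 := (hfac z hz).2.low v hv
      have h4 := (hfac z hz).2.tot_le
      have h5 := ha0 z hz
      have h6 : tot z ≤ C6 * R' * F.a (Fin.last k) (nR z) := by
        calc tot z ≤ C6 * F.a 0 (nR z) := h4
          _ ≤ C6 * (R' * F.a (Fin.last k) (nR z)) := mul_le_mul_of_nonneg_left h5 hC6.le
          _ = _ := by ring
      calc c / (C6 * R') * tot z ≤ c / (C6 * R') * (C6 * R' * F.a (Fin.last k) (nR z)) :=
            mul_le_mul_of_nonneg_left h6 (by positivity)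
        _ = c * F.a (Fin.last k) (nR z) := by field_simp
        _ ≤ (z.n v : ℝ) := h3⟩) c1 y hmx
    have h3 : F.a (Fin.last k) (nR z) ^ 2 ≤ qq z := F.a_sq_le _ _
    have h4 : η * F.a (Fin.last k) (nR z) ^ 2 ≤ dsq z.c (nR z) c1 y :=
      (mul_le_mul_of_nonneg_left h3 hη.le).trans h2.le
    have h5 : η / (2 * τ ^ 2) ≤
        dsq z.c (nR z) c1 y / (2 * τ ^ 2 * F.a (Fin.last k) (nR z) ^ 2) := by
      rw [le_div_iff₀ (by positivity)]
      calc η / (2 * τ ^ 2) * (2 * τ ^ 2 * F.a (Fin.last k) (nR z) ^ 2) =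
            η * F.a (Fin.last k) (nR z) ^ 2 := by field_simp
        _ ≤ _ := h4
    linarith
  · have h1 := hHz0 R1 hR1' (by rw [hR1])
    have h2 : f z0 / f₀ ≤ 1 / 8 := by
      rw [div_le_iff₀ hf₀]
      linarith
    linarith

end UC
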