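import Pool.Agent.helper25.UC.R6B
import Pool.Agent.helper25.UC.N0
import Pool.Agent.helper25.UC.I1
import Pool.Agent.helper25.UC.L4

/-!
# R7 : upgrade to a flag of length one

(author: helper75; architect: helper25)

`F` as in R6, `F0` any flag of length `0`.  Let `c'` be as in `near_crit_on` and
`f' z := if (∀ v ∈ F.I, z.c v = F.σ v ∧ c' tot z ≤ n_v) then f z else 1`.
`NearCrit F0 τ f' E` (see N1 for the definition; `o2 = qq` for `F0`, `Reg` of `F0` is `1 ≤ tot`):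
given `δ, ε, K, η`, take `z` from `near_crit_on` with `η` and `ε' ≤ ε, 1` so small that `f z < ε'`
implies `K tot z ≤ qq z`: if `qq z < K tot z` then `tot² ≤ n0 qq` gives `tot ≤ n0 K`, `qq ≤ n0 K²`, and
`f z ≥ c(n0K²)` by `BadF.pos`.  (`E2 = E`.)
`exists_flag F0` (X4; there is no hypothesis on `f` there) for `f'`: a flag `F'` of length `1` with
`F'.E = E`, `Reach F' f'`.  `Reach F' f`: `f' z < min ε 1` implies `f z = f' z < ε`.
`F.I ⊆ F'.I`: take a state `z ∈ Reg_{F'} δ δ`, `f' z < 1`, `δ` small.  If `v ∈ F.I`, `v ∉ F'.I` then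
`c' tot ≤ n_v = rho_v ≤ √o2 ≤ δ a_0 ≤ δ tot`: contradiction for `δ < c'` (`rho_off`, `rho_sq_le`;
`a_0 ≤ √qq ≤ tot`: `a_sq_le`, `qq_le_tot_sq`).
-/

namespace UC
open Finset
variable {V : Type} [Fintype V] [DecidableEq V] {s k : ℕ}
variable {G : SimpleGraph V} [DecidableRel G.Adj]

theorem upgrade {f : St V s → ℝ} (hf : BadF G f) (hL : Levy G f) (F : Flag G s (k + 1))
    (τ : ℝ) (hτ : 0 < τ) (hτ0 : τ ≤ tau0 V) (hE : ∀ j, F.E j = F.E 0)
    (hpos : 0 < F.E 0) (hR : Reach F f) (hI : Inv F τ f) :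
    ∃ F' : Flag G s 1, F'.E 0 = F.E 0 ∧ Reach F' f ∧ F.I ⊆ F'.I := by
  classical
  obtain ⟨z0, -, -⟩ := hf.bad 1 one_pos
  let F0 : Flag G s 0 := emptyFlag G z0.c
  obtain ⟨c', hc', H⟩ := near_crit_on hf hL F F0 τ hτ hτ0 hE hpos hR hI
  have hcV : 0 ≤ cV V := by unfold cV; positivity
  let f' : St V s → ℝ := fun z =>
    if (∀ v ∈ F.I, z.c v = F.σ v ∧ c' * tot z ≤ (z.n v : ℝ)) then f z else 1
  have hNC : NearCrit F0 τ f' (F.E 0) := by
    intro δ hδ ε hε K hK η hη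
    obtain ⟨c, hc, hposQ⟩ := hf.pos (cV V * K ^ 2)
    obtain ⟨z, hz1, hz2, hz3, cc, y, hmx, hd⟩ := H (min ε c) (lt_min hε hc) η hη
    refine ⟨F.E 0, by linarith, le_rfl, by linarith, z, N0_reg F0 δ δ z hz1, ?_, ?_, cc, y, hmx, ?_⟩
    · have : f' z = f z := if_pos hz3
      rw [this]
      exact lt_of_lt_of_le hz2 (min_le_left _ _)
    · rw [N0_o2]
      by_contra hcon
      push Not at hcon
      have h1 := tot_sq_le z
      have h2 : tot z * tot z ≤ (cV V * K) * tot z := by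
        have : cV V * qq z ≤ cV V * (K * tot z) := mul_le_mul_of_nonneg_left hcon.le hcV
        nlinarith
      have h3 : tot z ≤ cV V * K := le_of_mul_le_mul_right h2 (by linarith)
      have h4 : qq z ≤ cV V * K ^ 2 := by
        have : K * tot z ≤ K * (cV V * K) := mul_le_mul_of_nonneg_left h3 hK.le
        nlinarith
      have h5 := hposQ z hz1 h4
      have h6 := lt_of_lt_of_le hz2 (min_le_right ε c)
      linarith
    · rw [N0_o2]
      exact hd
  obtain ⟨F', -, hE', hR'⟩ := exists_flag F0 τ hτ hτ0 (F.E 0) hpos.le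
    ((F.E_le 0).trans (by linarith)) (fun j => j.elim0) (fun j => j.elim0) hNC
  have key : ∀ z, f' z < 1 → (∀ v ∈ F.I, z.c v = F.σ v ∧ c' * tot z ≤ (z.n v : ℝ)) := by
    intro z hz
    by_contra hcon
    have : f' z = 1 := if_neg hcon
    linarith
  refine ⟨F', hE', ?_, ?_⟩
  · intro δ hδ ε hε
    obtain ⟨z, hz1, hz2⟩ := hR' δ hδ (min ε 1) (lt_min hε one_pos)
    refine ⟨z, hz1, ?_⟩
    have h1 := key z (lt_of_lt_of_le hz2 (min_le_right _ _))
    have h2 : f' z = f z := if_pos h1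
    rw [← h2]
    exact lt_of_lt_of_le hz2 (min_le_left _ _)
  · intro v hv
    by_contra hv'
    obtain ⟨z, hz1, hz2⟩ := hR' (c' / 2) (by positivity) 1 one_pos
    have h1 := (key z hz2 v hv).2
    obtain ⟨g1, -, -, -, g5, -⟩ := hz1
    have h2 := F'.rho_off (nR z) v hv'
    have h3 := F'.rho_sq_le (nR z) v
    rw [h2] at h3
    have h4 := g5 0
    have h5 := F'.a_sq_le 0 (nR z)
    have h6 : ∑ u, nR z u ^ 2 ≤ tot z ^ 2 := qq_le_tot_sq z
    have h7 : nR z v = (z.n v : ℝ) := rfl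
    rw [h7] at h3
    have h8 : (c' * tot z) ^ 2 ≤ (z.n v : ℝ) ^ 2 :=
      pow_le_pow_left₀ (mul_nonneg hc'.le (by linarith)) h1 2
    have h9 : (c' / 2) ^ 2 * F'.a 0 (nR z) ^ 2 ≤ (c' / 2) ^ 2 * tot z ^ 2 :=
      mul_le_mul_of_nonneg_left (h5.trans h6) (sq_nonneg _)
    have h10 : (c' * tot z) ^ 2 ≤ (c' / 2) ^ 2 * tot z ^ 2 := by linarith
    have h11 : 0 < c' ^ 2 * tot z ^ 2 := by positivity
    nlinarith

end UC
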