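import Pool.Agent.helper25.UC.Z7C

/-!
# Z8B : bounds for `HH`.  See the comment of Z8 (HH bounds).
-/

namespace UC
open Finset
variable {V : Type} [Fintype V] [DecidableEq V] {s k : ℕ}
variable {G : SimpleGraph V} [DecidableRel G.Adj]

theorem Z8B_tau (τ : ℝ) (hτ : 0 < τ) (hτ0 : τ ≤ tau0 V) : 128 * (τ * cV V) ≤ 1 := by
  have hn : (0 : ℝ) ≤ cV V := by unfold cV; positivity
  have h1 : τ * (16 * (cV V + 2) ^ 2) ≤ 1 := by
    unfold tau0 at hτ0
    rwa [le_div_iff₀ (by positivity)] at hτ0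
  nlinarith [mul_nonneg hτ.le (sq_nonneg (cV V - 2))]

theorem Z8B_qq_nonneg (z : St V s) : 0 ≤ qq z := Finset.sum_nonneg fun v _ => sq_nonneg _

/-- the maximiser for `E = 0` is near `z` -/
theorem Z8B_mx (F0 : Flag G s 0) (τ : ℝ) (hτ : 0 < τ) (hτ0 : τ ≤ tau0 V) (z : St V s)
    (c : V → Fin s) (y : V → ℝ) (h : F0.IsMx 0 τ z c y) :
    dsq z.c (nR z) c y ≤ qq z ∧ ∑ v, y v ^ 2 ≤ 4 * qq z := by
  have hq := Z8B_qq_nonneg z
  have hqq : ∑ v, nR z v ^ 2 = qq z := rfl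
  have hY : 0 ≤ ∑ v, y v ^ 2 := Finset.sum_nonneg fun v _ => sq_nonneg _
  have hd := dsq_nonneg z.c (nR z) c y
  have hI : ∀ v, v ∉ F0.I := by
    intro v hv
    obtain ⟨j, _⟩ := F0.cover v hv
    exact j.elim0
  have h1 : F0.val 0 τ z z.c (nR z) ≤ F0.val 0 τ z c y := by
    refine h.2 _ _ ⟨fun v hv => absurd hv (hI v), fun v _ => ?_⟩
    unfold nR
    positivity
  have h2 : dsq z.c (nR z) z.c (nR z) = 0 := by
    unfold dsq eps
    simp
  unfold Flag.val Flag.Th at h1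
  rw [h2] at h1
  simp only [Finset.univ_eq_empty, Finset.sum_empty, zero_mul, sub_zero, zero_div] at h1
  have h3 := (abs_le.1 (AA_self_le (G := G) z.c (nR z))).1
  have h4 := (abs_le.1 (AA_self_le (G := G) c y)).2
  rw [hqq] at h3
  have h5 : dsq z.c (nR z) c y / τ ≤ cV V * (qq z + ∑ v, y v ^ 2) := by nlinarith
  have h6 : dsq z.c (nR z) c y ≤ τ * cV V * (qq z + ∑ v, y v ^ 2) := by
    rw [div_le_iff₀ hτ] at h5
    nlinarith
  have h7 := Z8B_tau (V := V) τ hτ hτ0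
  have h8 : 128 * dsq z.c (nR z) c y ≤ qq z + ∑ v, y v ^ 2 := by
    nlinarith [mul_le_mul_of_nonneg_right h7 (add_nonneg hq hY)]
  have h9 := norm_sub_le_dist z.c (nR z) c y
  rw [hqq] at h9
  have h10 : (Real.sqrt (qq z) - Real.sqrt (∑ v, y v ^ 2)) ^ 2 ≤ dsq z.c (nR z) c y := by
    rw [← sq_abs, ← Real.sq_sqrt hd]
    exact pow_le_pow_left₀ (abs_nonneg _) h9 2
  have e1 := Real.sq_sqrt hY
  have e2 := Real.sq_sqrt hq
  have h11 : ∑ v, y v ^ 2 ≤ 2 * qq z + 2 * dsq z.c (nR z) c y := by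
    nlinarith [sq_nonneg (2 * Real.sqrt (qq z) - Real.sqrt (∑ v, y v ^ 2))]
  constructor <;> linarith

theorem env_small (F0 : Flag G s 0) (τ : ℝ) (hτ : 0 < τ) (hτ0 : τ ≤ tau0 V) (E : ℝ) (hE : 0 < E)
    (hE1 : E ≤ 1) (z : St V s) (hz : F0.env E τ z < 0) : F0.env 0 τ z ≤ 8 * E * qq z := by
  have hn : (0 : ℝ) ≤ cV V := by unfold cV; positivity
  have hq := Z8B_qq_nonneg z
  obtain ⟨c, y, h⟩ := F0.exists_mx 0 τ (by rw [abs_zero]; linarith) hτ hτ0 z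
  have h1 := F0.le_env E τ (by rw [abs_of_pos hE]; linarith) hτ hτ0 z c y h.1
  have h2 := (Z8B_mx F0 τ hτ hτ0 z c y h).2
  rw [F0.env_eq 0 τ z c y h]
  unfold Flag.val Flag.Th at h1 ⊢
  simp only [Finset.univ_eq_empty, Finset.sum_empty, zero_mul, sub_zero] at h1 ⊢
  nlinarith

theorem Z8B_corr_sum (κ X : ℝ) (hX : 1 ≤ X) (z : St V s) :
    0 ≤ ∑ t, corr G κ X t z ∧ ∑ t, corr G κ X t z ≤ cV V * (3 / 2 * X * Real.sqrt (qq z)) := by
  refine ⟨Finset.sum_nonneg fun t _ => corr_nonneg κ X hX t z, ?_⟩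
  refine (Finset.sum_le_sum fun t _ => corr_le κ X hX t z).trans (le_of_eq ?_)
  rw [Finset.sum_const, Finset.card_univ, nsmul_eq_mul]
  rfl

theorem HH_lower {f : St V s → ℝ} (hf : BadF G f) (τ : ℝ) (hτ : 0 < τ) (hτ0 : τ ≤ tau0 V)
    (F0 : Flag G s 0)
    (h0 : ∀ F0 : Flag G s 0, ∀ E, 0 < E → E ≤ cV V + 2 → ¬ Ext F0 τ f E)
    (B κ X : ℝ) (hB : 0 < B) (hκ : 0 < κ) (hX : 1 ≤ X) :
    ∃ ε > 0, ∀ z : St V s, 1 ≤ tot z → f z < ε → qq z / 4 ≤ HH F0 τ B κ X z := by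
  have hn : (0 : ℝ) ≤ cV V := by unfold cV; positivity
  obtain ⟨E, hEdef⟩ : ∃ E : ℝ, E = min 1 (1 / (16 * B)) := ⟨_, rfl⟩
  have hE : 0 < E := by rw [hEdef]; positivity
  have hE1 : E ≤ 1 := by rw [hEdef]; exact min_le_left _ _
  have hEB : 16 * B * E ≤ 1 := by
    have : E ≤ 1 / (16 * B) := by rw [hEdef]; exact min_le_right _ _
    rw [le_div_iff₀ (by positivity)] at this
    linarith
  have h1 := h0 F0 E hE (by linarith)
  unfold Ext at h1
  push Not at h1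
  obtain ⟨δ, hδ, ε1, hε1, K, hK, h2⟩ := h1
  obtain ⟨M, hM⟩ : ∃ M : ℝ, M = (B / τ + 3 / 2) * (cV V * (3 / 2 * X)) := ⟨_, rfl⟩
  have hBτ : 0 ≤ B / τ := by positivity
  have hM0 : 0 ≤ M := by
    rw [hM]
    have : 0 ≤ cV V * (3 / 2 * X) := mul_nonneg hn (by linarith)
    exact mul_nonneg (by linarith) this
  obtain ⟨c, hc, hpos⟩ := hf.pos (max (16 * M ^ 2) (K ^ 2 * cV V))
  have hI : ∀ v, v ∉ F0.I := by
    intro v hv
    obtain ⟨j, _⟩ := F0.cover v hv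
    exact j.elim0
  refine ⟨min ε1 c, lt_min hε1 hc, fun z hz hfz => ?_⟩
  have hq := Z8B_qq_nonneg z
  have hfz1 : f z < ε1 := hfz.trans_le (min_le_left _ _)
  have hfz2 : f z < c := hfz.trans_le (min_le_right _ _)
  have hQ : max (16 * M ^ 2) (K ^ 2 * cV V) < qq z := by
    by_contra hcon
    exact absurd (hpos z hz (not_lt.1 hcon)) (not_le.2 hfz2)
  have hQ1 : 16 * M ^ 2 < qq z := (le_max_left _ _).trans_lt hQ
  have hQ2 : K ^ 2 * cV V < qq z := (le_max_right _ _).trans_lt hQ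
  have ho2 : F0.o2 (nR z) = qq z := by
    unfold Flag.o2
    simp only [Finset.univ_eq_empty, Finset.sum_empty, sub_zero]
    rfl
  have hKt : K * tot z ≤ F0.o2 (nR z) := by
    rw [ho2]
    have e1 := tot_sq_le z
    have e2 : (K * tot z) ^ 2 ≤ qq z ^ 2 := by
      nlinarith [mul_le_mul_of_nonneg_left e1 (sq_nonneg K), mul_le_mul_of_nonneg_right hQ2.le hq]
    exact le_of_sq_le_sq e2 hq
  have hReg : F0.Reg δ δ z :=
    ⟨hz, fun v hv => absurd hv (hI v), fun j => j.elim0, fun i => i.elim0, fun j => j.elim0,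
      fun j => j.elim0⟩
  have henv := h2 z hReg hfz1 hKt
  have h3 := env_small F0 τ hτ hτ0 E hE hE1 z henv
  have h4 : B * F0.env 0 τ z ≤ qq z / 2 := by
    nlinarith [mul_le_mul_of_nonneg_left h3 hB.le, mul_le_mul_of_nonneg_right hEB hq]
  have h5 := (Z8B_corr_sum (G := G) κ X hX z).2
  have h6 : (B / τ + 3 / 2) * ∑ t, corr G κ X t z ≤ M * Real.sqrt (qq z) := by
    rw [hM]
    nlinarith [mul_le_mul_of_nonneg_left h5 (show (0 : ℝ) ≤ B / τ + 3 / 2 by linarith)]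
  have h7 : 4 * M ≤ Real.sqrt (qq z) := by
    apply Real.le_sqrt_of_sq_le
    nlinarith
  have h8 : M * Real.sqrt (qq z) ≤ qq z / 4 := by
    have e := Real.sq_sqrt hq
    nlinarith [mul_le_mul_of_nonneg_right h7 (Real.sqrt_nonneg (qq z))]
  unfold HH
  linarith

theorem Z8B_step_qq (z : St V s) (w : V) (hz : 1 ≤ tot z) :
    |qq (step G z w) - qq z| ≤ 3 * cV V * Real.sqrt (qq z) := by
  have hq := Z8B_qq_nonneg z
  have hq1 : 1 ≤ Real.sqrt (qq z) := by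
    apply Real.le_sqrt_of_sq_le
    have := tot_le_qq z
    linarith
  rw [step_qq]
  refine (Finset.abs_sum_le_sum_abs _ _).trans ?_
  have h1 : ∀ u ∈ (Finset.univ : Finset V),
      |if G.Adj w u then 2 * eps (z.c u) (z.c w) * (z.n u : ℝ) + 1 else 0| ≤
        3 * Real.sqrt (qq z) := by
    intro u _
    have h2 : (z.n u : ℝ) ≤ Real.sqrt (qq z) := by
      apply Real.le_sqrt_of_sq_le
      exact Finset.single_le_sum (f := fun v => (z.n v : ℝ) ^ 2) (fun v _ => sq_nonneg _)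
        (Finset.mem_univ u)
    have h3 : (0 : ℝ) ≤ (z.n u : ℝ) := by positivity
    split_ifs
    · have e := A1_eps_abs (z.c u) (z.c w)
      have e2 : |eps (z.c u) (z.c w) * (z.n u : ℝ)| = (z.n u : ℝ) := by
        rw [abs_mul, e, one_mul, abs_of_nonneg h3]
      have e3 := abs_le.1 (le_of_eq e2)
      rw [abs_le]
      constructor <;> nlinarith [e3.1, e3.2]
    · rw [abs_zero]
      positivity
  refine (Finset.sum_le_sum h1).trans (le_of_eq ?_)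
  rw [Finset.sum_const, Finset.card_univ, nsmul_eq_mul]
  unfold cV
  ring

theorem Z8B_dsq_le (c : V → Fin s) (x : V → ℝ) (c' : V → Fin s) (y : V → ℝ) :
    dsq c x c' y ≤ 2 * ∑ v, x v ^ 2 + 2 * ∑ v, y v ^ 2 := by
  unfold dsq
  rw [Finset.mul_sum, Finset.mul_sum, ← Finset.sum_add_distrib]
  refine Finset.sum_le_sum fun v _ => ?_
  have e := A1_eps_sq (c v) (c' v)
  have e2 : (eps (c v) (c' v) * y v) ^ 2 = y v ^ 2 := by
    rw [mul_pow, sq (eps _ _), e, one_mul]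
  nlinarith [sq_nonneg (x v + eps (c v) (c' v) * y v)]

/-- one step changes the envelope by at most `C √qq` -/
theorem Z8B_env_step (F0 : Flag G s 0) (τ : ℝ) (hτ : 0 < τ) (hτ0 : τ ≤ tau0 V) (z : St V s)
    (w : V) (hz : 1 ≤ tot z) (hw : 1 ≤ z.n w) :
    |F0.env 0 τ (step G z w) - F0.env 0 τ z| ≤
      cV V * (20 * cV V + 20) / τ * Real.sqrt (qq z) := by
  have hn : (0 : ℝ) ≤ cV V := by unfold cV; positivity
  have hq := Z8B_qq_nonneg z
  have hq1 : 1 ≤ Real.sqrt (qq z) := by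
    apply Real.le_sqrt_of_sq_le
    have := tot_le_qq z
    linarith
  have hqs := Real.sq_sqrt hq
  have hE : |(0 : ℝ)| ≤ cV V + 2 := by rw [abs_zero]; linarith
  obtain ⟨c, y, h⟩ := F0.exists_mx 0 τ hE hτ hτ0 z
  obtain ⟨c', y', h'⟩ := F0.exists_mx 0 τ hE hτ hτ0 (step G z w)
  have e1 := F0.env_eq 0 τ z c y h
  have e2 := F0.env_eq 0 τ (step G z w) c' y' h'
  have l1 := F0.le_env 0 τ hE hτ hτ0 (step G z w) c y h.1
  have l2 := F0.le_env 0 τ hE hτ hτ0 z c' y' h'.1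
  have s1 := step_dsq_abs (G := G) z w c y
  have s2 := step_dsq_abs (G := G) z w c' y'
  have m1 := (Z8B_mx F0 τ hτ hτ0 z c y h).1
  have m2 := (Z8B_mx F0 τ hτ hτ0 (step G z w) c' y' h').2
  have sq1 := Z8B_step_qq (G := G) z w hz
  have d1 : Real.sqrt (dsq z.c (nR z) c y) ≤ Real.sqrt (qq z) := Real.sqrt_le_sqrt m1
  have hqq : ∑ v, nR z v ^ 2 = qq z := rfl
  have d2a : dsq z.c (nR z) c' y' ≤ ((6 * cV V + 6) * Real.sqrt (qq z)) ^ 2 := by
    have t1 := Z8B_dsq_le z.c (nR z) c' y'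
    rw [hqq] at t1
    have t2 := (abs_le.1 sq1).2
    have t3 : qq (step G z w) ≤ (1 + 3 * cV V) * qq z := by
      nlinarith [mul_nonneg hn (mul_nonneg (Real.sqrt_nonneg (qq z)) (sub_nonneg.2 hq1))]
    have t4 : dsq z.c (nR z) c' y' ≤ (10 + 24 * cV V) * qq z := by nlinarith
    have t5 : ((6 * cV V + 6) * Real.sqrt (qq z)) ^ 2 = (6 * cV V + 6) ^ 2 * qq z := by
      rw [mul_pow, hqs]
    rw [t5]
    nlinarith [mul_nonneg hn hq, mul_nonneg (mul_nonneg hn hn) hq]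
  have d2 : Real.sqrt (dsq z.c (nR z) c' y') ≤ (6 * cV V + 6) * Real.sqrt (qq z) := by
    rw [← Real.sqrt_sq (show (0 : ℝ) ≤ (6 * cV V + 6) * Real.sqrt (qq z) by positivity)]
    exact Real.sqrt_le_sqrt d2a
  have b1 : |dsq (step G z w).c (nR (step G z w)) c y - dsq z.c (nR z) c y| ≤
      cV V * (20 * cV V + 20) * Real.sqrt (qq z) := by
    refine s1.trans ?_
    rw [mul_assoc]
    refine mul_le_mul_of_nonneg_left ?_ hn
    nlinarith [mul_nonneg hn (Real.sqrt_nonneg (qq z))]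
  have b2 : |dsq (step G z w).c (nR (step G z w)) c' y' - dsq z.c (nR z) c' y'| ≤
      cV V * (20 * cV V + 20) * Real.sqrt (qq z) := by
    refine s2.trans ?_
    rw [mul_assoc]
    refine mul_le_mul_of_nonneg_left ?_ hn
    nlinarith [mul_nonneg hn (Real.sqrt_nonneg (qq z))]
  have g1 : (dsq (step G z w).c (nR (step G z w)) c y - dsq z.c (nR z) c y) / τ ≤
      cV V * (20 * cV V + 20) / τ * Real.sqrt (qq z) := by
    rw [div_mul_eq_mul_div]
    exact div_le_div_of_nonneg_right ((le_abs_self _).trans b1) hτ.le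
  have g2 : (dsq z.c (nR z) c' y' - dsq (step G z w).c (nR (step G z w)) c' y') / τ ≤
      cV V * (20 * cV V + 20) / τ * Real.sqrt (qq z) := by
    rw [div_mul_eq_mul_div]
    refine div_le_div_of_nonneg_right ?_ hτ.le
    have := neg_abs_le (dsq (step G z w).c (nR (step G z w)) c' y' - dsq z.c (nR z) c' y')
    linarith
  rw [sub_div] at g1 g2
  rw [e1] at l2 ⊢
  rw [e2] at l1 ⊢
  unfold Flag.val at l1 l2 ⊢
  rw [abs_le]
  constructor <;> linarith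

theorem HH_step (F0 : Flag G s 0) (τ : ℝ) (hτ : 0 < τ) (hτ0 : τ ≤ tau0 V)
    (B κ X : ℝ) (hB : 0 < B) (hκ : 0 < κ) (hX : 1 ≤ X) :
    ∃ C > 0, ∀ z : St V s, 1 ≤ tot z → ∀ w, 1 ≤ z.n w →
      |HH F0 τ B κ X (step G z w) - HH F0 τ B κ X z| ≤ C * Real.sqrt (qq z) := by
  have hn : (0 : ℝ) ≤ cV V := by unfold cV; positivity
  have hBτ : 0 ≤ B / τ := by positivity
  obtain ⟨N, hN⟩ : ∃ N : ℝ, N = (B / τ + 3 / 2) * (cV V * (3 / 2 * X * (2 + 3 * cV V))) := ⟨_, rfl⟩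
  have hN0 : 0 ≤ N := by
    rw [hN]
    have : 0 ≤ cV V * (3 / 2 * X * (2 + 3 * cV V)) := by
      apply mul_nonneg hn
      apply mul_nonneg <;> nlinarith
    exact mul_nonneg (by linarith) this
  refine ⟨3 * cV V + B * (cV V * (20 * cV V + 20) / τ) + N + 1, by positivity, ?_⟩
  intro z hz w hw
  have hq := Z8B_qq_nonneg z
  have hq' := Z8B_qq_nonneg (step G z w)
  have hq1 : 1 ≤ Real.sqrt (qq z) := by
    apply Real.le_sqrt_of_sq_le
    have := tot_le_qq z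
    linarith
  have hqs := Real.sq_sqrt hq
  have s1 := Z8B_step_qq (G := G) z w hz
  have s2 := Z8B_env_step F0 τ hτ hτ0 z w hz hw
  have c1 := Z8B_corr_sum (G := G) κ X hX z
  have c2 := Z8B_corr_sum (G := G) κ X hX (step G z w)
  have r1 : Real.sqrt (qq (step G z w)) ≤ (2 + 3 * cV V) * Real.sqrt (qq z) := by
    have hnn : 0 ≤ (2 + 3 * cV V) * Real.sqrt (qq z) := by positivity
    rw [← Real.sqrt_sq hnn]
    apply Real.sqrt_le_sqrt
    rw [mul_pow, hqs]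
    have t2 := (abs_le.1 s1).2
    nlinarith [mul_nonneg hn (mul_nonneg (Real.sqrt_nonneg (qq z)) (sub_nonneg.2 hq1)),
      mul_nonneg hn hq, mul_nonneg (mul_nonneg hn hn) hq]
  have hX0 : 0 ≤ 3 / 2 * X := by linarith
  have r2 : ∑ t, corr G κ X t (step G z w) ≤
      cV V * (3 / 2 * X * (2 + 3 * cV V)) * Real.sqrt (qq z) := by
    refine c2.2.trans ?_
    have := mul_le_mul_of_nonneg_left (mul_le_mul_of_nonneg_left r1 hX0) hn
    nlinarith
  have r3 : ∑ t, corr G κ X t z ≤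
      cV V * (3 / 2 * X * (2 + 3 * cV V)) * Real.sqrt (qq z) := by
    refine c1.2.trans ?_
    have : Real.sqrt (qq z) ≤ (2 + 3 * cV V) * Real.sqrt (qq z) := by
      nlinarith [mul_nonneg hn (Real.sqrt_nonneg (qq z))]
    have := mul_le_mul_of_nonneg_left (mul_le_mul_of_nonneg_left this hX0) hn
    nlinarith
  have hb : 0 ≤ B / τ + 3 / 2 := by linarith
  have u1 := mul_le_mul_of_nonneg_left r2 hb
  have u2 := mul_le_mul_of_nonneg_left r3 hb
  have u3 := mul_nonneg hb c1.1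
  have u4 := mul_nonneg hb c2.1
  have hNq : (B / τ + 3 / 2) * (cV V * (3 / 2 * X * (2 + 3 * cV V)) * Real.sqrt (qq z)) =
      N * Real.sqrt (qq z) := by rw [hN]; ring
  rw [hNq] at u1 u2
  have v1 := abs_le.1 s1
  have v2 := abs_le.1 s2
  have w1 := mul_le_mul_of_nonneg_left v2.1 hB.le
  have w2 := mul_le_mul_of_nonneg_left v2.2 hB.le
  unfold HH
  rw [abs_le]
  constructor
  · nlinarith [v1.1, v1.2]
  · nlinarith [v1.1, v1.2]

/-- `HH ≥ 0` on bad states and after one more step -/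
theorem HH_nonneg {f : St V s → ℝ} (hf : BadF G f) (τ : ℝ) (hτ : 0 < τ) (hτ0 : τ ≤ tau0 V)
    (F0 : Flag G s 0)
    (h0 : ∀ F0 : Flag G s 0, ∀ E, 0 < E → E ≤ cV V + 2 → ¬ Ext F0 τ f E)
    (B κ X : ℝ) (hB : 0 < B) (hκ : 0 < κ) (hX : 1 ≤ X) :
    ∃ ε > 0, ∀ z : St V s, 1 ≤ tot z → f z < ε → 0 ≤ HH F0 τ B κ X z ∧
      ∀ w, 1 ≤ z.n w → 0 ≤ HH F0 τ B κ X (step G z w) := by
  obtain ⟨ε1, hε1, h1⟩ := HH_lower hf τ hτ hτ0 F0 h0 B κ X hB hκ hX
  obtain ⟨C, hC, h2⟩ := HH_step F0 τ hτ hτ0 B κ X hB hκ hX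
  obtain ⟨c, hc, hpos⟩ := hf.pos (16 * C ^ 2)
  refine ⟨min ε1 c, lt_min hε1 hc, fun z hz hfz => ?_⟩
  have hq := Z8B_qq_nonneg z
  have hfz1 : f z < ε1 := hfz.trans_le (min_le_left _ _)
  have hfz2 : f z < c := hfz.trans_le (min_le_right _ _)
  have hQ : 16 * C ^ 2 < qq z := by
    by_contra hcon
    exact absurd (hpos z hz (not_lt.1 hcon)) (not_le.2 hfz2)
  have h3 := h1 z hz hfz1
  refine ⟨by linarith, fun w hw => ?_⟩
  have h4 := (abs_le.1 (h2 z hz w hw)).1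
  have h7 : 4 * C ≤ Real.sqrt (qq z) := by
    apply Real.le_sqrt_of_sq_le
    nlinarith
  have e := Real.sq_sqrt hq
  nlinarith [mul_le_mul_of_nonneg_right h7 (Real.sqrt_nonneg (qq z))]

end UC
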