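import Pool.Agent.helper25.UC.Z8
import Pool.Agent.helper25.UC.Z8B
import Pool.Agent.helper25.UC.I1
import Pool.Agent.helper25.UC.H2
import Pool.Agent.helper25.UC.H6
import Pool.Agent.helper25.UC.L4

/-!
# Z9 : traps with positive rate
-/

namespace UC
open Finset
variable {V : Type} [Fintype V] [DecidableEq V] {s k : ℕ}
variable {G : SimpleGraph V} [DecidableRel G.Adj]

theorem exists_nbr (hG : G.Connected) {f : St V s → ℝ} (hf : BadF G f) (u : V) :
    ∃ t, G.Adj u t := by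
  by_contra hc
  push Not at hc
  have hall : ∀ v, v = u := by
    intro v
    obtain ⟨W⟩ := hG.preconnected u v
    cases W with
    | nil => rfl
    | cons h _ => exact absurd h (hc _)
  obtain ⟨z, hz, hfz⟩ := hf.bad (1 / 2) (by norm_num)
  have := hf.mono z hz (fun a b _ _ => by rw [hall a, hall b])
  linarith

theorem exists_pos_ext (hG : G.Connected) {f : St V s → ℝ} (hf : BadF G f) (τ : ℝ) (hτ : 0 < τ)
    (hτ0 : τ ≤ tau0 V) :
    ∃ F0 : Flag G s 0, ∃ E, 0 < E ∧ E ≤ cV V + 2 ∧ Ext F0 τ f E := by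
  by_contra hc
  push Not at hc
  have h0 : ∀ F0 : Flag G s 0, ∀ E, 0 < E → E ≤ cV V + 2 → ¬ Ext F0 τ f E :=
    fun F0 E h1 h2 => hc F0 E h1 h2
  obtain ⟨z0, -, -⟩ := hf.bad 1 one_pos
  obtain ⟨B, hB, κ, hκ, X, hX, c1, hc1, ε1, hε1, hbad⟩ := HH_bad hf τ hτ hτ0 (emptyFlag G z0.c)
    (exists_nbr hG hf) h0
  obtain ⟨ε2, hε2, hnn⟩ := HH_nonneg hf τ hτ hτ0 (emptyFlag G z0.c) h0 B κ X hB hκ hX
  have hε : 0 < min ε1 ε2 := lt_min hε1 hε2
  obtain ⟨z, hz, hfz⟩ := hf.bad (min ε1 ε2) hε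
  have := exit_lemma (f := f) (H := HH (emptyFlag G z0.c) τ B κ X) hf.nonneg hf.harm (min ε1 ε2)
    c1 hε hc1 (fun z a b => hbad z a (b.trans_le (min_le_left _ _)))
    (fun z a b => hnn z a (b.trans_le (min_le_right _ _))) z hz
  linarith

theorem step_zero_pos (hG : G.Connected) {f : St V s → ℝ} (hf : BadF G f) (τ : ℝ) (hτ : 0 < τ)
    (hτ0 : τ ≤ tau0 V) : ∃ F : Flag G s 1, Reach F f ∧ Inv F τ f ∧ 0 < F.E 0 := by
  obtain ⟨F0, E1, hE1, hE1', hX⟩ := exists_pos_ext hG hf τ hτ hτ0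
  have hcV : 0 ≤ cV V := Nat.cast_nonneg _
  have hE1c : E1 ≤ cV V + 1 := by
    by_contra hcon
    exact not_ext_zero F0 τ hτ hτ0 E1 (not_le.1 hcon).le hE1' hX
  obtain ⟨Es, h1, h2, h3, h4⟩ := exists_crit (P := Ext F0 τ f) (N := cV V + 2) (lo := E1)
    (B := cV V + 1) (fun E E1 a b c d => ext_mono F0 τ hτ hτ0 E E1 a b c d)
    (fun E a b => ext_mono F0 τ hτ hτ0 E1 E a hE1' b.le hX) (by linarith) (by linarith)
    (fun E a b => not_ext_zero F0 τ hτ hτ0 E a.le b)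
  have hN : NearCrit F0 τ f Es := near_crit_zero hf F0 τ hτ hτ0 Es (hE1.le.trans h1) h2 h3 h4
  obtain ⟨F', hext, hE, hR⟩ := exists_flag F0 τ hτ hτ0 Es (hE1.le.trans h1) h2 (fun j => j.elim0)
    (fun j => j.elim0) hN
  refine ⟨F', hR, ?_, ?_⟩
  · exact inv_of_extends F0 F' τ hτ hτ0 hext (by rw [hE]; exact h2)
      (fun E a b => h4 E (by rw [hE] at a; exact a) b)
  · have : (0 : Fin 1) = Fin.last 0 := rfl
    rw [this, hE]; linarith

theorem step_succ_pos {f : St V s → ℝ} (hf : BadF G f) (τ : ℝ) (hτ : 0 < τ)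
    (hτ0 : τ ≤ tau0 V) (F : Flag G s (k + 1)) (hR : Reach F f) (hI : Inv F τ f)
    (hT : ¬ Terminal F f) (hp : 0 < F.E 0) :
    ∃ F' : Flag G s (k + 2), Reach F' f ∧ Inv F' τ f ∧ 0 < F'.E 0 := by
  have hE0 : 0 ≤ F.E 0 := F.nonneg 0
  have hEl : F.E (Fin.last k) ≤ cV V := F.E_le _
  have hE0l : F.E 0 ≤ cV V := F.E_le _
  obtain ⟨Es, h1, h2, h3, h4⟩ := exists_crit (P := Ext F τ f) (N := cV V + 2) (lo := F.E 0 / 2)
    (B := F.E (Fin.last k)) (fun E E1 a b c d => ext_mono F τ hτ hτ0 E E1 a b c d)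
    (fun E a b => by
      by_contra hcon
      exact hT (terminal_of_not_ext hf F τ hτ hτ0 hR E a (by linarith) hcon))
    (by linarith) (by linarith)
    (fun E a b => not_ext hf F τ hτ hτ0 hI E a b)
  have hN : NearCrit F τ f Es := near_crit_succ hf F τ hτ hτ0 Es (by linarith) h2 h3 h4
  obtain ⟨F', hext, hE, hR'⟩ := exists_flag F τ hτ hτ0 Es (by linarith) (by linarith)
    (fun j => h2.trans (F.anti j (Fin.last k) (Fin.le_last j)))
    (fun j => by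
      have := F.anti 0 j (Fin.zero_le j)
      linarith) hN
  refine ⟨F', hR', ?_, ?_⟩
  · exact inv_of_extends F F' τ hτ hτ0 hext (by rw [hE]; linarith)
      (fun E a b => h4 E (by rw [hE] at a; exact a) b)
  · have := hext.E_eq 0
    have h0 : (Fin.castSucc (0 : Fin (k + 1))) = 0 := rfl
    rw [h0] at this
    rw [this]; exact hp

theorem exists_terminal_pos_aux {f : St V s → ℝ} (hf : BadF G f) (τ : ℝ) (hτ : 0 < τ)
    (hτ0 : τ ≤ tau0 V) (m : ℕ) : ∀ (k : ℕ) (F : Flag G s (k + 1)), Fintype.card V ≤ k + 1 + m →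
    Reach F f → Inv F τ f → 0 < F.E 0 →
    ∃ (k : ℕ) (F : Flag G s (k + 1)), Reach F f ∧ Inv F τ f ∧ Terminal F f ∧ 0 < F.E 0 := by
  induction m with
  | zero =>
    intro k F hk hR hI hp
    by_cases hT : Terminal F f
    · exact ⟨k, F, hR, hI, hT, hp⟩
    · exfalso
      obtain ⟨F', -, -⟩ := step_succ_pos hf τ hτ hτ0 F hR hI hT hp
      have h1 : ((k + 2 : ℕ) : ℝ) ≤ (Fintype.card V : ℝ) := F'.k_le
      have h2 : k + 2 ≤ Fintype.card V := by exact_mod_cast h1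
      omega
  | succ m ih =>
    intro k F hk hR hI hp
    by_cases hT : Terminal F f
    · exact ⟨k, F, hR, hI, hT, hp⟩
    · obtain ⟨F', hR', hI', hp'⟩ := step_succ_pos hf τ hτ hτ0 F hR hI hT hp
      exact ih (k + 1) F' (by omega) hR' hI' hp'

theorem exists_terminal_pos (hG : G.Connected) {f : St V s → ℝ} (hf : BadF G f) (τ : ℝ)
    (hτ : 0 < τ) (hτ0 : τ ≤ tau0 V) :
    ∃ (k : ℕ) (F : Flag G s (k + 1)), Reach F f ∧ Inv F τ f ∧ Terminal F f ∧ 0 < F.E 0 := by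
  obtain ⟨F, hR, hI, hp⟩ := step_zero_pos hG hf τ hτ hτ0
  exact exists_terminal_pos_aux hf τ hτ hτ0 (Fintype.card V) 0 F (by omega) hR hI hp

end UC
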