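import Pool.Agent.helper25.UC.TrapDef
import Pool.Agent.helper25.UC.R7
import Pool.Agent.helper25.UC.Z9
import Pool.Agent.helper25.UC.L4

/-!
# R8 : the strict trap

Choose a flag `F1` of length one with the critical rate `Es > 0`, `Reach`, and `card F1.I` maximal.
Extend it until it is terminal.  By `upgrade` all directions of rate `Es` are supported in `F1.I`.
-/

namespace UC
open Finset
variable {V : Type} [Fintype V] [DecidableEq V] {s k : ℕ}
variable {G : SimpleGraph V} [DecidableRel G.Adj]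

theorem flag0_I (F : Flag G s 0) : F.I = ∅ :=
  Finset.eq_empty_of_forall_notMem fun v hv => by
    obtain ⟨j, -⟩ := F.cover v hv
    exact j.elim0

theorem flag0_env (F F' : Flag G s 0) (E τ : ℝ) (z : St V s) : F.env E τ z = F'.env E τ z := by
  unfold Flag.env Flag.Adm Flag.val Flag.Th
  rw [flag0_I F, flag0_I F']
  simp

theorem flag0_ext {f : St V s → ℝ} (F F' : Flag G s 0) (τ E : ℝ) (h : Ext F τ f E) :
    Ext F' τ f E := by
  intro δ hδ ε hε K hK
  obtain ⟨z, h1, h2, h3, h4⟩ := h δ hδ ε hε K hK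
  refine ⟨z, N0_reg F' δ δ z h1.1, h2, ?_, ?_⟩
  · rw [N0_o2] at h3 ⊢; exact h3
  · rw [flag0_env F' F]; exact h4

theorem flag0_extends (F0 : Flag G s 0) (F : Flag G s 1) : F0.Extends F where
  I_sub := by rw [flag0_I F0]; exact Finset.empty_subset _
  σ_eq := fun v hv => by rw [flag0_I F0] at hv; simp at hv
  e_eq := fun j => j.elim0
  E_eq := fun j => j.elim0

/-- the critical rate and a flag of length one with maximal support -/
theorem exists_max_flag (hG : G.Connected) {f : St V s → ℝ} (hf : BadF G f) (τ : ℝ) (hτ : 0 < τ)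
    (hτ0 : τ ≤ tau0 V) : ∃ F : Flag G s 1, Reach F f ∧ Inv F τ f ∧ 0 < F.E 0 ∧
        ∀ F' : Flag G s 1, Reach F' f → F'.E 0 = F.E 0 → F'.I.card ≤ F.I.card := by
  classical
  obtain ⟨F0, E1, hE1, hE1', hX⟩ := exists_pos_ext hG hf τ hτ hτ0
  have hcV : 0 ≤ cV V := Nat.cast_nonneg _
  have hE1c : E1 ≤ cV V + 1 := by
    by_contra hcon
    exact not_ext_zero F0 τ hτ hτ0 E1 (not_le.1 hcon).le hE1' hX
  obtain ⟨Es, h1, h2, h3, h4⟩ := exists_crit (P := Ext F0 τ f) (N := cV V + 2) (lo := E1)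
    (B := cV V + 1) (fun E E1 a b c d => ext_mono F0 τ hτ hτ0 E E1 a b c d)
    (fun E a b => ext_mono F0 τ hτ hτ0 E1 E a hE1' b.le hX) (by linarith) (by linarith)
    (fun E a b => not_ext_zero F0 τ hτ hτ0 E a.le b)
  have hN : NearCrit F0 τ f Es := near_crit_zero hf F0 τ hτ hτ0 Es (hE1.le.trans h1) h2 h3 h4
  obtain ⟨F', hext, hE, hR⟩ := exists_flag F0 τ hτ hτ0 Es (hE1.le.trans h1) h2 (fun j => j.elim0)
    (fun j => j.elim0) hN
  have hE0 : F'.E 0 = Es := hE
  let P : ℕ → Prop := fun n => ∃ F : Flag G s 1, Reach F f ∧ F.E 0 = Es ∧ F.I.card = n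
  have hP : P F'.I.card := ⟨F', hR, hE0, rfl⟩
  have hle : F'.I.card ≤ Fintype.card V := Finset.card_le_univ _
  have hspec := Nat.findGreatest_spec (P := P) hle hP
  obtain ⟨F, hFR, hFE, hFc⟩ := hspec
  refine ⟨F, hFR, ?_, ?_, ?_⟩
  · refine inv_of_extends F0 F τ hτ hτ0 (flag0_extends F0 F) ?_ ?_
    · show F.E 0 ≤ _
      rw [hFE]; exact h2
    · intro E a b
      have a' : Es < E := by
        have : F.E (Fin.last 0) = Es := hFE
        rw [this] at a; exact a
      exact h4 E a' b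
  · rw [hFE]; linarith
  · intro F'' hR'' hE''
    rw [hFc]
    exact Nat.le_findGreatest (Finset.card_le_univ _) ⟨F'', hR'', hE''.trans hFE, rfl⟩

theorem step_succ_ext {f : St V s → ℝ} (hf : BadF G f) (τ : ℝ) (hτ : 0 < τ)
    (hτ0 : τ ≤ tau0 V) (F : Flag G s (k + 1)) (hR : Reach F f) (hI : Inv F τ f)
    (hT : ¬ Terminal F f) :
    ∃ F' : Flag G s (k + 2), F.Extends F' ∧ Reach F' f ∧ Inv F' τ f := by
  have hE0 : 0 ≤ F.E 0 := F.nonneg 0
  have hEl : F.E (Fin.last k) ≤ cV V := F.E_le _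
  have hE0l : F.E 0 ≤ cV V := F.E_le _
  obtain ⟨Es, h1, h2, h3, h4⟩ := exists_crit (P := Ext F τ f) (N := cV V + 2) (lo := F.E 0 / 2)
    (B := F.E (Fin.last k)) (fun E E1 a b c d => ext_mono F τ hτ hτ0 E E1 a b c d)
    (fun E a b => by
      by_contra hcon
      exact hT (terminal_of_not_ext hf F τ hτ hτ0 hR E a (by linarith) hcon))
    (by linarith) (by linarith)
    (fun E a b => not_ext hf F τ hτ hτ0 hI E a b)
  have hN : NearCrit F τ f Es := near_crit_succ hf F τ hτ hτ0 Es (by linarith) h2 h3 h4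
  obtain ⟨F', hext, hE, hR'⟩ := exists_flag F τ hτ hτ0 Es (by linarith) (by linarith)
    (fun j => h2.trans (F.anti j (Fin.last k) (Fin.le_last j)))
    (fun j => by
      have := F.anti 0 j (Fin.zero_le j)
      linarith) hN
  exact ⟨F', hext, hR', inv_of_extends F F' τ hτ hτ0 hext (by rw [hE]; linarith)
    (fun E a b => h4 E (by rw [hE] at a; exact a) b)⟩

/-- the support of the leading direction -/
noncomputable def Flag.sup0 (F : Flag G s (k + 1)) : Finset V := by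
  classical exact univ.filter fun v => F.e 0 v ≠ 0

theorem Flag.mem_sup0 (F : Flag G s (k + 1)) (v : V) : v ∈ F.sup0 ↔ F.e 0 v ≠ 0 := by
  unfold Flag.sup0
  simp

theorem Flag.sup0_sub (F : Flag G s (k + 1)) : F.sup0 ⊆ F.I := by
  intro v hv
  rw [F.mem_sup0] at hv
  by_contra hc
  exact hv (F.supp 0 v hc)

theorem Flag.sup0_one (F : Flag G s 1) : F.sup0 = F.I := by
  refine Finset.Subset.antisymm F.sup0_sub fun v hv => ?_
  rw [F.mem_sup0]
  obtain ⟨j, h1, -⟩ := F.cover v hv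
  have : j = 0 := Subsingleton.elim _ _
  rw [this] at h1
  exact h1.ne'

theorem exists_strict_aux {f : St V s → ℝ} (hf : BadF G f) (hL : Levy G f)
    (τ : ℝ) (hτ : 0 < τ) (hτ0 : τ ≤ tau0 V) (Es : ℝ) (hEs : 0 < Es) (M : ℕ)
    (hM : ∀ F' : Flag G s 1, Reach F' f → F'.E 0 = Es → F'.I.card ≤ M) (m : ℕ) :
    ∀ (k : ℕ) (F : Flag G s (k + 1)), Fintype.card V ≤ k + 1 + m →
    Reach F f → Inv F τ f → F.E 0 = Es → F.sup0.card = M →
    (∀ j, F.E j = F.E 0 → ∀ v, F.e 0 v = 0 → F.e j v = 0) →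
    ∃ (k : ℕ) (F : Flag G s (k + 1)), Inv F τ f ∧ Terminal F f ∧ F.E 0 = Es ∧
      (∀ j, F.E j = F.E 0 → ∀ v, F.e 0 v = 0 → F.e j v = 0) := by
  have key : ∀ (k : ℕ) (F : Flag G s (k + 1)),
      Reach F f → Inv F τ f → F.E 0 = Es → F.sup0.card = M →
      (∀ j, F.E j = F.E 0 → ∀ v, F.e 0 v = 0 → F.e j v = 0) → ¬ Terminal F f →
      ∃ F' : Flag G s (k + 2), Reach F' f ∧ Inv F' τ f ∧ F'.E 0 = Es ∧ F'.sup0.card = M ∧
      (∀ j, F'.E j = F'.E 0 → ∀ v, F'.e 0 v = 0 → F'.e j v = 0) := by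
    intro k F hR hI hE hc hp hT
    obtain ⟨F', hext, hR', hI'⟩ := step_succ_ext hf τ hτ hτ0 F hR hI hT
    have hcs : (Fin.castSucc (0 : Fin (k + 1))) = 0 := rfl
    have hE0 : F'.E 0 = F.E 0 := by
      have := hext.E_eq 0
      rwa [hcs] at this
    have he0 : F'.e 0 = F.e 0 := by
      have := hext.e_eq 0
      rwa [hcs] at this
    have hsup : F'.sup0 = F.sup0 := by
      ext v
      rw [F'.mem_sup0, F.mem_sup0, he0]
    refine ⟨F', hR', hI', hE0.trans hE, by rw [hsup]; exact hc, ?_⟩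
    intro j
    refine Fin.lastCases ?_ (fun j => ?_) j
    · intro hj v hv
      have hall : ∀ i, F'.E i = F'.E 0 := fun i =>
        le_antisymm (F'.anti 0 i (Fin.zero_le _)) (hj ▸ F'.anti i (Fin.last _) (Fin.le_last _))
      obtain ⟨F1, h1, h2, h3⟩ := upgrade hf hL F' τ hτ hτ0 hall (by rw [hE0, hE]; exact hEs)
        hR' hI'
      have h4 := hM F1 h2 (h1.trans (hE0.trans hE))
      have h5 : F'.I.card ≤ F'.sup0.card := by
        rw [hsup, hc]
        exact (Finset.card_le_card h3).trans h4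
      have h6 : F'.sup0 = F'.I := Finset.eq_of_subset_of_card_le F'.sup0_sub h5
      refine F'.supp _ v ?_
      rw [← h6, F'.mem_sup0]
      exact not_not.2 hv
    · intro hj v hv
      rw [hext.e_eq j]
      rw [hext.E_eq j, hE0] at hj
      rw [he0] at hv
      exact hp j hj v hv
  induction m with
  | zero =>
    intro k F hk hR hI hE hc hp
    by_cases hT : Terminal F f
    · exact ⟨k, F, hI, hT, hE, hp⟩
    · exfalso
      obtain ⟨F', -⟩ := key k F hR hI hE hc hp hT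
      have h1 : ((k + 2 : ℕ) : ℝ) ≤ (Fintype.card V : ℝ) := F'.k_le
      have h2 : k + 2 ≤ Fintype.card V := by exact_mod_cast h1
      omega
  | succ m ih =>
    intro k F hk hR hI hE hc hp
    by_cases hT : Terminal F f
    · exact ⟨k, F, hI, hT, hE, hp⟩
    · obtain ⟨F', hR', hI', hE', hc', hp'⟩ := key k F hR hI hE hc hp hT
      exact ih (k + 1) F' (by omega) hR' hI' hE' hc' hp'

theorem exists_strict_terminal (hG : G.Connected) {f : St V s → ℝ} (hf : BadF G f)
    (hL : Levy G f) (τ : ℝ) (hτ : 0 < τ) (hτ0 : τ ≤ tau0 V) :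
    ∃ (k : ℕ) (F : Flag G s (k + 1)), Inv F τ f ∧ Terminal F f ∧ 0 < F.E 0 ∧
      (∀ j, F.E j = F.E 0 → ∀ v, F.e 0 v = 0 → F.e j v = 0) := by
  obtain ⟨F, hR, hI, hp, hM⟩ := exists_max_flag hG hf τ hτ hτ0
  obtain ⟨k, F', h1, h2, h3, h4⟩ := exists_strict_aux hf hL τ hτ hτ0 (F.E 0) hp F.I.card
    (fun F' a b => hM F' a b) (Fintype.card V) 0 F (by omega) hR hI rfl
    (by rw [F.sup0_one]) (fun j _ v hv => by
      have : j = 0 := by
        apply Fin.ext
        have := j.isLt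
        simp
      rw [this]; exact hv)
  exact ⟨k, F', h1, h2, by rw [h3]; exact hp, h4⟩

end UC
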