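import Pool.Agent.helper25.UC.Q1

/-!
# W1 : a trap with positive rate contains three pairwise non-adjacent edges around a vertex

As in Q1 (`not_clawFree`) there are adjacent `u, v` with `e u > 0`, `e v = 0` (so `x v = 0` by
`insul`), a neighbour `u'` of `v` with `e u' > 0`, `σ u' ≠ σ u`, and a neighbour `w` of `v` with
`x w > 0`, `σ w ∉ {σ u, σ u'}`.  (The proof of Q1 gives exactly these; copy it.)
Now use `0 < E`.
* `E e_u = ∑_{p~u} e_p > 0` (`eig_e`): `u` has a neighbour `u1` with `e u1 > 0`, `σ u1 = σ u` (`same`).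
  In the same way `u'` has a neighbour `u1'` with `e u1' > 0`, `σ u1' = σ u'`.
* `eig_x` at `w`: `2 ∑_{p~w, σ p = σ w} x_p - ∑_{p~w} x_p = E x_w > 0`, so some neighbour `w1` of `w` has
  `x w1 > 0`, `σ w1 = σ w`.
* `e t > 0`, `x p > 0`, `σ p ≠ σ t` imply `¬ Adj t p` (`key` in Q1: if `e p > 0`: `same`; if `e p = 0`:
  `insul`).  All of `u, u1, u', u1'` have `e > 0`, hence `x > 0` (`sub`); `w, w1` have `x > 0`.
* `v` differs from all of them (`x v = 0`).
-/

namespace UC
open Finset
variable {V : Type} [Fintype V] [DecidableEq V] {s : ℕ}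
variable {G : SimpleGraph V} [DecidableRel G.Adj]

/-- `v` has three neighbours `a, b, c` and `a a'`, `b b'`, `c c'` are edges of `G - v` which are
pairwise disjoint and not joined by any edge. -/
def ThreeLegs (G : SimpleGraph V) (v a a' b b' c c' : V) : Prop :=
  G.Adj v a ∧ G.Adj v b ∧ G.Adj v c ∧ G.Adj a a' ∧ G.Adj b b' ∧ G.Adj c c' ∧
  a' ≠ v ∧ b' ≠ v ∧ c' ≠ v ∧
  (∀ p, (p = a ∨ p = a') → ∀ q, (q = b ∨ q = b') → p ≠ q ∧ ¬ G.Adj p q) ∧
  (∀ p, (p = a ∨ p = a') → ∀ q, (q = c ∨ q = c') → p ≠ q ∧ ¬ G.Adj p q) ∧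
  (∀ p, (p = b ∨ p = b') → ∀ q, (q = c ∨ q = c') → p ≠ q ∧ ¬ G.Adj p q)

theorem exists_threeLegs (hG : G.Connected) (E : ℝ) (hE : 0 < E) (σ : V → Fin s) (e x : V → ℝ)
    (h : TrapStr G E σ e x) : ∃ v a a' b b' c c', ThreeLegs G v a a' b b' c c' := by
  classical
  -- an edge leaving the set where `e` is positive
  obtain ⟨p, hp⟩ := h.e_pos
  obtain ⟨z, hz⟩ := h.e_zero
  obtain ⟨W⟩ := hG.preconnected p z
  obtain ⟨d, -, hd1, hd2⟩ := W.exists_boundary_dart {t | 0 < e t} hp (by simp [hz])
  obtain ⟨⟨u, v⟩, huv⟩ := d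
  simp only [Set.mem_ofPred_eq] at hd1 hd2
  have huv' : G.Adj u v := huv
  have hvu : G.Adj v u := huv'.symm
  have hev : e v = 0 := le_antisymm (not_lt.1 hd2) (h.e_nonneg v)
  have hxv : x v = 0 := h.insul u v huv' hd1 hev
  -- a second neighbour of another colour
  have hu' : ∃ u', G.Adj v u' ∧ 0 < e u' ∧ σ u' ≠ σ u := by
    by_contra hcon
    push Not at hcon
    have h1 := h.weak_e v hev (σ u)
    have h2 : ∑ w, (if G.Adj v w ∧ σ w = σ u then e w else 0) =
        ∑ w, (if G.Adj v w then e w else 0) := by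
      refine Finset.sum_congr rfl fun w _ => ?_
      by_cases hw : G.Adj v w
      · by_cases hw2 : σ w = σ u
        · simp [hw, hw2]
        · have h3 : e w = 0 := by
            by_contra h4
            exact hw2 (hcon w hw (lt_of_le_of_ne (h.e_nonneg w) (Ne.symm h4)))
          simp [hw, hw2, h3]
      · simp [hw]
    have h5 : e u ≤ ∑ w, (if G.Adj v w then e w else 0) := by
      have := Finset.single_le_sum (f := fun w => if G.Adj v w then e w else 0)
        (s := Finset.univ) (fun w _ => by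
          split_ifs
          · exact h.e_nonneg w
          · exact le_rfl) (Finset.mem_univ u)
      simpa [hvu] using this
    rw [h2] at h1
    linarith
  obtain ⟨u', hvu', heu', hcol⟩ := hu'
  -- a third neighbour
  have hw' : ∃ w, G.Adj v w ∧ 0 < x w ∧ σ w ≠ σ u ∧ σ w ≠ σ u' := by
    by_contra hcon
    push Not at hcon
    have h1 := h.strict u v huv' hd1 hxv (σ u)
    have h2 := h.strict u v huv' hd1 hxv (σ u')
    have h3 : ∑ w, (if G.Adj v w then x w else 0) ≤
        ∑ w, (if G.Adj v w ∧ σ w = σ u then x w else 0) +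
        ∑ w, (if G.Adj v w ∧ σ w = σ u' then x w else 0) := by
      rw [← Finset.sum_add_distrib]
      refine Finset.sum_le_sum fun w _ => ?_
      have hx0 := h.x_nonneg w
      by_cases hw : G.Adj v w
      · by_cases hxw : 0 < x w
        · by_cases hc : σ w = σ u
          · simp only [hw, hc, true_and, if_true]
            split_ifs <;> linarith
          · have hc2 := hcon w hw hxw hc
            simp only [hw, hc2, true_and, if_true]
            split_ifs <;> linarith
        · have h0 : x w = 0 := le_antisymm (not_lt.1 hxw) hx0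
          simp [h0]
      · simp [hw]
    linarith
  obtain ⟨w, hvw, hxw, hc1, hc2⟩ := hw'
  -- positive `e` next to positive `x` forces equal colours
  have key : ∀ t q, 0 < e t → 0 < x q → σ q ≠ σ t → ¬ G.Adj t q := by
    intro t q ht hq hc hadj
    rcases (h.e_nonneg q).lt_or_eq with hpos | hzero
    · exact hc (h.same t q hadj ht hpos).symm
    · have := h.insul t q hadj ht hzero.symm
      linarith
  -- every vertex with positive `e` has a neighbour with positive `e`
  have ext_e : ∀ t, 0 < e t → ∃ t', G.Adj t t' ∧ 0 < e t' ∧ σ t' = σ t := by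
    intro t ht
    by_contra hcon
    push Not at hcon
    have h1 := h.eig_e t ht
    have h2 : ∑ q, (if G.Adj t q then e q else 0) = 0 := by
      refine Finset.sum_eq_zero fun q _ => ?_
      split_ifs with hq
      · by_contra h4
        have h5 : 0 < e q := lt_of_le_of_ne (h.e_nonneg q) (Ne.symm h4)
        exact hcon q hq h5 (h.same t q hq ht h5).symm
      · rfl
    rw [h2] at h1
    have := mul_pos hE ht
    linarith
  -- every vertex with positive `x` has a neighbour with positive `x` and the same colour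
  have ext_x : ∀ t, 0 < x t → ∃ t', G.Adj t t' ∧ 0 < x t' ∧ σ t' = σ t := by
    intro t ht
    by_contra hcon
    push Not at hcon
    have h1 := h.eig_x t ht
    have h2 : ∑ q, (if G.Adj t q ∧ σ q = σ t then x q else 0) = 0 := by
      refine Finset.sum_eq_zero fun q _ => ?_
      split_ifs with hq
      · by_contra h4
        exact hcon q hq.1 (lt_of_le_of_ne (h.x_nonneg q) (Ne.symm h4)) hq.2
      · rfl
    have h3 : 0 ≤ ∑ q, (if G.Adj t q then x q else 0) := by
      refine Finset.sum_nonneg fun q _ => ?_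
      split_ifs
      · exact h.x_nonneg q
      · exact le_rfl
    rw [h2] at h1
    have := mul_pos hE ht
    linarith
  obtain ⟨u1, hu1, heu1, hcu1⟩ := ext_e u hd1
  obtain ⟨u1', hu1', heu1', hcu1'⟩ := ext_e u' heu'
  obtain ⟨w1, hw1, hxw1, hcw1⟩ := ext_x w hxw
  -- `v` is none of them
  have hne : ∀ q, 0 < x q → q ≠ v := by
    rintro q hq rfl
    linarith
  have hcomb : ∀ t q, 0 < e t → 0 < x q → σ q ≠ σ t → t ≠ q ∧ ¬ G.Adj t q := by
    intro t q ht hq hc
    refine ⟨?_, key t q ht hq hc⟩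
    rintro rfl
    exact hc rfl
  refine ⟨v, u, u1, u', u1', w, w1, hvu, hvu', hvw, hu1, hu1', hw1, hne _ (h.sub _ heu1),
    hne _ (h.sub _ heu1'), hne _ hxw1, ?_, ?_, ?_⟩
  · rintro p (rfl | rfl) q (rfl | rfl)
    · exact hcomb _ _ hd1 (h.sub _ heu') hcol
    · exact hcomb _ _ hd1 (h.sub _ heu1') (by rw [hcu1']; exact hcol)
    · exact hcomb _ _ heu1 (h.sub _ heu') (by rw [hcu1]; exact hcol)
    · exact hcomb _ _ heu1 (h.sub _ heu1') (by rw [hcu1', hcu1]; exact hcol)
  · rintro p (rfl | rfl) q (rfl | rfl)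
    · exact hcomb _ _ hd1 hxw hc1
    · exact hcomb _ _ hd1 hxw1 (by rw [hcw1]; exact hc1)
    · exact hcomb _ _ heu1 hxw (by rw [hcu1]; exact hc1)
    · exact hcomb _ _ heu1 hxw1 (by rw [hcw1, hcu1]; exact hc1)
  · rintro p (rfl | rfl) q (rfl | rfl)
    · exact hcomb _ _ heu' hxw hc2
    · exact hcomb _ _ heu' hxw1 (by rw [hcw1]; exact hc2)
    · exact hcomb _ _ heu1' hxw (by rw [hcu1']; exact hc2)
    · exact hcomb _ _ heu1' hxw1 (by rw [hcw1, hcu1']; exact hc2)

end UC
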