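import Pool.Agent.helper25.UC.W1
import Pool.Agent.helper25.UC.S1
import Pool.Agent.helper25.UC.H6

/-!
# W2 : three legs on seven vertices suffice for coexistence
-/

namespace UC
open Finset
variable {V : Type} [Fintype V] [DecidableEq V] {s : ℕ}
variable {G : SimpleGraph V} [DecidableRel G.Adj]

/-- the facts about the seven vertices -/
structure W2Data (G : SimpleGraph V) (v a a' b b' c c' : V) : Prop where
  va : G.Adj v a
  vb : G.Adj v b
  vc : G.Adj v c
  aa : G.Adj a a'
  bb : G.Adj b b'
  cc : G.Adj c c'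
  av : a' ≠ v
  bv : b' ≠ v
  cv : c' ≠ v
  ab : a ≠ b ∧ ¬ G.Adj a b
  ab' : a ≠ b' ∧ ¬ G.Adj a b'
  a'b : a' ≠ b ∧ ¬ G.Adj a' b
  a'b' : a' ≠ b' ∧ ¬ G.Adj a' b'
  ac : a ≠ c ∧ ¬ G.Adj a c
  ac' : a ≠ c' ∧ ¬ G.Adj a c'
  a'c : a' ≠ c ∧ ¬ G.Adj a' c
  a'c' : a' ≠ c' ∧ ¬ G.Adj a' c'
  bc : b ≠ c ∧ ¬ G.Adj b c
  bc' : b ≠ c' ∧ ¬ G.Adj b c'
  b'c : b' ≠ c ∧ ¬ G.Adj b' c
  b'c' : b' ≠ c' ∧ ¬ G.Adj b' c'

theorem w2_data {v a a' b b' c c' : V} (h : ThreeLegs G v a a' b b' c c') :
    W2Data G v a a' b b' c c' := by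
  obtain ⟨h1, h2, h3, h4, h5, h6, h7, h8, h9, hab, hac, hbc⟩ := h
  exact
    { va := h1, vb := h2, vc := h3, aa := h4, bb := h5, cc := h6, av := h7, bv := h8, cv := h9
      ab := hab a (Or.inl rfl) b (Or.inl rfl)
      ab' := hab a (Or.inl rfl) b' (Or.inr rfl)
      a'b := hab a' (Or.inr rfl) b (Or.inl rfl)
      a'b' := hab a' (Or.inr rfl) b' (Or.inr rfl)
      ac := hac a (Or.inl rfl) c (Or.inl rfl)
      ac' := hac a (Or.inl rfl) c' (Or.inr rfl)
      a'c := hac a' (Or.inr rfl) c (Or.inl rfl)
      a'c' := hac a' (Or.inr rfl) c' (Or.inr rfl)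
      bc := hbc b (Or.inl rfl) c (Or.inl rfl)
      bc' := hbc b (Or.inl rfl) c' (Or.inr rfl)
      b'c := hbc b' (Or.inr rfl) c (Or.inl rfl)
      b'c' := hbc b' (Or.inr rfl) c' (Or.inr rfl) }

/-- sums over seven vertices -/
theorem w2_sum (hV : Fintype.card V ≤ 7) {v a a' b b' c c' : V} (h : W2Data G v a a' b b' c c')
    (f : V → ℝ) :
    ∑ p, f p = f v + (f a + (f a' + (f b + (f b' + (f c + f c'))))) := by
  have n1 := h.va.ne
  have n2 := h.vb.ne
  have n3 := h.vc.ne
  have n4 := h.aa.ne
  have n5 := h.bb.ne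
  have n6 := h.cc.ne
  have m1 : v ∉ ({a, a', b, b', c, c'} : Finset V) := by
    simp [n1, n2, n3, h.av.symm, h.bv.symm, h.cv.symm]
  have m2 : a ∉ ({a', b, b', c, c'} : Finset V) := by
    simp [n4, h.ab.1, h.ab'.1, h.ac.1, h.ac'.1]
  have m3 : a' ∉ ({b, b', c, c'} : Finset V) := by
    simp [h.a'b.1, h.a'b'.1, h.a'c.1, h.a'c'.1]
  have m4 : b ∉ ({b', c, c'} : Finset V) := by
    simp [n5, h.bc.1, h.bc'.1]
  have m5 : b' ∉ ({c, c'} : Finset V) := by
    simp [h.b'c.1, h.b'c'.1]
  have m6 : c ∉ ({c'} : Finset V) := by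
    simp [n6]
  have hcard : ({v, a, a', b, b', c, c'} : Finset V).card = 7 := by
    rw [card_insert_of_notMem m1, card_insert_of_notMem m2, card_insert_of_notMem m3,
      card_insert_of_notMem m4, card_insert_of_notMem m5, card_insert_of_notMem m6,
      card_singleton]
  have huniv : (univ : Finset V) = {v, a, a', b, b', c, c'} := by
    symm
    apply eq_univ_of_card
    apply le_antisymm (card_le_univ _)
    rw [hcard]
    exact hV
  rw [huniv, sum_insert m1, sum_insert m2, sum_insert m3, sum_insert m4, sum_insert m5,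
    sum_insert m6, sum_singleton]

theorem w2_all (hV : Fintype.card V ≤ 7) {v a a' b b' c c' : V} (h : W2Data G v a a' b b' c c')
    (p : V) : p = v ∨ p = a ∨ p = a' ∨ p = b ∨ p = b' ∨ p = c ∨ p = c' := by
  by_contra hp
  push Not at hp
  have h1 := w2_sum hV h (fun q => if q = p then 1 else 0)
  rw [sum_ite_eq' univ p] at h1
  simp [hp.1.symm, hp.2.1.symm, hp.2.2.1.symm, hp.2.2.2.1.symm, hp.2.2.2.2.1.symm,
    hp.2.2.2.2.2.1.symm, hp.2.2.2.2.2.2.symm] at h1

theorem not_inG_of_seven (hG : G.Connected) (hV : Fintype.card V ≤ 7) (hs : 3 ≤ s)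
    (v a a' b b' c c' : V) (h : ThreeLegs G v a a' b b' c c') : ¬ InG G s := by
  have d := w2_data h
  have hsum := w2_sum hV d
  have hall := w2_all hV d
  -- adjacency facts
  have n1 := d.va.ne
  have n2 := d.vb.ne
  have n3 := d.vc.ne
  have n4 := d.aa.ne
  have n5 := d.bb.ne
  have n6 := d.cc.ne
  have n1' := n1.symm
  have n2' := n2.symm
  have n3' := n3.symm
  have n4' := n4.symm
  have n5' := n5.symm
  have n6' := n6.symm
  have n7 := d.av
  have n8 := d.bv
  have n9 := d.cv
  have n7' := n7.symm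
  have n8' := n8.symm
  have n9' := n9.symm
  obtain ⟨e1, f1⟩ := d.ab
  obtain ⟨e2, f2⟩ := d.ab'
  obtain ⟨e3, f3⟩ := d.a'b
  obtain ⟨e4, f4⟩ := d.a'b'
  obtain ⟨e5, f5⟩ := d.ac
  obtain ⟨e6, f6⟩ := d.ac'
  obtain ⟨e7, f7⟩ := d.a'c
  obtain ⟨e8, f8⟩ := d.a'c'
  obtain ⟨e9, f9⟩ := d.bc
  obtain ⟨e10, f10⟩ := d.bc'
  obtain ⟨e11, f11⟩ := d.b'c
  obtain ⟨e12, f12⟩ := d.b'c'
  have g1 : ¬ G.Adj b a := fun h => f1 h.symm
  have g2 : ¬ G.Adj b' a := fun h => f2 h.symm
  have g3 : ¬ G.Adj b a' := fun h => f3 h.symm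
  have g4 : ¬ G.Adj b' a' := fun h => f4 h.symm
  have g5 : ¬ G.Adj c a := fun h => f5 h.symm
  have g6 : ¬ G.Adj c' a := fun h => f6 h.symm
  have g7 : ¬ G.Adj c a' := fun h => f7 h.symm
  have g8 : ¬ G.Adj c' a' := fun h => f8 h.symm
  have g9 : ¬ G.Adj c b := fun h => f9 h.symm
  have g10 : ¬ G.Adj c' b := fun h => f10 h.symm
  have g11 : ¬ G.Adj c b' := fun h => f11 h.symm
  have g12 : ¬ G.Adj c' b' := fun h => f12 h.symm
  have va := d.va
  have vb := d.vb
  have vc := d.vc
  have aa := d.aa
  have bb := d.bb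
  have cc := d.cc
  have aa' := aa.symm
  have bb' := bb.symm
  have cc' := cc.symm
  -- colours
  set k0 : Fin s := ⟨0, by omega⟩ with hk0
  set k1 : Fin s := ⟨1, by omega⟩ with hk1
  set k2 : Fin s := ⟨2, by omega⟩ with hk2
  have k01 : k0 ≠ k1 := by rw [hk0, hk1]; simp
  have k02 : k0 ≠ k2 := by rw [hk0, hk2]; simp
  have k12 : k1 ≠ k2 := by rw [hk1, hk2]; simp
  set U : Finset V := {a, a', b, b', c, c'} with hU
  set σ : V → Fin s := fun p => if p = a ∨ p = a' then k0 else if p = b ∨ p = b' then k1 else k2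
    with hσ
  set wa : ℝ := if G.Adj v a' then 1 / 2 else 1 with hwa
  set wb : ℝ := if G.Adj v b' then 1 / 2 else 1 with hwb
  set wc : ℝ := if G.Adj v c' then 1 / 2 else 1 with hwc
  have wap : 0 < wa := by rw [hwa]; split_ifs <;> norm_num
  have wbp : 0 < wb := by rw [hwb]; split_ifs <;> norm_num
  have wcp : 0 < wc := by rw [hwc]; split_ifs <;> norm_num
  set x : V → ℝ := fun p => if p = a ∨ p = a' then wa else if p = b ∨ p = b' then wb
    else if p = c ∨ p = c' then wc else 0 with hx
  have xv : x v = 0 := by simp [hx, n1, n2, n3, n7', n8', n9']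
  have xa : x a = wa := by simp [hx]
  have xa' : x a' = wa := by simp [hx]
  have xb : x b = wb := by simp [hx, e1.symm, e3.symm]
  have xb' : x b' = wb := by simp [hx, e2.symm, e4.symm]
  have xc : x c = wc := by simp [hx, e5.symm, e7.symm, e9.symm, e11.symm]
  have xc' : x c' = wc := by simp [hx, e6.symm, e8.symm, e10.symm, e12.symm]
  have sa : σ a = k0 := by simp [hσ]
  have sa' : σ a' = k0 := by simp [hσ]
  have sb : σ b = k1 := by simp [hσ, e1.symm, e3.symm]
  have sb' : σ b' = k1 := by simp [hσ, e2.symm, e4.symm]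
  have sc : σ c = k2 := by simp [hσ, e5.symm, e7.symm, e9.symm, e11.symm]
  have sc' : σ c' = k2 := by simp [hσ, e6.symm, e8.symm, e10.symm, e12.symm]
  have hvU : v ∉ U := by simp [hU, n1, n2, n3, n7', n8', n9']
  have hUall : ∀ p, p ≠ v → p ∈ U := by
    intro p hp
    rw [hU]
    simp only [mem_insert, mem_singleton]
    exact (hall p).resolve_left hp
  have hUcases : ∀ p ∈ U, p = a ∨ p = a' ∨ p = b ∨ p = b' ∨ p = c ∨ p = c' := by
    intro p hp
    rw [hU] at hp
    simpa only [mem_insert, mem_singleton] using hp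
  have hres := trap_pos (s := s) hG U σ x 1 one_pos ⟨a, by rw [hU]; simp⟩ ⟨v, hvU⟩
    (by
      intro p hp
      rcases hUcases p hp with rfl | rfl | rfl | rfl | rfl | rfl
      · rw [xa]; exact wap
      · rw [xa']; exact wap
      · rw [xb]; exact wbp
      · rw [xb']; exact wbp
      · rw [xc]; exact wcp
      · rw [xc']; exact wcp)
    (by
      intro p hp
      have : p = v := by
        by_contra h1
        exact hp (hUall p h1)
      rw [this, xv])
    (by
      intro p hp
      rw [one_mul, hsum]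
      rcases hUcases p hp with rfl | rfl | rfl | rfl | rfl | rfl
      · simp only [xv, xa, xa', aa, f1, f2, f5, f6, SimpleGraph.irrefl, if_true, if_false, ite_self]
        ring
      · simp only [xv, xa, xa', aa', f3, f4, f7, f8, SimpleGraph.irrefl, if_true, if_false, ite_self]
        ring
      · simp only [xv, xb, xb', bb, g1, g3, f9, f10, SimpleGraph.irrefl, if_true, if_false, ite_self]
        ring
      · simp only [xv, xb, xb', bb', g2, g4, f11, f12, SimpleGraph.irrefl, if_true, if_false,
          ite_self]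
        ring
      · simp only [xv, xc, xc', cc, g5, g7, g9, g11, SimpleGraph.irrefl, if_true, if_false, ite_self]
        ring
      · simp only [xv, xc, xc', cc', g6, g8, g10, g12, SimpleGraph.irrefl, if_true, if_false,
          ite_self]
        ring)
    (by
      intro p hp q hq hpq
      rcases hUcases p hp with rfl | rfl | rfl | rfl | rfl | rfl <;>
        rcases hUcases q hq with rfl | rfl | rfl | rfl | rfl | rfl <;>
        first
          | rfl
          | (simp only [sa, sa', sb, sb', sc, sc']; done)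
          | (exfalso; first
              | exact f1 hpq | exact f2 hpq | exact f3 hpq | exact f4 hpq | exact f5 hpq
              | exact f6 hpq | exact f7 hpq | exact f8 hpq | exact f9 hpq | exact f10 hpq
              | exact f11 hpq | exact f12 hpq
              | exact g1 hpq | exact g2 hpq | exact g3 hpq | exact g4 hpq | exact g5 hpq
              | exact g6 hpq | exact g7 hpq | exact g8 hpq | exact g9 hpq | exact g10 hpq
              | exact g11 hpq | exact g12 hpq))
    (by
      intro p hp _ k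
      have hpv : p = v := by
        by_contra h1
        exact hp (hUall p h1)
      subst hpv
      rw [hsum, hsum]
      simp only [xv, xa, xa', xb, xb', xc, xc', sa, sa', sb, sb', sc, sc', va, vb, vc, true_and,
        SimpleGraph.irrefl, false_and, if_true, if_false]
      have ta : (wa + if G.Adj p a' then wa else 0) = 1 := by
        rw [hwa]; split_ifs <;> norm_num
      have tb : (wb + if G.Adj p b' then wb else 0) = 1 := by
        rw [hwb]; split_ifs <;> norm_num
      have tc : (wc + if G.Adj p c' then wc else 0) = 1 := by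
        rw [hwc]; split_ifs <;> norm_num
      by_cases h0 : k0 = k
      · subst h0
        simp only [k01.symm, k02.symm, and_false, and_true, if_true, if_false]
        linarith
      · by_cases h1 : k1 = k
        · subst h1
          simp only [k01, k12.symm, and_false, and_true, if_true, if_false]
          linarith
        · by_cases h2 : k2 = k
          · subst h2
            simp only [k02, k12, and_false, and_true, if_true, if_false]
            linarith
          · simp only [h0, h1, h2, and_false, if_false]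
            linarith)
    (by
      intro y hy
      have hy0 : ∀ p, y p = 0 := by
        intro p
        apply hy
        by_cases hp : p = v
        · right
          subst hp
          exact ⟨a, by rw [hU]; simp, va⟩
        · left
          exact hUall p hp
      simp [hy0])
  obtain ⟨z, hz1, hz2⟩ := hres
  exact not_inG_of_pos z hz1 hz2

end UC
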