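import Pool.Agent.helper25.UC.R8
import Pool.Agent.helper25.UC.W1
import Pool.Agent.helper25.UC.W2
import Pool.Agent.helper25.UC.S1
import Pool.Agent.helper25.UC.H6

/-!
# R9 : every graph with coexistence has a strict trap
-/

namespace UC
open Finset
variable {V : Type} [Fintype V] [DecidableEq V] {s k : ℕ}
variable {G : SimpleGraph V} [DecidableRel G.Adj]

theorem trap_of_strict (F : Flag G s (k + 1)) (η : ℝ) (hE : 0 < F.E 0)
    (hp : ∀ j, F.E j = F.E 0 → ∀ v, F.e 0 v = 0 → F.e j v = 0)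
    (h : TrapStr G (F.E 0) F.σ (F.e 0) (fun v => ∑ j, F.tw η j * F.e j v)) :
    ∃ (E : ℝ) (U : Finset V) (σ : V → Fin s) (x : V → ℝ), Trap G E U σ x := by
  classical
  set x : V → ℝ := fun v => ∑ j, F.tw η j * F.e j v with hx
  have hx0 : ∀ v, F.e 0 v = 0 → x v = 0 := by
    intro v hv
    show ∑ j, F.tw η j * F.e j v = 0
    refine Finset.sum_eq_zero fun j _ => ?_
    by_cases hj : F.E j = F.E 0
    · rw [hp j hj v hv, mul_zero]
    · unfold Flag.tw
      rw [if_neg hj, zero_mul]
  have hpos : ∀ v, F.e 0 v ≠ 0 → 0 < F.e 0 v := fun v hv =>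
    lt_of_le_of_ne (h.e_nonneg v) (Ne.symm hv)
  refine ⟨F.E 0, univ.filter fun v => F.e 0 v ≠ 0, F.σ, x, hE, ?_, ?_, ?_, ?_, ?_, ?_, ?_⟩
  · obtain ⟨v, hv⟩ := h.e_pos
    exact ⟨v, by simp [hv.ne']⟩
  · obtain ⟨v, hv⟩ := h.e_zero
    exact ⟨v, by simp [hv]⟩
  · intro v hv
    simp only [Finset.mem_filter, Finset.mem_univ, true_and] at hv
    exact h.sub v (hpos v hv)
  · intro v hv
    simp only [Finset.mem_filter, Finset.mem_univ, true_and, not_not] at hv
    exact hx0 v hv
  · intro v hv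
    simp only [Finset.mem_filter, Finset.mem_univ, true_and] at hv
    have h1 := h.eig_x v (h.sub v (hpos v hv))
    have h2 : ∑ u, (if G.Adj v u ∧ F.σ u = F.σ v then x u else 0) =
        ∑ u, (if G.Adj v u then x u else 0) := by
      refine Finset.sum_congr rfl fun u _ => ?_
      by_cases ha : G.Adj v u
      · by_cases hu : F.e 0 u = 0
        · simp [hx0 u hu]
        · have := h.same v u ha (hpos v hv) (hpos u hu)
          simp [ha, this]
      · simp [ha]
    rw [h2] at h1
    linarith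
  · intro u hu v hv ha
    simp only [Finset.mem_filter, Finset.mem_univ, true_and] at hu hv
    exact h.same u v ha (hpos u hu) (hpos v hv)
  · intro v hv hu b
    simp only [Finset.mem_filter, Finset.mem_univ, true_and, not_not] at hv
    obtain ⟨u, hu, ha⟩ := hu
    simp only [Finset.mem_filter, Finset.mem_univ, true_and] at hu
    exact h.strict u v ha.symm (hpos u hu) (hx0 v hv) b

/-- coexistence forces a strict trap -/
theorem strict_trap_of_not_inG (hG : G.Connected) (h : ¬ InG G s) :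
    ∃ (E : ℝ) (U : Finset V) (σ : V → Fin s) (x : V → ℝ), Trap G E U σ x := by
  have hz : ∃ z : St V s, 1 ≤ tot z ∧ 0 < hh G z := by
    by_contra hc
    push Not at hc
    exact h (inG_of_zero fun z hz => le_antisymm (hc z hz) (hh_nonneg z))
  obtain ⟨z0, h0, hp⟩ := hz
  have hf := badF_of_pos hG z0 h0 hp
  have hτ : 0 < tau0 V := by
    unfold tau0
    have : (0 : ℝ) ≤ cV V := Nat.cast_nonneg _
    positivity
  obtain ⟨k, F, hI, hT, hE, hs⟩ := exists_strict_terminal hG hf levy_hh (tau0 V) hτ le_rfl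
  have hN : NoKick F (tau0 V) := fun E' h1 h2 c y r0 hA hb hr =>
    no_kick hf F (tau0 V) hτ le_rfl hI hT E' h1 h2 c y r0 hA hb hr
  obtain ⟨η, hS⟩ := trap_str1 hG hf F (tau0 V) hτ hT hN
  exact trap_of_strict F η hE hs hS

/-- a strict trap whose exterior has spectral radius at most `E` gives coexistence -/
theorem not_inG_of_strict_trap (hG : G.Connected) (E : ℝ) (U : Finset V) (σ : V → Fin s)
    (x : V → ℝ) (h : Trap G E U σ x)
    (hspec : ∀ y : V → ℝ, (∀ v, (v ∈ U ∨ ∃ u ∈ U, G.Adj v u) → y v = 0) →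
      ∑ u, ∑ v, (if G.Adj u v then y u * y v else 0) ≤ E * ∑ v, y v ^ 2) : ¬ InG G s := by
  obtain ⟨z, h1, h2⟩ := trap_pos hG U σ x E h.E_pos h.nonempty h.proper h.pos h.zero h.eig h.same
    h.strict hspec
  exact not_inG_of_pos z h1 h2

end UC
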