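import Pool.Agent.helper25.UC.P1
import Pool.Agent.helper25.UC.B1

/-!
# T0 : the empty flag: `Ext` for every `E < 0`
-/

namespace UC
open Finset
variable {V : Type} [Fintype V] [DecidableEq V] {s k : ℕ}
variable {G : SimpleGraph V} [DecidableRel G.Adj]

theorem ext_zero {f : St V s → ℝ} (hf : BadF G f) (F : Flag G s 0) (τ : ℝ) (hτ : 0 < τ)
    (hτ0 : τ ≤ tau0 V) (E : ℝ) (hE : -1 ≤ E) (hE0 : E < 0) : Ext F τ f E := by
  by_contra hne
  unfold Ext at hne
  push Not at hne
  obtain ⟨δ, hδ, ε, hε, K, hK, hneg⟩ := hne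
  have hI : ∀ v, v ∉ F.I := fun v hv => by
    obtain ⟨j, _⟩ := F.cover v hv
    exact j.elim0
  have hReg : ∀ z : St V s, 1 ≤ tot z → F.Reg δ δ z := fun z hz =>
    ⟨hz, fun v hv => absurd hv (hI v), fun j => j.elim0, fun i => i.elim0, fun j => j.elim0,
      fun j => j.elim0⟩
  have ho2 : ∀ z : St V s, F.o2 (nR z) = qq z := fun z => by
    unfold Flag.o2 qq nR
    simp
  have hTh : ∀ z : St V s, F.Th E z.c (nR z) = AA G z.c (nR z) z.c (nR z) - E * qq z := fun z => by
    unfold Flag.Th qq nR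
    simp
  have hn0 : (0 : ℝ) ≤ cV V := by unfold cV; positivity
  have hEabs : |E| ≤ cV V + 2 := by rw [abs_of_neg hE0]; linarith
  have hqq0 : ∀ z : St V s, 0 ≤ qq z := fun z => by unfold qq; positivity
  have htot0 : ∀ z : St V s, 0 ≤ tot z := fun z => by unfold tot; positivity
  have hE2 : 0 < E ^ 2 := by nlinarith
  obtain ⟨Q0, hQ1, hQ2, hQ3⟩ : ∃ Q0 : ℝ, 1 ≤ Q0 ∧ K ^ 2 * cV V ≤ Q0 ∧ cV V ^ 3 / E ^ 2 ≤ Q0 :=
    ⟨max 1 (max (K ^ 2 * cV V) (cV V ^ 3 / E ^ 2)), le_max_left _ _,
      le_trans (le_max_left _ _) (le_max_right _ _), le_trans (le_max_right _ _) (le_max_right _ _)⟩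
  obtain ⟨c0, hc0, hpos⟩ := hf.pos Q0
  have hf₀ : 0 < min ε c0 := lt_min hε hc0
  have hconst : ∀ z : St V s, gen G (fun _ => (0 : ℝ)) z = 0 := fun z => by
    unfold gen; simp
  have key := min_principle (G := G) f (fun _ => 0) qq
    {z | 1 ≤ tot z ∧ f z < ε ∧ Q0 < qq z} (min ε c0) Q0 (-E) hf.nonneg hf.harm hf₀.le
    (by linarith) (by linarith) (fun z hz => hz.1)
    (fun z _ => (hconst z).le) (fun z _ => by norm_num)
    (fun z hz w hw hout => by
      left
      refine ⟨?_, by norm_num⟩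
      have h1 : 1 ≤ tot (step G z w) := one_le_step_tot z w hw
      by_cases h2 : f (step G z w) < ε
      · have h3 : ¬ Q0 < qq (step G z w) := fun h => hout ⟨h1, h2, h⟩
        exact le_trans (min_le_right _ _) (hpos _ h1 (not_lt.mp h3))
      · exact le_trans (min_le_left _ _) (not_lt.mp h2))
    (fun z hz => hz.2.2.le)
    (fun z hz => by
      obtain ⟨h1, h2, h3⟩ := hz
      have ht := tot_sq_le z
      have hq0 : 0 < qq z := by linarith
      have hKt : K * tot z ≤ qq z := by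
        apply le_of_sq_le_sq _ hq0.le
        have h4 : K ^ 2 * tot z ^ 2 ≤ K ^ 2 * (cV V * qq z) :=
          mul_le_mul_of_nonneg_left ht (by positivity)
        nlinarith [mul_le_mul_of_nonneg_right (le_trans hQ2 h3.le) hq0.le]
      have hnt : cV V * tot z ≤ -E * qq z := by
        apply le_of_sq_le_sq _ (by nlinarith)
        have h4 : cV V ^ 2 * tot z ^ 2 ≤ cV V ^ 2 * (cV V * qq z) :=
          mul_le_mul_of_nonneg_left ht (by positivity)
        have h5 : cV V ^ 3 ≤ qq z * E ^ 2 := by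
          rw [div_le_iff₀ hE2] at hQ3
          nlinarith
        nlinarith [mul_le_mul_of_nonneg_right h5 hq0.le]
      have henv := hneg z (hReg z h1) h2 (by rw [ho2]; exact hKt)
      have hge := F.env_ge_Th E τ hEabs hτ hτ0 z (fun v hv => absurd hv (hI v))
      rw [hTh] at hge
      have hgq := gen_qq_le (G := G) z
      nlinarith)
    (fun z _ w _ _ => hqq0 _)
  obtain ⟨z, hz1, hz2⟩ := hf.bad (min ε c0 / 2) (by linarith)
  by_cases h2 : f z < ε
  · by_cases h3 : Q0 < qq z
    · have := key z ⟨hz1, h2, h3⟩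
      simp only [sub_zero, mul_one] at this
      linarith
    · have := hpos z hz1 (not_lt.mp h3)
      have h4 := min_le_right ε c0
      linarith
  · have h4 := min_le_left ε c0
    linarith [not_lt.mp h2]

end UC
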