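import Mathlib

/-!
# MP_747d65_pr : strict traps
-/

namespace UC
open Finset
variable {V : Type} [Fintype V] [DecidableEq V]

/-- a strict trap: `U` carries a positive weight `x` with eigenvalue `E > 0`, adjacent vertices of `U`
have the same colour, and around every vertex outside `U` which has a neighbour in `U` each colour
has less than half of the weight. -/
structure Trap (G : SimpleGraph V) [DecidableRel G.Adj] {s : ℕ} (E : ℝ) (U : Finset V)
    (σ : V → Fin s) (x : V → ℝ) : Prop where
  E_pos : 0 < E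
  nonempty : U.Nonempty
  proper : ∃ v, v ∉ U
  pos : ∀ v ∈ U, 0 < x v
  zero : ∀ v, v ∉ U → x v = 0
  eig : ∀ v ∈ U, ∑ u, (if G.Adj v u then x u else 0) = E * x v
  same : ∀ u ∈ U, ∀ v ∈ U, G.Adj u v → σ u = σ v
  strict : ∀ v, v ∉ U → (∃ u ∈ U, G.Adj v u) → ∀ b : Fin s,
    2 * ∑ u, (if G.Adj v u ∧ σ u = b then x u else 0) < ∑ u, (if G.Adj v u then x u else 0)

end UC
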