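import Pool.Agent.helper25.UC.M2
import Pool.Agent.helper25.UC.X5

/-!
# Z1 : truncation of a flag; all flags with zero rates have `Inv`

**truncate.**  `F : Flag G s (k+1)`.  `F⁻`: `I⁻ = {v ∈ I : e_j v ≠ 0 for some j = i.castSucc}`,
`σ⁻ = σ`, `e⁻_j = e_(j.castSucc)`, `E⁻_j = E_(j.castSucc)`.
* `supp`, `orth` clear.  `cover`: for `v ∈ I⁻` let `j0` be the index from `cover` of `F`
  (`0 < e_{j0} v`, `e_i v = 0` for `i < j0`); some `e_(j.castSucc) v ≠ 0`, so `j0 ≤ j.castSucc`, so
  `j0 ≠ last`, `j0 = j'.castSucc`.
* `eig`: restriction.  `anti, half, nonneg`: restriction.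
* `bal` at `v ∉ I⁻`, colour `b`.  If `v ∉ I`: `bal` of `F`; if its first nonzero index is `last`
  then all the others vanish.  If `v ∈ I`, then all `e_(j.castSucc) v = 0` and by `eig`
  `Lf σ (σ v) v e_j = E_j e_j v = 0` for `j = castSucc`.  If `b = σ v`: all are zero.  Let
  `b ≠ σ v`, and suppose not all `Lf σ b v e_j` (`j < k`) vanish; let `j1` be the first nonzero index.
  Put `x_η = ∑_{j<k} η^j e_j` for small `η > 0`: `x_η ≥ 0` everywhere (on `I⁻` the first nonzero
  entry is positive, elsewhere `0`).  For every `u`: `ε(b,σ u) + ε(σ v, σ u) ≤ 0` since `b ≠ σ v`.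
  So `Lf σ b v x_η + Lf σ (σ v) v x_η ≤ 0`, and the second is `0`.  The sign of
  `Lf σ b v x_η = ∑ η^j Lf σ b v e_j` for small `η` is the sign of its first nonzero coefficient.  So
  `Lf σ b v e_{j1} < 0`.

**inv_zero.**  Hypothesis: `Ext F0 τ f E` fails for all flags `F0` of length `0` and all
`E ∈ (0, n0+2]`.  Claim: every flag of length `k+1` with all `E_j = 0` has `Inv`.
Induction on `k`: `F` extends `F⁻` (`truncate`).  `k = 0`: `F⁻` has length `0`:
`inv_of_extends` (`F.E last = 0`).  `k+1`: `Inv F⁻` by induction, so by `not_ext`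
`Ext F⁻ τ f E` fails for all `E > 0 = E⁻_last`; `inv_of_extends`.
-/

namespace UC
open Finset
variable {V : Type} [Fintype V] [DecidableEq V] {s k : ℕ}
variable {G : SimpleGraph V} [DecidableRel G.Adj]

open scoped Topology in
theorem z1_lex {k : ℕ} (t : Fin k → ℝ) (j0 : Fin k) (hpos : 0 < t j0) (hz : ∀ i, i < j0 → t i = 0) :
    ∀ᶠ η in 𝓝[>] (0 : ℝ), 0 < ∑ j : Fin k, η ^ (j : ℕ) * t j := by
  classical
  set g : ℝ → ℝ := fun η => ∑ j : Fin k, if j < j0 then 0 else η ^ ((j : ℕ) - (j0 : ℕ)) * t j with hg
  have hcont : Continuous g := by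
    rw [hg]
    refine continuous_finsetSum _ fun j _ => ?_
    split_ifs
    · exact continuous_const
    · exact (continuous_pow _).mul continuous_const
  have hg0 : g 0 = t j0 := by
    rw [hg]
    simp only
    rw [Finset.sum_eq_single j0]
    · simp
    · intro j _ hj
      split_ifs with h
      · rfl
      · have h1 : j0 < j := lt_of_le_of_ne (not_lt.1 h) (Ne.symm hj)
        have h2 : (j : ℕ) - (j0 : ℕ) ≠ 0 := by
          have : (j0 : ℕ) < (j : ℕ) := h1
          omega
        rw [zero_pow h2, zero_mul]
    · intro h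
      exact absurd (Finset.mem_univ _) h
  have h1 : ∀ᶠ η in 𝓝 (0 : ℝ), 0 < g η :=
    (hcont.tendsto 0).eventually_const_lt (by rw [hg0]; exact hpos)
  filter_upwards [self_mem_nhdsWithin, h1.filter_mono nhdsWithin_le_nhds] with η h2 h3
  have h2' : (0 : ℝ) < η := h2
  have h4 : ∑ j : Fin k, η ^ (j : ℕ) * t j = η ^ (j0 : ℕ) * g η := by
    rw [hg]
    simp only
    rw [Finset.mul_sum]
    refine Finset.sum_congr rfl fun j _ => ?_
    split_ifs with h
    · rw [hz j h, mul_zero, mul_zero]
    · have h5 : (j0 : ℕ) ≤ (j : ℕ) := not_lt.1 h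
      rw [← mul_assoc, ← pow_add, Nat.add_sub_cancel' h5]
  rw [h4]
  exact mul_pos (pow_pos h2' _) h3

theorem z1_eps {a b c : Fin s} (h : a ≠ b) : eps a c + eps b c ≤ 0 := by
  unfold eps
  split_ifs with h1 h2
  · exact absurd (h1.trans h2.symm) h
  all_goals norm_num

open scoped Topology in
theorem truncate (F : Flag G s (k + 1)) : ∃ F' : Flag G s k, F'.Extends F := by
  classical
  have hcs : ∀ j0 : Fin (k + 1), ∀ j : Fin k, j0 ≤ j.castSucc → ∃ j' : Fin k, j'.castSucc = j0 := by
    intro j0 j h
    rw [Fin.exists_castSucc_eq]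
    exact (lt_of_le_of_lt h (Fin.castSucc_lt_last j)).ne
  refine ⟨{
    I := F.I.filter fun v => ∃ j : Fin k, F.e j.castSucc v ≠ 0
    σ := F.σ
    e := fun j => F.e j.castSucc
    E := fun j => F.E j.castSucc
    supp := ?_
    orth := ?_
    cover := ?_
    eig := ?_
    bal := ?_
    anti := ?_
    half := ?_
    nonneg := ?_ }, ?_⟩
  · intro j v hv
    rw [Finset.mem_filter, not_and] at hv
    by_cases h : v ∈ F.I
    · have := hv h
      push Not at this
      exact this j
    · exact F.supp _ v h
  · intro i j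
    rw [F.orth]
    simp
  · intro v hv
    rw [Finset.mem_filter] at hv
    obtain ⟨hvI, j, hj⟩ := hv
    obtain ⟨j0, h1, h2⟩ := F.cover v hvI
    obtain ⟨j', rfl⟩ := hcs j0 j (not_lt.1 fun h => hj (h2 _ h))
    exact ⟨j', h1, fun i hi => h2 _ (by simpa using hi)⟩
  · intro j v hv
    rw [Finset.mem_filter] at hv
    exact F.eig _ v hv.1
  · intro v hv b
    rw [Finset.mem_filter, not_and] at hv
    by_cases hvI : v ∈ F.I
    · have h0 := hv hvI
      push Not at h0
      have h1 : ∀ j : Fin k, Lf G F.σ (F.σ v) v (F.e j.castSucc) = 0 := by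
        intro j
        rw [F.eig _ v hvI, h0 j, mul_zero]
      by_cases hb : b = F.σ v
      · left
        rw [hb]
        exact h1
      · by_cases hall : ∀ j : Fin k, Lf G F.σ b v (F.e j.castSucc) = 0
        · exact Or.inl hall
        · right
          have hne : (Finset.univ.filter fun j : Fin k =>
              Lf G F.σ b v (F.e j.castSucc) ≠ 0).Nonempty := by
            push Not at hall
            obtain ⟨j, hj⟩ := hall
            exact ⟨j, by simpa using hj⟩
          obtain ⟨j1, hj1⟩ : ∃ j1, j1 = (Finset.univ.filter fun j : Fin k =>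
              Lf G F.σ b v (F.e j.castSucc) ≠ 0).min' hne := ⟨_, rfl⟩
          have hj1m : Lf G F.σ b v (F.e j1.castSucc) ≠ 0 := by
            have := Finset.min'_mem _ hne
            rw [← hj1] at this
            simpa using this
          have hj1l : ∀ i, i < j1 → Lf G F.σ b v (F.e i.castSucc) = 0 := by
            intro i hi
            by_contra hc
            have h5 := Finset.min'_le _ i (by simpa using hc :
              i ∈ Finset.univ.filter fun j : Fin k => Lf G F.σ b v (F.e j.castSucc) ≠ 0)
            rw [← hj1] at h5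
            exact absurd hi (not_lt.2 h5)
          refine ⟨j1, lt_of_le_of_ne (not_lt.1 fun hpos => ?_) hj1m, hj1l⟩
          have hA := z1_lex (fun j => Lf G F.σ b v (F.e j.castSucc)) j1 hpos hj1l
          have hB : ∀ u : V, ∀ᶠ η in 𝓝[>] (0 : ℝ),
              0 ≤ ∑ j : Fin k, η ^ (j : ℕ) * F.e j.castSucc u := by
            intro u
            by_cases hu : u ∈ F.I ∧ ∃ j : Fin k, F.e j.castSucc u ≠ 0
            · obtain ⟨huI, j, hj⟩ := hu
              obtain ⟨j0, h6, h7⟩ := F.cover u huI
              obtain ⟨j', rfl⟩ := hcs j0 j (not_lt.1 fun h => hj (h7 _ h))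
              have h8 := z1_lex (fun j => F.e j.castSucc u) j' h6
                (fun i hi => h7 _ (by simpa using hi))
              exact h8.mono fun η h => h.le
            · have h9 : ∀ j : Fin k, F.e j.castSucc u = 0 := by
                intro j
                by_cases h : u ∈ F.I
                · by_contra hc
                  exact hu ⟨h, j, hc⟩
                · exact F.supp _ u h
              refine Filter.Eventually.of_forall fun η => ?_
              simp [h9]
          have hB' := Filter.eventually_all.2 hB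
          obtain ⟨η, h10, h11⟩ := (hA.and hB').exists
          rw [← Lf_sum (G := G) F.σ b v (fun j : Fin k => η ^ (j : ℕ))
            (fun j => F.e j.castSucc)] at h10
          have h12 : Lf G F.σ (F.σ v) v
              (fun u => ∑ j : Fin k, η ^ (j : ℕ) * F.e j.castSucc u) = 0 := by
            rw [Lf_sum (G := G) F.σ (F.σ v) v (fun j : Fin k => η ^ (j : ℕ))
              (fun j => F.e j.castSucc)]
            exact Finset.sum_eq_zero fun j _ => by rw [h1 j, mul_zero]
          have h13 : Lf G F.σ b v (fun u => ∑ j : Fin k, η ^ (j : ℕ) * F.e j.castSucc u) +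
              Lf G F.σ (F.σ v) v
              (fun u => ∑ j : Fin k, η ^ (j : ℕ) * F.e j.castSucc u) ≤ 0 := by
            unfold Lf
            rw [← Finset.sum_add_distrib]
            refine Finset.sum_nonpos fun u _ => ?_
            split_ifs with hadj
            · have h14 := z1_eps (s := s) (c := F.σ u) hb
              have h15 := h11 u
              rw [← add_mul]
              exact mul_nonpos_of_nonpos_of_nonneg h14 h15
            · simp
          linarith
    · rcases F.bal v hvI b with h | ⟨j0, h1, h2⟩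
      · exact Or.inl fun j => h _
      · by_cases hl : j0 = Fin.last k
        · left
          intro j
          exact h2 _ (by rw [hl]; exact Fin.castSucc_lt_last j)
        · right
          obtain ⟨j', rfl⟩ := Fin.exists_castSucc_eq.2 hl
          exact ⟨j', h1, fun i hi => h2 _ (by simpa using hi)⟩
  · intro i j h
    exact F.anti _ _ (by simpa using h)
  · intro i j
    exact F.half _ _
  · intro j
    exact F.nonneg _
  · exact ⟨Finset.filter_subset _ _, fun _ _ => rfl, fun _ => rfl, fun _ => rfl⟩

theorem inv_zero {f : St V s → ℝ} (hf : BadF G f) (τ : ℝ) (hτ : 0 < τ) (hτ0 : τ ≤ tau0 V)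
    (h0 : ∀ F0 : Flag G s 0, ∀ E, 0 < E → E ≤ cV V + 2 → ¬ Ext F0 τ f E) :
    ∀ (k : ℕ) (F : Flag G s (k + 1)), (∀ j, F.E j = 0) → Inv F τ f := by
  have hc : (0 : ℝ) ≤ cV V := Nat.cast_nonneg _
  intro k
  induction k with
  | zero =>
    intro F hF
    obtain ⟨F', hext⟩ := truncate F
    refine inv_of_extends F' F τ hτ hτ0 hext (by rw [hF]; linarith) fun E hE hE2 => ?_
    rw [hF] at hE
    exact h0 F' E hE hE2
  | succ k ih =>
    intro F hF
    obtain ⟨F', hext⟩ := truncate F
    have hF' : ∀ j, F'.E j = 0 := fun j => by rw [← hext.E_eq, hF]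
    refine inv_of_extends F' F τ hτ hτ0 hext (by rw [hF]; linarith) fun E hE hE2 => ?_
    rw [hF] at hE
    exact not_ext hf F' τ hτ hτ0 (ih F' hF') E (by rw [hF']; exact hE) hE2

end UC
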