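import Pool.Agent.helper25.UC.B1
import Pool.Agent.helper25.UC.B2
import Pool.Agent.helper25.UC.B3
import Pool.Agent.helper25.UC.X4

/-!
# Z2 : a sequence of nearly critical states (rate `0`) follows a flag with zero rates

`F0` is a flag of length `0` (no constraints; `Adm c y` means `y ≥ 0`; `Th F0 0 c y = AA c y c y`).
`Follow F z`: `z_i ∈ Reg_F δ δ` eventually, for every `δ > 0`.

**mx0_facts** (for a maximiser `(c,y)` of `F0`, `E = 0`, at any `z` with `tot ≥ 1`;
`d = √dsq`; colour of `z` at `v`: `z.c v`):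
(a) `y_v > 0`: `Lf c (c v) v y = (y_v - ε(z.c v, c v) n_v)/τ` (`stat` of B3 for `k = 0`);
(b) `y_v = 0`, any colour `b`: `Lf c b v y ≤ - ε(z.c v,b) n_v/τ`: the configuration with the value
    `t > 0` and the colour `b` at `v` is admissible, its `val` differs by
    `2t Lf c b v y - ((n_v - ε t)² - n_v²)/τ = 2t Lf + 2tεn_v/τ - t²/τ ≤ 0`; divide by `t → 0`.
(c) for `b ≠ b'`: `Lf c b v y + Lf c b' v y ≤ 0` (`y ≥ 0`, `ε(b,·)+ε(b',·) ≤ 0`).
(d) `|ε-difference|`: for every `u`: `|y_u - n_u| ≤ d` if the colours agree, `y_u + n_u ≤ d`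
    otherwise.  So `|Lf c b v y - Lf z.c b v n| ≤ n0 d` for all `v, b`.
(e) hence for all `v, b`: `Lf c b v y ≤ d/τ`: if `y_v = 0` by (b) (`-ε n_v ≤ n_v ≤ d`); if `y_v > 0`,
    `b = c v` by (a); `b ≠ c v` by (c) and (a) (`-Lf c (c v) v y ≤ (n_v - y_v)/τ ≤ d/τ` or the
    right side is negative).
-/

namespace UC
open Finset Filter
variable {V : Type} [Fintype V] [DecidableEq V] {s k : ℕ}
variable {G : SimpleGraph V} [DecidableRel G.Adj]

/-- the sequence follows the flag -/
def Follow (F : Flag G s k) (z : ℕ → St V s) : Prop :=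
  ∀ δ > 0, ∀ᶠ i in atTop, F.Reg δ δ (z i)

theorem z2_I (F0 : Flag G s 0) (v : V) : v ∉ F0.I := fun hv => by
  obtain ⟨j, -⟩ := F0.cover v hv
  exact j.elim0

/-- the field at `v` does not see the colour of `v` -/
theorem z2_Lf_update (c : V → Fin s) (a b : Fin s) (v : V) (y : V → ℝ) :
    Lf G (Function.update c v b) a v y = Lf G c a v y := by
  unfold Lf
  refine Finset.sum_congr rfl fun u _ => ?_
  by_cases h : G.Adj v u
  · rw [if_pos h, if_pos h, Function.update_of_ne (G.ne_of_adj h).symm]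
  · rw [if_neg h, if_neg h]

/-- a neutral change of the colour of an empty vertex -/
theorem z2_val_update (F0 : Flag G s 0) (τ : ℝ) (z : St V s) (c : V → Fin s) (y : V → ℝ) (v : V)
    (hv : y v = 0) (b : Fin s) :
    F0.val 0 τ z (Function.update c v b) y = F0.val 0 τ z c y := by
  have h1 : AA G (Function.update c v b) y (Function.update c v b) y = AA G c y c y := by
    unfold AA
    refine Finset.sum_congr rfl fun u _ => Finset.sum_congr rfl fun w _ => ?_
    by_cases hu : u = v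
    · subst hu
      rw [hv]
      simp
    · by_cases hw : w = v
      · subst hw
        rw [hv]
        simp
      · rw [Function.update_of_ne hu, Function.update_of_ne hw]
  have h2 : dsq z.c (nR z) (Function.update c v b) y = dsq z.c (nR z) c y := by
    unfold dsq
    refine Finset.sum_congr rfl fun u _ => ?_
    by_cases hu : u = v
    · subst hu
      rw [hv]
      simp
    · rw [Function.update_of_ne hu]
  unfold Flag.val Flag.Th
  rw [h1, h2]

theorem mx0_stat (F0 : Flag G s 0) (τ : ℝ) (hτ : 0 < τ) (hτ0 : τ ≤ tau0 V) (z : St V s)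
    (hz : 1 ≤ tot z) (c : V → Fin s) (y : V → ℝ) (h : F0.IsMx 0 τ z c y) (v : V)
    (hv : 0 < y v) : Lf G c (c v) v y = (y v - eps (z.c v) (c v) * (z.n v : ℝ)) / τ := by
  have h1 := b3_stat F0 0 τ z c y h v (Or.inr hv)
  rw [Finset.univ_eq_empty, Finset.sum_empty, zero_mul, sub_zero, sub_zero] at h1
  exact h1

theorem mx0_zero (F0 : Flag G s 0) (τ : ℝ) (hτ : 0 < τ) (hτ0 : τ ≤ tau0 V) (z : St V s)
    (c : V → Fin s) (y : V → ℝ) (h : F0.IsMx 0 τ z c y) (v : V)
    (hv : y v = 0) (b : Fin s) : Lf G c b v y ≤ -(eps (z.c v) b * (z.n v : ℝ)) / τ := by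
  by_contra hcon
  push Not at hcon
  set c' : V → Fin s := Function.update c v b with hc'
  have hcv : c' v = b := by rw [hc', Function.update_self]
  set α : ℝ := Lf G c b v y + eps (z.c v) b * (z.n v : ℝ) / τ with hα
  have hα0 : 0 < α := by
    rw [neg_div] at hcon
    linarith
  have hadm : F0.Adm c' y := ⟨fun u hu => absurd hu (z2_I F0 u), h.1.2⟩
  have hτα : 0 < τ * α := mul_pos hτ hα0
  have hadm' := b3_adm_upd F0 hadm v (t := τ * α) (Or.inr (by rw [hv]; linarith))
  have h1 := h.2 _ _ hadm'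
  rw [b3_val_upd, hcv, z2_val_update F0 τ z c y v hv b, hc', z2_Lf_update,
    Finset.univ_eq_empty, Finset.sum_empty, Finset.sum_empty, hv] at h1
  have h2 : 2 * (τ * α) * (Lf G c b v y - 0 * 0 - 0 - (0 - eps (z.c v) b * (z.n v : ℝ)) / τ) +
      (τ * α) ^ 2 * (-0 - 0 - 1 / τ) = τ * α ^ 2 := by
    have h3 : Lf G c b v y - 0 * 0 - 0 - (0 - eps (z.c v) b * (z.n v : ℝ)) / τ = α := by
      rw [hα]; ring
    rw [h3]
    field_simp
    ring
  have h4 : 0 < τ * α ^ 2 := by positivity
  linarith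

theorem z2_eps_add (b b' a : Fin s) (hb : b ≠ b') : eps b a + eps b' a ≤ 0 := by
  unfold eps
  by_cases h1 : b = a
  · have h2 : b' ≠ a := fun h => hb (h1.trans h.symm)
    rw [if_pos h1, if_neg h2]
    norm_num
  · rw [if_neg h1]
    split_ifs <;> norm_num

theorem Lf_add_le_zero (c : V → Fin s) (y : V → ℝ) (hy : ∀ v, 0 ≤ y v) (v : V) (b b' : Fin s)
    (hb : b ≠ b') : Lf G c b v y + Lf G c b' v y ≤ 0 := by
  unfold Lf
  rw [← Finset.sum_add_distrib]
  refine Finset.sum_nonpos fun u _ => ?_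
  by_cases h : G.Adj v u
  · rw [if_pos h, if_pos h, ← add_mul]
    exact mul_nonpos_of_nonpos_of_nonneg (z2_eps_add b b' (c u) hb) (hy u)
  · rw [if_neg h, if_neg h, add_zero]

theorem z2_term (z : St V s) (c : V → Fin s) (y : V → ℝ) (hy : ∀ v, 0 ≤ y v) (u : V)
    (b : Fin s) :
    |eps b (c u) * y u - eps b (z.c u) * nR z u| ≤ |nR z u - eps (z.c u) (c u) * y u| := by
  have h0 : 0 ≤ nR z u := Nat.cast_nonneg _
  have h1 := hy u
  unfold eps
  by_cases e1 : z.c u = c u
  · rw [e1, if_pos rfl]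
    split_ifs
    · rw [one_mul, one_mul, abs_sub_comm]
    · rw [one_mul, show -1 * y u - -1 * nR z u = nR z u - y u by ring]
  · rw [if_neg e1]
    have h2 : |nR z u - -1 * y u| = nR z u + y u := by
      rw [show nR z u - -1 * y u = nR z u + y u by ring]
      exact abs_of_nonneg (by linarith)
    rw [h2, abs_le]
    split_ifs <;> constructor <;> linarith

theorem z2_term_le (z : St V s) (c : V → Fin s) (y : V → ℝ) (u : V) :
    |nR z u - eps (z.c u) (c u) * y u| ≤ Real.sqrt (dsq z.c (nR z) c y) := by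
  refine Real.abs_le_sqrt ?_
  exact Finset.single_le_sum (f := fun v => (nR z v - eps (z.c v) (c v) * y v) ^ 2)
    (fun v _ => sq_nonneg _) (Finset.mem_univ u)

theorem Lf_sub_le (z : St V s) (c : V → Fin s) (y : V → ℝ) (hy : ∀ v, 0 ≤ y v) (v : V)
    (b : Fin s) :
    |Lf G c b v y - Lf G z.c b v (nR z)| ≤ cV V * Real.sqrt (dsq z.c (nR z) c y) := by
  unfold Lf
  rw [← Finset.sum_sub_distrib]
  refine (Finset.abs_sum_le_sum_abs _ _).trans ?_
  have h1 : ∀ u ∈ (Finset.univ : Finset V),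
      |(if G.Adj v u then eps b (c u) * y u else 0) -
        (if G.Adj v u then eps b (z.c u) * nR z u else 0)| ≤
        Real.sqrt (dsq z.c (nR z) c y) := by
    intro u _
    by_cases h : G.Adj v u
    · rw [if_pos h, if_pos h]
      exact (z2_term z c y hy u b).trans (z2_term_le z c y u)
    · rw [if_neg h, if_neg h, sub_zero, abs_zero]
      exact Real.sqrt_nonneg _
  refine (Finset.sum_le_sum h1).trans ?_
  rw [Finset.sum_const, nsmul_eq_mul, Finset.card_univ]
  exact le_rfl

/-- every field of a maximiser is at most `d/τ` -/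
theorem mx0_field_le (F0 : Flag G s 0) (τ : ℝ) (hτ : 0 < τ) (hτ0 : τ ≤ tau0 V) (z : St V s)
    (hz : 1 ≤ tot z) (c : V → Fin s) (y : V → ℝ) (h : F0.IsMx 0 τ z c y) (v : V) (b : Fin s) :
    Lf G c b v y ≤ Real.sqrt (dsq z.c (nR z) c y) / τ := by
  have hy : ∀ u, 0 ≤ y u := fun u => h.1.2 u (z2_I F0 u)
  have ht := z2_term_le z c y v
  have hn : (0 : ℝ) ≤ (z.n v : ℝ) := Nat.cast_nonneg _
  rcases (hy v).eq_or_lt with h0 | h0
  · refine (mx0_zero F0 τ hτ hτ0 z c y h v h0.symm b).trans ?_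
    refine div_le_div_of_nonneg_right ?_ hτ.le
    rw [← h0, mul_zero, sub_zero] at ht
    refine le_trans ?_ ht
    unfold nR
    rw [abs_of_nonneg hn]
    unfold eps
    split_ifs <;> linarith
  · have h1 := mx0_stat F0 τ hτ hτ0 z hz c y h v h0
    have h2 : |y v - eps (z.c v) (c v) * (z.n v : ℝ)| ≤ Real.sqrt (dsq z.c (nR z) c y) := by
      refine le_trans (le_of_eq ?_) ht
      unfold nR eps
      split_ifs
      · rw [one_mul, one_mul, abs_sub_comm]
      · rw [show y v - -1 * (z.n v : ℝ) = (z.n v : ℝ) - -1 * y v by ring]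
    have h3 := abs_le.1 h2
    by_cases hb : b = c v
    · rw [hb, h1]
      exact div_le_div_of_nonneg_right h3.2 hτ.le
    · have h4 := Lf_add_le_zero (G := G) c y hy v b (c v) hb
      have h5 : Lf G c b v y ≤ -(y v - eps (z.c v) (c v) * (z.n v : ℝ)) / τ := by
        rw [neg_div, ← h1]
        linarith
      refine h5.trans (div_le_div_of_nonneg_right ?_ hτ.le)
      linarith [h3.1]

end UC
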