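import Pool.Agent.helper25.UC.Z2

/-!
# Z2B : a sequence of nearly critical states (rate `0`) follows a flag with zero rates

See the stub `Pool/Agent/helper25/UC/Z2B.lean` for the proof in words.
-/

namespace UC
open Finset Filter
variable {V : Type} [Fintype V] [DecidableEq V] {s k : ℕ}
variable {G : SimpleGraph V} [DecidableRel G.Adj]

/-- limit data of a sequence of nearly critical states -/
structure ZLim (F0 : Flag G s 0) (F : Flag G s k) (τ : ℝ) (zc c0 : V → Fin s) (e : V → ℝ)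
    (z : ℕ → St V s) (y : ℕ → V → ℝ) : Prop where
  tot1 : ∀ n, 1 ≤ tot (z n)
  fol : Follow F z
  col : ∀ n, (z n).c = zc
  mx : ∀ n, F0.IsMx 0 τ (z n) c0 (y n)
  R_pos : ∀ n, 0 < F.o2 (nR (z n))
  d_lim : Tendsto (fun n => Real.sqrt (dsq (z n).c (nR (z n)) c0 (y n)) /
    Real.sqrt (F.o2 (nR (z n)))) atTop (nhds 0)
  t_lim : Tendsto (fun n => tot (z n) / F.o2 (nR (z n))) atTop (nhds 0)
  u_lim : ∀ v, Tendsto (fun n => F.rho (nR (z n)) v / Real.sqrt (F.o2 (nR (z n)))) atTop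
    (nhds (e v))

section
variable {F0 : Flag G s 0} {F : Flag G s k} {τ : ℝ} {zc c0 : V → Fin s} {e : V → ℝ}
  {z : ℕ → St V s} {y : ℕ → V → ℝ}

theorem ZLim.Rp (h : ZLim F0 F τ zc c0 e z y) (n : ℕ) : 0 < Real.sqrt (F.o2 (nR (z n))) :=
  Real.sqrt_pos.2 (h.R_pos n)

theorem ZLim.y_nonneg (h : ZLim F0 F τ zc c0 e z y) (n : ℕ) (v : V) : 0 ≤ y n v := by
  refine (h.mx n).1.2 v fun hv => ?_
  obtain ⟨j, -⟩ := F0.cover v hv
  exact j.elim0

theorem ZLim.norm (h : ZLim F0 F τ zc c0 e z y) : ∑ v, e v * e v = 1 := by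
  have h1 : Tendsto (fun n => ∑ v, (F.rho (nR (z n)) v / Real.sqrt (F.o2 (nR (z n)))) *
      (F.rho (nR (z n)) v / Real.sqrt (F.o2 (nR (z n))))) atTop (nhds (∑ v, e v * e v)) :=
    tendsto_finsetSum _ (fun v _ => (h.u_lim v).mul (h.u_lim v))
  have h2 : ∀ n, ∑ v, (F.rho (nR (z n)) v / Real.sqrt (F.o2 (nR (z n)))) *
      (F.rho (nR (z n)) v / Real.sqrt (F.o2 (nR (z n)))) = 1 := fun n => by
    have hR2 : Real.sqrt (F.o2 (nR (z n))) * Real.sqrt (F.o2 (nR (z n))) = F.o2 (nR (z n)) :=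
      Real.mul_self_sqrt (h.R_pos n).le
    have h3 : ∑ v, (F.rho (nR (z n)) v / Real.sqrt (F.o2 (nR (z n)))) *
      (F.rho (nR (z n)) v / Real.sqrt (F.o2 (nR (z n)))) =
        (∑ v, F.rho (nR (z n)) v ^ 2) / F.o2 (nR (z n)) := by
      rw [Finset.sum_div]
      refine Finset.sum_congr rfl (fun v _ => ?_)
      rw [div_mul_div_comm, hR2, pow_two]
    rw [h3, ← F.o2_eq, div_self (h.R_pos n).ne']
  have h4 : Tendsto (fun _ : ℕ => (1 : ℝ)) atTop (nhds (∑ v, e v * e v)) := h1.congr h2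
  exact tendsto_nhds_unique h4 tendsto_const_nhds

theorem ZLim.orth (h : ZLim F0 F τ zc c0 e z y) (j : Fin k) : ∑ v, F.e j v * e v = 0 := by
  have h1 : Tendsto (fun n => ∑ v, F.e j v * (F.rho (nR (z n)) v / Real.sqrt (F.o2 (nR (z n)))))
      atTop (nhds (∑ v, F.e j v * e v)) :=
    tendsto_finsetSum _ (fun v _ => (h.u_lim v).const_mul _)
  have h2 : ∀ n, ∑ v, F.e j v * (F.rho (nR (z n)) v / Real.sqrt (F.o2 (nR (z n)))) = 0 :=
    fun n => by
    have h3 : ∑ v, F.e j v * (F.rho (nR (z n)) v / Real.sqrt (F.o2 (nR (z n)))) =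
        F.a j (F.rho (nR (z n))) / Real.sqrt (F.o2 (nR (z n))) := by
      unfold Flag.a
      rw [Finset.sum_div]
      refine Finset.sum_congr rfl (fun v _ => ?_)
      ring
    rw [h3, F.a_rho, zero_div]
  have h4 : Tendsto (fun _ : ℕ => (0 : ℝ)) atTop (nhds (∑ v, F.e j v * e v)) := h1.congr h2
  exact tendsto_nhds_unique h4 tendsto_const_nhds

theorem ZLim.nonneg (h : ZLim F0 F τ zc c0 e z y) (v : V) (hv : v ∉ F.I) : 0 ≤ e v := by
  refine ge_of_tendsto' (h.u_lim v) (fun n => ?_)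
  rw [F.rho_off _ v hv]
  exact div_nonneg (Nat.cast_nonneg _) (Real.sqrt_nonneg _)

theorem ZLim.color (h : ZLim F0 F τ zc c0 e z y) (v : V) (hv : v ∈ F.I) : zc v = F.σ v := by
  obtain ⟨n, hn⟩ := (h.fol 1 one_pos).exists
  rw [← h.col n]
  exact (hn.2.1 v hv).1

/-- the field of the limit direction -/
theorem ZLim.Lf_lim (h : ZLim F0 F τ zc c0 e z y) (b : Fin s) (v : V) :
    Tendsto (fun n => Lf G zc b v (F.rho (nR (z n))) / Real.sqrt (F.o2 (nR (z n)))) atTop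
      (nhds (Lf G zc b v e)) := by
  refine (tendsto_Lf (G := G) zc b v h.u_lim).congr fun n => ?_
  unfold Lf
  rw [Finset.sum_div]
  refine Finset.sum_congr rfl (fun u _ => ?_)
  split
  · ring
  · simp

/-- `n v` is larger than `d` -/
theorem ZLim.d_lt (h : ZLim F0 F τ zc c0 e z y) (v : V) (hv : v ∈ F.I ∨ 0 < e v) :
    ∀ᶠ n in atTop, Real.sqrt (dsq (z n).c (nR (z n)) c0 (y n)) < nR (z n) v := by
  by_cases hI : v ∈ F.I
  · obtain ⟨δ0, hδ0, c, hc, C, hC, hf⟩ := F.reg_facts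
    have hδ : 0 < min δ0 c := lt_min hδ0 hc
    have h2 : ∀ᶠ n in atTop, Real.sqrt (dsq (z n).c (nR (z n)) c0 (y n)) /
        Real.sqrt (F.o2 (nR (z n))) < 1 := h.d_lim.eventually (gt_mem_nhds one_pos)
    filter_upwards [h.fol _ hδ, h2] with n hn hn2
    have hR := h.Rp n
    rw [div_lt_one hR] at hn2
    obtain ⟨j, hj, -⟩ := (hf _ _ hδ.le (min_le_left _ _) hδ.le (min_le_left _ _) _ hn).low v hI
    have ha := hn.2.2.1 j
    have h5 : Real.sqrt (F.o2 (nR (z n))) ≤ min δ0 c * F.a j (nR (z n)) := by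
      apply Real.sqrt_le_iff.2
      refine ⟨mul_nonneg hδ.le ha.le, ?_⟩
      rw [mul_pow]
      exact hn.2.2.2.2.1 j
    have h6 : min δ0 c * F.a j (nR (z n)) ≤ c * F.a j (nR (z n)) :=
      mul_le_mul_of_nonneg_right (min_le_right _ _) ha.le
    have h7 : nR (z n) v = ((z n).n v : ℝ) := rfl
    rw [h7]
    linarith
  · have he : 0 < e v := hv.resolve_left hI
    have h1 : ∀ᶠ n in atTop, e v / 2 < F.rho (nR (z n)) v / Real.sqrt (F.o2 (nR (z n))) :=
      (h.u_lim v).eventually (lt_mem_nhds (by linarith))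
    have h2 : ∀ᶠ n in atTop, Real.sqrt (dsq (z n).c (nR (z n)) c0 (y n)) /
        Real.sqrt (F.o2 (nR (z n))) < e v / 2 :=
      h.d_lim.eventually (gt_mem_nhds (by linarith))
    filter_upwards [h1, h2] with n a b
    have hR := h.Rp n
    rw [F.rho_off _ v hI] at a
    have := b.trans a
    rwa [div_lt_div_iff_of_pos_right hR] at this

/-- the field at a vertex with many balls is at most `(1/τ + n0) d` -/
theorem ZLim.field_small (hτ : 0 < τ) (hτ0 : τ ≤ tau0 V) (h : ZLim F0 F τ zc c0 e z y) (v : V)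
    (hv : v ∈ F.I ∨ 0 < e v) : ∀ᶠ n in atTop, |Lf G zc (zc v) v (nR (z n))| ≤
      (1 / τ + cV V) * Real.sqrt (dsq (z n).c (nR (z n)) c0 (y n)) := by
  filter_upwards [h.d_lt v hv] with n hn
  set d := Real.sqrt (dsq (z n).c (nR (z n)) c0 (y n)) with hd
  have hy := h.y_nonneg n v
  have ht := dsq_term_le (z n).c (nR (z n)) c0 (y n) v
  rw [← hd] at ht
  have hcc : (z n).c v = c0 v := by
    by_contra hne
    have he' : eps ((z n).c v) (c0 v) = -1 := by simp [eps, hne]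
    rw [he'] at ht
    have := (abs_le.1 ht).2
    linarith
  have he' : eps ((z n).c v) (c0 v) = 1 := by simp [eps, hcc]
  rw [he', one_mul] at ht
  have hyp : 0 < y n v := by
    have := (abs_le.1 ht).2
    linarith
  have h1 := mx0_stat F0 τ hτ hτ0 (z n) (h.tot1 n) c0 (y n) (h.mx n) v hyp
  have h2 := Lf_sub_le (G := G) (z n) c0 (y n) (h.y_nonneg n) v (c0 v)
  rw [he', one_mul] at h1
  rw [← hd, h1, h.col n] at h2
  have h3 : zc v = c0 v := by rw [← h.col n]; exact hcc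
  rw [h3]
  have h4 : |(y n v - ((z n).n v : ℝ)) / τ| ≤ 1 / τ * d := by
    rw [abs_div, abs_of_pos hτ, abs_sub_comm, one_div, inv_mul_eq_div]
    exact div_le_div_of_nonneg_right ht hτ.le
  have h5 := abs_sub_abs_le_abs_sub (Lf G zc (c0 v) v (nR (z n))) ((y n v - ((z n).n v : ℝ)) / τ)
  rw [abs_sub_comm] at h5
  nlinarith

theorem ZLim.small_lim (h : ZLim F0 F τ zc c0 e z y) (C : ℝ) :
    Tendsto (fun n => C * Real.sqrt (dsq (z n).c (nR (z n)) c0 (y n)) /
      Real.sqrt (F.o2 (nR (z n)))) atTop (nhds 0) := by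
  have := h.d_lim.const_mul C
  rw [mul_zero] at this
  refine this.congr fun n => ?_
  ring

/-- vanishing of the limit field if it is the field of the state -/
theorem ZLim.Lf_zero (hτ : 0 < τ) (hτ0 : τ ≤ tau0 V) (h : ZLim F0 F τ zc c0 e z y) (v : V)
    (hv : v ∈ F.I ∨ 0 < e v)
    (hf : ∀ n, Lf G zc (zc v) v (nR (z n)) = Lf G zc (zc v) v (F.rho (nR (z n)))) :
    Lf G zc (zc v) v e = 0 := by
  have h1 : Tendsto (fun n => Lf G zc (zc v) v (F.rho (nR (z n))) /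
      Real.sqrt (F.o2 (nR (z n)))) atTop (nhds 0) := by
    refine squeeze_zero_norm' ?_ (h.small_lim (1 / τ + cV V))
    filter_upwards [h.field_small hτ hτ0 v hv] with n hn
    have hR := h.Rp n
    rw [Real.norm_eq_abs, abs_div, abs_of_pos hR, ← hf n]
    gcongr
  exact tendsto_nhds_unique (h.Lf_lim (zc v) v) h1

theorem ZLim.eig_on (hτ : 0 < τ) (hτ0 : τ ≤ tau0 V) (hE : ∀ j, F.E j = 0)
    (h : ZLim F0 F τ zc c0 e z y) (v : V) (hv : v ∈ F.I) : Lf G zc (zc v) v e = 0 := by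
  refine h.Lf_zero hτ hτ0 v (Or.inl hv) fun n => ?_
  rw [F.field_in zc (nR (z n)) h.color v hv]
  simp [hE]

theorem ZLim.neutral (hτ : 0 < τ) (hτ0 : τ ≤ tau0 V) (h : ZLim F0 F τ zc c0 e z y) (v : V)
    (hv : v ∉ F.I) (he : 0 < e v) (j : Fin k) : Lf G F.σ (zc v) v (F.e j) = 0 := by
  obtain ⟨δ0, hδ0, c, hc, C, hC, hf⟩ := F.reg_facts
  have hcV : 0 ≤ cV V := Nat.cast_nonneg _
  have hM : 0 < 1 / τ + 2 * cV V + 1 := by positivity
  set δ := min δ0 (c / (1 / τ + 2 * cV V + 1)) with hδd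
  have hδ : 0 < δ := lt_min hδ0 (by positivity)
  have h2 : ∀ᶠ n in atTop, Real.sqrt (dsq (z n).c (nR (z n)) c0 (y n)) /
      Real.sqrt (F.o2 (nR (z n))) < 1 := h.d_lim.eventually (gt_mem_nhds one_pos)
  obtain ⟨n, hn, hn2, hn3⟩ := ((h.fol δ hδ).and (h2.and
    (h.field_small hτ hτ0 v (Or.inr he)))).exists
  have hR := h.Rp n
  rw [div_lt_one hR] at hn2
  rcases (hf δ δ hδ.le (min_le_left _ _) hδ.le (min_le_left _ _) _ hn).strict v hv (zc v) with
    h3 | ⟨i, h3, -⟩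
  · exact h3 j
  exfalso
  have ha := hn.2.2.1 i
  have h5 : Real.sqrt (F.o2 (nR (z n))) ≤ δ * F.a i (nR (z n)) := by
    apply Real.sqrt_le_iff.2
    refine ⟨mul_nonneg hδ.le ha.le, ?_⟩
    rw [mul_pow]
    exact hn.2.2.2.2.1 i
  have h6 : δ * F.a i (nR (z n)) ≤ c / (1 / τ + 2 * cV V + 1) * F.a i (nR (z n)) :=
    mul_le_mul_of_nonneg_right (min_le_right _ _) ha.le
  have h7 : (1 / τ + 2 * cV V + 1) * Real.sqrt (F.o2 (nR (z n))) ≤ c * F.a i (nR (z n)) := by
    have h8 := h5.trans h6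
    rw [div_mul_eq_mul_div, le_div_iff₀ hM] at h8
    linarith
  have h9 := F.field zc (nR (z n)) h.color v (zc v)
  have h10 := Lf_le (G := G) zc (zc v) v (F.rho (nR (z n)))
  rw [← F.o2_eq] at h10
  have h11 := (abs_le.1 h10).2
  have h12 := (abs_le.1 hn3).1
  have h13 : (1 / τ + cV V) * Real.sqrt (dsq (z n).c (nR (z n)) c0 (y n)) ≤
      (1 / τ + cV V) * Real.sqrt (F.o2 (nR (z n))) :=
    mul_le_mul_of_nonneg_left hn2.le (by positivity)
  nlinarith

theorem ZLim.eig_off (hτ : 0 < τ) (hτ0 : τ ≤ tau0 V) (h : ZLim F0 F τ zc c0 e z y) (v : V)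
    (hv : v ∉ F.I) (he : 0 < e v) : Lf G zc (zc v) v e = 0 := by
  refine h.Lf_zero hτ hτ0 v (Or.inr he) fun n => ?_
  rw [F.field zc (nR (z n)) h.color v (zc v)]
  simp [h.neutral hτ hτ0 v hv he]

theorem ZLim.bal (hτ : 0 < τ) (hτ0 : τ ≤ tau0 V) (h : ZLim F0 F τ zc c0 e z y) (v : V)
    (b : Fin s) (hb : ∀ j, Lf G F.σ b v (F.e j) = 0) :
    Lf G zc b v e ≤ 0 := by
  refine le_of_tendsto_of_tendsto' (h.Lf_lim b v) (h.small_lim (1 / τ + cV V)) fun n => ?_
  have hR := h.Rp n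
  have h1 : Lf G zc b v (F.rho (nR (z n))) = Lf G zc b v (nR (z n)) := by
    rw [F.field zc (nR (z n)) h.color v b]
    simp [hb]
  have h2 := Lf_sub_le (G := G) (z n) c0 (y n) (h.y_nonneg n) v b
  have h3 := mx0_field_le F0 τ hτ hτ0 (z n) (h.tot1 n) c0 (y n) (h.mx n) v b
  have h4 := (abs_le.1 h2).1
  rw [h.col n] at h4 h3 ⊢
  rw [h1]
  refine div_le_div_of_nonneg_right ?_ hR.le
  have h5 : Real.sqrt (dsq zc (nR (z n)) c0 (y n)) / τ =
      1 / τ * Real.sqrt (dsq zc (nR (z n)) c0 (y n)) := by ring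
  rw [h5] at h3
  linarith

/-- the extended flag -/
noncomputable def ZLim.flag (hτ : 0 < τ) (hτ0 : τ ≤ tau0 V) (hE : ∀ j, F.E j = 0)
    (h : ZLim F0 F τ zc c0 e z y) : Flag G s (k + 1) :=
  newFlag F zc e 0 le_rfl F.nonneg (fun j => by rw [hE j]; norm_num) h.norm h.orth h.nonneg
    h.color (fun v hv => by
      rw [zero_mul]
      by_cases hI : v ∈ F.I
      · exact h.eig_on hτ hτ0 hE v hI
      · exact h.eig_off hτ hτ0 v hI (hv.resolve_left hI))
    (h.neutral hτ hτ0) (fun v _ _ b hb => h.bal hτ hτ0 v b hb)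

theorem ZLim.match_all (h : ZLim F0 F τ zc c0 e z y) :
    ∀ᶠ n in atTop, ∀ v ∈ F.I ∪ univ.filter (fun v => e v ≠ 0),
      (z n).c v = zc v ∧ 1 ≤ (z n).n v := by
  rw [Filter.eventually_all_finset]
  intro v hv
  have hv' : v ∈ F.I ∨ 0 < e v := by
    by_cases hI : v ∈ F.I
    · exact Or.inl hI
    · simp only [mem_union, mem_filter, mem_univ, true_and] at hv
      rcases hv with hv | hv
      · exact absurd hv hI
      · exact Or.inr (lt_of_le_of_ne (h.nonneg v hI) (Ne.symm hv))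
  filter_upwards [h.d_lt v hv'] with n hn
  refine ⟨by rw [h.col n], ?_⟩
  have h1 : (0 : ℝ) < ((z n).n v : ℝ) := (Real.sqrt_nonneg _).trans_lt hn
  exact_mod_cast h1

theorem ZLim.sum_rho (h : ZLim F0 F τ zc c0 e z y) (n : ℕ) :
    ∑ v, F.rho (nR (z n)) v * e v = ∑ v, nR (z n) v * e v := by
  have e2 : ∀ v, F.rho (nR (z n)) v * e v =
      nR (z n) v * e v - ∑ j, F.a j (nR (z n)) * (F.e j v * e v) := by
    intro v
    unfold Flag.rho
    rw [sub_mul, Finset.sum_mul]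
    congr 1
    exact Finset.sum_congr rfl fun j _ => by ring
  rw [Finset.sum_congr rfl fun v _ => e2 v, Finset.sum_sub_distrib, Finset.sum_comm]
  have e3 : ∑ j, ∑ v, F.a j (nR (z n)) * (F.e j v * e v) = 0 := by
    refine Finset.sum_eq_zero fun j _ => ?_
    rw [← Finset.mul_sum, h.orth j, mul_zero]
  rw [e3, sub_zero]

theorem ZLim.last_lim (h : ZLim F0 F τ zc c0 e z y) :
    Tendsto (fun n => (∑ v, nR (z n) v * e v) / Real.sqrt (F.o2 (nR (z n)))) atTop (nhds 1) := by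
  have h1 : Tendsto (fun n => ∑ v, F.rho (nR (z n)) v / Real.sqrt (F.o2 (nR (z n))) * e v) atTop
      (nhds (∑ v, e v * e v)) :=
    tendsto_finsetSum _ fun v _ => (h.u_lim v).mul_const (e v)
  rw [h.norm] at h1
  refine h1.congr fun n => ?_
  rw [← h.sum_rho n, Finset.sum_div]
  exact Finset.sum_congr rfl fun v _ => by ring

/-- Cauchy-Schwarz -/
theorem ZLim.last_le (h : ZLim F0 F τ zc c0 e z y) (n : ℕ) :
    ∑ v, nR (z n) v * e v ≤ Real.sqrt (F.o2 (nR (z n))) := by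
  rw [← h.sum_rho n]
  apply Real.le_sqrt_of_sq_le
  have h1 := Finset.sum_mul_sq_le_sq_mul_sq univ (F.rho (nR (z n))) e
  have h2 : ∑ v, e v ^ 2 = 1 := by
    rw [← h.norm]
    exact Finset.sum_congr rfl fun v _ => sq _
  rw [h2, mul_one, ← F.o2_eq] at h1
  exact h1

theorem ZLim.follow (hτ : 0 < τ) (hτ0 : τ ≤ tau0 V) (hE : ∀ j, F.E j = 0)
    (h : ZLim F0 F τ zc c0 e z y) : Follow (h.flag hτ hτ0 hE) z := by
  set F' := h.flag hτ hτ0 hE with hF'
  have hI' : F'.I = F.I ∪ univ.filter fun v => e v ≠ 0 := rfl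
  have hσ' : F'.σ = zc := rfl
  have he' : ∀ j : Fin k, F'.e j.castSucc = F.e j := fun j =>
    Fin.snoc_castSucc (α := fun _ => V → ℝ) e F.e j
  have hel : F'.e (Fin.last k) = e := Fin.snoc_last (α := fun _ => V → ℝ) e F.e
  have hac : ∀ (x : V → ℝ) (j : Fin k), F'.a j.castSucc x = F.a j x := by
    intro x j
    unfold Flag.a
    rw [he' j]
  have hal : ∀ x : V → ℝ, F'.a (Fin.last k) x = ∑ v, x v * e v := by
    intro x
    unfold Flag.a
    rw [hel]
  have ho2 : ∀ x : V → ℝ, F'.o2 x = F.o2 x - F'.a (Fin.last k) x ^ 2 := by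
    intro x
    unfold Flag.o2
    rw [Fin.sum_univ_castSucc]
    simp only [hac]
    ring
  intro δ hδ
  have hδ2 : 0 < δ ^ 2 := by positivity
  have hA := h.last_lim
  have q5 : ∀ᶠ n in atTop, 1 / 2 < (∑ v, nR (z n) v * e v) / Real.sqrt (F.o2 (nR (z n))) :=
    hA.eventually (lt_mem_nhds (by norm_num))
  have q7 : ∀ᶠ n in atTop, 1 < (1 + δ ^ 2) *
      ((∑ v, nR (z n) v * e v) / Real.sqrt (F.o2 (nR (z n)))) ^ 2 :=
    ((hA.pow 2).const_mul (1 + δ ^ 2)).eventually (lt_mem_nhds (by linarith))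
  have q8 : ∀ᶠ n in atTop, tot (z n) / F.o2 (nR (z n)) < δ ^ 2 / 4 :=
    h.t_lim.eventually (gt_mem_nhds (by positivity))
  filter_upwards [h.fol δ hδ, h.match_all, q5, q7, q8] with n p1 p4 p5 p7 p8
  have hR := h.Rp n
  have hRsq : Real.sqrt (F.o2 (nR (z n))) ^ 2 = F.o2 (nR (z n)) := Real.sq_sqrt (h.R_pos n).le
  have hle := h.last_le n
  set R := Real.sqrt (F.o2 (nR (z n))) with hRd
  set A := ∑ v, nR (z n) v * e v with hAd
  have hAl : F'.a (Fin.last k) (nR (z n)) = A := hal _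
  have r5 : R / 2 < A := by
    rw [lt_div_iff₀ hR] at p5
    linarith
  have hA0 : 0 < A := by linarith
  have r7 : R ^ 2 < (1 + δ ^ 2) * A ^ 2 := by
    rw [div_pow, mul_div_assoc', lt_div_iff₀ (by positivity), one_mul] at p7
    exact p7
  have r8 : tot (z n) ≤ δ ^ 2 * A ^ 2 := by
    rw [div_lt_iff₀ (h.R_pos n), ← hRsq] at p8
    have r9 : R ^ 2 ≤ 4 * A ^ 2 := by nlinarith
    nlinarith
  obtain ⟨g1, g2, g3, g4, g5, g6⟩ := p1
  refine ⟨g1, ?_, ?_, ?_, ?_, ?_⟩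
  · intro v hv
    rw [hI'] at hv
    rw [hσ']
    exact p4 v hv
  · intro j
    induction j using Fin.lastCases with
    | last => rw [hAl]; exact hA0
    | cast j => rw [hac]; exact g3 j
  · intro i j hij
    induction i using Fin.lastCases with
    | last => exact absurd hij (not_lt.2 (Fin.le_last j))
    | cast i =>
      induction j using Fin.lastCases with
      | last =>
        rw [hAl, hac]
        have h5 : R ≤ δ * F.a i (nR (z n)) := by
          rw [hRd]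
          apply Real.sqrt_le_iff.2
          refine ⟨mul_nonneg hδ.le (g3 i).le, ?_⟩
          rw [mul_pow]
          exact g5 i
        linarith
      | cast j =>
        rw [hac, hac]
        exact g4 i j (Fin.castSucc_lt_castSucc_iff.1 hij)
  · intro j
    rw [ho2, hAl]
    induction j using Fin.lastCases with
    | last =>
      rw [hAl, ← hRsq]
      linarith
    | cast j =>
      rw [hac]
      have h5 := g5 j
      have h7 : 0 ≤ A ^ 2 := sq_nonneg _
      linarith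
  · intro j
    induction j using Fin.lastCases with
    | last =>
      rw [hAl]
      exact r8
    | cast j =>
      rw [hac]
      exact g6 j

end

theorem step_zero_flag (F0 : Flag G s 0) (τ : ℝ) (hτ : 0 < τ) (hτ0 : τ ≤ tau0 V) (K2 : ℝ)
    (F : Flag G s k) (hE : ∀ j, F.E j = 0) (z : ℕ → St V s) (c : ℕ → V → Fin s)
    (y : ℕ → V → ℝ) (hz : ∀ i, 1 ≤ tot (z i)) (hF : Follow F z)
    (hm : ∀ i, F0.IsMx 0 τ (z i) (c i) (y i))
    (hd : ∀ i, dsq (z i).c (nR (z i)) (c i) (y i) ≤ K2 * tot (z i))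
    (hinf : ∀ K : ℝ, ∀ᶠ i in atTop, K * tot (z i) ≤ F.o2 (nR (z i))) :
    ∃ (F' : Flag G s (k + 1)) (φ : ℕ → ℕ), StrictMono φ ∧ (∀ j, F'.E j = 0) ∧
      Follow F' (fun i => z (φ i)) := by
  -- first subsequence : `o2` positive
  obtain ⟨N, hN⟩ := eventually_atTop.1 (hinf 1)
  have hpos : ∀ n, 0 < F.o2 (nR (z (N + n))) := by
    intro n
    have h1 := hN (N + n) (Nat.le_add_right _ _)
    have h2 := hz (N + n)
    linarith
  have htl : Tendsto (fun n => tot (z n) / F.o2 (nR (z n))) atTop (nhds 0) := by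
    rw [Metric.tendsto_atTop]
    intro ε hε
    obtain ⟨M, hM⟩ := eventually_atTop.1 ((hinf (2 / ε)).and (hinf 1))
    refine ⟨M, fun n hn => ?_⟩
    obtain ⟨h1, h2⟩ := hM n hn
    have h3 := hz n
    have h4 : 0 < F.o2 (nR (z n)) := by linarith
    rw [Real.dist_eq, sub_zero, abs_of_nonneg (by positivity), div_lt_iff₀ h4]
    have h5 : 2 * tot (z n) ≤ ε * F.o2 (nR (z n)) := by
      rw [div_mul_eq_mul_div, div_le_iff₀ hε] at h1
      linarith
    linarith
  have hdl : Tendsto (fun n => Real.sqrt (dsq (z n).c (nR (z n)) (c n) (y n)) /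
      Real.sqrt (F.o2 (nR (z n)))) atTop (nhds 0) := by
    have h1 : Tendsto (fun n => Real.sqrt (K2 * (tot (z n) / F.o2 (nR (z n))))) atTop
        (nhds 0) := by
      have h2 := (htl.const_mul K2).sqrt
      rwa [mul_zero, Real.sqrt_zero] at h2
    refine squeeze_zero (fun n => by positivity) (fun n => ?_) h1
    rw [← Real.sqrt_div' _ (F.o2_nonneg _)]
    apply Real.sqrt_le_sqrt
    rw [mul_div_assoc']
    exact div_le_div_of_nonneg_right (hd n) (F.o2_nonneg _)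
  -- constant colourings
  obtain ⟨⟨zc, c0⟩, hcc⟩ := Finite.exists_infinite_fiber
    (fun n => (((z n).c, c n) : (V → Fin s) × (V → Fin s)))
  have hfreq : ∃ᶠ n in atTop, (((z n).c, c n) : (V → Fin s) × (V → Fin s)) = (zc, c0) := by
    rw [Nat.frequently_atTop_iff_infinite]
    exact Set.infinite_coe_iff.1 hcc
  obtain ⟨φ, hφ, hφc⟩ := extraction_of_frequently_atTop
    (hfreq.and_eventually (eventually_ge_atTop N))
  -- compactness
  have hcomp : IsCompact (Set.pi Set.univ (fun _ : V => Set.Icc (-1 : ℝ) 1)) :=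
    isCompact_univ_pi (fun _ => isCompact_Icc)
  have hpos' : ∀ n, 0 < F.o2 (nR (z (φ n))) := by
    intro n
    have h1 := hpos (φ n - N)
    rwa [Nat.add_sub_cancel' (hφc n).2] at h1
  have hmem : ∀ n, (fun v => F.rho (nR (z (φ n))) v / Real.sqrt (F.o2 (nR (z (φ n))))) ∈
      Set.pi Set.univ (fun _ : V => Set.Icc (-1 : ℝ) 1) := fun n => by
    intro v _
    have h1 : |F.rho (nR (z (φ n))) v| ≤ Real.sqrt (F.o2 (nR (z (φ n)))) := Real.abs_le_sqrt
      (F.rho_sq_le (nR (z (φ n))) v)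
    have h2 := Real.sqrt_pos.2 (hpos' n)
    have h3 : |F.rho (nR (z (φ n))) v / Real.sqrt (F.o2 (nR (z (φ n))))| ≤ 1 := by
      rw [abs_div, abs_of_pos h2, div_le_one h2]
      exact h1
    exact abs_le.1 h3
  obtain ⟨e, -, ψ, hψ, hlim⟩ := hcomp.tendsto_subseq hmem
  have hmono : StrictMono fun n => φ (ψ n) := hφ.comp hψ
  have hsub : Tendsto (fun n => φ (ψ n)) atTop atTop := hmono.tendsto_atTop
  have hzc : ∀ n, (z (φ (ψ n))).c = zc := fun n => (Prod.ext_iff.1 (hφc (ψ n)).1).1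
  have hc0 : ∀ n, c (φ (ψ n)) = c0 := fun n => (Prod.ext_iff.1 (hφc (ψ n)).1).2
  have hL : ZLim F0 F τ zc c0 e (fun n => z (φ (ψ n))) (fun n => y (φ (ψ n))) := by
    refine ⟨fun n => hz _, ?_, hzc, fun n => ?_, fun n => hpos' _, ?_, ?_, ?_⟩
    · intro δ hδ
      exact hsub.eventually (hF δ hδ)
    · have := hm (φ (ψ n))
      rwa [hc0 n] at this
    · refine (hdl.comp hsub).congr fun n => ?_
      simp only [Function.comp, hc0 n]
    · exact htl.comp hsub
    · intro v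
      exact (tendsto_pi_nhds.1 hlim) v
  refine ⟨hL.flag hτ hτ0 hE, fun n => φ (ψ n), hmono, ?_, hL.follow hτ hτ0 hE⟩
  intro j
  have hE' : ∀ j : Fin k, (hL.flag hτ hτ0 hE).E j.castSucc = F.E j := fun j =>
    Fin.snoc_castSucc (α := fun _ => ℝ) 0 F.E j
  have hEl : (hL.flag hτ hτ0 hE).E (Fin.last k) = 0 := Fin.snoc_last (α := fun _ => ℝ) 0 F.E
  induction j using Fin.lastCases with
  | last => exact hEl
  | cast j => rw [hE' j]; exact hE j

end UC
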