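import Pool.Agent.helper25.UC.Z2B

/-!
# Z3 : nearly critical bad states are strict next to big urns (rate zero world)

**follow_terminal.**  `z_i` with `tot ≥ 1`, maximisers `(c_i,y_i)` for `F0`, `E = 0`,
`dsq_i ≤ K2 tot`, and `tot z_i → ∞`.  Then there are `k`, a flag `F` of length `k+1` with zero
rates, a subsequence `φ` and `K` with `Follow F (z∘φ)` and `o2_F(z_{φ i}) ≤ K tot` for all `i`.
Proof: start with `F0` (`Follow` is `tot ≥ 1`; `o2 = qq ≥ tot²/n0`, `tot → ∞`, so `hinf` holds),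
apply `step_zero_flag`.  Given a flag `F` of length `k+1` followed by the (sub)sequence: either for
some `K` infinitely many `i` have `o2 ≤ K tot` (pass to them: done), or for every `K` only finitely
many, i.e. `hinf`: apply `step_zero_flag` again.  Lengths are `≤ card V` (`k_le`), so it stops.
-/

namespace UC
open Finset Filter
variable {V : Type} [Fintype V] [DecidableEq V] {s k : ℕ}
variable {G : SimpleGraph V} [DecidableRel G.Adj]

theorem Z3_follow_comp {F : Flag G s k} {z : ℕ → St V s} (h : Follow F z) {φ : ℕ → ℕ}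
    (hφ : StrictMono φ) : Follow F (fun i => z (φ i)) := by
  intro δ hδ
  exact hφ.tendsto_atTop.eventually (h δ hδ)

theorem Z3_aux (F0 : Flag G s 0) (τ : ℝ) (hτ : 0 < τ) (hτ0 : τ ≤ tau0 V) (K2 : ℝ) (m : ℕ) :
    ∀ (k : ℕ) (F : Flag G s (k + 1)) (z : ℕ → St V s) (c : ℕ → V → Fin s) (y : ℕ → V → ℝ),
    Fintype.card V ≤ k + 1 + m → (∀ i, 1 ≤ tot (z i)) → (∀ i, F0.IsMx 0 τ (z i) (c i) (y i)) →
    (∀ i, dsq (z i).c (nR (z i)) (c i) (y i) ≤ K2 * tot (z i)) → (∀ j, F.E j = 0) → Follow F z →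
    ∃ (k : ℕ) (F : Flag G s (k + 1)) (φ : ℕ → ℕ) (K : ℝ), StrictMono φ ∧ (∀ j, F.E j = 0) ∧
      Follow F (fun i => z (φ i)) ∧ ∀ i, F.o2 (nR (z (φ i))) ≤ K * tot (z (φ i)) := by
  induction m with
  | zero =>
    intro k F z c y hk hz hm hd hE hF
    by_cases hT : ∃ K : ℝ, ∃ᶠ i in atTop, F.o2 (nR (z i)) ≤ K * tot (z i)
    · obtain ⟨K, hK⟩ := hT
      obtain ⟨φ, hφ, hP⟩ := Filter.extraction_of_frequently_atTop hK
      exact ⟨k, F, φ, K, hφ, hE, Z3_follow_comp hF hφ, hP⟩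
    · exfalso
      have hinf : ∀ K : ℝ, ∀ᶠ i in atTop, K * tot (z i) ≤ F.o2 (nR (z i)) := by
        intro K
        have h1 : ¬ ∃ᶠ i in atTop, F.o2 (nR (z i)) ≤ K * tot (z i) := fun h => hT ⟨K, h⟩
        rw [Filter.not_frequently] at h1
        exact h1.mono fun i hi => (not_le.mp hi).le
      obtain ⟨F', φ, -, -, -⟩ := step_zero_flag F0 τ hτ hτ0 K2 F hE z c y hz hF hm hd hinf
      have h1 : ((k + 2 : ℕ) : ℝ) ≤ (Fintype.card V : ℝ) := F'.k_le
      have h2 : k + 2 ≤ Fintype.card V := by exact_mod_cast h1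
      omega
  | succ m ih =>
    intro k F z c y hk hz hm hd hE hF
    by_cases hT : ∃ K : ℝ, ∃ᶠ i in atTop, F.o2 (nR (z i)) ≤ K * tot (z i)
    · obtain ⟨K, hK⟩ := hT
      obtain ⟨φ, hφ, hP⟩ := Filter.extraction_of_frequently_atTop hK
      exact ⟨k, F, φ, K, hφ, hE, Z3_follow_comp hF hφ, hP⟩
    · have hinf : ∀ K : ℝ, ∀ᶠ i in atTop, K * tot (z i) ≤ F.o2 (nR (z i)) := by
        intro K
        have h1 : ¬ ∃ᶠ i in atTop, F.o2 (nR (z i)) ≤ K * tot (z i) := fun h => hT ⟨K, h⟩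
        rw [Filter.not_frequently] at h1
        exact h1.mono fun i hi => (not_le.mp hi).le
      obtain ⟨F', φ, hφ, hE', hF'⟩ := step_zero_flag F0 τ hτ hτ0 K2 F hE z c y hz hF hm hd hinf
      obtain ⟨k1, F1, ψ, K, hψ, hE1, hF1, hP⟩ := ih (k + 1) F' (fun i => z (φ i))
        (fun i => c (φ i)) (fun i => y (φ i)) (by omega) (fun i => hz _) (fun i => hm _)
        (fun i => hd _) hE' hF'
      exact ⟨k1, F1, fun i => φ (ψ i), K, hφ.comp hψ, hE1, hF1, hP⟩

theorem follow_terminal (F0 : Flag G s 0) (τ : ℝ) (hτ : 0 < τ) (hτ0 : τ ≤ tau0 V) (K2 : ℝ)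
    (z : ℕ → St V s) (c : ℕ → V → Fin s) (y : ℕ → V → ℝ) (hz : ∀ i, 1 ≤ tot (z i))
    (hm : ∀ i, F0.IsMx 0 τ (z i) (c i) (y i))
    (hd : ∀ i, dsq (z i).c (nR (z i)) (c i) (y i) ≤ K2 * tot (z i))
    (ht : Tendsto (fun i => tot (z i)) atTop atTop) :
    ∃ (k : ℕ) (F : Flag G s (k + 1)) (φ : ℕ → ℕ) (K : ℝ), StrictMono φ ∧ (∀ j, F.E j = 0) ∧
      Follow F (fun i => z (φ i)) ∧ ∀ i, F.o2 (nR (z (φ i))) ≤ K * tot (z (φ i)) := by
  have hF0 : Follow F0 z := by
    intro δ _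
    refine Filter.Eventually.of_forall fun i => ?_
    refine ⟨hz i, fun v hv => ?_, fun j => j.elim0, fun i j => i.elim0, fun j => j.elim0,
      fun j => j.elim0⟩
    obtain ⟨j, -⟩ := F0.cover v hv
    exact j.elim0
  have ho : ∀ w : St V s, F0.o2 (nR w) = qq w := by
    intro w
    simp [Flag.o2, qq, nR]
  have hinf : ∀ K : ℝ, ∀ᶠ i in atTop, K * tot (z i) ≤ F0.o2 (nR (z i)) := by
    intro K
    filter_upwards [ht.eventually_ge_atTop (K * cV V)] with i hi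
    rw [ho]
    have h1 := tot_sq_le (z i)
    have h2 := hz i
    have h0 : (0 : ℝ) ≤ cV V := Nat.cast_nonneg _
    have h3 : 0 < cV V := by
      rcases h0.lt_or_eq with h | h
      · exact h
      · exfalso
        rw [← h, zero_mul] at h1
        nlinarith
    have h4 : cV V * (K * tot (z i)) ≤ cV V * qq (z i) := by
      calc cV V * (K * tot (z i)) = (K * cV V) * tot (z i) := by ring
        _ ≤ tot (z i) * tot (z i) := mul_le_mul_of_nonneg_right hi (by linarith)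
        _ = tot (z i) ^ 2 := by ring
        _ ≤ cV V * qq (z i) := h1
    exact le_of_mul_le_mul_left h4 h3
  obtain ⟨F', φ, hφ, hE', hF'⟩ := step_zero_flag F0 τ hτ hτ0 K2 F0 (fun j => j.elim0) z c y hz hF0
    hm hd hinf
  obtain ⟨k1, F1, ψ, K, hψ, hE1, hF1, hP⟩ := Z3_aux F0 τ hτ hτ0 K2 (Fintype.card V) 0 F'
    (fun i => z (φ i)) (fun i => c (φ i)) (fun i => y (φ i)) (by omega) (fun i => hz _)
    (fun i => hm _) (fun i => hd _) hE' hF'
  exact ⟨k1, F1, fun i => φ (ψ i), K, hφ.comp hψ, hE1, hF1, hP⟩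

end UC
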