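import Pool.Agent.helper25.UC.Z1
import Pool.Agent.helper25.UC.Z3
import Pool.Agent.helper25.UC.K7
import Pool.Agent.helper25.UC.L3

/-!
# Z3B : nearly critical bad states are strict next to big urns (rate zero world)
-/

namespace UC
open Finset Filter
variable {V : Type} [Fintype V] [DecidableEq V] {s k : ℕ}
variable {G : SimpleGraph V} [DecidableRel G.Adj]

theorem z3b_tot {f : St V s → ℝ} (hf : BadF G f) (z : ℕ → St V s) (hz : ∀ i, 1 ≤ tot (z i))
    (h : ∀ i, f (z i) < 1 / ((i : ℝ) + 1)) : Tendsto (fun i => tot (z i)) atTop atTop := by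
  rw [tendsto_atTop]
  intro M
  obtain ⟨c, hc, hcf⟩ := hf.pos (M ^ 2)
  have h1 : ∀ᶠ i : ℕ in atTop, 1 / ((i : ℝ) + 1) < c :=
    (tendsto_one_div_add_atTop_nhds_zero_nat (𝕜 := ℝ)).eventually (gt_mem_nhds hc)
  filter_upwards [h1] with i hi
  by_contra hcon
  push Not at hcon
  have h2 : qq (z i) ≤ M ^ 2 := (qq_le_tot_sq (z i)).trans (by
    have h3 := hz i
    have h4 : (0:ℝ) ≤ tot (z i) := by linarith
    exact pow_le_pow_left₀ h4 hcon.le 2)
  have h5 := hcf (z i) (hz i) h2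
  linarith [h i]

/-- the size of the urn `u` far from the first direction -/
theorem z3b_small (F : Flag G s (k + 1)) (z : St V s) (δ : ℝ) (hδ : 0 < δ) (hR : F.Reg δ δ z)
    (h0 : F.a 0 (nR z) ≤ tot z) (u : V) (hu : F.e 0 u = 0) :
    (z.n u : ℝ) ≤ cV V * (δ * tot z) + Real.sqrt (F.o2 (nR z)) := by
  obtain ⟨h1, -, hpos, hord, -, -⟩ := hR
  have e1 : (z.n u : ℝ) = (∑ j, F.a j (nR z) * F.e j u) + F.rho (nR z) u := by
    have := congrFun (F.split (nR z)) u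
    exact this
  have e2 : F.rho (nR z) u ≤ Real.sqrt (F.o2 (nR z)) := by
    refine (le_abs_self _).trans ?_
    exact Real.abs_le_sqrt (F.rho_sq_le (nR z) u)
  have e3 : ∀ j, F.a j (nR z) * F.e j u ≤ δ * tot z := by
    intro j
    by_cases hj : j = 0
    · rw [hj, hu, mul_zero]
      have : (0:ℝ) ≤ tot z := by linarith
      positivity
    · have hj0 : 0 < j := Fin.pos_iff_ne_zero.2 hj
      have e4 := hord 0 j hj0
      have e5 := F.e_abs_le j u
      have e6 : F.a j (nR z) * F.e j u ≤ F.a j (nR z) * 1 :=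
        mul_le_mul_of_nonneg_left ((le_abs_self _).trans e5) (hpos j).le
      have e7 : δ * F.a 0 (nR z) ≤ δ * tot z := mul_le_mul_of_nonneg_left h0 hδ.le
      linarith
  have e8 : ∑ j, F.a j (nR z) * F.e j u ≤ ((k + 1 : ℕ) : ℝ) * (δ * tot z) := by
    refine (Finset.sum_le_sum fun j _ => e3 j).trans ?_
    rw [Finset.sum_const, Finset.card_univ, Fintype.card_fin, nsmul_eq_mul]
  have e9 : ((k + 1 : ℕ) : ℝ) * (δ * tot z) ≤ cV V * (δ * tot z) := by
    refine mul_le_mul_of_nonneg_right F.k_le ?_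
    have : (0:ℝ) ≤ tot z := by linarith
    positivity
  linarith

theorem z3b_arith {κ K' t x n : ℝ} (hκ : 0 < κ) (hK : 0 < K') (ht : 16 * K' / κ ^ 2 ≤ t)
    (ht1 : 1 ≤ t) (hx : x ≤ K' * t) : Real.sqrt x ≤ κ / 4 * t := by
  rw [Real.sqrt_le_left (by positivity)]
  refine hx.trans ?_
  rw [div_le_iff₀ (by positivity)] at ht
  nlinarith [mul_le_mul_of_nonneg_right ht (by linarith : (0:ℝ) ≤ t)]

theorem z3b_aux {f : St V s → ℝ} (hf : BadF G f) (τ : ℝ) (hτ : 0 < τ) (hτ0 : τ ≤ tau0 V)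
    (F0 : Flag G s 0)
    (h0 : ∀ F0 : Flag G s 0, ∀ E, 0 < E → E ≤ cV V + 2 → ¬ Ext F0 τ f E)
    (κ K2 K3 : ℝ) (hκ : 0 < κ) (hK3 : 0 < K3)
    (z : ℕ → St V s) (c : ℕ → V → Fin s) (y : ℕ → V → ℝ) (hz : ∀ i, 1 ≤ tot (z i))
    (hfz : ∀ i, f (z i) < 1 / ((i : ℝ) + 1))
    (hm : ∀ i, F0.IsMx 0 τ (z i) (c i) (y i))
    (hd : ∀ i, dsq (z i).c (nR (z i)) (c i) (y i) ≤ K2 * tot (z i))
    (u t : V) (hut : G.Adj u t) (hn : ∀ i, κ * tot (z i) ≤ ((z i).n u : ℝ))
    (b : Fin s) (hL : ∀ i, -(K3 * Real.sqrt (tot (z i))) < Lf G (z i).c b t (nR (z i))) :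
    False := by
  have htot := z3b_tot hf z hz hfz
  obtain ⟨k, F, φ, K, hφ, hE, hFol, ho2⟩ := follow_terminal F0 τ hτ hτ0 K2 z c y hz hm hd htot
  have htotφ : Tendsto (fun i => tot (z (φ i))) atTop atTop := htot.comp hφ.tendsto_atTop
  have hfφ : ∀ ε > 0, ∀ᶠ i in atTop, f (z (φ i)) < ε := by
    intro ε hε
    have h1 : ∀ᶠ i : ℕ in atTop, 1 / ((i : ℝ) + 1) < ε :=
      (tendsto_one_div_add_atTop_nhds_zero_nat (𝕜 := ℝ)).eventually (gt_mem_nhds hε)
    have h2 := hφ.tendsto_atTop.eventually h1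
    filter_upwards [h2] with i hi
    exact (hfz (φ i)).trans hi
  have hTer : Terminal F f := by
    refine ⟨K, fun δ hδ ε hε => ?_⟩
    obtain ⟨i, hi1, hi2⟩ := ((hFol δ hδ).and (hfφ ε hε)).exists
    exact ⟨z (φ i), hi1, hi2, ho2 i⟩
  have hInv : Inv F τ f := inv_zero hf τ hτ hτ0 h0 k F hE
  have hNK : NoKick F τ := fun E' h1 h2 c y r0 hA hN hr =>
    no_kick hf F τ hτ hτ0 hInv hTer E' h1 h2 c y r0 hA hN hr
  -- facts near the flag
  obtain ⟨δ0, hδ0, cr, hcr, C, hC, hfacts⟩ := F.reg_facts1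
  have hn0 : 0 ≤ cV V := Nat.cast_nonneg _
  set K' := |K| + 1 with hK'
  have hK'pos : 0 < K' := by positivity
  have hKK' : K ≤ K' := (le_abs_self K).trans (by rw [hK']; linarith)
  -- the urn `u` is big in the first direction
  have hu0 : F.e 0 u ≠ 0 := by
    intro hu
    set δ := min δ0 (κ / (4 * (cV V + 1))) with hδdef
    have hδ : 0 < δ := lt_min hδ0 (by positivity)
    obtain ⟨i, hi1, hi2⟩ := ((hFol δ hδ).and
      (htotφ.eventually (eventually_ge_atTop (16 * K' / κ ^ 2)))).exists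
    have hR : F.Reg δ δ (z (φ i)) := hi1
    obtain ⟨-, h1⟩ := hfacts δ δ hδ.le (min_le_left _ _) hδ.le (min_le_left _ _) _ hR
    have h2 := z3b_small F (z (φ i)) δ hδ hR h1.zero_le_tot u hu
    have ht1 := hz (φ i)
    have h3 : Real.sqrt (F.o2 (nR (z (φ i)))) ≤ κ / 4 * tot (z (φ i)) :=
      z3b_arith (n := 0) hκ hK'pos hi2 ht1
        ((ho2 i).trans (mul_le_mul_of_nonneg_right hKK' (by linarith)))
    have h4 : cV V * δ ≤ κ / 4 := by
      have h5 : δ ≤ κ / (4 * (cV V + 1)) := min_le_right _ _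
      rw [le_div_iff₀ (by positivity)] at h5
      nlinarith
    have h6 : cV V * (δ * tot (z (φ i))) ≤ κ / 4 * tot (z (φ i)) := by
      rw [← mul_assoc]
      exact mul_le_mul_of_nonneg_right h4 (by linarith)
    have h7 := hn (φ i)
    have h8 : 0 < κ * tot (z (φ i)) := mul_pos hκ (by linarith)
    nlinarith
  have huI : u ∈ F.I := by
    by_contra h
    exact hu0 (F.supp 0 u h)
  have hupos : 0 < F.e 0 u := lt_of_le_of_ne (e0_nonneg F u) (Ne.symm hu0)
  -- `e 0 t = 0`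
  have ht0 : F.e 0 t = 0 := by
    by_contra ht
    have htpos : 0 < F.e 0 t := lt_of_le_of_ne (e0_nonneg F t) (Ne.symm ht)
    have h1 := F.eig 0 u huI
    rw [hE 0, zero_mul] at h1
    have h2 : 0 < Lf G F.σ (F.σ u) u (F.e 0) := by
      unfold Lf
      have h3 : ∀ w, 0 ≤ (if G.Adj u w then eps (F.σ u) (F.σ w) * F.e 0 w else 0) := by
        intro w
        by_cases hw : G.Adj u w
        · rw [if_pos hw]
          by_cases hw0 : F.e 0 w = 0
          · rw [hw0, mul_zero]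
          · rw [eps_of_eq (adj_same F τ hτ hNK u w hw hu0 hw0), one_mul]
            exact e0_nonneg F w
        · rw [if_neg hw]
      refine sum_pos' (fun w _ => h3 w) ⟨t, mem_univ _, ?_⟩
      rw [if_pos hut, eps_of_eq (adj_same F τ hτ hNK u t hut hu0 ht), one_mul]
      exact htpos
    linarith
  have htI : t ∉ F.I := fun h => hu0 (insulated F τ hτ hNK t u h ht0 hut.symm)
  obtain ⟨j, -, hj, -⟩ := strict_outer F τ hτ hNK t u htI hut.symm hu0 b
  -- the final contradiction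
  set δ := min (min δ0 1) (cr / (K3 + cV V * Real.sqrt K' + 1)) with hδdef
  have hden : 0 < K3 + cV V * Real.sqrt K' + 1 := by positivity
  have hδ : 0 < δ := lt_min (lt_min hδ0 one_pos) (div_pos hcr hden)
  have hδ0' : δ ≤ δ0 := (min_le_left _ _).trans (min_le_left _ _)
  have hδc : δ * (K3 + cV V * Real.sqrt K' + 1) ≤ cr := by
    have h5 : δ ≤ cr / (K3 + cV V * Real.sqrt K' + 1) := min_le_right _ _
    rwa [le_div_iff₀ hden] at h5
  obtain ⟨i, hR⟩ := (hFol δ hδ).exists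
  have hR' : F.Reg δ δ (z (φ i)) := hR
  obtain ⟨hF1, hF2⟩ := hfacts δ δ hδ.le hδ0' hδ.le hδ0' _ hR'
  obtain ⟨hR1, hR2, hR3, hR4, hR5, hR6⟩ := hR'
  set Z := z (φ i) with hZ
  have hlast : Real.sqrt (tot Z) ≤ δ * F.a (Fin.last k) (nR Z) := by
    rw [Real.sqrt_le_left (by have := (hR3 (Fin.last k)).le; positivity), mul_pow]
    exact hR6 (Fin.last k)
  have hst : 0 < Real.sqrt (tot Z) := Real.sqrt_pos.2 (by linarith)
  have hfield := F.field Z.c (nR Z) (fun v hv => (hR2 v hv).1) t b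
  have hrho : Lf G Z.c b t (F.rho (nR Z)) ≤ cV V * Real.sqrt K' * Real.sqrt (tot Z) := by
    refine (le_abs_self _).trans ((Lf_le Z.c b t (F.rho (nR Z))).trans ?_)
    rw [mul_assoc, ← Real.sqrt_mul hK'pos.le, ← F.o2_eq]
    refine mul_le_mul_of_nonneg_left (Real.sqrt_le_sqrt ?_) hn0
    exact (ho2 i).trans (mul_le_mul_of_nonneg_right hKK' (by linarith))
  have hsum : ∑ j, F.a j (nR Z) * Lf G F.σ b t (F.e j) ≤
      -((K3 + cV V * Real.sqrt K' + 1) * Real.sqrt (tot Z)) := by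
    rcases hF1.strict t htI b with h | ⟨j', hj', -⟩
    · exact absurd (h j) hj.ne
    · have h1 : F.a (Fin.last k) (nR Z) ≤ F.a j' (nR Z) := hF2.last_le j'
      have h2 : (K3 + cV V * Real.sqrt K' + 1) * Real.sqrt (tot Z) ≤ cr * F.a j' (nR Z) := by
        calc (K3 + cV V * Real.sqrt K' + 1) * Real.sqrt (tot Z)
            ≤ (K3 + cV V * Real.sqrt K' + 1) * (δ * F.a (Fin.last k) (nR Z)) :=
              mul_le_mul_of_nonneg_left hlast hden.le
          _ = δ * (K3 + cV V * Real.sqrt K' + 1) * F.a (Fin.last k) (nR Z) := by ring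
          _ ≤ cr * F.a (Fin.last k) (nR Z) :=
              mul_le_mul_of_nonneg_right hδc (hR3 (Fin.last k)).le
          _ ≤ cr * F.a j' (nR Z) := mul_le_mul_of_nonneg_left h1 hcr.le
      linarith
  have hfin := hL (φ i)
  rw [← hZ, hfield] at hfin
  nlinarith

theorem zero_strict {f : St V s → ℝ} (hf : BadF G f) (τ : ℝ) (hτ : 0 < τ) (hτ0 : τ ≤ tau0 V)
    (F0 : Flag G s 0)
    (h0 : ∀ F0 : Flag G s 0, ∀ E, 0 < E → E ≤ cV V + 2 → ¬ Ext F0 τ f E)
    (κ K2 K3 : ℝ) (hκ : 0 < κ) (hK2 : 0 < K2) (hK3 : 0 < K3) :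
    ∃ ε > 0, ∀ z : St V s, 1 ≤ tot z → f z < ε → ∀ c y, F0.IsMx 0 τ z c y →
      dsq z.c (nR z) c y ≤ K2 * tot z → ∀ u t, G.Adj u t → κ * tot z ≤ (z.n u : ℝ) →
      ∀ b : Fin s, Lf G z.c b t (nR z) ≤ -(K3 * Real.sqrt (tot z)) := by
  by_contra hcon
  push Not at hcon
  have h1 : ∀ i : ℕ, ∃ z : St V s, 1 ≤ tot z ∧ f z < 1 / ((i : ℝ) + 1) ∧ ∃ c y,
      F0.IsMx 0 τ z c y ∧ dsq z.c (nR z) c y ≤ K2 * tot z ∧ ∃ u t, G.Adj u t ∧
      κ * tot z ≤ (z.n u : ℝ) ∧ ∃ b : Fin s, -(K3 * Real.sqrt (tot z)) < Lf G z.c b t (nR z) :=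
    fun i => hcon (1 / ((i : ℝ) + 1)) (by positivity)
  choose z hz hfz c y hm hd u t hut hn b hL using h1
  -- pigeonhole
  have hfreq : ∃ x : V × V × Fin s, ∃ᶠ i in atTop, (u i, t i, b i) = x := by
    by_contra h
    push Not at h
    have h2 : ∀ x : V × V × Fin s, ∀ᶠ i in atTop, (u i, t i, b i) ≠ x := fun x => by
      have := h x
      simpa [Filter.Frequently] using this
    have h3 := eventually_all.2 h2
    obtain ⟨i, hi⟩ := h3.exists
    exact hi _ rfl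
  obtain ⟨⟨u0, t0, b0⟩, hx⟩ := hfreq
  obtain ⟨ψ, hψ, hψx⟩ := extraction_of_frequently_atTop hx
  have hu : ∀ i, u (ψ i) = u0 := fun i => congrArg Prod.fst (hψx i)
  have ht : ∀ i, t (ψ i) = t0 := fun i => congrArg (fun p => p.2.1) (hψx i)
  have hb : ∀ i, b (ψ i) = b0 := fun i => congrArg (fun p => p.2.2) (hψx i)
  refine z3b_aux hf τ hτ hτ0 F0 h0 κ K2 K3 hκ hK3 (fun i => z (ψ i)) (fun i => c (ψ i))
    (fun i => y (ψ i)) (fun i => hz _) (fun i => ?_) (fun i => hm _) (fun i => hd _) u0 t0 ?_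
    (fun i => ?_) b0 (fun i => ?_)
  · refine (hfz (ψ i)).trans_le ?_
    refine one_div_le_one_div_of_le (by positivity) ?_
    have h4 : i ≤ ψ i := hψ.id_le i
    have h5 : (i : ℝ) ≤ (ψ i : ℝ) := by exact_mod_cast h4
    linarith
  · have := hut (ψ 0)
    rwa [hu, ht] at this
  · have := hn (ψ i)
    rwa [hu] at this
  · have := hL (ψ i)
    rwa [hb, ht] at this

end UC
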