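import Pool.Agent.helper25.UC.Z2
import Pool.Agent.helper25.UC.Z4

/-!
# Z4B : the basic inequality of the rate zero world (see the doc string of helper25's stub)
-/

namespace UC
open Finset
variable {V : Type} [Fintype V] [DecidableEq V] {s k : ℕ}
variable {G : SimpleGraph V} [DecidableRel G.Adj]

theorem Z4B_AA_Lf (c : V → Fin s) (x : V → ℝ) (c' : V → Fin s) (y : V → ℝ) :
    AA G c x c' y = ∑ v, x v * Lf G c' (c v) v y := by
  unfold AA Lf
  refine Finset.sum_congr rfl fun u _ => ?_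
  rw [Finset.mul_sum]
  refine Finset.sum_congr rfl fun v _ => ?_
  split_ifs
  · ring
  · ring

theorem Z4B_deg (z : St V s) :
    ∑ w, (z.n w : ℝ) * (∑ u, if G.Adj w u then (1 : ℝ) else 0) = ∑ t, Dn G z t := by
  unfold Dn
  rw [Finset.sum_comm]
  refine Finset.sum_congr rfl fun w _ => ?_
  rw [Finset.mul_sum]
  refine Finset.sum_congr rfl fun t _ => ?_
  by_cases h : G.Adj w t
  · rw [if_pos h, if_pos h.symm, mul_one]
  · rw [if_neg h, if_neg fun e => h e.symm, mul_zero]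

/-- bilinear splitting of the form along `n = g n + (1-g) n`. -/
theorem Z4B_split (c : V → Fin s) (n g : V → ℝ) (c' : V → Fin s) (y : V → ℝ) :
    AA G c n c' y = AA G c (fun v => g v * n v) c' y + AA G c (fun v => (1 - g v) * n v) c' y := by
  rw [Z4B_AA_Lf, Z4B_AA_Lf, Z4B_AA_Lf, ← Finset.sum_add_distrib]
  refine Finset.sum_congr rfl fun v _ => ?_
  ring

theorem Z4B_split' (c : V → Fin s) (n g : V → ℝ) :
    AA G c n c n = 2 * AA G c (fun v => g v * n v) c n -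
      AA G c (fun v => g v * n v) c (fun v => g v * n v) +
      AA G c (fun v => (1 - g v) * n v) c (fun v => (1 - g v) * n v) := by
  have h1 := Z4B_split (G := G) c n g c n
  have h2 := Z4B_split (G := G) c n g c (fun v => g v * n v)
  have h3 := Z4B_split (G := G) c n g c (fun v => (1 - g v) * n v)
  have h4 := AA_symm (G := G) c n c (fun v => g v * n v)
  have h5 := AA_symm (G := G) c n c (fun v => (1 - g v) * n v)
  have h6 := AA_symm (G := G) c (fun v => (1 - g v) * n v) c (fun v => g v * n v)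
  linarith

theorem Z4B_gen_le (F0 : Flag G s 0) (τ : ℝ) (hτ : 0 < τ) (hτ0 : τ ≤ tau0 V) (B : ℝ)
    (hB : 0 ≤ B) (z : St V s) (c : V → Fin s) (y : V → ℝ) (hm : F0.IsMx 0 τ z c y)
    (hy : ∀ v, 0 ≤ y v) :
    gen G (fun z => qq z - B * F0.env 0 τ z) z ≤
      2 * (1 + B / τ) * AA G z.c (nR z) z.c (nR z) - 2 * (B / τ) * AA G z.c (nR z) c y +
        (1 + B / τ) * ∑ t, Dn G z t := by
  have hE : |(0 : ℝ)| ≤ cV V + 2 := by
    rw [abs_zero]
    have : (0 : ℝ) ≤ cV V := B1_cV_nonneg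
    linarith
  have hstep : ∀ w, (z.n w : ℝ) * ((qq (step G z w) - B * F0.env 0 τ (step G z w)) -
      (qq z - B * F0.env 0 τ z)) ≤
      (z.n w : ℝ) * (∑ u, if G.Adj w u then
        2 * eps (z.c u) (z.c w) * (z.n u : ℝ) + 1 else 0) +
      B / τ * ((z.n w : ℝ) * (∑ u, if G.Adj w u then
        2 * eps (z.c u) (z.c w) * (z.n u : ℝ) + 1 - 2 * eps (z.c w) (c u) * y u else 0)) := by
    intro w
    have h1 := step_qq (G := G) z w
    have h2 := step_dsq_le (G := G) z w c y (fun u => Or.inl (hy u))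
    have h3 := F0.le_env 0 τ hE hτ hτ0 (step G z w) c y hm.1
    have h4 := F0.env_eq 0 τ z c y hm
    have h5 : F0.val 0 τ (step G z w) c y = F0.val 0 τ z c y -
        (dsq (step G z w).c (nR (step G z w)) c y - dsq z.c (nR z) c y) / τ := by
      unfold Flag.val
      ring
    have h6 : (dsq (step G z w).c (nR (step G z w)) c y - dsq z.c (nR z) c y) / τ ≤
        (∑ u, if G.Adj w u then
        2 * eps (z.c u) (z.c w) * (z.n u : ℝ) + 1 - 2 * eps (z.c w) (c u) * y u else 0) / τ :=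
      div_le_div_of_nonneg_right h2 hτ.le
    have h7 : -(F0.env 0 τ (step G z w) - F0.env 0 τ z) ≤
        (∑ u, if G.Adj w u then
        2 * eps (z.c u) (z.c w) * (z.n u : ℝ) + 1 - 2 * eps (z.c w) (c u) * y u else 0) / τ := by
      rw [h4]
      linarith
    have h8 := mul_le_mul_of_nonneg_left h7 hB
    have h9 : (0 : ℝ) ≤ z.n w := Nat.cast_nonneg _
    have h10 : (qq (step G z w) - B * F0.env 0 τ (step G z w)) - (qq z - B * F0.env 0 τ z) ≤
        (∑ u, if G.Adj w u then 2 * eps (z.c u) (z.c w) * (z.n u : ℝ) + 1 else 0) +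
        B / τ * (∑ u, if G.Adj w u then
        2 * eps (z.c u) (z.c w) * (z.n u : ℝ) + 1 - 2 * eps (z.c w) (c u) * y u else 0) := by
      rw [← h1]
      have h11 : B * ((∑ u, if G.Adj w u then
        2 * eps (z.c u) (z.c w) * (z.n u : ℝ) + 1 - 2 * eps (z.c w) (c u) * y u else 0) / τ) =
        B / τ * (∑ u, if G.Adj w u then
        2 * eps (z.c u) (z.c w) * (z.n u : ℝ) + 1 - 2 * eps (z.c w) (c u) * y u else 0) := by
        ring
      linarith
    have h12 := mul_le_mul_of_nonneg_left h10 h9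
    refine h12.trans (le_of_eq ?_)
    ring
  have hsum : gen G (fun z => qq z - B * F0.env 0 τ z) z ≤
      ∑ w, (z.n w : ℝ) * (∑ u, if G.Adj w u then
        2 * eps (z.c u) (z.c w) * (z.n u : ℝ) + 1 else 0) +
      B / τ * ∑ w, ((z.n w : ℝ) * (∑ u, if G.Adj w u then
        2 * eps (z.c u) (z.c w) * (z.n u : ℝ) + 1 - 2 * eps (z.c w) (c u) * y u else 0)) := by
    unfold gen
    rw [Finset.mul_sum, ← Finset.sum_add_distrib]
    exact Finset.sum_le_sum fun w _ => hstep w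
  have hA1 := A1_weight_eq (G := G) z c y
  have hA2 : ∑ w, (z.n w : ℝ) * (∑ u, if G.Adj w u then
        2 * eps (z.c u) (z.c w) * (z.n u : ℝ) + 1 else 0) =
      2 * AA G z.c (nR z) z.c (nR z) +
      ∑ w, (z.n w : ℝ) * (∑ u, if G.Adj w u then (1 : ℝ) else 0) := by
    rw [← gen_qq]
    unfold gen
    refine Finset.sum_congr rfl fun w _ => ?_
    rw [step_qq]
  rw [hA1, hA2, Z4B_deg] at hsum
  refine hsum.trans (le_of_eq ?_)
  ring

theorem star (F0 : Flag G s 0) (τ : ℝ) (hτ : 0 < τ) (hτ0 : τ ≤ tau0 V) (C0 : ℝ) (hC0 : 0 < C0)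
    (hl : ∀ (c : V → Fin s) (y : V → ℝ),
      |AA G c y c y| ≤ C0 * ∑ v, if y v = 0 then 0 else (Lf G c (c v) v y) ^ 2)
    (B : ℝ) (hB : 8 * C0 ≤ B) :
    ∃ CB > 0, ∀ z : St V s, 1 ≤ tot z → ∀ c y, F0.IsMx 0 τ z c y → ∀ g : V → ℝ,
      (∀ t, 0 ≤ g t ∧ g t ≤ 1) →
      gen G (fun z => qq z - B * F0.env 0 τ z) z -
        (B / τ + 3 / 2) * ∑ t, g t * (2 * (z.n t : ℝ) * ph G z t + Dn G z t) ≤
      ∑ t, g t * (z.n t : ℝ) * ph G z t - B / (4 * τ ^ 2) * dsq z.c (nR z) c y +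
        CB * ∑ t, g t * (z.n t : ℝ) ^ 2 +
        ∑ t, (1 + B / τ - (B / τ + 3 / 2) * g t) * Dn G z t := by
  have hn0 : (0 : ℝ) ≤ cV V := B1_cV_nonneg
  have hB0 : 0 < B := by linarith
  have hν0 : 0 < B / τ := by positivity
  refine ⟨8 * (B / τ) * τ * cV V ^ 3 + 2 * (1 + B / τ) * cV V + 2 / τ + 9 / 8 * (B / τ) / τ,
    by positivity, ?_⟩
  intro z hz c y hm g hg
  set ν := B / τ with hν
  have hy : ∀ v, 0 ≤ y v := by
    intro v
    apply hm.1.2 v
    intro hv
    obtain ⟨j, -⟩ := F0.cover v hv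
    exact j.elim0
  have hI : ∀ (c' : V → Fin s), ∀ v ∈ F0.I, c' v = F0.σ v := by
    intro c' v hv
    obtain ⟨j, -⟩ := F0.cover v hv
    exact j.elim0
  have hgen := Z4B_gen_le F0 τ hτ hτ0 B hB0.le z c y hm hy
  rw [← hν] at hgen
  -- the vectors
  set n : V → ℝ := nR z with hn
  have hnn : ∀ v, 0 ≤ n v := fun v => by rw [hn]; unfold nR; exact Nat.cast_nonneg _
  set ng : V → ℝ := fun v => g v * n v with hng
  set nh : V → ℝ := fun v => (1 - g v) * n v with hnh
  have hngn : ∀ v, 0 ≤ ng v := fun v => mul_nonneg (hg v).1 (hnn v)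
  have hnhn : ∀ v, 0 ≤ nh v := fun v => mul_nonneg (by linarith [(hg v).2]) (hnn v)
  set q : ℝ := ∑ v, ng v ^ 2 with hq
  have hq0 : 0 ≤ q := Finset.sum_nonneg fun v _ => sq_nonneg _
  have hqle : q ≤ ∑ t, g t * (z.n t : ℝ) ^ 2 := by
    rw [hq]
    refine Finset.sum_le_sum fun v _ => ?_
    have h1 : ng v ^ 2 = g v ^ 2 * (z.n v : ℝ) ^ 2 := by
      rw [hng]
      show (g v * n v) ^ 2 = _
      rw [hn]
      unfold nR
      ring
    rw [h1]
    apply mul_le_mul_of_nonneg_right _ (sq_nonneg _)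
    have := hg v
    nlinarith
  set D : ℝ := dsq z.c n c y with hD
  have hD0 : 0 ≤ D := dsq_nonneg _ _ _ _
  set d : ℝ := Real.sqrt D with hd
  have hd0 : 0 ≤ d := Real.sqrt_nonneg _
  have hd2 : d ^ 2 = D := Real.sq_sqrt hD0
  -- splitting
  have hs1 := Z4B_split' (G := G) z.c n g
  have hs2 := Z4B_split (G := G) z.c n g c y
  rw [← hng, ← hnh] at hs1 hs2
  -- the sum with `ph`
  have hph : ∑ t, g t * (z.n t : ℝ) * ph G z t = AA G z.c ng z.c n := by
    rw [Z4B_AA_Lf]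
    refine Finset.sum_congr rfl fun v _ => ?_
    rfl
  -- (1) |AA(g,z) - AA(g,y)|
  set P : ℝ := ∑ v, ng v with hP
  have hP0 : 0 ≤ P := Finset.sum_nonneg fun v _ => hngn v
  have hP2 : P ^ 2 ≤ cV V * q := by
    have h1 := sq_sum_le_card_mul_sum_sq (s := (Finset.univ : Finset V)) (f := ng)
    rw [Finset.card_univ] at h1
    exact h1
  have hb1 : AA G z.c ng z.c n - AA G z.c ng c y ≤ cV V * d * P := by
    rw [Z4B_AA_Lf, Z4B_AA_Lf, ← Finset.sum_sub_distrib, hP, Finset.mul_sum]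
    refine Finset.sum_le_sum fun v _ => ?_
    have h1 := (abs_le.1 (Lf_sub_le (G := G) z c y hy v (z.c v))).1
    have h2 : Lf G z.c (z.c v) v n - Lf G c (z.c v) v y ≤ cV V * d := by
      rw [hd, hD, hn]
      linarith
    have h3 := mul_le_mul_of_nonneg_left h2 (hngn v)
    linarith
  -- (2)
  have hb2 : -(cV V * q) ≤ AA G z.c ng z.c ng :=
    (abs_le.1 (AA_self_le (G := G) z.c ng)).1
  -- (3) candidate
  have hcand := hm.2 z.c nh ⟨hI z.c, fun v _ => hnhn v⟩
  have hAAy : F0.val 0 τ z c y = AA G c y c y - D / τ := by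
    unfold Flag.val Flag.Th
    simp [hD, hn]
  have hdh : dsq z.c n z.c nh = q := by
    rw [hq]
    unfold dsq
    refine Finset.sum_congr rfl fun v _ => ?_
    have h1 : eps (z.c v) (z.c v) = 1 := by unfold eps; rw [if_pos rfl]
    rw [h1, hng, hnh]
    ring
  have hAAh : F0.val 0 τ z z.c nh = AA G z.c nh z.c nh - q / τ := by
    unfold Flag.val Flag.Th
    rw [← hn, hdh]
    simp
  rw [hAAy, hAAh] at hcand
  -- (4) four point
  have hfp := four_point (G := G) z.c nh c y (fun v => Or.inr ⟨hnhn v, hy v⟩)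
  have htri : dsq z.c nh c y ≤ 2 * q + 2 * D := by
    have h1 := dsq_tri z.c nh z.c n c y (fun v => Or.inr ⟨hnhn v, hnn v, hy v⟩)
    rw [dsq_comm z.c nh z.c n, hdh, ← hD] at h1
    have h2 := Real.sq_sqrt (dsq_nonneg z.c nh c y)
    have h3 := Real.sq_sqrt hq0
    have h4 := Real.sqrt_nonneg (dsq z.c nh c y)
    have h5 := Real.sqrt_nonneg q
    rw [← hd] at h1
    nlinarith [sq_nonneg (Real.sqrt q - d)]
  have hτ1 : 2 * cV V ≤ 1 / (8 * τ) := by
    unfold tau0 at hτ0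
    have h1 : 0 < 16 * (cV V + 2) ^ 2 := by positivity
    rw [le_div_iff₀ h1] at hτ0
    rw [le_div_iff₀ (by positivity)]
    nlinarith [mul_nonneg hτ.le hn0, mul_nonneg (mul_nonneg hτ.le hn0) hn0]
  have hb3 : 2 * AA G z.c nh z.c nh - 2 * AA G z.c nh c y ≤ -(7 / 8) * (D / τ) + 9 / 8 * (q / τ) := by
    have h1 : cV V * dsq z.c nh c y ≤ 2 * cV V * (q + D) := by
      have := mul_le_mul_of_nonneg_left htri hn0
      linarith
    have h2 : 2 * cV V * (q + D) ≤ 1 / (8 * τ) * (q + D) :=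
      mul_le_mul_of_nonneg_right hτ1 (by positivity)
    have h3 : 1 / (8 * τ) * (q + D) = 1 / 8 * (q / τ) + 1 / 8 * (D / τ) := by
      field_simp
    linarith
  -- (5) Lojasiewicz
  have hb4 : AA G c y c y ≤ C0 * (D / τ ^ 2) := by
    refine (le_abs_self _).trans ((hl c y).trans ?_)
    apply mul_le_mul_of_nonneg_left _ hC0.le
    rw [hD]
    unfold dsq
    rw [Finset.sum_div]
    refine Finset.sum_le_sum fun v _ => ?_
    split_ifs with h0
    · positivity
    · have hyv : 0 < y v := lt_of_le_of_ne (hy v) (Ne.symm h0)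
      rw [mx0_stat F0 τ hτ hτ0 z hz c y hm v hyv, div_pow]
      apply div_le_div_of_nonneg_right _ (by positivity)
      have e1 := A1_eps_sq (z.c v) (c v)
      have e2 : (n v - eps (z.c v) (c v) * y v) ^ 2 - (y v - eps (z.c v) (c v) * (z.n v : ℝ)) ^ 2 =
          (n v ^ 2 - y v ^ 2) * (1 - eps (z.c v) (c v) * eps (z.c v) (c v)) := by
        rw [hn]
        unfold nR
        ring
      rw [e1, sub_self, mul_zero] at e2
      linarith
  have hb5 : 2 * AA G z.c nh z.c nh ≤ 2 * (C0 * (D / τ ^ 2)) + 2 * (q / τ) := by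
    have h1 : 0 ≤ D / τ := by positivity
    linarith
  -- (6) cross term
  have hb6 : 2 * (cV V * d * P) ≤ D / (8 * τ) + 8 * τ * (cV V ^ 3 * q) := by
    have h1 : 0 ≤ (d - 8 * τ * (cV V * P)) ^ 2 := sq_nonneg _
    have h2 : 2 * (cV V * d * P) ≤ d ^ 2 / (8 * τ) + 8 * τ * (cV V * P) ^ 2 := by
      rw [← sub_nonneg]
      have h3 : d ^ 2 / (8 * τ) + 8 * τ * (cV V * P) ^ 2 - 2 * (cV V * d * P) =
          (d - 8 * τ * (cV V * P)) ^ 2 / (8 * τ) := by
        field_simp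
        ring
      rw [h3]
      positivity
    have h4 : (cV V * P) ^ 2 ≤ cV V ^ 3 * q := by
      rw [mul_pow]
      have := mul_le_mul_of_nonneg_left hP2 (sq_nonneg (cV V))
      linarith
    have h5 := mul_le_mul_of_nonneg_left h4 (by positivity : (0 : ℝ) ≤ 8 * τ)
    rw [hd2] at h2
    linarith
  -- assembly
  have hsumg : ∑ t, g t * (2 * (z.n t : ℝ) * ph G z t + Dn G z t) =
      2 * AA G z.c ng z.c n + ∑ t, g t * Dn G z t := by
    rw [← hph, Finset.mul_sum, ← Finset.sum_add_distrib]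
    refine Finset.sum_congr rfl fun v _ => ?_
    ring
  have hsumD : ∑ t, (1 + ν - (ν + 3 / 2) * g t) * Dn G z t =
      (1 + ν) * ∑ t, Dn G z t - (ν + 3 / 2) * ∑ t, g t * Dn G z t := by
    rw [Finset.mul_sum, Finset.mul_sum, ← Finset.sum_sub_distrib]
    refine Finset.sum_congr rfl fun v _ => ?_
    ring
  rw [hsumg, hsumD, hph]
  have hk1 : ν * (AA G z.c ng z.c n - AA G z.c ng c y) * 2 ≤
      ν * (D / (8 * τ) + 8 * τ * (cV V ^ 3 * q)) := by
    have := mul_le_mul_of_nonneg_left hb1 hν0.le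
    have h2 := mul_le_mul_of_nonneg_left hb6 hν0.le
    linarith
  have hk2 : -(2 * (1 + ν) * AA G z.c ng z.c ng) ≤ 2 * (1 + ν) * (cV V * q) := by
    have := mul_le_mul_of_nonneg_left hb2 (by positivity : (0 : ℝ) ≤ 2 * (1 + ν))
    linarith
  have hk3 := mul_le_mul_of_nonneg_left hb3 hν0.le
  have hk4 : (8 * ν * τ * cV V ^ 3 + 2 * (1 + ν) * cV V + 2 / τ + 9 / 8 * ν / τ) * q ≤
      (8 * ν * τ * cV V ^ 3 + 2 * (1 + ν) * cV V + 2 / τ + 9 / 8 * ν / τ) *
        ∑ t, g t * (z.n t : ℝ) ^ 2 :=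
    mul_le_mul_of_nonneg_left hqle (by positivity)
  have hk5 : ν * (D / (8 * τ)) + ν * (-(7 / 8) * (D / τ)) + 2 * (C0 * (D / τ ^ 2)) ≤
      -(B / (4 * τ ^ 2) * D) := by
    have h1 : ν * (D / (8 * τ)) + ν * (-(7 / 8) * (D / τ)) + 2 * (C0 * (D / τ ^ 2)) =
        (2 * C0 - 3 / 4 * B) * (D / τ ^ 2) := by
      rw [hν]
      field_simp
      ring
    have h2 : -(B / (4 * τ ^ 2) * D) = (-(1 / 4) * B) * (D / τ ^ 2) := by
      field_simp
    rw [h1, h2]
    apply mul_le_mul_of_nonneg_right _ (by positivity)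
    linarith
  have hk6 : ν * (8 * τ * (cV V ^ 3 * q)) + 2 * (1 + ν) * (cV V * q) + ν * (9 / 8 * (q / τ)) +
      2 * (q / τ) =
      (8 * ν * τ * cV V ^ 3 + 2 * (1 + ν) * cV V + 2 / τ + 9 / 8 * ν / τ) * q := by
    field_simp
    ring
  have hid : 2 * (1 + ν) * AA G z.c n z.c n - 2 * ν * AA G z.c n c y -
      (ν + 3 / 2) * (2 * AA G z.c ng z.c n) =
      AA G z.c ng z.c n + ν * (AA G z.c ng z.c n - AA G z.c ng c y) * 2 +
      -(2 * (1 + ν) * AA G z.c ng z.c ng) + 2 * AA G z.c nh z.c nh +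
      ν * (2 * AA G z.c nh z.c nh - 2 * AA G z.c nh c y) := by
    rw [hs1, hs2]
    ring
  nlinarith [hgen, hk1, hk2, hk3, hk4, hk5, hk6, hid, hb5]

end UC
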