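import Pool.Agent.helper25.UC.Z5

/-!
# Z5B : the generator of `bb = ρ Ph X (n_t²/ρ)`

`n0 = card V`, `ρ = √(qq z)`, `m = n_t²`, `x = m/ρ`, `N = tot z`; `ρ ≤ N ≤ √n0 ρ`.  `N ≥ T0` large.
One step: `m', ρ'`, `|ρ'-ρ| ≤ √n0` (`rho_step`), `|m'-m| ≤ 2n_t+1`, `x' = m'/ρ'`.
* Algebra: `ρ' Ph x + dPh x (m' - ρ' x) = bb + dPh x (m'-m) + (Ph x - x dPh x)(ρ'-ρ)`.  So by
  `Ph_tangent` `bb' ≥ bb + dPh x (m'-m) + (Ph x - x dPh x)(ρ'-ρ) - ρ'(x'-x)²/(2X)`, and without the
  last term if `x, x' ≤ X` or if `x, x' ≥ 2X` (`Ph` is affine there).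
* If `x < X/2` then `x' ≤ X` (`ρ` large), and `Ph x - x dPh x = 0`.  If `x ≥ 4X` then `x' ≥ 2X`.  If
  `x < 4X`: `|x'-x| = |(m'-m) - x(ρ'-ρ)|/ρ' ≤ (4√(Xρ) + 1 + 4X√n0)/ρ'`, so `ρ'(x'-x)²/(2X) ≤ 20` for
  `ρ` large.
* Sum with the weights `n_w`: `∑_w n_w (m'-m) = gen (n_t²) = 2n_tφ_t + D_t` (`gen_sq`),
  `∑ n_w |ρ'-ρ| ≤ √n0 N`: first claim.
* Second claim: `x ≥ 4X`: `Ph` is constant at `x, x'`: `|bb'-bb| ≤ (3/2) X √n0`.  Otherwise
  `|bb'-bb| ≤ ρ'|Ph x' - Ph x| + Ph x |ρ'-ρ| ≤ ρ'|x'-x| + (3/2)X√n0 ≤ 4√(Xρ) + C` (`Ph` is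
  `1`-Lipschitz on `[0,∞)`: prove it from `Ph_tangent` or directly), `≤ C √ρ` as `ρ ≥ 1`.
-/

namespace UC
open Finset
variable {V : Type} [Fintype V] [DecidableEq V] {s k : ℕ}
variable {G : SimpleGraph V} [DecidableRel G.Adj]

/-- `Ph` is nondecreasing and `1`-Lipschitz -/
theorem Z5B_mono (X a b : ℝ) (hX : 1 ≤ X) (hab : a ≤ b) :
    0 ≤ Ph X b - Ph X a ∧ Ph X b - Ph X a ≤ b - a := by
  have hX0 : 0 < X := by linarith
  have e1 : ∀ x : ℝ, 2 * x - x ^ 2 / (2 * X) - X / 2 = X + (x - X) * (3 * X - x) / (2 * X) := by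
    intro x
    field_simp
    ring
  have e2 : ∀ x : ℝ, 2 * x - x ^ 2 / (2 * X) - X / 2 = x - (x - X) ^ 2 / (2 * X) := by
    intro x
    field_simp
    ring
  unfold Ph
  by_cases ha : a ≤ X
  · rw [if_pos ha]
    by_cases hb : b ≤ X
    · rw [if_pos hb]
      constructor <;> linarith
    · rw [if_neg hb]
      push Not at hb
      by_cases hb2 : b ≤ 2 * X
      · rw [if_pos hb2]
        constructor
        · rw [e1]
          have h1 : 0 ≤ (b - X) * (3 * X - b) / (2 * X) := by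
            apply div_nonneg _ (by linarith)
            apply mul_nonneg <;> linarith
          linarith
        · rw [e2]
          have h1 : 0 ≤ (b - X) ^ 2 / (2 * X) := by positivity
          linarith
      · rw [if_neg hb2]
        push Not at hb2
        constructor <;> linarith
  · rw [if_neg ha]
    push Not at ha
    have hb : ¬ b ≤ X := by
      push Not
      linarith
    rw [if_neg hb]
    push Not at hb
    by_cases ha2 : a ≤ 2 * X
    · rw [if_pos ha2]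
      by_cases hb2 : b ≤ 2 * X
      · rw [if_pos hb2]
        have e3 : 2 * b - b ^ 2 / (2 * X) - X / 2 - (2 * a - a ^ 2 / (2 * X) - X / 2) =
            (b - a) * ((4 * X - (a + b)) / (2 * X)) := by
          field_simp
          ring
        rw [e3]
        have h1 : 0 ≤ (4 * X - (a + b)) / (2 * X) := by
          apply div_nonneg <;> linarith
        have h2 : (4 * X - (a + b)) / (2 * X) ≤ 1 := by
          rw [div_le_one (by linarith)]
          linarith
        constructor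
        · exact mul_nonneg (by linarith) h1
        · exact mul_le_of_le_one_right (by linarith) h2
      · rw [if_neg hb2]
        push Not at hb2
        have e3 : 3 * X / 2 - (2 * a - a ^ 2 / (2 * X) - X / 2) = (2 * X - a) ^ 2 / (2 * X) := by
          field_simp
          ring
        rw [e3]
        constructor
        · positivity
        · have h2 : (2 * X - a) ^ 2 / (2 * X) ≤ 2 * X - a := by
            rw [div_le_iff₀ (by linarith), sq]
            apply mul_le_mul_of_nonneg_left _ (by linarith)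
            linarith
          linarith
    · rw [if_neg ha2]
      push Not at ha2
      have hb2 : ¬ b ≤ 2 * X := by
        push Not
        linarith
      rw [if_neg hb2]
      constructor <;> linarith

theorem Z5B_lip (X a b : ℝ) (hX : 1 ≤ X) : |Ph X b - Ph X a| ≤ |b - a| := by
  rcases le_total a b with h | h
  · obtain ⟨h1, h2⟩ := Z5B_mono X a b hX h
    rw [abs_of_nonneg h1, abs_of_nonneg (by linarith)]
    exact h2
  · obtain ⟨h1, h2⟩ := Z5B_mono X b a hX h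
    rw [abs_sub_comm, abs_of_nonneg h1, abs_sub_comm b a, abs_of_nonneg (by linarith)]
    exact h2

/-- one step, real numbers only -/
theorem Z5B_core (X a ρ ρ' n n' : ℝ) (hX : 1 ≤ X) (ha : 0 ≤ a)
    (hρ : 32 + 18 * a + (1 + 4 * X * a) ^ 2 ≤ ρ) (h1 : |ρ' - ρ| ≤ a) (hn : 0 ≤ n)
    (hn' : 0 ≤ n') (h2 : n' ≤ n + 1) (h3 : n - 1 ≤ n') :
    |ρ' * Ph X (n' ^ 2 / ρ') - ρ * Ph X (n ^ 2 / ρ)| ≤
      (4 * X + (1 + 4 * X * a) + 3 / 2 * X * a + 1) * Real.sqrt ρ ∧
    dPh X (n ^ 2 / ρ) * (n' ^ 2 - n ^ 2) +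
      (Ph X (n ^ 2 / ρ) - n ^ 2 / ρ * dPh X (n ^ 2 / ρ)) * (ρ' - ρ) -
      (if X * ρ / 2 ≤ n ^ 2 then 20 else 0) ≤
      ρ' * Ph X (n' ^ 2 / ρ') - ρ * Ph X (n ^ 2 / ρ) := by
  have hX0 : 0 < X := by linarith
  have hc0 : 0 ≤ 4 * X * a := by positivity
  have hc1 : 0 ≤ 3 / 2 * X * a := by positivity
  have hcsq : 0 ≤ (1 + 4 * X * a) ^ 2 := sq_nonneg _
  have hρ0 : 0 < ρ := by linarith
  have h4 := abs_le.1 h1
  have hρ' : 8 / 9 * ρ ≤ ρ' := by linarith [h4.1]
  have hρ'0 : 0 < ρ' := by linarith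
  have hs1 : 1 ≤ Real.sqrt ρ := by
    rw [Real.one_le_sqrt]
    linarith
  have hs2 : Real.sqrt ρ ^ 2 = ρ := Real.sq_sqrt hρ0.le
  -- change of the square
  have h5 : |n' ^ 2 - n ^ 2| ≤ 2 * n + 1 := by
    rw [abs_le]
    constructor
    · rcases le_total n 1 with h | h
      · nlinarith
      · nlinarith
    · nlinarith
  -- bound of `2 n + ...` by the root
  have h6 : n ^ 2 < 4 * X * ρ → 2 * n ≤ 4 * X * Real.sqrt ρ := by
    intro h
    have h7 : n ^ 2 ≤ (2 * X * Real.sqrt ρ) ^ 2 := by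
      rw [mul_pow, hs2]
      nlinarith
    have h8 : n ≤ 2 * X * Real.sqrt ρ := by
      apply le_of_sq_le_sq h7 |> fun h => h
      positivity
    linarith
  rcases lt_or_ge (n ^ 2) (X * ρ / 2) with hsm | hsm
  · -- small `x`
    rw [if_neg (not_le.2 hsm)]
    have hx : n ^ 2 / ρ ≤ X := by
      rw [div_le_iff₀ hρ0]
      nlinarith
    have hx' : n' ^ 2 / ρ' ≤ X := by
      rw [div_le_iff₀ hρ'0]
      have h7 : n' ^ 2 ≤ (n + 1) ^ 2 := by nlinarith
      have h8 : (n + 1) ^ 2 ≤ 5 / 4 * n ^ 2 + 5 := by nlinarith [sq_nonneg (n - 4)]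
      have h9 : X * (8 / 9 * ρ) ≤ X * ρ' := mul_le_mul_of_nonneg_left hρ' hX0.le
      have h10 : 1 * 32 ≤ X * ρ := mul_le_mul hX (by linarith) (by norm_num) hX0.le
      linarith
    have e1 : Ph X (n ^ 2 / ρ) = n ^ 2 / ρ := by
      unfold Ph
      rw [if_pos hx]
    have e2 : Ph X (n' ^ 2 / ρ') = n' ^ 2 / ρ' := by
      unfold Ph
      rw [if_pos hx']
    have e3 : dPh X (n ^ 2 / ρ) = 1 := by
      unfold dPh
      rw [if_pos hx]
    rw [e1, e2, e3, mul_div_cancel₀ _ hρ'0.ne', mul_div_cancel₀ _ hρ0.ne']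
    constructor
    · refine h5.trans ?_
      have h7 := h6 (by nlinarith)
      nlinarith
    · linarith
  · rw [if_pos hsm]
    rcases lt_or_ge (n ^ 2) (4 * X * ρ) with hmid | hbig
    · -- middle
      have hx0 : 0 ≤ n ^ 2 / ρ := by positivity
      have hx'0 : 0 ≤ n' ^ 2 / ρ' := by positivity
      have hx4 : n ^ 2 / ρ ≤ 4 * X := by
        rw [div_le_iff₀ hρ0]
        exact hmid.le
      set x := n ^ 2 / ρ with hx
      have hm : n ^ 2 = ρ * x := by
        rw [hx, mul_div_cancel₀ _ hρ0.ne']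
      set D := (n' ^ 2 - n ^ 2) - x * (ρ' - ρ) with hD
      have e1 : n' ^ 2 / ρ' - x = D / ρ' := by
        rw [hD, hm]
        field_simp
        ring
      have hDle : |D| ≤ 2 * n + (1 + 4 * X * a) := by
        have h7 : |D| ≤ |n' ^ 2 - n ^ 2| + |x * (ρ' - ρ)| := abs_sub _ _
        have h8 : |x * (ρ' - ρ)| ≤ 4 * X * a := by
          rw [abs_mul, abs_of_nonneg hx0]
          exact mul_le_mul hx4 h1 (abs_nonneg _) (by linarith)
        linarith
      have hDsq : D ^ 2 ≤ 40 * X * ρ' := by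
        have h7 : D ^ 2 ≤ (2 * n + (1 + 4 * X * a)) ^ 2 := sq_le_sq' (by
          have := neg_abs_le D
          linarith) (le_trans (le_abs_self D) hDle)
        have h8 : (2 * n + (1 + 4 * X * a)) ^ 2 ≤ 8 * n ^ 2 + 2 * (1 + 4 * X * a) ^ 2 := by
          nlinarith [sq_nonneg (2 * n - (1 + 4 * X * a))]
        have h9 : X * (8 / 9 * ρ) ≤ X * ρ' := mul_le_mul_of_nonneg_left hρ' hX0.le
        have h10 : 1 * ρ ≤ X * ρ := mul_le_mul_of_nonneg_right hX hρ0.le
        have h11 : (1 + 4 * X * a) ^ 2 ≤ ρ := by linarith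
        nlinarith
      have e2 : ρ' * (n' ^ 2 / ρ' - x) = D := by
        rw [e1, mul_div_cancel₀ _ hρ'0.ne']
      have e3 : ρ' * (n' ^ 2 / ρ' - x) ^ 2 / (2 * X) ≤ 20 := by
        rw [e1, div_pow]
        have h7 : ρ' * (D ^ 2 / ρ' ^ 2) / (2 * X) = D ^ 2 / (2 * X * ρ') := by
          field_simp
        rw [h7, div_le_iff₀ (by positivity)]
        linarith
      constructor
      · have h7 : ρ' * Ph X (n' ^ 2 / ρ') - ρ * Ph X x =
            ρ' * (Ph X (n' ^ 2 / ρ') - Ph X x) + Ph X x * (ρ' - ρ) := by ring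
        rw [h7]
        have h8 : |ρ' * (Ph X (n' ^ 2 / ρ') - Ph X x)| ≤ |D| := by
          rw [abs_mul, abs_of_pos hρ'0, ← e2, abs_mul, abs_of_pos hρ'0]
          exact mul_le_mul_of_nonneg_left (Z5B_lip X _ _ hX) hρ'0.le
        have h9 : |Ph X x * (ρ' - ρ)| ≤ 3 / 2 * X * a := by
          rw [abs_mul, abs_of_nonneg (Ph_nonneg X x hX hx0)]
          exact mul_le_mul (Ph_le X x hX) h1 (abs_nonneg _) (by linarith)
        have h10 := abs_add_le (ρ' * (Ph X (n' ^ 2 / ρ') - Ph X x)) (Ph X x * (ρ' - ρ))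
        have h11 := h6 hmid
        nlinarith
      · have h7 := mul_le_mul_of_nonneg_left (Ph_tangent X x (n' ^ 2 / ρ') hX hx0 hx'0) hρ'0.le
        have h8 : ρ' * (Ph X x + dPh X x * (n' ^ 2 / ρ' - x) -
            (n' ^ 2 / ρ' - x) ^ 2 / (2 * X)) =
            ρ' * Ph X x + dPh X x * (ρ' * (n' ^ 2 / ρ' - x)) -
              ρ' * (n' ^ 2 / ρ' - x) ^ 2 / (2 * X) := by ring
        rw [h8, e2] at h7
        have h9 : dPh X x * D = dPh X x * (n' ^ 2 - n ^ 2) - x * dPh X x * (ρ' - ρ) := by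
          rw [hD]
          ring
        rw [h9] at h7
        linarith
    · -- large `x`
      have hX2 : 1 * 32 ≤ X * ρ := mul_le_mul hX (by linarith) (by norm_num) hX0.le
      have hXa : X * a ≤ X * (ρ / 18) := mul_le_mul_of_nonneg_left (by linarith) hX0.le
      have hx : 2 * X < n ^ 2 / ρ := by
        rw [lt_div_iff₀ hρ0]
        linarith
      have hx' : 2 * X < n' ^ 2 / ρ' := by
        rw [lt_div_iff₀ hρ'0]
        have h7 : 1 ≤ n := by
          by_contra h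
          push Not at h
          nlinarith
        have h8 : (n - 1) ^ 2 ≤ n' ^ 2 := by nlinarith
        have h9 : 3 / 4 * n ^ 2 - 3 ≤ (n - 1) ^ 2 := by nlinarith [sq_nonneg (n - 4)]
        have h10 : X * ρ' ≤ X * (ρ + a) := mul_le_mul_of_nonneg_left (by linarith [h4.2]) hX0.le
        linarith
      have e1 : Ph X (n ^ 2 / ρ) = 3 * X / 2 := by
        unfold Ph
        rw [if_neg (by linarith), if_neg (by linarith)]
      have e2 : Ph X (n' ^ 2 / ρ') = 3 * X / 2 := by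
        unfold Ph
        rw [if_neg (by linarith), if_neg (by linarith)]
      have e3 : dPh X (n ^ 2 / ρ) = 0 := by
        unfold dPh
        rw [if_neg (by linarith), if_neg (by linarith)]
      rw [e1, e2, e3]
      constructor
      · have h7 : ρ' * (3 * X / 2) - ρ * (3 * X / 2) = 3 / 2 * X * (ρ' - ρ) := by ring
        rw [h7, abs_mul, abs_of_pos (by positivity)]
        have h8 : 3 / 2 * X * |ρ' - ρ| ≤ 3 / 2 * X * a :=
          mul_le_mul_of_nonneg_left h1 (by positivity)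
        nlinarith
      · linarith

theorem bb_gen (G : SimpleGraph V) [DecidableRel G.Adj] (s : ℕ) (X : ℝ) (hX : 1 ≤ X) :
    ∃ C > 0, ∃ T0 ≥ 1, ∀ (z : St V s) (t : V), T0 ≤ tot z →
      (∀ w, 1 ≤ z.n w → |bb X t (step G z w) - bb X t z| ≤ C * Real.sqrt (Real.sqrt (qq z))) ∧
      dPh X ((z.n t : ℝ) ^ 2 / Real.sqrt (qq z)) * (2 * (z.n t : ℝ) * ph G z t + Dn G z t) -
        (if X * Real.sqrt (qq z) / 2 ≤ (z.n t : ℝ) ^ 2 then
          (3 / 2 * X * Real.sqrt (cV V) + 20) * tot z else 0) ≤ gen G (bb X t) z := by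
  set a := Real.sqrt (cV V) with ha
  have ha0 : 0 ≤ a := Real.sqrt_nonneg _
  have hX0 : 0 < X := by linarith
  refine ⟨4 * X + (1 + 4 * X * a) + 3 / 2 * X * a + 1, by positivity,
    a * (32 + 18 * a + (1 + 4 * X * a) ^ 2) + 1, ?_, ?_⟩
  · have : 0 ≤ a * (32 + 18 * a + (1 + 4 * X * a) ^ 2) := by positivity
    linarith
  intro z t hz
  have hρ : 32 + 18 * a + (1 + 4 * X * a) ^ 2 ≤ Real.sqrt (qq z) := by
    by_contra h
    push Not at h
    have h1 := tot_le_rho z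
    rw [← ha] at h1
    have h2 := mul_le_mul_of_nonneg_left h.le ha0
    linarith
  have hcore := fun w : V => Z5B_core X a (Real.sqrt (qq z)) (Real.sqrt (qq (step G z w)))
    (z.n t : ℝ) ((step G z w).n t : ℝ) hX ha0 hρ (rho_step z w) (Nat.cast_nonneg _)
    (Nat.cast_nonneg _) (A1_n_le z w t) (A1_n_ge z w t)
  refine ⟨fun w _ => (hcore w).1, ?_⟩
  set ρ := Real.sqrt (qq z) with hρd
  set x := (z.n t : ℝ) ^ 2 / ρ with hx
  have hx0 : 0 ≤ x := by positivity
  obtain ⟨hs1, hs2, hs3⟩ := Ph_sub X x hX hx0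
  -- lower bound of every term
  have h1 : ∀ w : V, (z.n w : ℝ) * (dPh X x * (((step G z w).n t : ℝ) ^ 2 - (z.n t : ℝ) ^ 2) +
      (Ph X x - x * dPh X x) * (Real.sqrt (qq (step G z w)) - ρ) -
      (if X * ρ / 2 ≤ (z.n t : ℝ) ^ 2 then 20 else 0)) ≤
      (z.n w : ℝ) * (bb X t (step G z w) - bb X t z) := by
    intro w
    exact mul_le_mul_of_nonneg_left (hcore w).2 (Nat.cast_nonneg _)
  have h2 : ∀ w : V, (z.n w : ℝ) * (dPh X x * (((step G z w).n t : ℝ) ^ 2 - (z.n t : ℝ) ^ 2)) -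
      (if X * ρ / 2 ≤ (z.n t : ℝ) ^ 2 then 3 / 2 * X * a + 20 else 0) * (z.n w : ℝ) ≤
      (z.n w : ℝ) * (bb X t (step G z w) - bb X t z) := by
    intro w
    refine le_trans ?_ (h1 w)
    have h3 : -(if X * ρ / 2 ≤ (z.n t : ℝ) ^ 2 then 3 / 2 * X * a else 0) ≤
        (Ph X x - x * dPh X x) * (Real.sqrt (qq (step G z w)) - ρ) := by
      have h4 : |(Ph X x - x * dPh X x) * (Real.sqrt (qq (step G z w)) - ρ)| ≤
          (if X * ρ / 2 ≤ (z.n t : ℝ) ^ 2 then 3 / 2 * X * a else 0) := by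
        rw [abs_mul, abs_of_nonneg hs1]
        split_ifs with hif
        · exact mul_le_mul hs2 (rho_step z w) (abs_nonneg _) (by positivity)
        · have h5 : x ≤ X := by
            push Not at hif
            rw [hx, div_le_iff₀ (by linarith [sq_nonneg (1 + 4 * X * a)])]
            have : 0 ≤ X * ρ := by positivity
            linarith
          rw [hs3 h5, zero_mul]
      linarith [(abs_le.1 h4).1]
    have h6 : (0 : ℝ) ≤ (z.n w : ℝ) := Nat.cast_nonneg _
    have h7 : dPh X x * (((step G z w).n t : ℝ) ^ 2 - (z.n t : ℝ) ^ 2) -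
        (if X * ρ / 2 ≤ (z.n t : ℝ) ^ 2 then 3 / 2 * X * a + 20 else 0) ≤
        dPh X x * (((step G z w).n t : ℝ) ^ 2 - (z.n t : ℝ) ^ 2) +
      (Ph X x - x * dPh X x) * (Real.sqrt (qq (step G z w)) - ρ) -
      (if X * ρ / 2 ≤ (z.n t : ℝ) ^ 2 then 20 else 0) := by
      split_ifs at h3 ⊢ <;> linarith
    have h8 := mul_le_mul_of_nonneg_left h7 h6
    linarith
  have h3 := Finset.sum_le_sum fun w (_ : w ∈ (Finset.univ : Finset V)) => h2 w
  have h4 : gen G (bb X t) z = ∑ w, (z.n w : ℝ) * (bb X t (step G z w) - bb X t z) := rfl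
  rw [h4]
  refine le_trans (le_of_eq ?_) h3
  rw [Finset.sum_sub_distrib, ← Finset.mul_sum, ← gen_sq]
  have h5 : ∑ w, (z.n w : ℝ) * (dPh X x * (((step G z w).n t : ℝ) ^ 2 - (z.n t : ℝ) ^ 2)) =
      dPh X x * gen G (fun y => ((y.n t : ℕ) : ℝ) ^ 2) z := by
    unfold gen
    rw [Finset.mul_sum]
    refine Finset.sum_congr rfl fun w _ => ?_
    ring
  rw [h5]
  congr 1
  unfold tot
  split_ifs
  · rfl
  · rw [zero_mul]

end UC
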