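import Pool.Agent.helper25.UC.Z5B

/-!
# Z5C : the generator of the correction terms

`n0 = card V`, `ρ = √(qq z)`, `N = tot z`; `ρ ≤ N ≤ √n0 ρ`, `N ≥ T0` large.
* `chi_step`: `p_u = n_u/ρ`, `|n'_u - n_u| ≤ 1`, `|ρ'-ρ| ≤ √n0`, `ρ' ≥ ρ/2` (`ρ` large):
  `|p'_u - p_u| = |(n'-n)ρ - n(ρ'-ρ)|/(ρρ') ≤ 2(1+√n0)/ρ`; `om` is `(2/κ)`-Lipschitz (`ss_lip`); a product
  of numbers in `[0,1]` is `1`-Lipschitz in each (`|∏β - ∏α| ≤ ∑|β_u - α_u|`,
  e.g. `Finset.abs_prod_sub_prod_le` or induction).  So `|chi' - chi| ≤ C/ρ`.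
* `|gen chi| ≤ ∑ n_w |chi'-chi| ≤ N C/ρ ≤ C √n0`.
* `corr = chi · bb`: `(chi bb)' - chi bb = chi (bb'-bb) + bb (chi'-chi) + (chi'-chi)(bb'-bb)`; sum with
  the weights `n_w`: `gen corr = chi gen bb + bb gen chi + ∑ n_w (chi'-chi)(bb'-bb)`,
  `0 ≤ bb ≤ (3/2)Xρ`, `chi ≥ 0`, last sum `≥ - N (C/ρ)(C√ρ) ≥ - C √n0 √ρ ≥ - C √N`.
-/

namespace UC
open Finset
variable {V : Type} [Fintype V] [DecidableEq V] {s k : ℕ}
variable {G : SimpleGraph V} [DecidableRel G.Adj]

/-- a product of numbers in `[0,1]` is `1`-Lipschitz in every factor -/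
theorem Z5C_prod {ι : Type} [DecidableEq ι] (S : Finset ι) (a b : ι → ℝ)
    (ha : ∀ i, 0 ≤ a i ∧ a i ≤ 1) (hb : ∀ i, 0 ≤ b i ∧ b i ≤ 1) :
    |∏ i ∈ S, b i - ∏ i ∈ S, a i| ≤ ∑ i ∈ S, |b i - a i| := by
  induction S using Finset.induction_on with
  | empty => simp
  | insert j S hj ih =>
    rw [prod_insert hj, prod_insert hj, sum_insert hj]
    have h1 : b j * ∏ i ∈ S, b i - a j * ∏ i ∈ S, a i =
        (b j - a j) * ∏ i ∈ S, b i + a j * (∏ i ∈ S, b i - ∏ i ∈ S, a i) := by ring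
    have h2 : 0 ≤ ∏ i ∈ S, b i := prod_nonneg fun i _ => (hb i).1
    have h3 : ∏ i ∈ S, b i ≤ 1 := prod_le_one (fun i _ => (hb i).1) fun i _ => (hb i).2
    rw [h1]
    refine (abs_add_le _ _).trans ?_
    rw [abs_mul, abs_mul, abs_of_nonneg h2, abs_of_nonneg (ha j).1]
    have h4 : |b j - a j| * ∏ i ∈ S, b i ≤ |b j - a j| :=
      mul_le_of_le_one_right (abs_nonneg _) h3
    have h5 : a j * |∏ i ∈ S, b i - ∏ i ∈ S, a i| ≤ |∏ i ∈ S, b i - ∏ i ∈ S, a i| :=
      mul_le_of_le_one_left (abs_nonneg _) (ha j).2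
    linarith

theorem Z5C_om_mem (κ p : ℝ) : 0 ≤ om κ p ∧ om κ p ≤ 1 := ⟨ss_nonneg _, ss_le_one _⟩

theorem Z5C_om_lip (κ : ℝ) (hκ : 0 < κ) (p q : ℝ) : |om κ q - om κ p| ≤ 2 / κ * |q - p| := by
  unfold om
  refine (ss_lip _ _).trans (le_of_eq ?_)
  have h : q / κ - 1 - (p / κ - 1) = (q - p) / κ := by ring
  rw [h, abs_div, abs_of_pos hκ]
  ring

theorem Z5C_step_n (z : St V s) (w u : V) :
    |((step G z w).n u : ℝ) - (z.n u : ℝ)| ≤ 1 := by
  have h1 := A1_n_le (G := G) z w u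
  have h2 := A1_n_ge (G := G) z w u
  rw [abs_le]
  constructor <;> linarith

theorem Z5C_cV (t : V) : 1 ≤ cV V := by
  unfold cV
  exact_mod_cast Fintype.card_pos_iff.2 ⟨t⟩

theorem Z5C_n_le_rho (z : St V s) (u : V) : (z.n u : ℝ) ≤ Real.sqrt (qq z) := by
  apply Real.le_sqrt_of_sq_le
  unfold qq
  exact single_le_sum (f := fun v => (z.n v : ℝ) ^ 2) (fun i _ => sq_nonneg _) (mem_univ u)

/-- `ρ` is large if `tot` is large -/
theorem Z5C_rho_large (z : St V s) (t : V) (M : ℝ) (h : M * cV V ≤ tot z) (hM : 0 ≤ M) :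
    M * Real.sqrt (cV V) ≤ Real.sqrt (qq z) := by
  have h1 := tot_le_rho z
  have hc := Z5C_cV (V := V) t
  have hs : 1 ≤ Real.sqrt (cV V) := by
    rw [← Real.sqrt_one]; exact Real.sqrt_le_sqrt hc
  have hss : Real.sqrt (cV V) * Real.sqrt (cV V) = cV V := Real.mul_self_sqrt (by linarith)
  have h2 : Real.sqrt (cV V) * (M * Real.sqrt (cV V)) ≤
      Real.sqrt (cV V) * Real.sqrt (qq z) := by
    calc Real.sqrt (cV V) * (M * Real.sqrt (cV V)) =
        M * (Real.sqrt (cV V) * Real.sqrt (cV V)) := by ring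
      _ = M * cV V := by rw [hss]
      _ ≤ tot z := h
      _ ≤ _ := h1
  exact le_of_mul_le_mul_left h2 (by linarith)

theorem chi_step (G : SimpleGraph V) [DecidableRel G.Adj] (s : ℕ) (κ : ℝ) (hκ : 0 < κ) :
    ∃ C > 0, ∃ T0 ≥ 1, ∀ (z : St V s) (t w : V), T0 ≤ tot z →
      |chi G κ (step G z w) t - chi G κ z t| ≤ C / Real.sqrt (qq z) := by
  have hc0 : (0 : ℝ) ≤ cV V := by unfold cV; positivity
  refine ⟨cV V * (2 / κ * (2 * (1 + Real.sqrt (cV V)))) + 1, by positivity, 2 * cV V + 1,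
    by linarith, ?_⟩
  intro z t w hz
  have hc := Z5C_cV (V := V) t
  have hs : 1 ≤ Real.sqrt (cV V) := by
    rw [← Real.sqrt_one]; exact Real.sqrt_le_sqrt hc
  have hρ := Z5C_rho_large z t 2 (by linarith) (by norm_num)
  have hρ' := rho_step (G := G) z w
  set ρ := Real.sqrt (qq z) with hρd
  set ρ' := Real.sqrt (qq (step G z w)) with hρ'd
  set c := Real.sqrt (cV V) with hcd
  have hρpos : 0 < ρ := by linarith
  have hρ2 : ρ / 2 ≤ ρ' := by
    rw [abs_le] at hρ'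
    linarith [hρ'.1]
  have hρ'pos : 0 < ρ' := by linarith
  -- one urn
  have hurn : ∀ u : V, |om κ (((step G z w).n u : ℝ) / ρ') - om κ ((z.n u : ℝ) / ρ)| ≤
      2 / κ * (2 * (1 + c)) / ρ := by
    intro u
    refine (Z5C_om_lip κ hκ _ _).trans ?_
    have h1 := Z5C_step_n (G := G) z w u
    have h2 : (z.n u : ℝ) ≤ ρ := Z5C_n_le_rho z u
    have h3 : ((step G z w).n u : ℝ) / ρ' - (z.n u : ℝ) / ρ =
        ((((step G z w).n u : ℝ) - (z.n u : ℝ)) * ρ - (z.n u : ℝ) * (ρ' - ρ)) / (ρ' * ρ) := by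
      field_simp
      ring
    have h4 : |(((step G z w).n u : ℝ) - (z.n u : ℝ)) * ρ - (z.n u : ℝ) * (ρ' - ρ)| ≤
        (1 + c) * ρ := by
      refine (abs_sub _ _).trans ?_
      have hn0 : (0 : ℝ) ≤ (z.n u : ℝ) := Nat.cast_nonneg _
      rw [abs_mul, abs_mul, abs_of_pos hρpos, abs_of_nonneg hn0]
      have h5 : |((step G z w).n u : ℝ) - (z.n u : ℝ)| * ρ ≤ 1 * ρ :=
        mul_le_mul_of_nonneg_right h1 hρpos.le
      have h6 : (z.n u : ℝ) * |ρ' - ρ| ≤ ρ * c :=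
        mul_le_mul h2 hρ' (abs_nonneg _) hρpos.le
      linarith
    have h7 : |((step G z w).n u : ℝ) / ρ' - (z.n u : ℝ) / ρ| ≤ 2 * (1 + c) / ρ := by
      rw [h3, abs_div, abs_of_pos (mul_pos hρ'pos hρpos), div_le_div_iff₀ (mul_pos hρ'pos hρpos)
        hρpos]
      have h8 : |(((step G z w).n u : ℝ) - (z.n u : ℝ)) * ρ - (z.n u : ℝ) * (ρ' - ρ)| * ρ ≤
          (1 + c) * ρ * ρ := mul_le_mul_of_nonneg_right h4 hρpos.le
      have h9 : (1 + c) * ρ * ρ ≤ 2 * (1 + c) * (ρ' * ρ) := by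
        have : 0 ≤ (1 + c) * ρ * (2 * ρ' - ρ) := by
          apply mul_nonneg (by positivity); linarith
        nlinarith
      linarith
    calc 2 / κ * |((step G z w).n u : ℝ) / ρ' - (z.n u : ℝ) / ρ| ≤
        2 / κ * (2 * (1 + c) / ρ) := mul_le_mul_of_nonneg_left h7 (by positivity)
      _ = _ := by ring
  have hdiff : chi G κ (step G z w) t - chi G κ z t =
      -(∏ u, (if G.Adj t u then 1 - om κ (((step G z w).n u : ℝ) / ρ') else 1) -
        ∏ u, (if G.Adj t u then 1 - om κ ((z.n u : ℝ) / ρ) else 1)) := by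
    simp only [chi, ← hρd, ← hρ'd]
    ring
  have hmem : ∀ (q : V → ℝ) (u : V), 0 ≤ (if G.Adj t u then 1 - om κ (q u) else 1) ∧
      (if G.Adj t u then 1 - om κ (q u) else 1) ≤ 1 := by
    intro q u
    have := Z5C_om_mem κ (q u)
    split_ifs
    · constructor <;> linarith [this.1, this.2]
    · norm_num
  rw [hdiff, abs_neg]
  refine (Z5C_prod univ _ _ (hmem fun u => (z.n u : ℝ) / ρ)
    (hmem fun u => ((step G z w).n u : ℝ) / ρ')).trans ?_
  have hsum : ∑ u, |(if G.Adj t u then 1 - om κ (((step G z w).n u : ℝ) / ρ') else 1) -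
      (if G.Adj t u then 1 - om κ ((z.n u : ℝ) / ρ) else 1)| ≤
      ∑ _u : V, 2 / κ * (2 * (1 + c)) / ρ := by
    apply sum_le_sum
    intro u _
    split_ifs
    · have := hurn u
      rw [abs_sub_comm] at this
      refine le_trans (le_of_eq ?_) this
      congr 1
      ring
    · rw [sub_self, abs_zero]
      positivity
  refine hsum.trans ?_
  rw [sum_const, nsmul_eq_mul, card_univ]
  have : (Fintype.card V : ℝ) = cV V := rfl
  rw [this, ← mul_div_assoc]
  apply div_le_div_of_nonneg_right _ hρpos.le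
  linarith

theorem corr_gen (G : SimpleGraph V) [DecidableRel G.Adj] (s : ℕ) (κ X : ℝ) (hκ : 0 < κ)
    (hX : 1 ≤ X) :
    ∃ C2 > 0, ∃ T0 ≥ 1, ∀ (z : St V s) (t : V), T0 ≤ tot z →
      |gen G (fun y => chi G κ y t) z| ≤ C2 ∧
      gw G κ X t z * (2 * (z.n t : ℝ) * ph G z t + Dn G z t) -
        (if X * Real.sqrt (qq z) / 2 ≤ (z.n t : ℝ) ^ 2 then
          chi G κ z t * ((3 / 2 * X * Real.sqrt (cV V) + 20) * tot z) else 0) -
        3 / 2 * X * Real.sqrt (qq z) * |gen G (fun y => chi G κ y t) z| -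
        C2 * Real.sqrt (tot z) ≤ gen G (corr G κ X t) z := by
  obtain ⟨C, hC, T1, hT1, hchi⟩ := chi_step G s κ hκ
  obtain ⟨Cb, hCb, T2, hT2, hbb⟩ := bb_gen G s X hX
  have hc0 : (0 : ℝ) ≤ cV V := by unfold cV; positivity
  refine ⟨C * Real.sqrt (cV V) + C * Cb * Real.sqrt (cV V) + 1, by positivity, max T1 T2,
    le_max_of_le_left hT1, ?_⟩
  intro z t hz
  have hz1 : T1 ≤ tot z := (le_max_left _ _).trans hz
  have hz2 : T2 ≤ tot z := (le_max_right _ _).trans hz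
  have hN : 0 ≤ tot z := by linarith
  obtain ⟨hb1, hb2⟩ := hbb z t hz2
  have hNρ := tot_le_rho z
  have hρN := rho_le_tot z
  set ρ := Real.sqrt (qq z) with hρd
  set c := Real.sqrt (cV V) with hcd
  have hc' : 0 ≤ c := Real.sqrt_nonneg _
  have hρ0 : 0 ≤ ρ := Real.sqrt_nonneg _
  have hρpos : 0 < ρ := by
    rcases hρ0.eq_or_lt with h | h
    · rw [← h, mul_zero] at hNρ
      linarith
    · exact h
  have hNdiv : tot z / ρ ≤ c := by
    rw [div_le_iff₀ hρpos]; exact hNρ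
  -- first claim
  have hgen : |gen G (fun y => chi G κ y t) z| ≤ C * c := by
    unfold gen
    refine (abs_sum_le_sum_abs _ _).trans ?_
    calc ∑ w, |(z.n w : ℝ) * (chi G κ (step G z w) t - chi G κ z t)| ≤
        ∑ w, (z.n w : ℝ) * (C / ρ) := by
          apply sum_le_sum
          intro w _
          rw [abs_mul, abs_of_nonneg (Nat.cast_nonneg (z.n w))]
          exact mul_le_mul_of_nonneg_left (hchi z t w hz1) (Nat.cast_nonneg _)
      _ = C * (tot z / ρ) := by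
          rw [← sum_mul]; unfold tot; ring
      _ ≤ C * c := mul_le_mul_of_nonneg_left hNdiv hC.le
  refine ⟨by nlinarith [mul_nonneg (mul_nonneg hC.le hCb.le) hc'], ?_⟩
  -- product rule
  have hprod : gen G (corr G κ X t) z = chi G κ z t * gen G (bb X t) z +
      bb X t z * gen G (fun y => chi G κ y t) z +
      ∑ w, (z.n w : ℝ) * ((chi G κ (step G z w) t - chi G κ z t) *
        (bb X t (step G z w) - bb X t z)) := by
    unfold gen corr
    rw [mul_sum, mul_sum, ← sum_add_distrib, ← sum_add_distrib]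
    apply sum_congr rfl
    intro w _
    ring
  have hlast : -(C * Cb * c * Real.sqrt (tot z)) ≤
      ∑ w, (z.n w : ℝ) * ((chi G κ (step G z w) t - chi G κ z t) *
        (bb X t (step G z w) - bb X t z)) := by
    have h1 : ∀ w, -((z.n w : ℝ) * (C / ρ * (Cb * Real.sqrt ρ))) ≤
        (z.n w : ℝ) * ((chi G κ (step G z w) t - chi G κ z t) *
        (bb X t (step G z w) - bb X t z)) := by
      intro w
      rcases Nat.eq_zero_or_pos (z.n w) with h0 | h0
      · rw [h0]; simp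
      · rw [← mul_neg]
        apply mul_le_mul_of_nonneg_left _ (Nat.cast_nonneg _)
        have h2 : |(chi G κ (step G z w) t - chi G κ z t) *
            (bb X t (step G z w) - bb X t z)| ≤ C / ρ * (Cb * Real.sqrt ρ) := by
          rw [abs_mul]
          exact mul_le_mul (hchi z t w hz1) (hb1 w h0) (abs_nonneg _) (by positivity)
        exact (abs_le.1 h2).1
    have h3 : ∑ w, -((z.n w : ℝ) * (C / ρ * (Cb * Real.sqrt ρ))) =
        -(C * Cb * (tot z / ρ) * Real.sqrt ρ) := by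
      rw [sum_neg_distrib, ← sum_mul]
      unfold tot
      ring
    have h4 : C * Cb * (tot z / ρ) * Real.sqrt ρ ≤ C * Cb * c * Real.sqrt (tot z) := by
      apply mul_le_mul _ (Real.sqrt_le_sqrt hρN) (Real.sqrt_nonneg _) (by positivity)
      exact mul_le_mul_of_nonneg_left hNdiv (by positivity)
    calc -(C * Cb * c * Real.sqrt (tot z)) ≤ -(C * Cb * (tot z / ρ) * Real.sqrt ρ) := by linarith
      _ = _ := h3.symm
      _ ≤ _ := sum_le_sum fun w _ => h1 w
  have hchi0 := chi_nonneg (G := G) κ z t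
  have h5 := mul_le_mul_of_nonneg_left hb2 hchi0
  have hbb0 : 0 ≤ bb X t z := by
    unfold bb
    exact mul_nonneg (Real.sqrt_nonneg _) (Ph_nonneg _ _ hX (by positivity))
  have hbb1 : bb X t z ≤ 3 / 2 * X * ρ := by
    unfold bb
    have := mul_le_mul_of_nonneg_left (Ph_le X ((z.n t : ℝ) ^ 2 / ρ) hX) hρ0
    rw [← hρd]
    linarith
  have h6 : -(3 / 2 * X * ρ * |gen G (fun y => chi G κ y t) z|) ≤
      bb X t z * gen G (fun y => chi G κ y t) z := by
    have h7 : |bb X t z * gen G (fun y => chi G κ y t) z| ≤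
        3 / 2 * X * ρ * |gen G (fun y => chi G κ y t) z| := by
      rw [abs_mul, abs_of_nonneg hbb0]
      exact mul_le_mul_of_nonneg_right hbb1 (abs_nonneg _)
    exact (abs_le.1 h7).1
  have h8 : chi G κ z t * (dPh X ((z.n t : ℝ) ^ 2 / ρ) *
        (2 * (z.n t : ℝ) * ph G z t + Dn G z t) -
        (if X * ρ / 2 ≤ (z.n t : ℝ) ^ 2 then
          (3 / 2 * X * c + 20) * tot z else 0)) =
      gw G κ X t z * (2 * (z.n t : ℝ) * ph G z t + Dn G z t) -
        (if X * ρ / 2 ≤ (z.n t : ℝ) ^ 2 then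
          chi G κ z t * ((3 / 2 * X * c + 20) * tot z) else 0) := by
    unfold gw
    rw [← hρd]
    split_ifs <;> ring
  rw [h8] at h5
  rw [hprod]
  have h9 : 0 ≤ (C * c + 1) * Real.sqrt (tot z) := by positivity
  have h10 : (C * c + C * Cb * c + 1) * Real.sqrt (tot z) =
      (C * c + 1) * Real.sqrt (tot z) + C * Cb * c * Real.sqrt (tot z) := by ring
  rw [h10]
  linarith

end UC
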