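import Pool.Agent.helper25.UC.Z2
import Pool.Agent.helper25.UC.Z4
import Pool.Agent.helper25.UC.C0

/-!
# Z6 : nearly critical states move slowly: `qq`

`n0 = card V`, `N = tot z`, `d² = dsq z (c,y) ≤ K2 N`.

**gen_qq_small.**  `gen qq = ∑_v (2 n_v φ_v + D_v)` (`gen_sq`, `qq = ∑ n_v²`), `φ_v = ph z v`,
`0 ≤ D_v ≤ N`, so `∑ D_v ≤ n0 N`.  `|n_v φ_v| ≤ C N √(K2 N)`:
* if `n_v ≤ d`: `|φ_v| ≤ N`, so `|n_v φ_v| ≤ N d`;
* if `n_v > d`: then `y_v > 0` and `c v = z.c v` (from `(n_v - ε(z.c v,c v) y_v)² ≤ d²`, `y_v ≥ 0`: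
  if `ε = -1` then `n_v ≤ n_v + y_v ≤ d`; if `y_v = 0` then `n_v ≤ d`).  By `mx0_stat`
  `|Lf c (c v) v y| = |y_v - n_v|/τ ≤ d/τ`, by `Lf_sub_le` `|φ_v| ≤ d/τ + n0 d`; `n_v ≤ N`.

**prod_taylor**: induction on `S`.
-/

namespace UC
open Finset
variable {V : Type} [Fintype V] [DecidableEq V] {s k : ℕ}
variable {G : SimpleGraph V} [DecidableRel G.Adj]

theorem Z6_not_mem_I (F0 : Flag G s 0) (v : V) : v ∉ F0.I := by
  intro h
  obtain ⟨j, -⟩ := F0.cover v h
  exact j.elim0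

theorem Z6_n_le_tot (z : St V s) (v : V) : (z.n v : ℝ) ≤ tot z :=
  Finset.single_le_sum (f := fun v => (z.n v : ℝ)) (fun v _ => Nat.cast_nonneg _)
    (Finset.mem_univ v)

theorem Z6_Dn_nonneg (z : St V s) (v : V) : 0 ≤ Dn G z v := by
  unfold Dn
  refine Finset.sum_nonneg fun w _ => ?_
  split_ifs
  · exact Nat.cast_nonneg _
  · exact le_refl _

theorem Z6_Dn_le (z : St V s) (v : V) : Dn G z v ≤ tot z := by
  unfold Dn tot
  refine Finset.sum_le_sum fun w _ => ?_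
  split_ifs
  · exact le_refl _
  · exact Nat.cast_nonneg _

theorem Z6_eps_abs (a b : Fin s) : |eps a b| = 1 := by
  unfold eps
  split_ifs <;> norm_num

theorem Z6_ph_abs_le (z : St V s) (v : V) : |ph G z v| ≤ tot z := by
  unfold ph Lf tot
  refine (Finset.abs_sum_le_sum_abs _ _).trans ?_
  refine Finset.sum_le_sum fun w _ => ?_
  split_ifs
  · rw [abs_mul, Z6_eps_abs, one_mul]
    unfold nR
    rw [abs_of_nonneg (Nat.cast_nonneg _)]
  · rw [abs_zero]
    exact Nat.cast_nonneg _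

theorem Z6_abs_le (z : St V s) (c : V → Fin s) (y : V → ℝ) (v : V) :
    |(z.n v : ℝ) - eps (z.c v) (c v) * y v| ≤ Real.sqrt (dsq z.c (nR z) c y) := by
  rw [← Real.sqrt_sq_eq_abs]
  apply Real.sqrt_le_sqrt
  unfold dsq
  exact Finset.single_le_sum (f := fun v => (nR z v - eps (z.c v) (c v) * y v) ^ 2)
    (fun v _ => sq_nonneg _) (Finset.mem_univ v)

theorem Z6_gen_eq (z : St V s) :
    gen G qq z = ∑ v, (2 * (z.n v : ℝ) * ph G z v + Dn G z v) := by
  have h : gen G qq z = gen G (fun y => ∑ v ∈ (Finset.univ : Finset V), ((y.n v : ℕ) : ℝ) ^ 2) z :=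
    rfl
  rw [h, gen_sum]
  exact Finset.sum_congr rfl fun v _ => gen_sq z v

/-- the product `n_v φ_v` is small -/
theorem Z6_term (F0 : Flag G s 0) (τ : ℝ) (hτ : 0 < τ) (hτ0 : τ ≤ tau0 V) (z : St V s)
    (hz : 1 ≤ tot z) (c : V → Fin s) (y : V → ℝ) (h : F0.IsMx 0 τ z c y) (v : V) :
    |(z.n v : ℝ) * ph G z v| ≤
      tot z * ((1 + 1 / τ + cV V) * Real.sqrt (dsq z.c (nR z) c y)) := by
  set d := Real.sqrt (dsq z.c (nR z) c y) with hd
  have hd0 : 0 ≤ d := Real.sqrt_nonneg _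
  have hn0 : (0 : ℝ) ≤ (z.n v : ℝ) := Nat.cast_nonneg _
  have hn1 := Z6_n_le_tot z v
  have hN : 0 ≤ tot z := by linarith
  have hcV : (0 : ℝ) ≤ cV V := Nat.cast_nonneg _
  have hτ1 : 0 < 1 / τ := by positivity
  rw [abs_mul, abs_of_nonneg hn0]
  by_cases hcase : (z.n v : ℝ) ≤ d
  · have h1 := Z6_ph_abs_le (G := G) z v
    calc (z.n v : ℝ) * |ph G z v| ≤ d * tot z := mul_le_mul hcase h1 (abs_nonneg _) hd0
      _ = tot z * d := mul_comm _ _
      _ ≤ tot z * ((1 + 1 / τ + cV V) * d) := by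
          apply mul_le_mul_of_nonneg_left _ hN
          nlinarith [mul_nonneg (add_nonneg hτ1.le hcV) hd0]
  · push Not at hcase
    have hy0 : 0 ≤ y v := h.1.2 v (Z6_not_mem_I F0 v)
    have h1 := Z6_abs_le z c y v
    rw [← hd] at h1
    have hc : z.c v = c v := by
      by_contra hne
      have he : eps (z.c v) (c v) = -1 := by unfold eps; rw [if_neg hne]
      rw [he] at h1
      have h2 := (abs_le.1 h1).2
      linarith
    have he : eps (z.c v) (c v) = 1 := by unfold eps; rw [if_pos hc]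
    rw [he, one_mul] at h1
    have hyp : 0 < y v := by
      rcases hy0.lt_or_eq with h2 | h2
      · exact h2
      · rw [← h2, sub_zero] at h1
        have h3 := (abs_le.1 h1).2
        linarith
    have h2 := mx0_stat F0 τ hτ hτ0 z hz c y h v hyp
    rw [he, one_mul] at h2
    have h3 : |Lf G c (c v) v y| ≤ d * (1 / τ) := by
      rw [h2, abs_div, abs_of_pos hτ, abs_sub_comm, div_eq_mul_one_div]
      exact mul_le_mul_of_nonneg_right h1 hτ1.le
    have hy : ∀ u, 0 ≤ y u := fun u => h.1.2 u (Z6_not_mem_I F0 u)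
    have h4 := Lf_sub_le (G := G) z c y hy v (c v)
    rw [← hd] at h4
    have h5 : ph G z v = Lf G z.c (c v) v (nR z) := by
      unfold ph
      rw [hc]
    have h6 : |ph G z v| ≤ d * (1 / τ) + cV V * d := by
      rw [h5]
      have h7 : Lf G z.c (c v) v (nR z) =
          Lf G c (c v) v y - (Lf G c (c v) v y - Lf G z.c (c v) v (nR z)) := by ring
      rw [h7]
      exact (abs_sub _ _).trans (add_le_add h3 h4)
    refine mul_le_mul hn1 (h6.trans ?_) (abs_nonneg _) hN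
    nlinarith

theorem gen_qq_small (F0 : Flag G s 0) (τ : ℝ) (hτ : 0 < τ) (hτ0 : τ ≤ tau0 V) (K2 : ℝ)
    (hK2 : 0 < K2) :
    ∃ C > 0, ∀ z : St V s, 1 ≤ tot z → ∀ c y, F0.IsMx 0 τ z c y →
      dsq z.c (nR z) c y ≤ K2 * tot z → |gen G qq z| ≤ C * (tot z * Real.sqrt (tot z)) := by
  have hcV : (0 : ℝ) ≤ cV V := Nat.cast_nonneg _
  have hτ1 : 0 < 1 / τ := by positivity
  have hK : 0 ≤ Real.sqrt K2 := Real.sqrt_nonneg _
  refine ⟨(cV V + 1) * (2 * ((1 + 1 / τ + cV V) * Real.sqrt K2) + 1), by positivity, ?_⟩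
  intro z hz c y h hd
  have hN : 0 ≤ tot z := by linarith
  have hs : 1 ≤ Real.sqrt (tot z) := Real.one_le_sqrt.2 hz
  have hd2 : Real.sqrt (dsq z.c (nR z) c y) ≤ Real.sqrt K2 * Real.sqrt (tot z) := by
    rw [← Real.sqrt_mul hK2.le]
    exact Real.sqrt_le_sqrt hd
  have hterm : ∀ v ∈ (Finset.univ : Finset V), |2 * (z.n v : ℝ) * ph G z v + Dn G z v| ≤
      (2 * ((1 + 1 / τ + cV V) * Real.sqrt K2) + 1) * (tot z * Real.sqrt (tot z)) := by
    intro v _
    have h1 := Z6_term F0 τ hτ hτ0 z hz c y h v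
    have h2 := Z6_Dn_nonneg (G := G) z v
    have h3 := Z6_Dn_le (G := G) z v
    have h4 : |2 * (z.n v : ℝ) * ph G z v + Dn G z v| ≤
        2 * |(z.n v : ℝ) * ph G z v| + Dn G z v := by
      refine (abs_add_le _ _).trans ?_
      rw [abs_of_nonneg h2, mul_assoc, abs_mul, abs_of_pos (by norm_num : (0 : ℝ) < 2)]
    have h5 : tot z * ((1 + 1 / τ + cV V) * Real.sqrt (dsq z.c (nR z) c y)) ≤
        tot z * ((1 + 1 / τ + cV V) * (Real.sqrt K2 * Real.sqrt (tot z))) := by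
      apply mul_le_mul_of_nonneg_left _ hN
      exact mul_le_mul_of_nonneg_left hd2 (by positivity)
    have h6 : tot z ≤ tot z * Real.sqrt (tot z) := by nlinarith
    calc |2 * (z.n v : ℝ) * ph G z v + Dn G z v| ≤
        2 * |(z.n v : ℝ) * ph G z v| + Dn G z v := h4
      _ ≤ 2 * (tot z * ((1 + 1 / τ + cV V) * (Real.sqrt K2 * Real.sqrt (tot z)))) +
          tot z * Real.sqrt (tot z) := by linarith
      _ = _ := by ring
  rw [Z6_gen_eq]
  refine (Finset.abs_sum_le_sum_abs _ _).trans ((Finset.sum_le_sum hterm).trans ?_)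
  rw [Finset.sum_const, Finset.card_univ, nsmul_eq_mul]
  have hX : 0 ≤ (2 * ((1 + 1 / τ + cV V) * Real.sqrt K2) + 1) * (tot z * Real.sqrt (tot z)) := by
    positivity
  have hc' : ((Fintype.card V : ℕ) : ℝ) = cV V := rfl
  rw [hc', mul_assoc]
  exact mul_le_mul_of_nonneg_right (by linarith) hX

/-- second order expansion of a product of numbers in `[0,1]` -/
theorem prod_taylor {ι : Type} [DecidableEq ι] (S : Finset ι) (α β : ι → ℝ)
    (hα : ∀ i ∈ S, 0 ≤ α i ∧ α i ≤ 1) (hβ : ∀ i ∈ S, 0 ≤ β i ∧ β i ≤ 1) :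
    |∏ i ∈ S, β i - ∏ i ∈ S, α i - ∑ i ∈ S, (β i - α i) * ∏ j ∈ S.erase i, α j| ≤
      (∑ i ∈ S, |β i - α i|) ^ 2 := by
  induction S using Finset.induction_on with
  | empty => simp
  | insert a S ha ih =>
    have hα' : ∀ i ∈ S, 0 ≤ α i ∧ α i ≤ 1 := fun i hi => hα i (Finset.mem_insert_of_mem hi)
    have hβ' : ∀ i ∈ S, 0 ≤ β i ∧ β i ≤ 1 := fun i hi => hβ i (Finset.mem_insert_of_mem hi)
    have ih' := ih hα' hβ'
    set P := ∏ i ∈ S, β i with hP
    set Q := ∏ i ∈ S, α i with hQ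
    set L := ∑ i ∈ S, (β i - α i) * ∏ j ∈ S.erase i, α j with hL
    set σ := ∑ i ∈ S, |β i - α i| with hσ
    have hσ0 : 0 ≤ σ := Finset.sum_nonneg fun i _ => abs_nonneg _
    have h1 : ∑ i ∈ insert a S, (β i - α i) * ∏ j ∈ (insert a S).erase i, α j =
        (β a - α a) * Q + α a * L := by
      rw [Finset.sum_insert ha, Finset.erase_insert ha, hL, Finset.mul_sum]
      congr 1
      refine Finset.sum_congr rfl fun i hi => ?_
      have hia : i ≠ a := fun e => ha (e ▸ hi)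
      rw [Finset.erase_insert_of_ne hia.symm,
        Finset.prod_insert (fun h => ha (Finset.mem_of_mem_erase h))]
      ring
    have hLb : |L| ≤ σ := by
      refine (Finset.abs_sum_le_sum_abs _ _).trans (Finset.sum_le_sum fun i hi => ?_)
      rw [abs_mul]
      have h2 : |∏ j ∈ S.erase i, α j| ≤ 1 := by
        rw [abs_of_nonneg (Finset.prod_nonneg fun j hj => (hα' j (Finset.mem_of_mem_erase hj)).1)]
        exact Finset.prod_le_one (fun j hj => (hα' j (Finset.mem_of_mem_erase hj)).1)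
          fun j hj => (hα' j (Finset.mem_of_mem_erase hj)).2
      calc |β i - α i| * |∏ j ∈ S.erase i, α j| ≤ |β i - α i| * 1 :=
            mul_le_mul_of_nonneg_left h2 (abs_nonneg _)
        _ = _ := mul_one _
    rw [h1, Finset.prod_insert ha, Finset.prod_insert ha, Finset.sum_insert ha, ← hP, ← hQ, ← hσ]
    have h2 : β a * P - α a * Q - ((β a - α a) * Q + α a * L) =
        β a * (P - Q - L) + (β a - α a) * L := by ring
    rw [h2]
    obtain ⟨hb0, hb1⟩ := hβ a (Finset.mem_insert_self a S)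
    have h3 : |β a * (P - Q - L)| ≤ σ ^ 2 := by
      rw [abs_mul, abs_of_nonneg hb0]
      calc β a * |P - Q - L| ≤ 1 * |P - Q - L| := mul_le_mul_of_nonneg_right hb1 (abs_nonneg _)
        _ = |P - Q - L| := one_mul _
        _ ≤ σ ^ 2 := ih'
    have h4 : |(β a - α a) * L| ≤ |β a - α a| * σ := by
      rw [abs_mul]
      exact mul_le_mul_of_nonneg_left hLb (abs_nonneg _)
    have h5 := abs_nonneg (β a - α a)
    refine (abs_add_le _ _).trans ((add_le_add h3 h4).trans ?_)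
    nlinarith [mul_nonneg h5 hσ0, sq_nonneg (|β a - α a|)]

end UC
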