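import Pool.Agent.helper25.UC.Z5
import Pool.Agent.helper25.UC.Z6

/-!
# Z6B : nearly critical states move slowly: `chi` (module of helper75 for helper25, MP_747d65_pr)

`n0 = card V`, `N = tot z`, `ρ = √(qq z)`, `ρ ≤ N ≤ √n0 ρ`, `d² = dsq z (c,y) ≤ K2 N`.
Let `p_u = n_u/ρ`, `om_u = om κ p_u`.  `chi = 1 - ∏_{u~t} (1 - om_u)`.
-/

set_option linter.unusedSectionVars false

namespace UC
open Finset
variable {V : Type} [Fintype V] [DecidableEq V] {s k : ℕ}
variable {G : SimpleGraph V} [DecidableRel G.Adj]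

theorem z6b_quot1 {X X' Y Y' b : ℝ} (hY : 0 < Y) (h : |Y' - Y| ≤ Y / 2) (hb : |Y' - Y| ≤ b)
    (hX : |X' - X| ≤ 1) (hX0 : 0 ≤ X) (hXY : X ≤ Y) :
    |X' / Y' - X / Y| ≤ (2 + 2 * b) / Y := by
  have h1 := abs_le.1 h
  have hY' : Y / 2 ≤ Y' := by linarith [h1.1]
  have hY'0 : 0 < Y' := by linarith
  have hb0 : 0 ≤ b := (abs_nonneg _).trans hb
  have e1 : X' / Y' - X / Y = ((X' - X) * Y - X * (Y' - Y)) / (Y * Y') := by
    field_simp
    ring
  rw [e1, abs_div, abs_of_pos (mul_pos hY hY'0)]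
  have e2 : |(X' - X) * Y - X * (Y' - Y)| ≤ (1 + b) * Y := by
    refine (abs_sub _ _).trans ?_
    rw [abs_mul, abs_mul, abs_of_pos hY, abs_of_nonneg hX0]
    nlinarith [abs_nonneg (Y' - Y), mul_le_mul hXY hb (abs_nonneg _) hY.le]
  rw [div_le_div_iff₀ (mul_pos hY hY'0) hY]
  have e3 : (1 + b) * Y * Y ≤ (2 + 2 * b) * (Y * Y') := by
    have : (1 + b) * (Y * Y) ≤ (1 + b) * (Y * (2 * Y')) :=
      mul_le_mul_of_nonneg_left (mul_le_mul_of_nonneg_left (by linarith) hY.le) (by linarith)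
    nlinarith
  exact (mul_le_mul_of_nonneg_right e2 hY.le).trans e3

theorem z6b_quot2 {X X' Y Y' b : ℝ} (hY : 0 < Y) (h : |Y' - Y| ≤ Y / 2) (hb : |Y' - Y| ≤ b)
    (hX : |X' - X| ≤ 1) (hX0 : 0 ≤ X) (hXY : X ≤ Y) :
    |X' / Y' - X / Y - ((X' - X) / Y - X / Y ^ 2 * (Y' - Y))| ≤ (2 * b ^ 2 + 2 * b) / Y ^ 2 := by
  have h1 := abs_le.1 h
  have hY' : Y / 2 ≤ Y' := by linarith [h1.1]
  have hY'0 : 0 < Y' := by linarith
  have hb0 : 0 ≤ b := (abs_nonneg _).trans hb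
  have hinv : 1 / Y' ≤ 2 / Y := by
    rw [div_le_div_iff₀ hY'0 hY]
    linarith
  have e1 : X' / Y' - X / Y - ((X' - X) / Y - X / Y ^ 2 * (Y' - Y)) =
      X * (Y' - Y) ^ 2 / Y ^ 2 * (1 / Y') - (X' - X) * (Y' - Y) / Y * (1 / Y') := by
    field_simp
    ring
  rw [e1]
  refine (abs_sub _ _).trans ?_
  have a1 : |X * (Y' - Y) ^ 2 / Y ^ 2 * (1 / Y')| ≤ 2 * b ^ 2 / Y ^ 2 := by
    rw [abs_mul, abs_div, abs_mul, abs_of_nonneg hX0, abs_of_pos (show (0 : ℝ) < Y ^ 2 by positivity),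
      abs_of_pos (show (0 : ℝ) < 1 / Y' by positivity), abs_pow]
    have b1 : X * |Y' - Y| ^ 2 / Y ^ 2 ≤ Y * b ^ 2 / Y ^ 2 := by
      apply div_le_div_of_nonneg_right _ (by positivity)
      exact mul_le_mul hXY (pow_le_pow_left₀ (abs_nonneg _) hb 2) (by positivity) hY.le
    calc X * |Y' - Y| ^ 2 / Y ^ 2 * (1 / Y') ≤ Y * b ^ 2 / Y ^ 2 * (2 / Y) :=
          mul_le_mul b1 hinv (by positivity) (by positivity)
      _ = 2 * b ^ 2 / Y ^ 2 := by field_simp
  have a2 : |(X' - X) * (Y' - Y) / Y * (1 / Y')| ≤ 2 * b / Y ^ 2 := by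
    rw [abs_mul, abs_div, abs_mul, abs_of_pos hY, abs_of_pos (show (0 : ℝ) < 1 / Y' by positivity)]
    have b1 : |X' - X| * |Y' - Y| / Y ≤ 1 * b / Y := by
      apply div_le_div_of_nonneg_right _ hY.le
      exact mul_le_mul hX hb (abs_nonneg _) zero_le_one
    calc |X' - X| * |Y' - Y| / Y * (1 / Y') ≤ 1 * b / Y * (2 / Y) :=
          mul_le_mul b1 hinv (by positivity) (by positivity)
      _ = 2 * b / Y ^ 2 := by field_simp
  have a3 : (2 * b ^ 2 + 2 * b) / Y ^ 2 = 2 * b ^ 2 / Y ^ 2 + 2 * b / Y ^ 2 := by ring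
  rw [a3]
  exact add_le_add a1 a2

theorem z6b_n_step (z : St V s) (w u : V) :
    |((step G z w).n u : ℝ) - (z.n u : ℝ)| ≤ 1 := by
  by_cases ha : G.Adj w u
  · by_cases h0 : z.n u = 0
    · rw [(A1_zero z w u ha h0).1, h0]
      norm_num
    · by_cases hc : z.c u = z.c w
      · rw [(A1_same z w u ha h0 hc).1]
        push_cast
        rw [add_sub_cancel_left, abs_one]
      · rw [A1_diff' z w u ha h0 hc]
        rw [sub_sub_cancel_left, abs_neg, abs_one]
  · rw [(A1_not z w u ha).1, sub_self, abs_zero]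
    exact zero_le_one

theorem z6b_n_step_eq (z : St V s) (w u : V) (hu : z.n u ≠ 0) :
    ((step G z w).n u : ℝ) - (z.n u : ℝ) = if G.Adj u w then eps (z.c u) (z.c w) else 0 := by
  by_cases ha : G.Adj u w
  · rw [if_pos ha]
    have ha' := ha.symm
    by_cases hc : z.c u = z.c w
    · rw [(A1_same z w u ha' hu hc).1]
      unfold eps
      rw [if_pos hc]
      push_cast
      ring
    · rw [A1_diff' z w u ha' hu hc]
      unfold eps
      rw [if_neg hc]
      ring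
  · rw [if_neg ha, (A1_not z w u fun h => ha h.symm).1, sub_self]

theorem z6b_gen_n (z : St V s) (u : V) (hu : z.n u ≠ 0) :
    ∑ w, (z.n w : ℝ) * (((step G z w).n u : ℝ) - (z.n u : ℝ)) = ph G z u := by
  unfold ph Lf nR
  refine sum_congr rfl fun w _ => ?_
  rw [z6b_n_step_eq z w u hu]
  split_ifs
  · ring
  · ring

theorem z6b_ph_abs (z : St V s) (u : V) {B : ℝ} (hB : 0 ≤ B)
    (h : ∀ w, G.Adj u w → (z.n w : ℝ) ≤ B) : |ph G z u| ≤ cV V * B := by
  unfold ph Lf nR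
  refine (abs_sum_le_sum_abs _ _).trans ?_
  have : ∀ w ∈ (univ : Finset V), |if G.Adj u w then eps (z.c u) (z.c w) * (z.n w : ℝ) else 0| ≤ B := by
    intro w _
    split_ifs with ha
    · rw [abs_mul, A1_eps_abs, one_mul, abs_of_nonneg (Nat.cast_nonneg _)]
      exact h w ha
    · rw [abs_zero]
      exact hB
  refine (sum_le_sum this).trans ?_
  rw [sum_const, nsmul_eq_mul]
  rfl

theorem z6b_n_le (z : St V s) (u : V) : (z.n u : ℝ) ≤ Real.sqrt (qq z) := by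
  apply Real.le_sqrt_of_sq_le
  unfold qq
  exact single_le_sum (f := fun v => (z.n v : ℝ) ^ 2) (fun v _ => sq_nonneg _) (mem_univ u)

theorem z6b_sum_n (z : St V s) (f : V → ℝ) {B : ℝ} (h : ∀ w, |f w| ≤ B) :
    |∑ w, (z.n w : ℝ) * f w| ≤ tot z * B := by
  refine (abs_sum_le_sum_abs _ _).trans ?_
  unfold tot
  rw [sum_mul]
  refine sum_le_sum fun w _ => ?_
  rw [abs_mul, abs_of_nonneg (Nat.cast_nonneg (z.n w))]
  exact mul_le_mul_of_nonneg_left (h w) (Nat.cast_nonneg _)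

/-- the generator of `ρ = √qq` -/
theorem z6b_gen_rho (z : St V s) {A : ℝ} (hρ : 0 < Real.sqrt (qq z))
    (hA : |gen G qq z| ≤ A) :
    |∑ w, (z.n w : ℝ) * (Real.sqrt (qq (step G z w)) - Real.sqrt (qq z))| ≤
      A / (2 * Real.sqrt (qq z)) + tot z * cV V / (2 * Real.sqrt (qq z)) := by
  have hnn : ∀ y : St V s, 0 ≤ qq y := fun y => sum_nonneg fun v _ => sq_nonneg _
  have e1 : ∑ w, (z.n w : ℝ) * (Real.sqrt (qq (step G z w)) - Real.sqrt (qq z)) =
      gen G qq z / (2 * Real.sqrt (qq z)) -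
        (∑ w, (z.n w : ℝ) * (Real.sqrt (qq (step G z w)) - Real.sqrt (qq z)) ^ 2) /
          (2 * Real.sqrt (qq z)) := by
    unfold gen
    rw [← sub_div, ← sum_sub_distrib, sum_div]
    refine sum_congr rfl fun w _ => ?_
    have h1 := Real.sq_sqrt (hnn (step G z w))
    have h2 := Real.sq_sqrt (hnn z)
    rw [eq_div_iff (by positivity)]
    linear_combination (z.n w : ℝ) * h1 - (z.n w : ℝ) * h2
  have hn0 : 0 ≤ cV V := Nat.cast_nonneg _
  rw [e1]
  refine (abs_sub _ _).trans (add_le_add ?_ ?_)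
  · rw [abs_div, abs_of_pos (show 0 < 2 * Real.sqrt (qq z) by positivity)]
    exact div_le_div_of_nonneg_right hA (by positivity)
  · rw [abs_div, abs_of_pos (show 0 < 2 * Real.sqrt (qq z) by positivity)]
    apply div_le_div_of_nonneg_right _ (by positivity)
    apply z6b_sum_n
    intro w
    rw [abs_pow]
    have := rho_step (G := G) z w
    calc |Real.sqrt (qq (step G z w)) - Real.sqrt (qq z)| ^ 2 ≤ Real.sqrt (cV V) ^ 2 :=
          pow_le_pow_left₀ (abs_nonneg _) this 2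
      _ = cV V := Real.sq_sqrt hn0

/-- the weight of `u` in the expansion of `chi` -/
noncomputable def z6bW (G : SimpleGraph V) [DecidableRel G.Adj] (κ : ℝ) (z : St V s) (t u : V) : ℝ :=
  if G.Adj t u then dss ((z.n u : ℝ) / Real.sqrt (qq z) / κ - 1) / κ *
    ∏ j ∈ (univ : Finset V).erase u,
      (if G.Adj t j then 1 - om κ ((z.n j : ℝ) / Real.sqrt (qq z)) else 1) else 0

theorem z6b_al (κ p : ℝ) (b : Prop) [Decidable b] :
    0 ≤ (if b then 1 - om κ p else 1) ∧ (if b then 1 - om κ p else 1) ≤ 1 := by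
  unfold om
  have h1 := ss_nonneg (p / κ - 1)
  have h2 := ss_le_one (p / κ - 1)
  split_ifs
  · constructor <;> linarith
  · constructor <;> norm_num

theorem z6bW_abs (κ : ℝ) (hκ : 0 < κ) (z : St V s) (t u : V) : |z6bW G κ z t u| ≤ 2 / κ := by
  unfold z6bW
  split_ifs
  · have h1 := dss_nonneg ((z.n u : ℝ) / Real.sqrt (qq z) / κ - 1)
    have h2 := dss_le ((z.n u : ℝ) / Real.sqrt (qq z) / κ - 1)
    have h3 : 0 ≤ ∏ j ∈ (univ : Finset V).erase u,
        (if G.Adj t j then 1 - om κ ((z.n j : ℝ) / Real.sqrt (qq z)) else 1) :=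
      prod_nonneg fun j _ => (z6b_al κ _ _).1
    have h4 : ∏ j ∈ (univ : Finset V).erase u,
        (if G.Adj t j then 1 - om κ ((z.n j : ℝ) / Real.sqrt (qq z)) else 1) ≤ 1 :=
      prod_le_one (fun j _ => (z6b_al κ _ _).1) fun j _ => (z6b_al κ _ _).2
    rw [abs_of_nonneg (mul_nonneg (div_nonneg h1 hκ.le) h3)]
    calc dss ((z.n u : ℝ) / Real.sqrt (qq z) / κ - 1) / κ *
        ∏ j ∈ (univ : Finset V).erase u,
          (if G.Adj t j then 1 - om κ ((z.n j : ℝ) / Real.sqrt (qq z)) else 1)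
          ≤ 2 / κ * 1 :=
          mul_le_mul (div_le_div_of_nonneg_right h2 hκ.le) h4 h3 (by positivity)
      _ = 2 / κ := mul_one _
  · rw [abs_zero]
    positivity

theorem z6bW_zero (κ : ℝ) (hκ : 0 < κ) (z : St V s) (t u : V) (hρ : 0 < Real.sqrt (qq z))
    (h : (z.n u : ℝ) ≤ κ * Real.sqrt (qq z)) : z6bW G κ z t u = 0 := by
  unfold z6bW
  have h1 : (z.n u : ℝ) / Real.sqrt (qq z) / κ - 1 ≤ 0 := by
    rw [sub_nonpos, div_le_one hκ, div_le_iff₀ hρ]
    exact h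
  rw [(ss_zero _ h1).2, zero_div, zero_mul, ite_self]

/-- expansion of `chi` in one step -/
theorem z6b_chi_step (κ : ℝ) (hκ : 0 < κ) (z z' : St V s) (t : V) {e : ℝ}
    (he : ∀ u, |(z'.n u : ℝ) / Real.sqrt (qq z') - (z.n u : ℝ) / Real.sqrt (qq z)| ≤ e) :
    |chi G κ z' t - chi G κ z t - ∑ u, z6bW G κ z t u *
      ((z'.n u : ℝ) / Real.sqrt (qq z') - (z.n u : ℝ) / Real.sqrt (qq z))| ≤
      (2 * cV V / κ ^ 2 + (2 * cV V / κ) ^ 2) * e ^ 2 := by
  set α : V → ℝ := fun u => if G.Adj t u then 1 - om κ ((z.n u : ℝ) / Real.sqrt (qq z)) else 1 with hα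
  set β : V → ℝ := fun u => if G.Adj t u then 1 - om κ ((z'.n u : ℝ) / Real.sqrt (qq z')) else 1 with hβ
  have hT := prod_taylor (univ : Finset V) α β (fun i _ => z6b_al κ _ _) (fun i _ => z6b_al κ _ _)
  have hlip : ∀ u, |β u - α u| ≤ 2 / κ * e := by
    intro u
    have he0 : 0 ≤ e := (abs_nonneg _).trans (he u)
    rw [hα, hβ]
    dsimp only
    split_ifs
    · have h1 := ss_lip ((z'.n u : ℝ) / Real.sqrt (qq z') / κ - 1) ((z.n u : ℝ) / Real.sqrt (qq z) / κ - 1)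
      have h2 : 1 - om κ ((z'.n u : ℝ) / Real.sqrt (qq z')) - (1 - om κ ((z.n u : ℝ) / Real.sqrt (qq z))) =
          ss ((z.n u : ℝ) / Real.sqrt (qq z) / κ - 1) - ss ((z'.n u : ℝ) / Real.sqrt (qq z') / κ - 1) := by
        unfold om
        ring
      rw [h2]
      refine h1.trans ?_
      have h3 : (z.n u : ℝ) / Real.sqrt (qq z) / κ - 1 - ((z'.n u : ℝ) / Real.sqrt (qq z') / κ - 1) =
          -(((z'.n u : ℝ) / Real.sqrt (qq z') - (z.n u : ℝ) / Real.sqrt (qq z)) / κ) := by ring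
      rw [h3, abs_neg, abs_div, abs_of_pos hκ]
      calc 2 * (|(z'.n u : ℝ) / Real.sqrt (qq z') - (z.n u : ℝ) / Real.sqrt (qq z)| / κ)
          ≤ 2 * (e / κ) := mul_le_mul_of_nonneg_left (div_le_div_of_nonneg_right (he u) hκ.le) (by norm_num)
        _ = 2 / κ * e := by ring
    · rw [sub_self, abs_zero]
      positivity
  have hsum : ∑ u, |β u - α u| ≤ cV V * (2 / κ * e) := by
    refine (sum_le_sum fun u _ => hlip u).trans ?_
    rw [sum_const, nsmul_eq_mul]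
    rfl
  have hT2 : |∏ i, β i - ∏ i, α i - ∑ i, (β i - α i) * ∏ j ∈ univ.erase i, α j| ≤
      (2 * cV V / κ) ^ 2 * e ^ 2 := by
    refine hT.trans ?_
    calc (∑ u, |β u - α u|) ^ 2 ≤ (cV V * (2 / κ * e)) ^ 2 :=
          pow_le_pow_left₀ (sum_nonneg fun u _ => abs_nonneg _) hsum 2
      _ = (2 * cV V / κ) ^ 2 * e ^ 2 := by ring
  have hterm : ∀ u, |(β u - α u) * ∏ j ∈ univ.erase u, α j + z6bW G κ z t u *
      ((z'.n u : ℝ) / Real.sqrt (qq z') - (z.n u : ℝ) / Real.sqrt (qq z))| ≤ 2 / κ ^ 2 * e ^ 2 := by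
    intro u
    have hp0 : 0 ≤ ∏ j ∈ univ.erase u, α j := prod_nonneg fun j _ => (z6b_al κ _ _).1
    have hp1 : ∏ j ∈ univ.erase u, α j ≤ 1 :=
      prod_le_one (fun j _ => (z6b_al κ _ _).1) fun j _ => (z6b_al κ _ _).2
    by_cases ha : G.Adj t u
    · have h1 := ss_taylor ((z.n u : ℝ) / Real.sqrt (qq z) / κ - 1) ((z'.n u : ℝ) / Real.sqrt (qq z') / κ - 1)
      have e1 : (β u - α u) * ∏ j ∈ univ.erase u, α j + z6bW G κ z t u *
          ((z'.n u : ℝ) / Real.sqrt (qq z') - (z.n u : ℝ) / Real.sqrt (qq z)) =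
          -((∏ j ∈ univ.erase u, α j) *
            (ss ((z'.n u : ℝ) / Real.sqrt (qq z') / κ - 1) - ss ((z.n u : ℝ) / Real.sqrt (qq z) / κ - 1) -
              dss ((z.n u : ℝ) / Real.sqrt (qq z) / κ - 1) *
                ((z'.n u : ℝ) / Real.sqrt (qq z') / κ - 1 - ((z.n u : ℝ) / Real.sqrt (qq z) / κ - 1)))) := by
        have e2 : z6bW G κ z t u = dss ((z.n u : ℝ) / Real.sqrt (qq z) / κ - 1) / κ *
            ∏ j ∈ univ.erase u, α j := by
          unfold z6bW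
          rw [if_pos ha]
        have e3 : β u = 1 - ss ((z'.n u : ℝ) / Real.sqrt (qq z') / κ - 1) := by
          rw [hβ]
          dsimp only
          rw [if_pos ha]
          rfl
        have e4 : α u = 1 - ss ((z.n u : ℝ) / Real.sqrt (qq z) / κ - 1) := by
          rw [hα]
          dsimp only
          rw [if_pos ha]
          rfl
        rw [e2, e3, e4]
        ring
      rw [e1, abs_neg, abs_mul, abs_of_nonneg hp0]
      refine (mul_le_mul hp1 h1 (abs_nonneg _) zero_le_one).trans ?_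
      rw [one_mul]
      have h3 : (z'.n u : ℝ) / Real.sqrt (qq z') / κ - 1 - ((z.n u : ℝ) / Real.sqrt (qq z) / κ - 1) =
          ((z'.n u : ℝ) / Real.sqrt (qq z') - (z.n u : ℝ) / Real.sqrt (qq z)) / κ := by ring
      rw [h3, div_pow]
      have h4 : ((z'.n u : ℝ) / Real.sqrt (qq z') - (z.n u : ℝ) / Real.sqrt (qq z)) ^ 2 ≤ e ^ 2 := by
        rw [← sq_abs]
        exact pow_le_pow_left₀ (abs_nonneg _) (he u) 2
      calc 2 * (((z'.n u : ℝ) / Real.sqrt (qq z') - (z.n u : ℝ) / Real.sqrt (qq z)) ^ 2 / κ ^ 2)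
          ≤ 2 * (e ^ 2 / κ ^ 2) :=
            mul_le_mul_of_nonneg_left (div_le_div_of_nonneg_right h4 (by positivity)) (by norm_num)
        _ = 2 / κ ^ 2 * e ^ 2 := by ring
    · have e2 : z6bW G κ z t u = 0 := by
        unfold z6bW
        rw [if_neg ha]
      have e3 : β u = 1 := by
        rw [hβ]
        dsimp only
        rw [if_neg ha]
      have e4 : α u = 1 := by
        rw [hα]
        dsimp only
        rw [if_neg ha]
      rw [e2, e3, e4, sub_self, zero_mul, zero_mul, add_zero, abs_zero]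
      positivity
  have hchi : chi G κ z' t - chi G κ z t - ∑ u, z6bW G κ z t u *
      ((z'.n u : ℝ) / Real.sqrt (qq z') - (z.n u : ℝ) / Real.sqrt (qq z)) =
      -(∏ i, β i - ∏ i, α i - ∑ i, (β i - α i) * ∏ j ∈ univ.erase i, α j) -
      ∑ u, ((β u - α u) * ∏ j ∈ univ.erase u, α j + z6bW G κ z t u *
        ((z'.n u : ℝ) / Real.sqrt (qq z') - (z.n u : ℝ) / Real.sqrt (qq z))) := by
    rw [sum_add_distrib]
    unfold chi
    ring
  rw [hchi]
  refine (abs_sub _ _).trans ?_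
  rw [abs_neg]
  have h5 : |∑ u, ((β u - α u) * ∏ j ∈ univ.erase u, α j + z6bW G κ z t u *
        ((z'.n u : ℝ) / Real.sqrt (qq z') - (z.n u : ℝ) / Real.sqrt (qq z)))| ≤
      cV V * (2 / κ ^ 2 * e ^ 2) := by
    refine (abs_sum_le_sum_abs _ _).trans ((sum_le_sum fun u _ => hterm u).trans ?_)
    rw [sum_const, nsmul_eq_mul]
    rfl
  calc |∏ i, β i - ∏ i, α i - ∑ i, (β i - α i) * ∏ j ∈ univ.erase i, α j| +
        |∑ u, ((β u - α u) * ∏ j ∈ univ.erase u, α j + z6bW G κ z t u *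
        ((z'.n u : ℝ) / Real.sqrt (qq z') - (z.n u : ℝ) / Real.sqrt (qq z)))|
      ≤ (2 * cV V / κ) ^ 2 * e ^ 2 + cV V * (2 / κ ^ 2 * e ^ 2) := add_le_add hT2 h5
    _ = (2 * cV V / κ ^ 2 + (2 * cV V / κ) ^ 2) * e ^ 2 := by ring

theorem gen_chi_small (F0 : Flag G s 0) (τ : ℝ) (hτ : 0 < τ) (hτ0 : τ ≤ tau0 V) (K2 κ : ℝ)
    (hK2 : 0 < K2) (hκ : 0 < κ) :
    ∃ C > 0, ∃ T0 ≥ 1, ∀ z : St V s, T0 ≤ tot z → ∀ c y, F0.IsMx 0 τ z c y →
      dsq z.c (nR z) c y ≤ K2 * tot z →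
      (∀ u w, G.Adj u w → κ * Real.sqrt (qq z) < (z.n u : ℝ) →
        (z.n w : ℝ) ≤ Real.sqrt (K2 * tot z)) →
      ∀ t, |gen G (fun y => chi G κ y t) z| ≤ C / Real.sqrt (tot z) := by
  obtain ⟨Cq, hCq, hq⟩ := gen_qq_small F0 τ hτ hτ0 K2 hK2
  have hn0 : 0 ≤ cV V := Nat.cast_nonneg _
  set b : ℝ := Real.sqrt (cV V) with hb
  have hb0 : 0 ≤ b := Real.sqrt_nonneg _
  have hbb : b ^ 2 = cV V := Real.sq_sqrt hn0
  set Cr : ℝ := Cq * b / 2 + cV V * b / 2 with hCr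
  have hCr0 : 0 ≤ Cr := by positivity
  set Cp : ℝ := cV V * b * Real.sqrt K2 + Cr * b + (2 * b ^ 2 + 2 * b) * b ^ 2 with hCp
  have hCp0 : 0 ≤ Cp := by positivity
  set C2 : ℝ := (2 * cV V / κ ^ 2 + (2 * cV V / κ) ^ 2) * (2 + 2 * b) ^ 2 with hC2
  have hC20 : 0 ≤ C2 := by positivity
  refine ⟨cV V * (2 / κ * Cp) + C2 * b ^ 2 + 1, by positivity, 2 * cV V + 1, by linarith, ?_⟩
  intro z hz c y hmx hd hsm t
  set N : ℝ := tot z with hN
  set ρ : ℝ := Real.sqrt (qq z) with hρ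
  have hN1 : 1 ≤ N := by linarith
  have hN0 : 0 < N := by linarith
  have hNρ : N ≤ b * ρ := tot_le_rho z
  have hb1 : 0 < b := by
    rcases hb0.lt_or_eq with h | h
    · exact h
    · rw [← h, zero_mul] at hNρ
      linarith
  have hρ2 : 2 * b ≤ ρ := by
    have : b * (2 * b) ≤ b * ρ := by nlinarith
    exact le_of_mul_le_mul_left this hb1
  have hρ0 : 0 < ρ := by linarith
  have hsN : 1 ≤ Real.sqrt N := by
    rw [Real.one_le_sqrt]
    exact hN1
  have hsN0 : 0 < Real.sqrt N := by linarith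
  have hsNN : Real.sqrt N * Real.sqrt N = N := Real.mul_self_sqrt hN0.le
  -- inverse bounds
  have hinv1 : 1 / ρ ≤ b / N := by
    rw [div_le_div_iff₀ hρ0 hN0]
    linarith
  have hinv2 : 1 / ρ ^ 2 ≤ b ^ 2 / N ^ 2 := by
    have := pow_le_pow_left₀ (by positivity) hinv1 2
    rwa [div_pow, div_pow, one_pow] at this
  have hNN : N * (1 / N ^ 2) ≤ 1 / Real.sqrt N := by
    have e : N * (1 / N ^ 2) = 1 / N := by field_simp
    rw [e]
    apply one_div_le_one_div_of_le hsN0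
    nlinarith
  have hrN : Real.sqrt N / N = 1 / Real.sqrt N := by
    rw [div_eq_div_iff hN0.ne' hsN0.ne', hsNN, one_mul]
  have hNρ2 : N * (1 / ρ ^ 2) ≤ b ^ 2 * (1 / Real.sqrt N) := by
    calc N * (1 / ρ ^ 2) ≤ N * (b ^ 2 / N ^ 2) := mul_le_mul_of_nonneg_left hinv2 hN0.le
      _ = b ^ 2 * (N * (1 / N ^ 2)) := by ring
      _ ≤ b ^ 2 * (1 / Real.sqrt N) := mul_le_mul_of_nonneg_left hNN (by positivity)
  have hstep : ∀ w, |Real.sqrt (qq (step G z w)) - ρ| ≤ b := fun w => rho_step z w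
  have hstep2 : ∀ w, |Real.sqrt (qq (step G z w)) - ρ| ≤ ρ / 2 := fun w =>
    (hstep w).trans (by linarith)
  -- the generator of ρ
  have hgρ : |∑ w, (z.n w : ℝ) * (Real.sqrt (qq (step G z w)) - ρ)| ≤ Cr * Real.sqrt N := by
    refine (z6b_gen_rho z hρ0 (hq z hN1 c y hmx hd)).trans ?_
    change Cq * (N * Real.sqrt N) / (2 * ρ) + N * cV V / (2 * ρ) ≤ _
    have e1 : Cq * (N * Real.sqrt N) / (2 * ρ) + N * cV V / (2 * ρ) =
        (Cq * (N * Real.sqrt N) / 2 + N * cV V / 2) * (1 / ρ) := by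
      field_simp
    rw [e1]
    calc (Cq * (N * Real.sqrt N) / 2 + N * cV V / 2) * (1 / ρ)
        ≤ (Cq * (N * Real.sqrt N) / 2 + N * cV V / 2) * (b / N) :=
          mul_le_mul_of_nonneg_left hinv1 (by positivity)
      _ = Cq * b / 2 * Real.sqrt N + cV V * b / 2 * 1 := by field_simp
      _ ≤ Cq * b / 2 * Real.sqrt N + cV V * b / 2 * Real.sqrt N := by
          have : cV V * b / 2 * 1 ≤ cV V * b / 2 * Real.sqrt N :=
            mul_le_mul_of_nonneg_left hsN (by positivity)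
          linarith
      _ = Cr * Real.sqrt N := by rw [hCr]; ring
  -- the generator of p_u
  have hgp : ∀ u, κ * ρ < (z.n u : ℝ) →
      |∑ w, (z.n w : ℝ) * (((step G z w).n u : ℝ) / Real.sqrt (qq (step G z w)) -
        (z.n u : ℝ) / ρ)| ≤ Cp / Real.sqrt N := by
    intro u hu
    have hu0 : z.n u ≠ 0 := by
      intro h
      rw [h, Nat.cast_zero] at hu
      have : 0 < κ * ρ := mul_pos hκ hρ0
      linarith
    have hnu : (z.n u : ℝ) ≤ ρ := z6b_n_le z u
    have hnu0 : (0 : ℝ) ≤ z.n u := Nat.cast_nonneg _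
    have e1 : ∑ w, (z.n w : ℝ) * (((step G z w).n u : ℝ) / Real.sqrt (qq (step G z w)) -
        (z.n u : ℝ) / ρ) =
        ph G z u / ρ - (z.n u : ℝ) / ρ ^ 2 *
          (∑ w, (z.n w : ℝ) * (Real.sqrt (qq (step G z w)) - ρ)) +
        ∑ w, (z.n w : ℝ) * (((step G z w).n u : ℝ) / Real.sqrt (qq (step G z w)) -
          (z.n u : ℝ) / ρ - ((((step G z w).n u : ℝ) - (z.n u : ℝ)) / ρ -
            (z.n u : ℝ) / ρ ^ 2 * (Real.sqrt (qq (step G z w)) - ρ))) := by
      rw [← z6b_gen_n z u hu0, sum_div, mul_sum, ← sum_sub_distrib, ← sum_add_distrib]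
      refine sum_congr rfl fun w _ => ?_
      ring
    rw [e1]
    have b1 : |ph G z u / ρ| ≤ cV V * b * Real.sqrt K2 / Real.sqrt N := by
      rw [abs_div, abs_of_pos hρ0]
      have h1 := z6b_ph_abs z u (Real.sqrt_nonneg (K2 * N)) (fun w hw => hsm u w hw hu)
      calc |ph G z u| / ρ = |ph G z u| * (1 / ρ) := by ring
        _ ≤ cV V * Real.sqrt (K2 * N) * (b / N) :=
            mul_le_mul h1 hinv1 (by positivity) (by positivity)
        _ = cV V * b * Real.sqrt K2 * (Real.sqrt N / N) := by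
            rw [Real.sqrt_mul hK2.le]
            ring
        _ = cV V * b * Real.sqrt K2 / Real.sqrt N := by
            rw [hrN]
            ring
    have b2 : |(z.n u : ℝ) / ρ ^ 2 *
        (∑ w, (z.n w : ℝ) * (Real.sqrt (qq (step G z w)) - ρ))| ≤ Cr * b / Real.sqrt N := by
      rw [abs_mul, abs_of_nonneg (div_nonneg hnu0 (by positivity))]
      have h1 : (z.n u : ℝ) / ρ ^ 2 ≤ b / N := by
        refine le_trans ?_ hinv1
        rw [div_le_div_iff₀ (by positivity) hρ0]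
        nlinarith
      calc (z.n u : ℝ) / ρ ^ 2 * |∑ w, (z.n w : ℝ) * (Real.sqrt (qq (step G z w)) - ρ)|
          ≤ b / N * (Cr * Real.sqrt N) := mul_le_mul h1 hgρ (abs_nonneg _) (by positivity)
        _ = Cr * b * (Real.sqrt N / N) := by ring
        _ = Cr * b / Real.sqrt N := by
            rw [hrN]
            ring
    have b3 : |∑ w, (z.n w : ℝ) * (((step G z w).n u : ℝ) / Real.sqrt (qq (step G z w)) -
          (z.n u : ℝ) / ρ - ((((step G z w).n u : ℝ) - (z.n u : ℝ)) / ρ -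
            (z.n u : ℝ) / ρ ^ 2 * (Real.sqrt (qq (step G z w)) - ρ)))| ≤
          (2 * b ^ 2 + 2 * b) * b ^ 2 / Real.sqrt N := by
      refine (z6b_sum_n z _ fun w => z6b_quot2 hρ0 (hstep2 w) (hstep w) (z6b_n_step z w u) hnu0
        hnu).trans ?_
      calc tot z * ((2 * b ^ 2 + 2 * b) / ρ ^ 2) = (2 * b ^ 2 + 2 * b) * (N * (1 / ρ ^ 2)) := by
            rw [hN]; ring
        _ ≤ (2 * b ^ 2 + 2 * b) * (b ^ 2 * (1 / Real.sqrt N)) :=
            mul_le_mul_of_nonneg_left hNρ2 (by positivity)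
        _ = (2 * b ^ 2 + 2 * b) * b ^ 2 / Real.sqrt N := by ring
    refine (abs_add_le _ _).trans ?_
    refine (add_le_add ((abs_sub _ _).trans (add_le_add b1 b2)) b3).trans (le_of_eq ?_)
    rw [hCp]
    ring
  -- the generator of chi
  have he : ∀ w u, |((step G z w).n u : ℝ) / Real.sqrt (qq (step G z w)) -
      (z.n u : ℝ) / Real.sqrt (qq z)| ≤ (2 + 2 * b) / ρ := fun w u =>
    z6b_quot1 hρ0 (hstep2 w) (hstep w) (z6b_n_step z w u) (Nat.cast_nonneg _) (z6b_n_le z u)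
  have hgen : gen G (fun y => chi G κ y t) z =
      ∑ u, z6bW G κ z t u * (∑ w, (z.n w : ℝ) * (((step G z w).n u : ℝ) /
        Real.sqrt (qq (step G z w)) - (z.n u : ℝ) / ρ)) +
      ∑ w, (z.n w : ℝ) * (chi G κ (step G z w) t - chi G κ z t - ∑ u, z6bW G κ z t u *
        (((step G z w).n u : ℝ) / Real.sqrt (qq (step G z w)) - (z.n u : ℝ) / Real.sqrt (qq z))) := by
    have e2 : ∑ u, z6bW G κ z t u * (∑ w, (z.n w : ℝ) * (((step G z w).n u : ℝ) /
        Real.sqrt (qq (step G z w)) - (z.n u : ℝ) / ρ)) =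
        ∑ w, (z.n w : ℝ) * ∑ u, z6bW G κ z t u * (((step G z w).n u : ℝ) /
          Real.sqrt (qq (step G z w)) - (z.n u : ℝ) / Real.sqrt (qq z)) := by
      simp only [mul_sum]
      rw [sum_comm]
      refine sum_congr rfl fun w _ => sum_congr rfl fun u _ => ?_
      ring
    rw [e2, ← sum_add_distrib]
    unfold gen
    refine sum_congr rfl fun w _ => ?_
    ring
  rw [hgen]
  have c1 : |∑ u, z6bW G κ z t u * (∑ w, (z.n w : ℝ) * (((step G z w).n u : ℝ) /
        Real.sqrt (qq (step G z w)) - (z.n u : ℝ) / ρ))| ≤ cV V * (2 / κ * Cp) / Real.sqrt N := by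
    refine (abs_sum_le_sum_abs _ _).trans ?_
    have h1 : ∀ u ∈ (univ : Finset V), |z6bW G κ z t u * (∑ w, (z.n w : ℝ) *
        (((step G z w).n u : ℝ) / Real.sqrt (qq (step G z w)) - (z.n u : ℝ) / ρ))| ≤
        2 / κ * (Cp / Real.sqrt N) := by
      intro u _
      rw [abs_mul]
      by_cases hu : κ * ρ < (z.n u : ℝ)
      · exact mul_le_mul (z6bW_abs κ hκ z t u) (hgp u hu) (abs_nonneg _) (by positivity)
      · rw [z6bW_zero κ hκ z t u hρ0 (not_lt.1 hu), abs_zero, zero_mul]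
        positivity
    refine (sum_le_sum h1).trans (le_of_eq ?_)
    rw [sum_const, nsmul_eq_mul]
    change cV V * _ = _
    ring
  have c2 : |∑ w, (z.n w : ℝ) * (chi G κ (step G z w) t - chi G κ z t - ∑ u, z6bW G κ z t u *
        (((step G z w).n u : ℝ) / Real.sqrt (qq (step G z w)) - (z.n u : ℝ) / Real.sqrt (qq z)))| ≤
        C2 * b ^ 2 / Real.sqrt N := by
    refine (z6b_sum_n z _ fun w => z6b_chi_step κ hκ z (step G z w) t (he w)).trans ?_
    calc tot z * ((2 * cV V / κ ^ 2 + (2 * cV V / κ) ^ 2) * ((2 + 2 * b) / ρ) ^ 2)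
        = C2 * (N * (1 / ρ ^ 2)) := by rw [hC2, hN]; ring
      _ ≤ C2 * (b ^ 2 * (1 / Real.sqrt N)) := mul_le_mul_of_nonneg_left hNρ2 hC20
      _ = C2 * b ^ 2 / Real.sqrt N := by ring
  refine (abs_add_le _ _).trans ((add_le_add c1 c2).trans ?_)
  rw [← add_div]
  apply div_le_div_of_nonneg_right _ hsN0.le
  linarith

end UC
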