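import Pool.Agent.helper25.UC.Z4B
import Pool.Agent.helper25.UC.Z5C
import Pool.Agent.helper25.UC.Z6B
import Pool.Agent.helper25.UC.A4

/-!
# Z7 : the function `HH` decreases

`HH = qq - B env^0 - (B/τ + 3/2) ∑_t corr_t`.  `n0 = card V`, `N = tot z`, `ρ = √(qq z)`,
`ρ ≤ N ≤ √n0 ρ`, `φ_t = ph z t`, `D_t = Dn z t`, `g_t = gw t`, `chi_t`, `ν = B/τ`, `(c,y)` a maximiser,
`d² = dsq z.c n c y`, `A1 := 3/2 X √n0 + 20`.

**HH_gen.**  `gen HH = gen (qq - B env) - (ν+3/2) ∑_t gen corr_t` (linearity of `gen`); `star` with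
`g = gw` (`0 ≤ gw ≤ 1`: `chi ∈ [0,1]`, `dPh ∈ [0,1]`) and `corr_gen`.

**HH_caseA** (`d² ≥ K2 N`).  In the bound of `HH_gen`:
* `g_t n_t φ_t ≤ g_t n_t (n0 + 1/τ) d` (`φ_t = Lf z.c (z.c t) t n ≤ Lf c (z.c t) t y + n0 d ≤ d/τ + n0 d`
  by `Lf_sub_le`, `mx0_field_le`); `g_t ≠ 0` implies `n_t²/ρ ≤ 2X`, so
  `g_t n_t ≤ √(2XN)`, `g_t n_t² ≤ 2XN`;
* `|1 + ν - (ν+3/2) g_t| D_t ≤ (ν + 3/2) N`;
* the corr terms are `≤ (ν+3/2) n0 (A1 N + 3/2 X N C2 + C2 √N)`.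
All together `≤ - B/(4τ²) d² + C (√N d + N)` with `C` independent of `K2`, and `N ≤ d²/K2`:
`≤ -(B/(8τ²)) d²` for `K2` large, `≤ -(B/(8τ²)) K2 N`.

**HH_caseB** (`d² ≤ K2 N`, and at every `t` which has a neighbour `u` with `n_u ≥ (κ/√n0) N` all
fields are `≤ -K3 √N`).  Put `P = {t : chi_t > 0}`.  For `t ∈ P` there is `u ~ t` with
`n_u > κ ρ ≥ κ N/√n0` (`exists_of_chi_pos`), so all fields at `t` are `≤ -K3 √N`; and `y_t = 0`: if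
`y_t > 0`, by `mx0_stat` `Lf c (c t) t y = (y_t - ε n_t)/τ ≥ -d/τ` (`ε = 1`: `|n_t - y_t| ≤ d`; `ε = -1`:
it is `≥ 0`), but `Lf c (c t) t y ≤ Lf z.c (c t) t n + n0 d ≤ -K3√N + n0 d`: contradiction if
`K3 > (n0 + 1/τ) √K2`.  So `n_t ≤ d ≤ √(K2 N)` for `t ∈ P`.  In particular the hypothesis of
`gen_chi_small` holds (`w ~ u`, `n_u > κρ`: the same argument at `w`), so
`ρ |gen chi_t| ≤ N C/√N = C√N` for all `t`.
Let `W = {t ∈ P : Xρ/2 ≤ n_t²}`, `m = card W`.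
* `g_t n_t φ_t + CB g_t n_t² ≤ g_t n_t (-K3 √N + CB √(2XN)) ≤ 0` for `K3 ≥ CB √(2X)`.
* `d² ≥ ∑_{t∈W} n_t² ≥ m X ρ/2 ≥ m X N/(2√n0)`.
* `D`-terms: `coef_t = 1 + ν - (ν+3/2) g_t ≤ 1 + ν`.  `t ∉ P` (`chi_t = 0`): all neighbours have
  `n_u < 2κρ` (`chi_eq_one`), so `D_t ≤ 2 n0 κ N`.  `t ∈ P`, `t ∉ W`: `dPh = 1`, `g_t = chi_t`; if
  `chi_t < 1` again `D_t ≤ 2 n0 κ N`; if `chi_t = 1`, `coef_t = -1/2`.  `t ∈ W`: `≤ (1+ν) N`.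
* corr terms: `(ν+3/2) (m A1 N + n0 (3/2 X C √N + C2 √N))`.
So `gen HH ≤ m N [ -B X/(8 τ² √n0) + (1+ν) + (ν+3/2) A1 ] + 2 n0² κ (1+ν) N - (1/2)∑' D_t + C√N`,
where `∑'` is over `t` with `g_t = 1`.
* If `m ≥ 1`: the bracket is `≤ -1` by `hX`, `2 n0² κ (1+ν) ≤ 1/2` by `hκ`: `≤ -N/2 + C√N`.
* If `m = 0`: there is `u` with `n_u ≥ N/n0`; it has a neighbour `t` (`hdeg`), `n_u ≥ N/n0 ≥ 2κρ`, so
  `chi_t = 1`, `t ∉ W`, `g_t = 1`, `D_t ≥ N/n0`: `≤ 2n0²κ(1+ν) N - N/(2n0) + C√N ≤ -N/(4 n0) + C√N`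
  by `hκ`.
For `N ≥ T` this is `≤ - c N`.
-/

namespace UC
open Finset
variable {V : Type} [Fintype V] [DecidableEq V] {s k : ℕ}
variable {G : SimpleGraph V} [DecidableRel G.Adj]

/-- the supermartingale of the rate zero world -/
noncomputable def HH (F0 : Flag G s 0) (τ B κ X : ℝ) (z : St V s) : ℝ :=
  qq z - B * F0.env 0 τ z - (B / τ + 3 / 2) * ∑ t, corr G κ X t z

/-- the upper bound for `gen HH` -/
noncomputable def Bd (G : SimpleGraph V) [DecidableRel G.Adj] (τ B κ X CB C2 : ℝ) (z : St V s)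
    (D2 : ℝ) : ℝ :=
  ∑ t, gw G κ X t z * (z.n t : ℝ) * ph G z t - B / (4 * τ ^ 2) * D2 +
    CB * ∑ t, gw G κ X t z * (z.n t : ℝ) ^ 2 +
    ∑ t, (1 + B / τ - (B / τ + 3 / 2) * gw G κ X t z) * Dn G z t +
    (B / τ + 3 / 2) * ∑ t,
      ((if X * Real.sqrt (qq z) / 2 ≤ (z.n t : ℝ) ^ 2 then
        chi G κ z t * ((3 / 2 * X * Real.sqrt (cV V) + 20) * tot z) else 0) +
      3 / 2 * X * Real.sqrt (qq z) * |gen G (fun y => chi G κ y t) z| +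
      C2 * Real.sqrt (tot z))

theorem HH_gen (F0 : Flag G s 0) (τ : ℝ) (hτ : 0 < τ) (hτ0 : τ ≤ tau0 V) (C0 : ℝ) (hC0 : 0 < C0)
    (hl : ∀ (c : V → Fin s) (y : V → ℝ),
      |AA G c y c y| ≤ C0 * ∑ v, if y v = 0 then 0 else (Lf G c (c v) v y) ^ 2)
    (B : ℝ) (hB : 8 * C0 ≤ B) :
    ∃ CB > 0, ∀ κ X : ℝ, 0 < κ → 1 ≤ X → ∃ C2 > 0, ∃ T0 ≥ 1, ∀ z : St V s, T0 ≤ tot z →
      ∀ c y, F0.IsMx 0 τ z c y →
      (∀ t, |gen G (fun y => chi G κ y t) z| ≤ C2) ∧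
      gen G (HH F0 τ B κ X) z ≤ Bd G τ B κ X CB C2 z (dsq z.c (nR z) c y) := by
  obtain ⟨CB, hCB, hstar⟩ := star F0 τ hτ hτ0 C0 hC0 hl B hB
  refine ⟨CB, hCB, fun κ X hκ hX => ?_⟩
  obtain ⟨C2, hC2, T0, hT0, hcorr⟩ := corr_gen G s κ X hκ hX
  refine ⟨C2, hC2, T0, hT0, fun z hz c y hm => ⟨fun t => (hcorr z t hz).1, ?_⟩⟩
  have hB0 : 0 < B := by linarith
  have hν : 0 < B / τ + 3 / 2 := by positivity
  have h1 := hstar z (hT0.trans hz) c y hm (fun t => gw G κ X t z) (fun t =>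
    ⟨mul_nonneg (chi_nonneg κ z t) (dPh_nonneg X _ hX),
      mul_le_one₀ (chi_le_one κ z t) (dPh_nonneg X _ hX) (dPh_le_one X _ hX)⟩)
  have h2 : gen G (HH F0 τ B κ X) z = gen G (fun z => qq z - B * F0.env 0 τ z) z -
      (B / τ + 3 / 2) * ∑ t, gen G (corr G κ X t) z := by
    have e1 : HH F0 τ B κ X = fun y => (qq y - B * F0.env 0 τ y) +
        (-(B / τ + 3 / 2)) * ∑ t, corr G κ X t y := by
      funext y
      unfold HH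
      ring
    rw [e1, gen_add, gen_smul, gen_sum]
    ring
  have h3 := mul_le_mul_of_nonneg_left
    (Finset.sum_le_sum (fun t (_ : t ∈ (Finset.univ : Finset V)) => (hcorr z t hz).2)) hν.le
  simp only [Finset.sum_sub_distrib, Finset.sum_add_distrib, mul_sub, mul_add] at h3
  rw [h2]
  unfold Bd
  simp only [Finset.sum_sub_distrib, Finset.sum_add_distrib, mul_sub, mul_add] at h1 ⊢
  linarith

end UC
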