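import Pool.Agent.helper25.UC.Z7

/-!
# Z7A : case A (far from critical).  See Z7, HH_caseA.
-/

namespace UC
open Finset
variable {V : Type} [Fintype V] [DecidableEq V] {s k : ℕ}
variable {G : SimpleGraph V} [DecidableRel G.Adj]

private theorem Z7A_sum_le (f : V → ℝ) (b : ℝ) (h : ∀ t, f t ≤ b) : ∑ t, f t ≤ cV V * b := by
  have := Finset.sum_le_card_nsmul (univ : Finset V) f b (fun t _ => h t)
  rw [nsmul_eq_mul, Finset.card_univ] at this
  exact this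

private theorem Z7A_Dn_nonneg (z : St V s) (t : V) : 0 ≤ Dn G z t := by
  unfold Dn
  refine Finset.sum_nonneg fun w _ => ?_
  split_ifs
  · positivity
  · exact le_rfl

private theorem Z7A_Dn_le (z : St V s) (t : V) : Dn G z t ≤ tot z := by
  unfold Dn tot
  refine Finset.sum_le_sum fun w _ => ?_
  split_ifs
  · exact le_rfl
  · positivity

private theorem Z7A_gw_nonneg (κ X : ℝ) (hX : 1 ≤ X) (z : St V s) (t : V) : 0 ≤ gw G κ X t z :=
  mul_nonneg (chi_nonneg κ z t) (dPh_nonneg X _ hX)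

private theorem Z7A_gw_le (κ X : ℝ) (hX : 1 ≤ X) (z : St V s) (t : V) : gw G κ X t z ≤ 1 :=
  mul_le_one₀ (chi_le_one κ z t) (dPh_nonneg X _ hX) (dPh_le_one X _ hX)

private theorem Z7A_gw_sq (κ X : ℝ) (hX : 1 ≤ X) (z : St V s) (hz : 1 ≤ tot z) (t : V) :
    gw G κ X t z * (z.n t : ℝ) ^ 2 ≤ 2 * X * tot z := by
  have g0 := Z7A_gw_nonneg (G := G) κ X hX z t
  have g1 := Z7A_gw_le (G := G) κ X hX z t
  have hρN := rho_le_tot z
  have hNρ := tot_le_rho z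
  have hρ : 0 < Real.sqrt (qq z) := by
    rcases (Real.sqrt_nonneg (qq z)).lt_or_eq with h | h
    · exact h
    · rw [← h, mul_zero] at hNρ
      linarith
  by_cases hx : (z.n t : ℝ) ^ 2 / Real.sqrt (qq z) ≤ 2 * X
  · have h1 : (z.n t : ℝ) ^ 2 ≤ 2 * X * Real.sqrt (qq z) := by
      rwa [div_le_iff₀ hρ] at hx
    have h2 : 2 * X * Real.sqrt (qq z) ≤ 2 * X * tot z :=
      mul_le_mul_of_nonneg_left hρN (by linarith)
    have h3 : 0 ≤ (z.n t : ℝ) ^ 2 := sq_nonneg _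
    have h4 : gw G κ X t z * (z.n t : ℝ) ^ 2 ≤ 1 * (z.n t : ℝ) ^ 2 :=
      mul_le_mul_of_nonneg_right g1 h3
    linarith
  · have h1 : dPh X ((z.n t : ℝ) ^ 2 / Real.sqrt (qq z)) = 0 := by
      unfold dPh
      rw [if_neg (by linarith), if_neg hx]
    have h2 : gw G κ X t z = 0 := by
      unfold gw
      rw [h1, mul_zero]
    rw [h2, zero_mul]
    have : 0 ≤ tot z := by linarith
    positivity

private theorem Z7A_gw_lin (κ X : ℝ) (hX : 1 ≤ X) (z : St V s) (hz : 1 ≤ tot z) (t : V) :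
    gw G κ X t z * (z.n t : ℝ) ≤ Real.sqrt (2 * X) * Real.sqrt (tot z) := by
  have g0 := Z7A_gw_nonneg (G := G) κ X hX z t
  have g1 := Z7A_gw_le (G := G) κ X hX z t
  have h1 := Z7A_gw_sq (G := G) κ X hX z hz t
  rw [← Real.sqrt_mul (by linarith)]
  refine Real.le_sqrt_of_sq_le ?_
  have h2 : (gw G κ X t z * (z.n t : ℝ)) ^ 2 =
      gw G κ X t z * (gw G κ X t z * (z.n t : ℝ) ^ 2) := by ring
  have h3 : 0 ≤ gw G κ X t z * (z.n t : ℝ) ^ 2 := mul_nonneg g0 (sq_nonneg _)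
  rw [h2]
  calc gw G κ X t z * (gw G κ X t z * (z.n t : ℝ) ^ 2)
      ≤ 1 * (gw G κ X t z * (z.n t : ℝ) ^ 2) := mul_le_mul_of_nonneg_right g1 h3
    _ ≤ 2 * X * tot z := by rw [one_mul]; exact h1

theorem HH_caseA (F0 : Flag G s 0) (τ : ℝ) (hτ : 0 < τ) (hτ0 : τ ≤ tau0 V)
    (B κ X CB C2 : ℝ) (hB : 0 < B) (hκ : 0 < κ) (hX : 1 ≤ X) (hCB : 0 < CB) (hC2 : 0 < C2) :
    ∃ K2 > 0, ∃ c1 > 0, ∀ z : St V s, 1 ≤ tot z → ∀ c y, F0.IsMx 0 τ z c y →
      (∀ t, |gen G (fun y => chi G κ y t) z| ≤ C2) →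
      K2 * tot z ≤ dsq z.c (nR z) c y →
      Bd G τ B κ X CB C2 z (dsq z.c (nR z) c y) ≤ -(c1 * tot z) := by
  have hn0 : 0 ≤ cV V := by unfold cV; positivity
  obtain ⟨ν, hν⟩ : ∃ ν, ν = B / τ := ⟨_, rfl⟩
  have ν0 : 0 < ν := by rw [hν]; positivity
  obtain ⟨β, hβ⟩ : ∃ β, β = B / (16 * τ ^ 2) := ⟨_, rfl⟩
  have β0 : 0 < β := by rw [hβ]; positivity
  obtain ⟨A1, hA1⟩ : ∃ A1, A1 = 3 / 2 * X * Real.sqrt (cV V) + 20 := ⟨_, rfl⟩
  have A10 : 0 < A1 := by rw [hA1]; positivity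
  obtain ⟨P, hP⟩ : ∃ P, P = cV V * (Real.sqrt (2 * X) * (1 / τ + cV V)) := ⟨_, rfl⟩
  have P0 : 0 ≤ P := by rw [hP]; positivity
  obtain ⟨C', hC'⟩ : ∃ C', C' = CB * (cV V * (2 * X)) + cV V * (1 + ν) +
    (ν + 3 / 2) * (cV V * (A1 + 3 / 2 * X * C2 + C2)) := ⟨_, rfl⟩
  have C'0 : 0 ≤ C' := by
    rw [hC']
    have : 0 < X := by linarith
    positivity
  obtain ⟨K2, hK2⟩ : ∃ K2, K2 = (C' + P ^ 2 / (4 * β) + 1) / β := ⟨_, rfl⟩
  have K20 : 0 < K2 := by rw [hK2]; positivity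
  refine ⟨K2, K20, 2 * β * K2, by positivity, ?_⟩
  intro z hz c y hm hchi hK
  obtain ⟨N, hN⟩ : ∃ N, N = tot z := ⟨_, rfl⟩
  have N1 : 1 ≤ N := by rw [hN]; exact hz
  obtain ⟨D2, hD2⟩ : ∃ D2, D2 = dsq z.c (nR z) c y := ⟨_, rfl⟩
  have D20 : 0 ≤ D2 := by
    rw [hD2]
    unfold dsq
    exact Finset.sum_nonneg fun v _ => sq_nonneg _
  obtain ⟨d, hd⟩ : ∃ d, d = Real.sqrt D2 := ⟨_, rfl⟩
  have d0 : 0 ≤ d := by rw [hd]; exact Real.sqrt_nonneg _
  have dd : d ^ 2 = D2 := by rw [hd]; exact Real.sq_sqrt D20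
  obtain ⟨q, hq⟩ : ∃ q, q = Real.sqrt N := ⟨_, rfl⟩
  have q0 : 0 ≤ q := by rw [hq]; exact Real.sqrt_nonneg _
  have qN : q ^ 2 = N := by rw [hq]; exact Real.sq_sqrt (by linarith)
  have q1 : q ≤ N := by
    have : 1 ≤ q := by rw [hq]; exact Real.one_le_sqrt.2 N1
    nlinarith
  have hI : ∀ v, v ∉ F0.I := fun v hv => by
    obtain ⟨j, -⟩ := F0.cover v hv
    exact j.elim0
  have hy : ∀ v, 0 ≤ y v := fun v => hm.1.2 v (hI v)
  have hρN : Real.sqrt (qq z) ≤ N := by rw [hN]; exact rho_le_tot z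
  -- the field
  have hφ : ∀ t, ph G z t ≤ (1 / τ + cV V) * d := by
    intro t
    have h1 := mx0_field_le F0 τ hτ hτ0 z hz c y hm t (z.c t)
    have h2 := (abs_le.1 (Lf_sub_le (G := G) z c y hy t (z.c t))).1
    rw [← hD2, ← hd] at h1 h2
    unfold ph
    have e : (1 / τ + cV V) * d = d / τ + cV V * d := by ring
    rw [e]
    linarith
  have s1 : ∑ t, gw G κ X t z * (z.n t : ℝ) * ph G z t ≤ P * q * d := by
    have := Z7A_sum_le (fun t => gw G κ X t z * (z.n t : ℝ) * ph G z t)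
      (Real.sqrt (2 * X) * q * ((1 / τ + cV V) * d)) (fun t => by
        have g0 : 0 ≤ gw G κ X t z * (z.n t : ℝ) :=
          mul_nonneg (Z7A_gw_nonneg κ X hX z t) (Nat.cast_nonneg _)
        have g1 := Z7A_gw_lin (G := G) κ X hX z hz t
        rw [← hN, ← hq] at g1
        calc gw G κ X t z * (z.n t : ℝ) * ph G z t
            ≤ gw G κ X t z * (z.n t : ℝ) * ((1 / τ + cV V) * d) :=
              mul_le_mul_of_nonneg_left (hφ t) g0
          _ ≤ _ := mul_le_mul_of_nonneg_right g1 (by positivity))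
    refine this.trans (le_of_eq ?_)
    rw [hP]
    ring
  have s2 : ∑ t, gw G κ X t z * (z.n t : ℝ) ^ 2 ≤ cV V * (2 * X * N) :=
    Z7A_sum_le _ _ (fun t => by rw [hN]; exact Z7A_gw_sq κ X hX z hz t)
  have s3 : ∑ t, (1 + B / τ - (B / τ + 3 / 2) * gw G κ X t z) * Dn G z t ≤
      cV V * ((1 + ν) * N) := by
    refine Z7A_sum_le _ _ (fun t => ?_)
    have g0 := Z7A_gw_nonneg (G := G) κ X hX z t
    have D0 := Z7A_Dn_nonneg (G := G) z t
    have D1 : Dn G z t ≤ N := by rw [hN]; exact Z7A_Dn_le z t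
    rw [← hν]
    have h1 : 1 + ν - (ν + 3 / 2) * gw G κ X t z ≤ 1 + ν := by
      have : 0 ≤ (ν + 3 / 2) * gw G κ X t z := by positivity
      linarith
    calc (1 + ν - (ν + 3 / 2) * gw G κ X t z) * Dn G z t ≤ (1 + ν) * Dn G z t :=
          mul_le_mul_of_nonneg_right h1 D0
      _ ≤ (1 + ν) * N := mul_le_mul_of_nonneg_left D1 (by linarith)
  have s4 : ∑ t, ((if X * Real.sqrt (qq z) / 2 ≤ (z.n t : ℝ) ^ 2 then
        chi G κ z t * ((3 / 2 * X * Real.sqrt (cV V) + 20) * tot z) else 0) +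
      3 / 2 * X * Real.sqrt (qq z) * |gen G (fun y => chi G κ y t) z| +
      C2 * Real.sqrt (tot z)) ≤ cV V * ((A1 + 3 / 2 * X * C2 + C2) * N) := by
    refine Z7A_sum_le _ _ (fun t => ?_)
    rw [← hN, ← hq, ← hA1]
    have t1 : (if X * Real.sqrt (qq z) / 2 ≤ (z.n t : ℝ) ^ 2 then
        chi G κ z t * (A1 * N) else 0) ≤ A1 * N := by
      have hAN : 0 ≤ A1 * N := by positivity
      split_ifs
      · calc chi G κ z t * (A1 * N) ≤ 1 * (A1 * N) :=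
              mul_le_mul_of_nonneg_right (chi_le_one κ z t) hAN
          _ = A1 * N := one_mul _
      · exact hAN
    have t2 : 3 / 2 * X * Real.sqrt (qq z) * |gen G (fun y => chi G κ y t) z| ≤
        3 / 2 * X * N * C2 := by
      refine mul_le_mul ?_ (hchi t) (abs_nonneg _) (by positivity)
      exact mul_le_mul_of_nonneg_left hρN (by positivity)
    have t3 : C2 * q ≤ C2 * N := mul_le_mul_of_nonneg_left q1 hC2.le
    have e : (A1 + 3 / 2 * X * C2 + C2) * N = A1 * N + 3 / 2 * X * N * C2 + C2 * N := by ring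
    rw [e]
    linarith
  have key : Bd G τ B κ X CB C2 z D2 ≤ P * q * d - 4 * β * D2 + C' * N := by
    unfold Bd
    have h2 := mul_le_mul_of_nonneg_left s2 hCB.le
    have h4 := mul_le_mul_of_nonneg_left s4 (by linarith : 0 ≤ ν + 3 / 2)
    have eβ : B / (4 * τ ^ 2) = 4 * β := by rw [hβ]; field_simp; ring
    have eC : C' * N = CB * (cV V * (2 * X * N)) + cV V * ((1 + ν) * N) +
        (ν + 3 / 2) * (cV V * ((A1 + 3 / 2 * X * C2 + C2) * N)) := by rw [hC']; ring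
    rw [eβ, eC, ← hν]
    rw [← hν] at s3
    linarith
  have amgm : P * q * d ≤ β * D2 + P ^ 2 / (4 * β) * N := by
    have h1 : 0 ≤ (2 * β * d - P * q) ^ 2 := sq_nonneg _
    have h2 : P ^ 2 / (4 * β) * N = P ^ 2 * q ^ 2 / (4 * β) := by rw [qN]; ring
    rw [h2, ← dd, ← sub_le_iff_le_add', le_div_iff₀ (by positivity)]
    nlinarith
  have hNK : (C' + P ^ 2 / (4 * β)) * N ≤ β * D2 := by
    have h1 : K2 * N ≤ D2 := by rw [hN, hD2]; exact hK
    have h2 : β * (K2 * N) ≤ β * D2 := mul_le_mul_of_nonneg_left h1 β0.le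
    have h3 : β * (K2 * N) = (C' + P ^ 2 / (4 * β) + 1) * N := by
      rw [hK2]
      field_simp
    rw [h3] at h2
    linarith
  have hfin : 2 * β * K2 * N ≤ 2 * β * D2 := by
    have h1 : K2 * N ≤ D2 := by rw [hN, hD2]; exact hK
    have := mul_le_mul_of_nonneg_left h1 (by linarith : 0 ≤ 2 * β)
    linarith
  rw [← hD2, ← hN]
  have e2 : (C' + P ^ 2 / (4 * β)) * N = C' * N + P ^ 2 / (4 * β) * N := by ring
  rw [e2] at hNK
  linarith

end UC
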