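import Pool.Agent.helper25.UC.Z7

/-!
# Z7B : case B (nearly critical).  See Z7, HH_caseB.
-/

namespace UC
open Finset
variable {V : Type} [Fintype V] [DecidableEq V] {s k : ℕ}
variable {G : SimpleGraph V} [DecidableRel G.Adj]

omit [DecidableEq V] in
theorem Z7B_nonneg (F0 : Flag G s 0) (τ : ℝ) (z : St V s) (c : V → Fin s) (y : V → ℝ)
    (hm : F0.IsMx 0 τ z c y) (v : V) : 0 ≤ y v := by
  apply hm.1.2 v
  intro hv
  obtain ⟨j, _⟩ := F0.cover v hv
  exact j.elim0

theorem Z7B_eps_sq (a b : Fin s) : eps a b * eps a b = 1 := by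
  unfold eps
  split_ifs <;> norm_num

omit [DecidableEq V] in
theorem Z7B_term (z : St V s) (c : V → Fin s) (y : V → ℝ) (t : V) :
    |(z.n t : ℝ) - eps (z.c t) (c t) * y t| ≤ Real.sqrt (dsq z.c (nR z) c y) := by
  rw [← Real.sqrt_sq_eq_abs]
  apply Real.sqrt_le_sqrt
  unfold dsq
  exact Finset.single_le_sum (f := fun v => (nR z v - eps (z.c v) (c v) * y v) ^ 2)
    (fun v _ => sq_nonneg _) (Finset.mem_univ t)

/-- next to a very repelled vertex the maximiser vanishes -/
theorem pinned_zero (F0 : Flag G s 0) (τ : ℝ) (hτ : 0 < τ) (hτ0 : τ ≤ tau0 V) (K2 K3 : ℝ)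
    (hK2 : 0 < K2) (hK3 : (cV V + 1 / τ) * Real.sqrt K2 < K3) (z : St V s) (hz : 1 ≤ tot z)
    (c : V → Fin s) (y : V → ℝ) (hm : F0.IsMx 0 τ z c y)
    (hd : dsq z.c (nR z) c y ≤ K2 * tot z) (t : V)
    (hf : ∀ b : Fin s, Lf G z.c b t (nR z) ≤ -(K3 * Real.sqrt (tot z))) :
    y t = 0 ∧ (z.n t : ℝ) ≤ Real.sqrt (dsq z.c (nR z) c y) := by
  have hy := Z7B_nonneg F0 τ z c y hm
  set d := Real.sqrt (dsq z.c (nR z) c y) with hdd
  have hd0 : 0 ≤ d := Real.sqrt_nonneg _
  have hterm := Z7B_term z c y t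
  rw [← hdd, abs_le] at hterm
  have hN : 1 ≤ Real.sqrt (tot z) := by
    rw [show (1 : ℝ) = Real.sqrt 1 by simp]
    exact Real.sqrt_le_sqrt hz
  have hdK : d ≤ Real.sqrt K2 * Real.sqrt (tot z) := by
    rw [hdd, ← Real.sqrt_mul hK2.le]
    exact Real.sqrt_le_sqrt hd
  have hcV : 0 ≤ cV V := by unfold cV; positivity
  have hyt : y t = 0 := by
    by_contra hne
    have hpos : 0 < y t := lt_of_le_of_ne (hy t) (Ne.symm hne)
    have h1 := mx0_stat F0 τ hτ hτ0 z hz c y hm t hpos
    have h2 : -d ≤ y t - eps (z.c t) (c t) * (z.n t : ℝ) := by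
      have e := Z7B_eps_sq (z.c t) (c t)
      rcases (by unfold eps; split_ifs <;> simp :
        eps (z.c t) (c t) = 1 ∨ eps (z.c t) (c t) = -1) with he | he
      · rw [he] at hterm ⊢
        linarith [hterm.1, hterm.2]
      · rw [he] at hterm ⊢
        have : (0 : ℝ) ≤ z.n t := Nat.cast_nonneg _
        linarith [hterm.1, hterm.2]
    have h3 : -(d / τ) ≤ Lf G c (c t) t y := by
      rw [h1, ← neg_div]
      exact div_le_div_of_nonneg_right h2 hτ.le
    have h4 := Lf_sub_le (G := G) z c y hy t (c t)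
    rw [← hdd, abs_le] at h4
    have h5 := hf (c t)
    have h6 : K3 * Real.sqrt (tot z) ≤ (cV V + 1 / τ) * d := by
      have : (cV V + 1 / τ) * d = cV V * d + d / τ := by ring
      rw [this]
      linarith [h4.2]
    have h7 : (cV V + 1 / τ) * d ≤ (cV V + 1 / τ) * (Real.sqrt K2 * Real.sqrt (tot z)) := by
      apply mul_le_mul_of_nonneg_left hdK
      positivity
    have h8 : (cV V + 1 / τ) * (Real.sqrt K2 * Real.sqrt (tot z)) <
        K3 * Real.sqrt (tot z) := by
      rw [← mul_assoc]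
      exact mul_lt_mul_of_pos_right hK3 (by linarith)
    linarith
  refine ⟨hyt, ?_⟩
  rw [hyt, mul_zero, sub_zero] at hterm
  exact hterm.2

set_option maxHeartbeats 1600000 in
theorem HH_caseB (F0 : Flag G s 0) (τ : ℝ) (hτ : 0 < τ) (hτ0 : τ ≤ tau0 V)
    (hdeg : ∀ u : V, ∃ t, G.Adj u t)
    (B κ X CB C2 K2 : ℝ) (hB : 0 < B) (hκ : 0 < κ) (hX : 1 ≤ X) (hCB : 0 < CB) (hC2 : 0 < C2)
    (hK2 : 0 < K2)
    (hκ1 : 2 * κ * cV V ≤ 1) (hκ2 : 8 * cV V ^ 3 * κ * (1 + B / τ) ≤ 1)
    (hX2 : (1 + B / τ) + (B / τ + 3 / 2) * (3 / 2 * X * Real.sqrt (cV V) + 20) + 1 ≤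
      B * X / (8 * τ ^ 2 * Real.sqrt (cV V))) :
    ∃ K3 > 0, ∃ c1 > 0, ∃ T > 0, ∀ z : St V s, T ≤ tot z → ∀ c y, F0.IsMx 0 τ z c y →
      dsq z.c (nR z) c y ≤ K2 * tot z →
      (∀ u t, G.Adj u t → κ / Real.sqrt (cV V) * tot z ≤ (z.n u : ℝ) →
        ∀ b : Fin s, Lf G z.c b t (nR z) ≤ -(K3 * Real.sqrt (tot z))) →
      Bd G τ B κ X CB C2 z (dsq z.c (nR z) c y) ≤ -(c1 * tot z) := by
  rcases isEmpty_or_nonempty V with hV | hV
  · -- no states with positive total
    refine ⟨1, one_pos, 1, one_pos, 1, one_pos, fun z hz => ?_⟩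
    exfalso
    have : tot z = 0 := by
      unfold tot
      exact Fintype.sum_empty _
    linarith
  have hn0 : 1 ≤ cV V := by
    unfold cV
    have : 0 < Fintype.card V := Fintype.card_pos
    exact_mod_cast this
  have hn0' : 0 < cV V := by linarith
  have hsn : 0 < Real.sqrt (cV V) := Real.sqrt_pos.2 hn0'
  have hsn1 : 1 ≤ Real.sqrt (cV V) := by
    rw [show (1 : ℝ) = Real.sqrt 1 by simp]
    exact Real.sqrt_le_sqrt hn0
  obtain ⟨C, hC, T0, hT0, hchi⟩ := gen_chi_small F0 τ hτ hτ0 K2 κ hK2 hκ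
  set ν := B / τ with hν
  have hν0 : 0 < ν := div_pos hB hτ
  set A1 := 3 / 2 * X * Real.sqrt (cV V) + 20 with hA1
  have hA10 : 0 < A1 := by rw [hA1]; positivity
  set C' := cV V * ((ν + 3 / 2) * (3 / 2 * X * C + C2)) with hC'
  have hC'0 : 0 < C' := by rw [hC']; positivity
  set K3 := (cV V + 1 / τ) * Real.sqrt K2 + 1 + CB * Real.sqrt (2 * X) with hK3
  have hK30 : 0 < K3 := by rw [hK3]; positivity
  refine ⟨K3, hK30, 1 / (8 * cV V), by positivity, max T0 ((8 * cV V * C') ^ 2), by positivity,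
    fun z hz c y hm hd hf => ?_⟩
  set N := tot z with hN
  have hzT0 : T0 ≤ N := (le_max_left _ _).trans hz
  have hN1 : 1 ≤ N := hT0.trans hzT0
  have hN0 : 0 < N := by linarith
  have hzT1 : (8 * cV V * C') ^ 2 ≤ N := (le_max_right _ _).trans hz
  set ρ := Real.sqrt (qq z) with hρ
  have hρN : ρ ≤ N := rho_le_tot z
  have hNρ : N ≤ Real.sqrt (cV V) * ρ := tot_le_rho z
  have hρ0 : 0 < ρ := by
    by_contra hcon
    push Not at hcon
    have : ρ = 0 := le_antisymm hcon (Real.sqrt_nonneg _)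
    rw [this, mul_zero] at hNρ
    linarith
  have hκρ : κ / Real.sqrt (cV V) * N ≤ κ * ρ := by
    rw [div_mul_eq_mul_div, div_le_iff₀ hsn]
    calc κ * N ≤ κ * (Real.sqrt (cV V) * ρ) := by gcongr
      _ = κ * ρ * Real.sqrt (cV V) := by ring
  set D2 := dsq z.c (nR z) c y with hD2
  have hsN : 0 < Real.sqrt N := Real.sqrt_pos.2 hN0
  have hK3' : (cV V + 1 / τ) * Real.sqrt K2 < K3 := by
    rw [hK3]
    have : 0 < CB * Real.sqrt (2 * X) := by positivity
    linarith
  -- fields next to urns which are not small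
  have hfield : ∀ u t, G.Adj u t → κ * ρ < (z.n u : ℝ) →
      ∀ b : Fin s, Lf G z.c b t (nR z) ≤ -(K3 * Real.sqrt N) := fun u t hut hu =>
    hf u t hut (hκρ.trans hu.le)
  have hpin : ∀ u t, G.Adj u t → κ * ρ < (z.n u : ℝ) → (z.n t : ℝ) ≤ Real.sqrt D2 :=
    fun u t hut hu => (pinned_zero F0 τ hτ hτ0 K2 K3 hK2 hK3' z hN1 c y hm hd t
      (hfield u t hut hu)).2
  have hgen := hchi z hzT0 c y hm hd (fun u w huw hu =>
    (hpin u w huw hu).trans (Real.sqrt_le_sqrt hd))
  -- per vertex facts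
  have hDn0 : ∀ t, 0 ≤ Dn G z t := by
    intro t
    unfold Dn
    apply Finset.sum_nonneg
    intro w _
    split_ifs
    · exact Nat.cast_nonneg _
    · exact le_rfl
  have hDnN : ∀ t, Dn G z t ≤ N := by
    intro t
    rw [hN]
    unfold Dn tot
    apply Finset.sum_le_sum
    intro w _
    split_ifs
    · exact le_rfl
    · exact Nat.cast_nonneg _
  have hDsmall : ∀ t, chi G κ z t ≠ 1 → Dn G z t ≤ 2 * cV V * κ * N := by
    intro t ht
    have h1 : ∀ w : V, (if G.Adj t w then (z.n w : ℝ) else 0) ≤ 2 * κ * N := by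
      intro w
      split_ifs with h
      · by_contra hcon
        push Not at hcon
        apply ht
        apply chi_eq_one κ hκ z t w h hN1
        calc 2 * κ * Real.sqrt (qq z) ≤ 2 * κ * N := by
              rw [← hρ]; gcongr
          _ ≤ _ := hcon.le
      · positivity
    unfold Dn
    calc ∑ w, (if G.Adj t w then (z.n w : ℝ) else 0) ≤ ∑ w : V, 2 * κ * N :=
          Finset.sum_le_sum fun w _ => h1 w
      _ = 2 * cV V * κ * N := by
          rw [Finset.sum_const, Finset.card_univ, nsmul_eq_mul]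
          unfold cV
          ring
  classical
  set W : Finset V := Finset.univ.filter
    (fun t => 0 < chi G κ z t ∧ X * ρ / 2 ≤ (z.n t : ℝ) ^ 2) with hW
  set m : ℝ := (W.card : ℝ) with hm'
  have hm0 : 0 ≤ m := Nat.cast_nonneg _
  -- the bound for `d²`
  have hD2W : m * (X * ρ / 2) ≤ D2 := by
    have h1 : ∀ t ∈ W, X * ρ / 2 ≤ (nR z t - eps (z.c t) (c t) * y t) ^ 2 := by
      intro t ht
      rw [hW, Finset.mem_filter] at ht
      obtain ⟨-, hchi0, hn⟩ := ht
      obtain ⟨u, htu, hu⟩ := exists_of_chi_pos κ hκ z t hN1 hchi0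
      have hp := pinned_zero F0 τ hτ hτ0 K2 K3 hK2 hK3' z hN1 c y hm hd t
        (hfield u t htu.symm hu)
      rw [hp.1, mul_zero, sub_zero]
      exact hn
    calc m * (X * ρ / 2) = ∑ t ∈ W, X * ρ / 2 := by
          rw [Finset.sum_const, nsmul_eq_mul]
      _ ≤ ∑ t ∈ W, (nR z t - eps (z.c t) (c t) * y t) ^ 2 := Finset.sum_le_sum h1
      _ ≤ ∑ t, (nR z t - eps (z.c t) (c t) * y t) ^ 2 :=
          Finset.sum_le_sum_of_subset_of_nonneg (Finset.subset_univ _)
            (fun _ _ _ => sq_nonneg _)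
      _ = D2 := rfl
  -- the sum in `Bd`, vertex by vertex
  let St' : V → ℝ := fun t =>
    gw G κ X t z * (z.n t : ℝ) * ph G z t + CB * (gw G κ X t z * (z.n t : ℝ) ^ 2) +
      (1 + ν - (ν + 3 / 2) * gw G κ X t z) * Dn G z t +
      (ν + 3 / 2) * ((if X * ρ / 2 ≤ (z.n t : ℝ) ^ 2 then chi G κ z t * (A1 * N) else 0) +
        3 / 2 * X * ρ * |gen G (fun y => chi G κ y t) z| + C2 * Real.sqrt N)
  have hBd : Bd G τ B κ X CB C2 z D2 = ∑ t, St' t - B / (4 * τ ^ 2) * D2 := by
    have : ∑ t, St' t = ∑ t, gw G κ X t z * (z.n t : ℝ) * ph G z t +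
        CB * ∑ t, gw G κ X t z * (z.n t : ℝ) ^ 2 +
        ∑ t, (1 + ν - (ν + 3 / 2) * gw G κ X t z) * Dn G z t +
        (ν + 3 / 2) * ∑ t, ((if X * ρ / 2 ≤ (z.n t : ℝ) ^ 2 then
          chi G κ z t * (A1 * N) else 0) +
          3 / 2 * X * ρ * |gen G (fun y => chi G κ y t) z| + C2 * Real.sqrt N) := by
      rw [Finset.mul_sum, Finset.mul_sum, ← Finset.sum_add_distrib, ← Finset.sum_add_distrib,
        ← Finset.sum_add_distrib]
    rw [this]
    unfold Bd
    ring
  let U : V → ℝ := fun t =>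
    (if t ∈ W then ((1 + ν) + (ν + 3 / 2) * A1) * N else 0) + 2 * cV V * κ * N * (1 + ν) -
      1 / 2 * (if t ∉ W ∧ chi G κ z t = 1 then Dn G z t else 0) +
      (ν + 3 / 2) * (3 / 2 * X * C + C2) * Real.sqrt N
  have hSU : ∀ t, St' t ≤ U t := by
    intro t
    have hchi0 : 0 ≤ chi G κ z t := chi_nonneg κ z t
    have hchi1 : chi G κ z t ≤ 1 := chi_le_one κ z t
    set x := (z.n t : ℝ) ^ 2 / ρ with hx
    have hdP0 : 0 ≤ dPh X x := dPh_nonneg X x hX
    have hdP1 : dPh X x ≤ 1 := dPh_le_one X x hX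
    have hgw : gw G κ X t z = chi G κ z t * dPh X x := rfl
    have hg0 : 0 ≤ gw G κ X t z := by rw [hgw]; positivity
    have hn0t : (0 : ℝ) ≤ z.n t := Nat.cast_nonneg _
    -- first two terms
    have hA : gw G κ X t z * (z.n t : ℝ) * ph G z t +
        CB * (gw G κ X t z * (z.n t : ℝ) ^ 2) ≤ 0 := by
      by_cases hz0 : gw G κ X t z = 0
      · rw [hz0]; simp
      · have hc0 : chi G κ z t ≠ 0 := fun h => hz0 (by rw [hgw, h, zero_mul])
        have hd0 : dPh X x ≠ 0 := fun h => hz0 (by rw [hgw, h, mul_zero])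
        have hcpos : 0 < chi G κ z t := lt_of_le_of_ne hchi0 (Ne.symm hc0)
        obtain ⟨u, htu, hu⟩ := exists_of_chi_pos κ hκ z t hN1 hcpos
        have hph : ph G z t ≤ -(K3 * Real.sqrt N) := hfield u t htu.symm hu (z.c t)
        have hx2 : x ≤ 2 * X := by
          by_contra hcon
          push Not at hcon
          apply hd0
          unfold dPh
          rw [if_neg (by linarith), if_neg (by linarith)]
        have hnt : (z.n t : ℝ) ≤ Real.sqrt (2 * X) * Real.sqrt N := by
          rw [← Real.sqrt_mul (by positivity)]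
          apply Real.le_sqrt_of_sq_le
          have : (z.n t : ℝ) ^ 2 = x * ρ := by rw [hx]; field_simp
          rw [this]
          calc x * ρ ≤ 2 * X * ρ := by gcongr
            _ ≤ 2 * X * N := by gcongr
        have h1 : ph G z t + CB * (z.n t : ℝ) ≤ 0 := by
          have h2 : CB * (z.n t : ℝ) ≤ CB * (Real.sqrt (2 * X) * Real.sqrt N) := by gcongr
          have h3 : CB * (Real.sqrt (2 * X) * Real.sqrt N) ≤ K3 * Real.sqrt N := by
            rw [← mul_assoc]
            apply mul_le_mul_of_nonneg_right _ hsN.le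
            rw [hK3]
            have : 0 ≤ (cV V + 1 / τ) * Real.sqrt K2 := by positivity
            linarith
          linarith
        have h2 : gw G κ X t z * (z.n t : ℝ) * ph G z t +
            CB * (gw G κ X t z * (z.n t : ℝ) ^ 2) =
            gw G κ X t z * (z.n t : ℝ) * (ph G z t + CB * (z.n t : ℝ)) := by ring
        rw [h2]
        exact mul_nonpos_of_nonneg_of_nonpos (by positivity) h1
    -- the `gen chi` term
    have hE : 3 / 2 * X * ρ * |gen G (fun y => chi G κ y t) z| ≤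
        3 / 2 * X * C * Real.sqrt N := by
      have h1 := hgen t
      have h2 : ρ * (C / Real.sqrt N) ≤ C * Real.sqrt N := by
        have h3 : Real.sqrt N * Real.sqrt N = N := Real.mul_self_sqrt hN0.le
        rw [← mul_div_assoc, div_le_iff₀ hsN]
        calc ρ * C ≤ N * C := by gcongr
          _ = C * Real.sqrt N * Real.sqrt N := by rw [mul_assoc, h3]; ring
      calc 3 / 2 * X * ρ * |gen G (fun y => chi G κ y t) z|
          ≤ 3 / 2 * X * ρ * (C / Real.sqrt N) := by gcongr
        _ = 3 / 2 * X * (ρ * (C / Real.sqrt N)) := by ring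
        _ ≤ 3 / 2 * X * (C * Real.sqrt N) := by gcongr
        _ = _ := by ring
    have hκN : 0 ≤ 2 * cV V * κ * N * (1 + ν) := by positivity
    show gw G κ X t z * (z.n t : ℝ) * ph G z t + CB * (gw G κ X t z * (z.n t : ℝ) ^ 2) +
      (1 + ν - (ν + 3 / 2) * gw G κ X t z) * Dn G z t +
      (ν + 3 / 2) * ((if X * ρ / 2 ≤ (z.n t : ℝ) ^ 2 then chi G κ z t * (A1 * N) else 0) +
        3 / 2 * X * ρ * |gen G (fun y => chi G κ y t) z| + C2 * Real.sqrt N) ≤
      (if t ∈ W then ((1 + ν) + (ν + 3 / 2) * A1) * N else 0) + 2 * cV V * κ * N * (1 + ν) -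
      1 / 2 * (if t ∉ W ∧ chi G κ z t = 1 then Dn G z t else 0) +
      (ν + 3 / 2) * (3 / 2 * X * C + C2) * Real.sqrt N
    have hlast : (ν + 3 / 2) * (3 / 2 * X * ρ * |gen G (fun y => chi G κ y t) z| +
        C2 * Real.sqrt N) ≤ (ν + 3 / 2) * (3 / 2 * X * C + C2) * Real.sqrt N := by
      calc (ν + 3 / 2) * (3 / 2 * X * ρ * |gen G (fun y => chi G κ y t) z| +
          C2 * Real.sqrt N) ≤ (ν + 3 / 2) * (3 / 2 * X * C * Real.sqrt N +
          C2 * Real.sqrt N) := by gcongr
        _ = _ := by ring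
    by_cases htW : t ∈ W
    · have ht := htW
      rw [hW, Finset.mem_filter] at ht
      rw [if_pos htW, if_pos ht.2.2, if_neg (fun h => h.1 htW)]
      have h1 : (1 + ν - (ν + 3 / 2) * gw G κ X t z) * Dn G z t ≤ (1 + ν) * N := by
        calc (1 + ν - (ν + 3 / 2) * gw G κ X t z) * Dn G z t ≤ (1 + ν) * Dn G z t := by
              apply mul_le_mul_of_nonneg_right _ (hDn0 t)
              have : 0 ≤ (ν + 3 / 2) * gw G κ X t z := by positivity
              linarith
          _ ≤ (1 + ν) * N := by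
              apply mul_le_mul_of_nonneg_left (hDnN t); positivity
      have h2 : (ν + 3 / 2) * (chi G κ z t * (A1 * N)) ≤ (ν + 3 / 2) * A1 * N := by
        calc (ν + 3 / 2) * (chi G κ z t * (A1 * N)) ≤ (ν + 3 / 2) * (1 * (A1 * N)) := by gcongr
          _ = _ := by ring
      have h3 : (ν + 3 / 2) * (chi G κ z t * (A1 * N) +
          3 / 2 * X * ρ * |gen G (fun y => chi G κ y t) z| + C2 * Real.sqrt N) =
          (ν + 3 / 2) * (chi G κ z t * (A1 * N)) +
          (ν + 3 / 2) * (3 / 2 * X * ρ * |gen G (fun y => chi G κ y t) z| +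
          C2 * Real.sqrt N) := by ring
      rw [h3]
      have h4 : ((1 + ν) + (ν + 3 / 2) * A1) * N = (1 + ν) * N + (ν + 3 / 2) * A1 * N := by ring
      rw [h4]
      linarith
    · rw [if_neg htW]
      have hite : (if X * ρ / 2 ≤ (z.n t : ℝ) ^ 2 then chi G κ z t * (A1 * N) else 0) = 0 := by
        split_ifs with h
        · have : chi G κ z t = 0 := by
            by_contra hne
            apply htW
            rw [hW, Finset.mem_filter]
            exact ⟨Finset.mem_univ _, lt_of_le_of_ne hchi0 (Ne.symm hne), h⟩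
          rw [this, zero_mul]
        · rfl
      rw [hite, zero_add]
      by_cases hc1 : chi G κ z t = 1
      · rw [if_pos ⟨htW, hc1⟩]
        have hx1 : x ≤ X := by
          by_contra hcon
          push Not at hcon
          apply htW
          rw [hW, Finset.mem_filter]
          refine ⟨Finset.mem_univ _, by rw [hc1]; norm_num, ?_⟩
          have : (z.n t : ℝ) ^ 2 = x * ρ := by rw [hx]; field_simp
          rw [this]
          have h1 : X * ρ ≤ x * ρ := by gcongr
          have h2 : 0 ≤ X * ρ := by positivity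
          linarith
        have hg1 : gw G κ X t z = 1 := by
          rw [hgw, hc1, one_mul]
          unfold dPh
          rw [if_pos hx1]
        rw [hg1] at hA ⊢
        have h1 : (1 + ν - (ν + 3 / 2) * 1) * Dn G z t = -(1 / 2 * Dn G z t) := by ring
        rw [h1]
        linarith
      · rw [if_neg (fun h => hc1 h.2)]
        have h1 : (1 + ν - (ν + 3 / 2) * gw G κ X t z) * Dn G z t ≤
            2 * cV V * κ * N * (1 + ν) := by
          calc (1 + ν - (ν + 3 / 2) * gw G κ X t z) * Dn G z t ≤ (1 + ν) * Dn G z t := by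
                apply mul_le_mul_of_nonneg_right _ (hDn0 t)
                have : 0 ≤ (ν + 3 / 2) * gw G κ X t z := by positivity
                linarith
            _ ≤ (1 + ν) * (2 * cV V * κ * N) := by
                apply mul_le_mul_of_nonneg_left (hDsmall t hc1); positivity
            _ = _ := by ring
        linarith
  have hsumU : ∑ t, U t = m * (((1 + ν) + (ν + 3 / 2) * A1) * N) +
      cV V * (2 * cV V * κ * N * (1 + ν)) -
      1 / 2 * ∑ t, (if t ∉ W ∧ chi G κ z t = 1 then Dn G z t else 0) +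
      C' * Real.sqrt N := by
    show ∑ t, ((if t ∈ W then ((1 + ν) + (ν + 3 / 2) * A1) * N else 0) +
      2 * cV V * κ * N * (1 + ν) -
      1 / 2 * (if t ∉ W ∧ chi G κ z t = 1 then Dn G z t else 0) +
      (ν + 3 / 2) * (3 / 2 * X * C + C2) * Real.sqrt N) = _
    rw [Finset.sum_add_distrib, Finset.sum_sub_distrib, Finset.sum_add_distrib,
      Finset.sum_ite_mem, Finset.univ_inter, Finset.sum_const, Finset.sum_const,
      Finset.sum_const, Finset.card_univ, ← Finset.mul_sum, nsmul_eq_mul, nsmul_eq_mul,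
      nsmul_eq_mul, hC']
    unfold cV
    ring
  have hDs0 : ∀ t, 0 ≤ (if t ∉ W ∧ chi G κ z t = 1 then Dn G z t else 0) := by
    intro t
    split_ifs
    · exact hDn0 t
    · exact le_rfl
  -- the main inequality
  have hmain : Bd G τ B κ X CB C2 z D2 ≤ -(m * N) + cV V * (2 * cV V * κ * N * (1 + ν)) -
      1 / 2 * ∑ t, (if t ∉ W ∧ chi G κ z t = 1 then Dn G z t else 0) + C' * Real.sqrt N := by
    rw [hBd]
    have h1 : ∑ t, St' t ≤ ∑ t, U t := Finset.sum_le_sum fun t _ => hSU t
    rw [hsumU] at h1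
    have h2 : m * (B * X / (8 * τ ^ 2 * Real.sqrt (cV V)) * N) ≤ B / (4 * τ ^ 2) * D2 := by
      calc m * (B * X / (8 * τ ^ 2 * Real.sqrt (cV V)) * N)
          ≤ m * (B * X / (8 * τ ^ 2 * Real.sqrt (cV V)) * (Real.sqrt (cV V) * ρ)) := by
            gcongr
        _ = B / (4 * τ ^ 2) * (m * (X * ρ / 2)) := by
            field_simp
            ring
        _ ≤ B / (4 * τ ^ 2) * D2 := by gcongr
    have h3 : m * (((1 + ν) + (ν + 3 / 2) * A1 + 1) * N) ≤
        m * (B * X / (8 * τ ^ 2 * Real.sqrt (cV V)) * N) := by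
      apply mul_le_mul_of_nonneg_left _ hm0
      exact mul_le_mul_of_nonneg_right hX2 hN0.le
    have h4 : m * (((1 + ν) + (ν + 3 / 2) * A1 + 1) * N) =
        m * (((1 + ν) + (ν + 3 / 2) * A1) * N) + m * N := by ring
    linarith
  have hκN : cV V * (2 * cV V * κ * N * (1 + ν)) ≤ 1 / (4 * cV V) * N := by
    have h1 : 8 * cV V ^ 3 * κ * (1 + ν) ≤ 1 := hκ2
    rw [div_mul_eq_mul_div, le_div_iff₀ (by positivity)]
    calc cV V * (2 * cV V * κ * N * (1 + ν)) * (4 * cV V)
        = (8 * cV V ^ 3 * κ * (1 + ν)) * N := by ring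
      _ ≤ 1 * N := by gcongr
  have hCN : C' * Real.sqrt N ≤ 1 / (8 * cV V) * N := by
    have h1 : 8 * cV V * C' ≤ Real.sqrt N := Real.le_sqrt_of_sq_le hzT1
    have h3 : Real.sqrt N * Real.sqrt N = N := Real.mul_self_sqrt hN0.le
    rw [div_mul_eq_mul_div, le_div_iff₀ (by positivity), one_mul]
    calc C' * Real.sqrt N * (8 * cV V) = (8 * cV V * C') * Real.sqrt N := by ring
      _ ≤ Real.sqrt N * Real.sqrt N := by gcongr
      _ = N := h3
  have h14 : 1 / (4 * cV V) ≤ 1 / 4 := by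
    apply one_div_le_one_div_of_le (by norm_num)
    linarith
  have h18 : 1 / (8 * cV V) ≤ 1 / 8 := by
    apply one_div_le_one_div_of_le (by norm_num)
    linarith
  by_cases hWe : W = ∅
  · -- `m = 0`
    have hm00 : m = 0 := by rw [hm', hWe]; simp
    obtain ⟨u, hu⟩ : ∃ u, 1 / cV V * N ≤ (z.n u : ℝ) := by
      by_contra hcon
      push Not at hcon
      have h1 : ∑ u : V, (z.n u : ℝ) < ∑ u : V, 1 / cV V * N :=
        Finset.sum_lt_sum_of_nonempty Finset.univ_nonempty fun u _ => hcon u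
      rw [Finset.sum_const, Finset.card_univ, nsmul_eq_mul] at h1
      have h2 : (Fintype.card V : ℝ) * (1 / cV V * N) = N := by
        change cV V * (1 / cV V * N) = N
        field_simp
      rw [h2] at h1
      exact absurd h1 (lt_irrefl _)
    obtain ⟨t, hut⟩ := hdeg u
    have hchi1 : chi G κ z t = 1 := by
      apply chi_eq_one κ hκ z t u hut.symm hN1
      calc 2 * κ * Real.sqrt (qq z) ≤ 2 * κ * N := by rw [← hρ]; gcongr
        _ ≤ 1 / cV V * N := by
            apply mul_le_mul_of_nonneg_right _ hN0.le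
            rw [le_div_iff₀ hn0']
            exact hκ1
        _ ≤ _ := hu
    have hDt : 1 / cV V * N ≤ Dn G z t := by
      refine hu.trans ?_
      unfold Dn
      have := Finset.single_le_sum (f := fun w => if G.Adj t w then (z.n w : ℝ) else 0)
        (fun w _ => by split_ifs; exact Nat.cast_nonneg _; exact le_rfl) (Finset.mem_univ u)
      rw [if_pos hut.symm] at this
      exact this
    have hsumD : 1 / cV V * N ≤
        ∑ t, (if t ∉ W ∧ chi G κ z t = 1 then Dn G z t else 0) := by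
      refine hDt.trans ?_
      have := Finset.single_le_sum
        (f := fun t => if t ∉ W ∧ chi G κ z t = 1 then Dn G z t else 0)
        (fun w _ => hDs0 w) (Finset.mem_univ t)
      rw [if_pos ⟨by rw [hWe]; exact Finset.notMem_empty t, hchi1⟩] at this
      exact this
    rw [hm00, zero_mul] at hmain
    have e1 : 1 / cV V = 2 * (1 / (2 * cV V)) := by field_simp
    have e2 : 1 / (2 * cV V) = 2 * (1 / (4 * cV V)) := by field_simp; norm_num
    have e3 : 1 / (4 * cV V) = 2 * (1 / (8 * cV V)) := by field_simp; norm_num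
    rw [e1, e2, e3] at hsumD
    rw [e3] at hκN
    have hp : 0 ≤ 1 / (8 * cV V) * N := by positivity
    linarith
  · have hm1 : 1 ≤ m := by
      rw [hm']
      have : 0 < W.card := Finset.card_pos.2 (Finset.nonempty_of_ne_empty hWe)
      exact_mod_cast this
    have hs0 : 0 ≤ ∑ t, (if t ∉ W ∧ chi G κ z t = 1 then Dn G z t else 0) :=
      Finset.sum_nonneg fun t _ => hDs0 t
    have h1 : N ≤ m * N := by nlinarith
    have h2 : 1 / (4 * cV V) * N ≤ 1 / 4 * N := by gcongr
    have h3 : 1 / (8 * cV V) * N ≤ 1 / 8 * N := by gcongr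
    linarith

end UC
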