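import Pool.Agent.helper25.UC.Z7A
import Pool.Agent.helper25.UC.Z7B
import Pool.Agent.helper25.UC.Z3B

/-!
# Z7C : on bad states `gen HH ≤ - c tot`

`n0 = card V ≥ 2` (`hdeg` gives an edge).  `C0` from `loja`, `B = max (8 C0) (10 τ)`,
`CB` from `HH_gen` (before `κ, X` are chosen), `ν = B/τ`.
`X ≥ 1` with `hX2` of `HH_caseB`: the coefficient of `X` on the right is `B/(8τ²√n0)`, on the left
`(ν + 3/2)(3/2)√n0`; the first is the larger one:
`12 τ n0 + 18 τ² n0/B < 1` since `τ n0 ≤ n0/(16 (n0+2)²) ≤ 1/128`, `B ≥ 10τ`.  `κ = min` of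
`1/(2 n0)` and `1/(8 n0³ (1+ν))`.  Then `C2, T0` from `HH_gen`, `K2, c1` from `HH_caseA`, `K3, c1', T`
from `HH_caseB`, `ε` from `zero_strict (κ/√n0) K2 K3`; and `ε` so small that `f z < ε`, `tot z ≥ 1`
imply `tot z ≥ max T0 T 1` (`BadF.pos` with `Q = T²`, `qq ≤ tot²`: `qq_le_tot_sq`).
A maximiser exists by A4.  `dsq ≥ K2 tot`: case A.  Else case B.
-/

namespace UC
open Finset
variable {V : Type} [Fintype V] [DecidableEq V] {s k : ℕ}
variable {G : SimpleGraph V} [DecidableRel G.Adj]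

theorem z7c_const {n τ B : ℝ} (hn : 1 ≤ n) (hτ : 0 < τ) (hτ0 : τ ≤ 1 / (16 * (n + 2) ^ 2))
    (hB : 10 * τ ≤ B) :
    ∃ X ≥ (1 : ℝ), (1 + B / τ) + (B / τ + 3 / 2) * (3 / 2 * X * Real.sqrt n + 20) + 1 ≤
      B * X / (8 * τ ^ 2 * Real.sqrt n) := by
  have hB0 : 0 < B := by linarith
  have hs : 0 < Real.sqrt n := Real.sqrt_pos.2 (by linarith)
  have hs2 : Real.sqrt n ^ 2 = n := Real.sq_sqrt (by linarith)
  set r := Real.sqrt n with hr
  -- `τ n ≤ 1/128`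
  have h1 : τ * n ≤ 1 / 128 := by
    have h2 : 1 / (16 * (n + 2) ^ 2) * n ≤ 1 / 128 := by
      rw [div_mul_eq_mul_div, one_mul, div_le_div_iff₀ (by positivity) (by norm_num)]
      nlinarith [sq_nonneg (n - 2)]
    exact (mul_le_mul_of_nonneg_right hτ0 (by linarith)).trans h2
  have h3 : τ ^ 2 * n ≤ B * (1 / 1280) := by
    have : τ ^ 2 * n = τ * (τ * n) := by ring
    rw [this]
    calc τ * (τ * n) ≤ τ * (1 / 128) := mul_le_mul_of_nonneg_left h1 hτ.le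
      _ ≤ B * (1 / 1280) := by linarith
  have h4 : 0 < B / (8 * τ ^ 2 * r) - (B / τ + 3 / 2) * (3 / 2 * r) := by
    rw [sub_pos, lt_div_iff₀ (by positivity)]
    have e : (B / τ + 3 / 2) * (3 / 2 * r) * (8 * τ ^ 2 * r) =
        12 * B * (τ * n) + 18 * (τ ^ 2 * n) := by
      rw [← hs2]
      field_simp
      ring
    rw [e]
    nlinarith
  set D := B / (8 * τ ^ 2 * r) - (B / τ + 3 / 2) * (3 / 2 * r) with hD
  set A := (1 + B / τ) + (B / τ + 3 / 2) * 20 + 1 with hA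
  refine ⟨max 1 (A / D), le_max_left _ _, ?_⟩
  have h5 : A ≤ max 1 (A / D) * D := by
    rw [← div_le_iff₀ h4]
    exact le_max_right _ _
  have e1 : B * max 1 (A / D) / (8 * τ ^ 2 * r) =
      max 1 (A / D) * D + (B / τ + 3 / 2) * (3 / 2 * max 1 (A / D) * r) := by
    rw [hD]
    field_simp
    ring
  rw [e1]
  have e2 : (1 + B / τ) + (B / τ + 3 / 2) * (3 / 2 * max 1 (A / D) * r + 20) + 1 =
      A + (B / τ + 3 / 2) * (3 / 2 * max 1 (A / D) * r) := by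
    rw [hA]; ring
  rw [e2]
  linarith

theorem HH_bad {f : St V s → ℝ} (hf : BadF G f) (τ : ℝ) (hτ : 0 < τ) (hτ0 : τ ≤ tau0 V)
    (F0 : Flag G s 0) (hdeg : ∀ u : V, ∃ t, G.Adj u t)
    (h0 : ∀ F0 : Flag G s 0, ∀ E, 0 < E → E ≤ cV V + 2 → ¬ Ext F0 τ f E) :
    ∃ B > 0, ∃ κ > 0, ∃ X ≥ 1, ∃ c1 > 0, ∃ ε > 0, ∀ z : St V s, 1 ≤ tot z → f z < ε →
      gen G (HH F0 τ B κ X) z ≤ -(c1 * tot z) := by
  -- `V` is not empty
  have hn : 1 ≤ cV V := by
    obtain ⟨z, hz, -⟩ := hf.bad 1 one_pos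
    have hne : Nonempty V := by
      by_contra h
      rw [not_nonempty_iff] at h
      have : tot z = 0 := by simp [tot]
      linarith
    have : 1 ≤ Fintype.card V := Fintype.card_pos
    unfold cV
    exact_mod_cast this
  have hn0 : 0 < cV V := by linarith
  obtain ⟨C0, hC0, hl⟩ := loja G s
  set B := max (8 * C0) (10 * τ) with hBdef
  have hB8 : 8 * C0 ≤ B := le_max_left _ _
  have hB10 : 10 * τ ≤ B := le_max_right _ _
  have hB : 0 < B := by linarith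
  obtain ⟨CB, hCB, hgen⟩ := HH_gen F0 τ hτ hτ0 C0 hC0 hl B hB8
  obtain ⟨X, hX, hX2⟩ := z7c_const hn hτ (by simpa [tau0] using hτ0) hB10
  have hν : 0 < 1 + B / τ := by positivity
  set κ := min (1 / (2 * cV V)) (1 / (8 * cV V ^ 3 * (1 + B / τ))) with hκdef
  have hκ : 0 < κ := lt_min (by positivity) (by positivity)
  have hκ1 : 2 * κ * cV V ≤ 1 := by
    have h1 : κ ≤ 1 / (2 * cV V) := min_le_left _ _
    rw [le_div_iff₀ (by positivity)] at h1
    linarith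
  have hκ2 : 8 * cV V ^ 3 * κ * (1 + B / τ) ≤ 1 := by
    have h1 : κ ≤ 1 / (8 * cV V ^ 3 * (1 + B / τ)) := min_le_right _ _
    rw [le_div_iff₀ (by positivity)] at h1
    calc 8 * cV V ^ 3 * κ * (1 + B / τ) = κ * (8 * cV V ^ 3 * (1 + B / τ)) := by ring
      _ ≤ 1 := h1
  obtain ⟨C2, hC2, T0, hT0, hgen2⟩ := hgen κ X hκ hX
  obtain ⟨K2, hK2, cA, hcA, hA⟩ := HH_caseA (G := G) (s := s) F0 τ hτ hτ0 B κ X CB C2 hB hκ hX
    hCB hC2
  obtain ⟨K3, hK3, cB, hcB, T, hT, hBB⟩ := HH_caseB (G := G) (s := s) F0 τ hτ hτ0 hdeg B κ X CB C2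
    K2 hB hκ hX hCB hC2 hK2 hκ1 hκ2 hX2
  have hκn : 0 < κ / Real.sqrt (cV V) := div_pos hκ (Real.sqrt_pos.2 hn0)
  obtain ⟨ε1, hε1, hstrict⟩ := zero_strict hf τ hτ hτ0 F0 h0 (κ / Real.sqrt (cV V)) K2 K3 hκn hK2
    hK3
  set T1 := max T0 T with hT1
  obtain ⟨c', hc', hpos⟩ := hf.pos (T1 ^ 2)
  refine ⟨B, hB, κ, hκ, X, hX, min cA cB, lt_min hcA hcB, min ε1 c', lt_min hε1 hc', ?_⟩
  intro z hz hfz
  have hT1z : T1 ≤ tot z := by
    by_contra h
    rw [not_le] at h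
    have h1 : qq z ≤ T1 ^ 2 := by
      refine (qq_le_tot_sq z).trans ?_
      have h2 : 0 ≤ tot z := by linarith
      nlinarith
    have := hpos z hz h1
    have h3 : f z < c' := lt_of_lt_of_le hfz (min_le_right _ _)
    linarith
  obtain ⟨c, y, hm⟩ := F0.exists_mx 0 τ (by
    rw [abs_zero]; linarith) hτ hτ0 z
  obtain ⟨hchi, hle⟩ := hgen2 z ((le_max_left _ _).trans hT1z) c y hm
  refine hle.trans ?_
  have htot : 0 ≤ tot z := by linarith
  rcases le_total (K2 * tot z) (dsq z.c (nR z) c y) with h | h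
  · refine (hA z hz c y hm hchi h).trans ?_
    have := mul_le_mul_of_nonneg_right (min_le_left cA cB) htot
    linarith
  · refine (hBB z ((le_max_right _ _).trans hT1z) c y hm h ?_).trans ?_
    · intro u t hut hu b
      exact hstrict z hz (lt_of_lt_of_le hfz (min_le_left _ _)) c y hm h u t hut hu b
    · have := mul_le_mul_of_nonneg_right (min_le_right cA cB) htot
      linarith

end UC
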